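import Pool.Agent.P.MP_bb7f8f_gt.Mid

/-! Real inequalities for the cylinder sums. -/

namespace Pool.Agent.STS
open Equiv Finset Filter

namespace Asym

/-- truncated power `S ^ n / n!` -/
noncomputable def ind (n : ℕ) (S : ℝ) : ℝ := if 0 ≤ S then S ^ n / n.factorial else 0

theorem ind_nonneg (n : ℕ) (S : ℝ) : 0 ≤ ind n S := by
  unfold ind
  split_ifs with h
  · positivity
  · exact le_rfl

theorem tele {h y : ℝ} (hh : 0 ≤ h) (hy : 0 ≤ y) (n : ℕ) :
    ((n : ℝ) + 1) * h * y ^ n + y ^ (n + 1) ≤ (y + h) ^ (n + 1) := by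
  induction n with
  | zero => simp; linarith
  | succ n ih =>
    have h1 : (y + h) * (((n : ℝ) + 1) * h * y ^ n + y ^ (n + 1)) ≤ (y + h) * (y + h) ^ (n + 1) :=
      mul_le_mul_of_nonneg_left ih (by positivity)
    have h2 : 0 ≤ ((n : ℝ) + 1) * h ^ 2 * y ^ n := by positivity
    have e1 : (y + h) ^ (n + 1 + 1) = (y + h) * (y + h) ^ (n + 1) := by ring
    have e2 : (y + h) * (((n : ℝ) + 1) * h * y ^ n + y ^ (n + 1)) =
        (((n + 1 : ℕ) : ℝ) + 1) * h * y ^ (n + 1) + y ^ (n + 1 + 1) +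
          ((n : ℝ) + 1) * h ^ 2 * y ^ n := by
      push_cast; ring
    rw [e1]; linarith

theorem ind_step {h : ℝ} (hh : 0 ≤ h) (y : ℝ) (m : ℕ) :
    h * ind m y + ind (m + 1) y ≤ ind (m + 1) (y + h) := by
  by_cases hy : 0 ≤ y
  · have hy' : 0 ≤ y + h := by linarith
    simp only [ind, if_pos hy, if_pos hy']
    have ht := tele hh hy m
    have hf : (0 : ℝ) < m.factorial := by positivity
    have e : h * (y ^ m / m.factorial) + y ^ (m + 1) / ((m + 1).factorial : ℕ) =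
        (((m : ℝ) + 1) * h * y ^ m + y ^ (m + 1)) / ((m + 1).factorial : ℕ) := by
      rw [Nat.factorial_succ]; push_cast; field_simp
    rw [e]
    exact div_le_div_of_nonneg_right ht (by positivity)
  · have : ind m y = 0 ∧ ind (m + 1) y = 0 := by simp [ind, hy]
    rw [this.1, this.2]
    simpa using ind_nonneg (m + 1) (y + h)

theorem one_dim {h : ℝ} (hh : 0 < h) (n J : ℕ) : ∀ (M : ℕ) (S : ℝ),
    ∑ w ∈ range M, (Nat.multichoose J w : ℝ) * ind n (S - h * w) ≤
      ind (n + J) (S + J * h) / h ^ J := by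
  induction J with
  | zero =>
    intro M S
    cases M with
    | zero => simpa using ind_nonneg n S
    | succ M => simp [sum_range_succ']
  | succ J ihJ =>
    intro M
    induction M with
    | zero => intro S; simpa using div_nonneg (ind_nonneg _ _) (by positivity)
    | succ M ihM =>
      intro S
      have e : ∑ w ∈ range (M + 1), (Nat.multichoose (J + 1) w : ℝ) * ind n (S - h * w) =
          ∑ w ∈ range (M + 1), (Nat.multichoose J w : ℝ) * ind n (S - h * w) +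
          ∑ w ∈ range M, (Nat.multichoose (J + 1) w : ℝ) * ind n (S - h - h * w) := by
        rw [sum_range_succ', sum_range_succ' (fun w => (Nat.multichoose J w : ℝ) * ind n (S - h * w))]
        have : ∀ w ∈ range M, (Nat.multichoose (J + 1) (w + 1) : ℝ) * ind n (S - h * ((w + 1 : ℕ) : ℝ)) =
            (Nat.multichoose J (w + 1) : ℝ) * ind n (S - h * ((w + 1 : ℕ) : ℝ)) +
            (Nat.multichoose (J + 1) w : ℝ) * ind n (S - h - h * w) := by
          intro w _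
          rw [Nat.multichoose_succ_succ]
          have : S - h * ((w + 1 : ℕ) : ℝ) = S - h - h * w := by push_cast; ring
          rw [this]; push_cast; ring
        rw [sum_congr rfl this, sum_add_distrib]
        simp only [Nat.multichoose_zero_right]
        ring
      rw [e]
      have h1 := ihJ (M + 1) S
      have h2 := ihM (S - h)
      have h3 := ind_step hh.le (S + J * h) (n + J)
      have e2 : S - h + ((J + 1 : ℕ) : ℝ) * h = S + J * h := by push_cast; ring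
      have e3 : S + ((J + 1 : ℕ) : ℝ) * h = S + J * h + h := by push_cast; ring
      rw [e2] at h2
      rw [e3]
      have e4 : ind (n + J) (S + J * h) / h ^ J + ind (n + (J + 1)) (S + J * h) / h ^ (J + 1) =
          (h * ind (n + J) (S + J * h) + ind (n + J + 1) (S + J * h)) / h ^ (J + 1) := by
        rw [← add_assoc]; field_simp; ring
      calc _ ≤ ind (n + J) (S + J * h) / h ^ J + ind (n + (J + 1)) (S + J * h) / h ^ (J + 1) :=
            add_le_add h1 h2
        _ = _ := e4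
        _ ≤ _ := div_le_div_of_nonneg_right h3 (by positivity)

theorem sum_pi_succ {k : ℕ} (s : Finset ℕ) (F : (Fin (k + 1) → ℕ) → ℝ) :
    ∑ w ∈ Fintype.piFinset (fun _ : Fin (k + 1) => s), F w =
      ∑ w ∈ Fintype.piFinset (fun _ : Fin k => s), ∑ a ∈ s, F (Fin.cons a w) := by
  rw [← sum_product']
  refine sum_nbij' (fun w => (Fin.tail w, w 0)) (fun p => Fin.cons p.2 p.1) ?_ ?_ ?_ ?_ ?_
  · intro w hw
    simp only [Fintype.mem_piFinset, mem_product] at hw ⊢
    exact ⟨fun i => hw _, hw 0⟩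
  · intro p hp
    simp only [Fintype.mem_piFinset, mem_product] at hp ⊢
    intro i
    refine Fin.cases ?_ (fun j => ?_) i
    · simpa using hp.2
    · simpa using hp.1 j
  · intro w _; simp
  · intro p _; simp
  · intro w _; simp

theorem multi_dim (M : ℕ) : ∀ (k : ℕ) (h : Fin k → ℝ) (J : Fin k → ℕ) (n : ℕ) (S : ℝ),
    (∀ i, 0 < h i) →
    ∑ w ∈ Fintype.piFinset (fun _ : Fin k => range M),
      (∏ i, (Nat.multichoose (J i) (w i) : ℝ)) * ind n (S - ∑ i, h i * w i) ≤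
      ind (n + ∑ i, J i) (S + ∑ i, J i * h i) / ∏ i, h i ^ J i := by
  intro k
  induction k with
  | zero => intro h J n S _; simp
  | succ k ih =>
    intro h J n S hh
    rw [sum_pi_succ]
    have step : ∀ w ∈ Fintype.piFinset (fun _ : Fin k => range M),
        ∑ a ∈ range M, (∏ i, (Nat.multichoose (J i) ((Fin.cons a w : Fin (k + 1) → ℕ) i) : ℝ)) *
          ind n (S - ∑ i, h i * ((Fin.cons a w : Fin (k + 1) → ℕ) i : ℝ)) ≤
        ((∏ i : Fin k, (Nat.multichoose (J i.succ) (w i) : ℝ)) *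
          ind (n + J 0) (S + J 0 * h 0 - ∑ i : Fin k, h i.succ * w i)) / h 0 ^ J 0 := by
      intro w _
      have h1 := one_dim (hh 0) n (J 0) M (S - ∑ i : Fin k, h i.succ * w i)
      have hp : 0 ≤ ∏ i : Fin k, (Nat.multichoose (J i.succ) (w i) : ℝ) := by positivity
      have e : ∀ a ∈ range M,
          (∏ i, (Nat.multichoose (J i) ((Fin.cons a w : Fin (k + 1) → ℕ) i) : ℝ)) *
          ind n (S - ∑ i, h i * ((Fin.cons a w : Fin (k + 1) → ℕ) i : ℝ)) =
          (∏ i : Fin k, (Nat.multichoose (J i.succ) (w i) : ℝ)) *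
          ((Nat.multichoose (J 0) a : ℝ) * ind n (S - ∑ i : Fin k, h i.succ * w i - h 0 * a)) := by
        intro a _
        rw [Fin.prod_univ_succ, Fin.sum_univ_succ]
        simp only [Fin.cons_zero, Fin.cons_succ]
        have : S - (h 0 * a + ∑ i : Fin k, h i.succ * w i) =
            S - ∑ i : Fin k, h i.succ * w i - h 0 * a := by ring
        rw [this]; ring
      rw [sum_congr rfl e, ← mul_sum, mul_div_assoc]
      have e2 : S + J 0 * h 0 - ∑ i : Fin k, h i.succ * w i =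
          S - ∑ i : Fin k, h i.succ * w i + J 0 * h 0 := by ring
      rw [e2]
      exact mul_le_mul_of_nonneg_left h1 hp
    refine (sum_le_sum step).trans ?_
    rw [← sum_div]
    have h2 := ih (fun i => h i.succ) (fun i => J i.succ) (n + J 0) (S + J 0 * h 0)
      (fun i => hh _)
    have hp : 0 < h 0 ^ J 0 := pow_pos (hh 0) _
    refine (div_le_div_of_nonneg_right h2 hp.le).trans (le_of_eq ?_)
    rw [Fin.prod_univ_succ, Fin.sum_univ_succ, Fin.sum_univ_succ, div_div, add_assoc, add_assoc,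
      mul_comm (h 0 ^ J 0)]

theorem pow_le_mc (w e : ℕ) : (w : ℝ) ^ e ≤ e.factorial * (Nat.multichoose (e + 1) w : ℝ) := by
  have h1 : w ^ e ≤ (w + 1) ^ e := Nat.pow_le_pow_left (Nat.le_succ w) e
  have h2 := Nat.pow_succ_le_ascFactorial (w + 1) e
  rw [Nat.ascFactorial_eq_factorial_mul_choose] at h2
  have h3 : Nat.multichoose (e + 1) w = (w + e).choose e := by
    rw [Nat.multichoose_eq]
    have : e + 1 + w - 1 = w + e := by omega
    rw [this]
    exact Nat.choose_symm_add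
  rw [h3]
  exact_mod_cast h1.trans h2

theorem zeta2 (N : ℕ) : ∑ h ∈ range N, 1 / ((h : ℝ) + 2) ^ 2 ≤ 1 - 1 / ((N : ℝ) + 1) := by
  induction N with
  | zero => simp
  | succ N ih =>
    rw [sum_range_succ]
    have : 1 / ((N : ℝ) + 2) ^ 2 ≤ 1 / ((N : ℝ) + 1) - 1 / (((N + 1 : ℕ) : ℝ) + 1) := by
      push_cast
      rw [div_sub_div _ _ (by positivity) (by positivity), div_le_div_iff₀ (by positivity)
        (by positivity)]
      nlinarith [Nat.cast_nonneg (α := ℝ) N]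
    linarith

theorem zeta (N J : ℕ) (hJ : 2 ≤ J) :
    ∑ h ∈ Icc 1 N, 1 / (h : ℝ) ^ J ≤ 1 + 4 / 2 ^ J := by
  obtain ⟨j, rfl⟩ := Nat.exists_eq_add_of_le hJ
  have hsub : Icc 1 N ⊆ insert 1 ((range N).image (· + 2)) := by
    intro x hx
    simp only [mem_Icc, mem_insert, mem_image, mem_range] at hx ⊢
    by_cases h1 : x = 1
    · exact Or.inl h1
    · exact Or.inr ⟨x - 2, by omega, by omega⟩
  refine (sum_le_sum_of_subset_of_nonneg hsub (fun _ _ _ => by positivity)).trans ?_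
  rw [sum_insert (by simp), sum_image (fun a _ b _ h => by simpa using h)]
  have h1 : ∀ h ∈ range N, 1 / (((h + 2 : ℕ) : ℝ)) ^ (2 + j) ≤
      1 / ((h : ℝ) + 2) ^ 2 * (1 / 2 ^ j) := by
    intro h _
    push_cast
    rw [pow_add, div_mul_div_comm, one_mul]
    apply one_div_le_one_div_of_le (by positivity)
    apply mul_le_mul_of_nonneg_left _ (by positivity)
    exact pow_le_pow_left₀ (by norm_num) (by linarith [Nat.cast_nonneg (α := ℝ) h]) j
  have h2 := sum_le_sum h1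
  rw [← sum_mul] at h2
  have h3 := zeta2 N
  have h4 : (0 : ℝ) ≤ 1 / ((N : ℝ) + 1) := by positivity
  have h5 : (∑ h ∈ range N, 1 / ((h : ℝ) + 2) ^ 2) * (1 / 2 ^ j) ≤ 1 * (1 / (2 : ℝ) ^ j) :=
    mul_le_mul_of_nonneg_right (by linarith) (by positivity)
  have e : (4 : ℝ) / 2 ^ (2 + j) = 1 * (1 / 2 ^ j) := by rw [pow_add]; field_simp; ring
  rw [e]
  simp only [Nat.cast_one, one_pow, div_one]
  linarith

theorem two_bound (D : ℕ) {x : ℝ} (hx : 0 ≤ x) (h : 4 * D * x ≤ 1) : (1 + x) ^ (2 * D) ≤ 2 := by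
  have h1 : (1 + x) ^ (2 * D) ≤ Real.exp x ^ (2 * D) :=
    pow_le_pow_left₀ (by linarith) (by linarith [Real.add_one_le_exp x]) _
  rw [← Real.exp_nat_mul] at h1
  have h2 : Real.exp (((2 * D : ℕ) : ℝ) * x) ≤ Real.exp (1 / 2) := by
    apply Real.exp_le_exp.2; push_cast; linarith
  have h3 : Real.exp (1 / 2) ≤ 2 := by
    have h4 : Real.exp (1 / 2) ^ 2 = Real.exp 1 := by
      rw [← Real.exp_nat_mul]; norm_num
    have h5 := Real.exp_one_lt_d9
    have h6 := Real.exp_pos (1 / 2)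
    nlinarith
  linarith

/-- one cylinder factor -/
theorem factor {D K w a b : ℕ} (hK : 1 ≤ K) (hw : K ≤ w) (ha : 1 ≤ a) (hb : 1 ≤ b)
    (haD : a ≤ D) (hbD : b ≤ D) :
    (w : ℝ) * omP a w * omP b w ≤
      (1 + (D : ℝ) / K) ^ (a + b) *
        (4 * (a + b - 1).factorial / (2 ^ (a + b) * a.factorial * b.factorial)) *
        (Nat.multichoose (a + b) w : ℝ) := by
  obtain ⟨a, rfl⟩ := Nat.exists_eq_add_of_le' ha
  obtain ⟨b, rfl⟩ := Nat.exists_eq_add_of_le' hb
  have hK' : (0 : ℝ) < K := by exact_mod_cast hK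
  have hw' : (K : ℝ) ≤ w := by exact_mod_cast hw
  set q : ℝ := 1 + (D : ℝ) / K with hq
  have hq1 : 1 ≤ q := by
    have : (0 : ℝ) ≤ (D : ℝ) / K := by positivity
    linarith
  have key : ∀ c : ℕ, c ≤ D → (w : ℝ) + c ≤ q * w := by
    intro c hc
    have hc' : (c : ℝ) ≤ D := by exact_mod_cast hc
    have : (D : ℝ) ≤ (D : ℝ) / K * w := by
      rw [div_mul_eq_mul_div, le_div_iff₀ hK']
      exact mul_le_mul_of_nonneg_left hw' (by positivity)
    rw [hq]; linarith
  have h1 : ((w : ℝ) + ((a + 1 : ℕ) : ℝ)) ^ a ≤ (q * w) ^ a :=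
    pow_le_pow_left₀ (by positivity) (key _ haD) a
  have h2 : ((w : ℝ) + ((b + 1 : ℕ) : ℝ)) ^ b ≤ (q * w) ^ b :=
    pow_le_pow_left₀ (by positivity) (key _ hbD) b
  have h3 := pow_le_mc w (a + b + 1)
  have e1 : a + 1 + (b + 1) - 1 = a + b + 1 := by omega
  have e2 : a + 1 + (b + 1) = a + b + 1 + 1 := by omega
  have h4 : q ^ (a + b) ≤ q ^ (a + b + 1 + 1) := pow_le_pow_right₀ hq1 (by omega)
  have h5 : (w : ℝ) * ((w : ℝ) + ((a + 1 : ℕ) : ℝ)) ^ a * ((w : ℝ) + ((b + 1 : ℕ) : ℝ)) ^ b ≤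
      q ^ (a + b + 1 + 1) * ((a + b + 1).factorial * (Nat.multichoose (a + b + 1 + 1) w : ℝ)) := by
    calc _ ≤ (w : ℝ) * (q * w) ^ a * (q * w) ^ b := by gcongr
      _ = q ^ (a + b) * (w : ℝ) ^ (a + b + 1) := by rw [mul_pow, mul_pow]; ring
      _ ≤ _ := by gcongr
  unfold omP
  simp only [Nat.add_sub_cancel]
  rw [e1, e2]
  have hd : (0 : ℝ) < 2 ^ (a + b + 1 + 1) * ((a + 1).factorial : ℝ) * ((b + 1).factorial : ℝ) := by
    positivity
  calc _ = 4 * ((w : ℝ) * ((w : ℝ) + ((a + 1 : ℕ) : ℝ)) ^ a * ((w : ℝ) + ((b + 1 : ℕ) : ℝ)) ^ b) /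
        (2 ^ (a + b + 1 + 1) * ((a + 1).factorial : ℝ) * ((b + 1).factorial : ℝ)) := by
        field_simp; ring
    _ ≤ 4 * (q ^ (a + b + 1 + 1) * ((a + b + 1).factorial *
          (Nat.multichoose (a + b + 1 + 1) w : ℝ))) /
        (2 ^ (a + b + 1 + 1) * ((a + 1).factorial : ℝ) * ((b + 1).factorial : ℝ)) := by gcongr
    _ = _ := by field_simp

theorem card_odd (D : ℕ) (hD : D ≠ 0) :
    ∑ a ∈ (range (D + 1)).filter Odd, (D.choose a : ℝ) = 2 ^ D / 2 := by
  have h1 : ∑ a ∈ range (D + 1), (D.choose a : ℝ) = 2 ^ D := by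
    exact_mod_cast Nat.sum_range_choose D
  have h2 : ∑ a ∈ range (D + 1), ((-1) ^ a * D.choose a : ℝ) = 0 := by
    exact_mod_cast Int.alternating_sum_range_choose_of_ne hD
  have h3 : ∑ a ∈ range (D + 1), (D.choose a : ℝ) - ∑ a ∈ range (D + 1), ((-1) ^ a * D.choose a : ℝ)
      = 2 * ∑ a ∈ (range (D + 1)).filter Odd, (D.choose a : ℝ) := by
    rw [← sum_sub_distrib, sum_filter, mul_sum]
    refine sum_congr rfl fun a _ => ?_
    split_ifs with h
    · rw [h.neg_one_pow]; ring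
    · rw [(Nat.not_odd_iff_even.1 h).neg_one_pow]; ring
  rw [h1, h2] at h3
  linarith

theorem sum_OT (D : ℕ) (hD : Even D) (F : ℕ → ℝ) :
    ∑ κ ∈ OT (Fin 1 × Bool) D, ∏ a, F (κ a) =
      ∑ a ∈ (range (D + 1)).filter Odd, F a * F (D - a) := by
  have hs : ∀ κ : Fin 1 × Bool → ℕ, ∑ a, κ a = κ (0, true) + κ (0, false) := by
    intro κ; simp [Fintype.sum_prod_type]
  have hp : ∀ κ : Fin 1 × Bool → ℕ, ∏ a, F (κ a) = F (κ (0, true)) * F (κ (0, false)) := by
    intro κ; simp [Fintype.prod_prod_type]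
  refine sum_nbij' (fun κ => κ (0, true)) (fun a x => if x.2 then a else D - a) ?_ ?_ ?_ ?_ ?_
  · intro κ hκ
    simp only [OT, mem_filter, Fintype.mem_piFinset] at hκ ⊢
    exact ⟨hκ.1 _, hκ.2.1 _⟩
  · intro a ha
    simp only [OT, mem_filter, Fintype.mem_piFinset, mem_range] at ha ⊢
    refine ⟨fun x => ?_, fun x => ?_, ?_⟩
    · split_ifs <;> omega
    · split_ifs
      · exact ha.2
      · exact Nat.Even.sub_odd (by omega) hD ha.2
    · rw [hs]; simp; omega
  · intro κ hκ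
    simp only [OT, mem_filter, Fintype.mem_piFinset] at hκ
    have := hκ.2.2
    rw [hs] at this
    funext x
    obtain ⟨i, b⟩ := x
    obtain rfl : i = 0 := Subsingleton.elim _ _
    cases b
    · simp; omega
    · simp
  · intro a _; simp
  · intro κ hκ
    simp only [OT, mem_filter, Fintype.mem_piFinset] at hκ
    have := hκ.2.2
    rw [hs] at this
    rw [hp]
    have e : D - κ (0, true) = κ (0, false) := by omega
    simp only [e]

theorem inv_fact_sum (D : ℕ) (hD : D ≠ 0) :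
    ∑ a ∈ (range (D + 1)).filter Odd,
      4 / (2 ^ D * (a.factorial : ℝ) * ((D - a).factorial : ℝ)) = 2 / D.factorial := by
  have h : ∀ a ∈ (range (D + 1)).filter Odd,
      4 / (2 ^ D * (a.factorial : ℝ) * ((D - a).factorial : ℝ)) =
        4 / (2 ^ D * D.factorial) * (D.choose a : ℝ) := by
    intro a ha
    simp only [mem_filter, mem_range] at ha
    rw [Nat.cast_choose ℝ (show a ≤ D by omega)]
    field_simp
  rw [sum_congr rfl h, ← mul_sum, card_odd D hD]
  field_simp; ring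

theorem om_split {D a : ℕ} (ha : 1 ≤ a) (haD : a + 1 ≤ D) (x y : ℝ) :
    2 * x ^ (a - 1) / (2 ^ a * a.factorial) *
      (2 * y ^ (D - a - 1) / (2 ^ (D - a) * (D - a).factorial)) =
    x ^ (a - 1) * y ^ (D - a - 1) * (4 / (2 ^ D * (a.factorial : ℝ) * ((D - a).factorial : ℝ))) := by
  have e : (2 : ℝ) ^ D = 2 ^ a * 2 ^ (D - a) := by
    rw [← pow_add]; congr 1; omega
  rw [e]; field_simp; ring

theorem odd_lt {D a : ℕ} (hD : Even D) (ha : a ∈ (range (D + 1)).filter Odd) :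
    1 ≤ a ∧ a + 1 ≤ D := by
  simp only [mem_filter, mem_range] at ha
  obtain ⟨⟨r, hr⟩, ⟨s, hs⟩⟩ := And.intro hD ha.2
  omega

theorem sumM {D w : ℕ} (hD : Even D) (h0 : D ≠ 0) (hw : D ≤ w) :
    2 / D.factorial * ((w : ℝ) - D) ^ (D - 2) ≤
      ∑ κ ∈ OT (Fin 1 × Bool) D, ∏ a, omM (κ a) w := by
  rw [sum_OT D hD (fun a => omM a w), ← inv_fact_sum D h0, sum_mul]
  refine sum_le_sum fun a ha => ?_
  obtain ⟨h1, h2⟩ := odd_lt hD ha
  unfold omM
  rw [om_split h1 h2, mul_comm]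
  have hw' : (D : ℝ) ≤ w := by exact_mod_cast hw
  have ha' : (a : ℝ) ≤ D := by exact_mod_cast (show a ≤ D by omega)
  have hb' : ((D - a : ℕ) : ℝ) ≤ D := by exact_mod_cast (show D - a ≤ D by omega)
  have e : D - 2 = (a - 1) + (D - a - 1) := by omega
  rw [e, pow_add]
  have hn : (0 : ℝ) ≤ (w : ℝ) - D := by linarith
  have hn' : (0 : ℝ) ≤ (w : ℝ) - a := by linarith
  gcongr

theorem sumP {D : ℕ} (w : ℕ) (hD : Even D) (h0 : D ≠ 0) :
    ∑ κ ∈ OT (Fin 1 × Bool) D, ∏ a, omP (κ a) w ≤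
      2 / D.factorial * ((w : ℝ) + D) ^ (D - 2) := by
  rw [sum_OT D hD (fun a => omP a w), ← inv_fact_sum D h0, sum_mul]
  refine sum_le_sum fun a ha => ?_
  obtain ⟨h1, h2⟩ := odd_lt hD ha
  unfold omP
  rw [om_split h1 h2, mul_comm]
  have ha' : (a : ℝ) ≤ D := by exact_mod_cast (show a ≤ D by omega)
  have hb' : ((D - a : ℕ) : ℝ) ≤ D := by exact_mod_cast (show D - a ≤ D by omega)
  have e : D - 2 = (a - 1) + (D - a - 1) := by omega
  rw [e, pow_add]
  gcongr

theorem dfact (D : ℕ) (hD : 25 ≤ D) :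
    128 * D ^ 3 * D.factorial ≤ (2 * D - 1).doubleFactorial := by
  induction D, hD using Nat.le_induction with
  | base => norm_num [Nat.factorial, Nat.doubleFactorial]
  | succ D hD ih =>
    have e : 2 * (D + 1) - 1 = (2 * D - 1) + 2 := by omega
    have e2 : 2 * D - 1 + 2 = 2 * D + 1 := by omega
    rw [e, Nat.doubleFactorial_add_two, e2, Nat.factorial_succ]
    have h1 : (D + 1) ^ 4 ≤ (2 * D + 1) * D ^ 3 := by
      obtain ⟨d, rfl⟩ := Nat.exists_eq_add_of_le' hD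
      ring_nf
      nlinarith [Nat.zero_le d, Nat.zero_le (d ^ 2), Nat.zero_le (d ^ 3), Nat.zero_le (d ^ 4)]
    calc 128 * (D + 1) ^ 3 * ((D + 1) * D.factorial) = 128 * (D + 1) ^ 4 * D.factorial := by ring
      _ ≤ 128 * ((2 * D + 1) * D ^ 3) * D.factorial := by gcongr
      _ = (2 * D + 1) * (128 * D ^ 3 * D.factorial) := by ring
      _ ≤ _ := by gcongr

/-- the lower bound of one term -/
theorem term {D w : ℕ} (hD : 25 ≤ D) (he : Even D) (hw : 8 * D ^ 2 ≤ w) :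
    DF {D} / (4 * D.factorial) * (w : ℝ) ^ (D - 1) ≤
      (w : ℝ) * (DF {D} / 2 * ∑ κ ∈ OT (Fin 1 × Bool) D, ∏ a, omM (κ a) w -
        DF {D} / 8 * ∑ κ ∈ OT (Fin 1 × Bool) D, ∏ a, omP (κ a) w -
        8 * D ^ 2 * (D - 1).factorial * ((w : ℝ) + D) ^ (D - 2) / (D - 2).factorial) := by
  have hDw : D ≤ w := by nlinarith
  have hM := sumM he (by omega) hDw
  have hP := sumP w he (by omega)
  have hF : 128 * (D : ℝ) ^ 3 * D.factorial ≤ DF {D} := by
    unfold DF; rw [prod_singleton]; exact_mod_cast dfact D hD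
  have hD' : (25 : ℝ) ≤ D := by exact_mod_cast hD
  have hw' : 8 * (D : ℝ) ^ 2 ≤ w := by exact_mod_cast hw
  have hw0 : (0 : ℝ) < w := by nlinarith
  have hf : (0 : ℝ) < D.factorial := by positivity
  have hDF : 0 ≤ DF {D} := le_trans (by positivity) hF
  set x : ℝ := D / w with hx
  have hx0 : 0 ≤ x := by positivity
  have hx1 : 8 * D * x ≤ 1 := by
    rw [hx, ← mul_div_assoc, div_le_one hw0]; nlinarith
  have hd2 : ((D - 2 : ℕ) : ℝ) ≤ D := by exact_mod_cast (show D - 2 ≤ D by omega)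
  have hlo : 7 / 8 * (w : ℝ) ^ (D - 2) ≤ ((w : ℝ) - D) ^ (D - 2) := by
    have e : (w : ℝ) - D = (1 + -x) * w := by rw [hx]; field_simp; ring
    have hb := one_add_mul_le_pow (a := -x) (by nlinarith) (D - 2)
    rw [e, mul_pow]
    apply mul_le_mul_of_nonneg_right _ (by positivity)
    nlinarith
  have hhi : ((w : ℝ) + D) ^ (D - 2) ≤ 2 * (w : ℝ) ^ (D - 2) := by
    have e : (w : ℝ) + D = (1 + x) * w := by rw [hx]; field_simp
    have hb := two_bound D hx0 (by nlinarith)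
    have hc : (1 + x) ^ (D - 2) ≤ (1 + x) ^ (2 * D) :=
      pow_le_pow_right₀ (by linarith) (by omega)
    rw [e, mul_pow]
    apply mul_le_mul_of_nonneg_right _ (by positivity)
    linarith
  have e1 : (w : ℝ) ^ (D - 1) = w * (w : ℝ) ^ (D - 2) := by
    have : D - 1 = (D - 2) + 1 := by omega
    rw [this, pow_succ]; ring
  have e2 : ((D - 1).factorial : ℝ) = ((D - 2 + 1 : ℕ) : ℝ) * (D - 2).factorial := by
    have : D - 1 = (D - 2) + 1 := by omega
    rw [this, Nat.factorial_succ]; push_cast; ring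
  have hd1 : ((D - 2 + 1 : ℕ) : ℝ) ≤ D := by exact_mod_cast (show D - 2 + 1 ≤ D by omega)
  set y : ℝ := (w : ℝ) ^ (D - 2) with hy
  have hy0 : 0 ≤ y := by positivity
  set G : ℝ := DF {D} / D.factorial with hG
  have hG1 : 128 * (D : ℝ) ^ 3 ≤ G := by rw [hG, le_div_iff₀ hf]; exact hF
  have hG0 : 0 ≤ G := le_trans (by positivity) hG1
  have t1 : 7 / 8 * (G * y) ≤ DF {D} / 2 * ∑ κ ∈ OT (Fin 1 × Bool) D, ∏ a, omM (κ a) w := by
    calc 7 / 8 * (G * y) = G * (7 / 8 * y) := by ring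
      _ ≤ G * ((w : ℝ) - D) ^ (D - 2) := mul_le_mul_of_nonneg_left hlo hG0
      _ = DF {D} / 2 * (2 / D.factorial * ((w : ℝ) - D) ^ (D - 2)) := by rw [hG]; field_simp
      _ ≤ _ := mul_le_mul_of_nonneg_left hM (by positivity)
  have t2 : DF {D} / 8 * ∑ κ ∈ OT (Fin 1 × Bool) D, ∏ a, omP (κ a) w ≤ 1 / 2 * (G * y) := by
    calc _ ≤ DF {D} / 8 * (2 / D.factorial * ((w : ℝ) + D) ^ (D - 2)) :=
          mul_le_mul_of_nonneg_left hP (by positivity)
      _ = G / 4 * ((w : ℝ) + D) ^ (D - 2) := by rw [hG]; field_simp; ring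
      _ ≤ G / 4 * (2 * y) := mul_le_mul_of_nonneg_left hhi (by positivity)
      _ = _ := by ring
  have t3 : 8 * D ^ 2 * ((D - 1).factorial : ℝ) * ((w : ℝ) + D) ^ (D - 2) / (D - 2).factorial ≤
      1 / 8 * (G * y) := by
    calc _ = 8 * D ^ 2 * ((D - 2 + 1 : ℕ) : ℝ) * ((w : ℝ) + D) ^ (D - 2) := by
          rw [e2]; field_simp
      _ ≤ 8 * D ^ 2 * (D : ℝ) * (2 * y) := by gcongr
      _ = 1 / 8 * (128 * (D : ℝ) ^ 3 * y) := by ring
      _ ≤ _ := by gcongr
  rw [e1]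
  have e3 : DF {D} / (4 * D.factorial) * (w * y) = w * (1 / 4 * (G * y)) := by
    rw [hG]; field_simp
  rw [e3]
  apply mul_le_mul_of_nonneg_left _ hw0.le
  linarith

end Asym

open Asym

theorem asym (D : ℕ) : ∃ K₀ : ℕ, ∀ K ≥ K₀, ∀ (k N : ℕ) (κ : Fin k × Bool → ℕ),
    (∀ a, 1 ≤ κ a) → ∑ a, κ a = D →
    ∑ p ∈ HW k K N, ∏ i, ((p.2 i : ℝ) * omP (κ (i, true)) (p.2 i) * omP (κ (i, false)) (p.2 i)) ≤
      2 * (N : ℝ) ^ D / D.factorial * ∏ i, cyl (κ (i, true)) (κ (i, false)) := by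
  refine ⟨4 * D ^ 2 + 1, fun K hK k N κ hκ hs => ?_⟩
  have hK1 : 1 ≤ K := by omega
  have hK' : (0 : ℝ) < K := by exact_mod_cast hK1
  set q : ℝ := 1 + (D : ℝ) / K with hq
  have hx0 : (0 : ℝ) ≤ (D : ℝ) / K := by positivity
  have hq2 : q ^ (2 * D) ≤ 2 := by
    apply two_bound D hx0
    rw [← mul_div_assoc, div_le_one hK']
    have : ((4 * D ^ 2 + 1 : ℕ) : ℝ) ≤ K := by exact_mod_cast hK
    push_cast at this
    nlinarith
  have hq0 : 0 ≤ q := by linarith
  set J : Fin k → ℕ := fun i => κ (i, true) + κ (i, false) with hJ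
  have hJs : ∑ i, J i = D := by
    rw [← hs, Fintype.sum_prod_type]; simp [hJ]
  have hκD : ∀ a, κ a ≤ D := fun a => by
    rw [← hs]; exact single_le_sum (fun _ _ => Nat.zero_le _) (mem_univ a)
  have hJD : ∀ i, J i ≤ D := fun i => by
    rw [← hJs]; exact single_le_sum (fun _ _ => Nat.zero_le _) (mem_univ i)
  have hJ2 : ∀ i, 2 ≤ J i := fun i => by
    have := hκ (i, true); have := hκ (i, false); simp only [hJ]; omega
  set c : Fin k → ℝ := fun i => 4 * (J i - 1).factorial /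
    (2 ^ J i * (κ (i, true)).factorial * (κ (i, false)).factorial) with hc
  have hc0 : ∀ i, 0 ≤ c i := fun i => by simp only [hc]; positivity
  have hC0 : 0 ≤ ∏ i, c i := prod_nonneg fun i _ => hc0 i
  set Hs : Finset (Fin k → ℕ) := (Fintype.piFinset fun _ : Fin k => Icc 1 N).filter
    fun h => K * ∑ i, h i ≤ N with hHs
  set G : (Fin k → ℕ) × (Fin k → ℕ) → ℝ := fun p =>
    (∏ i, (Nat.multichoose (J i) (p.2 i) : ℝ)) * ind 0 (N - ∑ i, (p.1 i : ℝ) * p.2 i) with hG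
  have hG0 : ∀ p, 0 ≤ G p := fun p => mul_nonneg (by positivity) (ind_nonneg _ _)
  have s1 : ∀ p ∈ HW k K N,
      ∏ i, ((p.2 i : ℝ) * omP (κ (i, true)) (p.2 i) * omP (κ (i, false)) (p.2 i)) ≤
        q ^ D * (∏ i, c i) * G p := by
    intro p hp
    simp only [HW, mem_filter] at hp
    obtain ⟨-, -, h2, h3⟩ := hp
    have hi : ind 0 (N - ∑ i, (p.1 i : ℝ) * p.2 i) = 1 := by
      have : ∑ i, (p.1 i : ℝ) * p.2 i ≤ N := by exact_mod_cast h3
      simp [ind, this]
    simp only [hG, hi, mul_one]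
    rw [← hJs, ← prod_pow_eq_pow_sum, ← prod_mul_distrib, ← prod_mul_distrib]
    refine prod_le_prod (fun i _ => ?_) (fun i _ => ?_)
    · unfold omP; positivity
    · exact factor hK1 (h2 i) (hκ _) (hκ _) (hκD _) (hκD _)
  have s2 : HW k K N ⊆ Hs ×ˢ (Fintype.piFinset fun _ : Fin k => range (N + 1)) := by
    intro p hp
    simp only [HW, mem_filter, mem_product, Fintype.mem_piFinset, mem_range, hHs, mem_Icc] at hp ⊢
    obtain ⟨⟨h0, h0'⟩, h1, h2, h3⟩ := hp
    refine ⟨⟨fun i => ⟨h1 i, by have := h0 i; omega⟩, ?_⟩, h0'⟩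
    refine le_trans ?_ h3
    rw [mul_sum]
    exact sum_le_sum fun i _ => by rw [mul_comm]; exact Nat.mul_le_mul_left _ (h2 i)
  have s3 : ∀ h ∈ Hs, ∑ w ∈ Fintype.piFinset (fun _ : Fin k => range (N + 1)), G (h, w) ≤
      q ^ D * ((N : ℝ) ^ D / D.factorial) * ∏ i, 1 / (h i : ℝ) ^ J i := by
    intro h hh
    simp only [hHs, mem_filter, Fintype.mem_piFinset, mem_Icc] at hh
    have hpos : ∀ i, (0 : ℝ) < h i := fun i => by exact_mod_cast (hh.1 i).1
    have h1 := multi_dim (N + 1) k (fun i => (h i : ℝ)) J 0 N hpos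
    refine h1.trans ?_
    rw [zero_add, hJs, prod_div_distrib, prod_const_one, mul_one_div]
    apply div_le_div_of_nonneg_right _ (prod_nonneg fun i _ => (pow_pos (hpos i) _).le)
    have hs0 : (0 : ℝ) ≤ ∑ i, (J i : ℝ) * h i := by positivity
    have hs1 : ∑ i, (J i : ℝ) * h i ≤ (D : ℝ) / K * N := by
      have h2 : (K : ℝ) * ∑ i, (h i : ℝ) ≤ N := by exact_mod_cast hh.2
      have h3 : ∑ i, (J i : ℝ) * h i ≤ D * ∑ i, (h i : ℝ) := by
        rw [mul_sum]
        refine sum_le_sum fun i _ => mul_le_mul_of_nonneg_right ?_ (hpos i).le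
        exact_mod_cast hJD i
      refine h3.trans ?_
      rw [div_mul_eq_mul_div, le_div_iff₀ hK', mul_assoc, mul_comm _ (K : ℝ)]
      exact mul_le_mul_of_nonneg_left h2 (by positivity)
    have hs2 : (0 : ℝ) ≤ N + ∑ i, (J i : ℝ) * h i := by positivity
    rw [ind, if_pos hs2, ← mul_div_assoc, ← mul_pow]
    apply div_le_div_of_nonneg_right _ (by positivity)
    apply pow_le_pow_left₀ hs2
    rw [hq]; linarith
  have s4 : ∑ h ∈ Hs, ∏ i, 1 / (h i : ℝ) ^ J i ≤ ∏ i, (1 + 4 / (2 : ℝ) ^ J i) := by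
    refine (sum_le_sum_of_subset_of_nonneg (filter_subset _ _)
      (fun _ _ _ => by positivity)).trans ?_
    rw [← prod_univ_sum (fun _ : Fin k => Icc 1 N) (fun i x => 1 / (x : ℝ) ^ J i)]
    exact prod_le_prod (fun i _ => by positivity) (fun i _ => zeta N (J i) (hJ2 i))
  have s5 : ∑ p ∈ HW k K N, G p ≤
      q ^ D * ((N : ℝ) ^ D / D.factorial) * ∏ i, (1 + 4 / (2 : ℝ) ^ J i) := by
    refine (sum_le_sum_of_subset_of_nonneg s2 (fun p _ _ => hG0 p)).trans ?_
    rw [sum_product]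
    refine (sum_le_sum s3).trans ?_
    rw [← mul_sum]
    exact mul_le_mul_of_nonneg_left s4 (by positivity)
  have e : ∏ i, cyl (κ (i, true)) (κ (i, false)) = (∏ i, c i) * ∏ i, (1 + 4 / (2 : ℝ) ^ J i) := by
    rw [← prod_mul_distrib]; rfl
  refine (sum_le_sum s1).trans ?_
  rw [← mul_sum, e]
  have hZ : 0 ≤ ∏ i, (1 + 4 / (2 : ℝ) ^ J i) := by positivity
  calc _ ≤ q ^ D * (∏ i, c i) *
        (q ^ D * ((N : ℝ) ^ D / D.factorial) * ∏ i, (1 + 4 / (2 : ℝ) ^ J i)) :=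
        mul_le_mul_of_nonneg_left s5 (by positivity)
    _ = q ^ (2 * D) * (((N : ℝ) ^ D / D.factorial) *
        ((∏ i, c i) * ∏ i, (1 + 4 / (2 : ℝ) ^ J i))) := by ring
    _ ≤ 2 * (((N : ℝ) ^ D / D.factorial) *
        ((∏ i, c i) * ∏ i, (1 + 4 / (2 : ℝ) ^ J i))) :=
        mul_le_mul_of_nonneg_right hq2 (by positivity)
    _ = _ := by ring

theorem lowSum : ∃ D₀ : ℕ, ∀ D ≥ D₀, Even D → ∀ᶠ N : ℕ in atTop, ∃ W : Finset ℕ,
    (∀ w ∈ W, Even w ∧ D ≤ w ∧ w ≤ N) ∧
    DF {D} * (N : ℝ) ^ D / (64 * D * D.factorial) ≤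
      ∑ w ∈ W, (w : ℝ) * (DF {D} / 2 * ∑ κ ∈ OT (Fin 1 × Bool) D, ∏ a, omM (κ a) w -
        DF {D} / 8 * ∑ κ ∈ OT (Fin 1 × Bool) D, ∏ a, omP (κ a) w -
        8 * D ^ 2 * (D - 1).factorial * ((w : ℝ) + D) ^ (D - 2) / (D - 2).factorial) := by
  refine ⟨25, fun D hD he => ?_⟩
  filter_upwards [eventually_ge_atTop (16 * D ^ 2)] with N hN
  set L := N / (4 * D) with hL
  have hD0 : 0 < 4 * D := by omega
  have hL1 : 4 * D * L ≤ N := Nat.mul_div_le N (4 * D)
  have hL2 : N < 4 * D * (L + 1) := Nat.lt_mul_div_succ N hD0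
  have hL3 : 4 * L ≤ N := by nlinarith
  have hL4 : N ≤ 8 * D * L := by
    have : 1 ≤ L := by
      by_contra h
      have : L = 0 := by omega
      rw [this] at hL2
      nlinarith
    nlinarith
  set W := (range L).image fun j => 2 * (N / 2 - j) with hW
  have hmem : ∀ w ∈ W, Even w ∧ w ≤ N ∧ N ≤ w + 2 * L := by
    intro w hw
    simp only [hW, mem_image, mem_range] at hw
    obtain ⟨j, hj, rfl⟩ := hw
    exact ⟨even_two_mul _, by omega, by omega⟩
  have hcard : #W = L := by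
    rw [hW, card_image_of_injOn, card_range]
    intro a ha b hb hab
    simp only [coe_range, Set.mem_Iio] at ha hb
    simp only at hab
    omega
  have hbig : ∀ w ∈ W, 8 * D ^ 2 ≤ w := fun w hw => by have := hmem w hw; omega
  refine ⟨W, fun w hw => ⟨(hmem w hw).1, ?_, (hmem w hw).2.1⟩, ?_⟩
  · have := hbig w hw; nlinarith
  have hDF : 0 ≤ DF {D} := by unfold DF; positivity
  have hD' : (25 : ℝ) ≤ D := by exact_mod_cast hD
  have hpow : ∀ w ∈ W, (N : ℝ) ^ (D - 1) / 2 ≤ (w : ℝ) ^ (D - 1) := by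
    intro w hw
    have h1 : (N : ℝ) ≤ w + 2 * L := by exact_mod_cast (hmem w hw).2.2
    have h2 : 4 * (D : ℝ) * L ≤ N := by exact_mod_cast hL1
    set x : ℝ := 1 / (2 * D) with hx
    have hx0 : 0 ≤ x := by positivity
    have hx1 : 2 * D * x = 1 := by rw [hx]; field_simp
    have h3 : (1 + -x) * N ≤ w := by
      have : 2 * (L : ℝ) ≤ x * N := by
        calc 2 * (L : ℝ) = x * (4 * D * L) := by rw [hx]; field_simp; ring
          _ ≤ x * N := mul_le_mul_of_nonneg_left h2 hx0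
      linarith
    have hx2 : x ≤ 1 := by nlinarith
    have hb := one_add_mul_le_pow (a := -x) (by linarith) (D - 1)
    have hd1 : ((D - 1 : ℕ) : ℝ) ≤ D := by exact_mod_cast (show D - 1 ≤ D by omega)
    have h4 : 1 / 2 ≤ (1 + -x) ^ (D - 1) := by nlinarith
    calc (N : ℝ) ^ (D - 1) / 2 = 1 / 2 * (N : ℝ) ^ (D - 1) := by ring
      _ ≤ (1 + -x) ^ (D - 1) * (N : ℝ) ^ (D - 1) := by gcongr
      _ = ((1 + -x) * N) ^ (D - 1) := by rw [mul_pow]
      _ ≤ _ := pow_le_pow_left₀ (mul_nonneg (by linarith) (by positivity)) h3 _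
  have hsum := card_nsmul_le_sum W _ (DF {D} / (4 * D.factorial) * ((N : ℝ) ^ (D - 1) / 2))
    (fun w hw => (mul_le_mul_of_nonneg_left (hpow w hw) (by positivity)).trans
      (term hD he (hbig w hw)))
  refine le_trans ?_ hsum
  rw [hcard, nsmul_eq_mul]
  have e : (N : ℝ) ^ D = N * (N : ℝ) ^ (D - 1) := by
    have : D = (D - 1) + 1 := by omega
    conv_lhs => rw [this, pow_succ]
    ring
  have hL5 : (N : ℝ) ≤ 8 * D * L := by exact_mod_cast hL4
  rw [e]
  calc DF {D} * (N * (N : ℝ) ^ (D - 1)) / (64 * D * D.factorial) ≤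
        DF {D} * ((8 * D * L) * (N : ℝ) ^ (D - 1)) / (64 * D * D.factorial) := by gcongr
    _ = _ := by field_simp; ring

end Pool.Agent.STS
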