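import Pool.Agent.P.MP_bb7f8f_gt.Mid

/-!
Basic facts: centraliser of the half-turn, lattice point counts, ranks, finiteness.
-/

set_option linter.unusedSectionVars false

namespace Pool.Agent.STS
open Equiv Finset Filter

variable {H J I : Type} [Fintype H] [DecidableEq H] [Fintype J] [DecidableEq J]
  [Fintype I] [DecidableEq I] {σ : Perm H} {π : H → J} {v : J → ℕ} {D : ℕ}

namespace Base

/-- the signed permutation attached to `p` and `s` -/
def sp {N : ℕ} (p : Perm (Fin N)) (s : Fin N → Bool) : Perm (XS N) where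
  toFun x := (p x.1, xor (s x.1) x.2)
  invFun x := (p.symm x.1, xor (s (p.symm x.1)) x.2)
  left_inv := by rintro ⟨i, b⟩; simp
  right_inv := by rintro ⟨i, b⟩; simp

theorem io_apply {N : ℕ} (i : Fin N) (b : Bool) : io N (i, b) = (i, !b) := rfl

theorem sp_apply {N : ℕ} (p : Perm (Fin N)) (s : Fin N → Bool) (i : Fin N) (b : Bool) :
    sp p s (i, b) = (p i, xor (s i) b) := rfl

theorem sp_comm {N : ℕ} (p : Perm (Fin N)) (s : Fin N → Bool) :
    sp p s * io N = io N * sp p s := by
  ext1 ⟨i, b⟩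
  simp only [Perm.mul_apply, io_apply, sp_apply]
  cases b <;> simp

theorem exists_coords (n : ℕ) : ∀ U : Submodule ℚ (H → ℚ), Module.finrank ℚ U = n →
    ∃ F : Finset H, #F ≤ n ∧ ∀ u ∈ U, (∀ x ∈ F, u x = 0) → u = 0 := by
  induction n using Nat.strong_induction_on with
  | _ n ih =>
    intro U hU
    by_cases h : ∀ u ∈ U, u = 0
    · exact ⟨∅, by simp, fun u hu _ => h u hu⟩
    · push Not at h
      obtain ⟨u, hu, hu0⟩ := h
      obtain ⟨x, hx⟩ := Function.ne_iff.1 hu0
      have hlt : U ⊓ LinearMap.ker (LinearMap.proj x : (H → ℚ) →ₗ[ℚ] ℚ) < U := by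
        refine lt_of_le_of_ne inf_le_left fun he => hx ?_
        have : u ∈ U ⊓ LinearMap.ker (LinearMap.proj x : (H → ℚ) →ₗ[ℚ] ℚ) := he.symm ▸ hu
        simpa using this.2
      have hr := Submodule.finrank_lt_finrank_of_lt hlt
      obtain ⟨F, hF, hF'⟩ := ih _ (hU ▸ hr) _ rfl
      refine ⟨insert x F, ?_, fun w hw hw0 => hF' w ⟨hw, ?_⟩ fun y hy => hw0 y ?_⟩
      · have := Finset.card_insert_le x F
        omega
      · simpa using hw0 x (Finset.mem_insert_self _ _)
      · exact Finset.mem_insert_of_mem hy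

theorem exists_odd_pow (hc : Cyc σ π v) (x : H) : ∃ n, Odd n ∧ (σ ^ n) x = x := by
  by_cases hx : σ x = x
  · exact ⟨1, odd_one, by simpa using hx⟩
  · have hcyc := Equiv.Perm.isCycle_cycleOf σ hx
    have hs : (σ.cycleOf x).support = univ.filter fun y => π y = π x := by
      ext y
      rw [Equiv.Perm.mem_support_cycleOf_iff]
      simp only [Equiv.Perm.mem_support, ne_eq, hx, not_false_eq_true, and_true,
        Finset.mem_filter, Finset.mem_univ, true_and]
      rw [eq_comm, hc.same]
    refine ⟨orderOf (σ.cycleOf x), ?_, ?_⟩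
    · rw [hcyc.orderOf, hs, hc.card]
      exact hc.odd _
    · rw [← Equiv.Perm.cycleOf_pow_apply_self, pow_orderOf_eq_one]
      rfl

omit [DecidableEq H] [Fintype I] [DecidableEq I] [Fintype H] in
theorem lab_step {α : Perm H} {c : H → I} (hl : IsLab σ α c) (x : H) : c (σ (α x)) = c x :=
  (hl.1 _ _).2 (Equiv.Perm.sameCycle_apply_left.2 (Equiv.Perm.SameCycle.refl _ _) :
    (σ * α).SameCycle ((σ * α) x) x)

/-- functions invariant under `α` -/
def Inv (α : Perm H) : Submodule ℚ (H → ℚ) where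
  carrier := {l | ∀ x, l (α x) = l x}
  add_mem' := fun {a b} ha hb x => by simp [ha x, hb x]
  zero_mem' := fun x => rfl
  smul_mem' := fun r a ha x => by simp [ha x]

theorem finrank_Inv (hD : Fintype.card H = 2 * D) {α : Perm H} (hα : IsMt α) :
    Module.finrank ℚ (Inv α) = D := by
  classical
  let e := Fintype.equivFin H
  let p : H → Prop := fun x => e x < e (α x)
  have hp : ∀ x, ¬ p x ↔ p (α x) := by
    intro x
    have h1 : e (α x) ≠ e x := fun h => (hα x).2 (e.injective h)
    simp only [p, (hα x).1, not_lt]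
    exact ⟨fun h => lt_of_le_of_ne h h1, le_of_lt⟩
  have hcard : Fintype.card {x // p x} = D := by
    have h1 : #{x | ¬ p x} = #{x | p x} := by
      refine Finset.card_bij (fun x _ => α x) ?_ ?_ ?_
      · intro x hx
        simpa using (hp x).1 (by simpa using hx)
      · intro x _ y _ h
        exact α.injective h
      · intro y hy
        refine ⟨α y, ?_, (hα y).1⟩
        have hy' : p y := by simpa using hy
        have : ¬ p (α y) := fun h => (hp y).2 h hy'
        simpa using this
    have h2 := Finset.card_filter_add_card_filter_not (s := (univ : Finset H)) p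
    rw [Finset.card_univ, h1] at h2
    have h3 : #(filter p univ) + #(filter p univ) = 2 * D := h2.trans hD
    rw [Fintype.card_subtype]
    change #(filter p univ) = D
    omega
  let R : Inv α →ₗ[ℚ] ({x // p x} → ℚ) :=
    { toFun := fun l x => l.1 x.1
      map_add' := fun _ _ => rfl
      map_smul' := fun _ _ => rfl }
  have hR : Function.Bijective R := by
    constructor
    · intro l l' h
      ext x
      by_cases hx : p x
      · exact congrFun h ⟨x, hx⟩
      · have := congrFun h ⟨α x, (hp x).1 hx⟩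
        change l.1 (α x) = l'.1 (α x) at this
        rwa [l.2 x, l'.2 x] at this
    · intro g
      refine ⟨⟨fun x => if hx : p x then g ⟨x, hx⟩ else g ⟨α x, (hp x).1 hx⟩, fun x => ?_⟩, ?_⟩
      · by_cases hx : p x
        · have hx' : ¬ p (α x) := fun h => (hp x).2 h hx
          simp only [dif_pos hx, dif_neg hx', (hα x).1]
        · simp only [dif_neg hx, dif_pos ((hp x).1 hx)]
      · ext x
        change (if hx : p x.1 then g ⟨x.1, hx⟩ else g ⟨α x.1, (hp x.1).1 hx⟩) = g x
        rw [dif_pos x.2]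
  rw [(LinearEquiv.ofBijective R hR).finrank_eq, Module.finrank_fintype_fun_eq_card, hcard]

theorem surj_of_dual {V K : Type} [AddCommGroup V] [Module ℚ V] [Fintype K] [DecidableEq K]
    (φ : V →ₗ[ℚ] (K → ℚ)) (h : ∀ a : K → ℚ, (∀ w, ∑ i, φ w i * a i = 0) → a = 0) :
    LinearMap.range φ = ⊤ := by
  by_contra hne
  obtain ⟨f, hf0, hf⟩ := Submodule.exists_le_ker_of_lt_top _ (lt_top_iff_ne_top.2 hne)
  have hrep : ∀ w : K → ℚ, f w = ∑ i, w i * f (Pi.single i 1) := by
    intro w
    conv_lhs => rw [pi_eq_sum_univ' w]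
    rw [map_sum]
    simp [map_smul]
  have ha := h (fun i => f (Pi.single i 1)) fun w => by
    rw [← hrep]
    exact hf ⟨w, rfl⟩
  apply hf0
  ext1 i
  ext
  simpa using congrFun ha i

theorem ncard_le_mul {A B : Type} (S : Set A) (f : A → B) (t : Finset B) (n : ℕ)
    (hf : ∀ a ∈ S, f a ∈ t) (hn : ∀ b ∈ t, Set.ncard {a | a ∈ S ∧ f a = b} ≤ n) :
    S.ncard ≤ n * #t := by
  classical
  by_cases hS : S.Finite
  · rw [Set.ncard_eq_toFinset_card _ hS]
    refine Finset.card_le_mul_card_image_of_maps_to (f := f) (fun a ha => hf a (by simpa using ha))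
      n fun b hb => le_trans (le_of_eq ?_) (hn b hb)
    rw [← Set.ncard_coe_finset]
    congr 1
    ext a
    simp
  · rw [Set.Infinite.ncard hS]
    exact Nat.zero_le _

omit [DecidableEq H] [Fintype I] in
theorem le_per (c : H → I) (l : H → ℕ) (x : H) : l x ≤ per c l (c x) :=
  Finset.single_le_sum (f := l) (fun _ _ => Nat.zero_le _) (by simp)

theorem finite_le (M : ℕ) : Set.Finite {l : H → ℕ | ∀ x, l x ≤ M} :=
  (Set.finite_Iic (fun _ => M : H → ℕ)).subset fun _ hl => hl

omit [DecidableEq H] in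
theorem hw_le {k N : ℕ} {δ : Datum H k} (hδ : IsDat σ N δ) (i : Fin k) : δ.h i * δ.w i ≤ N :=
  hδ.area ▸ Finset.single_le_sum (f := fun i => δ.h i * δ.w i) (fun _ _ => Nat.zero_le _)
    (Finset.mem_univ i)

end Base

open Base

theorem cent (N : ℕ) :
    Nat.card {g : Perm (XS N) // g * io N = io N * g} = 2 ^ N * N.factorial := by
  let Φ : Perm (Fin N) × (Fin N → Bool) → {g : Perm (XS N) // g * io N = io N * g} :=
    fun q => ⟨sp q.1 q.2, sp_comm _ _⟩
  have hΦ : Function.Bijective Φ := by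
    constructor
    · rintro ⟨p, s⟩ ⟨p', s'⟩ h
      have h' : sp p s = sp p' s' := congrArg Subtype.val h
      have key : ∀ i, p i = p' i ∧ s i = s' i := fun i => by
        have := congrArg (fun g : Perm (XS N) => g (i, false)) h'
        simpa [sp_apply] using this
      exact Prod.ext (Equiv.ext fun i => (key i).1) (funext fun i => (key i).2)
    · rintro ⟨g, hg⟩
      have ht : ∀ i, g (i, true) = ((g (i, false)).1, !(g (i, false)).2) := fun i => by
        have := congrArg (fun u : Perm (XS N) => u (i, false)) hg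
        exact this
      have hb : ∀ i b, g (i, b) = ((g (i, false)).1, xor (g (i, false)).2 b) := fun i b => by
        cases b
        · simp
        · simp [ht i]
      have hinj : Function.Injective fun i => (g (i, false)).1 := by
        intro i j hij
        have : g (i, (g (i, false)).2) = g (j, (g (j, false)).2) := by
          rw [hb i, hb j]
          simpa using hij
        exact congrArg Prod.fst (g.injective this)
      refine ⟨⟨Equiv.ofBijective _ (Finite.injective_iff_bijective.1 hinj),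
        fun i => (g (i, false)).2⟩, Subtype.ext ?_⟩
      ext1 ⟨i, b⟩
      exact (hb i b).symm
  rw [← Nat.card_eq_of_bijective Φ hΦ]
  simp [Fintype.card_perm, mul_comm]

theorem proj (U : Submodule ℚ (H → ℚ)) (S : Set (H → ℕ)) (B : ℕ) (hB : ∀ l ∈ S, ∀ x, l x ≤ B)
    (hU : ∀ l ∈ S, ∀ l' ∈ S, (fun x => (l x : ℚ) - l' x) ∈ U) :
    S.ncard ≤ (B + 1) ^ Module.finrank ℚ U := by
  obtain ⟨F, hF, hF'⟩ := exists_coords _ U rfl
  let f : (H → ℕ) → ({x // x ∈ F} → Fin (B + 1)) :=
    fun l x => ⟨min (l x.1) B, Nat.lt_succ_of_le (min_le_right _ _)⟩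
  have hinj : Set.InjOn f S := by
    intro l hl l' hl' h
    have h0 := hF' _ (hU l hl l' hl') fun x hx => by
      have := congrArg Fin.val (congrFun h ⟨x, hx⟩)
      simp only [f, min_eq_left (hB l hl x), min_eq_left (hB l' hl' x)] at this
      simp [this]
    funext x
    have := congrFun h0 x
    simp only [Pi.zero_apply, sub_eq_zero] at this
    exact_mod_cast this
  calc S.ncard ≤ (Set.univ : Set ({x // x ∈ F} → Fin (B + 1))).ncard :=
        Set.ncard_le_ncard_of_injOn f (fun _ _ => Set.mem_univ _) hinj (Set.toFinite _)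
    _ = (B + 1) ^ #F := by simp [Set.ncard_univ]
    _ ≤ _ := Nat.pow_le_pow_right (Nat.succ_pos _) hF

theorem rank_full (hc : Cyc σ π v) {α : Perm H} {c : H → I} (hl : IsLab σ α c)
    (hα : IsMt α) (y : I → ℚ) (hy : ∀ x, y (c x) + y (c (α x)) = 0) : y = 0 := by
  have h1 : ∀ x, y (c (σ x)) = - y (c x) := fun x => by
    have h := lab_step hl (α x)
    rw [(hα x).1] at h
    rw [h]
    linarith [hy x]
  have h2 : ∀ (n : ℕ) x, y (c ((σ ^ n) x)) = (-1) ^ n * y (c x) := fun n x => by
    induction n with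
    | zero => simp
    | succ n ih => rw [pow_succ', Perm.mul_apply, h1, ih]; ring
  funext i
  obtain ⟨x, rfl⟩ := hl.2 i
  obtain ⟨n, hn, hx⟩ := exists_odd_pow hc x
  have := h2 n x
  rw [hx, hn.neg_one_pow] at this
  change y (c x) = 0
  linarith

theorem two_k_le (hc : Cyc σ π v) (hD : Fintype.card H = 2 * D) {α : Perm H} {c : H → I}
    (hl : IsLab σ α c) (hα : IsMt α) : Fintype.card I ≤ D := by
  let ψ : (I → ℚ) →ₗ[ℚ] Inv α :=
    { toFun := fun y => ⟨fun x => y (c x) + y (c (α x)), fun x => by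
        simp only [(hα x).1]; ring⟩
      map_add' := fun a b => by ext x; simp only [Pi.add_apply, Submodule.coe_add]; ring
      map_smul' := fun r a => by
        ext x
        simp only [Pi.smul_apply, smul_eq_mul, RingHom.id_apply, Submodule.coe_smul]
        ring }
  have hψ : Function.Injective ψ := by
    rw [injective_iff_map_eq_zero]
    intro y hy
    exact rank_full hc hl hα y fun x => congrFun (congrArg Subtype.val hy) x
  have := LinearMap.finrank_le_finrank_of_injective hψ
  rwa [Module.finrank_fintype_fun_eq_card, finrank_Inv hD hα] at this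

theorem vsp_dim (hc : Cyc σ π v) (hD : Fintype.card H = 2 * D) {k : ℕ} {α : Perm H}
    {c : H → Fin k × Bool} (hl : IsLab σ α c) (hα : IsMt α) :
    Module.finrank ℚ (Vsp α c) + k = D := by
  let φ : Inv α →ₗ[ℚ] (Fin k → ℚ) :=
    { toFun := fun l i => ∑ x with c x = (i, true), l.1 x - ∑ x with c x = (i, false), l.1 x
      map_add' := fun a b => by
        ext i
        simp only [Submodule.coe_add, Pi.add_apply, Finset.sum_add_distrib]
        ring
      map_smul' := fun r a => by
        ext i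
        simp only [Submodule.coe_smul, Pi.smul_apply, smul_eq_mul, RingHom.id_apply,
          ← Finset.mul_sum]
        ring }
  have hsurj : LinearMap.range φ = ⊤ := by
    refine surj_of_dual φ fun a ha => ?_
    let y : Fin k × Bool → ℚ := fun q => if q.2 then a q.1 else - a q.1
    have hsum : ∀ l : Inv α, ∑ x, l.1 x * y (c x) = 0 := fun l => by
      rw [← ha l, ← Finset.sum_fiberwise (s := univ) (g := c), Fintype.sum_prod_type]
      refine Finset.sum_congr rfl fun i _ => ?_
      rw [Fintype.sum_bool]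
      change _ = (∑ x with c x = (i, true), l.1 x - ∑ x with c x = (i, false), l.1 x) * a i
      rw [sub_mul, Finset.sum_mul, Finset.sum_mul, sub_eq_add_neg, ← Finset.sum_neg_distrib]
      congr 1
      · refine Finset.sum_congr rfl fun x hx => ?_
        rw [(Finset.mem_filter.1 hx).2]
        simp [y]
      · refine Finset.sum_congr rfl fun x hx => ?_
        rw [(Finset.mem_filter.1 hx).2]
        simp [y]
    have hy : y = 0 := rank_full hc hl hα y fun x => by
      have := hsum ⟨Pi.single x 1 + Pi.single (α x) 1, fun z => by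
        have e1 : α z = x ↔ z = α x :=
          ⟨fun h => by rw [← h, (hα z).1], fun h => by rw [h, (hα x).1]⟩
        simp only [Pi.add_apply, Pi.single_apply, e1, α.injective.eq_iff]
        ring⟩
      simpa [add_mul, Finset.sum_add_distrib, Pi.single_apply] using this
    funext i
    simpa [y] using congrFun hy (i, true)
  have hker : (LinearMap.ker φ).map (Inv α).subtype = Vsp α c := by
    ext l
    constructor
    · rintro ⟨l, hl0, rfl⟩
      exact ⟨l.2, fun i => sub_eq_zero.1 (congrFun (LinearMap.mem_ker.1 hl0) i)⟩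
    · intro hl0
      exact ⟨⟨l, hl0.1⟩, LinearMap.mem_ker.2 (funext fun i => sub_eq_zero.2 (hl0.2 i)), rfl⟩
  have h := LinearMap.finrank_range_add_finrank_ker φ
  rw [hsurj, finrank_top, Module.finrank_fintype_fun_eq_card, Fintype.card_fin,
    finrank_Inv hD hα] at h
  rw [← hker, Submodule.finrank_map_subtype_eq]
  omega

theorem thin (hc : Cyc σ π v) (hD : Fintype.card H = 2 * D) {k : ℕ} {α : Perm H}
    {c : H → Fin k × Bool} (hl : IsLab σ α c) (hα : IsMt α) (x₀ : H)
    (hx : ∃ l ∈ Vsp α c, l x₀ ≠ 0) (K B : ℕ) (δ : Fin k → ℤ) :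
    Set.ncard {l : H → ℕ | (∀ x, l (α x) = l x) ∧ (∀ x, l x ≤ B) ∧ l x₀ < K ∧
      ∀ i, (per c l (i, true) : ℤ) - per c l (i, false) = δ i} * (B + 1) ^ (k + 1) ≤
      K * (B + 1) ^ D := by
  obtain ⟨u, hu, hu0⟩ := hx
  let U := Vsp α c ⊓ LinearMap.ker (LinearMap.proj x₀ : (H → ℚ) →ₗ[ℚ] ℚ)
  have hlt : U < Vsp α c := by
    refine lt_of_le_of_ne inf_le_left fun he => hu0 ?_
    have : u ∈ U := he.symm ▸ hu
    simpa using this.2
  have hr := Submodule.finrank_lt_finrank_of_lt hlt
  have hd := vsp_dim hc hD hl hα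
  have h1 := ncard_le_mul {l : H → ℕ | (∀ x, l (α x) = l x) ∧ (∀ x, l x ≤ B) ∧ l x₀ < K ∧
      ∀ i, (per c l (i, true) : ℤ) - per c l (i, false) = δ i} (fun l => l x₀) (range K)
      ((B + 1) ^ Module.finrank ℚ U) (fun l hl => Finset.mem_range.2 hl.2.2.1) fun j _ => by
    refine proj U _ B (fun l hl => hl.1.2.1) fun l hl l' hl' => ⟨⟨fun x => ?_, fun i => ?_⟩, ?_⟩
    · simp only [hl.1.1 x, hl'.1.1 x]
    · have e := (hl.1.2.2.2 i).trans (hl'.1.2.2.2 i).symm
      have e' : ((per c l (i, true) : ℕ) : ℚ) - per c l (i, false) =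
          (per c l' (i, true) : ℚ) - per c l' (i, false) := by exact_mod_cast e
      simp only [per, Nat.cast_sum] at e'
      simp only [Finset.sum_sub_distrib]
      linarith
    · have : l x₀ = l' x₀ := hl.2.trans hl'.2.symm
      simp [this]
  rw [Finset.card_range] at h1
  calc _ ≤ (B + 1) ^ Module.finrank ℚ U * K * (B + 1) ^ (k + 1) := Nat.mul_le_mul_right _ h1
    _ = K * (B + 1) ^ (Module.finrank ℚ U + (k + 1)) := by ring
    _ ≤ _ := Nat.mul_le_mul_left _ (Nat.pow_le_pow_right (Nat.succ_pos _) (by omega))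

theorem sm_finite (σ : Perm H) (b : I → ℕ) :
    Set.Finite {p : Perm H × (H → I) × (H → ℕ) × (H → Bool) | IsMt p.1 ∧ IsLab σ p.1 p.2.1 ∧
    (∀ x, p.2.2.1 (p.1 x) = p.2.2.1 x) ∧
    ∀ i, per p.2.1 (fun x => p.2.2.1 x + (p.2.2.2 x).toNat) i = b i} := by
  refine (Set.finite_univ.prod (Set.finite_univ.prod
    ((finite_le (∑ i, b i)).prod Set.finite_univ))).subset fun p hp => ?_
  refine ⟨trivial, trivial, fun x => ?_, trivial⟩
  have h1 := le_per p.2.1 (fun x => p.2.2.1 x + (p.2.2.2 x).toNat) x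
  rw [hp.2.2.2] at h1
  have h2 : b (p.2.1 x) ≤ ∑ i, b i :=
    Finset.single_le_sum (f := b) (fun _ _ => Nat.zero_le _) (Finset.mem_univ _)
  exact le_trans (le_trans (Nat.le_add_right _ _) h1) h2

theorem cnt1_finite (σ : Perm H) (w : ℕ) :
    Set.Finite {p : Perm H × (H → Fin 1 × Bool) × (H → ℕ) | IsMt p.1 ∧ IsLab σ p.1 p.2.1 ∧
    (∀ x, p.2.2 (p.1 x) = p.2.2 x) ∧ (∀ x, 1 ≤ p.2.2 x) ∧ ∀ i, per p.2.1 p.2.2 i = w} := by
  refine (Set.finite_univ.prod (Set.finite_univ.prod (finite_le w))).subset fun p hp => ?_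
  refine ⟨trivial, trivial, fun x => ?_⟩
  have h1 := le_per p.2.1 p.2.2 x
  rwa [hp.2.2.2.2] at h1

theorem dat_finite (σ : Perm H) (k N : ℕ) :
    Set.Finite {δ : Datum H k | IsDat σ N δ} := by
  let f : Datum H k → Perm H × (H → Fin k × Bool) × (H → ℕ) × (Fin k → ℕ) × (Fin k → ℕ) :=
    fun δ => (δ.α, δ.c, δ.ℓ, δ.h, δ.t)
  have hf : Function.Injective f := by
    rintro ⟨a, b, c, d, e⟩ ⟨a', b', c', d', e'⟩ h
    simp only [f, Prod.mk.injEq] at h
    obtain ⟨rfl, rfl, rfl, rfl, rfl⟩ := h
    rfl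
  refine (Set.Finite.preimage hf.injOn (Set.finite_univ.prod (Set.finite_univ.prod
    ((finite_le N).prod ((finite_le N).prod (finite_le N)))))).subset fun δ hδ => ?_
  have hδ' : IsDat σ N δ := hδ
  have hw : ∀ i, δ.w i ≤ N := fun i =>
    le_trans (Nat.le_mul_of_pos_left _ (hδ'.hpos i)) (hw_le hδ' i)
  refine ⟨trivial, trivial, fun x => ?_, fun i => ?_, fun i => ?_⟩
  · have h1 := le_per δ.c δ.ℓ x
    refine le_trans h1 (le_trans (le_of_eq ?_) (hw (δ.c x).1))
    rcases hq : δ.c x with ⟨i, _ | _⟩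
    · exact hδ'.bal i
    · rfl
  · exact le_trans (Nat.le_mul_of_pos_right _ (lt_of_le_of_lt (Nat.zero_le _) (hδ'.tlt i)))
      (hw_le hδ' i)
  · exact le_trans (hδ'.tlt i).le (hw i)

/-- crude count: data with a prescribed set `L` of admissible length functions -/
theorem dat_crude (σ : Perm H) (k N : ℕ) (α : Perm H) (c : H → Fin k × Bool)
    (L : Set (H → ℕ)) (hL : L.Finite) :
    ∑ m ∈ range (N + 1), datc σ k m (fun δ => δ.α = α ∧ δ.c = c ∧ δ.ℓ ∈ L) ≤
      L.ncard * N ^ k := by
  classical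
  let A : Set (Datum H k) :=
    {δ | (∃ m ∈ range (N + 1), IsDat σ m δ) ∧ δ.α = α ∧ δ.c = c ∧ δ.ℓ ∈ L}
  have hA : A.Finite := by
    refine (Set.Finite.biUnion (range (N + 1)).finite_toSet
      fun m _ => dat_finite σ k m).subset fun δ hδ => ?_
    obtain ⟨m, hm, h⟩ := hδ.1
    exact Set.mem_biUnion hm h
  have h1 : ∑ m ∈ range (N + 1), datc σ k m (fun δ => δ.α = α ∧ δ.c = c ∧ δ.ℓ ∈ L) =
      A.ncard := by
    rw [Set.ncard_eq_toFinset_card _ hA, Finset.card_eq_sum_card_fiberwise
      (f := fun δ : Datum H k => ∑ i, δ.h i * δ.w i) (t := range (N + 1))]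
    · refine Finset.sum_congr rfl fun m hm => ?_
      rw [datc, ← Set.ncard_coe_finset]
      congr 1
      ext δ
      simp only [Set.mem_ofPred_eq, Finset.coe_filter, Set.Finite.mem_toFinset]
      constructor
      · rintro ⟨h, h'⟩
        exact ⟨⟨⟨m, hm, h⟩, h'⟩, h.area⟩
      · rintro ⟨⟨⟨m', _, h⟩, h'⟩, he⟩
        have : m' = m := h.area.symm.trans he
        exact ⟨this ▸ h, h'⟩
    · intro δ hδ
      obtain ⟨⟨m, hm, h⟩, _⟩ := (Set.Finite.mem_toFinset hA).1 hδ
      simpa [h.area] using hm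
  let f : Datum H k → (H → ℕ) × (Fin k → ℕ) :=
    fun δ => (δ.ℓ, fun i => δ.t i + δ.w i * (δ.h i - 1))
  let T : Finset (Fin k → ℕ) := Fintype.piFinset fun _ => range N
  have h2 : A.ncard ≤ (L ×ˢ (T : Set (Fin k → ℕ))).ncard := by
    refine Set.ncard_le_ncard_of_injOn f ?_ ?_ (hL.prod T.finite_toSet)
    · rintro δ ⟨⟨m, hm, h⟩, -, -, hl⟩
      refine ⟨hl, ?_⟩
      simp only [T, f, Finset.mem_coe, Fintype.mem_piFinset, Finset.mem_range]
      intro i
      have e1 := hw_le h i
      have e2 := h.tlt i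
      have e3 := h.hpos i
      have e4 : m ≤ N := Nat.lt_succ_iff.1 (Finset.mem_range.1 hm)
      obtain ⟨j, hj⟩ : ∃ j, δ.h i = j + 1 := ⟨δ.h i - 1, by omega⟩
      rw [hj] at e1 ⊢
      rw [Nat.add_sub_cancel]
      nlinarith
    · rintro ⟨a, b, l, h, t⟩ ⟨⟨m, -, hd⟩, ha, hb, -⟩ ⟨a', b', l', h', t'⟩ ⟨⟨m', -, hd'⟩, ha', hb', -⟩
        he
      simp only [f, Prod.mk.injEq] at he ha hb ha' hb'
      obtain ⟨rfl, he⟩ := he
      subst ha hb
      subst ha' hb'
      have key : ∀ i, t i = t' i ∧ h i = h' i := fun i => by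
        have e := congrFun he i
        have e1 : t i < per b' l (i, true) := hd.tlt i
        have e2 : t' i < per b' l (i, true) := hd'.tlt i
        have e3 : 1 ≤ h i := hd.hpos i
        have e4 : 1 ≤ h' i := hd'.hpos i
        simp only [Datum.w] at e
        generalize per b' l (i, true) = w at e e1 e2
        have m1 := congrArg (· % w) e
        have m2 := congrArg (· / w) e
        have hw : 0 < w := by omega
        simp only [Nat.add_mul_mod_self_left, Nat.mod_eq_of_lt e1, Nat.mod_eq_of_lt e2] at m1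
        simp only [Nat.add_mul_div_left _ _ hw, Nat.div_eq_of_lt e1, Nat.div_eq_of_lt e2] at m2
        omega
      obtain rfl : t = t' := funext fun i => (key i).1
      obtain rfl : h = h' := funext fun i => (key i).2
      rfl
  rw [h1]
  refine le_trans h2 (le_of_eq ?_)
  rw [Set.ncard_prod, Set.ncard_coe_finset]
  simp [T]

end Pool.Agent.STS
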