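import Pool.Agent.P.MP_bb7f8f_gt.QMid

/-! Formal Gaussian matrix integrals: definitions and the Fischer pairing. -/

namespace Pool.Agent.STS.QF
open MvPolynomial Finset Equiv

/-- formal Gaussian functional with covariance `⟨X u, X (τ u)⟩ = 1 / 2` -/
def IsG {ι : Type} (τ : ι → ι) (G : MvPolynomial ι ℚ →ₗ[ℚ] ℚ) : Prop :=
  G 1 = 1 ∧ ∀ u φ, G (X u * φ) = 1 / 2 * G (pderiv (τ u) φ)

abbrev Mx (n : ℕ) := MvPolynomial (Fin n × Fin n) ℚ
abbrev Pl (n : ℕ) := MvPolynomial (Fin n) ℚ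
abbrev Sr (n : ℕ) := MvPowerSeries (Fin n) ℚ

noncomputable def MM (n : ℕ) : Matrix (Fin n) (Fin n) (Mx n) := Matrix.of fun i j => X (i, j)

noncomputable def AA (n : ℕ) : Matrix (Fin n) (Fin n) (Mx n) := -(MM n * MM n)

/-- `p_k ↦ tr B ^ k` -/
noncomputable def evT {n : ℕ} (B : Matrix (Fin n) (Fin n) (Mx n)) : Gm →ₐ[ℚ] Mx n :=
  aeval fun k => (B ^ k).trace

/-- `p_k ↦ ∑ a_i ^ k` -/
noncomputable def eva {ι R : Type} [Fintype ι] [CommRing R] [Algebra ℚ R] (a : ι → R) :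
    Gm →ₐ[ℚ] R := aeval fun k => ∑ i, a i ^ k

/-- Vandermonde product -/
def Vd {n : ℕ} {R : Type} [CommRing R] (a : Fin n → R) : R := ∏ i, ∏ j ∈ Ioi i, (a j - a i)

/-- `Ω (exp (∑ X i * A i i))` -/
noncomputable def Psi {n : ℕ} (Ω : Mx n →ₗ[ℚ] ℚ) : Sr n :=
  fun κ => Ω (∏ i, AA n i i ^ κ i) / ∏ i, ((κ i).factorial : ℚ)

noncomputable def Et {n : ℕ} (G : Mx n →ₗ[ℚ] ℚ) : Mx n →ₗ[ℚ] Sr n where
  toFun φ := Psi (G ∘ₗ LinearMap.mulLeft ℚ φ)
  map_add' φ ψ := by
    ext κ; rw [map_add]; simp [Psi, MvPowerSeries.coeff_apply, add_mul, add_div]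
  map_smul' r φ := by
    ext κ; simp [Psi, MvPowerSeries.coeff_apply, mul_div_assoc]

/-- covariance `1 / (λ i + λ j)`, `λ = 1 + X` -/
noncomputable def Cs {n : ℕ} (i j : Fin n) : Sr n :=
  (2 + MvPowerSeries.X i + MvPowerSeries.X j)⁻¹

/-- Fischer pairing `(G(∂) Ψ)(0)` -/
noncomputable def pair {n : ℕ} (Ψ : Sr n) : Pl n →ₗ[ℚ] ℚ :=
  (basisMonomials (Fin n) ℚ).constr ℚ fun κ =>
    (∏ i, ((κ i).factorial : ℚ)) * MvPowerSeries.coeff κ Ψ

variable {n : ℕ}

theorem pair_monomial (Ψ : Sr n) (κ : Fin n →₀ ℕ) (a : ℚ) :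
    pair Ψ (monomial κ a) = a * ((∏ i, ((κ i).factorial : ℚ)) * MvPowerSeries.coeff κ Ψ) := by
  have h : (monomial κ a : Pl n) = a • basisMonomials (Fin n) ℚ κ := by
    simp [smul_monomial]
  rw [h, map_smul, pair, Module.Basis.constr_basis, smul_eq_mul]

theorem pair_ext {F F' : Pl n → ℚ} (h : ∀ κ a, F (monomial κ a) = F' (monomial κ a))
    (hF : ∀ p q, F (p + q) = F p + F q) (hF' : ∀ p q, F' (p + q) = F' p + F' q) (G : Pl n) :
    F G = F' G := by
  induction G using MvPolynomial.induction_on' with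
  | monomial κ a => exact h κ a
  | add p q hp hq => rw [hF, hF', hp, hq]

theorem pair_add (Ψ Φ : Sr n) (G : Pl n) : pair (Ψ + Φ) G = pair Ψ G + pair Φ G :=
  pair_ext (F := fun G => pair (Ψ + Φ) G) (F' := fun G => pair Ψ G + pair Φ G)
    (fun κ a => by simp only [pair_monomial, map_add]; ring) (fun p q => by simp)
    (fun p q => by simp only [map_add]; ring) G

theorem pair_smul (r : ℚ) (Ψ : Sr n) (G : Pl n) : pair (r • Ψ) G = r * pair Ψ G :=
  pair_ext (F := fun G => pair (r • Ψ) G) (F' := fun G => r * pair Ψ G)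
    (fun κ a => by simp only [pair_monomial, map_smul, smul_eq_mul]; ring) (fun p q => by simp)
    (fun p q => by simp only [map_add]; ring) G

theorem pair_zero (G : Pl n) : pair (0 : Sr n) G = 0 := by
  simpa using pair_smul 0 (0 : Sr n) G

theorem pair_sub (Ψ Φ : Sr n) (G : Pl n) : pair (Ψ - Φ) G = pair Ψ G - pair Φ G := by
  have := pair_add (Ψ - Φ) Φ G
  rw [sub_add_cancel] at this
  linarith

theorem pair_sum {ι : Type*} (s : Finset ι) (Ψ : ι → Sr n) (G : Pl n) :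
    pair (∑ i ∈ s, Ψ i) G = ∑ i ∈ s, pair (Ψ i) G := by
  classical
  induction s using Finset.induction_on with
  | empty => simp [pair_zero]
  | insert i s hi ih => rw [Finset.sum_insert hi, Finset.sum_insert hi, pair_add, ih]

theorem pair_C (Ψ : Sr n) (a : ℚ) : pair Ψ (C a) = a * MvPowerSeries.constantCoeff Ψ := by
  rw [← monomial_zero', pair_monomial]; simp

theorem pair_X_mul (Ψ : Sr n) (i : Fin n) (G : Pl n) :
    pair Ψ (X i * G) = pair (MvPowerSeries.pderiv ℚ i Ψ) G := by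
  refine pair_ext (F := fun G => pair Ψ (X i * G))
    (F' := fun G => pair (MvPowerSeries.pderiv ℚ i Ψ) G) (fun κ a => ?_)
    (fun p q => by simp [mul_add]) (fun p q => by simp) G
  rw [X, monomial_mul, pair_monomial, pair_monomial, MvPowerSeries.coeff_pderiv, one_mul,
    add_comm (Finsupp.single i 1) κ]
  have : ∏ j, (((κ + Finsupp.single i 1 : Fin n →₀ ℕ) j).factorial : ℚ) =
      (∏ j, ((κ j).factorial : ℚ)) * (κ i + 1) := by
    rw [← Finset.mul_prod_erase univ _ (mem_univ i),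
      ← Finset.mul_prod_erase univ (fun j => ((κ j).factorial : ℚ)) (mem_univ i)]
    rw [Finset.prod_congr rfl (g := fun j => ((κ j).factorial : ℚ)) fun j hj => by
      simp [Finsupp.single_eq_of_ne (ne_of_mem_erase hj)]]
    simp [Nat.factorial_succ]; ring
  rw [this]; ring

theorem eq_zero_of_pair {Ψ : Sr n} (h : ∀ κ, pair Ψ (monomial κ 1) = 0) : Ψ = 0 := by
  ext κ
  have := h κ
  rw [pair_monomial, one_mul, mul_eq_zero] at this
  refine this.resolve_left (Finset.prod_ne_zero_iff.2 fun i _ => ?_)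
  exact_mod_cast (κ i).factorial_ne_zero

theorem Vd_map {R R' F : Type} [CommRing R] [CommRing R'] [FunLike F R R'] [RingHomClass F R R']
    (f : F) (a : Fin n → R) : f (Vd a) = Vd fun i => f (a i) := by
  simp [Vd, map_prod]

theorem Vd_perm {R : Type} [CommRing R] (a : Fin n → R) (g : Perm (Fin n)) :
    Vd (fun i => a (g i)) = ((Perm.sign g : ℤ) : R) * Vd a := by
  unfold Vd
  exact Equiv.Perm.prod_Ioi_comp_eq_sign_mul_prod g (f := fun i j => a j - a i)
    (fun i j => by ring)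

theorem Cs_mul (i j : Fin n) : (2 + MvPowerSeries.X i + MvPowerSeries.X j) * Cs i j = 1 :=
  MvPowerSeries.mul_inv_cancel _ (by simp [map_ofNat])

end Pool.Agent.STS.QF
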