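import Pool.Agent.P.MP_bb7f8f_gt.Mid

/-!
Orbit counting: isomorphism classes of square-tiled surfaces against the weighted count.
-/

namespace Pool.Agent.STS
open Equiv Finset Filter

namespace Class

variable {m : ℕ}

lemma rot_apply (x : Side m) : rot m x = (x.1, x.2 + 1) := rfl

lemma relabel_one : IsRelabel (1 : Perm (Side m)) := ⟨by simp, fun x => Or.inl rfl⟩

lemma relabel_mul {g h : Perm (Side m)} (hg : IsRelabel g) (hh : IsRelabel h) :
    IsRelabel (g * h) := by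
  refine ⟨by rw [mul_assoc, hh.1, ← mul_assoc, hg.1, mul_assoc], fun x => ?_⟩
  have key : ∀ a b c : ZMod 4, (b = a ∨ b = a + 2) → (c = b ∨ c = b + 2) →
      (c = a ∨ c = a + 2) := by decide
  exact key _ _ _ (hh.2 x) (hg.2 (h x))

lemma relabel_inv {g : Perm (Side m)} (hg : IsRelabel g) : IsRelabel g⁻¹ := by
  refine ⟨?_, fun x => ?_⟩
  · rw [inv_mul_eq_iff_eq_mul, ← mul_assoc, hg.1, mul_assoc, mul_inv_cancel, mul_one]
  · have key : ∀ a b : ZMod 4, (b = a ∨ b = a + 2) → (a = b ∨ a = b + 2) := by decide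
    have := hg.2 (g⁻¹ x)
    have e : g (g⁻¹ x) = x := g.apply_symm_apply x
    rw [e] at this
    exact key _ _ this

lemma iso_refl (γ : Perm (Side m)) : Iso γ γ := ⟨1, relabel_one, by simp⟩

lemma iso_symm {γ γ' : Perm (Side m)} (h : Iso γ γ') : Iso γ' γ := by
  obtain ⟨g, hg, e⟩ := h
  refine ⟨g⁻¹, relabel_inv hg, ?_⟩
  rw [inv_mul_eq_iff_eq_mul, ← mul_assoc, e, mul_assoc, mul_inv_cancel, mul_one]

lemma iso_trans {γ γ' γ'' : Perm (Side m)} (h : Iso γ γ') (h' : Iso γ' γ'') : Iso γ γ'' := by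
  obtain ⟨g, hg, e⟩ := h
  obtain ⟨g', hg', e'⟩ := h'
  exact ⟨g' * g, relabel_mul hg' hg, by rw [mul_assoc, e, ← mul_assoc, e', mul_assoc]⟩

/-- the relabelling attached to a permutation of the squares and a choice of half-turns -/
def mkRel (q : Perm (Fin m) × (Fin m → Bool)) : Perm (Side m) :=
  Equiv.prodShear q.1 fun s => Equiv.addRight (if q.2 s then 2 else 0)

lemma mkRel_apply (q : Perm (Fin m) × (Fin m → Bool)) (x : Side m) :
    mkRel q x = (q.1 x.1, x.2 + if q.2 x.1 then 2 else 0) := rfl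

lemma mkRel_relabel (q : Perm (Fin m) × (Fin m → Bool)) : IsRelabel (mkRel q) := by
  refine ⟨?_, fun x => ?_⟩
  · ext x : 1
    simp only [Perm.mul_apply, mkRel_apply, rot_apply]
    rw [add_right_comm]
  · rw [mkRel_apply]
    by_cases h : q.2 x.1 <;> simp [h]

lemma mkRel_inj : Function.Injective (mkRel (m := m)) := by
  rintro ⟨p, e⟩ ⟨p', e'⟩ h
  have h1 : ∀ s, (p s, (0 : ZMod 4) + if e s then 2 else 0) =
      (p' s, (0 : ZMod 4) + if e' s then 2 else 0) := fun s => by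
    have := congrArg (fun g : Perm (Side m) => g (s, 0)) h
    simpa only [mkRel_apply] using this
  refine Prod.ext (Equiv.ext fun s => (Prod.ext_iff.1 (h1 s)).1) (funext fun s => ?_)
  have h2 := (Prod.ext_iff.1 (h1 s)).2
  have key : ∀ a b : Bool, ((0 : ZMod 4) + if a then 2 else 0) = 0 + (if b then 2 else 0) →
      a = b := by decide
  exact key _ _ h2

lemma relabel_shift {g : Perm (Side m)} (hg : IsRelabel g) (s : Fin m) (i : ZMod 4) :
    g (s, i) = ((g (s, 0)).1, (g (s, 0)).2 + i) := by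
  have step : ∀ j : ZMod 4, g (s, j + 1) = ((g (s, j)).1, (g (s, j)).2 + 1) := fun j => by
    have := congrArg (fun f : Perm (Side m) => f (s, j)) hg.1
    simpa only [Perm.mul_apply, rot_apply] using this
  have h1 : g (s, 1) = ((g (s, 0)).1, (g (s, 0)).2 + 1) := by simpa using step 0
  have h2 : g (s, 2) = ((g (s, 0)).1, (g (s, 0)).2 + 2) := by
    have := step 1
    rw [h1, add_assoc] at this
    exact this
  have h3 : g (s, 3) = ((g (s, 0)).1, (g (s, 0)).2 + 3) := by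
    have := step 2
    rw [h2, add_assoc] at this
    exact this
  have hi : i = 0 ∨ i = 1 ∨ i = 2 ∨ i = 3 := by revert i; decide
  rcases hi with rfl | rfl | rfl | rfl
  · simp
  · exact h1
  · exact h2
  · exact h3

lemma mkRel_surj {g : Perm (Side m)} (hg : IsRelabel g) : ∃ q, mkRel q = g := by
  have hinj : Function.Injective fun s : Fin m => (g (s, 0)).1 := fun s s' h => by
    have h1 : g (s', (g (s, 0)).2 - (g (s', 0)).2) = g (s, 0) := by
      rw [relabel_shift hg s']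
      refine Prod.ext h.symm ?_
      simp
    exact (Prod.ext_iff.1 (g.injective h1)).1.symm
  refine ⟨(Equiv.ofBijective _ hinj.bijective_of_finite,
    fun s => decide ((g (s, 0)).2 = 2)), ?_⟩
  ext x : 1
  obtain ⟨s, i⟩ := x
  rw [mkRel_apply, relabel_shift hg s i]
  refine Prod.ext rfl ?_
  have key : ∀ a i : ZMod 4, (a = 0 ∨ a = 0 + 2) →
      (i + if decide (a = 2) then 2 else 0) = a + i := by decide
  exact key _ _ (hg.2 (s, 0))

lemma card_rel : Nat.card {g : Perm (Side m) // IsRelabel g} = 2 ^ m * m.factorial := by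
  have : Nat.card (Perm (Fin m) × (Fin m → Bool)) = Nat.card {g : Perm (Side m) // IsRelabel g} :=
    Nat.card_eq_of_bijective (fun q => ⟨mkRel q, mkRel_relabel q⟩)
      ⟨fun q q' h => mkRel_inj (congrArg Subtype.val h), fun g => by
        obtain ⟨q, hq⟩ := mkRel_surj g.2
        exact ⟨q, Subtype.ext hq⟩⟩
  rw [← this]
  simp [Nat.card_eq_fintype_card, Fintype.card_perm, mul_comm]

section quot
variable (P : Perm (Side m) → Prop)

abbrev Cl := Quot fun a b : {γ : Perm (Side m) // P γ} => Iso a.1 b.1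

lemma mk_eq {a b : {γ : Perm (Side m) // P γ}} :
    (Quot.mk _ a : Cl P) = Quot.mk _ b ↔ Iso a.1 b.1 :=
  Equivalence.quot_mk_eq_iff
    (r := fun a b : {γ : Perm (Side m) // P γ} => Iso a.1 b.1)
    ⟨fun a => iso_refl a.1, iso_symm, iso_trans⟩ a b

lemma iso_out (a : {γ : Perm (Side m) // P γ}) : Iso (Quot.mk _ a : Cl P).out.1 a.1 :=
  (mk_eq P).1 (Quot.out_eq _)

lemma low : Nat.card {γ : Perm (Side m) // P γ} ≤ Nat.card (Cl P) * (2 ^ m * m.factorial) := by
  rw [← card_rel, ← Nat.card_prod]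
  choose g hg e using iso_out P
  refine Nat.card_le_card_of_injective (fun a => (Quot.mk _ a, ⟨g a, hg a⟩)) fun a b h => ?_
  have h1 : (Quot.mk _ a : Cl P) = Quot.mk _ b := (Prod.ext_iff.1 h).1
  have h2 : g a = g b := congrArg Subtype.val (Prod.ext_iff.1 h).2
  have ea := e a
  rw [h1, h2, e b] at ea
  exact Subtype.ext (mul_right_cancel ea).symm

lemma up (hP : ∀ γ γ', Iso γ γ' → P γ → P γ') :
    Nat.card (Cl P) * (2 ^ m * m.factorial) ≤
      Nat.card (Σ a : {γ : Perm (Side m) // P γ},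
        {g : Perm (Side m) // IsRelabel g ∧ g * a.1 = a.1 * g}) := by
  rw [← card_rel, ← Nat.card_prod]
  choose g hg e using iso_out P
  have hiso : ∀ p : Cl P × {g : Perm (Side m) // IsRelabel g},
      Iso p.1.out.1 (p.2.1 * p.1.out.1 * p.2.1⁻¹) := fun p => ⟨p.2.1, p.2.2, by simp⟩
  let A : Cl P × {g : Perm (Side m) // IsRelabel g} → {γ : Perm (Side m) // P γ} :=
    fun p => ⟨p.2.1 * p.1.out.1 * p.2.1⁻¹, hP _ _ (hiso p) p.1.out.2⟩
  have hA : ∀ p, (Quot.mk _ (A p) : Cl P) = p.1 := fun p => by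
    rw [← Quot.out_eq p.1]
    exact ((mk_eq P).2 (hiso p)).symm
  have hc : ∀ p, p.2.1 * (g (A p))⁻¹ * (A p).1 = (A p).1 * (p.2.1 * (g (A p))⁻¹) := fun p => by
    have h1 := e (A p)
    rw [hA p] at h1
    have h2 : (g (A p))⁻¹ * (A p).1 = p.1.out.1 * (g (A p))⁻¹ := by
      rw [inv_mul_eq_iff_eq_mul, ← mul_assoc, h1, mul_assoc, mul_inv_cancel, mul_one]
    rw [mul_assoc, h2]
    simp [A, mul_assoc]
  refine Nat.card_le_card_of_injective
    (fun p => ⟨A p, p.2.1 * (g (A p))⁻¹, relabel_mul p.2.2 (relabel_inv (hg _)), hc p⟩)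
    fun p p' h => ?_
  have h1 : A p = A p' := congrArg Sigma.fst h
  have h2 : p.2.1 * (g (A p))⁻¹ = p'.2.1 * (g (A p'))⁻¹ :=
    congrArg (fun s : (Σ a : {γ : Perm (Side m) // P γ},
        {g : Perm (Side m) // IsRelabel g ∧ g * a.1 = a.1 * g}) => s.2.1) h
  rw [h1] at h2
  exact Prod.ext (by rw [← hA p, h1, hA p']) (Subtype.ext (mul_right_cancel h2))

end quot

section invariance
variable {g γ γ' : Perm (Side m)}

lemma rel_rot (hg : IsRelabel g) (x : Side m) : g (rot m x) = rot m (g x) :=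
  congrArg (fun f : Perm (Side m) => f x) hg.1

lemma vert_conj (hg : IsRelabel g) (e : g * γ = γ' * g) : g * vert γ = vert γ' * g := by
  unfold vert
  rw [← mul_assoc, hg.1, mul_assoc, e, mul_assoc]

lemma vert_pow_conj (hg : IsRelabel g) (e : g * γ = γ' * g) (n : ℕ) (x : Side m) :
    (vert γ' ^ n) (g x) = g ((vert γ ^ n) x) := by
  have h : SemiconjBy g (vert γ ^ n) (vert γ' ^ n) := SemiconjBy.pow_right (vert_conj hg e) n
  exact (congrArg (fun f : Perm (Side m) => f x) h.eq).symm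

lemma corners_conj (hg : IsRelabel g) (e : g * γ = γ' * g) (x : Side m) :
    corners γ' (g x) = corners γ x := by
  unfold corners
  rw [Function.minimalPeriod_eq_minimalPeriod_iff]
  intro n
  unfold Function.IsPeriodicPt Function.IsFixedPt
  rw [← Perm.coe_pow, ← Perm.coe_pow, vert_pow_conj hg e, g.injective.eq_iff]

lemma sameCycle_conj (hg : IsRelabel g) (e : g * γ = γ' * g) (x y : Side m) :
    (vert γ').SameCycle (g x) (g y) ↔ (vert γ).SameCycle x y := by
  constructor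
  · intro h
    obtain ⟨n, hn⟩ := h.exists_nat_pow_eq
    rw [vert_pow_conj hg e, g.injective.eq_iff] at hn
    exact ⟨n, by simpa using hn⟩
  · intro h
    obtain ⟨n, hn⟩ := h.exists_nat_pow_eq
    refine ⟨n, ?_⟩
    rw [zpow_natCast, vert_pow_conj hg e, hn]

lemma stratum_iso {n : ℕ} {κ : Fin n → ℤ} (h : Iso γ γ') (hs : InStratum κ γ) :
    InStratum κ γ' := by
  obtain ⟨g, hg, e⟩ := h
  have e' : ∀ x, γ' (g x) = g (γ x) := fun x =>
    (congrArg (fun f : Perm (Side m) => f x) e).symm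
  obtain ⟨h1, h2, z, hz1, hz2, hz3⟩ := hs
  refine ⟨fun x => ?_, fun x y => ?_, fun j => g (z j), fun j => ?_, fun j j' hj => ?_,
    fun x hx => ?_⟩
  · obtain ⟨x, rfl⟩ := g.surjective x
    obtain ⟨a1, a2, a3⟩ := h1 x
    refine ⟨by rw [e', e', a1], fun h => a2 (g.injective (by rw [← e', h])), ?_⟩
    rw [e']
    have key : ∀ a b c d : ZMod 4, (b = a ∨ b = a + 2) → (c = b ∨ c = b + 2) →
        (d = a ∨ d = a + 2) → (c = d ∨ c = d + 2) := by decide
    exact key _ _ _ _ a3 (hg.2 _) (hg.2 _)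
  · obtain ⟨x, rfl⟩ := g.surjective x
    obtain ⟨y, rfl⟩ := g.surjective y
    induction h2 x y with
    | rel a b hab =>
      refine Relation.EqvGen.rel _ _ ?_
      rcases hab with rfl | rfl
      · exact Or.inl (rel_rot hg a)
      · exact Or.inr (e' a).symm
    | refl a => exact Relation.EqvGen.refl _
    | symm a b _ ih => exact Relation.EqvGen.symm _ _ ih
    | trans a b c _ _ ih1 ih2 => exact Relation.EqvGen.trans _ _ _ ih1 ih2
  · rw [corners_conj hg e, hz1]
  · exact hz2 j j' ((sameCycle_conj hg e _ _).1 hj)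
  · obtain ⟨x, rfl⟩ := g.surjective x
    rw [corners_conj hg e] at hx
    obtain ⟨j, hj⟩ := hz3 x hx
    exact ⟨j, (sameCycle_conj hg e _ _).2 hj⟩

lemma leaf_iso {i : ZMod 4} (h : Iso γ γ') (hs : OneLeaf i γ) : OneLeaf i γ' := by
  obtain ⟨g, hg, e⟩ := h
  have e' : ∀ x, γ' (g x) = g (γ x) := fun x =>
    (congrArg (fun f : Perm (Side m) => f x) e).symm
  intro x y hx hy
  obtain ⟨x, rfl⟩ := g.surjective x
  obtain ⟨y, rfl⟩ := g.surjective y
  rw [corners_conj hg e] at hx hy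
  have := hs x y hx hy
  clear hx hy
  induction this with
  | rel a b hab =>
    refine Relation.EqvGen.rel _ _ ?_
    rcases hab with rfl | ⟨h1, rfl⟩
    · exact Or.inl (congrArg (fun f : Perm (Side m) => f a) (vert_conj hg e))
    · refine Or.inr ⟨?_, (e' a).symm⟩
      have key : ∀ a b c : ZMod 4, (b = a ∨ b = a + 2) → (c = b ∨ c = b + 2) →
          (c = a ∨ c = a + 2) := by decide
      exact key _ _ _ h1 (hg.2 a)
  | refl a => exact Relation.EqvGen.refl _
  | symm a b _ ih => exact Relation.EqvGen.symm _ _ ih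
  | trans a b c _ _ ih1 ih2 => exact Relation.EqvGen.trans _ _ _ ih1 ih2

end invariance

section aut
variable {γ : Perm (Side m)}

/-- vertical sides -/
def od (x : Side m) : Prop := x.2 = 1 ∨ x.2 = 3

lemma od_vert (hγ : IsGluing γ) (x : Side m) : od (vert γ x) ↔ ¬ od x := by
  have key : ∀ a b : ZMod 4, (b = a ∨ b = a + 2) →
      ((b + 1 = 1 ∨ b + 1 = 3) ↔ ¬ (a = 1 ∨ a = 3)) := by decide
  exact key _ _ (hγ x).2.2

lemma od_pow (hγ : IsGluing γ) {x : Side m} (hx : od x) (k : ℕ) :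
    od ((vert γ ^ k) x) ↔ Even k := by
  induction k with
  | zero => simpa using hx
  | succ k ih => rw [pow_succ', Perm.mul_apply, od_vert hγ, ih, Nat.even_add_one]

lemma corners_vert (x : Side m) : corners γ (vert γ x) = corners γ x :=
  Function.minimalPeriod_apply ((vert γ).injective.mem_periodicPts x)

lemma aut_ext (hγ : IsConn γ) {g g' : Perm (Side m)} (hg : IsRelabel g) (e : g * γ = γ * g)
    (hg' : IsRelabel g') (e' : g' * γ = γ * g') (x₀ : Side m) (h : g x₀ = g' x₀) : g = g' := by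
  have key : ∀ x y, Relation.EqvGen (fun a b => b = rot m a ∨ b = γ a) x y →
      (g x = g' x ↔ g y = g' y) := by
    intro x y hxy
    induction hxy with
    | rel a b hab =>
      rcases hab with rfl | rfl
      · rw [rel_rot hg, rel_rot hg', (rot m).injective.eq_iff]
      · have h1 : g (γ a) = γ (g a) := congrArg (fun f : Perm (Side m) => f a) e
        have h2 : g' (γ a) = γ (g' a) := congrArg (fun f : Perm (Side m) => f a) e'
        rw [h1, h2, γ.injective.eq_iff]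
    | refl a => rfl
    | symm a b _ ih => exact ih.symm
    | trans a b c _ _ ih1 ih2 => exact ih1.trans ih2
  exact Equiv.ext fun y => (key x₀ y (hγ x₀ y)).1 h

lemma autc_le {H : Type} [Fintype H] [Nonempty H] {n : ℕ} {κ : Fin n → ℤ} {σ : Perm H}
    {ρ : H → Fin n} {u : Fin n → ℕ} (hc : Cyc σ ρ u) (hκ : ∀ j, (u j : ℤ) = κ j + 2)
    (hs : InStratum κ γ) : autc γ ≤ Fintype.card H := by
  obtain ⟨h1, h2, z, hz1, -, hz3⟩ := hs
  have hz : ∀ j, ∃ y, od y ∧ corners γ y = 2 * u j ∧ (vert γ).SameCycle (z j) y := fun j => by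
    have h : corners γ (z j) = 2 * u j := by
      have := hz1 j
      rw [← hκ j] at this
      exact_mod_cast this
    by_cases ho : od (z j)
    · exact ⟨z j, ho, h, Perm.SameCycle.refl _ _⟩
    · exact ⟨vert γ (z j), (od_vert h1 _).2 ho, by rw [corners_vert, h],
        Perm.sameCycle_apply_right.2 (Perm.SameCycle.refl _ _)⟩
  choose y hy1 hy2 hy3 using hz
  have hcov : ∀ x, od x → corners γ x ≠ 4 →
      ∃ p : (Σ j, Fin (u j)), (vert γ ^ (2 * p.2.1)) (y p.1) = x := fun x hx hx4 => by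
    obtain ⟨j, hj⟩ := hz3 x hx4
    obtain ⟨k, hk⟩ := (hj.trans (hy3 j)).symm.exists_nat_pow_eq
    have hev : Even k := (od_pow h1 (hy1 j) k).1 (hk ▸ hx)
    obtain ⟨k, rfl⟩ := hev
    have hu : 0 < u j := (hc.odd j).pos
    refine ⟨⟨j, k % u j, Nat.mod_lt _ hu⟩, ?_⟩
    have h3 := Function.iterate_mod_minimalPeriod_eq (f := vert γ) (x := y j) (n := k + k)
    have h4 : Function.minimalPeriod (vert γ) (y j) = 2 * u j := hy2 j
    rw [h4, ← two_mul, Nat.mul_mod_mul_left, ← Perm.coe_pow, ← Perm.coe_pow] at h3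
    rw [← hk, ← two_mul, ← h3]
  obtain ⟨h₀⟩ := ‹Nonempty H›
  have h4 : corners γ (y (ρ h₀)) ≠ 4 := by
    rw [hy2]
    obtain ⟨k, hk⟩ := hc.odd (ρ h₀)
    omega
  have hmem : ∀ g : {g : Perm (Side m) // IsRelabel g ∧ g * γ = γ * g},
      ∃ p : (Σ j, Fin (u j)), (vert γ ^ (2 * p.2.1)) (y p.1) = g.1 (y (ρ h₀)) := fun g => by
    refine hcov _ ?_ (by rw [corners_conj g.2.1 g.2.2]; exact h4)
    have key : ∀ a b : ZMod 4, (b = a ∨ b = a + 2) → (a = 1 ∨ a = 3) → (b = 1 ∨ b = 3) := by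
      decide
    exact key _ _ (g.2.1.2 _) (hy1 _)
  choose p hp using hmem
  have hinj : Function.Injective p := fun g g' h =>
    Subtype.ext (aut_ext h2 g.2.1 g.2.2 g'.2.1 g'.2.2 (y (ρ h₀)) (by rw [← hp g, h, hp g']))
  refine (Nat.card_le_card_of_injective p hinj).trans (le_of_eq ?_)
  rw [Nat.card_eq_fintype_card, Fintype.card_sigma, ← Finset.card_univ (α := H),
    Finset.card_eq_sum_card_fiberwise (f := ρ) (t := univ) (fun _ _ => mem_univ _)]
  exact Finset.sum_congr rfl fun j _ => by rw [Fintype.card_fin, hc.card j]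

end aut

lemma sum_aut (P B : Perm (Side m) → Prop) (M : ℕ) (hB : ∀ γ, P γ → B γ ∧ autc γ ≤ M) :
    Nat.card (Σ a : {γ : Perm (Side m) // P γ},
        {g : Perm (Side m) // IsRelabel g ∧ g * a.1 = a.1 * g}) ≤
      4 * Nat.card {γ : Perm (Side m) // P γ} +
        M * Nat.card {γ : Perm (Side m) // B γ ∧ 4 < autc γ} := by
  classical
  rw [Nat.card_sigma]
  calc ∑ a : {γ : Perm (Side m) // P γ},
        Nat.card {g : Perm (Side m) // IsRelabel g ∧ g * a.1 = a.1 * g}
      ≤ ∑ a : {γ : Perm (Side m) // P γ}, (4 + M * if 4 < autc a.1 then 1 else 0) :=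
        Finset.sum_le_sum fun a _ => by
          have h := (hB a.1 a.2).2
          show autc a.1 ≤ _
          split_ifs with h4 <;> omega
    _ = 4 * Nat.card {γ : Perm (Side m) // P γ} +
        M * #{a : {γ : Perm (Side m) // P γ} | 4 < autc a.1} := by
        rw [Finset.sum_add_distrib, ← Finset.mul_sum, Finset.sum_boole, Finset.sum_const,
          Finset.card_univ, Nat.card_eq_fintype_card, smul_eq_mul, mul_comm, Nat.cast_id]
    _ ≤ _ := by
        refine Nat.add_le_add_left (Nat.mul_le_mul_left _ ?_) _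
        rw [← Fintype.card_subtype, ← Nat.card_eq_fintype_card]
        exact Nat.card_le_card_of_injective
          (fun a => ⟨a.1.1, (hB _ a.1.2).1, a.2⟩) fun a b h =>
            Subtype.ext (Subtype.ext (Subtype.mk.inj h))

lemma cl_union (P Q R S : Perm (Side m) → Prop) (h : ∀ γ, P γ → Q γ ∨ R γ ∨ S γ)
    (hQ : ∀ γ, Q γ → P γ) (hR : ∀ γ, R γ → P γ) (hS : ∀ γ, S γ → P γ) :
    Nat.card (Cl P) ≤ Nat.card (Cl Q) + Nat.card (Cl R) + Nat.card (Cl S) := by
  let F : ∀ T : Perm (Side m) → Prop, (∀ γ, T γ → P γ) → Cl T → Cl P := fun T hT =>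
    Quot.map (fun a => ⟨a.1, hT _ a.2⟩) fun _ _ hab => hab
  rw [← Nat.card_sum, ← Nat.card_sum]
  refine Nat.card_le_card_of_surjective
    (Sum.elim (Sum.elim (F Q hQ) (F R hR)) (F S hS)) fun q => ?_
  induction q using Quot.ind with
  | mk a =>
    rcases h a.1 a.2 with h1 | h1 | h1
    · exact ⟨Sum.inl (Sum.inl (Quot.mk _ ⟨a.1, h1⟩)), rfl⟩
    · exact ⟨Sum.inl (Sum.inr (Quot.mk _ ⟨a.1, h1⟩)), rfl⟩
    · exact ⟨Sum.inr (Quot.mk _ ⟨a.1, h1⟩), rfl⟩

lemma sub_union (P Q R S : Perm (Side m) → Prop) (h : ∀ γ, P γ → Q γ ∨ R γ ∨ S γ)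
    (hQ : ∀ γ, Q γ → P γ) (hR : ∀ γ, R γ → P γ) (hS : ∀ γ, S γ → P γ) :
    Nat.card {γ // P γ} ≤ Nat.card {γ // Q γ} + Nat.card {γ // R γ} + Nat.card {γ // S γ} := by
  let F : ∀ T : Perm (Side m) → Prop, (∀ γ, T γ → P γ) → {γ // T γ} → {γ // P γ} :=
    fun T hT a => ⟨a.1, hT _ a.2⟩
  rw [← Nat.card_sum, ← Nat.card_sum]
  refine Nat.card_le_card_of_surjective
    (Sum.elim (Sum.elim (F Q hQ) (F R hR)) (F S hS)) fun a => ?_
  rcases h a.1 a.2 with h1 | h1 | h1
  · exact ⟨Sum.inl (Sum.inl ⟨a.1, h1⟩), rfl⟩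
  · exact ⟨Sum.inl (Sum.inr ⟨a.1, h1⟩), rfl⟩
  · exact ⟨Sum.inr ⟨a.1, h1⟩, rfl⟩

lemma den_pos (m : ℕ) : (0 : ℝ) < 2 ^ m * m.factorial := by positivity

end Class

variable {H : Type} [Fintype H] [DecidableEq H] {σ : Perm H}
  {n : ℕ} {κ : Fin n → ℤ} {ρ : H → Fin n} {u : Fin n → ℕ}

theorem class_low (P : ∀ m, Perm (Side m) → Prop) (N : ℕ) : mass P N ≤ numClasses P N := by
  unfold mass numClasses
  rw [Nat.cast_sum]
  refine Finset.sum_le_sum fun m _ => ?_
  rw [div_le_iff₀ (Class.den_pos m)]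
  exact_mod_cast Class.low (P m)

theorem class_up [Nonempty H] (hc : Cyc σ ρ u) (hκ : ∀ j, (u j : ℤ) = κ j + 2) (N : ℕ)
    (i : ZMod 4) :
    (numClasses (fun _ γ => InStratum κ γ ∧ ¬ OneLeaf i γ) N : ℝ) ≤
      4 * mass (fun _ γ => InStratum κ γ ∧ ¬ OneLeaf i γ) N +
      Fintype.card H * mass (fun _ γ => InStratum κ γ ∧ 4 < autc γ) N := by
  unfold mass numClasses
  rw [Nat.cast_sum, Finset.mul_sum, Finset.mul_sum, ← Finset.sum_add_distrib]
  refine Finset.sum_le_sum fun m _ => ?_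
  rw [← mul_div_assoc, ← mul_div_assoc, ← add_div, le_div_iff₀ (Class.den_pos m)]
  have h1 := Class.up (m := m) (fun γ => InStratum κ γ ∧ ¬ OneLeaf i γ)
    fun γ γ' h hγ => ⟨Class.stratum_iso h hγ.1, fun h' =>
      hγ.2 (Class.leaf_iso (Class.iso_symm h) h')⟩
  have h2 := Class.sum_aut (m := m) (fun γ => InStratum κ γ ∧ ¬ OneLeaf i γ)
    (fun γ => InStratum κ γ) (Fintype.card H)
    fun γ hγ => ⟨hγ.1, Class.autc_le hc hκ hγ.1⟩
  exact_mod_cast h1.trans h2

theorem class_union (P Q R S : ∀ m, Perm (Side m) → Prop)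
    (h : ∀ m γ, P m γ → Q m γ ∨ R m γ ∨ S m γ)
    (hQ : ∀ m γ, Q m γ → P m γ) (hR : ∀ m γ, R m γ → P m γ) (hS : ∀ m γ, S m γ → P m γ) (N : ℕ) :
    numClasses P N ≤ numClasses Q N + numClasses R N + numClasses S N ∧
    mass P N ≤ mass Q N + mass R N + mass S N := by
  unfold mass numClasses
  constructor
  · rw [← Finset.sum_add_distrib, ← Finset.sum_add_distrib]
    exact Finset.sum_le_sum fun m _ =>
      Class.cl_union (P m) (Q m) (R m) (S m) (h m) (hQ m) (hR m) (hS m)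
  · rw [← Finset.sum_add_distrib, ← Finset.sum_add_distrib]
    refine Finset.sum_le_sum fun m _ => ?_
    rw [← add_div, ← add_div]
    refine div_le_div_of_nonneg_right ?_ (Class.den_pos m).le
    exact_mod_cast Class.sub_union (P m) (Q m) (R m) (S m) (h m) (hQ m) (hR m) (hS m)

end Pool.Agent.STS
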