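import Pool.Agent.P.MP_bb7f8f_gt.QMid

/-! The Morris rule and a bound for the coefficients of a power sum in the `Q`-functions. -/

namespace Pool.Agent.STS.QF
open MvPolynomial Finset Equiv

namespace Mor

section Rule
variable {M N : Type} [AddCommGroup M] [Module ℚ M] [AddCommGroup N] [Module ℚ N]

/-- one step of the Morris rule, applied to a function on lists -/
noncomputable def mor (k : ℕ) : List ℕ → (List ℕ → M) → M
  | [], F => (1 / 2 : ℚ) • F [k] + ∑ e ∈ Ico 1 k, ((-1) ^ e / 4 : ℚ) • F [k - e, e]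
  | e :: ν, F => F ((e + k) :: ν) + mor k ν fun ν' => F (e :: ν')

/-- the Morris rule iterated along a list -/
noncomputable def cof : List ℕ → (List ℕ → M) → M
  | [], F => F []
  | k :: v, F => cof v fun ν => mor k ν F

theorem map_mor (W : M →ₗ[ℚ] N) (k : ℕ) (ν : List ℕ) (F : List ℕ → M) :
    W (mor k ν F) = mor k ν fun ν' => W (F ν') := by
  induction ν generalizing F with
  | nil => simp [mor, map_sum]
  | cons e ν ih => simp [mor, ih]

theorem map_cof (W : M →ₗ[ℚ] N) (v : List ℕ) (F : List ℕ → M) :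
    W (cof v F) = cof v fun ν' => W (F ν') := by
  induction v generalizing F with
  | nil => simp [cof]
  | cons k v ih => simp [cof, ih, map_mor]

theorem mor_congr (k : ℕ) (hk : 1 ≤ k) (ν : List ℕ) (hν : ∀ e ∈ ν, 1 ≤ e) (F G : List ℕ → M)
    (h : ∀ ν', (∀ e ∈ ν', 1 ≤ e) → ν'.sum = ν.sum + k → F ν' = G ν') :
    mor k ν F = mor k ν G := by
  induction ν generalizing F G with
  | nil =>
    simp only [mor]
    rw [h [k] (by simpa using hk) (by simp)]
    congr 1
    refine sum_congr rfl fun e he => ?_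
    rw [mem_Ico] at he
    rw [h [k - e, e] (by simp; omega) (by simp; omega)]
  | cons e ν ih =>
    simp only [mor]
    have h1 : 1 ≤ e := hν e (by simp)
    have h2 : ∀ x ∈ ν, 1 ≤ x := fun x hx => hν x (by simp [hx])
    rw [h ((e + k) :: ν) (by
      intro x hx
      rcases List.mem_cons.1 hx with rfl | hx
      · omega
      · exact h2 x hx) (by simp; omega)]
    congr 1
    refine ih h2 _ _ fun ν' h3 h4 => h _ ?_ (by simp; omega)
    intro x hx
    rcases List.mem_cons.1 hx with rfl | hx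
    · exact h1
    · exact h3 x hx

theorem cof_congr (v : List ℕ) (hv : ∀ k ∈ v, 1 ≤ k) (F G : List ℕ → M)
    (h : ∀ ν, (∀ e ∈ ν, 1 ≤ e) → ν.sum = v.sum → F ν = G ν) : cof v F = cof v G := by
  induction v generalizing F G with
  | nil => exact h [] (by simp) rfl
  | cons k v ih =>
    simp only [cof]
    refine ih (fun x hx => hv x (by simp [hx])) _ _ fun ν h1 h2 => ?_
    refine mor_congr k (hv k (by simp)) ν h1 F G fun ν' h3 h4 => h ν' h3 ?_
    rw [h4, h2, List.sum_cons, add_comm]

theorem mor_zero (k : ℕ) (ν : List ℕ) (F : List ℕ → M)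
    (h : ∀ ν', ν.length ≤ ν'.length → F ν' = 0) : mor k ν F = 0 := by
  induction ν generalizing F with
  | nil => simp [mor, h]
  | cons e ν ih =>
    simp only [mor]
    rw [h _ (by simp), ih _ fun ν' h1 => h _ (by simpa using h1), add_zero]

theorem cof_short (v : List ℕ) (F : List ℕ → M) (h : ∀ ν, 2 ≤ ν.length → F ν = 0) :
    cof v F = if v = [] then F [] else (1 / 2 : ℚ) • F [v.sum] := by
  induction v generalizing F with
  | nil => simp [cof]
  | cons k v ih =>
    simp only [cof]
    rw [ih _ fun ν hν => mor_zero k ν F fun ν' h1 => h _ (by omega)]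
    have h2 : ∀ a b : ℕ, F [a, b] = 0 := fun a b => h _ (by simp)
    have h3 : ∀ a b c : ℕ, F [a, b, c] = 0 := fun a b c => h _ (by simp)
    by_cases hv : v = []
    · subst hv
      simp [mor, h2]
    · simp [hv, mor, h2, h3, add_comm]

end Rule

/-! ### The identity in the ring -/

noncomputable def Qn (ν : List ℕ) : Gm := Q (ν.map fun e : ℕ => (e : ℤ))

theorem qz_nat (n : ℕ) : qz n = q n := by simp [qz]

theorem sum_tri {R : Type} [CommRing R] (a : ℕ → R) (n : ℕ) :
    ∑ e ∈ range n, (a e + 2 * ∑ i ∈ range e, a i) =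
      ∑ i ∈ range n, (2 * ((n : R) - i) - 1) * a i := by
  induction n with
  | zero => simp
  | succ n ih =>
    rw [sum_range_succ, ih, sum_range_succ, mul_sum]
    have : ∑ i ∈ range n, (2 * (((n + 1 : ℕ) : R) - i) - 1) * a i =
        ∑ i ∈ range n, (2 * ((n : R) - i) - 1) * a i + ∑ i ∈ range n, 2 * a i := by
      rw [← sum_add_distrib]
      exact sum_congr rfl fun i _ => by push_cast; ring
    rw [this]
    push_cast
    ring

theorem Qn_two (k e : ℕ) (he : e ≤ k) :
    (-1) ^ e * Qn [k - e, e] = (-1) ^ e * q e * q (k - e) +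
      2 * ∑ i ∈ range e, (-1) ^ i * q i * q (k - i) := by
  have h0 : Qn [k - e, e] = phi ((k - e : ℕ) : ℤ) (qz e) := by
    simp only [Qn, List.map_cons, List.map_nil, Q, phi_one]
  rw [h0, phi_eq _ _ (e + 1) (fun j hj => by
    rw [S_qz, qz, if_neg (by omega), mul_zero]), sum_range_succ', mul_add, add_comm]
  congr 1
  · rw [S_qz]
    simp [w, qz_nat]
    ring
  · rw [← sum_range_reflect (fun i => (-1 : Gm) ^ i * q i * q (k - i)) e, mul_sum, mul_sum]
    refine sum_congr rfl fun l hl => ?_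
    rw [mem_range] at hl
    obtain ⟨i, rfl⟩ : ∃ i, e = l + 1 + i := ⟨e - (l + 1), by omega⟩
    have e1 : (((k - (l + 1 + i) : ℕ) : ℤ) + ((l + 1 : ℕ) : ℤ)) = ((k - i : ℕ) : ℤ) := by omega
    have e2 : (((l + 1 + i : ℕ) : ℤ) - ((l + 1 : ℕ) : ℤ)) = (i : ℤ) := by omega
    have e3 : l + 1 + i - 1 - l = i := by omega
    have e4 : (C (w (l + 1)) : Gm) = 2 := by simp [w]; rfl
    rw [S_qz, e1, e2, e3, e4, qz_nat, qz_nat, pow_add (-1 : Gm) (l + 1) i]
    rcases neg_one_pow_eq_or Gm (l + 1) with h | h <;> rw [h] <;> ring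

theorem sum_newton (m : ℕ) :
    ∑ i ∈ range (m + 1), (-1) ^ i * q i * (q (m + 1 - i) * (((m + 1 : ℕ) : Gm) - i)) =
      2 * pp (m + 1) := by
  have h1 : (PowerSeries.mk fun i => (-1 : Gm) ^ i * q i) * PowerSeries.mk q = 1 := by
    ext1 n
    rw [PowerSeries.coeff_mul, PowerSeries.coeff_one]
    simp only [PowerSeries.coeff_mk]
    split_ifs with h
    · subst h; simp [q_zero]
    · exact q_inv n h
  have h2 : (PowerSeries.mk fun i => (-1 : Gm) ^ i * q i) *
      PowerSeries.derivative Gm (PowerSeries.mk q) = Ps pp := by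
    rw [rec_q.2, mul_left_comm, h1, mul_one]
  have h3 := congrArg (PowerSeries.coeff m) h2
  rw [PowerSeries.coeff_mul, Finset.Nat.sum_antidiagonal_eq_sum_range_succ_mk] at h3
  simp only [PowerSeries.coeff_mk, PowerSeries.coeff_derivative, Ps] at h3
  rw [← h3]
  refine sum_congr rfl fun i hi => ?_
  rw [mem_range] at hi
  have e1 : m + 1 - i = m - i + 1 := by omega
  have e2 : (((m + 1 : ℕ) : Gm) - i) = ((m - i : ℕ) : Gm) + 1 := by
    rw [Nat.cast_sub (by omega : i ≤ m)]
    push_cast; ring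
  rw [e1, e2]

theorem morris_nil (k : ℕ) (hk : Odd k) : (X k : Gm) = mor k [] Qn := by
  obtain ⟨m, rfl⟩ : ∃ m, k = m + 1 := ⟨k - 1, by have := hk.pos; omega⟩
  have h1 := sum_newton m
  have h2 := q_inv (m + 1) (by omega)
  rw [Finset.Nat.sum_antidiagonal_eq_sum_range_succ_mk, sum_range_succ] at h2
  simp only [Nat.sub_self, q_zero, hk.neg_one_pow] at h2
  have h3 := sum_tri (fun i => (-1 : Gm) ^ i * q i * q (m + 1 - i)) (m + 1)
  rw [← sum_congr rfl fun e he => Qn_two (m + 1) e (mem_range.1 he).le,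
    sum_range_eq_add_Ico _ (by omega : 0 < m + 1)] at h3
  have h4 : ∑ i ∈ range (m + 1), (2 * (((m + 1 : ℕ) : Gm) - i) - 1) *
      ((-1) ^ i * q i * q (m + 1 - i)) = 2 * (2 * pp (m + 1)) - q (m + 1) := by
    rw [← h1, mul_sum]
    have : q (m + 1) = ∑ i ∈ range (m + 1), (-1) ^ i * q i * q (m + 1 - i) := by
      linear_combination -h2
    rw [this, ← sum_sub_distrib]
    exact sum_congr rfl fun i _ => by ring
  have h5 : Qn [m + 1 - 0, 0] = q (m + 1) := by
    have := Qn_two (m + 1) 0 (by omega)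
    simpa [q_zero] using this
  have h6 : Qn [m + 1] = q (m + 1) := by
    simp only [Qn, List.map_cons, List.map_nil, Q_single, qz_nat]
  rw [h4, h5, pp, if_pos hk] at h3
  have h7 : ∑ e ∈ Ico 1 (m + 1), ((-1) ^ e / 4 : ℚ) • Qn [m + 1 - e, e] =
      (1 / 4 : ℚ) • ∑ e ∈ Ico 1 (m + 1), (-1) ^ e * Qn [m + 1 - e, e] := by
    rw [smul_sum]
    refine sum_congr rfl fun e _ => ?_
    rcases Nat.even_or_odd e with h | h
    · simp [h.neg_one_pow]
    · simp [h.neg_one_pow, neg_div]
  have h8 : ∑ e ∈ Ico 1 (m + 1), (-1) ^ e * Qn [m + 1 - e, e] =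
      (4 : ℚ) • X (m + 1) - (2 : ℚ) • q (m + 1) := by
    have e4 : ∀ f : Gm, (4 : ℚ) • f = 4 * f := fun f => by
      rw [Algebra.smul_def]; rfl
    have e2 : ∀ f : Gm, (2 : ℚ) • f = 2 * f := fun f => by
      rw [Algebra.smul_def]; rfl
    rw [e4, e2]
    linear_combination h3
  simp only [mor]
  rw [h6, h7, h8]
  module

theorem morris (k : ℕ) (hk : Odd k) (ν : List ℕ) : X k * Qn ν = mor k ν Qn := by
  induction ν with
  | nil => rw [← morris_nil k hk]; simp [Qn, Q]
  | cons e ν ih =>
    have h : ∀ (e : ℕ) (ν : List ℕ), Qn (e :: ν) = phi e (Qn ν) := fun _ _ => rfl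
    simp only [mor, h]
    rw [phi_mul_X k hk, ih, map_mor]
    push_cast
    rfl

theorem prod_X (v : List ℕ) (hv : ∀ k ∈ v, Odd k) : (v.map X).prod = cof v Qn := by
  induction v with
  | nil => simp [cof, Qn, Q]
  | cons k v ih =>
    rw [List.map_cons, List.prod_cons, ih fun x hx => hv x (by simp [hx])]
    have := map_cof (LinearMap.mulLeft ℚ (X k : Gm)) v Qn
    simp only [LinearMap.mulLeft_apply] at this
    rw [this]
    simp only [cof, morris k (hv k (by simp))]

theorem Qn_cons (e : ℕ) (ν : List ℕ) : Qn (e :: ν) = phi e (Qn ν) := rfl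

theorem Qn_perm {l l' : List ℕ} (h : l.Perm l') (hl : ∀ e ∈ l, 1 ≤ e) :
    Qn l = Qn l' ∨ Qn l = - Qn l' := by
  induction h with
  | nil => exact Or.inl rfl
  | cons e _ ih =>
    rw [Qn_cons, Qn_cons]
    rcases ih fun x hx => hl x (by simp [hx]) with h | h
    · exact Or.inl (by rw [h])
    · exact Or.inr (by rw [h, map_neg])
  | swap a b l =>
    have h1 : 1 ≤ a := hl a (by simp)
    rw [Qn_cons, Qn_cons, Qn_cons, Qn_cons]
    exact Or.inr (phi_anti _ _ (by omega) _)
  | trans h1 _ ih1 ih2 =>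
    rcases ih1 hl with h | h <;> rcases ih2 fun x hx => hl x (h1.mem_iff.2 hx) with h' | h' <;>
      simp [h, h']

theorem Qn_dup (l : List ℕ) (hl : ∀ e ∈ l, 1 ≤ e) (h : ¬ l.Nodup) : Qn l = 0 := by
  induction l with
  | nil => simp at h
  | cons e l ih =>
    have h1 : 1 ≤ e := hl e (by simp)
    have h2 : ∀ x ∈ l, 1 ≤ x := fun x hx => hl x (by simp [hx])
    rw [Qn_cons]
    by_cases h3 : l.Nodup
    · have h4 : e ∈ l := by
        by_contra h4
        exact h (List.nodup_cons.2 ⟨h4, h3⟩)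
      have h5 : phi e (Qn (e :: l.erase e)) = 0 := by
        have := phi_anti e e (by omega) (Qn (l.erase e))
        rw [Qn_cons]
        have h6 : (2 : Gm) * phi e (phi e (Qn (l.erase e))) = 0 := by linear_combination this
        exact (mul_eq_zero.1 h6).resolve_left two_ne_zero
      rcases Qn_perm (List.perm_cons_erase h4) h2 with h | h <;> simp [h, h5]
    · rw [ih h2 h3, map_zero]

/-! ### The bound for the coefficients -/

/-- weight of the list `ν` relative to the target list -/
noncomputable def wt (u η : ℕ → ℝ) : List ℕ → List ℕ → ℝ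
  | _, [] => 1
  | [], _ :: _ => 0
  | R :: l, e :: ν => if e ≤ 2 * R then η R * u R ^ e * wt u η l ν else 0

structure Adm (u η : ℕ → ℝ) (M : ℕ) (l : List ℕ) : Prop where
  pos : ∀ R ∈ l, 0 < u R
  nn : ∀ R ∈ l, 0 ≤ η R
  le : ∀ R ∈ l, η R ≤ 1
  cap : ∀ R ∈ l, R ≠ M → η R * (2 * R) ≤ 1
  nd : l.Nodup

variable {u η : ℕ → ℝ} {M : ℕ}

theorem Adm.tail {R : ℕ} {l : List ℕ} (h : Adm u η M (R :: l)) : Adm u η M l :=
  ⟨fun x hx => h.pos x (by simp [hx]), fun x hx => h.nn x (by simp [hx]),
    fun x hx => h.le x (by simp [hx]), fun x hx => h.cap x (by simp [hx]),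
    (List.nodup_cons.1 h.nd).2⟩

theorem wt_nil (l : List ℕ) : wt u η l [] = 1 := by cases l <;> simp [wt]

theorem wt_nonneg {l : List ℕ} (h : Adm u η M l) (ν : List ℕ) : 0 ≤ wt u η l ν := by
  induction l generalizing ν with
  | nil => cases ν <;> simp [wt]
  | cons R l ih =>
    cases ν with
    | nil => simp [wt]
    | cons e ν =>
      simp only [wt]
      have h1 := h.pos R (by simp)
      have h2 := h.nn R (by simp)
      have h3 := ih h.tail ν
      split_ifs
      · positivity
      · exact le_rfl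

theorem pow_mul_pow_le {a b : ℝ} (ha : 0 < a) (hb : 0 < b) (i j : ℕ) :
    a ^ i * b ^ j ≤ a ^ (i + j) + b ^ (i + j) := by
  rcases le_total a b with h | h
  · have : a ^ i * b ^ j ≤ b ^ (i + j) := by rw [pow_add]; gcongr
    have : 0 < a ^ (i + j) := by positivity
    linarith
  · have : a ^ i * b ^ j ≤ a ^ (i + j) := by rw [pow_add]; gcongr
    have : 0 < b ^ (i + j) := by positivity
    linarith

theorem sum_two {a b : ℕ} {l : List ℕ} (h : Adm u η M (a :: b :: l)) (k : ℕ) :
    ∑ e ∈ Ico 1 k, wt u η (a :: b :: l) [k - e, e] ≤ u a ^ k + u b ^ k := by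
  have ha := h.pos a (by simp)
  have hb := h.pos b (by simp)
  have na := h.nn a (by simp)
  have nb := h.nn b (by simp)
  have la := h.le a (by simp)
  have lb := h.le b (by simp)
  have hab : a ≠ b := by
    intro e
    have := h.nd
    simp [e] at this
  set T := (Ico 1 k).filter fun e => k - e ≤ 2 * a ∧ e ≤ 2 * b with hT
  have h1 : ∑ e ∈ Ico 1 k, wt u η (a :: b :: l) [k - e, e] ≤
      ∑ e ∈ T, η a * η b * (u a ^ k + u b ^ k) := by
    rw [hT, sum_filter]
    refine sum_le_sum fun e he => ?_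
    rw [mem_Ico] at he
    simp only [wt]
    by_cases c1 : k - e ≤ 2 * a
    · by_cases c2 : e ≤ 2 * b
      · simp only [c1, c2, if_true, and_self, mul_one]
        have := pow_mul_pow_le ha hb (k - e) e
        rw [Nat.sub_add_cancel he.2.le] at this
        calc η a * u a ^ (k - e) * (η b * u b ^ e) = η a * η b * (u a ^ (k - e) * u b ^ e) := by
              ring
          _ ≤ _ := by gcongr
      · simp [c2]
    · simp [c1]
  have h2 : #T ≤ 2 * b := by
    have : T ⊆ Icc 1 (2 * b) := fun e he => by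
      simp only [hT, mem_filter, mem_Ico, mem_Icc] at he ⊢
      omega
    simpa using card_le_card this
  have h3 : #T ≤ 2 * a := by
    have : #T ≤ #(Icc 1 (2 * a)) := by
      refine card_le_card_of_injOn (fun e => k - e) (fun e he => ?_) (fun e he e' he' hee => ?_)
      · simp only [hT, coe_filter, mem_Ico, coe_Icc, Set.mem_ofPred_eq, Set.mem_Icc] at he ⊢
        omega
      · simp only [hT, coe_filter, mem_Ico, Set.mem_ofPred_eq] at he he' hee
        omega
    simpa using this
  have h4 : (#T : ℝ) * (η a * η b) ≤ 1 := by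
    by_cases c : a = M
    · have h5 := h.cap b (by simp) (fun e => hab (c.trans e.symm))
      have h6 : (#T : ℝ) ≤ 2 * b := by exact_mod_cast h2
      calc (#T : ℝ) * (η a * η b) ≤ 2 * b * (1 * η b) := by gcongr
        _ ≤ 1 := by linarith
    · have h5 := h.cap a (by simp) c
      have h6 : (#T : ℝ) ≤ 2 * a := by exact_mod_cast h3
      calc (#T : ℝ) * (η a * η b) ≤ 2 * a * (η a * 1) := by gcongr
        _ ≤ 1 := by linarith
  rw [sum_const, nsmul_eq_mul, ← mul_assoc] at h1
  have h7 : 0 ≤ u a ^ k + u b ^ k := by positivity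
  nlinarith

theorem psum_nonneg {l : List ℕ} (h : Adm u η M l) (k : ℕ) :
    0 ≤ (l.map fun R => u R ^ k).sum :=
  List.sum_nonneg fun x hx => by
    obtain ⟨R, hR, rfl⟩ := List.mem_map.1 hx
    exact (pow_pos (h.pos R hR) k).le

theorem mor_bound (k : ℕ) (ν : List ℕ) (l : List ℕ) (h : Adm u η M l) (c : ℝ) (hc : 0 ≤ c)
    (F : List ℕ → ℚ) (hF : ∀ ν', |(F ν' : ℝ)| ≤ c * wt u η l ν') :
    |((mor k ν F : ℚ) : ℝ)| ≤ c * (l.map fun R => u R ^ k).sum * wt u η l ν := by
  induction ν generalizing l c F with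
  | nil =>
    rw [wt_nil, mul_one]
    have h1 : |((mor k [] F : ℚ) : ℝ)| ≤ 1 / 2 * (c * wt u η l [k]) +
        1 / 4 * (c * ∑ e ∈ Ico 1 k, wt u η l [k - e, e]) := by
      simp only [mor, smul_eq_mul]
      push_cast
      refine (abs_add_le _ _).trans (add_le_add ?_ ?_)
      · rw [abs_mul, abs_of_pos (by norm_num : (0 : ℝ) < 1 / 2)]
        have := hF [k]
        linarith
      · refine (abs_sum_le_sum_abs _ _).trans ?_
        rw [mul_sum, mul_sum]
        refine sum_le_sum fun e _ => ?_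
        rw [abs_mul, abs_div, abs_pow, abs_neg, abs_one, one_pow,
          abs_of_pos (by norm_num : (0 : ℝ) < 4)]
        have := hF [k - e, e]
        linarith
    refine h1.trans ?_
    match l, h with
    | [], _ => simp [wt]
    | [a], h =>
      have ha := pow_pos (h.pos a (by simp)) k
      have la := h.le a (by simp)
      have h2 : wt u η [a] [k] ≤ u a ^ k := by
        simp only [wt]
        split_ifs
        · nlinarith
        · exact ha.le
      have h3 : ∑ e ∈ Ico 1 k, wt u η [a] [k - e, e] = 0 := by simp [wt]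
      rw [h3]
      simp only [List.map_cons, List.map_nil, List.sum_cons, List.sum_nil]
      nlinarith [mul_le_mul_of_nonneg_left h2 hc, mul_nonneg hc ha.le]
    | a :: b :: l, h =>
      have ha := pow_pos (h.pos a (by simp)) k
      have hb := pow_pos (h.pos b (by simp)) k
      have la := h.le a (by simp)
      have h2 : wt u η (a :: b :: l) [k] ≤ u a ^ k := by
        simp only [wt]
        split_ifs
        · nlinarith
        · exact ha.le
      have h3 := sum_two h k
      have h4 := psum_nonneg h.tail.tail k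
      simp only [List.map_cons, List.sum_cons]
      nlinarith [mul_le_mul_of_nonneg_left h2 hc, mul_le_mul_of_nonneg_left h3 hc,
        mul_nonneg hc ha.le, mul_nonneg hc hb.le, mul_nonneg hc h4]
  | cons e ν ih =>
    simp only [mor]
    push_cast
    cases l with
    | nil =>
      have h1 : ∀ a ν', F (a :: ν') = 0 := fun a ν' => by
        have := hF (a :: ν')
        simpa [wt] using this
      rw [h1, mor_zero k ν _ fun ν' _ => h1 e ν']
      simp [wt]
    | cons R l =>
      have h0 := h.pos R (by simp)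
      have h0' := h.nn R (by simp)
      have hw := wt_nonneg h.tail ν
      have h1 : |(F ((e + k) :: ν) : ℝ)| ≤ c * u R ^ k * wt u η (R :: l) (e :: ν) := by
        refine (hF _).trans ?_
        simp only [wt]
        by_cases c1 : e + k ≤ 2 * R
        · rw [if_pos c1, if_pos (by omega), pow_add]
          exact le_of_eq (by ring)
        · rw [if_neg c1, mul_zero]
          split_ifs
          · positivity
          · simp
      have h2 := ih l h.tail (c * if e ≤ 2 * R then η R * u R ^ e else 0)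
        (by split_ifs <;> positivity) (fun ν' => F (e :: ν')) (fun ν' => by
          refine (hF _).trans (le_of_eq ?_)
          simp only [wt]
          split_ifs <;> ring)
      refine (abs_add_le _ _).trans ((add_le_add h1 h2).trans (le_of_eq ?_))
      simp only [wt, List.map_cons, List.sum_cons]
      split_ifs <;> ring

theorem cof_bound (v : List ℕ) (l : List ℕ) (h : Adm u η M l) (c : ℝ) (hc : 0 ≤ c)
    (F : List ℕ → ℚ) (hF : ∀ ν', |(F ν' : ℝ)| ≤ c * wt u η l ν') :
    |((cof v F : ℚ) : ℝ)| ≤ c * (v.map fun k => (l.map fun R => u R ^ k).sum).prod := by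
  induction v generalizing c F with
  | nil => simpa [cof, wt_nil] using hF []
  | cons k v ih =>
    simp only [cof, List.map_cons, List.prod_cons]
    rw [← mul_assoc]
    exact ih _ (mul_nonneg hc (psum_nonneg h k)) _ fun ν => mor_bound k ν l h c hc F hF

theorem wt_self (l : List ℕ) :
    wt u η l (l.map fun R => 2 * R) = (l.map fun R => η R * u R ^ (2 * R)).prod := by
  induction l with
  | nil => simp [wt]
  | cons R l ih => simp [wt, ih]

/-! ### Grouping by strict partitions -/

/-- the orderings of a finite set -/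
def ords (A : Finset ℕ) : Finset (List ℕ) := (A.sort (· ≥ ·)).permutations.toFinset

theorem mem_ords {A : Finset ℕ} {l : List ℕ} : l ∈ ords A ↔ l.Nodup ∧ l.toFinset = A := by
  rw [ords, List.mem_toFinset, List.mem_permutations]
  constructor
  · intro h
    exact ⟨h.nodup_iff.2 (sort_nodup _ _), by rw [List.toFinset_eq_of_perm _ _ h, sort_toFinset]⟩
  · rintro ⟨h1, h2⟩
    exact List.perm_of_nodup_nodup_toFinset_eq h1 (sort_nodup _ _) (by rw [h2, sort_toFinset])

theorem card_ords (A : Finset ℕ) : #(ords A) ≤ (#A).factorial := by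
  have := List.toFinset_card_le (A.sort (· ≥ ·)).permutations
  rwa [List.length_permutations, length_sort] at this

open Classical in
noncomputable def sg (l : List ℕ) : ℚ := if Qn l = Q (sl l.toFinset) then 1 else -1

theorem sg_spec (l : List ℕ) (h : l.Nodup) (hl : ∀ e ∈ l, 1 ≤ e) :
    Qn l = sg l • Q (sl l.toFinset) := by
  have h1 : l.Perm (l.toFinset.sort (· ≥ ·)) :=
    List.perm_of_nodup_nodup_toFinset_eq h (sort_nodup _ _) (by rw [sort_toFinset])
  have h2 : Qn (l.toFinset.sort (· ≥ ·)) = Q (sl l.toFinset) := rfl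
  unfold sg
  split_ifs with c
  · rw [one_smul, c]
  · rcases Qn_perm h1 hl with h | h
    · exact absurd (h.trans h2) c
    · rw [h, h2, neg_smul, one_smul]

theorem abs_sg (l : List ℕ) : |(sg l : ℝ)| = 1 := by
  unfold sg
  split_ifs <;> simp

theorem prod_mu (l : List ℕ) (h : l.Nodup) :
    ((((l.map fun R => 2 * R).map mu).prod : ℚ) : ℝ) = DF l.toFinset / 2 ^ ∑ R ∈ l.toFinset, R := by
  rw [List.map_map, ← List.prod_toFinset _ h, DF, ← prod_pow_eq_pow_sum, ← prod_div_distrib]
  push_cast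
  refine prod_congr rfl fun R _ => ?_
  simp [mu]

/-- the coefficient of `Q ν` -/
noncomputable def cf (v ν : List ℕ) : ℚ := cof v fun ν' => if ν' = ν then 1 else 0

noncomputable def gam (v : List ℕ) (A : Finset ℕ) : ℚ :=
  ∑ l ∈ ords A, sg l * ((l.map fun R => 2 * R).map mu).prod * cf v (l.map fun R => 2 * R)

theorem cf_bound (v : List ℕ) (A : Finset ℕ) (hA : ∀ R ∈ A, 1 ≤ R) (hne : A.Nonempty)
    (u : ℕ → ℝ) (hu : ∀ R, 1 ≤ R → 0 < u R) (l : List ℕ) (hl : l ∈ ords A) :
    |(cf v (l.map fun R => 2 * R) : ℝ)| ≤ (∏ R ∈ A.erase (A.sup id), (2 * R : ℝ)) *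
      (∏ R ∈ A, (u R)⁻¹ ^ (2 * R)) * (v.map fun k => ∑ R ∈ A, u R ^ k).prod := by
  obtain ⟨h1, h2⟩ := mem_ords.1 hl
  have hm : ∀ R ∈ l, 1 ≤ R := fun R hR => hA R (h2 ▸ List.mem_toFinset.2 hR)
  set η : ℕ → ℝ := fun R => if R = A.sup id then 1 else (2 * R : ℝ)⁻¹ with hη
  have ad : Adm u η (A.sup id) l := by
    refine ⟨fun R hR => hu R (hm R hR), fun R _ => ?_, fun R hR => ?_, fun R hR hne => ?_, h1⟩
    · simp only [hη]; split_ifs <;> positivity
    · simp only [hη]
      split_ifs
      · exact le_rfl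
      · have : (1 : ℝ) ≤ R := by exact_mod_cast hm R hR
        exact inv_le_one_of_one_le₀ (by linarith)
    · have : (1 : ℝ) ≤ R := by exact_mod_cast hm R hR
      simp only [hη, if_neg hne]
      rw [inv_mul_cancel₀ (by linarith)]
  set c : ℝ := (∏ R ∈ A.erase (A.sup id), (2 * R : ℝ)) * ∏ R ∈ A, (u R)⁻¹ ^ (2 * R) with hc
  have c0 : 0 ≤ c := mul_nonneg (prod_nonneg fun R _ => by positivity)
    (prod_nonneg fun R hR => by have := hu R (hA R hR); positivity)
  have hM : A.sup id ∈ A := by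
    obtain ⟨i, hi, e⟩ := exists_mem_eq_sup A hne id
    rw [e]; exact hi
  have c1 : c * wt u η l (l.map fun R => 2 * R) = 1 := by
    rw [wt_self, ← List.prod_toFinset _ h1, h2, prod_mul_distrib, hc,
      ← mul_prod_erase A η hM]
    have e1 : (∏ R ∈ A.erase (A.sup id), (2 * R : ℝ)) * ∏ R ∈ A.erase (A.sup id), η R = 1 := by
      rw [← prod_mul_distrib]
      refine prod_eq_one fun R hR => ?_
      have : (1 : ℝ) ≤ R := by exact_mod_cast hA R (mem_of_mem_erase hR)
      simp only [hη, if_neg (ne_of_mem_erase hR)]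
      rw [mul_inv_cancel₀ (by linarith)]
    have e2 : (∏ R ∈ A, (u R)⁻¹ ^ (2 * R)) * ∏ R ∈ A, u R ^ (2 * R) = 1 := by
      rw [← prod_mul_distrib]
      refine prod_eq_one fun R hR => ?_
      rw [← mul_pow, inv_mul_cancel₀ (hu R (hA R hR)).ne', one_pow]
    have e3 : η (A.sup id) = 1 := by simp [hη]
    rw [e3]
    linear_combination (∏ R ∈ A, (u R)⁻¹ ^ (2 * R)) * (∏ R ∈ A, u R ^ (2 * R)) * e1 + e2
  have := cof_bound v l ad c c0 (fun ν' => if ν' = l.map fun R => 2 * R then 1 else 0)
    (fun ν' => by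
      split_ifs with h
      · rw [h, c1]; simp
      · simpa using mul_nonneg c0 (wt_nonneg ad ν'))
  refine this.trans (le_of_eq ?_)
  congr 2
  refine List.map_congr_left fun k _ => ?_
  rw [← List.sum_toFinset _ h1, h2]

theorem group {R : Type} [AddCommGroup R] [Module ℚ R] (W' : Gm →ₗ[ℚ] R) (D : ℕ) (ν : List ℕ)
    (hν : ∀ e ∈ ν, 1 ≤ e) (hs : ν.sum = 2 * D) :
    (ν.map mu).prod • W' (Q (ν.map fun e : ℕ => ((e / 2 : ℕ) : ℤ))) =
      ∑ A ∈ SP D, (∑ l ∈ ords A, sg l * ((l.map fun R => 2 * R).map mu).prod *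
        if ν = l.map fun R => 2 * R then 1 else 0) • W' (Q (sl A)) := by
  by_cases h : ∃ l : List ℕ, ν = l.map fun R => 2 * R
  · obtain ⟨l, rfl⟩ := h
    have hl : ∀ e ∈ l, 1 ≤ e := fun e he => by
      have := hν (2 * e) (List.mem_map.2 ⟨e, he, rfl⟩)
      omega
    have inj : ∀ l' : List ℕ, ((l.map fun R => 2 * R) = l'.map fun R => 2 * R) ↔ l = l' :=
      fun l' => List.map_inj_right fun a b h => by omega
    have e1 : Q ((l.map fun R => 2 * R).map fun e : ℕ => ((e / 2 : ℕ) : ℤ)) = Qn l := by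
      rw [List.map_map, Qn]
      congr 1
      exact List.map_congr_left fun a _ => by simp
    simp only [e1, inj, mul_ite, mul_one, mul_zero, sum_ite_eq, ite_smul, zero_smul]
    by_cases nd : l.Nodup
    · have hsum : l.sum = D := by
        rw [List.sum_map_mul_left] at hs
        simp at hs
        omega
      have hA : l.toFinset ∈ SP D := by
        simp only [SP, mem_filter, mem_powerset]
        refine ⟨fun R hR => ?_, ?_⟩
        · rw [List.mem_toFinset] at hR
          rw [mem_Icc]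
          exact ⟨hl R hR, hsum ▸ List.single_le_sum (fun _ _ => Nat.zero_le _) R hR⟩
        · rw [List.sum_toFinset _ nd]; simpa using hsum
      rw [sum_eq_single l.toFinset]
      · rw [if_pos (mem_ords.2 ⟨nd, rfl⟩), sg_spec l nd hl, map_smul, smul_smul, mul_comm]
      · intro A _ hne
        rw [if_neg fun h => hne (mem_ords.1 h).2.symm]
      · exact fun h => absurd hA h
    · rw [Qn_dup l hl nd, map_zero, smul_zero]
      exact (sum_eq_zero fun A _ => if_neg fun h => nd (mem_ords.1 h).1).symm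
  · have h1 : (ν.map mu).prod = 0 := by
      by_contra h2
      refine h ⟨ν.map fun e => e / 2, ?_⟩
      rw [List.map_map]
      refine (List.map_id ν).symm.trans (List.map_congr_left fun e he => ?_)
      by_contra h3
      refine h2 (List.prod_eq_zero (List.mem_map.2 ⟨e, he, ?_⟩))
      rw [mu, if_neg]
      rintro ⟨r, rfl⟩
      apply h3
      simp
      omega
    rw [h1, zero_smul]
    refine (sum_eq_zero fun A _ => ?_).symm
    rw [sum_eq_zero, zero_smul]
    intro l _
    rw [if_neg fun e => h ⟨l, e⟩, mul_zero]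

theorem cf_eq (v ν : List ℕ) :
    cf v ν = cof v (fun ν' : List ℕ => fun x : List ℕ => if ν' = x then (1 : ℚ) else 0) ν :=
  (map_cof (LinearMap.proj ν : (List ℕ → ℚ) →ₗ[ℚ] ℚ) v
    fun ν' : List ℕ => fun x : List ℕ => if ν' = x then (1 : ℚ) else 0).symm

end Mor

open Mor

variable {J : Type} [Fintype J] [DecidableEq J]

theorem decomp (v : J → ℕ) (hv : ∀ j, Odd (v j)) (D : ℕ) (hD : ∑ j, v j = 2 * D) (h1 : 1 ≤ D) :
    ∃ γ : Finset ℕ → ℚ,
      (∀ (R : Type) [AddCommGroup R] [Module ℚ R] (W W' : Gm →ₗ[ℚ] R),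
        (∀ ν : List ℕ, (∀ e ∈ ν, 1 ≤ e) → W (Q (ν.map fun e : ℕ => (e : ℤ))) =
          (ν.map mu).prod • W' (Q (ν.map fun e : ℕ => ((e / 2 : ℕ) : ℤ)))) →
        W (∏ j, X (v j)) = ∑ A ∈ SP D, γ A • W' (Q (sl A))) ∧
      (∀ A ∈ SP D, ∀ u : ℕ → ℝ, (∀ R, 1 ≤ R → 0 < u R) →
        |(γ A : ℝ)| ≤ kap univ v A u * DF A / 2 ^ D) ∧
      (γ {D} : ℝ) = DF {D} / 2 ^ (D + 1) := by
  set V : List ℕ := (univ : Finset J).toList.map v with hV
  have V1 : ∀ k ∈ V, Odd k := fun k hk => by
    obtain ⟨j, _, rfl⟩ := List.mem_map.1 hk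
    exact hv j
  have V2 : V.sum = 2 * D := by rw [hV, sum_map_toList, hD]
  refine ⟨gam V, fun R _ _ W W' hW => ?_, fun A hA u hu => ?_, ?_⟩
  · let Ψ : (List ℕ → ℚ) →ₗ[ℚ] R :=
      ∑ A ∈ SP D, (∑ l ∈ ords A, (sg l * ((l.map fun R => 2 * R).map mu).prod) •
        (LinearMap.proj (l.map fun R => 2 * R) : (List ℕ → ℚ) →ₗ[ℚ] ℚ)).smulRight (W' (Q (sl A)))
    have hΨ : ∀ g : List ℕ → ℚ, Ψ g = ∑ A ∈ SP D, (∑ l ∈ ords A,
        sg l * ((l.map fun R => 2 * R).map mu).prod * g (l.map fun R => 2 * R)) •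
          W' (Q (sl A)) := fun g => by
      simp only [Ψ, LinearMap.sum_apply, LinearMap.smulRight_apply, LinearMap.smul_apply,
        LinearMap.proj_apply, smul_eq_mul]
    have e1 : (∏ j, X (v j) : Gm) = (V.map X).prod := by
      rw [hV, List.map_map, prod_map_toList]; rfl
    rw [e1, prod_X V V1, map_cof, cof_congr V (fun k hk => (V1 k hk).pos) _
      (fun ν' => Ψ fun x => if ν' = x then 1 else 0) (fun ν h2 h3 => by
        rw [hΨ, ← group W' D ν h2 (h3.trans V2)]
        exact hW ν h2), ← map_cof, hΨ]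
    simp only [gam, cf_eq]
  · simp only [SP, mem_filter, mem_powerset] at hA
    have hA1 : ∀ R ∈ A, 1 ≤ R := fun R hR => (mem_Icc.1 (hA.1 hR)).1
    have hne : A.Nonempty := by
      rw [nonempty_iff_ne_empty]
      rintro rfl
      simp at hA
      omega
    have hDF : 0 ≤ DF A / 2 ^ D := by
      unfold DF
      positivity
    rw [gam]
    push_cast
    refine (abs_sum_le_sum_abs _ _).trans ?_
    set B : ℝ := (∏ R ∈ A.erase (A.sup id), (2 * R : ℝ)) *
      (∏ R ∈ A, (u R)⁻¹ ^ (2 * R)) * (V.map fun k => ∑ R ∈ A, u R ^ k).prod with hB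
    have h2 : ∀ l ∈ ords A, |(sg l : ℝ) * ((((l.map fun R => 2 * R).map mu).prod : ℚ) : ℝ) *
        (cf V (l.map fun R => 2 * R) : ℝ)| ≤ DF A / 2 ^ D * B := fun l hl => by
      rw [abs_mul, abs_mul, abs_sg, one_mul, prod_mu l (mem_ords.1 hl).1, (mem_ords.1 hl).2, hA.2,
        abs_of_nonneg hDF]
      exact mul_le_mul_of_nonneg_left (cf_bound V A hA1 hne u hu l hl) hDF
    have h3 : 0 ≤ DF A / 2 ^ D * B :=
      (abs_nonneg _).trans (h2 (A.sort (· ≥ ·)) (mem_ords.2 ⟨sort_nodup _ _, sort_toFinset _ _⟩))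
    have h4 : (#(ords A) : ℝ) ≤ (#A).factorial := by exact_mod_cast card_ords A
    have h5 : (V.map fun k => ∑ R ∈ A, u R ^ k).prod = ∏ j, ∑ R ∈ A, u R ^ v j := by
      rw [hV, List.map_map, prod_map_toList]; rfl
    calc _ ≤ #(ords A) • (DF A / 2 ^ D * B) := sum_le_card_nsmul _ _ _ (by
            intro l hl
            have := h2 l hl
            push_cast at this
            exact this)
      _ ≤ (#A).factorial * (DF A / 2 ^ D * B) := by
            rw [nsmul_eq_mul]; gcongr
      _ = _ := by rw [hB, h5, kap]; ring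
  · have h2 : ords {D} = {[D]} := by
      ext l
      simp [ords, List.mem_permutations]
    have h3 : sg [D] = 1 := by
      rw [sg, if_pos]
      simp [sl, Qn]
    have h4 : cf V [2 * D] = 1 / 2 := by
      rw [cf, cof_short V _ fun ν hν => if_neg (by rintro rfl; simp at hν), if_neg, V2]
      · simp
      · intro h
        rw [h] at V2
        simp at V2
        omega
    have h5 := prod_mu [D] (by simp)
    rw [gam, h2, sum_singleton, h3, one_mul]
    simp only [List.map_cons, List.map_nil, List.toFinset_cons, List.toFinset_nil, insert_empty_eq,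
      sum_singleton] at h5 ⊢
    rw [h4, Rat.cast_mul, h5]
    push_cast
    ring

end Pool.Agent.STS.QF
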