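import Pool.Agent.P.MP_bb7f8f_gt.CoreA
import Pool.Agent.P.MP_bb7f8f_gt.Morris

/-! The evaluation of `⟨Q_ν (tr M ^ k)⟩` and the generating function of ribbon graphs. -/

namespace Pool.Agent.STS.QF
open MvPolynomial Finset Equiv

variable {n : ℕ}

noncomputable def G0 (n : ℕ) : Mx n →ₗ[ℚ] ℚ := (exists_gauss Prod.swap Prod.swap_swap).choose
noncomputable def G1 (n : ℕ) : Pl n →ₗ[ℚ] ℚ := (exists_gauss id fun _ => rfl).choose
theorem hG0 (n : ℕ) : IsG Prod.swap (G0 n) := (exists_gauss Prod.swap Prod.swap_swap).choose_spec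
theorem hG1 (n : ℕ) : IsG id (G1 n) := (exists_gauss id fun _ => rfl).choose_spec

noncomputable def Zn (n : ℕ) : Sr n := Et (G0 n) 1
noncomputable def LL (n : ℕ) : Gm →ₗ[ℚ] Sr n :=
  Et (G0 n) ∘ₗ (evO fun k => (MM n ^ k).trace).toLinearMap
noncomputable def RR (n : ℕ) : Gm →ₗ[ℚ] Sr n :=
  LinearMap.mulLeft ℚ (Zn n) ∘ₗ (evO fun k => ∑ i, xv i ^ k).toLinearMap
noncomputable def PP (n : ℕ) : Gm →ₐ[ℚ] Pl n := evO fun k => ∑ i, X i ^ k
noncomputable def ns (n : ℕ) : Pl n →ₐ[ℚ] Pl n := aeval fun i => -X i ^ 2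
noncomputable def kk (n : ℕ) : ℚ := pair (Vd MvPowerSeries.X) (Vd X : Pl n)
noncomputable def c1 (n : ℕ) : ℚ := G1 n (Vd X ^ 2)
noncomputable def VS (n : ℕ) : Sr n := Vd MvPowerSeries.X
noncomputable def VP (n : ℕ) : Pl n := Vd X

theorem LL_apply (f : Gm) : LL n f = Et (G0 n) (evO (fun k => (MM n ^ k).trace) f) := rfl
theorem RR_apply (f : Gm) : RR n f = Zn n * evO (fun k => ∑ i, xv i ^ k) f := rfl

theorem LL_eq (f : Gm) : LL n f = Et (G0 n) (evT (MM n) (evO X f)) := by
  rw [map_evO, LL_apply]; simp [evT]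

theorem HG (f g : Gm) : c1 n * pair (VS n * LL n f) (VP n * eva X g) =
    kk n * G1 n (VP n ^ 2 * PP n f * ns n (eva X g)) := by
  let ψ : Gm →ₐ[ℚ] Gm := aeval fun k => (-1) ^ k * X (2 * k)
  have e1 : (evT (MM n)).comp ψ = evT (AA n) := MvPolynomial.algHom_ext fun k => by
    simp only [ψ, evT, AA, AlgHom.comp_apply, aeval_X, map_mul, map_pow, map_neg, map_one]
    rw [pow_mul, sq]
    rcases Nat.even_or_odd k with h | h <;> simp [h.neg_pow, h.neg_one_pow]
  have e2 : (eva X).comp ψ = (ns n).comp (eva X) := MvPolynomial.algHom_ext fun k => by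
    simp only [ψ, eva, ns, AlgHom.comp_apply, aeval_X, map_mul, map_pow, map_neg, map_one, map_sum,
      Finset.mul_sum]
    exact Finset.sum_congr rfl fun i _ => by rw [neg_pow (X i ^ 2 : Pl n), pow_mul]
  have e3 : eva X (evO X f) = PP n f := by rw [map_evO]; simp [eva, PP]
  have h := gue (hG0 n) (hG1 n) (evO X f * ψ g)
  have e1' : evT (MM n) (ψ g) = evT (AA n) g := by rw [← e1]; rfl
  have e2' : eva X (ψ g) = ns n (eva X g) := DFunLike.congr_fun e2 g
  rw [map_mul (eva X), map_mul (evT _), e1', e2', e3, ← mul_assoc] at h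
  rw [LL_eq, VS, VP, hc_pair (hG0 n), h, c1, kk]; ring

noncomputable def eps (i : Fin (n + 1)) : ℤ := (Vd_succAbove i).choose
theorem eps_sq (i : Fin (n + 1)) : eps i * eps i = 1 := (Vd_succAbove i).choose_spec.1
theorem Vd_eps {R : Type} [CommRing R] (i : Fin (n + 1)) (a : Fin (n + 1) → R) :
    Vd a = eps i * (∏ j, (a i - a (i.succAbove j))) * Vd fun j => a (i.succAbove j) :=
  (Vd_succAbove i).choose_spec.2 R a

theorem eps_sq' (R : Type) [CommRing R] (i : Fin (n + 1)) : (eps i : R) * eps i = 1 := by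
  exact_mod_cast congrArg (Int.cast : ℤ → R) (eps_sq i)

noncomputable def dd (i : Fin (n + 1)) : Pl (n + 1) := ∏ j, (X i - X (i.succAbove j))

theorem VP_succ (i : Fin (n + 1)) : VP (n + 1) = eps i * dd i * rename i.succAbove (VP n) := by
  rw [VP, Vd_eps i, VP, Vd_map]; simp [dd]

theorem polyId (e : ℕ) (he : 1 ≤ e) (f : Gm) : VP (n + 1) ^ 2 * PP (n + 1) (phi e f) =
    2 * ∑ i, (-1) ^ n * (X i ^ e * rename i.succAbove (VP n ^ 2 * PP n f) * ns (n + 1) (dd i)) := by
  rw [PP, phi_dom X (X_injective) (fun i => X_ne_zero i) _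
    (fun i => (-1) ^ n * ns (n + 1) (dd i) * rename i.succAbove (VP n) ^ 2) _ e he]
  · congr 1
    refine Finset.sum_congr rfl fun i _ => ?_
    rw [map_mul, map_pow, PP, map_evO]
    simp only [map_sum, map_pow, rename_X]
    ring
  · intro i
    have h1 : (-1) ^ n * ns (n + 1) (dd i) = dd i * ∏ j, (X i + X (i.succAbove j)) := by
      have : ((-1 : Pl (n + 1))) ^ n = ∏ _j : Fin n, (-1) := by simp
      rw [this, dd, map_prod, ← Finset.prod_mul_distrib, ← Finset.prod_mul_distrib]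
      exact Finset.prod_congr rfl fun j _ => by simp [ns]; ring
    rw [h1, VP_succ i, ← dd]
    linear_combination (-(dd i ^ 2 * (rename i.succAbove (VP n)) ^ 2 *
      ∏ j, (X i + X (i.succAbove j)))) * eps_sq' (Pl (n + 1)) i

noncomputable def uu (a : ℕ) : Sr 1 := xv 0 ^ a * Zn 1

theorem uu_cc (a : ℕ) : MvPowerSeries.constantCoeff (uu a) = 1 := by
  simp [uu, cc_xv, Zn, et_one_const (hG0 1)]

theorem uu_deriv (a : ℕ) :
    MvPowerSeries.pderiv ℚ 0 (uu a) = (-((a : ℚ) + 1 / 2)) • uu (a + 1) := by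
  have h := et_one_deriv (hG0 1) 0
  rw [Fin.sum_univ_one, ← Zn] at h
  rw [Algebra.smul_def, uu, Derivation.leibniz, Derivation.leibniz_pow, h, pderiv_xv, uu]
  have h2 : algebraMap ℚ (Sr 1) (1 / 2) * 2 = 1 := by
    rw [← map_ofNat (algebraMap ℚ (Sr 1)) 2, ← map_mul]; simp
  simp only [map_neg, map_add, map_natCast, smul_eq_mul, nsmul_eq_mul]
  rcases a with _ | a
  · simp only [xv, pow_zero, Nat.cast_zero, zero_add, pow_one]
    linear_combination (Cs 0 0 * Zn 1) * h2
  · simp only [Nat.add_sub_cancel]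
    rw [show Cs (0 : Fin 1) 0 = algebraMap ℚ (Sr 1) (1 / 2) * xv 0 by
      rw [xv, ← mul_assoc, h2, one_mul]]
    ring

theorem serId (a : ℕ) (ha : 1 ≤ a) (f : Gm) : VS (n + 1) * RR (n + 1) (phi a f) =
    ∑ i, ((2 * (-2) ^ n * eps i : ℤ) : ℚ) • (MvPowerSeries.rename (fun _ : Fin 1 => i) (uu a) *
      MvPowerSeries.rename i.succAbove (VS n * RR n f)) := by
  haveI : IsDomain (Sr (n + 1)) := NoZeroDivisors.to_isDomain _
  rw [RR_apply, ← mul_assoc, phi_dom xv xv_inj xv_ne _ (fun i => eps i * (-2) ^ n *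
    MvPowerSeries.rename (fun _ : Fin 1 => i) (Zn 1) *
      MvPowerSeries.rename i.succAbove (VS n * Zn n)) _ a ha, Finset.mul_sum]
  · refine Finset.sum_congr rfl fun i _ => ?_
    rw [Algebra.smul_def, map_intCast, RR_apply, uu]
    simp only [map_mul, map_evO, map_sum, map_pow, rename_xv]
    push_cast; ring
  · intro i
    have h1 : (-2) ^ n * ∏ j, (xv i - xv (i.succAbove j)) =
        (∏ j, (MvPowerSeries.X i - MvPowerSeries.X (i.succAbove j))) *
          (∏ j, 2 * Cs i (i.succAbove j)) * ∏ j, (xv i + xv (i.succAbove j)) := by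
      have : ((-2 : Sr (n + 1))) ^ n = ∏ _j : Fin n, (-2) := by simp
      rw [this, ← Finset.prod_mul_distrib, ← Finset.prod_mul_distrib, ← Finset.prod_mul_distrib]
      refine Finset.prod_congr rfl fun j _ => ?_
      have a1 := xv_mul i
      have a2 := xv_mul (i.succAbove j)
      have a3 := Cs_mul i (i.succAbove j)
      set x := (MvPowerSeries.X i : Sr (n + 1))
      set y := (MvPowerSeries.X (i.succAbove j) : Sr (n + 1))
      set c := Cs i (i.succAbove j)
      linear_combination (2 * (xv i - xv (i.succAbove j))) * a3 - 4 * c * a1 +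
        4 * c * a2
    have h2 : VS (n + 1) = eps i * (∏ j, (MvPowerSeries.X i - MvPowerSeries.X (i.succAbove j))) *
        MvPowerSeries.rename i.succAbove (VS n) := by
      rw [VS, Vd_eps i, VS, Vd_map]; simp
    have h3 : Zn (n + 1) = _ := et_one_succ (hG0 (n + 1)) (hG0 n) (hG0 1) i
    rw [h2, h3, map_mul, ← Zn, ← Zn]
    linear_combination (eps i * MvPowerSeries.rename (fun _ : Fin 1 => i) (Zn 1) *
      MvPowerSeries.rename i.succAbove (VS n) * MvPowerSeries.rename i.succAbove (Zn n)) * h1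

theorem mu_add (a k : ℕ) : (-1) ^ k * mu (2 * a + 2 * k) =
    mu (2 * a) * ∏ t ∈ range k, -(((a + t : ℕ) : ℚ) + 1 / 2) := by
  induction k with
  | zero => simp
  | succ k ih =>
    rw [Finset.prod_range_succ, ← mul_assoc, ← ih, show 2 * a + 2 * (k + 1) = 2 * a + 2 * k + 2 by
      ring, mu_add_two]
    push_cast; ring

theorem F1_gen (i : Fin (n + 1)) (e k : ℕ) (f g : Gm) :
    G1 (n + 1) (X i ^ e * rename i.succAbove (VP n ^ 2 * PP n f) *
      ns (n + 1) (X i ^ k * eva (fun j => X (i.succAbove j)) g)) =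
      (-1) ^ k * mu (e + 2 * k) * G1 n (VP n ^ 2 * PP n f * ns n (eva X g)) := by
  have e1 : ns (n + 1) (eva (fun j => X (i.succAbove j)) g) =
      rename i.succAbove (ns n (eva X g)) := by
    simp [map_eva, ns]
  have e2 : ns (n + 1) (X i ^ k) = ((-1 : ℚ) ^ k) • X i ^ (2 * k) := by
    rw [Algebra.smul_def, map_pow, pow_mul]; simp [ns, neg_pow (X i ^ 2 : Pl (n + 1))]
  rw [map_mul (ns _), e1, e2, mul_assoc ((-1) ^ k), ← g1_indep (hG1 (n + 1)) (hG1 n) i,
    ← smul_eq_mul ((-1 : ℚ) ^ k), ← map_smul, map_mul (rename _) (_ * _) (ns n _)]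
  congr 1
  simp only [Algebra.smul_def]; ring

theorem stepL (e : ℕ) (he : 1 ≤ e) (f g : Gm) :
    c1 (n + 1) * pair (VS (n + 1) * LL (n + 1) (phi e f)) (VP (n + 1) * eva X g) =
      kk (n + 1) * (2 * (-1) ^ n) * ∑ i, G1 (n + 1)
        (X i ^ e * rename i.succAbove (VP n ^ 2 * PP n f) * ns (n + 1) (dd i * eva X g)) := by
  rw [HG, polyId e he, mul_assoc (kk _)]
  congr 1
  rw [Finset.mul_sum, Finset.mul_sum, Finset.sum_mul, map_sum]
  refine Finset.sum_congr rfl fun i _ => ?_
  rw [← smul_eq_mul (2 * (-1) ^ n : ℚ), ← map_smul, map_mul (ns _), Algebra.smul_def]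
  congr 1
  simp only [map_mul, map_pow, map_neg, map_one, map_ofNat]; ring

theorem stepR (a : ℕ) (ha : 1 ≤ a) (f g : Gm) :
    pair (VS (n + 1) * RR (n + 1) (phi a f)) (VP (n + 1) * eva X g) =
      2 * (-2) ^ n * ∑ i, pair (MvPowerSeries.rename (fun _ : Fin 1 => i) (uu a) *
        MvPowerSeries.rename i.succAbove (VS n * RR n f))
          (rename i.succAbove (VP n) * (dd i * eva X g)) := by
  rw [serId a ha, pair_sum, Finset.mul_sum]
  refine Finset.sum_congr rfl fun i _ => ?_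
  have : VP (n + 1) * eva X g = (eps i : ℚ) • (rename i.succAbove (VP n) * (dd i * eva X g)) := by
    rw [VP_succ i, Algebra.smul_def, map_intCast]; ring
  rw [pair_smul, this, map_smul, smul_eq_mul]
  push_cast
  rw [mul_assoc, ← mul_assoc (eps i : ℚ), eps_sq', one_mul]

theorem step_odd (e : ℕ) (he : ¬ Even e) (f g : Gm) :
    c1 (n + 1) * pair (VS (n + 1) * LL (n + 1) (phi e f)) (VP (n + 1) * eva X g) = 0 := by
  rw [stepL e (by rcases e with _ | e <;> simp_all), Finset.sum_eq_zero, mul_zero]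
  intro i _
  refine Submodule.span_induction (p := fun P _ => G1 (n + 1)
    (X i ^ e * rename i.succAbove (VP n ^ 2 * PP n f) * ns (n + 1) P) = 0) ?_ (by simp) ?_ ?_
    (span_succ i g)
  · rintro _ ⟨k, g', rfl⟩
    rw [F1_gen, mu_odd (by simpa [Nat.even_add] using he)]; simp
  · intro p q _ _ hp hq
    rw [map_add, mul_add, map_add, hp, hq, add_zero]
  · intro r p _ hp
    rw [map_smul, mul_smul_comm, map_smul, hp, smul_zero]

theorem step_even (a : ℕ) (ha : 1 ≤ a) (f f' g : Gm) (m : ℚ) (h : LL n f = m • RR n f') :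
    kk n * 2 ^ n * c1 (n + 1) *
      pair (VS (n + 1) * LL (n + 1) (phi (2 * a : ℕ) f)) (VP (n + 1) * eva X g) =
    kk (n + 1) * c1 n * (mu (2 * a) * m *
      pair (VS (n + 1) * RR (n + 1) (phi a f')) (VP (n + 1) * eva X g)) := by
  have key : ∀ i : Fin (n + 1), kk n * G1 (n + 1) (X i ^ (2 * a) *
      rename i.succAbove (VP n ^ 2 * PP n f) * ns (n + 1) (dd i * eva X g)) =
      c1 n * (mu (2 * a) * m) * pair (MvPowerSeries.rename (fun _ : Fin 1 => i) (uu a) *
        MvPowerSeries.rename i.succAbove (VS n * RR n f'))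
          (rename i.succAbove (VP n) * (dd i * eva X g)) := by
    intro i
    refine Submodule.span_induction (p := fun P _ => kk n * G1 (n + 1) (X i ^ (2 * a) *
      rename i.succAbove (VP n ^ 2 * PP n f) * ns (n + 1) P) =
      c1 n * (mu (2 * a) * m) * pair (MvPowerSeries.rename (fun _ : Fin 1 => i) (uu a) *
        MvPowerSeries.rename i.succAbove (VS n * RR n f'))
          (rename i.succAbove (VP n) * P)) ?_ (by simp) ?_ ?_ (span_succ i g)
    · rintro _ ⟨k, g', rfl⟩
      have e1 : rename i.succAbove (VP n) * (X i ^ k * eva (fun j => X (i.succAbove j)) g') =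
          X i ^ k * rename i.succAbove (VP n * eva X g') := by
        simp [map_eva]; ring
      rw [F1_gen, e1, pair_fac i uu _ uu_deriv uu_cc, mu_add, mul_left_comm, ← HG, h,
        mul_smul_comm, pair_smul]
      ring
    · intro p q _ _ hp hq
      simp only [map_add, mul_add, hp, hq]
    · intro r p _ hp
      simp only [map_smul, mul_smul_comm, smul_eq_mul]
      linear_combination r * hp
  rw [mul_assoc, stepL _ (by omega), stepR a ha]
  have := Finset.sum_congr rfl fun i (_ : i ∈ univ) => key i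
  rw [← Finset.mul_sum, ← Finset.mul_sum] at this
  rw [neg_pow (2 : ℚ)]
  linear_combination (2 ^ n * kk (n + 1) * 2 * (-1) ^ n) * this

theorem LL_one : LL n 1 = RR n 1 := by simp [LL_apply, RR_apply, Zn]

theorem c1_succ : kk n * 2 ^ n * c1 (n + 1) = kk (n + 1) * c1 n := by
  have h := step_even (n := n) 1 le_rfl 1 1 1 1 (by rw [LL_one, one_smul])
  have e0 : RR (n + 1) (phi (1 : ℕ) 1) = (2 : ℚ) • (Zn (n + 1) * ∑ i, xv i) := by
    rw [phi_one, RR_apply, show qz (1 : ℕ) = q 1 from rfl, q_one, Algebra.smul_def]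
    simp [evO, map_ofNat]; ring
  have e1 : LL (n + 1) (phi (2 * 1 : ℕ) 1) = Zn (n + 1) * ∑ i, xv i := by
    rw [phi_one, LL_apply, show qz (2 * 1 : ℕ) = q 2 from rfl, q_two]
    have : evO (fun k => (MM (n + 1) ^ k).trace) (2 * X 1 ^ 2) =
        ∑ i, (2 : ℚ) • (X (i, i) * ∑ j, X (j, j)) := by
      simp only [Algebra.smul_def, ← Finset.mul_sum, ← Finset.sum_mul]
      simp [evO, map_ofNat, Matrix.trace, MM, sq]
    rw [this, map_sum, Finset.mul_sum]
    refine Finset.sum_congr rfl fun i _ => ?_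
    have e : pderiv (i, i) (∑ j, X (j, j) : Mx (n + 1)) = 1 := by
      rw [map_sum, Finset.sum_eq_single i] <;> simp +contextual [pderiv_X, Pi.single_apply]
    rw [map_smul, et_sd (hG0 _), e, ← Zn, xv, Algebra.smul_def, map_ofNat]; ring
  have e2 : pair (VS (n + 1) * (Zn (n + 1) * ∑ i, xv i)) (VP (n + 1)) ≠ 0 := by
    rw [VS, VP, pair_Vd_mul]
    refine mul_ne_zero pair_Vd_ne ?_
    simp [Zn, et_one_const (hG0 _), map_sum, cc_xv]
    positivity
  rw [e0, e1, map_one, mul_one, mul_smul_comm, pair_smul] at h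
  have e3 : mu (2 * 1) = 1 / 2 := by simp [mu]
  rw [e3] at h
  apply mul_right_cancel₀ e2
  linear_combination h

theorem c1_ne : ∀ n, c1 n ≠ 0
  | 0 => by simp [c1, Vd, (hG1 0).1]
  | n + 1 => fun h => by
    have := c1_succ (n := n)
    rw [h, mul_zero] at this
    exact mul_ne_zero pair_Vd_ne (c1_ne n) this.symm

theorem eq_of_pair (f f' : Gm) (m : ℚ) (h : ∀ g, pair (VS n * LL n f) (VP n * eva X g) =
    m * pair (VS n * RR n f') (VP n * eva X g)) : LL n f = m • RR n f' := by
  have h1 : VS n * LL n f - m • (VS n * RR n f') = 0 := by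
    refine anti_unique _ (fun g => ?_) fun g => by rw [pair_sub, pair_smul, ← VP, h, sub_self]
    have a1 : MvPowerSeries.rename g (VS n) = ((Perm.sign g : ℤ) : ℚ) • VS n := by
      rw [VS, Vd_map, Algebra.smul_def, map_intCast, ← Vd_perm]; simp
    have a2 : MvPowerSeries.rename g (LL n f) = LL n f := by rw [LL_eq, et_symm (hG0 n)]
    have a3 : MvPowerSeries.rename g (RR n f') = RR n f' := by
      have := et_symm (hG0 n) g 1
      rw [map_one, ← Zn] at this
      rw [RR_apply, map_mul, this, map_evO]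
      simp only [map_sum, map_pow, rename_xv]
      congr 3
      funext k
      exact Equiv.sum_comp g fun i => xv i ^ k
    rw [map_sub, map_smul, map_mul, map_mul, a1, a2, a3, smul_sub, smul_mul_assoc, smul_mul_assoc,
      smul_comm]
  have h2 : VS n ≠ 0 := fun h0 => pair_Vd_ne (n := n) (by rw [← VS, h0, pair_zero])
  rw [← mul_smul_comm, ← mul_sub, mul_eq_zero, sub_eq_zero] at h1
  exact h1.resolve_left h2

theorem core_Q (ν : List ℕ) (hν : ∀ e ∈ ν, 1 ≤ e) : ∀ n, LL n (Q (ν.map fun e : ℕ => (e : ℤ))) =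
    (ν.map mu).prod • RR n (Q (ν.map fun e : ℕ => ((e / 2 : ℕ) : ℤ))) := by
  induction ν with
  | nil => intro n; simp [Q, LL_one]
  | cons e ν ih =>
    have he := hν e (by simp)
    have ih := ih fun e he => hν e (by simp [he])
    intro n
    simp only [List.map_cons, Q, List.prod_cons]
    by_cases h : Even e
    · obtain ⟨a, rfl⟩ := even_iff_two_dvd.1 h
      rw [show 2 * a / 2 = a by omega]
      rcases n with _ | n
      · rw [LL_apply, RR_apply, evO_zero_phi _ (by simp) _ he, evO_zero_phi _ (by simp) a (by omega)]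
        simp
      · refine eq_of_pair _ _ _ fun g => ?_
        have := step_even a (by omega) _ _ g _ (ih n)
        rw [c1_succ] at this
        exact mul_left_cancel₀ (mul_ne_zero pair_Vd_ne (c1_ne n)) this
    · rw [mu_odd h, zero_mul]
      rcases n with _ | n
      · rw [LL_apply, evO_zero_phi _ (by simp) _ he]; simp
      · refine eq_of_pair _ _ _ fun g => ?_
        rw [zero_mul]
        exact (mul_eq_zero.1 (step_odd e h _ g)).resolve_left (c1_ne _)

theorem core {H J : Type} [Fintype H] [DecidableEq H] [Fintype J] [DecidableEq J] {σ : Perm H}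
    {π : H → J} {v : J → ℕ} (hc : Cyc σ π v) (s : Finset (Finset ℕ)) (γ : Finset ℕ → ℚ)
    (hγ : ∀ (R : Type) [AddCommGroup R] [Module ℚ R] (W W' : Gm →ₗ[ℚ] R),
        (∀ ν : List ℕ, (∀ e ∈ ν, 1 ≤ e) → W (Q (ν.map fun e : ℕ => (e : ℤ))) =
          (ν.map mu).prod • W' (Q (ν.map fun e : ℕ => ((e / 2 : ℕ) : ℤ)))) →
        W (∏ j, X (v j)) = ∑ A ∈ s, γ A • W' (Q (sl A)))
    {I : Type} (S : Type) [Fintype S] [DecidableEq S] (lam : S → MvPowerSeries I ℚ)
    (Cm : S → S → MvPowerSeries I ℚ) (h1 : ∀ s, MvPowerSeries.constantCoeff (lam s) = 1)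
    (h2 : ∀ s t, (lam s + lam t) * Cm s t = 1) :
    Wsum σ Cm = evO (fun k => ∑ s, (2 * Cm s s) ^ k) (∑ A ∈ s, γ A • Q (sl A)) := by
  have main : ∀ n, Wsum σ (Cs (n := n)) =
      evO (fun k => ∑ i, xv i ^ k) (∑ A ∈ s, γ A • Q (sl A)) := by
    intro n
    have a1 := hγ _ (LL n) (RR n) fun ν hν => core_Q ν hν n
    have a2 := wick_trace hc Cs Cs_comm (Et (G0 n)) (et_sd (hG0 n))
    have a3 : evO (fun k => (MM n ^ k).trace) (∏ j, X (v j)) = ∏ j, (MM n ^ v j).trace := by
      simp [evO, hc.odd]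
    have a4 : Zn n ≠ 0 := fun h => by
      have := et_one_const (hG0 n)
      rw [← Zn, h] at this; simp at this
    rw [LL_apply, a3, a2, ← Zn] at a1
    apply mul_left_cancel₀ a4
    rw [a1, ← RR_apply, map_sum]
    simp only [map_smul]
  let e := (Fintype.equivFin S).symm
  have hs : MvPowerSeries.HasSubst fun i => lam (e i) - 1 :=
    MvPowerSeries.hasSubst_of_constantCoeff_zero fun i => by simp [h1]
  let ψ : Sr (Fintype.card S) →ₐ[ℚ] MvPowerSeries I ℚ := MvPowerSeries.substAlgHom hs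
  have hψ : ∀ i j, ψ (Cs i j) = Cm (e i) (e j) := fun i j =>
    map_Cs ψ.toRingHom i j _ (by
      simp only [AlgHom.toRingHom_eq_coe, RingHom.coe_coe, ψ, MvPowerSeries.substAlgHom_X]
      linear_combination h2 (e i) (e j))
  have b1 := Wsum_map σ ψ.toRingHom (Cs (n := Fintype.card S))
  simp only [AlgHom.toRingHom_eq_coe, RingHom.coe_coe, hψ] at b1
  rw [← Wsum_equiv σ e, ← b1, main, map_evO]
  refine congrArg (fun π => evO π _) (funext fun k => ?_)
  simp only [map_sum, map_pow, xv, map_mul, map_ofNat, hψ]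
  exact Equiv.sum_comp e fun s => (2 * Cm s s) ^ k

end Pool.Agent.STS.QF
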