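import Pool.Agent.P.MP_bb7f8f_gt.CMid

/-! The formal Gaussian functional and the Wick formula. -/

namespace Pool.Agent.STS.QF
open MvPolynomial Finset Equiv

set_option linter.unusedSectionVars false

variable {n : ℕ}

namespace GA
variable {ι : Type} [Fintype ι] [DecidableEq ι]

theorem pderiv_X_mul (u w : ι) (φ : MvPolynomial ι ℚ) :
    pderiv w (X u * φ) = X u * pderiv w φ + if u = w then φ else 0 := by
  rw [Derivation.leibniz]
  by_cases h : u = w
  · subst h; simp
  · simp [pderiv_X_of_ne h, h]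

theorem pderiv_comm' (u w : ι) (φ : MvPolynomial ι ℚ) :
    pderiv u (pderiv w φ) = pderiv w (pderiv u φ) := by
  induction φ using MvPolynomial.induction_on with
  | C a => simp
  | add p q hp hq => simp [hp, hq]
  | mul_X p k hp =>
    simp only [Derivation.leibniz, smul_eq_mul, map_add, hp]
    by_cases h1 : k = u <;> by_cases h2 : k = w
    · subst h1; subst h2; rfl
    · subst h1; simp [pderiv_X_of_ne h2]; ring
    · subst h2; simp [pderiv_X_of_ne h1]; ring
    · simp [pderiv_X_of_ne h1, pderiv_X_of_ne h2]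

/-- the Laplacian of the pairing -/
noncomputable def Lap (τ : ι → ι) : Module.End ℚ (MvPolynomial ι ℚ) :=
  (1 / 4 : ℚ) • ∑ w, (pderiv w).toLinearMap ∘ₗ (pderiv (τ w)).toLinearMap

theorem Lap_apply (τ : ι → ι) (φ : MvPolynomial ι ℚ) :
    Lap τ φ = (1 / 4 : ℚ) • ∑ w, pderiv w (pderiv (τ w) φ) := by
  simp [Lap, LinearMap.sum_apply]

theorem Lap_pderiv (τ : ι → ι) (u : ι) (φ : MvPolynomial ι ℚ) :
    Lap τ (pderiv u φ) = pderiv u (Lap τ φ) := by
  rw [Lap_apply, Lap_apply, Derivation.map_smul, map_sum]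
  congr 1
  refine Finset.sum_congr rfl fun w _ => ?_
  rw [pderiv_comm' (τ w) u, pderiv_comm' w u]

theorem Lap_pow_pderiv (τ : ι → ι) (u : ι) (j : ℕ) (φ : MvPolynomial ι ℚ) :
    (Lap τ ^ j) (pderiv u φ) = pderiv u ((Lap τ ^ j) φ) := by
  induction j with
  | zero => simp
  | succ j ih => rw [pow_succ', Module.End.mul_apply, Module.End.mul_apply, ih, Lap_pderiv]

theorem Lap_X_mul {τ : ι → ι} (hτ : ∀ u, τ (τ u) = u) (u : ι) (φ : MvPolynomial ι ℚ) :
    Lap τ (X u * φ) = X u * Lap τ φ + (1 / 2 : ℚ) • pderiv (τ u) φ := by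
  rw [Lap_apply, Lap_apply]
  have h : ∀ w, pderiv w (pderiv (τ w) (X u * φ)) = X u * pderiv w (pderiv (τ w) φ) +
      (if u = w then pderiv (τ w) φ else 0) + if τ u = w then pderiv w φ else 0 := by
    intro w
    rw [pderiv_X_mul, map_add, pderiv_X_mul]
    congr 1
    have : u = τ w ↔ τ u = w := ⟨fun h => by rw [h, hτ], fun h => by rw [← h, hτ]⟩
    by_cases h : u = τ w
    · rw [if_pos h, if_pos (this.1 h)]
    · rw [if_neg h, if_neg (fun h' => h (this.2 h')), map_zero]
  simp only [h, Finset.sum_add_distrib, Finset.sum_ite_eq, mem_univ, if_true, ← Finset.mul_sum]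
  rw [mul_smul_comm, add_assoc, smul_add, ← two_smul ℚ, smul_smul]
  norm_num

theorem Lap_pow_X_mul {τ : ι → ι} (hτ : ∀ u, τ (τ u) = u) (u : ι) (φ : MvPolynomial ι ℚ) (j : ℕ) :
    (Lap τ ^ (j + 1)) (X u * φ) = X u * (Lap τ ^ (j + 1)) φ +
      (((j : ℚ) + 1) / 2) • pderiv (τ u) ((Lap τ ^ j) φ) := by
  induction j with
  | zero => simp [Lap_X_mul hτ]
  | succ j ih =>
    rw [pow_succ' _ (j + 1), Module.End.mul_apply, Module.End.mul_apply, ih, map_add, map_smul,
      Lap_X_mul hτ, Lap_pderiv, add_assoc]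
    congr 1
    rw [pow_succ' _ j, Module.End.mul_apply, ← add_smul]
    congr 1
    push_cast; ring

theorem Lap_nil {τ : ι → ι} (hτ : ∀ u, τ (τ u) = u) (φ : MvPolynomial ι ℚ) :
    ∃ K, ∀ j, K ≤ j → (Lap τ ^ j) φ = 0 := by
  induction φ using MvPolynomial.induction_on with
  | C a =>
    refine ⟨1, fun j hj => ?_⟩
    obtain ⟨j, rfl⟩ : ∃ k, j = k + 1 := ⟨j - 1, by omega⟩
    rw [pow_succ, Module.End.mul_apply, Lap_apply]; simp
  | add p q hp hq =>
    obtain ⟨K, hK⟩ := hp
    obtain ⟨K', hK'⟩ := hq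
    exact ⟨K + K', fun j hj => by rw [map_add, hK j (by omega), hK' j (by omega), add_zero]⟩
  | mul_X p k hp =>
    obtain ⟨K, hK⟩ := hp
    refine ⟨K + 1, fun j hj => ?_⟩
    obtain ⟨j, rfl⟩ : ∃ k, j = k + 1 := ⟨j - 1, by omega⟩
    rw [mul_comm, Lap_pow_X_mul hτ, hK j (by omega), hK _ (by omega)]; simp

end GA

open GA

theorem exists_gauss {ι : Type} [Fintype ι] [DecidableEq ι] (τ : ι → ι) (hτ : ∀ u, τ (τ u) = u) :
    ∃ G, IsG τ G := by
  let c : ℕ → MvPolynomial ι ℚ → ℚ := fun j φ =>
    constantCoeff ((Lap τ ^ j) φ) / (j.factorial : ℚ)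
  have hfin : ∀ φ, ∃ K, ∀ j, K ≤ j → c j φ = 0 := fun φ => by
    obtain ⟨K, hK⟩ := Lap_nil hτ φ
    exact ⟨K, fun j hj => by simp [c, hK j hj]⟩
  have hsum : ∀ φ K, (∀ j, K ≤ j → c j φ = 0) → ∑ᶠ j, c j φ = ∑ j ∈ range K, c j φ := by
    intro φ K hK
    refine finsum_eq_sum_of_support_subset _ fun j hj => ?_
    by_contra h
    exact hj (hK j (by simpa using h))
  let G : MvPolynomial ι ℚ →ₗ[ℚ] ℚ :=
    { toFun := fun φ => ∑ᶠ j, c j φ
      map_add' := fun φ ψ => by
        obtain ⟨K, hK⟩ := hfin φ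
        obtain ⟨K', hK'⟩ := hfin ψ
        have e : ∀ j, c j (φ + ψ) = c j φ + c j ψ := fun j => by simp [c, add_div]
        rw [hsum φ (K + K') fun j hj => hK j (by omega),
          hsum ψ (K + K') fun j hj => hK' j (by omega),
          hsum (φ + ψ) (K + K') fun j hj => by
            rw [e, hK j (by omega), hK' j (by omega), add_zero], ← Finset.sum_add_distrib]
        exact Finset.sum_congr rfl fun j _ => e j
      map_smul' := fun r φ => by
        obtain ⟨K, hK⟩ := hfin φ
        have e : ∀ j, c j (r • φ) = r * c j φ := fun j => by simp [c, mul_div_assoc]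
        rw [hsum φ K hK, hsum (r • φ) K fun j hj => by rw [e, hK j hj, mul_zero]]
        simp only [e, RingHom.id_apply, smul_eq_mul, Finset.mul_sum] }
  refine ⟨G, ?_, fun u φ => ?_⟩
  · change ∑ᶠ j, c j 1 = 1
    rw [hsum 1 1 fun j hj => ?_]
    · simp [c]
    · obtain ⟨j, rfl⟩ : ∃ k, j = k + 1 := ⟨j - 1, by omega⟩
      simp only [c]
      rw [pow_succ, Module.End.mul_apply, Lap_apply]; simp
  · change ∑ᶠ j, c j (X u * φ) = 1 / 2 * ∑ᶠ j, c j (pderiv (τ u) φ)
    have e : ∀ j, c (j + 1) (X u * φ) = 1 / 2 * c j (pderiv (τ u) φ) := fun j => by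
      simp only [c]
      rw [Lap_pow_X_mul hτ, Lap_pow_pderiv, Nat.factorial_succ]
      have : (j.factorial : ℚ) ≠ 0 := by exact_mod_cast j.factorial_ne_zero
      simp
      field_simp
    obtain ⟨K, hK⟩ := hfin (pderiv (τ u) φ)
    rw [hsum _ K hK, hsum _ (K + 1) fun j hj => ?_, Finset.sum_range_succ', Finset.mul_sum]
    · simp only [e]; simp [c]
    · obtain ⟨j, rfl⟩ : ∃ k, j = k + 1 := ⟨j - 1, by omega⟩
      rw [e, hK j (by omega), mul_zero]

theorem sd_unique {ι R : Type} [CommRing R] [Algebra ℚ R] (τ : ι → ι) (c : ι → R)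
    (F : MvPolynomial ι ℚ →ₗ[ℚ] R) (h1 : F 1 = 0)
    (h : ∀ u φ, F (X u * φ) = c u * F (pderiv (τ u) φ)) : F = 0 := by
  classical
  have key : ∀ d : ℕ, ∀ κ : ι →₀ ℕ, κ.degree ≤ d → ∀ a, F (monomial κ a) = 0 := by
    intro d
    induction d with
    | zero =>
      intro κ hκ a
      obtain rfl : κ = 0 := (Finsupp.degree_eq_zero_iff _).1 (by omega)
      rw [show (monomial 0 a : MvPolynomial ι ℚ) = a • 1 by simp [smul_eq_C_mul], map_smul, h1,
        smul_zero]
    | succ d ih =>
      intro κ hκ a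
      by_cases h0 : κ = 0
      · exact ih κ (by simp [h0]) a
      obtain ⟨u, hu⟩ := Finsupp.support_nonempty_iff.2 h0
      have hu' := Finsupp.mem_support_iff.1 hu
      obtain ⟨κ', rfl⟩ : ∃ κ', κ = Finsupp.single u 1 + κ' :=
        ⟨κ - Finsupp.single u 1, by
          rw [add_tsub_cancel_of_le]
          exact Finsupp.single_le_iff.2 (by omega)⟩
      have e : (monomial (Finsupp.single u 1 + κ') a : MvPolynomial ι ℚ) = X u * monomial κ' a := by
        rw [X, monomial_mul, one_mul]
      rw [e, h, pderiv_monomial, ih, mul_zero]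
      have h2 : (κ' - Finsupp.single (τ u) 1).degree ≤ κ'.degree :=
        Finsupp.degree_mono tsub_le_self
      simp at hκ
      omega
  refine LinearMap.ext fun φ => ?_
  induction φ using MvPolynomial.induction_on' with
  | monomial κ a => exact key _ κ le_rfl a
  | add p q hp hq => rw [map_add, hp, hq]; simp

namespace GA

section Match
variable {H R : Type} [Fintype H] [DecidableEq H] [CommRing R]

/-- matchings of the set `s` -/
def MtOn (s : Finset H) (α : Perm H) : Prop := ∀ x, α (α x) = x ∧ (α x ≠ x ↔ x ∈ s)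

open Classical in
/-- hafnian of the weights `w` restricted to `s` -/
noncomputable def Haf (w : H → H → R) (s : Finset H) : R :=
  ∑ α : Perm H with MtOn s α, EP α fun x => w x (α x)

theorem Haf_empty (w : H → H → R) : Haf w ∅ = 1 := by
  classical
  unfold Haf
  rw [Finset.sum_eq_single (1 : Perm H)]
  · simp [EP]
  · intro α hα h1
    exfalso
    apply h1
    ext x
    have := ((mem_filter.1 hα).2 x).2
    simpa using this
  · intro h
    exfalso
    apply h
    simp [MtOn]

theorem EP_swap (w : H → H → R) {a b : H} {β : Perm H} (hβ : ∀ x, β (β x) = x) (ha : β a = a)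
    (hb : β b = b) (hab : Fintype.equivFin H a < Fintype.equivFin H b) :
    EP (swap a b * β) (fun x => w x ((swap a b * β) x)) = w a b * EP β fun x => w x (β x) := by
  have hne : a ≠ b := fun h => by rw [h] at hab; exact lt_irrefl _ hab
  have h1 : ∀ x, x ≠ a → x ≠ b → (swap a b * β) x = β x := fun x hxa hxb => by
    rw [Perm.mul_apply, swap_apply_of_ne_of_ne]
    · intro h; apply hxa; rw [← hβ x, h, ha]
    · intro h; apply hxb; rw [← hβ x, h, hb]
  have h2 : (swap a b * β) a = b := by simp [ha]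
  have h3 : (swap a b * β) b = a := by simp [hb]
  unfold EP
  have e : (univ.filter fun x => Fintype.equivFin H x < Fintype.equivFin H ((swap a b * β) x)) =
      insert a (univ.filter fun x => Fintype.equivFin H x < Fintype.equivFin H (β x)) := by
    ext x
    simp only [mem_filter, mem_univ, true_and, mem_insert]
    by_cases hxa : x = a
    · subst hxa; rw [h2]; simp [hab]
    by_cases hxb : x = b
    · subst hxb; rw [h3, hb]; simp [hxa, hab.le]
    rw [h1 x hxa hxb]; simp [hxa]
  rw [e, Finset.prod_insert (by simp [ha]), h2]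
  congr 1
  refine Finset.prod_congr rfl fun x hx => ?_
  have hx' := (mem_filter.1 hx).2
  rw [h1 x (by rintro rfl; simp [ha] at hx') (by rintro rfl; simp [hb] at hx')]

theorem Haf_step (w : H → H → R) (s : Finset H) {a : H} (ha : a ∈ s)
    (hmin : ∀ x ∈ s, Fintype.equivFin H a ≤ Fintype.equivFin H x) :
    Haf w s = ∑ b ∈ s.erase a, w a b * Haf w ((s.erase a).erase b) := by
  classical
  unfold Haf
  rw [← Finset.sum_fiberwise_of_maps_to (t := s.erase a) (g := fun α : Perm H => α a)]
  · refine Finset.sum_congr rfl fun b hb => ?_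
    obtain ⟨hba, hbs⟩ := mem_erase.1 hb
    have hab : Fintype.equivFin H a < Fintype.equivFin H b :=
      lt_of_le_of_ne (hmin b hbs) fun h => hba ((Fintype.equivFin H).injective h).symm
    rw [Finset.mul_sum]
    symm
    refine Finset.sum_bij' (fun β _ => swap a b * β) (fun α _ => swap a b * α) ?_ ?_ ?_ ?_ ?_
    · intro β hβ
      have hβ' := (mem_filter.1 hβ).2
      have fa : β a = a := by
        by_contra h; have := ((hβ' a).2.1 h); simp at this
      have fb : β b = b := by
        by_contra h; have := ((hβ' b).2.1 h); simp at this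
      have h1 : ∀ x, x ≠ a → x ≠ b → β x ≠ a ∧ β x ≠ b := fun x hxa hxb =>
        ⟨fun h => hxa (by rw [← (hβ' x).1, h, fa]), fun h => hxb (by rw [← (hβ' x).1, h, fb])⟩
      simp only [mem_filter, mem_univ, true_and, Perm.mul_apply, fa, swap_apply_left, and_true]
      intro x
      by_cases hxa : x = a
      · subst hxa; simp [fa, fb, hba, ha]
      by_cases hxb : x = b
      · subst hxb; simp [fa, fb, hbs, Ne.symm hba]
      obtain ⟨h2, h3⟩ := h1 x hxa hxb
      simp only [Perm.mul_apply, swap_apply_of_ne_of_ne h2 h3, (hβ' x).1,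
        swap_apply_of_ne_of_ne hxa hxb, true_and, (hβ' x).2]
      simp [hxa, hxb]
    · intro α hα
      simp only [mem_filter, mem_univ, true_and] at hα ⊢
      obtain ⟨hα, fa⟩ := hα
      have fb : α b = a := by rw [← fa, (hα a).1]
      have h1 : ∀ x, x ≠ a → x ≠ b → α x ≠ a ∧ α x ≠ b := fun x hxa hxb =>
        ⟨fun h => hxb (by rw [← (hα x).1, h, fa]), fun h => hxa (by rw [← (hα x).1, h, fb])⟩
      intro x
      by_cases hxa : x = a
      · subst hxa; simp [fa]
      by_cases hxb : x = b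
      · subst hxb; simp [fb]
      obtain ⟨h2, h3⟩ := h1 x hxa hxb
      simp only [Perm.mul_apply, swap_apply_of_ne_of_ne h2 h3, (hα x).1,
        swap_apply_of_ne_of_ne hxa hxb, true_and, (hα x).2]
      simp [hxa, hxb]
    · intro β _; simp [← mul_assoc]
    · intro α _; simp [← mul_assoc]
    · intro β hβ
      have hβ' := (mem_filter.1 hβ).2
      have fa : β a = a := by
        by_contra h; have := ((hβ' a).2.1 h); simp at this
      have fb : β b = b := by
        by_contra h; have := ((hβ' b).2.1 h); simp at this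
      rw [EP_swap w (fun x => (hβ' x).1) fa fb hab]
  · intro α hα
    have hα' := (mem_filter.1 hα).2
    have h1 : α a ≠ a := (hα' a).2.2 ha
    refine mem_erase.2 ⟨h1, (hα' (α a)).2.1 ?_⟩
    rw [(hα' a).1]; exact h1.symm

theorem pderiv_prod_X {ι : Type} [DecidableEq ι] (u : H → ι) (k : ι) (t : Finset H) :
    pderiv k (∏ x ∈ t, X (u x) : MvPolynomial ι ℚ) =
      ∑ y ∈ t, if u y = k then ∏ x ∈ t.erase y, X (u x) else 0 := by
  induction t using Finset.induction_on with
  | empty => simp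
  | insert a t ha ih =>
    rw [Finset.prod_insert ha, Finset.sum_insert ha, Derivation.leibniz, ih, erase_insert ha,
      smul_eq_mul, smul_eq_mul, Finset.mul_sum, add_comm]
    congr 1
    · by_cases h : u a = k
      · subst h; simp
      · simp [pderiv_X_of_ne h, h]
    · refine Finset.sum_congr rfl fun y hy => ?_
      have hya : a ≠ y := by rintro rfl; exact ha hy
      rw [erase_insert_of_ne hya, Finset.prod_insert (by simp [ha])]
      split_ifs <;> simp

theorem wick_monomial [Algebra ℚ R] (Cm : Fin n → Fin n → R) (F : Mx n →ₗ[ℚ] R)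
    (h : ∀ i j φ, F (X (i, j) * φ) = Cm i j * F (pderiv (j, i) φ)) (u : H → Fin n × Fin n)
    (s : Finset H) : F (∏ x ∈ s, X (u x)) =
      F 1 * Haf (fun x y => if u y = (u x).swap then Cm (u x).1 (u x).2 else 0) s := by
  induction s using Finset.strongInduction with
  | H s ih =>
    rcases s.eq_empty_or_nonempty with rfl | hs
    · simp [Haf_empty]
    obtain ⟨a, ha, hmin⟩ := Finset.exists_min_image s (Fintype.equivFin H) hs
    rw [Haf_step _ s ha hmin, ← Finset.mul_prod_erase s _ ha, h (u a).1 (u a).2, pderiv_prod_X,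
      map_sum, Finset.mul_sum, Finset.mul_sum]
    refine Finset.sum_congr rfl fun b _ => ?_
    have e : ((u a).2, (u a).1) = (u a).swap := rfl
    rw [e]
    split_ifs
    · rw [ih _ (lt_of_le_of_lt (erase_subset _ _) (erase_ssubset ha))]; ring
    · simp

end Match

section Walk
variable {S R : Type} [Fintype S] [DecidableEq S] [CommRing R]

theorem pow_walk (M : Matrix S S R) (m : ℕ) (a b : S) :
    (M ^ (m + 1)) a b = ∑ c : Fin m → S, ∏ i : Fin (m + 1),
      M ((Fin.cons a c : Fin (m + 1) → S) i) ((Fin.snoc c b : Fin (m + 1) → S) i) := by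
  induction m generalizing a with
  | zero => simp [Fin.snoc]
  | succ m ih =>
    rw [pow_succ', Matrix.mul_apply, ← (Fin.consEquiv fun _ : Fin (m + 1) => S).sum_comp,
      Fintype.sum_prod_type]
    refine Finset.sum_congr rfl fun k _ => ?_
    rw [ih, Finset.mul_sum]
    refine Finset.sum_congr rfl fun c _ => ?_
    rw [Fin.prod_univ_succ (n := m + 1)]
    have e : (Fin.consEquiv fun _ : Fin (m + 1) => S) (k, c) = Fin.cons k c := rfl
    rw [e, ← Fin.cons_snoc_eq_snoc_cons]
    simp

theorem trace_pow (M : Matrix S S R) {m : ℕ} (hm : 0 < m) :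
    (M ^ m).trace = ∑ c : Fin m → S, ∏ i, M (c i) (c (finRotate m i)) := by
  obtain ⟨m, rfl⟩ : ∃ k, m = k + 1 := ⟨m - 1, by omega⟩
  rw [Matrix.trace, ← (Fin.consEquiv fun _ : Fin (m + 1) => S).sum_comp, Fintype.sum_prod_type]
  refine Finset.sum_congr rfl fun a _ => ?_
  rw [Matrix.diag_apply, pow_walk]
  refine Finset.sum_congr rfl fun c _ => ?_
  simp only [Fin.consEquiv_apply, Fin.snoc_eq_cons_rotate]

theorem pow_finRotate {H : Type} (σ : Perm H) (b : H) {m : ℕ} (hb : (σ ^ m) b = b) (i : Fin m) :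
    (σ ^ (finRotate m i : ℕ)) b = σ ((σ ^ (i : ℕ)) b) := by
  obtain ⟨m, rfl⟩ : ∃ k, m = k + 1 := ⟨m - 1, by have := i.2; omega⟩
  rw [← Perm.mul_apply, ← pow_succ']
  refine Fin.lastCases ?_ (fun i => ?_) i
  · simp [hb]
  · simp

theorem prod_trace {H J : Type} [Fintype H] [DecidableEq H] [Fintype J] [DecidableEq J]
    {σ : Perm H} {π : H → J} {v : J → ℕ} (hc : Cyc σ π v) (M : Matrix S S R) :
    ∏ j, (M ^ v j).trace = ∑ c : H → S, ∏ x, M (c x) (c (σ x)) := by
  have hne : ∀ j, ∃ b, π b = j := fun j => by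
    have h1 := (hc.odd j).pos
    rw [← hc.card j] at h1
    obtain ⟨b, hb⟩ := card_pos.1 h1
    exact ⟨b, (mem_filter.1 hb).2⟩
  choose b hb using hne
  have hσ : ∀ x, π (σ x) = π x := fun x =>
    (hc.same (σ x) x).2 (Perm.sameCycle_apply_left.2 (Perm.SameCycle.refl _ _))
  have hcyc : ∀ j, σ.IsCycleOn (↑(univ.filter fun x => π x = j) : Set H) := fun j => by
    refine ⟨⟨fun x hx => ?_, σ.injective.injOn, fun y hy => ⟨σ.symm y, ?_, by simp⟩⟩,
      fun x hx y hy => (hc.same x y).1 ?_⟩
    · simp only [coe_filter, mem_univ, true_and, Set.mem_ofPred_eq] at hx ⊢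
      rw [hσ, hx]
    · simp only [coe_filter, mem_univ, true_and, Set.mem_ofPred_eq] at hy ⊢
      rw [← hσ, apply_symm_apply, hy]
    · simp only [coe_filter, mem_univ, true_and, Set.mem_ofPred_eq] at hx hy
      rw [hx, hy]
  let f : (Σ j, Fin (v j)) → H := fun p => (σ ^ (p.2 : ℕ)) (b p.1)
  have hf : Function.Bijective f := by
    rw [Fintype.bijective_iff_surjective_and_card]
    refine ⟨fun y => ?_, ?_⟩
    · obtain ⟨k, hk, e⟩ := (hcyc (π y)).exists_pow_eq (a := b (π y)) (b := y) (by simp [hb])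
        (by simp)
      rw [hc.card] at hk
      exact ⟨⟨π y, k, hk⟩, e⟩
    · rw [Fintype.card_sigma, ← Finset.card_univ,
        Finset.card_eq_sum_card_fiberwise (f := π) (t := univ) (fun _ _ => mem_univ _)]
      simp [hc.card]
  have hrot : ∀ j (i : Fin (v j)), f ⟨j, finRotate _ i⟩ = σ (f ⟨j, i⟩) := fun j i =>
    pow_finRotate σ (b j) (by
      have := (hcyc j).pow_card_apply (a := b j) (by simp [hb])
      rwa [hc.card] at this) i
  simp only [fun j => trace_pow M (hc.odd j).pos]
  rw [Finset.prod_univ_sum, Fintype.piFinset_univ]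
  symm
  refine Fintype.sum_equiv (((Equiv.ofBijective f hf).symm.arrowCongr (Equiv.refl S)).trans
    (Equiv.piCurry fun (j : J) (_ : Fin (v j)) => S)) _ _ fun c => ?_
  rw [← (Equiv.ofBijective f hf).prod_comp, Fintype.prod_sigma]
  refine Finset.prod_congr rfl fun j _ => Finset.prod_congr rfl fun i _ => ?_
  change M (c (f ⟨j, i⟩)) (c (σ (f ⟨j, i⟩))) = M (c (f ⟨j, i⟩)) (c (f ⟨j, finRotate _ i⟩))
  rw [hrot]

end Walk

end GA

theorem wick_trace {H J R : Type} [Fintype H] [DecidableEq H] [Fintype J] [DecidableEq J]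
    [CommRing R] [Algebra ℚ R] {σ : Perm H} {π : H → J} {v : J → ℕ} (hc : Cyc σ π v)
    (Cm : Fin n → Fin n → R) (hs : ∀ i j, Cm i j = Cm j i) (F : Mx n →ₗ[ℚ] R)
    (h : ∀ i j φ, F (X (i, j) * φ) = Cm i j * F (pderiv (j, i) φ)) :
    F (∏ j, (MM n ^ v j).trace) = F 1 * Wsum σ Cm := by
  classical
  rw [prod_trace hc, map_sum]
  simp only [MM, Matrix.of_apply]
  rw [Finset.sum_congr rfl fun c _ => wick_monomial Cm F h (fun x => (c x, c (σ x))) univ,
    ← Finset.mul_sum]
  congr 1
  unfold Haf Wsum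
  rw [Finset.sum_comm]
  refine Finset.sum_congr (by ext α; simp [MtOn, IsMt]) fun α hα => ?_
  have hα' : IsMt α := (mem_filter.1 hα).2
  rw [Finset.sum_filter]
  refine Finset.sum_congr (by ext c; simp) fun c _ => ?_
  split_ifs with hc'
  · have h2 : ∀ x, c (σ x) = c (α x) := fun x => by rw [← hc' (α x), (hα' x).1]
    unfold EP
    refine Finset.prod_congr rfl fun x _ => ?_
    simp [h2 x, hc' x]
  · push Not at hc'
    obtain ⟨x, hx⟩ := hc'
    unfold EP
    have hne : Fintype.equivFin H x ≠ Fintype.equivFin H (α x) := fun e =>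
      (hα' x).2 ((Fintype.equivFin H).injective e).symm
    rcases lt_or_gt_of_ne hne with hlt | hlt
    · refine Finset.prod_eq_zero (i := x) (by simp [hlt]) ?_
      simp [hx]
    · refine Finset.prod_eq_zero (i := α x) (by simp [(hα' x).1, hlt]) ?_
      simp [(hα' x).1, hx.symm]

theorem Wsum_equiv {H S S' R : Type} [Fintype H] [Fintype S] [Fintype S'] [CommRing R]
    (σ : Perm H) (e : S' ≃ S) (Cm : S → S → R) :
    Wsum σ (fun s t => Cm (e s) (e t)) = Wsum σ Cm := by
  classical
  unfold Wsum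
  refine Finset.sum_congr rfl fun α _ => ?_
  refine Finset.sum_equiv ((Equiv.refl H).arrowCongr e) (fun c => ?_) fun c _ => ?_
  · simp
  · simp

theorem Wsum_map {H S R R' : Type} [Fintype H] [Fintype S] [CommRing R] [CommRing R']
    (σ : Perm H) (f : R →+* R') (Cm : S → S → R) :
    f (Wsum σ Cm) = Wsum σ fun s t => f (Cm s t) := by
  simp [Wsum, EP, map_sum, map_prod]

end Pool.Agent.STS.QF
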