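import Pool.Agent.P.MP_bb7f8f_gt.CMid

/-! The eigenvalue formula for the formal Gaussian matrix integral, through loop equations. -/

namespace Pool.Agent.STS.QF
open MvPolynomial Finset Equiv

variable {n : ℕ}

/-- the derivation `p_l ↦ l p_(k + l - 1)` -/
noncomputable def gueV (k : ℕ) : Derivation ℚ Gm Gm :=
  mkDerivation ℚ fun l => (l : Gm) * X (k + l - 1)

/-- the loop equations -/
def GueLoop (n : ℕ) (Φ : Gm →ₗ[ℚ] ℚ) : Prop :=
  (∀ F, Φ (X 0 * F) = n * Φ F) ∧ ∀ k F, 2 * Φ (X (k + 1) * F) =
    ∑ a ∈ range k, Φ (X a * X (k - 1 - a) * F) + Φ (gueV k F)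

theorem gue_unique {Φ : Gm →ₗ[ℚ] ℚ} (h : GueLoop n Φ) (h1 : Φ 1 = 0) : Φ = 0 := by
  have hV : ∀ (k : ℕ) (s t : List ℕ),
      (∀ r : List ℕ, (r.map (· + 1)).sum < (t.map (· + 1)).sum + (s.map (· + 1)).sum + k →
        Φ (r.map X).prod = 0) → Φ ((t.map X).prod * gueV k (s.map X).prod) = 0 := by
    intro k s
    induction s with
    | nil => intro t _; simp
    | cons l s ih =>
      intro t ht
      simp only [List.map_cons, List.sum_cons, List.prod_cons] at ht ⊢
      have e : (t.map X).prod * gueV k (X l * (s.map X).prod) =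
          ((l :: t).map X).prod * gueV k (s.map X).prod +
            (l : ℚ) • (((k + l - 1) :: (t ++ s)).map X).prod := by
        rw [Derivation.leibniz, gueV, mkDerivation_X]
        simp only [smul_eq_mul, List.map_cons, List.prod_cons, List.map_append, List.prod_append,
          Nat.cast_smul_eq_nsmul, nsmul_eq_mul]
        ring
      rw [e, map_add, map_smul, ih (l :: t) fun r hr => ht r (by
        simp only [List.map_cons, List.sum_cons] at hr; omega), zero_add]
      rcases Nat.eq_zero_or_pos l with rfl | hl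
      · simp
      · rw [ht _ (by
          simp only [List.map_cons, List.sum_cons, List.map_append, List.sum_append]; omega),
          smul_zero]
  have key : ∀ (N : ℕ) (s : List ℕ), (s.map (· + 1)).sum < N → Φ (s.map X).prod = 0 := by
    intro N
    induction N with
    | zero => intro s hs; omega
    | succ N ih =>
      intro s hs
      rcases s with _ | ⟨l, s⟩
      · simpa using h1
      simp only [List.map_cons, List.sum_cons, List.prod_cons] at hs ⊢
      rcases l with _ | k
      · rw [h.1, ih s (by omega), mul_zero]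
      have h2 := h.2 k (s.map X).prod
      have h3 := hV k s [] fun r hr => ih r (by
        simp only [List.map_nil, List.sum_nil] at hr; omega)
      rw [List.map_nil, List.prod_nil, one_mul] at h3
      rw [h3, add_zero, sum_eq_zero fun a ha => by
        have := mem_range.1 ha
        have h4 := ih (a :: (k - 1 - a) :: s) (by
          simp only [List.map_cons, List.sum_cons]; omega)
        rwa [List.map_cons, List.map_cons, List.prod_cons, List.prod_cons, ← mul_assoc] at h4] at h2
      linarith
  have all : ∀ (F : Gm) (s : List ℕ), Φ ((s.map X).prod * F) = 0 := by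
    intro F
    induction F using MvPolynomial.induction_on with
    | C a =>
      intro s
      rw [mul_comm, ← smul_eq_C_mul, map_smul, key _ s (Nat.lt_succ_self _), smul_zero]
    | add p q hp hq => intro s; rw [mul_add, map_add, hp, hq, add_zero]
    | mul_X p l hp =>
      intro s
      have := hp (l :: s)
      rw [List.map_cons, List.prod_cons] at this
      rw [← this]
      congr 1
      ring
  refine LinearMap.ext fun F => ?_
  simpa using all F []

theorem gue_deriv {R : Type} [CommRing R] [Algebra ℚ R] (e : Gm →ₐ[ℚ] R) (D : Derivation ℚ R R)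
    (k : ℕ) (h : ∀ l, D (e (X l)) = l * e (X (k + l - 1))) (F : Gm) : D (e F) = e (gueV k F) := by
  induction F using MvPolynomial.induction_on with
  | C a => rw [derivation_C, map_zero, algHom_C, Derivation.map_algebraMap]
  | add p q hp hq => simp only [map_add, hp, hq]
  | mul_X p l hp =>
    rw [map_mul, Derivation.leibniz, Derivation.leibniz, hp, h, gueV, mkDerivation_X]
    simp

theorem gue_sum_apply {R ι : Type} [CommRing R] [Algebra ℚ R] (s : Finset ι)
    (D : ι → Derivation ℚ R R) (x : R) : (∑ i ∈ s, D i) x = ∑ i ∈ s, D i x := by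
  classical
  induction s using Finset.induction_on with
  | empty => simp
  | insert t s ht ih => rw [sum_insert ht, sum_insert ht, Derivation.add_apply, ih]

theorem gue_dpow (i j : Fin n) (k : ℕ) (x y : Fin n) : pderiv (j, i) ((MM n ^ k) x y) =
    ∑ a ∈ range k, (MM n ^ a) x j * (MM n ^ (k - 1 - a)) i y := by
  induction k generalizing y with
  | zero =>
    rw [pow_zero, Matrix.one_apply]
    split_ifs <;> simp
  | succ k ih =>
    rw [pow_succ, Matrix.mul_apply, map_sum, sum_range_succ]
    simp only [Derivation.leibniz, smul_eq_mul, ih, sum_add_distrib]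
    rw [add_comm]
    congr 1
    · simp only [mul_sum]
      rw [sum_comm]
      refine sum_congr rfl fun a ha => ?_
      have := mem_range.1 ha
      rw [show k + 1 - 1 - a = k - 1 - a + 1 by omega, pow_succ, Matrix.mul_apply, mul_sum]
      exact sum_congr rfl fun z _ => by ring
    · rw [show k + 1 - 1 - k = 0 by omega, pow_zero, Matrix.one_apply, sum_eq_single j]
      · by_cases hy : i = y
        · simp [MM, hy]
        · simp [MM, hy, Ne.symm hy]
      · intro z _ hz
        simp [MM, hz]
      · simp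

theorem gue_matrix {G0 : Mx n →ₗ[ℚ] ℚ} (h0 : IsG Prod.swap G0) :
    GueLoop n (G0 ∘ₗ (evT (MM n)).toLinearMap) := by
  have hX : ∀ l, evT (MM n) (X l) = (MM n ^ l).trace := fun l => aeval_X _ _
  refine ⟨fun F => ?_, fun k F => ?_⟩
  · simp only [LinearMap.comp_apply, AlgHom.toLinearMap_apply, map_mul, hX, pow_zero,
      Matrix.trace_one, Fintype.card_fin]
    rw [← nsmul_eq_mul, map_nsmul, nsmul_eq_mul]
  simp only [LinearMap.comp_apply, AlgHom.toLinearMap_apply, map_mul, hX]
  have hD := gue_deriv (evT (MM n))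
    (∑ i : Fin n, ∑ j : Fin n, (MM n ^ k) j i • pderiv (j, i)) k (fun l => by
      simp only [hX, gue_sum_apply, Derivation.smul_apply, smul_eq_mul, Matrix.trace,
        Matrix.diag_apply, map_sum, gue_dpow]
      have h1 : ∀ i j : Fin n, ∑ x, ∑ a ∈ range l, (MM n ^ a) x j * (MM n ^ (l - 1 - a)) i x =
          l * (MM n ^ (l - 1)) i j := by
        intro i j
        rw [sum_comm, sum_congr rfl (g := fun _ => (MM n ^ (l - 1)) i j) fun a ha => by
          have := mem_range.1 ha
          rw [show l - 1 = l - 1 - a + a by omega, pow_add, Matrix.mul_apply, Nat.add_sub_cancel]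
          exact sum_congr rfl fun z _ => mul_comm _ _]
        simp
      rw [sum_comm, sum_congr rfl fun i _ => sum_comm]
      simp only [← mul_sum, h1]
      rcases l with _ | l
      · simp
      rw [sum_comm, mul_sum]
      refine sum_congr rfl fun j _ => ?_
      rw [show k + (l + 1) - 1 = k + l by omega, pow_add, Matrix.mul_apply, mul_sum]
      exact sum_congr rfl fun i _ => by rw [Nat.add_sub_cancel]; ring) F
  have h1 : (MM n ^ (k + 1)).trace * evT (MM n) F =
      ∑ i : Fin n, ∑ j : Fin n, X (i, j) * ((MM n ^ k) j i * evT (MM n) F) := by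
    rw [pow_succ', Matrix.trace, sum_mul]
    refine sum_congr rfl fun i _ => ?_
    rw [Matrix.diag_apply, Matrix.mul_apply, sum_mul]
    exact sum_congr rfl fun j _ => mul_assoc _ _ _
  rw [h1, ← hD, ← map_sum, ← map_add]
  simp only [map_sum G0, h0.2, ← mul_sum, Prod.swap_prod_mk]
  rw [← mul_assoc, mul_one_div_cancel two_ne_zero, one_mul]
  simp only [← map_sum G0]
  congr 1
  simp only [Derivation.leibniz, smul_eq_mul, gue_dpow, sum_add_distrib, gue_sum_apply,
    Derivation.smul_apply]
  rw [add_comm]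
  congr 1
  simp only [Matrix.trace, Matrix.diag_apply, sum_mul, mul_sum]
  rw [sum_congr rfl fun i _ => sum_comm, sum_comm]
  refine sum_congr rfl fun a _ => ?_
  exact sum_congr rfl fun i _ => sum_congr rfl fun j _ => by ring

theorem gue_log {R ι : Type} [CommRing R] [Algebra ℚ R] (D : Derivation ℚ R R) (s : Finset ι)
    (f h : ι → R) (hf : ∀ t, D (f t) = f t * h t) :
    D (∏ t ∈ s, f t) = (∏ t ∈ s, f t) * ∑ t ∈ s, h t := by
  classical
  induction s using Finset.induction_on with
  | empty => simp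
  | insert t s ht ih =>
    rw [prod_insert ht, sum_insert ht, Derivation.leibniz, ih, hf]
    simp only [smul_eq_mul]
    ring

theorem gue_eigen {G1 : Pl n →ₗ[ℚ] ℚ} (h1 : IsG id G1) :
    GueLoop n (G1 ∘ₗ LinearMap.mulLeft ℚ (Vd X ^ 2) ∘ₗ (eva (X : Fin n → Pl n)).toLinearMap) := by
  have hX : ∀ l, eva (X : Fin n → Pl n) (X l) = ∑ i, X i ^ l := fun l => aeval_X _ _
  refine ⟨fun F => ?_, fun k F => ?_⟩
  · simp only [LinearMap.comp_apply, AlgHom.toLinearMap_apply, LinearMap.mulLeft_apply, map_mul,
      hX, pow_zero, sum_const, card_univ, Fintype.card_fin, smul_mul_assoc, one_mul,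
      map_nsmul]
    rw [nsmul_eq_mul]
  simp only [LinearMap.comp_apply, AlgHom.toLinearMap_apply, LinearMap.mulLeft_apply, map_mul, hX]
  set D : Derivation ℚ (Pl n) (Pl n) := ∑ i : Fin n, (X i ^ k : Pl n) • pderiv i with hDdef
  have hDa : ∀ φ, D φ = ∑ i, X i ^ k * pderiv i φ := fun φ => by
    simp only [hDdef, gue_sum_apply, Derivation.smul_apply, smul_eq_mul]
  have hDX : ∀ i, D (X i) = X i ^ k := fun i => by
    rw [hDa, sum_eq_single i]
    · simp
    · intro j _ hj
      rw [pderiv_X_of_ne hj.symm, mul_zero]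
    · simp
  have hD := gue_deriv (eva (X : Fin n → Pl n)) D k (fun l => by
    rw [hX, hX, map_sum, mul_sum]
    refine sum_congr rfl fun i _ => ?_
    rw [Derivation.leibniz_pow, hDX]
    rcases l with _ | l
    · simp
    · rw [show k + (l + 1) - 1 = l + k by omega, pow_add]
      simp) F
  set g : Fin n → Fin n → Pl n := fun j i => ∑ a ∈ range k, X j ^ a * X i ^ (k - 1 - a) with hg
  have hV : D (Vd X) = Vd X * ∑ i, ∑ j ∈ Ioi i, g j i := by
    refine gue_log D _ _ _ fun i => gue_log D _ _ _ fun j => ?_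
    rw [map_sub, hDX, hDX, hg, mul_comm, geom_sum₂_mul]
  have hs : ∑ a ∈ range k, (∑ i, X i ^ a) * (∑ i, X i ^ (k - 1 - a) : Pl n) =
      ∑ i, (k : Pl n) * X i ^ (k - 1) + 2 * ∑ i, ∑ j ∈ Ioi i, g j i := by
    have e1 : ∑ a ∈ range k, (∑ i, X i ^ a) * (∑ i, X i ^ (k - 1 - a) : Pl n) =
        ∑ i, ∑ j, g j i := by
      simp only [hg, sum_mul, mul_sum]
      rw [sum_comm]
      exact sum_congr rfl fun i _ => sum_comm
    have e2 : 2 * ∑ i, ∑ j ∈ Ioi i, g j i = ∑ i, ∑ j ∈ ({i}ᶜ : Finset (Fin n)), g j i := by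
      rw [← sum_sum_Ioi_add_eq_sum_sum_off_diag, mul_sum]
      refine sum_congr rfl fun i _ => ?_
      rw [mul_sum]
      refine sum_congr rfl fun j _ => ?_
      rw [two_mul]
      congr 1
      exact geom_sum₂_comm _ _ _
    rw [e1, e2, ← sum_add_distrib]
    refine sum_congr rfl fun i _ => ?_
    rw [← sum_add_sum_compl {i}, sum_singleton]
    congr 1
    simp only [hg]
    rw [geom_sum₂_self]
  have h2 : Vd X ^ 2 * ((∑ i, X i ^ (k + 1)) * eva (X : Fin n → Pl n) F) =
      ∑ i, X i * (X i ^ k * (Vd X ^ 2 * eva (X : Fin n → Pl n) F)) := by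
    rw [sum_mul, mul_sum]
    exact sum_congr rfl fun i _ => by ring
  rw [h2, ← hD, ← map_sum, ← map_add]
  simp only [map_sum G1, h1.2, ← mul_sum, id]
  rw [← mul_assoc, mul_one_div_cancel two_ne_zero, one_mul, ← map_sum G1]
  congr 1
  have h3 : ∀ i, pderiv i (X i ^ k * (Vd X ^ 2 * eva (X : Fin n → Pl n) F)) =
      X i ^ k * pderiv i (Vd X ^ 2 * eva (X : Fin n → Pl n) F) +
        (Vd X ^ 2 * eva (X : Fin n → Pl n) F) * ((k : Pl n) * X i ^ (k - 1)) := by
    intro i
    rw [Derivation.leibniz, Derivation.leibniz_pow, pderiv_X_self]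
    simp
  simp only [h3, sum_add_distrib]
  rw [← hDa, ← mul_sum, ← sum_mul, hs, Derivation.leibniz, Derivation.leibniz_pow, hV]
  simp only [smul_eq_mul, nsmul_eq_mul]
  push_cast
  ring

theorem gue {G0 : Mx n →ₗ[ℚ] ℚ} {G1 : Pl n →ₗ[ℚ] ℚ} (h0 : IsG Prod.swap G0) (h1 : IsG id G1)
    (F : Gm) : G1 (Vd X ^ 2 * eva X F) = G1 (Vd X ^ 2) * G0 (evT (MM n) F) := by
  obtain ⟨a1, a2⟩ := gue_matrix h0
  obtain ⟨b1, b2⟩ := gue_eigen h1
  have h := gue_unique (n := n)
    (Φ := G1 ∘ₗ LinearMap.mulLeft ℚ (Vd X ^ 2) ∘ₗ (eva (X : Fin n → Pl n)).toLinearMap -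
      G1 (Vd X ^ 2) • (G0 ∘ₗ (evT (MM n)).toLinearMap))
    ⟨fun F => by
      simp only [LinearMap.sub_apply, LinearMap.smul_apply, smul_eq_mul, a1, b1]
      ring,
    fun k F => by
      simp only [LinearMap.sub_apply, LinearMap.smul_apply, smul_eq_mul, sum_sub_distrib,
        ← mul_sum]
      linear_combination b2 k F - G1 (Vd X ^ 2) * a2 k F⟩ (by simp [h0.1])
  have h2 := LinearMap.congr_fun h F
  simpa [sub_eq_zero] using h2

end Pool.Agent.STS.QF
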