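import Pool.Agent.P.MP_bb7f8f_gt.HCa

/-! Harish-Chandra radial part: Ward identities and the pairing formula. -/

namespace Pool.Agent.STS.QF
open MvPolynomial Finset Equiv

variable {n : ℕ}

namespace HC

lemma coeff_Et (Ω : Mx n →ₗ[ℚ] ℚ) (φ : Mx n) (κ : Fin n →₀ ℕ) :
    MvPowerSeries.coeff κ (Et Ω φ) =
      Ω (φ * ∏ i, AA n i i ^ κ i) / ∏ i, ((κ i).factorial : ℚ) := rfl

lemma const_Et (Ω : Mx n →ₗ[ℚ] ℚ) (φ : Mx n) : MvPowerSeries.constantCoeff (Et Ω φ) = Ω φ := by
  rw [← MvPowerSeries.coeff_zero_eq_constantCoeff_apply, coeff_Et]; simp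

lemma Et_mul (Ω : Mx n →ₗ[ℚ] ℚ) (t φ : Mx n) :
    Et (Ω ∘ₗ LinearMap.mulLeft ℚ t) φ = Et Ω (t * φ) := by
  ext κ; simp [coeff_Et, mul_assoc]

lemma D_Et (Ω : Mx n →ₗ[ℚ] ℚ) (φ : Mx n) (i : Fin n) :
    D i (Et Ω φ) = Et Ω (φ * AA n i i) := by
  ext κ
  rw [MvPowerSeries.coeff_pderiv, coeff_Et, coeff_Et]
  have h1 : ∏ j, (((κ + Finsupp.single i 1 : Fin n →₀ ℕ) j).factorial : ℚ) =
      (∏ j, ((κ j).factorial : ℚ)) * (κ i + 1) := by
    rw [← Finset.mul_prod_erase univ _ (mem_univ i),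
      ← Finset.mul_prod_erase univ (fun j => ((κ j).factorial : ℚ)) (mem_univ i)]
    rw [Finset.prod_congr rfl (g := fun j => ((κ j).factorial : ℚ)) fun j hj => by
      simp [Finsupp.single_eq_of_ne (ne_of_mem_erase hj)]]
    simp [Nat.factorial_succ]; ring
  have h2 : ∏ j, AA n j j ^ (κ + Finsupp.single i 1 : Fin n →₀ ℕ) j =
      AA n i i * ∏ j, AA n j j ^ κ j := by
    simp only [Finsupp.add_apply, pow_add, Finset.prod_mul_distrib]
    rw [mul_comm, Finset.prod_eq_single i (fun j _ hj => by simp [Finsupp.single_eq_of_ne hj])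
      (by simp)]
    simp
  rw [h1, h2, mul_assoc]
  have : ((κ i : ℚ) + 1) ≠ 0 := by positivity
  have : (∏ j, ((κ j).factorial : ℚ)) ≠ 0 := by positivity
  field_simp

lemma zero_of (F : Mx n → Sr n) (h0 : ∀ φ, MvPowerSeries.constantCoeff (F φ) = 0)
    (h : ∀ i φ, D i (F φ) = F (φ * AA n i i)) (φ : Mx n) : F φ = 0 := by
  have key : ∀ d : ℕ, ∀ κ : Fin n →₀ ℕ, ∑ i, κ i = d → ∀ φ, MvPowerSeries.coeff κ (F φ) = 0 := by
    intro d
    induction d with
    | zero =>
      intro κ hκ φ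
      have : κ = 0 := Finsupp.ext fun i => (Finset.sum_eq_zero_iff.1 hκ) i (mem_univ i)
      simpa [this] using h0 φ
    | succ d ih =>
      intro κ hκ φ
      obtain ⟨i, -, hi⟩ := Finset.exists_ne_zero_of_sum_ne_zero
        (show ∑ i, κ i ≠ 0 by omega)
      obtain ⟨κ', rfl⟩ : ∃ κ', κ = κ' + Finsupp.single i 1 :=
        ⟨κ - Finsupp.single i 1, (tsub_add_cancel_of_le
          (Finsupp.single_le_iff.2 (Nat.one_le_iff_ne_zero.2 hi))).symm⟩
      have h1 : ∑ j, κ' j = d := by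
        simpa [Finset.sum_add_distrib, Finsupp.single_apply] using hκ
      have h2 := ih κ' h1 (φ * AA n i i)
      rw [← h, MvPowerSeries.coeff_pderiv] at h2
      exact (mul_eq_zero.1 h2).resolve_right (by positivity)
  ext κ
  exact key _ κ rfl φ

lemma Et_der (Ω : Mx n →ₗ[ℚ] ℚ) (δ : Derivation ℚ (Mx n) (Mx n)) (φ : Mx n) :
    Et (Ω ∘ₗ δ.toLinearMap) φ = Et Ω (δ φ) + ∑ j, x j * Et Ω (φ * δ (AA n j j)) := by
  rw [← sub_eq_zero]
  refine zero_of (fun φ => Et (Ω ∘ₗ δ.toLinearMap) φ -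
    (Et Ω (δ φ) + ∑ j, x j * Et Ω (φ * δ (AA n j j)))) (fun φ => ?_) (fun i φ => ?_) φ
  · simp [const_Et, x]
  · simp only [map_sub, map_add, map_sum, Derivation.leibniz, smul_eq_mul, D_Et, D_x,
      Finset.sum_add_distrib, mul_ite, mul_one, mul_zero, Finset.sum_ite_eq', mem_univ, if_true]
    simp only [mul_comm (AA n i i), mul_right_comm φ (AA n i i)]
    ring

/-! ### derivations on matrices -/

abbrev Mat (n : ℕ) := Matrix (Fin n) (Fin n) (Mx n)

lemma map_mul' (δ : Derivation ℚ (Mx n) (Mx n)) (B C : Mat n) :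
    (B * C).map δ = B.map δ * C + B * C.map δ := by
  ext1 a b
  simp only [Matrix.map_apply, Matrix.mul_apply, map_sum, Derivation.leibniz, smul_eq_mul,
    Matrix.add_apply, ← Finset.sum_add_distrib]
  exact Finset.sum_congr rfl fun _ _ => by ring

lemma map_one' (δ : Derivation ℚ (Mx n) (Mx n)) : (1 : Mat n).map δ = 0 := by
  ext1 a b
  by_cases h : a = b <;> simp [h]

lemma map_neg' (δ : Derivation ℚ (Mx n) (Mx n)) (B : Mat n) : (-B).map δ = -B.map δ := by
  ext1 a b; simp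

lemma map_trace (δ : Derivation ℚ (Mx n) (Mx n)) (B : Mat n) :
    δ B.trace = (B.map δ).trace := by
  simp [Matrix.trace]

lemma map_pow_comm (δ : Derivation ℚ (Mx n) (Mx n)) (U B : Mat n)
    (h : B.map δ = U * B - B * U) (j : ℕ) : (B ^ j).map δ = U * B ^ j - B ^ j * U := by
  induction j with
  | zero => simp [map_one']
  | succ j ih => rw [pow_succ, map_mul', ih, h]; noncomm_ring

lemma evT_zero (δ : Derivation ℚ (Mx n) (Mx n)) (U B : Mat n)
    (h : B.map δ = U * B - B * U) (f : Gm) : δ (evT B f) = 0 := by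
  induction f using MvPolynomial.induction_on with
  | C a => simp [evT]
  | add p q hp hq => simp [hp, hq]
  | mul_X p k hp =>
    rw [map_mul, Derivation.leibniz, hp]
    have : δ (evT B (X k)) = 0 := by
      rw [evT, aeval_X, map_trace, map_pow_comm δ U B h, Matrix.trace_sub,
        Matrix.trace_mul_comm, sub_self]
    simp [this]

/-- infinitesimal conjugation -/
noncomputable def L (i k : Fin n) : Derivation ℚ (Mx n) (Mx n) :=
  ∑ b, (X (k, b) : Mx n) • pderiv (i, b) - ∑ a, (X (a, i) : Mx n) • pderiv (a, k)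

noncomputable def U (i k : Fin n) : Mat n := Matrix.single i k 1

lemma comm_apply (i k : Fin n) (B : Mat n) (a b : Fin n) : (U i k * B - B * U i k) a b =
    (if a = i then B k b else 0) - if b = k then B a i else 0 := by
  rw [Matrix.sub_apply]
  congr 1
  · by_cases h : a = i
    · subst h; simp [U]
    · rw [if_neg h, U, Matrix.single_mul_apply_of_ne (h := h)]
  · by_cases h : b = k
    · subst h; simp [U]
    · rw [if_neg h, U, Matrix.mul_single_apply_of_ne (hbj := h)]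

lemma L_apply (i k : Fin n) (φ : Mx n) : L i k φ =
    ∑ b, X (k, b) * pderiv (i, b) φ - ∑ a, X (a, i) * pderiv (a, k) φ := by
  have h : ∀ d : Fin n → Derivation ℚ (Mx n) (Mx n), (∑ b, d b) φ = ∑ b, d b φ := fun d => by
    have := map_sum (Derivation.coeFnAddMonoidHom (R := ℚ) (A := Mx n) (M := Mx n)) d univ
    exact (congrFun this φ).trans (Finset.sum_apply φ univ _)
  simp [L, h]

lemma L_M (i k : Fin n) : (MM n).map (L i k) = U i k * MM n - MM n * U i k := by
  ext1 a b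
  rw [comm_apply, Matrix.map_apply, L_apply]
  simp only [MM, Matrix.of_apply, pderiv_X, Pi.single_apply, Prod.mk.injEq, mul_ite, mul_one,
    mul_zero]
  congr 1
  · by_cases h : a = i <;> simp [h]
  · by_cases h : b = k <;> simp [h]

lemma L_A (i k : Fin n) : (AA n).map (L i k) = U i k * AA n - AA n * U i k := by
  rw [AA, map_neg', map_mul', L_M]; noncomm_ring

/-- the derivation with `δ M = - M ^ 3 / 2` -/
noncomputable def E (n : ℕ) : Derivation ℚ (Mx n) (Mx n) :=
  mkDerivation ℚ fun u => (-(1 / 2 : ℚ)) • (MM n ^ 3) u.1 u.2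

lemma E_M : (MM n).map (E n) = (-(1 / 2 : ℚ)) • MM n ^ 3 := by
  ext1 a b
  simp [MM, E, mkDerivation_X]

lemma E_A : (AA n).map (E n) = AA n * AA n := by
  rw [AA, map_neg', map_mul', E_M, smul_mul_assoc, mul_smul_comm, ← pow_succ, ← pow_succ',
    ← add_smul, neg_mul_neg, ← neg_smul]
  norm_num
  noncomm_ring

lemma E_pow (j : ℕ) : (AA n ^ j).map (E n) = j • AA n ^ (j + 1) := by
  induction j with
  | zero => simp [map_one']
  | succ j ih =>
    rw [pow_succ, map_mul', ih, E_A, smul_mul_assoc, ← pow_succ, ← mul_assoc, ← pow_succ,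
      ← pow_succ, succ_nsmul]

lemma der_comm (δ δ' : Derivation ℚ (Mx n) (Mx n)) (h : ∀ u, δ (δ' (X u)) = δ' (δ (X u)))
    (φ : Mx n) : δ (δ' φ) = δ' (δ φ) := by
  have : ⁅δ, δ'⁆ = 0 := derivation_ext fun u => by
    rw [Derivation.commutator_apply, h, sub_self]; rfl
  have h2 := congrArg (fun d : Derivation ℚ (Mx n) (Mx n) => d φ) this
  simpa [Derivation.commutator_apply, sub_eq_zero] using h2

lemma E_L (i k : Fin n) (φ : Mx n) : E n (L i k φ) = L i k (E n φ) := by
  refine der_comm _ _ (fun u => ?_) φ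
  obtain ⟨a, b⟩ := u
  have h1 : L i k (X (a, b)) = (U i k * MM n - MM n * U i k) a b := by rw [← L_M]; rfl
  have h2 : ∀ a b, E n (MM n a b) = (-(1 / 2 : ℚ)) • (MM n ^ 3) a b := fun a b => by
    have := congrFun (congrFun (E_M (n := n)) a) b
    exact this
  have h3 : L i k ((MM n ^ 3) a b) = (U i k * MM n ^ 3 - MM n ^ 3 * U i k) a b := by
    rw [← map_pow_comm _ _ _ (L_M i k)]; rfl
  have h4 : E n (X (a, b)) = (-(1 / 2 : ℚ)) • (MM n ^ 3) a b := h2 a b
  rw [h1, h4, Derivation.map_smul, h3, comm_apply, comm_apply, map_sub, smul_sub]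
  congr 1 <;> split_ifs <;> simp [h2]

/-- invariance under infinitesimal conjugation -/
def Inv (Ω : Mx n →ₗ[ℚ] ℚ) : Prop := ∀ i k φ, Ω (L i k φ) = 0

lemma inv_G {G0 : Mx n →ₗ[ℚ] ℚ} (h0 : IsG Prod.swap G0) : Inv G0 := fun i k φ => by
  rw [L_apply, map_sub, map_sum, map_sum, sub_eq_zero]
  refine Finset.sum_congr rfl fun b _ => ?_
  rw [h0.2, h0.2, der_comm (pderiv (k, b).swap) (pderiv (i, b))]
  · rfl
  · intro u
    simp only [pderiv_X, Pi.single_apply]
    split_ifs <;> simp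

lemma Inv.mul {Ω : Mx n →ₗ[ℚ] ℚ} (h : Inv Ω) {t : Mx n} (ht : ∀ i k, L i k t = 0) :
    Inv (Ω ∘ₗ LinearMap.mulLeft ℚ t) := fun i k φ => by
  have := h i k (t * φ)
  rw [Derivation.leibniz, ht] at this
  simpa using this

lemma Inv.comp_E {Ω : Mx n →ₗ[ℚ] ℚ} (h : Inv Ω) : Inv (Ω ∘ₗ (E n).toLinearMap) :=
  fun i k φ => by
    have := h i k (E n φ)
    rw [← E_L] at this
    exact this

lemma L_tr (i k : Fin n) (j : ℕ) : L i k (AA n ^ j).trace = 0 := by
  have := evT_zero _ _ _ (L_A i k) (X j)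
  rwa [evT, aeval_X] at this

lemma ward {Ω : Mx n →ₗ[ℚ] ℚ} (h : Inv Ω) (i k : Fin n) :
    (x i - x k) * Et Ω (AA n i k * AA n k i) = D i (Et Ω 1) - D k (Et Ω 1) := by
  have h1 := Et_der Ω (L i k) (AA n i k)
  have h2 : Et (Ω ∘ₗ (L i k).toLinearMap) (AA n i k) = 0 := by
    ext κ
    rw [coeff_Et]
    show Ω (L i k _) / _ = 0
    rw [h i k, zero_div]
  have h3 : ∀ a b, L i k (AA n a b) =
      (if a = i then AA n k b else 0) - if b = k then AA n a i else 0 := fun a b => by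
    rw [← comm_apply, ← L_A]; rfl
  have h4 : ∀ j, x j * Et Ω (AA n i k * L i k (AA n j j)) =
      (if j = i then x i * Et Ω (AA n i k * AA n k i) else 0) -
        if j = k then x k * Et Ω (AA n i k * AA n k i) else 0 := fun j => by
    rw [h3, mul_sub, map_sub, mul_sub]
    congr 1 <;> split_ifs with hj <;> simp [hj]
  rw [h2, h3] at h1
  simp only [h4, Finset.sum_sub_distrib, Finset.sum_ite_eq', mem_univ, if_true, map_sub] at h1
  rw [D_Et, D_Et, one_mul, one_mul]
  linear_combination -h1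

lemma radial_E {Ω : Mx n →ₗ[ℚ] ℚ} (h : Inv Ω) :
    V n * Et (Ω ∘ₗ (E n).toLinearMap) 1 = e (V n * Et Ω 1) := by
  rw [← radial (Et Ω 1) (fun i k => Et Ω (AA n i k * AA n k i))
    (fun i => by rw [D_Et, D_Et, one_mul]) (ward h), Et_der]
  have : ∀ j, E n (AA n j j) = ∑ k, AA n j k * AA n k j := fun j => by
    rw [← Matrix.mul_apply, ← E_A]; rfl
  simp [this]

lemma trace_step (j : ℕ) : ∀ {Ω : Mx n →ₗ[ℚ] ℚ}, Inv Ω →
    V n * Et Ω (AA n ^ (j + 1)).trace = pD (j + 1) (V n * Et Ω 1) := by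
  induction j with
  | zero =>
    intro Ω _
    simp only [pD, zero_add, Function.iterate_one, Derivation.leibniz, smul_eq_mul,
      Finset.sum_add_distrib, ← Finset.mul_sum, sum_D_V, D_Et, pow_one, one_mul, Matrix.trace,
      Matrix.diag, map_sum, mul_zero, add_zero]
  | succ j ih =>
    intro Ω h
    have h1 := ih h.comp_E
    have h2 := radial_E (h.mul fun i k => L_tr i k (j + 1))
    rw [radial_E h, pD_e, Et_der] at h1
    rw [Et_der, Et_mul, Et_mul, mul_one, ih h] at h2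
    simp only [Et_mul, one_mul, Derivation.map_one_eq_zero, mul_zero, map_zero, zero_add] at h2
    rw [mul_add, h2, map_trace, E_pow, Matrix.trace_smul, map_nsmul, nsmul_eq_mul] at h1
    have := charS (n := n)
    have h3 : ((j : Sr n) + 1) ≠ 0 := by exact_mod_cast j.succ_ne_zero
    apply mul_left_cancel₀ h3
    push_cast at h1
    linear_combination h1

lemma trace_all (j : ℕ) {Ω : Mx n →ₗ[ℚ] ℚ} (h : Inv Ω) :
    V n * Et Ω (AA n ^ j).trace = pD j (V n * Et Ω 1) := by
  cases j with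
  | zero =>
    have : ((n : ℕ) : Mx n) = n • (1 : Mx n) := by simp
    rw [pow_zero, Matrix.trace_one, Fintype.card_fin, this, map_nsmul]
    simp [pD, mul_left_comm]
  | succ j => exact trace_step j h

lemma pair_pow (Ψ : Sr n) (i : Fin n) (j : ℕ) (G : Pl n) :
    pair Ψ (X i ^ j * G) = pair ((D i)^[j] Ψ) G := by
  induction j generalizing Ψ with
  | zero => simp
  | succ j ih => rw [pow_succ', mul_assoc, pair_X_mul, ih, Function.iterate_succ_apply]

lemma pair_eq (Ψ : Sr n) (G : Pl n) : pair Ψ G = ∑ κ ∈ G.support,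
    coeff κ G * ((∏ i, ((κ i).factorial : ℚ)) * MvPowerSeries.coeff κ Ψ) := by
  conv_lhs => rw [G.as_sum, map_sum]
  simp only [pair_monomial]

lemma V_coe : V n = ((Vd X : Pl n) : Sr n) := by
  have := Vd_map (coeToMvPowerSeries.ringHom (σ := Fin n) (R := ℚ)) X
  simp only [coeToMvPowerSeries.ringHom_apply, coe_X] at this
  exact this.symm

lemma Vd_hom : ∃ N, (Vd X : Pl n).IsHomogeneous N :=
  ⟨_, IsHomogeneous.prod _ _ _ fun i _ => IsHomogeneous.prod _ _ (fun _ => 1) fun j _ =>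
    (isHomogeneous_X ℚ j).sub (isHomogeneous_X ℚ i)⟩

end HC
open HC

theorem pair_Vd_mul (Ψ : Sr n) : pair (Vd MvPowerSeries.X * Ψ) (Vd X : Pl n) =
    pair (Vd MvPowerSeries.X) (Vd X : Pl n) * MvPowerSeries.constantCoeff Ψ := by
  obtain ⟨N, hN⟩ := Vd_hom (n := n)
  rw [pair_eq, pair_eq, Finset.sum_mul]
  refine Finset.sum_congr rfl fun κ hκ => ?_
  have : MvPowerSeries.coeff κ (V n * Ψ) =
      MvPowerSeries.coeff κ (V n) * MvPowerSeries.constantCoeff Ψ := by
    rw [MvPowerSeries.coeff_mul, Finset.sum_eq_single (κ, 0)]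
    · simp
    · intro p hp hne
      have h1 : p.1 + p.2 = κ := mem_antidiagonal.1 hp
      rw [V_coe, coeff_coe]
      by_contra h2
      have h3 := hN (left_ne_zero_of_mul h2)
      have h4 := hN (mem_support_iff.1 hκ)
      rw [← h1, map_add, h3] at h4
      have h5 : p.2 = 0 := by
        rw [← Finsupp.degree_eq_zero_iff, Finsupp.degree_eq_weight_one]
        exact add_eq_left.1 h4
      exact hne (Prod.ext (by rw [← h1, h5, add_zero]) h5)
    · intro h; exact absurd (mem_antidiagonal.2 (add_zero κ)) h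
  rw [this]; ring

theorem pair_Vd_ne : pair (Vd MvPowerSeries.X) (Vd X : Pl n) ≠ 0 := by
  have h0 : (Vd X : Pl n) ≠ 0 :=
    Finset.prod_ne_zero_iff.2 fun i _ => Finset.prod_ne_zero_iff.2 fun j hj =>
      sub_ne_zero.2 fun h => (mem_Ioi.1 hj).ne' (X_injective h)
  have hV := V_coe (n := n)
  unfold V at hV
  rw [pair_eq, hV]
  refine (Finset.sum_pos (fun κ hκ => ?_) (support_nonempty.2 h0)).ne'
  rw [coeff_coe, mul_left_comm]
  exact mul_pos (by positivity) (mul_self_pos.2 (mem_support_iff.1 hκ))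

theorem HC.pair_inv (g : Gm) : ∀ {Ω : Mx n →ₗ[ℚ] ℚ}, Inv Ω →
    pair (V n * Et Ω 1) (Vd X * eva X g) =
      pair (V n) (Vd X : Pl n) * Ω (evT (AA n) g) := by
  induction g using MvPolynomial.induction_on with
  | C a =>
    intro Ω _
    have h1 : (Vd X : Pl n) * eva X (C a) = a • Vd X := by
      rw [mul_comm, smul_eq_C_mul]; simp [eva]
    have h2 : evT (AA n) (C a) = a • 1 := by
      rw [smul_eq_C_mul]; simp [evT]
    rw [h1, h2, map_smul, map_smul, pair_Vd_mul, const_Et, smul_eq_mul, smul_eq_mul]; ring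
  | add p q hp hq => intro Ω h; simp only [map_add, mul_add, hp h, hq h]
  | mul_X p k hp =>
    intro Ω h
    have h1 : (Vd X : Pl n) * eva X (p * X k) = ∑ i, X i ^ k * (Vd X * eva X p) := by
      rw [map_mul, ← Finset.sum_mul]
      simp only [eva, aeval_X]; ring
    have h2 := hp (h.mul fun i l => L_tr i l k)
    rw [Et_mul, mul_one, trace_all k h, pD, pair_sum] at h2
    rw [h1, map_sum]
    simp only [pair_pow]
    rw [h2, map_mul, mul_comm (evT (AA n) p)]
    simp [evT]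

theorem hc_pair {G0 : Mx n →ₗ[ℚ] ℚ} (h0 : IsG Prod.swap G0) (f g : Gm) :
    pair (Vd MvPowerSeries.X * Et G0 (evT (MM n) f)) (Vd X * eva X g) =
      pair (Vd MvPowerSeries.X) (Vd X : Pl n) * G0 (evT (MM n) f * evT (AA n) g) := by
  have := HC.pair_inv g ((inv_G h0).mul fun i k => evT_zero _ _ _ (L_M i k) f)
  rw [Et_mul, mul_one] at this
  exact this

end Pool.Agent.STS.QF
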