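import Pool.Agent.P.MP_bb7f8f_gt.CMid

/-! Schwinger-Dyson equations for the deformed formal Gaussian integral. -/

namespace Pool.Agent.STS.QF
open MvPolynomial Finset Equiv

variable {n : ℕ}

/-- a family of series without constant term that is closed under derivatives vanishes -/
theorem sd_zero_of_closed {α : Type} (S : α → Sr n)
    (h0 : ∀ a, MvPowerSeries.constantCoeff (S a) = 0)
    (h : ∀ a l, ∃ b, MvPowerSeries.pderiv ℚ l (S a) = S b) (a : α) : S a = 0 := by
  have key : ∀ (N : ℕ) (κ : Fin n →₀ ℕ), κ.degree = N → ∀ a, MvPowerSeries.coeff κ (S a) = 0 := by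
    intro N
    induction N with
    | zero =>
      intro κ hκ a
      rw [(Finsupp.degree_eq_zero_iff κ).1 hκ, MvPowerSeries.coeff_zero_eq_constantCoeff_apply, h0]
    | succ N ih =>
      intro κ hκ a
      obtain ⟨l, hl⟩ : ∃ l, κ l ≠ 0 := by
        by_contra hc
        push Not at hc
        rw [show κ = 0 from Finsupp.ext hc] at hκ
        simp at hκ
      have hle : Finsupp.single l 1 ≤ κ :=
        Finsupp.single_le_iff.2 (Nat.one_le_iff_ne_zero.2 hl)
      obtain ⟨κ', rfl⟩ := exists_add_of_le hle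
      obtain ⟨b, hb⟩ := h a l
      have h1 := ih κ' (by
        rw [map_add, Finsupp.degree_single] at hκ
        omega) b
      rw [← hb, MvPowerSeries.coeff_pderiv, mul_eq_zero, add_comm κ'] at h1
      exact h1.resolve_right (by positivity)
  ext κ
  simpa using key _ κ rfl a

theorem sd_poly_zero {ι : Type} (τ : ι → ι) (c : ℚ) (F : MvPolynomial ι ℚ →ₗ[ℚ] ℚ)
    (h1 : F 1 = 0) (h : ∀ u φ, F (X u * φ) = c * F (pderiv (τ u) φ)) : F = 0 := by
  classical
  have key : ∀ (N : ℕ) (κ : ι →₀ ℕ), κ.degree ≤ N → ∀ a, F (monomial κ a) = 0 := by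
    intro N
    have hz : ∀ a, F (monomial 0 a) = 0 := fun a => by
      rw [monomial_zero', ← mul_one (C a), ← smul_eq_C_mul, map_smul, h1, smul_zero]
    induction N with
    | zero =>
      intro κ hκ a
      rw [(Finsupp.degree_eq_zero_iff κ).1 (Nat.le_zero.1 hκ), hz]
    | succ N ih =>
      intro κ hκ a
      by_cases h0 : κ = 0
      · rw [h0, hz]
      obtain ⟨l, hl⟩ := Finsupp.ne_iff.1 h0
      have hle : Finsupp.single l 1 ≤ κ :=
        Finsupp.single_le_iff.2 (Nat.one_le_iff_ne_zero.2 hl)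
      obtain ⟨κ', rfl⟩ := exists_add_of_le hle
      have e : (monomial (Finsupp.single l 1 + κ') a : MvPolynomial ι ℚ)
          = X l * monomial κ' a := by rw [X, monomial_mul, one_mul]
      rw [e, h, pderiv_monomial, ih _ ?_, mul_zero]
      rw [map_add, Finsupp.degree_single] at hκ
      have : (κ' - Finsupp.single (τ l) 1).degree ≤ κ'.degree :=
        Finsupp.degree_mono tsub_le_self
      omega
  refine LinearMap.ext fun φ => ?_
  induction φ using MvPolynomial.induction_on' with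
  | monomial κ a => exact key _ κ le_rfl a
  | add p q hp hq => rw [map_add, hp, hq]; simp

theorem sd_coeff_Et (G : Mx n →ₗ[ℚ] ℚ) (φ : Mx n) (κ : Fin n →₀ ℕ) :
    MvPowerSeries.coeff κ (Et G φ)
      = G (φ * ∏ i, AA n i i ^ κ i) / ∏ i, ((κ i).factorial : ℚ) := rfl

theorem sd_const_Et (G : Mx n →ₗ[ℚ] ℚ) (φ : Mx n) :
    MvPowerSeries.constantCoeff (Et G φ) = G φ := by
  rw [← MvPowerSeries.coeff_zero_eq_constantCoeff_apply, sd_coeff_Et]
  simp

theorem sd_pderiv_Et (G : Mx n →ₗ[ℚ] ℚ) (φ : Mx n) (l : Fin n) :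
    MvPowerSeries.pderiv ℚ l (Et G φ) = Et G (φ * AA n l l) := by
  ext κ
  rw [MvPowerSeries.coeff_pderiv, sd_coeff_Et, sd_coeff_Et]
  have e1 : ∏ j, (((κ + Finsupp.single l 1 : Fin n →₀ ℕ) j).factorial : ℚ) =
      (∏ j, ((κ j).factorial : ℚ)) * (κ l + 1) := by
    rw [← Finset.mul_prod_erase univ _ (mem_univ l),
      ← Finset.mul_prod_erase univ (fun j => ((κ j).factorial : ℚ)) (mem_univ l)]
    rw [Finset.prod_congr rfl (g := fun j => ((κ j).factorial : ℚ)) fun j hj => by
      simp [Finsupp.single_eq_of_ne (ne_of_mem_erase hj)]]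
    simp [Nat.factorial_succ]; ring
  have e2 : ∏ j, AA n j j ^ (κ + Finsupp.single l 1 : Fin n →₀ ℕ) j =
      AA n l l * ∏ j, AA n j j ^ κ j := by
    simp only [Finsupp.add_apply, pow_add, Finset.prod_mul_distrib]
    rw [mul_comm, Finset.prod_eq_single l
      (fun j _ hj => by rw [Finsupp.single_eq_of_ne hj, pow_zero]) (by simp)]
    simp
  rw [e1, e2, mul_assoc]
  have : ((κ l : ℚ) + 1) ≠ 0 := by positivity
  field_simp

theorem sd_AA (l : Fin n) : AA n l l = -∑ m, X (l, m) * X (m, l) := by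
  simp [AA, MM, Matrix.mul_apply]

theorem sd_pderiv_AA (i j l : Fin n) : pderiv (j, i) (AA n l l)
    = -(((if i = l then 1 else 0) + (if j = l then 1 else 0) : ℚ) • X (i, j)) := by
  rw [sd_AA, map_neg, map_sum]
  simp only [pderiv_mul, pderiv_X, Pi.single_apply, Prod.mk.injEq, Finset.sum_add_distrib, ite_mul,
    mul_ite, one_mul, mul_one, zero_mul, mul_zero, add_smul, ite_smul, one_smul, zero_smul]
  rw [add_comm]
  congr 2
  · by_cases h : i = l
    · subst h; simp
    · simp [h, Ne.symm h]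
  · by_cases h : j = l
    · subst h; simp
    · simp [h, Ne.symm h]

theorem sd_pderiv_X (l i : Fin n) : MvPowerSeries.pderiv ℚ l (MvPowerSeries.X i : Sr n)
    = (if i = l then (1 : ℚ) else 0) • (1 : Sr n) := by
  split_ifs with h
  · subst h; simp
  · simp [MvPowerSeries.pderiv_X_of_ne h]

theorem sd_pderiv_two (l : Fin n) : MvPowerSeries.pderiv ℚ l (2 : Sr n) = 0 :=
  (MvPowerSeries.pderiv ℚ l).map_natCast 2

theorem sd_pderiv_lin (l i j : Fin n) :
    MvPowerSeries.pderiv ℚ l (2 + MvPowerSeries.X i + MvPowerSeries.X j : Sr n)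
      = ((if i = l then 1 else 0) + (if j = l then 1 else 0) : ℚ) • (1 : Sr n) := by
  rw [map_add, map_add, sd_pderiv_X, sd_pderiv_X, add_smul, sd_pderiv_two, zero_add]

theorem et_sd {G0 : Mx n →ₗ[ℚ] ℚ} (h0 : IsG Prod.swap G0) (i j : Fin n) (φ : Mx n) :
    Et G0 (X (i, j) * φ) = Cs i j * Et G0 (pderiv (j, i) φ) := by
  have key := sd_zero_of_closed (fun φ : Mx n =>
    (2 + MvPowerSeries.X i + MvPowerSeries.X j) * Et G0 (X (i, j) * φ) - Et G0 (pderiv (j, i) φ))
    (fun φ => by
      rw [map_sub, map_mul, sd_const_Et, sd_const_Et, h0.2]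
      simp [map_ofNat])
    (fun φ l => ⟨φ * AA n l l, by
      rw [map_sub, Derivation.leibniz, sd_pderiv_Et, sd_pderiv_Et, sd_pderiv_lin, pderiv_mul,
        sd_pderiv_AA, map_add, mul_neg, map_neg, mul_smul_comm, map_smul, mul_assoc, mul_comm φ (X _)]
      simp only [smul_eq_mul, mul_smul_comm, mul_one]
      ring⟩) φ
  rw [← sub_eq_zero.1 key, ← mul_assoc, mul_comm (Cs i j), Cs_mul, one_mul]

theorem et_one_const {G0 : Mx n →ₗ[ℚ] ℚ} (h0 : IsG Prod.swap G0) :
    MvPowerSeries.constantCoeff (Et G0 1) = 1 := by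
  rw [sd_const_Et, h0.1]

theorem et_one_deriv {G0 : Mx n →ₗ[ℚ] ℚ} (h0 : IsG Prod.swap G0) (l : Fin n) :
    MvPowerSeries.pderiv ℚ l (Et G0 1) = -(∑ j, Cs l j) * Et G0 1 := by
  rw [sd_pderiv_Et, one_mul, sd_AA, map_neg, map_sum, neg_mul, Finset.sum_mul]
  simp only [et_sd h0, pderiv_X_self]

theorem pderiv_rename_sr {m : ℕ} (e : Fin m → Fin n) (he : Function.Injective e) (j : Fin m)
    (Ψ : Sr m) : MvPowerSeries.pderiv ℚ (e j) (MvPowerSeries.rename e Ψ) =
      MvPowerSeries.rename e (MvPowerSeries.pderiv ℚ j Ψ) := by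
  ext κ
  rw [MvPowerSeries.coeff_pderiv]
  by_cases hκ : κ ∈ Set.range (Finsupp.mapDomain e : (Fin m →₀ ℕ) → _)
  · obtain ⟨x, rfl⟩ := hκ
    have h1 := fun (p : Sr m) (y : Fin m →₀ ℕ) =>
      MvPowerSeries.coeff_embDomain_rename ⟨e, he⟩ p y
    simp only [Finsupp.embDomain_eq_mapDomain, Function.Embedding.coeFn_mk] at h1
    rw [← Finsupp.mapDomain_single (f := e), ← Finsupp.mapDomain_add, h1, h1,
      MvPowerSeries.coeff_pderiv, Finsupp.mapDomain_apply he]
  · rw [MvPowerSeries.coeff_rename_eq_zero _ _ hκ, MvPowerSeries.coeff_rename_eq_zero, zero_mul]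
    intro h
    rw [Finsupp.mem_range_mapDomain_iff _ he] at h hκ
    refine hκ fun b hb => ?_
    have := h b hb
    rw [Finsupp.add_apply] at this
    omega

theorem pderiv_rename_sr_zero {m : ℕ} (e : Fin m → Fin n) (l : Fin n) (hl : l ∉ Set.range e)
    (Ψ : Sr m) : MvPowerSeries.pderiv ℚ l (MvPowerSeries.rename e Ψ) = 0 := by
  ext κ
  rw [MvPowerSeries.coeff_pderiv, MvPowerSeries.coeff_rename_eq_zero, zero_mul, map_zero]
  rintro ⟨x, hx⟩
  have := Finsupp.mapDomain_of_notMem_range x l hl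
  rw [hx] at this
  simp at this

theorem sd_rename_G {G0 : Mx n →ₗ[ℚ] ℚ} (h0 : IsG Prod.swap G0) (g : Perm (Fin n)) (φ : Mx n) :
    G0 (rename (Prod.map g g) φ) = G0 φ := by
  have hi : Function.Injective (Prod.map g g) := g.injective.prodMap g.injective
  have := sd_poly_zero Prod.swap (1 / 2)
    (G0 ∘ₗ (rename (Prod.map g g) : Mx n →ₐ[ℚ] Mx n).toLinearMap - G0) (by simp) fun u φ => by
      simp only [LinearMap.sub_apply, LinearMap.comp_apply, AlgHom.toLinearMap_apply, map_mul,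
        rename_X, h0.2]
      rw [← pderiv_rename hi, mul_sub]
      rfl
  simpa [sub_eq_zero] using LinearMap.congr_fun this φ

theorem sd_rename_Et {G0 : Mx n →ₗ[ℚ] ℚ} (h0 : IsG Prod.swap G0) (g : Perm (Fin n)) (φ : Mx n) :
    MvPowerSeries.rename g (Et G0 φ) = Et G0 (rename (Prod.map g g) φ) := by
  refine sub_eq_zero.1 (sd_zero_of_closed (fun φ : Mx n =>
    MvPowerSeries.rename g (Et G0 φ) - Et G0 (rename (Prod.map g g) φ)) (fun φ => ?_)
    (fun φ l => ⟨φ * AA n (g.symm l) (g.symm l), ?_⟩) φ)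
  · rw [map_sub, MvPowerSeries.constantCoeff_rename, sd_const_Et, sd_const_Et, sd_rename_G h0,
      sub_self]
  · obtain ⟨k, rfl⟩ := g.surjective l
    rw [map_sub, pderiv_rename_sr g g.injective, sd_pderiv_Et, sd_pderiv_Et,
      symm_apply_apply, map_mul (rename (Prod.map g g))]
    congr 3
    rw [sd_AA, sd_AA]
    simp only [map_neg, map_sum, map_mul, rename_X, Prod.map_apply]
    rw [Equiv.sum_comp g fun m => (X (g k, m) * X (m, g k) : Mx n)]

theorem sd_rename_evT (g : Perm (Fin n)) (f : Gm) :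
    rename (Prod.map g g) (evT (MM n) f) = evT (MM n) f := by
  have : (rename (Prod.map g g) : Mx n →ₐ[ℚ] Mx n).comp (evT (MM n)) = evT (MM n) := by
    refine MvPolynomial.algHom_ext fun k => ?_
    simp only [evT, AlgHom.comp_apply, aeval_X]
    have e : (rename (Prod.map g g) : Mx n →ₐ[ℚ] Mx n).mapMatrix (MM n)
        = Matrix.reindexAlgEquiv ℚ (Mx n) g.symm (MM n) := by
      ext i j : 1
      simp [MM]
    rw [AddMonoidHom.map_trace]
    change ((rename (Prod.map g g) : Mx n →ₐ[ℚ] Mx n).mapMatrix (MM n ^ k)).trace = _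
    rw [map_pow, e, ← map_pow]
    simp only [Matrix.trace, Matrix.diag, Matrix.coe_reindexAlgEquiv, Matrix.reindex_apply,
      Matrix.submatrix_apply, symm_symm]
    exact Equiv.sum_comp g fun i => (MM n ^ k) i i
  exact AlgHom.congr_fun this f

theorem et_symm {G0 : Mx n →ₗ[ℚ] ℚ} (h0 : IsG Prod.swap G0) (g : Perm (Fin n)) (f : Gm) :
    MvPowerSeries.rename g (Et G0 (evT (MM n) f)) = Et G0 (evT (MM n) f) := by
  rw [sd_rename_Et h0, sd_rename_evT]

theorem sd_rename_Cs {m : ℕ} (e : Fin m → Fin n) (i j : Fin m) :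
    MvPowerSeries.rename e (Cs i j) = Cs (e i) (e j) := by
  have h := congrArg (MvPowerSeries.rename e) (Cs_mul i j)
  simp only [map_mul, map_add, MvPowerSeries.rename_X, map_one, map_ofNat] at h
  rw [← one_mul (MvPowerSeries.rename e (Cs i j)), ← Cs_mul (e i) (e j), mul_right_comm, h, one_mul]

theorem sd_Cs_symm (i j : Fin n) : Cs i j = Cs j i := by
  unfold Cs
  rw [add_right_comm]

theorem sd_const_Cs (i j : Fin n) : MvPowerSeries.constantCoeff (2 * Cs i j) = 1 := by
  have h := congrArg MvPowerSeries.constantCoeff (Cs_mul i j)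
  simpa [map_ofNat] using h

theorem sd_pderiv_Cs (l i j : Fin n) : MvPowerSeries.pderiv ℚ l (2 * Cs i j)
    = -(((if i = l then 1 else 0) + (if j = l then 1 else 0) : ℚ) • Cs i j) * (2 * Cs i j) := by
  rw [Derivation.leibniz, sd_pderiv_two, Cs, MvPowerSeries.pderiv_inv', sd_pderiv_lin]
  simp only [smul_eq_mul, mul_smul_comm, mul_one, mul_zero, add_zero, neg_mul, smul_mul_assoc,
    ← smul_neg]
  congr 1
  ring

theorem sd_log_mul {l : Fin n} {Y Y' c c' : Sr n} (h : MvPowerSeries.pderiv ℚ l Y = c * Y)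
    (h' : MvPowerSeries.pderiv ℚ l Y' = c' * Y') :
    MvPowerSeries.pderiv ℚ l (Y * Y') = (c + c') * (Y * Y') := by
  rw [Derivation.leibniz, h, h']
  simp only [smul_eq_mul]
  ring

theorem sd_log_prod {ι : Type} (s : Finset ι) {l : Fin n} {Y c : ι → Sr n}
    (h : ∀ i, MvPowerSeries.pderiv ℚ l (Y i) = c i * Y i) :
    MvPowerSeries.pderiv ℚ l (∏ i ∈ s, Y i) = (∑ i ∈ s, c i) * ∏ i ∈ s, Y i := by
  classical
  induction s using Finset.induction_on with
  | empty => simp
  | insert i s hi ih => rw [Finset.prod_insert hi, Finset.sum_insert hi, sd_log_mul (h i) ih]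

theorem sd_log_unique {Y Y' : Sr n} (c : Fin n → Sr n)
    (h : ∀ l, MvPowerSeries.pderiv ℚ l Y = c l * Y)
    (h' : ∀ l, MvPowerSeries.pderiv ℚ l Y' = c l * Y')
    (h0 : MvPowerSeries.constantCoeff Y = MvPowerSeries.constantCoeff Y') : Y = Y' := by
  have := sd_zero_of_closed (fun Φ : Sr n => Φ * (Y - Y')) (fun Φ => by simp [h0])
    (fun Φ l => ⟨MvPowerSeries.pderiv ℚ l Φ + Φ * c l, by
      rw [Derivation.leibniz, map_sub, h, h']
      simp only [smul_eq_mul]
      ring⟩) 1
  rwa [one_mul, sub_eq_zero] at this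

/-- factorisation of the partition function -/
theorem et_one_succ {G0 : Mx (n + 1) →ₗ[ℚ] ℚ} {G0' : Mx n →ₗ[ℚ] ℚ} {G01 : Mx 1 →ₗ[ℚ] ℚ}
    (h0 : IsG Prod.swap G0) (h0' : IsG Prod.swap G0') (h01 : IsG Prod.swap G01) (i : Fin (n + 1)) :
    Et G0 1 = MvPowerSeries.rename i.succAbove (Et G0' 1) *
      MvPowerSeries.rename (fun _ : Fin 1 => i) (Et G01 1) * ∏ j, 2 * Cs i (i.succAbove j) := by
  refine sd_log_unique (fun l => -(∑ j, Cs l j)) (et_one_deriv h0) (fun l => ?_) ?_
  · have h3 := sd_log_prod univ fun j => sd_pderiv_Cs l i (i.succAbove j)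
    by_cases hl : l = i
    · subst hl
      have h1 : MvPowerSeries.pderiv ℚ l (MvPowerSeries.rename l.succAbove (Et G0' 1))
          = 0 * MvPowerSeries.rename l.succAbove (Et G0' 1) := by
        rw [zero_mul, pderiv_rename_sr_zero _ _ (by simp)]
      have h2 : MvPowerSeries.pderiv ℚ l (MvPowerSeries.rename (fun _ : Fin 1 => l) (Et G01 1))
          = -Cs l l * MvPowerSeries.rename (fun _ : Fin 1 => l) (Et G01 1) := by
        have := pderiv_rename_sr (fun _ : Fin 1 => l) (fun _ _ _ => Subsingleton.elim _ _) 0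
          (Et G01 1)
        rw [this, et_one_deriv h01]
        simp [sd_rename_Cs]
      rw [sd_log_mul (sd_log_mul h1 h2) h3, Fin.sum_univ_succAbove _ l]
      congr 1
      simp [Fin.succAbove_ne]
      ring
    · obtain ⟨k, rfl⟩ := Fin.exists_succAbove_eq hl
      have h1 : MvPowerSeries.pderiv ℚ (i.succAbove k) (MvPowerSeries.rename i.succAbove (Et G0' 1))
          = -(∑ j, Cs (i.succAbove k) (i.succAbove j)) *
            MvPowerSeries.rename i.succAbove (Et G0' 1) := by
        rw [pderiv_rename_sr _ Fin.succAbove_right_injective, et_one_deriv h0']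
        simp [sd_rename_Cs]
      have h2 : MvPowerSeries.pderiv ℚ (i.succAbove k)
          (MvPowerSeries.rename (fun _ : Fin 1 => i) (Et G01 1))
          = 0 * MvPowerSeries.rename (fun _ : Fin 1 => i) (Et G01 1) := by
        rw [zero_mul, pderiv_rename_sr_zero _ _ (by simp)]
      rw [sd_log_mul (sd_log_mul h1 h2) h3, Fin.sum_univ_succAbove _ i]
      congr 1
      simp [Ne.symm hl, ite_smul, sd_Cs_symm i]
  · simp only [map_mul _ (_ * _ : Sr (n + 1)), map_prod, sd_const_Cs,
      map_mul _ (MvPowerSeries.rename _ _), MvPowerSeries.constantCoeff_rename, et_one_const h0, et_one_const h0', et_one_const h01]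
    simp

end Pool.Agent.STS.QF
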