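import Pool.Agent.P.MP_bb7f8f_gt.CMid

/-! Symmetric and antisymmetric polynomials. -/

namespace Pool.Agent.STS.QF
open MvPolynomial Finset Equiv

variable {n : ℕ}

theorem eva_X {ι R : Type} [Fintype ι] [CommRing R] [Algebra ℚ R] (a : ι → R) (k : ℕ) :
    eva a (X k) = ∑ i, a i ^ k := by simp [eva]

theorem esymm_mem_range (k : ℕ) : esymm (Fin n) ℚ k ∈ (eva (X : Fin n → Pl n)).range := by
  induction k using Nat.strong_induction_on with
  | _ k ih =>
    rcases Nat.eq_zero_or_pos k with rfl | hk
    · rw [esymm_zero]; exact Subalgebra.one_mem _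
    have h := mul_esymm_eq_sum (Fin n) ℚ k
    have hk' : (k : ℚ) ≠ 0 := by exact_mod_cast hk.ne'
    have h2 : esymm (Fin n) ℚ k = (k : ℚ)⁻¹ • ((k : Pl n) * esymm (Fin n) ℚ k) := by
      rw [← nsmul_eq_mul, ← Nat.cast_smul_eq_nsmul ℚ, smul_smul, inv_mul_cancel₀ hk', one_smul]
    rw [h2, h]
    refine Subalgebra.smul_mem _ (Subalgebra.mul_mem _ (Subalgebra.pow_mem _
      (Subalgebra.neg_mem _ (Subalgebra.one_mem _)) _) (Subalgebra.sum_mem _ fun a ha => ?_)) _
    refine Subalgebra.mul_mem _ (Subalgebra.mul_mem _ (Subalgebra.pow_mem _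
      (Subalgebra.neg_mem _ (Subalgebra.one_mem _)) _) (ih _ (mem_filter.1 ha).2)) ⟨X a.2, ?_⟩
    exact eva_X _ _

theorem exists_eva_of_symm (P : Pl n) (hP : P.IsSymmetric) : ∃ g : Gm, eva X g = P := by
  obtain ⟨p, hp⟩ := esymmAlgHom_surjective (σ := Fin n) ℚ (n := n) (by simp) ⟨P, hP⟩
  have h : P = aeval (fun i : Fin n => esymm (Fin n) ℚ (i + 1)) p := by
    rw [← esymmAlgHom_apply, hp]
  rw [h]
  clear h hp
  change _ ∈ (eva (X : Fin n → Pl n)).range
  induction p using MvPolynomial.induction_on with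
  | C a => rw [aeval_C]; exact Subalgebra.algebraMap_mem _ _
  | add p q hp hq => rw [map_add]; exact Subalgebra.add_mem _ hp hq
  | mul_X p i hp => rw [map_mul, aeval_X]; exact Subalgebra.mul_mem _ hp (esymm_mem_range _)

theorem rename_eva {ι κ τ : Type} [Fintype ι] (f : κ → τ) (a : ι → MvPolynomial κ ℚ) (g : Gm) :
    rename f (eva a g) = eva (fun j => rename f (a j)) g := by
  have : (rename f).comp (eva a) = eva (fun j => rename f (a j)) :=
    MvPolynomial.algHom_ext fun k => by simp [eva_X]
  exact DFunLike.congr_fun this g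

theorem span_succ (i : Fin (n + 1)) (g : Gm) :
    (∏ j, (X i - X (i.succAbove j))) * eva X g ∈ Submodule.span ℚ
      {P : Pl (n + 1) | ∃ (k : ℕ) (g' : Gm),
        P = X i ^ k * eva (fun j => X (i.succAbove j)) g'} := by
  set S : Set (Pl (n + 1)) := {P : Pl (n + 1) | ∃ (k : ℕ) (g' : Gm),
    P = X i ^ k * eva (fun j => X (i.succAbove j)) g'} with hS
  have h1 : (1 : Pl (n + 1)) ∈ Submodule.span ℚ S :=
    Submodule.subset_span ⟨0, 1, by simp⟩
  have hmul : ∀ x y, x ∈ Submodule.span ℚ S → y ∈ Submodule.span ℚ S →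
      x * y ∈ Submodule.span ℚ S := by
    intro x y hx hy
    have := Submodule.mul_mem_mul hx hy
    rw [Submodule.span_mul_span] at this
    refine Submodule.span_mono ?_ this
    rintro _ ⟨_, ⟨k, g, rfl⟩, _, ⟨k', g', rfl⟩, rfl⟩
    exact ⟨k + k', g * g', by simp only [map_mul, pow_add]; ring⟩
  let T := (Submodule.span ℚ S).toSubalgebra h1 hmul
  have hX : X i ∈ T := Submodule.subset_span ⟨1, 1, by simp⟩
  have hE : ∀ g', eva (fun j => X (i.succAbove j)) g' ∈ T := fun g' =>
    Submodule.subset_span ⟨0, g', by simp⟩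
  change _ ∈ T
  refine T.mul_mem ?_ ?_
  · have hv := congrArg (Polynomial.eval₂RingHom
      (rename (R := ℚ) i.succAbove).toRingHom (-X i)) (MvPolynomial.prod_C_add_X_eq_sum_esymm ℚ (Fin n))
    simp only [map_prod, map_sum, map_add, map_mul, map_pow, Polynomial.coe_eval₂RingHom,
      Polynomial.eval₂_X, Polynomial.eval₂_C, AlgHom.toRingHom_eq_coe, RingHom.coe_coe,
      rename_X] at hv
    have h2 : (∏ j, (X i - X (i.succAbove j)) : Pl (n + 1)) =
        (∏ _j : Fin n, (-1)) * ∏ j, (-X i + X (i.succAbove j)) := by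
      rw [← prod_mul_distrib]; exact prod_congr rfl fun j _ => by ring
    rw [h2, hv]
    refine T.mul_mem (T.prod_mem fun _ _ => T.neg_mem T.one_mem) (T.sum_mem fun j _ =>
      T.mul_mem ?_ (T.pow_mem (T.neg_mem hX) _))
    obtain ⟨g', hg'⟩ := esymm_mem_range (n := n) j
    rw [← hg']
    change rename _ (eva X g') ∈ T
    rw [rename_eva]
    simpa using hE g'
  · induction g using MvPolynomial.induction_on with
    | C a => rw [eva, aeval_C]; exact T.algebraMap_mem _
    | add p q hp hq => rw [map_add]; exact T.add_mem hp hq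
    | mul_X p k hp =>
      rw [map_mul, eva_X, Fin.sum_univ_succAbove _ i]
      refine T.mul_mem hp (T.add_mem (T.pow_mem hX _) ?_)
      rw [← eva_X]; exact hE _

theorem Vd_succ {R : Type} [CommRing R] (b : Fin (n + 1) → R) :
    Vd b = (∏ j : Fin n, (b j.succ - b 0)) * Vd fun j : Fin n => b j.succ := by
  simp [Vd, Fin.prod_univ_succ]

theorem Vd_succAbove (i : Fin (n + 1)) : ∃ ε : ℤ, ε * ε = 1 ∧
    ∀ (R : Type) [CommRing R] (a : Fin (n + 1) → R),
      Vd a = ε * (∏ j, (a i - a (i.succAbove j))) * Vd fun j => a (i.succAbove j) := by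
  set s : ℤ := ((Perm.sign (Fin.cycleRange i).symm : ℤˣ) : ℤ) with hs
  have hss : s * s = 1 := by rw [hs, ← Units.val_mul, Int.units_mul_self, Units.val_one]
  refine ⟨s * (-1) ^ n, ?_, fun R _ a => ?_⟩
  · rw [mul_mul_mul_comm, hss, one_mul, ← mul_pow]; simp
  have h := Vd_perm a (Fin.cycleRange i).symm
  rw [Vd_succ] at h
  simp only [Fin.cycleRange_symm_zero, Fin.cycleRange_symm_succ] at h
  have h2 : (∏ j, (a (i.succAbove j) - a i)) =
      (∏ _j : Fin n, (-1 : R)) * ∏ j, (a i - a (i.succAbove j)) := by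
    rw [← prod_mul_distrib]; exact prod_congr rfl fun j _ => by ring
  rw [h2, prod_const, card_univ, Fintype.card_fin, ← hs] at h
  have h3 : (s : R) * s = 1 := by exact_mod_cast congrArg (Int.cast : ℤ → R) hss
  push_cast
  linear_combination (-(s : R)) * h - Vd a * h3

/-- substitute `X j ↦ X i` -/
theorem dvd_sub_rename (i j : Fin n) (P : Pl n) :
    X j - X i ∣ P - rename (Function.update id j i) P := by
  induction P using MvPolynomial.induction_on with
  | C a => simp
  | add p q hp hq =>
    rw [map_add, add_sub_add_comm]; exact dvd_add hp hq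
  | mul_X p k hp =>
    rw [map_mul, rename_X]
    have hk : (X j - X i : Pl n) ∣ X k - X (Function.update id j i k) := by
      by_cases h : k = j
      · subst h; simp
      · simp [Function.update_of_ne h]
    have : p * X k - rename (Function.update id j i) p * X (Function.update id j i k) =
        p * (X k - X (Function.update id j i k)) +
          (p - rename (Function.update id j i) p) * X (Function.update id j i k) := by ring
    rw [this]
    exact dvd_add (hk.mul_left _) (hp.mul_right _)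

theorem dvd_iff_rename {i j : Fin n} (hij : i ≠ j) (P : Pl n) :
    X j - X i ∣ P ↔ rename (Function.update id j i) P = 0 := by
  constructor
  · rintro ⟨Q, rfl⟩
    simp [Function.update_of_ne hij]
  · intro h
    simpa [h] using dvd_sub_rename i j P

theorem prime_X_sub {i j : Fin n} (hij : i ≠ j) : Prime (X j - X i : Pl n) := by
  refine ⟨sub_ne_zero.2 fun h => hij (X_injective h).symm, fun h => ?_, fun a b h => ?_⟩
  · have := (dvd_iff_rename hij 1).1 h.dvd
    simp at this
  · simpa only [dvd_iff_rename hij, map_mul, mul_eq_zero] using h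

theorem Vd_X_ne_zero : Vd (X : Fin n → Pl n) ≠ 0 :=
  prod_ne_zero_iff.2 fun _ _ => prod_ne_zero_iff.2 fun _ hj =>
    (prime_X_sub (mem_Ioi.1 hj).ne).ne_zero

theorem Vd_dvd (P : Pl n) (hP : ∀ i j : Fin n, i ≠ j → rename (swap i j) P = -P) :
    Vd X ∣ P := by
  unfold Vd
  rw [prod_sigma']
  refine Finset.prod_dvd_of_isRelPrime ?_ ?_
  · rintro ⟨i, j⟩ hij ⟨k, l⟩ hkl hne
    have h1 : i < j := by simpa using hij
    have h2 : k < l := by simpa using hkl
    refine (prime_X_sub h1.ne).irreducible.isRelPrime_iff_not_dvd.2 fun h => ?_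
    rw [dvd_iff_rename h1.ne, map_sub, rename_X, rename_X, sub_eq_zero] at h
    have h3 := X_injective h
    apply hne
    by_cases hl : l = j
    · subst hl
      rw [Function.update_self, Function.update_of_ne h2.ne] at h3
      have : i = k := h3
      subst this; rfl
    · rw [Function.update_of_ne hl] at h3
      by_cases hk : k = j
      · subst hk
        rw [Function.update_self] at h3
        have : l = i := h3
        subst this
        exact absurd h1 h2.not_gt
      · rw [Function.update_of_ne hk] at h3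
        exact absurd h3 h2.ne'
  · rintro ⟨i, j⟩ hij
    have h1 : i < j := by simpa using hij
    rw [dvd_iff_rename h1.ne]
    have h := congrArg (rename (Function.update id j i)) (hP i j h1.ne)
    rw [rename_rename, map_neg] at h
    have h2 : Function.update id j i ∘ swap i j = Function.update id j i := by
      funext k
      by_cases hi : k = i
      · subst hi; simp [Function.update_of_ne h1.ne]
      by_cases hj : k = j
      · subst hj; simp [Function.update_of_ne h1.ne]
      · simp [swap_apply_of_ne_of_ne hi hj]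
    rw [h2] at h
    have h3 : (2 : Pl n) * rename (Function.update id j i) P = 0 := by linear_combination h
    exact (mul_eq_zero.1 h3).resolve_left two_ne_zero

theorem pair_rename (g : Perm (Fin n)) (Ψ : Sr n) (P : Pl n) :
    pair (MvPowerSeries.rename g Ψ) (rename g P) = pair Ψ P := by
  refine pair_ext (F := fun P => pair (MvPowerSeries.rename g Ψ) (rename g P))
    (F' := fun P => pair Ψ P) (fun κ a => ?_) (fun p q => by simp) (fun p q => by simp) P
  rw [rename_monomial, pair_monomial, pair_monomial]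
  have h1 := MvPowerSeries.coeff_embDomain_rename g.toEmbedding Ψ κ
  rw [Finsupp.embDomain_eq_mapDomain] at h1
  have h2 : ∏ i, ((Finsupp.mapDomain g κ i).factorial : ℚ) = ∏ i, ((κ i).factorial : ℚ) := by
    rw [← Equiv.prod_comp g]
    exact prod_congr rfl fun i _ => by rw [Finsupp.mapDomain_apply g.injective]
  rw [h2]
  exact congrArg (fun t => a * ((∏ i, ((κ i).factorial : ℚ)) * t)) h1

theorem sign_sq (g : Perm (Fin n)) : ((Perm.sign g : ℤ) : ℚ) * ((Perm.sign g : ℤ) : ℚ) = 1 := by
  rw [← Int.cast_mul, ← Units.val_mul, Int.units_mul_self, Units.val_one, Int.cast_one]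

/-- antisymmetrisation -/
noncomputable def Alt (P : Pl n) : Pl n :=
  ∑ g : Perm (Fin n), ((Perm.sign g : ℤ) : ℚ) • rename g P

theorem rename_Alt (h : Perm (Fin n)) (P : Pl n) :
    rename h (Alt P) = ((Perm.sign h : ℤ) : ℚ) • Alt P := by
  unfold Alt
  rw [map_sum, smul_sum, ← Equiv.sum_comp (Equiv.mulLeft h)
    fun g : Perm (Fin n) => ((Perm.sign h : ℤ) : ℚ) • ((Perm.sign g : ℤ) : ℚ) • rename g P]
  refine sum_congr rfl fun g _ => ?_
  rw [map_smul, rename_rename, smul_smul, Equiv.coe_mulLeft, Perm.sign_mul, Units.val_mul,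
    Int.cast_mul, ← mul_assoc, sign_sq, one_mul, Perm.coe_mul]

theorem exists_Alt (P : Pl n) : ∃ g : Gm, Alt P = Vd X * eva X g := by
  obtain ⟨Q, hQ⟩ := Vd_dvd (Alt P) fun i j hij => by
    rw [rename_Alt, Perm.sign_swap hij]; simp
  have hs : Q.IsSymmetric := by
    intro h
    have h1 := rename_Alt h P
    rw [hQ, map_mul, Vd_map] at h1
    simp only [rename_X] at h1
    rw [Vd_perm, smul_eq_C_mul, map_intCast, mul_assoc] at h1
    have h2 : (((Perm.sign h : ℤˣ) : ℤ) : Pl n) ≠ 0 := by
      exact_mod_cast (Perm.sign h).ne_zero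
    exact mul_left_cancel₀ Vd_X_ne_zero (mul_left_cancel₀ h2 h1)
  obtain ⟨g, hg⟩ := exists_eva_of_symm Q hs
  exact ⟨g, by rw [hg, hQ]⟩

theorem anti_unique (Ψ : Sr n)
    (ha : ∀ g : Perm (Fin n), MvPowerSeries.rename g Ψ = ((Perm.sign g : ℤ) : ℚ) • Ψ)
    (h : ∀ g : Gm, pair Ψ (Vd X * eva X g) = 0) : Ψ = 0 := by
  refine eq_zero_of_pair fun κ => ?_
  obtain ⟨g, hg⟩ := exists_Alt (monomial κ 1 : Pl n)
  have h1 := h g
  rw [← hg, Alt, map_sum] at h1
  have h2 : ∀ σ : Perm (Fin n), pair Ψ (((Perm.sign σ : ℤ) : ℚ) • rename σ (monomial κ 1)) =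
      pair Ψ (monomial κ 1) := fun σ => by
    rw [map_smul, smul_eq_mul, ← pair_smul, ← ha, pair_rename]
  simp only [h2, sum_const, card_univ, nsmul_eq_mul, mul_eq_zero, Nat.cast_eq_zero] at h1
  exact h1.resolve_left Fintype.card_ne_zero

end Pool.Agent.STS.QF
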