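import Pool.Agent.P.MP_bb7f8f_gt.Eval
import Pool.Agent.P.MP_bb7f8f_gt.Gauss
import Pool.Agent.P.MP_bb7f8f_gt.Gue
import Pool.Agent.P.MP_bb7f8f_gt.HC
import Pool.Agent.P.MP_bb7f8f_gt.SD
import Pool.Agent.P.MP_bb7f8f_gt.Uniq

/-! Ingredients of the evaluation of `⟨Q_ν (tr M ^ k)⟩`. -/

namespace Pool.Agent.STS.QF
open MvPolynomial Finset Equiv

variable {n : ℕ}

theorem map_evO {R R' : Type*} [CommRing R] [Algebra ℚ R] [CommRing R'] [Algebra ℚ R']
    (ψ : R →ₐ[ℚ] R') (π : ℕ → R) (f : Gm) : ψ (evO π f) = evO (fun k => ψ (π k)) f := by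
  have : ψ.comp (evO π) = evO fun k => ψ (π k) :=
    MvPolynomial.algHom_ext fun k => by by_cases h : Odd k <;> simp [evO, h]
  rw [← this]; rfl

theorem map_eva {ι R R' : Type} [Fintype ι] [CommRing R] [Algebra ℚ R] [CommRing R'] [Algebra ℚ R']
    (ψ : R →ₐ[ℚ] R') (a : ι → R) (f : Gm) : ψ (eva a f) = eva (fun i => ψ (a i)) f := by
  have : ψ.comp (eva a) = eva fun i => ψ (a i) :=
    MvPolynomial.algHom_ext fun k => by simp [eva, map_sum]
  rw [← this]; rfl

theorem evO_zero_phi {R : Type} [CommRing R] [Algebra ℚ R] (π : ℕ → R) (hπ : ∀ k, π k = 0)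
    (e : ℕ) (he : 1 ≤ e) (f : Gm) : evO π (phi e f) = 0 := by
  have h := phi_eval (K := ℚ) (∅ : Finset ℕ) (fun _ => 0) (by simp) (by simp) e he f
  have h2 := map_evO (Algebra.ofId ℚ R) (fun k => ∑ i ∈ (∅ : Finset ℕ), (0 : ℚ) ^ k) (phi e f)
  rw [h] at h2
  simp only [Finset.sum_empty, mul_zero, map_zero] at h2
  rw [show π = fun _ => 0 from funext hπ, ← h2]

theorem phi_dom {R : Type} [CommRing R] [IsDomain R] [Algebra ℚ R] (x : Fin (n + 1) → R)
    (hx : Function.Injective x) (h0 : ∀ i, x i ≠ 0) (T : R) (t : Fin (n + 1) → R)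
    (ht : ∀ i, t i * ∏ j, (x i - x (i.succAbove j)) = T * ∏ j, (x i + x (i.succAbove j)))
    (e : ℕ) (he : 1 ≤ e) (f : Gm) :
    T * evO (fun k => ∑ i, x i ^ k) (phi e f) =
      2 * ∑ i, x i ^ e * t i * evO (fun k => ∑ j, x (i.succAbove j) ^ k) f := by
  let ψ : R →ₐ[ℚ] FractionRing R := IsScalarTower.toAlgHom ℚ R (FractionRing R)
  have hψ : Function.Injective ψ := IsFractionRing.injective R (FractionRing R)
  apply hψ
  have h := phi_eval univ (fun i => ψ (x i)) (hψ.comp hx).injOn
    (fun i _ h => h0 i (hψ (by rw [h, map_zero]))) e he f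
  have er : ∀ i : Fin (n + 1), univ.erase i = univ.map i.succAboveEmb := fun i => by
    rw [Fin.univ_succAbove n i, Finset.cons_eq_insert, Finset.erase_insert (by simp)]
  simp only [map_mul, map_evO, map_sum, map_pow, map_ofNat]
  rw [h, mul_left_comm, Finset.mul_sum]
  congr 1
  refine Finset.sum_congr rfl fun i _ => ?_
  have h1 := congrArg ψ (ht i)
  simp only [map_mul, map_prod, map_sub, map_add] at h1
  have h2 : ∏ j, (ψ (x i) - ψ (x (i.succAbove j))) ≠ 0 :=
    Finset.prod_ne_zero_iff.2 fun j _ => sub_ne_zero.2 fun h =>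
      Fin.succAbove_ne i j (hx (hψ h)).symm
  have h3 : ψ T * Bf univ (fun i => ψ (x i)) i = ψ (t i) := by
    rw [Bf, er, Finset.prod_map, Finset.prod_div_distrib]
    simp only [Fin.succAboveEmb_apply, Function.Embedding.coeFn_mk]
    rw [← mul_div_assoc, ← h1, mul_div_cancel_right₀ _ h2]
  rw [← h3, er]
  simp only [Finset.sum_map, Fin.succAboveEmb_apply, Function.Embedding.coeFn_mk]
  ring

theorem mu_zero : mu 0 = 1 := by simp [mu]

theorem mu_add_two (a : ℕ) : mu (a + 2) = (a + 1) / 2 * mu a := by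
  unfold mu
  by_cases h : Even a
  · rw [if_pos h, if_pos (by simpa [Nat.even_add] using h)]
    rw [show (a + 2) / 2 = a / 2 + 1 by omega, show a + 2 - 1 = a + 1 by omega]
    rcases a with _ | a
    · simp
    · rw [show a + 1 + 1 = a + 2 from rfl, Nat.doubleFactorial_add_two]
      simp only [Nat.add_sub_cancel]
      push_cast; ring
  · rw [if_neg h, if_neg (by simpa [Nat.even_add] using h), mul_zero]

theorem mu_odd {a : ℕ} (h : ¬ Even a) : mu a = 0 := if_neg h

theorem g1_pow {ι : Type} [DecidableEq ι] {G : MvPolynomial ι ℚ →ₗ[ℚ] ℚ} (h : IsG id G) (i : ι)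
    (a : ℕ) : G (X i ^ a) = mu a := by
  induction a using Nat.twoStepInduction with
  | zero => rw [pow_zero, h.1, mu_zero]
  | one =>
    have := h.2 i 1
    rw [mu_odd (by decide)]
    simpa using this
  | more a ih _ =>
    rw [pow_succ', h.2, mu_add_two, ← ih]
    have : pderiv i (X i ^ (a + 1) : MvPolynomial ι ℚ) = ((a : ℚ) + 1) • X i ^ a := by
      rw [Derivation.leibniz_pow]
      simp [← Nat.cast_smul_eq_nsmul ℚ]
    simp only [id]
    rw [this, map_smul, smul_eq_mul]; ring

theorem g1_indep {G : Pl (n + 1) →ₗ[ℚ] ℚ} {G' : Pl n →ₗ[ℚ] ℚ} (h : IsG id G) (h' : IsG id G')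
    (i : Fin (n + 1)) (a : ℕ) (P : Pl n) :
    G (X i ^ a * rename i.succAbove P) = mu a * G' P := by
  have := sd_unique (R := ℚ) id (fun _ : Fin n => 1 / 2)
    (G ∘ₗ LinearMap.mulLeft ℚ (X i ^ a) ∘ₗ (rename i.succAbove).toLinearMap - mu a • G')
    (by simp [g1_pow h, h'.1]) (fun u φ => by
      simp only [LinearMap.sub_apply, LinearMap.comp_apply, LinearMap.mulLeft_apply,
        AlgHom.toLinearMap_apply, map_mul, rename_X, LinearMap.smul_apply, smul_eq_mul, id]
      rw [mul_left_comm, h.2, h'.2]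
      simp only [id]
      rw [Derivation.leibniz, pderiv_rename Fin.succAbove_right_injective,
        Derivation.leibniz_pow, pderiv_X_of_ne (Fin.succAbove_ne i u).symm]
      simp only [smul_eq_mul, mul_zero, smul_zero, add_zero]
      ring)
  have h2 := LinearMap.congr_fun this P
  simpa [sub_eq_zero] using h2

theorem pair_fac0 (i : Fin (n + 1)) (U : Sr 1) (P : Pl n) : ∀ Ψ : Sr n,
    pair (MvPowerSeries.rename (fun _ : Fin 1 => i) U * MvPowerSeries.rename i.succAbove Ψ)
      (rename i.succAbove P) = MvPowerSeries.constantCoeff U * pair Ψ P := by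
  induction P using MvPolynomial.induction_on with
  | C a => intro Ψ; simp [pair_C, MvPowerSeries.constantCoeff_rename]; ring
  | add p q hp hq => intro Ψ; simp only [map_add, hp, hq]; ring
  | mul_X p j hp =>
    intro Ψ
    rw [mul_comm p, map_mul, rename_X, pair_X_mul, pair_X_mul, Derivation.leibniz,
      pderiv_rename_sr _ Fin.succAbove_right_injective,
      pderiv_rename_sr_zero _ _ (by simpa using (Fin.succAbove_ne i j).symm), smul_zero, add_zero,
      smul_eq_mul, hp]

theorem pair_fac (i : Fin (n + 1)) (u : ℕ → Sr 1) (r : ℕ → ℚ)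
    (hu : ∀ a, MvPowerSeries.pderiv ℚ 0 (u a) = r a • u (a + 1))
    (h1 : ∀ a, MvPowerSeries.constantCoeff (u a) = 1) (P : Pl n) (Ψ : Sr n) (k : ℕ) : ∀ a,
    pair (MvPowerSeries.rename (fun _ : Fin 1 => i) (u a) * MvPowerSeries.rename i.succAbove Ψ)
      (X i ^ k * rename i.succAbove P) = (∏ t ∈ range k, r (a + t)) * pair Ψ P := by
  induction k with
  | zero => intro a; simp [pair_fac0, h1]
  | succ k ih =>
    intro a
    have := pderiv_rename_sr (fun _ : Fin 1 => i) (fun _ _ _ => Subsingleton.elim _ _) 0 (u a)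
    rw [pow_succ', mul_assoc, pair_X_mul, Derivation.leibniz,
      pderiv_rename_sr_zero _ _ (by simp), smul_zero, zero_add, this, hu, map_smul, smul_eq_mul,
      mul_smul_comm, pair_smul, mul_comm (MvPowerSeries.rename _ Ψ), ih, Finset.prod_range_succ']
    simp only [add_zero, add_assoc, add_comm 1]
    ring

theorem map_Cs {R : Type} [CommRing R] (ψ : Sr n →+* R) (i j : Fin n) (c : R)
    (h : (2 + ψ (MvPowerSeries.X i) + ψ (MvPowerSeries.X j)) * c = 1) : ψ (Cs i j) = c := by
  have := congrArg ψ (Cs_mul i j)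
  simp only [map_mul, map_add, map_ofNat, map_one] at this
  linear_combination c * this - ψ (Cs i j) * h

theorem rename_Cs {m : ℕ} (e : Fin m → Fin n) (i j : Fin m) :
    MvPowerSeries.rename e (Cs i j) = Cs (e i) (e j) :=
  map_Cs (MvPowerSeries.rename e).toRingHom i j _ (by simpa using Cs_mul (e i) (e j))

theorem Cs_comm (i j : Fin n) : Cs i j = Cs j i := by
  unfold Cs; rw [add_right_comm]

theorem cc_Cs (i j : Fin n) : MvPowerSeries.constantCoeff (Cs i j) = 1 / 2 :=
  map_Cs _ i j _ (by simp)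

/-- `1 / λ i` -/
noncomputable def xv (i : Fin n) : Sr n := 2 * Cs i i

theorem xv_mul (i : Fin n) : (1 + MvPowerSeries.X i) * xv i = 1 := by
  unfold xv; linear_combination Cs_mul i i

theorem rename_xv {m : ℕ} (e : Fin m → Fin n) (i : Fin m) :
    MvPowerSeries.rename e (xv i) = xv (e i) := by
  simp [xv, rename_Cs, map_ofNat]

theorem cc_xv (i : Fin n) : MvPowerSeries.constantCoeff (xv i) = 1 := by
  simp [xv, cc_Cs, map_ofNat]

theorem xv_ne (i : Fin n) : xv i ≠ 0 := fun h => by simpa [h] using cc_xv i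

theorem xv_inj : Function.Injective (xv : Fin n → Sr n) := fun i j h => by
  have h1 := xv_mul i
  have h2 := xv_mul j
  rw [← h] at h2
  have : (MvPowerSeries.X i : Sr n) = MvPowerSeries.X j := by
    linear_combination (1 + MvPowerSeries.X j) * h1 - (1 + MvPowerSeries.X i) * h2
  exact (MvPowerSeries.X_inj).1 this

theorem pderiv_xv (i : Fin n) : MvPowerSeries.pderiv ℚ i (xv i) = -xv i ^ 2 := by
  have h := congrArg (MvPowerSeries.pderiv ℚ i) (xv_mul i)
  rw [Derivation.leibniz] at h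
  simp only [map_add, Derivation.map_one_eq_zero, smul_eq_mul, zero_add] at h
  have h2 : MvPowerSeries.pderiv ℚ i (MvPowerSeries.X i : Sr n) = 1 := by simp
  rw [h2] at h
  linear_combination xv i * h - MvPowerSeries.pderiv ℚ i (xv i) * xv_mul i

end Pool.Agent.STS.QF
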