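import Pool.Agent.P.MP_bb7f8f_gt.Mid

/-!
Gluings of sides versus framed oriented-square surfaces.
-/

namespace Pool.Agent.STS
open Equiv Finset Function

namespace Dart

section General
variable {X Y : Type}

lemma eqv_map {r : X → X → Prop} {s : Y → Y → Prop} (φ : X → Y)
    (h : ∀ a b, r a b → Relation.EqvGen s (φ a) (φ b)) {x y : X} (hxy : Relation.EqvGen r x y) :
    Relation.EqvGen s (φ x) (φ y) := by
  induction hxy with
  | rel a b hab => exact h a b hab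
  | refl a => exact .refl _
  | symm a b _ ih => exact .symm _ _ ih
  | trans a b c _ _ ih ih' => exact .trans _ _ _ ih ih'

lemma per_iff (p : Perm X) (x : X) (n : ℕ) : (p ^ n) x = x ↔ minimalPeriod p x ∣ n :=
  isPeriodicPt_iff_minimalPeriod_dvd (f := p)

lemma pow_eq_iff [Finite X] (p : Perm X) (x : X) (m n : ℕ) :
    (p ^ m) x = (p ^ n) x ↔ m % minimalPeriod p x = n % minimalPeriod p x := by
  have h0 := minimalPeriod_pos_of_mem_periodicPts (p.injective.mem_periodicPts x)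
  rw [← iterate_eq_iterate_iff_of_lt_minimalPeriod (Nat.mod_lt _ h0) (Nat.mod_lt _ h0),
    iterate_mod_minimalPeriod_eq, iterate_mod_minimalPeriod_eq]
  rfl

lemma same_iff [Finite X] (p : Perm X) (x y : X) : p.SameCycle x y ↔ ∃ n : ℕ, (p ^ n) x = y :=
  ⟨fun h => let ⟨n, _, hn⟩ := h.exists_pow_eq'; ⟨n, hn⟩, fun ⟨n, hn⟩ => ⟨n, by simpa using hn⟩⟩

lemma per_two (p : Perm X) (x : X) : minimalPeriod p x = 2 ↔ p (p x) = x ∧ p x ≠ x :=
  minimalPeriod_eq_prime_iff (p := 2)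

lemma semi_pow {p : Perm X} {q : Perm Y} {θ : X → Y} (h : ∀ x, θ (p x) = q (θ x)) (n : ℕ) (x : X) :
    θ ((p ^ n) x) = (q ^ n) (θ x) := by
  induction n with
  | zero => rfl
  | succ n ih => rw [pow_succ', pow_succ', Perm.mul_apply, Perm.mul_apply, h, ih]

lemma semi_per {p : Perm X} {q : Perm Y} {θ : X → Y} (hθ : Injective θ)
    (h : ∀ x, θ (p x) = q (θ x)) (x : X) : minimalPeriod q (θ x) = minimalPeriod p x := by
  refine Nat.dvd_antisymm ?_ ?_
  · rw [← per_iff, ← semi_pow h, (per_iff p x _).2 dvd_rfl]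
  · rw [← per_iff]
    exact hθ (by rw [semi_pow h, (per_iff q _ _).2 dvd_rfl])

end General

section Cycles
variable {H J : Type} [Fintype H] [DecidableEq J] {σ : Perm H} {ρ : H → J} {u : J → ℕ}

lemma cyc_per (hc : Cyc σ ρ u) (x : H) : minimalPeriod σ x = u (ρ x) := by
  classical
  have h0 := minimalPeriod_pos_of_mem_periodicPts (σ.injective.mem_periodicPts x)
  rw [← hc.card, ← card_range (minimalPeriod σ x)]
  refine card_bij (fun i _ => (σ ^ i) x) (fun i _ => ?_) (fun i hi j hj h => ?_) fun y hy => ?_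
  · simp only [mem_filter, mem_univ, true_and]
    exact ((hc.same _ _).2 ((same_iff σ _ _).2 ⟨i, rfl⟩)).symm
  · rwa [pow_eq_iff, Nat.mod_eq_of_lt (mem_range.1 hi), Nat.mod_eq_of_lt (mem_range.1 hj)] at h
  · obtain ⟨n, rfl⟩ := (same_iff σ _ _).1 ((hc.same _ _).1 (mem_filter.1 hy).2.symm)
    exact ⟨n % minimalPeriod σ x, mem_range.2 (Nat.mod_lt _ h0),
      (pow_eq_iff σ x _ _).2 (Nat.mod_mod _ _)⟩

lemma cyc_base (hc : Cyc σ ρ u) : ∃ b : J → H, ∀ j, ρ (b j) = j := by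
  have : ∀ j, ∃ x, ρ x = j := fun j => by
    obtain ⟨x, hx⟩ := card_pos.1 (show 0 < #{x | ρ x = j} by rw [hc.card]; exact (hc.odd j).pos)
    exact ⟨x, (mem_filter.1 hx).2⟩
  choose b hb using this
  exact ⟨b, hb⟩

end Cycles

variable {N : ℕ}

/-- the side of type `i` or `i + 2` named by an oriented square -/
def hz (i : ZMod 4) (x : XS N) : Side N := (x.1, if x.2 then i else i + 2)

lemma rot_apply (x : Side N) : rot N x = (x.1, x.2 + 1) := rfl

lemma hz_io (i : ZMod 4) (x : XS N) : hz i (io N x) = rot N (rot N (hz i x)) := by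
  obtain ⟨s, b⟩ := x
  refine Prod.ext rfl ?_
  show (if (!b) then i else i + 2) = (if b then i else i + 2) + 1 + 1
  revert i b
  decide

lemma io_io (x : XS N) : io N (io N x) = x := Prod.ext rfl (Bool.not_not _)

lemma hz_snd (i : ZMod 4) (x : XS N) : (hz i x).2 = i ∨ (hz i x).2 = i + 2 := by
  obtain ⟨s, _ | _⟩ := x
  · exact Or.inr rfl
  · exact Or.inl rfl

lemma hz_inj (i : ZMod 4) : Injective (hz i : XS N → Side N) := by
  rintro ⟨s, b⟩ ⟨s', b'⟩ h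
  have h2 : (if b then i else i + 2) = if b' then i else i + 2 := congrArg Prod.snd h
  refine Prod.ext (congrArg Prod.fst h :) ?_
  show b = b'
  clear h
  revert i b b'
  decide

lemma hz_surj (i : ZMod 4) (y : Side N) (h : y.2 = i ∨ y.2 = i + 2) : ∃ x, hz i x = y := by
  obtain ⟨s, t⟩ := y
  rcases h with h | h
  · exact ⟨(s, true), Prod.ext rfl h.symm⟩
  · exact ⟨(s, false), Prod.ext rfl h.symm⟩

lemma hz_ne (i : ZMod 4) (x y : XS N) : rot N (hz i x) ≠ hz i y := by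
  intro h
  have h1 : (hz i x).2 + 1 = (hz i y).2 := congrArg Prod.snd h
  have key : ∀ i t t' : ZMod 4, t = i ∨ t = i + 2 → t' = i ∨ t' = i + 2 → t + 1 ≠ t' := by decide
  exact key i _ _ (hz_snd i x) (hz_snd i y) h1

lemma side_cases (i : ZMod 4) (x : Side N) : ∃ y, x = hz i y ∨ x = rot N (hz i y) := by
  obtain ⟨s, t⟩ := x
  have key : ∀ i t : ZMod 4, t = i ∨ t = i + 2 ∨ t = i + 1 ∨ t = i + 2 + 1 := by decide
  rcases key i t with h | h | h | h
  · exact ⟨(s, true), Or.inl (Prod.ext rfl h)⟩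
  · exact ⟨(s, false), Or.inl (Prod.ext rfl h)⟩
  · exact ⟨(s, true), Or.inr (Prod.ext rfl h)⟩
  · exact ⟨(s, false), Or.inr (Prod.ext rfl h)⟩

lemma restr (i : ZMod 4) (p : Perm (Side N))
    (hp : ∀ x, (p x).2 = x.2 ∨ (p x).2 = x.2 + 2) : ∃ a : Perm (XS N), ∀ x, hz i (a x) = p (hz i x) := by
  have key : ∀ i t t' : ZMod 4, t = i ∨ t = i + 2 → t' = t ∨ t' = t + 2 → t' = i ∨ t' = i + 2 := by
    decide
  choose a ha using fun x : XS N => hz_surj i (p (hz i x)) (key i _ _ (hz_snd i x) (hp _))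
  have hinj : Injective a := fun x y h => hz_inj i (p.injective (by rw [← ha, ← ha, h]))
  exact ⟨Equiv.ofBijective a (Finite.injective_iff_bijective.1 hinj), ha⟩

/-- the gluing `γ` corresponds to the pair `(a, f)` -/
def Corr (i : ZMod 4) (γ : Perm (Side N)) (a f : Perm (XS N)) : Prop :=
  (∀ x, hz i (a x) = γ (hz i x)) ∧ ∀ x, hz i (f x) = rot N (γ (rot N (hz i x)))

variable {i : ZMod 4} {γ γ' : Perm (Side N)} {a f a' f' : Perm (XS N)}

lemma exists_corr (i : ZMod 4) (h : IsGluing γ) : ∃ a f, Corr i γ a f := by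
  obtain ⟨a, ha⟩ := restr i γ fun x => (h x).2.2
  obtain ⟨f, hf⟩ := restr i (rot N * γ * rot N) fun x => by
    have key : ∀ t t' : ZMod 4, t' = t + 1 ∨ t' = t + 1 + 2 → t' + 1 = t ∨ t' + 1 = t + 2 := by
      decide
    exact key _ _ (h (rot N x)).2.2
  exact ⟨a, f, ha, hf⟩

lemma Corr.rot_hz (h : Corr i γ a f) (x : XS N) :
    γ (rot N (hz i x)) = rot N (hz i (io N (f x))) := by
  apply (rot N).injective
  rw [← h.2, ← hz_io, io_io]

lemma Corr.left_unique (h : Corr i γ a f) (h' : Corr i γ' a f) : γ = γ' := by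
  ext1 x
  obtain ⟨y, rfl | rfl⟩ := side_cases i x
  · rw [← h.1, h'.1]
  · rw [h.rot_hz, h'.rot_hz]

lemma Corr.right_unique (h : Corr i γ a f) (h' : Corr i γ a' f') : a = a' ∧ f = f' :=
  ⟨Equiv.ext fun x => hz_inj i (by rw [h.1, h'.1]), Equiv.ext fun x => hz_inj i (by rw [h.2, h'.2])⟩

lemma exists_glue (i : ZMod 4) (a f : Perm (XS N)) : ∃ γ, Corr i γ a f := by
  have hb : Bijective (Sum.elim (hz i) fun x => rot N (hz i x) : XS N ⊕ XS N → Side N) := by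
    constructor
    · rintro (x | x) (y | y) h
      · rw [hz_inj i h]
      · exact absurd h.symm (hz_ne i y x)
      · exact absurd h (hz_ne i x y)
      · rw [hz_inj i ((rot N).injective h)]
    · intro x
      obtain ⟨y, rfl | rfl⟩ := side_cases i x
      · exact ⟨.inl y, rfl⟩
      · exact ⟨.inr y, rfl⟩
  set E := Equiv.ofBijective _ hb with hE
  refine ⟨E.permCongr (Equiv.sumCongr a (io N * f)), fun x => ?_, fun x => ?_⟩
  · show _ = E.permCongr _ (E (.inl x))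
    rw [Equiv.permCongr_apply, symm_apply_apply]
    rfl
  · show _ = rot N (E.permCongr _ (E (.inr x)))
    rw [Equiv.permCongr_apply, symm_apply_apply]
    show _ = rot N (rot N (hz i (io N (f x))))
    rw [← hz_io, io_io]

lemma Corr.gluing_iff (h : Corr i γ a f) : IsGluing γ ↔ (∀ x, a (a x) = x) ∧ (∀ x, a x ≠ x) ∧
    (∀ x, io N (f (io N (f x))) = x) ∧ ∀ x, f x ≠ io N x := by
  constructor
  · intro hg
    refine ⟨fun x => hz_inj i (by rw [h.1, h.1, (hg _).1]), fun x hx => (hg (hz i x)).2.1 ?_,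
      fun x => hz_inj i ((rot N).injective ?_), fun x hx => (hg (rot N (hz i x))).2.1 ?_⟩
    · rw [← h.1, hx]
    · rw [← h.rot_hz, ← h.rot_hz, (hg _).1]
    · rw [h.rot_hz, hx, io_io]
  · rintro ⟨h1, h2, h3, h4⟩ x
    have key : ∀ i t t' : ZMod 4, t = i ∨ t = i + 2 → t' = i ∨ t' = i + 2 →
        (t' = t ∨ t' = t + 2) ∧ (t' + 1 = t + 1 ∨ t' + 1 = t + 1 + 2) := by decide
    obtain ⟨y, rfl | rfl⟩ := side_cases i x
    · rw [← h.1, ← h.1, h1]
      exact ⟨rfl, fun e => h2 y (hz_inj i e), (key i _ _ (hz_snd i _) (hz_snd i _)).1⟩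
    · rw [h.rot_hz, h.rot_hz, h3]
      refine ⟨rfl, fun e => h4 y ?_, (key i _ _ (hz_snd i _) (hz_snd i _)).2⟩
      rw [← hz_inj i ((rot N).injective e), io_io]
      rw [hz_inj i ((rot N).injective e)]

lemma Corr.conn_iff (h : Corr i γ a f) : IsConn γ ↔
    ∀ x y, Relation.EqvGen (fun p q => q = io N p ∨ q = a p ∨ q = f p) x y := by
  constructor
  · intro hg x y
    choose pr hpr using side_cases (N := N) i
    have e1 : ∀ x, pr (hz i x) = x := fun x =>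
      (hpr (hz i x)).elim (fun e => (hz_inj i e).symm) fun e => absurd e.symm (hz_ne i _ _)
    have e2 : ∀ x, pr (rot N (hz i x)) = x := fun x =>
      (hpr (rot N (hz i x))).elim (fun e => absurd e (hz_ne i _ _))
        fun e => (hz_inj i ((rot N).injective e)).symm
    rw [← e1 x, ← e1 y]
    refine eqv_map pr ?_ (hg (hz i x) (hz i y))
    rintro p _ (rfl | rfl) <;> obtain ⟨z, rfl | rfl⟩ := side_cases i p
    · rw [e1, e2]
      exact .refl _
    · rw [← hz_io, e1, e2]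
      exact .rel _ _ (Or.inl rfl)
    · rw [← h.1, e1, e1]
      exact .rel _ _ (Or.inr (Or.inl rfl))
    · rw [h.rot_hz, e2, e2]
      exact .trans _ _ _ (.rel _ _ (Or.inr (Or.inr rfl))) (.rel _ _ (Or.inl rfl))
  · intro hg x y
    have e1 : ∀ x : Side N, ∃ z, Relation.EqvGen (fun a b => b = rot N a ∨ b = γ a) (hz i z) x :=
      fun x => by
        obtain ⟨z, rfl | rfl⟩ := side_cases i x
        · exact ⟨z, .refl _⟩
        · exact ⟨z, .rel _ _ (Or.inl rfl)⟩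
    obtain ⟨x', hx⟩ := e1 x
    obtain ⟨y', hy⟩ := e1 y
    refine .trans _ _ _ (.symm _ _ hx) (.trans _ _ _ (eqv_map (hz i) ?_ (hg x' y')) hy)
    rintro p _ (rfl | rfl | rfl)
    · rw [hz_io]
      exact .trans _ _ _ (.rel _ _ (Or.inl rfl)) (.rel _ _ (Or.inl rfl))
    · exact .rel _ _ (Or.inr (h.1 p))
    · rw [h.2]
      exact .trans _ _ _ (.rel _ _ (Or.inl rfl))
        (.trans _ _ _ (.rel _ _ (Or.inr rfl)) (.rel _ _ (Or.inl rfl)))

lemma Corr.vert_hz (h : Corr i γ a f) (x : XS N) : vert γ (hz i x) = rot N (hz i (a x)) := by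
  rw [h.1]
  rfl

lemma Corr.vert_rot (h : Corr i γ a f) (x : XS N) : vert γ (rot N (hz i x)) = hz i (f x) :=
  (h.2 x).symm

lemma Corr.pow_even (h : Corr i γ a f) (k : ℕ) (x : XS N) :
    (vert γ ^ (2 * k)) (hz i x) = hz i (((f * a) ^ k) x) := by
  rw [pow_mul]
  refine (semi_pow (fun y => ?_) k x).symm
  rw [pow_two, Perm.mul_apply, Perm.mul_apply, h.vert_hz, h.vert_rot]

lemma Corr.pow_hz (h : Corr i γ a f) {n : ℕ} {x y : XS N} (e : (vert γ ^ n) (hz i x) = hz i y) :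
    ∃ k, n = 2 * k ∧ ((f * a) ^ k) x = y := by
  obtain ⟨k, rfl | rfl⟩ := Nat.even_or_odd' n
  · exact ⟨k, rfl, hz_inj i (by rw [← h.pow_even, e])⟩
  · rw [pow_succ', Perm.mul_apply, h.pow_even, h.vert_hz] at e
    exact absurd e (hz_ne i _ _)

lemma Corr.corners_hz (h : Corr i γ a f) (x : XS N) :
    corners γ (hz i x) = 2 * minimalPeriod (f * a) x := by
  refine Nat.dvd_antisymm ((per_iff _ _ _).1 ?_) ?_
  · rw [h.pow_even, (per_iff _ _ _).2 dvd_rfl]
  · obtain ⟨k, hk, e⟩ := h.pow_hz ((per_iff (vert γ) (hz i x) _).2 dvd_rfl)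
    unfold corners
    rw [hk]
    exact Nat.mul_dvd_mul_left 2 ((per_iff _ _ _).1 e)

lemma Corr.same_hz (h : Corr i γ a f) (x y : XS N) :
    (vert γ).SameCycle (hz i x) (hz i y) ↔ (f * a).SameCycle x y := by
  rw [same_iff, same_iff]
  constructor
  · rintro ⟨n, e⟩
    obtain ⟨k, -, e⟩ := h.pow_hz e
    exact ⟨k, e⟩
  · rintro ⟨k, rfl⟩
    exact ⟨2 * k, h.pow_even k x⟩

lemma Corr.four_iff (h : Corr i γ a f) (x : XS N) :
    corners γ (hz i x) = 4 ↔ f (a (f (a x))) = x ∧ f (a x) ≠ x := by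
  rw [h.corners_hz, show 2 * minimalPeriod (f * a) x = 4 ↔ minimalPeriod (f * a) x = 2 by omega,
    per_two]
  rfl

lemma Corr.to_hz (h : Corr i γ a f) (x : Side N) :
    ∃ y, (x = hz i y ∨ hz i y = vert γ x) ∧ corners γ (hz i y) = corners γ x := by
  obtain ⟨y, rfl | rfl⟩ := side_cases i x
  · exact ⟨y, Or.inl rfl, rfl⟩
  · refine ⟨f y, Or.inr (h.vert_rot y).symm, ?_⟩
    rw [← h.vert_rot]
    exact minimalPeriod_apply ((vert γ).injective.mem_periodicPts _)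

lemma Corr.to_hz' (h : Corr i γ a f) (x : Side N) :
    ∃ y, (vert γ).SameCycle x (hz i y) ∧ corners γ (hz i y) = corners γ x := by
  obtain ⟨y, e, e'⟩ := h.to_hz x
  refine ⟨y, ?_, e'⟩
  rcases e with e | e
  · rw [e]
  · rw [e]
    exact Perm.sameCycle_apply_right.2 (Perm.SameCycle.refl _ _)

variable {H : Type} [Fintype H] {σ : Perm H} {n : ℕ} {κ : Fin n → ℤ} {ρ : H → Fin n}
  {u : Fin n → ℕ} {θ θ' : H → XS N}

lemma exists_frame (hc : Cyc σ ρ u) (hκ : ∀ j, (u j : ℤ) = κ j + 2) (h : Corr i γ a f)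
    (hγ : InStratum κ γ) : ∃ θ, IsFr σ (a, f, θ) := by
  obtain ⟨hg, hconn, z, hz1, hz2, hz3⟩ := hγ
  obtain ⟨b, hb⟩ := cyc_base hc
  choose z' hz' hz'' using fun j => h.to_hz' (z j)
  have hper : ∀ j, minimalPeriod (f * a) (z' j) = minimalPeriod σ (b j) := fun j => by
    have e1 := hz1 j
    rw [← hz'' j, h.corners_hz, ← hκ] at e1
    rw [cyc_per hc, hb]
    omega
  choose e he using fun x => (same_iff σ _ _).1 ((hc.same (b (ρ x)) x).1 (hb _))
  have hρ : ∀ j k, ρ ((σ ^ k) (b j)) = j := fun j k =>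
    ((hc.same _ _).2 ((same_iff σ _ _).2 ⟨k, rfl⟩)).symm.trans (hb j)
  have key : ∀ j k, ((f * a) ^ e ((σ ^ k) (b j))) (z' (ρ ((σ ^ k) (b j)))) = ((f * a) ^ k) (z' j) :=
    fun j k => by
      have := he ((σ ^ k) (b j))
      rw [hρ] at this ⊢
      rwa [pow_eq_iff, hper, ← pow_eq_iff]
  obtain ⟨h1, h2, h3, h4⟩ := h.gluing_iff.1 hg
  refine ⟨fun x => ((f * a) ^ e x) (z' (ρ x)), h1, h2, h3, h4, h.conn_iff.1 hconn,
    fun x y hxy => ?_, fun x => ?_, fun x hx => ?_⟩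
  · have e1 : (f * a).SameCycle (z' (ρ x)) (z' (ρ y)) :=
      ((same_iff _ _ _).2 ⟨_, hxy⟩).trans ((same_iff _ _ _).2 ⟨_, rfl⟩).symm
    have e2 := hz2 _ _ (((hz' _).trans ((h.same_hz _ _).2 e1)).trans (hz' _).symm)
    have e3 : ((f * a) ^ e x) (z' (ρ x)) = ((f * a) ^ e y) (z' (ρ y)) := hxy
    rw [← e2, pow_eq_iff, hper, ← pow_eq_iff, he, e2, he] at e3
    exact e3
  · have e1 := key (ρ x) (e x + 1)
    rw [pow_succ' σ, Perm.mul_apply, he, pow_succ'] at e1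
    exact e1
  · refine (h.four_iff x).1 (by_contra fun h4 => hx ?_)
    obtain ⟨j, hj⟩ := hz3 _ h4
    obtain ⟨k, rfl⟩ := (same_iff _ _ _).1 ((h.same_hz _ _).1 (hj.trans (hz' j))).symm
    exact ⟨_, key j k⟩

lemma stratum_of_frame (hc : Cyc σ ρ u) (hκ : ∀ j, (u j : ℤ) = κ j + 2) (h : Corr i γ a f)
    (hT : IsFr σ (a, f, θ)) : InStratum κ γ := by
  obtain ⟨b, hb⟩ := cyc_base hc
  have hs : ∀ x, θ (σ x) = (f * a) (θ x) := hT.eqv
  refine ⟨h.gluing_iff.2 ⟨hT.aa, hT.ane, hT.ff, hT.fne⟩, h.conn_iff.2 hT.conn,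
    fun j => hz i (θ (b j)), fun j => ?_, fun j j' e => ?_, fun x hx => ?_⟩
  · rw [h.corners_hz, semi_per hT.inj hs, cyc_per hc, hb, ← hκ]
    push_cast
    ring
  · obtain ⟨k, hk⟩ := (same_iff _ _ _).1 ((h.same_hz _ _).1 e)
    rw [← semi_pow hs] at hk
    rw [← hb j, ← hb j']
    exact (hc.same _ _).2 ((same_iff _ _ _).2 ⟨k, hT.inj hk⟩)
  · obtain ⟨y, hy, hy'⟩ := h.to_hz' x
    obtain ⟨w, rfl⟩ : y ∈ Set.range θ :=
      by_contra fun hn => hx (hy' ▸ (h.four_iff y).2 (hT.reg y hn))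
    obtain ⟨k, hk⟩ := (same_iff σ _ _).1 ((hc.same w (b (ρ w))).1 (hb _).symm)
    exact ⟨ρ w, hy.trans ((h.same_hz _ _).2 ((same_iff _ _ _).2 ⟨k, by rw [← semi_pow hs, hk]⟩))⟩

omit [Fintype H] in
lemma frame_comp (hT : IsFr σ (a, f, θ)) {g : Perm H} (hg : g * σ = σ * g) :
    IsFr σ (a, f, θ ∘ g) := by
  refine ⟨hT.aa, hT.ane, hT.ff, hT.fne, hT.conn, hT.inj.comp g.injective, fun x => ?_,
    fun x hx => hT.reg x fun ⟨y, hy⟩ => hx ⟨g.symm y, by simpa using hy⟩⟩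
  have e : g (σ x) = σ (g x) := congrArg (fun p : Perm H => p x) hg
  show θ (g (σ x)) = _
  rw [e]
  exact hT.eqv (g x)

lemma frame_diff (hc : Cyc σ ρ u) (hT : IsFr σ (a, f, θ)) (hT' : IsFr σ (a, f, θ')) :
    ∃ g : Perm H, g * σ = σ * g ∧ θ' = θ ∘ g := by
  have hs : ∀ x, θ (σ x) = (f * a) (θ x) := hT.eqv
  have hs' : ∀ x, θ' (σ x) = (f * a) (θ' x) := hT'.eqv
  have : ∀ x, θ' x ∈ Set.range θ := fun x => by_contra fun hn => by
    have e1 : minimalPeriod (f * a) (θ' x) = 2 := (per_two _ _).2 (hT.reg _ hn)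
    rw [semi_per hT'.inj hs', cyc_per hc] at e1
    have := hc.odd (ρ x)
    rw [e1] at this
    exact absurd this (by decide)
  choose g hg using this
  have hinj : Injective g := fun x y e => hT'.inj (by
    show θ' x = θ' y
    rw [← hg, ← hg, e])
  refine ⟨Equiv.ofBijective g (Finite.injective_iff_bijective.1 hinj), Equiv.ext fun x => hT.inj ?_,
    funext fun x => (hg x).symm⟩
  show θ (g (σ x)) = θ (σ (g x))
  rw [hs, hg, hg, hs']

omit [Fintype H] in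
lemma oneLeaf_of (h : Corr i γ a f) (hT : IsFr σ (a, f, θ)) (hb : ¬ XBad (a, f, θ)) :
    OneLeaf i γ := by
  have hb' := not_not.1 hb
  have e1 : ∀ x, corners γ x ≠ 4 → ∃ w, Relation.EqvGen
      (fun a b => b = vert γ a ∨ ((a.2 = i ∨ a.2 = i + 2) ∧ b = γ a)) x (hz i (θ w)) :=
    fun x hx => by
      obtain ⟨y, hy, hy'⟩ := h.to_hz x
      obtain ⟨w, rfl⟩ : y ∈ Set.range θ :=
        by_contra fun hn => hx (hy' ▸ (h.four_iff y).2 (hT.reg y hn))
      refine ⟨w, ?_⟩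
      rcases hy with hy | hy
      · rw [hy]
        exact .refl _
      · exact .rel _ _ (Or.inl hy)
  intro x y hx hy
  obtain ⟨w, hw⟩ := e1 x hx
  obtain ⟨w', hw'⟩ := e1 y hy
  refine .trans _ _ _ hw (.trans _ _ _ (eqv_map (hz i) ?_ (hb' w w')) (.symm _ _ hw'))
  rintro p _ (rfl | rfl)
  · exact .rel _ _ (Or.inr ⟨hz_snd i p, h.1 p⟩)
  · refine .trans _ _ _ (.rel _ _ (Or.inr ⟨hz_snd i p, h.1 p⟩))
      (.trans _ _ _ (.rel _ _ (Or.inl rfl)) (.rel _ _ (Or.inl ?_)))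
    have e : a (a p) = p := hT.aa p
    rw [h.vert_hz, h.vert_rot, e]

omit [Fintype H] in
lemma autc_le (h : Corr i γ a f) (θ : H → XS N) : autc γ ≤ xautc (a, f, θ) := by
  choose r hr using fun g : {g : Perm (Side N) // IsRelabel g ∧ g * γ = γ * g} =>
    restr i g.1 g.2.1.2
  have e1 : ∀ (g : {g : Perm (Side N) // IsRelabel g ∧ g * γ = γ * g}) x,
      g.1 (rot N x) = rot N (g.1 x) := fun g x => congrArg (fun p : Perm (Side N) => p x) g.2.1.1
  have e2 : ∀ (g : {g : Perm (Side N) // IsRelabel g ∧ g * γ = γ * g}) x,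
      g.1 (γ x) = γ (g.1 x) := fun g x => congrArg (fun p : Perm (Side N) => p x) g.2.2
  refine Nat.card_le_card_of_injective (fun g => ⟨r g, Equiv.ext fun x => hz_inj i ?_,
    Equiv.ext fun x => hz_inj i ?_, Equiv.ext fun x => hz_inj i ?_⟩) fun g g' e => ?_
  · rw [Perm.mul_apply, Perm.mul_apply, hr, hz_io, hz_io, hr, e1, e1]
  · show hz i (r g (a x)) = hz i (a (r g x))
    rw [hr, h.1, h.1, hr, e2]
  · show hz i (r g (f x)) = hz i (f (r g x))
    rw [hr, h.2, h.2, hr, e1, e2, e1]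
  · have e3 : r g = r g' := congrArg Subtype.val e
    refine Subtype.ext (Equiv.ext fun x => ?_)
    obtain ⟨y, rfl | rfl⟩ := side_cases i x
    · rw [← hr, ← hr, e3]
    · rw [e1, e1, ← hr, ← hr, e3]

lemma count_le (hc : Cyc σ ρ u) (hκ : ∀ j, (u j : ℤ) = κ j + 2) (i : ZMod 4)
    (P : Perm (Side N) → Prop) (Q : Tri H N → Prop)
    (hPQ : ∀ γ a f θ, Corr i γ a f → IsFr σ (a, f, θ) → P γ → Q (a, f, θ)) :
    Nat.card {γ : Perm (Side N) // InStratum κ γ ∧ P γ} * zc σ ≤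
      Nat.card {T : Tri H N // IsFr σ T ∧ Q T} := by
  choose a f haf using fun γ : {γ : Perm (Side N) // InStratum κ γ ∧ P γ} => exists_corr i γ.2.1.1
  choose θ hθ using fun γ => exists_frame hc hκ (haf γ) γ.2.1
  unfold zc
  rw [← Nat.card_prod]
  refine Nat.card_le_card_of_injective (fun p => ⟨(a p.1, f p.1, θ p.1 ∘ p.2.1),
    frame_comp (hθ p.1) p.2.2, hPQ _ _ _ _ (haf p.1) (frame_comp (hθ p.1) p.2.2) p.1.2.2⟩) ?_
  rintro ⟨γ, g⟩ ⟨γ', g'⟩ e
  simp only [Subtype.mk.injEq, Prod.mk.injEq] at e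
  obtain rfl : γ = γ' := Subtype.ext ((haf γ).left_unique (e.1 ▸ e.2.1 ▸ haf γ'))
  exact Prod.ext rfl (Subtype.ext (Equiv.ext fun x => (hθ γ).inj (congrFun e.2.2 x)))

end Dart

open Dart

variable {H : Type} [Fintype H] [DecidableEq H] {σ : Perm H}
variable {n : ℕ} {κ : Fin n → ℤ} {ρ : H → Fin n} {u : Fin n → ℕ}

set_option linter.unusedSectionVars false

theorem dart1 (hc : Cyc σ ρ u) (hκ : ∀ j, (u j : ℤ) = κ j + 2) (N : ℕ) (i : ZMod 4) :
    Nat.card {γ : Perm (Side N) // InStratum κ γ ∧ ¬ OneLeaf i γ} * zc σ ≤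
      Nat.card {T : Tri H N // IsFr σ T ∧ XBad T} :=
  count_le hc hκ i _ _ fun _ _ _ _ h hT hP => by_contra fun hb => hP (oneLeaf_of h hT hb)

theorem dart2 (hc : Cyc σ ρ u) (hκ : ∀ j, (u j : ℤ) = κ j + 2) (N : ℕ) :
    Nat.card {T : Tri H N // IsFr σ T} ≤
      zc σ * Nat.card {γ : Perm (Side N) // InStratum κ γ} := by
  choose γ hγ using fun a f : Perm (XS N) => exists_glue 1 a f
  choose θ₀ hθ₀ using fun (a f : Perm (XS N)) (h : ∃ θ, IsFr σ (a, f, θ)) => h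
  choose g hg hg' using fun T : {T : Tri H N // IsFr σ T} =>
    frame_diff hc (hθ₀ T.1.1 T.1.2.1 ⟨T.1.2.2, T.2⟩) T.2
  unfold zc
  rw [← Nat.card_prod]
  refine Nat.card_le_card_of_injective (fun T => (⟨g T, hg T⟩,
    ⟨γ T.1.1 T.1.2.1, stratum_of_frame hc hκ (hγ _ _) T.2⟩)) ?_
  rintro ⟨⟨a, f, θ⟩, hT⟩ ⟨⟨a', f', θ'⟩, hT'⟩ e
  simp only [Subtype.mk.injEq, Prod.mk.injEq] at e
  obtain ⟨rfl, rfl⟩ := (hγ a f).right_unique (e.2 ▸ hγ a' f')
  have e1 := hg' ⟨_, hT⟩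
  rw [e.1] at e1
  exact Subtype.ext (Prod.ext rfl (Prod.ext rfl (e1.trans (hg' ⟨_, hT'⟩).symm)))

theorem dart3 (hc : Cyc σ ρ u) (hκ : ∀ j, (u j : ℤ) = κ j + 2) (N : ℕ) :
    Nat.card {γ : Perm (Side N) // InStratum κ γ ∧ 4 < autc γ} * zc σ ≤
      Nat.card {T : Tri H N // IsFr σ T ∧ 4 < xautc T} :=
  count_le hc hκ 1 _ _ fun _ _ _ θ h _ hP => hP.trans_le (autc_le h θ)

end Pool.Agent.STS
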