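import Mathlib

/-!
Square-tiled surfaces in strata of quadratic differentials: statement-level definitions.
-/

namespace Pool.Agent.STS
open Equiv

/-- The sides of `N` unit squares.  Side `(s, i)` of square `s` is the right, top, left, bottom
side for `i = 0, 1, 2, 3`; it is oriented counterclockwise along the boundary of its square and
also stands for the corner of the square at which it starts. -/
abbrev Side (N : ℕ) := Fin N × ZMod 4

/-- The next side of the same square, counterclockwise. -/
def rot (N : ℕ) : Perm (Side N) := Equiv.prodCongr (Equiv.refl _) (Equiv.addRight 1)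

variable {N : ℕ}

/-- `γ` glues the sides in pairs, a side `i` to a side `i + 2` (by a translation) or to a side
`i` (by a half-turn). -/
def IsGluing (γ : Perm (Side N)) : Prop :=
  ∀ x, γ (γ x) = x ∧ γ x ≠ x ∧ ((γ x).2 = x.2 ∨ (γ x).2 = x.2 + 2)

/-- The next corner around the same vertex of the surface: `γ x` ends where `x` starts, and
`rot (γ x)` starts there. -/
def vert (γ : Perm (Side N)) : Perm (Side N) := rot N * γ

/-- The number of square corners at the starting vertex of `x`; the cone angle there is this
number times `π / 2`, so the vertex is a singularity of order `k` iff the number is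
`2 (k + 2)`, and a regular point iff it is `4`. -/
noncomputable def corners (γ : Perm (Side N)) (x : Side N) : ℕ :=
  Function.minimalPeriod (vert γ) x

/-- The glued surface is connected. -/
def IsConn (γ : Perm (Side N)) : Prop :=
  ∀ x y, Relation.EqvGen (fun a b => b = rot N a ∨ b = γ a) x y

/-- `γ` is a connected square-tiled surface whose singularities are `n` distinct vertices of
orders `κ 0, …, κ (n - 1)`. -/
def InStratum {n : ℕ} (κ : Fin n → ℤ) (γ : Perm (Side N)) : Prop :=
  IsGluing γ ∧ IsConn γ ∧ ∃ z : Fin n → Side N,
    (∀ j, (corners γ (z j) : ℤ) = 2 * (κ j + 2)) ∧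
    (∀ j j', (vert γ).SameCycle (z j) (z j') → j = j') ∧
    ∀ x, corners γ x ≠ 4 → ∃ j, (vert γ).SameCycle x (z j)

/-- Any two singular vertices are joined by a path of sides of type `i` or `i + 2`: for `i = 1`
all singularities lie on one leaf of the horizontal foliation, for `i = 0` on one leaf of the
vertical foliation. -/
def OneLeaf (i : ZMod 4) (γ : Perm (Side N)) : Prop :=
  ∀ x y, corners γ x ≠ 4 → corners γ y ≠ 4 →
    Relation.EqvGen (fun a b => b = vert γ a ∨ ((a.2 = i ∨ a.2 = i + 2) ∧ b = γ a)) x y

/-- Relabellings: permute the squares and turn some of them by a half-turn. -/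
def IsRelabel (g : Perm (Side N)) : Prop :=
  g * rot N = rot N * g ∧ ∀ x, (g x).2 = x.2 ∨ (g x).2 = x.2 + 2

/-- Two gluings give the same square-tiled surface. -/
def Iso (γ γ' : Perm (Side N)) : Prop := ∃ g, IsRelabel g ∧ g * γ = γ' * g

/-- The number of square-tiled surfaces (isomorphism classes) with at most `N` squares and
property `P`. -/
noncomputable def numClasses (P : ∀ m, Perm (Side m) → Prop) (N : ℕ) : ℕ :=
  ∑ m ∈ Finset.range (N + 1),
    Nat.card (Quot fun a b : {γ : Perm (Side m) // P m γ} => Iso a.1 b.1)

/-- The same count with weight `1 / |Aut|`: labelled gluings divided by the number `2 ^ m m!`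
of relabellings. -/
noncomputable def mass (P : ∀ m, Perm (Side m) → Prop) (N : ℕ) : ℝ :=
  ∑ m ∈ Finset.range (N + 1),
    (Nat.card {γ : Perm (Side m) // P m γ} : ℝ) / (2 ^ m * m.factorial)

end Pool.Agent.STS
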