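import Pool.Agent.P.MP_bb7f8f_gt.Mid

/-! Row EST: the two sums over strict partitions. -/

namespace Pool.Agent.STS
open Equiv Finset Filter

namespace Est

/-! ### Double factorials -/

theorem fact_up (n : ℕ) (hn : 1 ≤ n) :
    (n.factorial : ℝ) ≤ Real.exp 1 * √n * (n / Real.exp 1) ^ n := by
  obtain ⟨m, rfl⟩ : ∃ m, n = m + 1 := ⟨n - 1, by omega⟩
  have h := Stirling.stirlingSeq'_antitone (Nat.zero_le m)
  simp only [Function.comp, Nat.succ_eq_add_one, zero_add, Stirling.stirlingSeq_one] at h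
  unfold Stirling.stirlingSeq at h
  have h2 : (0 : ℝ) < √2 := by positivity
  have hp : (0 : ℝ) < √(2 * ((m + 1 : ℕ) : ℝ)) * (((m + 1 : ℕ) : ℝ) / Real.exp 1) ^ (m + 1) := by
    positivity
  rw [div_le_iff₀ hp, Real.sqrt_mul (by norm_num)] at h
  refine h.trans (le_of_eq ?_)
  field_simp

theorem exp_le : Real.exp 1 ≤ 2 * √Real.pi := by
  have h1 : Real.exp 1 ≤ 3 := by have := Real.exp_one_lt_d9; linarith
  have h2 : (3 / 2 : ℝ) ≤ √Real.pi := by
    apply Real.le_sqrt_of_sq_le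
    have := Real.pi_gt_three
    linarith
  linarith

theorem fact_split (R : ℕ) (hR : 1 ≤ R) :
    (((2 * R).factorial : ℕ) : ℝ) = 2 ^ R * R.factorial * ((2 * R - 1).doubleFactorial : ℝ) := by
  have h := Nat.factorial_eq_mul_doubleFactorial (2 * R - 1)
  rw [show 2 * R - 1 + 1 = 2 * R by omega, Nat.doubleFactorial_two_mul] at h
  rw [h]
  push_cast
  ring

theorem pow_two_mul (R : ℕ) : ((((2 * R : ℕ) : ℝ)) / Real.exp 1) ^ (2 * R) =
    (2 ^ R * ((R : ℝ) / Real.exp 1) ^ R) ^ 2 := by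
  rw [← mul_pow, ← pow_mul, mul_comm R 2]
  push_cast
  rw [mul_div_assoc]

theorem df_up (R : ℕ) (hR : 1 ≤ R) :
    ((2 * R - 1).doubleFactorial : ℝ) ≤ 2 * (2 * R / Real.exp 1) ^ R := by
  have h1 := fact_up (2 * R) (by omega)
  rw [fact_split R hR, pow_two_mul] at h1
  have h2 := Stirling.le_factorial_stirling R
  have hs : √(2 * Real.pi * R) = √Real.pi * √((2 * R : ℕ) : ℝ) := by
    rw [← Real.sqrt_mul Real.pi_pos.le]
    congr 1
    push_cast
    ring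
  rw [hs] at h2
  rw [mul_div_assoc, mul_pow]
  have hR' : (0 : ℝ) < R := by exact_mod_cast hR
  set a := ((R : ℝ) / Real.exp 1) ^ R with ha
  have ha0 : 0 < a := by positivity
  set s := √((2 * R : ℕ) : ℝ) with hs'
  have hs0 : 0 < s := by positivity
  set X := ((2 * R - 1).doubleFactorial : ℝ)
  have hX : 0 ≤ X := by positivity
  have hp : 0 < √Real.pi := by have := Real.pi_pos; positivity
  have e1 : 2 ^ R * (√Real.pi * s * a) * X ≤ 2 ^ R * R.factorial * X := by gcongr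
  have e2 : Real.exp 1 * s * (2 ^ R * a) ^ 2 ≤ 2 * √Real.pi * s * (2 ^ R * a) ^ 2 := by
    have := exp_le
    gcongr
  have e3 : (2 ^ R * (√Real.pi * s * a)) * X ≤ (2 ^ R * (√Real.pi * s * a)) * (2 * (2 ^ R * a)) := by
    calc _ ≤ _ := e1.trans (h1.trans e2)
      _ = _ := by ring
  exact le_of_mul_le_mul_left e3 (by positivity)

theorem df_low (R : ℕ) (hR : 1 ≤ R) :
    (2 * R / Real.exp 1) ^ R ≤ ((2 * R - 1).doubleFactorial : ℝ) := by
  have h1 := Stirling.le_factorial_stirling (2 * R)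
  rw [fact_split R hR, pow_two_mul] at h1
  have h2 := fact_up R hR
  have hs : √(2 * Real.pi * ((2 * R : ℕ) : ℝ)) = 2 * √Real.pi * √(R : ℝ) := by
    rw [show 2 * Real.pi * ((2 * R : ℕ) : ℝ) = 2 ^ 2 * (Real.pi * R) by push_cast; ring,
      Real.sqrt_mul (by norm_num), Real.sqrt_sq (by norm_num), Real.sqrt_mul Real.pi_pos.le]
    ring
  rw [hs] at h1
  rw [mul_div_assoc, mul_pow]
  have hR' : (0 : ℝ) < R := by exact_mod_cast hR
  set a := ((R : ℝ) / Real.exp 1) ^ R with ha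
  have ha0 : 0 < a := by positivity
  set s := √(R : ℝ) with hs'
  have hs0 : 0 < s := by positivity
  set X := ((2 * R - 1).doubleFactorial : ℝ)
  have hX : 0 ≤ X := by positivity
  have he := Real.exp_pos 1
  have e1 : 2 ^ R * R.factorial * X ≤ 2 ^ R * (Real.exp 1 * s * a) * X := by gcongr
  have e2 : Real.exp 1 * s * (2 ^ R * a) ^ 2 ≤ 2 * √Real.pi * s * (2 ^ R * a) ^ 2 := by
    have := exp_le
    gcongr
  have e3 : (2 ^ R * (Real.exp 1 * s * a)) * (2 ^ R * a) ≤ (2 ^ R * (Real.exp 1 * s * a)) * X := by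
    calc _ = _ := by ring
      _ ≤ _ := e2.trans (h1.trans e1)
  exact le_of_mul_le_mul_left e3 (by positivity)

theorem DF_single (N : ℕ) : DF {N} = ((2 * N - 1).doubleFactorial : ℝ) := by
  simp [DF]

theorem DF_nonneg (A : Finset ℕ) : 0 ≤ DF A := by
  unfold DF
  positivity

theorem DF_shift (D d : ℕ) (h : 2 * d ≤ D) : DF {D - d} * (D : ℝ) ^ d ≤ DF {D} := by
  induction d with
  | zero => simp
  | succ d ih =>
    refine le_trans ?_ (ih (by omega))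
    rw [DF_single, DF_single, pow_succ]
    have e : 2 * (D - d) - 1 = (2 * (D - (d + 1)) - 1) + 2 := by omega
    rw [e, Nat.doubleFactorial_add_two]
    have : (D : ℝ) ≤ ((2 * (D - (d + 1)) - 1 + 2 : ℕ) : ℝ) := by
      exact_mod_cast (by omega : D ≤ 2 * (D - (d + 1)) - 1 + 2)
    rw [Nat.cast_mul]
    calc _ = (D : ℝ) * (((2 * (D - (d + 1)) - 1).doubleFactorial : ℝ) * (D : ℝ) ^ d) := by ring
      _ ≤ ((2 * (D - (d + 1)) - 1 + 2 : ℕ) : ℝ) *
          (((2 * (D - (d + 1)) - 1).doubleFactorial : ℝ) * (D : ℝ) ^ d) := by gcongr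
      _ = _ := by ring

/-! ### The weights -/

noncomputable def xx (N R : ℕ) : ℝ := ((R : ℝ) / N) ^ ((1 : ℝ) / 6)

noncomputable def uu (N R : ℕ) : ℝ := xx N R ^ 2

noncomputable def hh (L : ℝ) (N R : ℕ) : ℝ :=
  2 * R * (100 / 97 : ℝ) ^ R * L ^ (min R (Nat.sqrt (2 * N))) * xx N R ^ R

noncomputable def GG (N : ℕ) (B : Finset ℕ) : ℝ := ∏ R ∈ B, xx N R ^ R

theorem xx_nonneg (N R : ℕ) : 0 ≤ xx N R := by unfold xx; positivity

theorem xx_pos {N R : ℕ} (hN : 1 ≤ N) (hR : 1 ≤ R) : 0 < xx N R := by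
  have h1 : (0 : ℝ) < N := by exact_mod_cast hN
  have h2 : (0 : ℝ) < R := by exact_mod_cast hR
  unfold xx
  positivity

theorem xx_six (N R : ℕ) : xx N R ^ 6 = (R : ℝ) / N := by
  unfold xx
  rw [← Real.rpow_natCast, ← Real.rpow_mul (by positivity)]
  norm_num

theorem xx_le {N R : ℕ} {c : ℝ} (hc : 0 ≤ c) (h : (R : ℝ) / N ≤ c ^ 6) : xx N R ≤ c := by
  rw [← xx_six] at h
  exact (pow_le_pow_iff_left₀ (xx_nonneg N R) hc (by norm_num)).1 h

theorem xx_le_one {N R : ℕ} (h : R ≤ N) : xx N R ≤ 1 := by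
  apply xx_le zero_le_one
  rw [one_pow]
  exact div_le_one_of_le₀ (by exact_mod_cast h) (by positivity)

theorem xx_half {N R : ℕ} (h : 2 * R ≤ N) : xx N R ≤ 0.891 := by
  apply xx_le (by norm_num)
  have h1 : (R : ℝ) / N ≤ 1 / 2 := by
    apply div_le_of_le_mul₀ (by positivity) (by norm_num)
    have : ((2 * R : ℕ) : ℝ) ≤ N := by exact_mod_cast h
    push_cast at this
    linarith
  refine h1.trans (by norm_num)

theorem uu_pos {N R : ℕ} (hN : 1 ≤ N) (hR : 1 ≤ R) : 0 < uu N R := by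
  have := xx_pos hN hR
  unfold uu
  positivity

theorem hh_nonneg {L : ℝ} (hL : 0 ≤ L) (N R : ℕ) : 0 ≤ hh L N R := by
  have := xx_nonneg N R
  unfold hh
  positivity

theorem GG_nonneg (N : ℕ) (B : Finset ℕ) : 0 ≤ GG N B :=
  prod_nonneg fun R _ => pow_nonneg (xx_nonneg N R) _

theorem GG_le_one {N : ℕ} {B : Finset ℕ} (h : ∀ R ∈ B, R ≤ N) : GG N B ≤ 1 :=
  prod_le_one (fun R _ => pow_nonneg (xx_nonneg N R) _)
    fun R hR => pow_le_one₀ (xx_nonneg N R) (xx_le_one (h R hR))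

theorem row {N R : ℕ} (hN : 1 ≤ N) (hR : 1 ≤ R) :
    (uu N R)⁻¹ ^ (2 * R) * ((2 * R - 1).doubleFactorial : ℝ) ≤
      2 * (2 * N / Real.exp 1) ^ R * (xx N R ^ R * xx N R ^ R) := by
  have hx := xx_pos hN hR
  have hN' : (0 : ℝ) < N := by exact_mod_cast hN
  have e : (2 * R / Real.exp 1 : ℝ) = 2 * N / Real.exp 1 * xx N R ^ 6 := by
    rw [xx_six]
    field_simp
  have hu := uu_pos hN hR
  refine (mul_le_mul_of_nonneg_left (df_up R hR) (by positivity)).trans (le_of_eq ?_)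
  rw [e, mul_pow, ← pow_mul, uu, inv_pow, ← pow_mul]
  have : xx N R ^ (6 * R) = xx N R ^ (2 * (2 * R)) * (xx N R ^ R * xx N R ^ R) := by
    rw [← pow_add, ← pow_add]
    congr 1
    ring
  rw [this]
  field_simp

theorem hh_le (L : ℝ) (hL : 1 ≤ L) :
    ∃ N₀ : ℕ, ∀ N ≥ N₀, ∀ R, 1 ≤ R → 2 * R ≤ N → hh L N R ≤ 0.96 ^ R := by
  obtain ⟨P, hP⟩ := exists_nat_ge ((4 * L) ^ 6)
  obtain ⟨n, hn⟩ := pow_unbounded_of_one_lt (4 * L) (by norm_num : (1 : ℝ) < 1.045)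
  refine ⟨(2 * n * P) ^ 2, fun N hN R hR hRN => ?_⟩
  have hx0 := xx_nonneg N R
  have hN' : (0 : ℝ) < N := by exact_mod_cast (by omega : 0 < N)
  rcases le_or_gt (R * P) N with h | h
  · have hx : xx N R ≤ (4 * L)⁻¹ := by
      apply xx_le (by positivity)
      rw [inv_pow, div_le_iff₀ hN', ← div_eq_inv_mul, le_div_iff₀ (by positivity)]
      have : ((R * P : ℕ) : ℝ) ≤ N := by exact_mod_cast h
      push_cast at this
      exact le_trans (by gcongr) this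
    have h1 : (2 * R : ℝ) ≤ 2 ^ R := by
      have : 2 * R ≤ 2 ^ R := by
        obtain ⟨m, rfl⟩ : ∃ m, R = m + 1 := ⟨R - 1, by omega⟩
        have : m < 2 ^ m := Nat.lt_two_pow_self
        rw [pow_succ]
        omega
      exact_mod_cast this
    have h2 : L ^ (min R (Nat.sqrt (2 * N))) ≤ L ^ R := pow_le_pow_right₀ hL (min_le_left _ _)
    calc hh L N R ≤ 2 ^ R * (100 / 97 : ℝ) ^ R * L ^ R * ((4 * L)⁻¹) ^ R := by
          unfold hh
          gcongr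
      _ = (2 * (100 / 97) * L * (4 * L)⁻¹) ^ R := by rw [mul_pow, mul_pow, mul_pow]
      _ ≤ 0.96 ^ R := by
          apply pow_le_pow_left₀ (by positivity)
          have : (2 * (100 / 97) * L * (4 * L)⁻¹ : ℝ) = 50 / 97 := by field_simp; norm_num
          rw [this]
          norm_num
  · set T := Nat.sqrt (2 * N) with hT
    have t1 : T * T ≤ 2 * N := Nat.sqrt_le (2 * N)
    have t2 : 2 * N < (T + 1) * (T + 1) := Nat.lt_succ_sqrt (2 * N)
    have t3 : 2 * n * P ≤ T := by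
      rw [hT, Nat.le_sqrt']
      omega
    have t4 : n * T ≤ R := by
      have e1 : (2 * n * P) * T ≤ T * T := Nat.mul_le_mul_right _ t3
      have e2 : (n * T) * (2 * P) < R * (2 * P) := by nlinarith
      exact (Nat.lt_of_mul_lt_mul_right e2).le
    have t5 : (2 * R : ℝ) ≤ 4 ^ T := by
      have e1 : T + 1 ≤ 2 ^ T := Nat.lt_two_pow_self
      have e2 : (T + 1) * (T + 1) ≤ 2 ^ T * 2 ^ T := Nat.mul_le_mul e1 e1
      rw [← mul_pow, show 2 * 2 = 4 from rfl] at e2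
      have : 2 * R ≤ 4 ^ T := by omega
      exact_mod_cast this
    have h2 : L ^ (min R T) ≤ L ^ T := pow_le_pow_right₀ hL (min_le_right _ _)
    have h3 : (4 * L) ^ T ≤ (1.045 : ℝ) ^ R := by
      calc (4 * L) ^ T ≤ ((1.045 : ℝ) ^ n) ^ T := by gcongr
        _ = 1.045 ^ (n * T) := by rw [pow_mul]
        _ ≤ _ := pow_le_pow_right₀ (by norm_num) t4
    have hx := xx_half hRN
    calc hh L N R ≤ 4 ^ T * (100 / 97 : ℝ) ^ R * L ^ T * 0.891 ^ R := by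
          unfold hh
          gcongr
      _ = (4 * L) ^ T * ((100 / 97 : ℝ) ^ R * 0.891 ^ R) := by rw [mul_pow]; ring
      _ ≤ 1.045 ^ R * ((100 / 97 : ℝ) ^ R * 0.891 ^ R) := by gcongr
      _ = (1.045 * ((100 / 97 : ℝ) * 0.891)) ^ R := by rw [mul_pow, mul_pow]
      _ ≤ 0.96 ^ R := pow_le_pow_left₀ (by norm_num) (by norm_num) _

theorem geo (n : ℕ) : ∑ R ∈ Icc 1 n, (0.96 : ℝ) ^ R ≤ 24 := by
  have : ∑ R ∈ Icc 1 n, (0.96 : ℝ) ^ R = 24 - 24 * 0.96 ^ n := by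
    induction n with
    | zero => simp
    | succ n ih =>
      rw [Finset.sum_Icc_succ_top (by omega), ih, pow_succ]
      ring
  rw [this]
  have : (0 : ℝ) ≤ 0.96 ^ n := by positivity
  linarith

theorem hh_sum (L : ℝ) (hL : 1 ≤ L) : ∃ N₀ : ℕ, ∀ N ≥ N₀,
    ∑ B ∈ (Icc 1 (N / 2)).powerset, ∏ R ∈ B, hh L N R ≤ Real.exp 24 := by
  obtain ⟨N₀, h⟩ := hh_le L hL
  refine ⟨N₀, fun N hN => ?_⟩
  rw [← Finset.prod_one_add]
  refine (Real.prod_one_add_le_exp_sum _ fun R => hh_nonneg (by linarith) N R).trans ?_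
  refine Real.exp_le_exp.2 (le_trans (sum_le_sum fun R hR => ?_) (geo (N / 2)))
  rw [mem_Icc] at hR
  exact h N hN R hR.1 (by omega)

theorem gain_row : ∃ N₀ : ℕ, ∀ N ≥ N₀, ∀ R, 2 * R ≤ N →
    (xx N R ^ R) ^ 12 ≤ ((N : ℝ)⁻¹) ^ (min R 24) := by
  have ht := tendsto_pow_const_mul_const_pow_of_abs_lt_one 4 (r := (0.891 : ℝ))
    (by rw [abs_of_pos] <;> norm_num)
  obtain ⟨R₀, hR₀⟩ := eventually_atTop.1 (ht.eventually (eventually_le_nhds zero_lt_one))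
  refine ⟨R₀ ^ 2 + 1, fun N hN R hRN => ?_⟩
  have hN1 : (1 : ℝ) ≤ N := by exact_mod_cast (by omega : 1 ≤ N)
  have hx0 := xx_nonneg N R
  have hi : (N : ℝ)⁻¹ ≤ 1 := inv_le_one_of_one_le₀ hN1
  rcases le_or_gt (R ^ 2) N with h | h
  · have e1 : xx N R ^ 12 ≤ (N : ℝ)⁻¹ := by
      rw [show 12 = 6 * 2 by norm_num, pow_mul, xx_six, div_pow, div_le_iff₀ (by positivity)]
      have : ((R ^ 2 : ℕ) : ℝ) ≤ N := by exact_mod_cast h
      push_cast at this
      refine this.trans (le_of_eq ?_)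
      field_simp
    rw [← pow_mul, mul_comm, pow_mul]
    calc _ ≤ ((N : ℝ)⁻¹) ^ R := by gcongr
      _ ≤ _ := pow_le_pow_of_le_one (by positivity) hi (min_le_left _ _)
  · have hR : R₀ ≤ R := by nlinarith
    have e1 := hR₀ R hR
    have e2 : (N : ℝ) ^ 2 ≤ (R : ℝ) ^ 4 := by
      have : (N : ℝ) ≤ ((R ^ 2 : ℕ) : ℝ) := by exact_mod_cast h.le
      push_cast at this
      calc (N : ℝ) ^ 2 ≤ ((R : ℝ) ^ 2) ^ 2 := by gcongr
        _ = _ := by ring
    have e3 : (0.891 : ℝ) ^ R ≤ ((N : ℝ)⁻¹) ^ 2 := by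
      rw [inv_pow, ← one_div, le_div_iff₀ (by positivity)]
      calc (0.891 : ℝ) ^ R * N ^ 2 ≤ 0.891 ^ R * R ^ 4 := by gcongr
        _ ≤ 1 := by rw [mul_comm]; exact e1
    have hx := xx_half hRN
    calc _ ≤ (((N : ℝ)⁻¹) ^ 2) ^ 12 := by
          gcongr
          exact (pow_le_pow_left₀ hx0 hx _).trans e3
      _ = ((N : ℝ)⁻¹) ^ 24 := by rw [← pow_mul]
      _ ≤ _ := pow_le_pow_of_le_one (by positivity) hi (min_le_right _ _)

theorem min_sum (B : Finset ℕ) (c : ℕ) : min (∑ R ∈ B, R) c ≤ ∑ R ∈ B, min R c := by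
  induction B using Finset.induction_on with
  | empty => simp
  | insert a B ha ih =>
    rw [sum_insert ha, sum_insert ha]
    omega

theorem gain : ∃ N₀ : ℕ, ∀ N ≥ N₀, ∀ B : Finset ℕ, (∀ R ∈ B, 2 * R ≤ N) →
    GG N B ^ 12 ≤ ((N : ℝ)⁻¹) ^ (min (∑ R ∈ B, R) 24) := by
  obtain ⟨N₀, h⟩ := gain_row
  refine ⟨N₀ + 1, fun N hN B hB => ?_⟩
  have hN1 : (1 : ℝ) ≤ N := by exact_mod_cast (by omega : 1 ≤ N)
  unfold GG
  rw [← Finset.prod_pow]
  calc _ ≤ ∏ R ∈ B, ((N : ℝ)⁻¹) ^ (min R 24) :=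
        prod_le_prod (fun R _ => pow_nonneg (pow_nonneg (xx_nonneg N R) _) _)
          fun R hR => h N (by omega) R (hB R hR)
    _ = ((N : ℝ)⁻¹) ^ (∑ R ∈ B, min R 24) := prod_pow_eq_pow_sum _ _ _
    _ ≤ _ := pow_le_pow_of_le_one (by positivity) (inv_le_one_of_one_le₀ hN1) (min_sum B 24)

/-! ### Strict partitions -/

theorem sq_le_min (k : ℕ) (B : Finset ℕ) (hB : ∀ R ∈ B, 1 ≤ R) (hk : #B ≤ k) :
    #B * (#B + 1) ≤ 2 * ∑ R ∈ B, min R k := by
  induction B using Finset.induction_on_max with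
  | empty => simp
  | insert a B ha ih =>
    have hna : a ∉ B := fun h => lt_irrefl _ (ha a h)
    rw [card_insert_of_notMem hna] at hk ⊢
    rw [sum_insert hna]
    have h1 := ih (fun R hR => hB R (mem_insert_of_mem hR)) (by omega)
    have h2 : #B ≤ #(Ico 1 a) := card_le_card fun R hR =>
      mem_Ico.2 ⟨hB R (mem_insert_of_mem hR), ha R hR⟩
    have h3 := hB a (mem_insert_self _ _)
    rw [Nat.card_Ico] at h2
    have h4 : #B + 1 ≤ min a k := by omega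
    nlinarith

theorem sq_le (N : ℕ) (B : Finset ℕ) (hB : ∀ R ∈ B, 1 ≤ R) (hs : ∑ R ∈ B, R ≤ N) :
    #B ^ 2 ≤ 2 * ∑ R ∈ B, min R (Nat.sqrt (2 * N)) := by
  have h1 := sq_le_min (#B) B hB le_rfl
  have h2 : ∑ R ∈ B, min R (#B) ≤ ∑ R ∈ B, R := sum_le_sum fun R _ => min_le_left _ _
  have h3 : #B ≤ Nat.sqrt (2 * N) := by
    rw [Nat.le_sqrt']
    nlinarith
  have h4 := sq_le_min _ B hB h3
  nlinarith

theorem K_le (K : ℝ) (hK : 1 ≤ K) (N : ℕ) (B : Finset ℕ) (hB : ∀ R ∈ B, 1 ≤ R)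
    (hs : ∑ R ∈ B, R ≤ N) :
    K ^ (#B ^ 2) ≤ ∏ R ∈ B, (K ^ 2) ^ (min R (Nat.sqrt (2 * N))) := by
  rw [prod_pow_eq_pow_sum, ← pow_mul]
  exact pow_le_pow_right₀ hK (sq_le N B hB hs)

theorem mem_SP {n : ℕ} {A : Finset ℕ} (h : A ∈ SP n) :
    (∀ R ∈ A, 1 ≤ R ∧ R ≤ n) ∧ ∑ R ∈ A, R = n := by
  rw [SP, mem_filter, mem_powerset] at h
  exact ⟨fun R hR => mem_Icc.1 (h.1 hR), h.2⟩

theorem sup_mem {n : ℕ} (hn : 1 ≤ n) {A : Finset ℕ} (h : A ∈ SP n) : A.sup id ∈ A := by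
  have hne : A.Nonempty := by
    rw [nonempty_iff_ne_empty]
    rintro rfl
    have := (mem_SP h).2
    simp at this
    omega
  obtain ⟨a, ha, e⟩ := exists_mem_eq_sup A hne id
  rw [e]
  exact ha

theorem sum_erase {n : ℕ} (hn : 1 ≤ n) {A : Finset ℕ} (h : A ∈ SP n) :
    A.sup id + ∑ R ∈ A.erase (A.sup id), R = n := by
  rw [add_sum_erase A (fun R => R) (sup_mem hn h), (mem_SP h).2]

theorem erase_half {n : ℕ} (hn : 1 ≤ n) {A : Finset ℕ} (h : A ∈ SP n) :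
    ∀ R ∈ A.erase (A.sup id), 1 ≤ R ∧ 2 * R ≤ n := by
  intro R hR
  have h1 := sum_erase hn h
  have h2 : R ≤ ∑ R ∈ A.erase (A.sup id), R :=
    single_le_sum (f := fun R => R) (fun _ _ => Nat.zero_le _) hR
  have h3 : R ≤ A.sup id := le_sup (f := id) (mem_of_mem_erase hR)
  exact ⟨((mem_SP h).1 R (mem_of_mem_erase hR)).1, by omega⟩

theorem sum_SP_erase {n N : ℕ} (hn : 1 ≤ n) (hN : n ≤ N) (f : ℕ → ℝ) (hf : ∀ R, 0 ≤ f R) :
    ∑ A ∈ SP n, ∏ R ∈ A.erase (A.sup id), f R ≤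
      ∑ B ∈ (Icc 1 (N / 2)).powerset, ∏ R ∈ B, f R := by
  rw [← sum_image (s := SP n) (g := fun A => A.erase (A.sup id)) (f := fun B => ∏ R ∈ B, f R)]
  · refine sum_le_sum_of_subset_of_nonneg (fun B hB => ?_) fun B _ _ => prod_nonneg fun R _ => hf R
    obtain ⟨A, hA, rfl⟩ := mem_image.1 hB
    refine mem_powerset.2 fun R hR => ?_
    have := erase_half hn hA R hR
    exact mem_Icc.2 ⟨this.1, by omega⟩
  · intro A hA A' hA' e
    have e' : A.erase (A.sup id) = A'.erase (A'.sup id) := e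
    have h1 := sum_erase hn hA
    have h2 := sum_erase hn hA'
    rw [e'] at h1
    have h3 : A.sup id = A'.sup id := by omega
    rw [← insert_erase (sup_mem hn hA), ← insert_erase (sup_mem hn hA'), e', h3]

theorem sum_SP {n N : ℕ} (hN : 2 * n ≤ N) (f : ℕ → ℝ) (hf : ∀ R, 0 ≤ f R) :
    ∑ A ∈ SP n, ∏ R ∈ A, f R ≤ ∑ B ∈ (Icc 1 (N / 2)).powerset, ∏ R ∈ B, f R := by
  refine sum_le_sum_of_subset_of_nonneg (fun B hB => ?_) fun B _ _ => prod_nonneg fun R _ => hf R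
  refine mem_powerset.2 fun R hR => ?_
  have := (mem_SP hB).1 R hR
  exact mem_Icc.2 ⟨this.1, by omega⟩

/-! ### The vertex factors -/

theorem usum_three {N : ℕ} {A : Finset ℕ} (hA : ∀ R ∈ A, R ≤ N) {e : ℕ} (he : 3 ≤ e) :
    ∑ R ∈ A, uu N R ^ e ≤ ((∑ R ∈ A, R : ℕ) : ℝ) / N := by
  rw [Nat.cast_sum, sum_div]
  refine sum_le_sum fun R hR => ?_
  rw [← xx_six, uu, ← pow_mul]
  exact pow_le_pow_of_le_one (xx_nonneg N R) (xx_le_one (hA R hR)) (by omega)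

theorem usum_card {N : ℕ} {A : Finset ℕ} (hA : ∀ R ∈ A, R ≤ N) (e : ℕ) :
    ∑ R ∈ A, uu N R ^ e ≤ #A := by
  rw [card_eq_sum_ones, Nat.cast_sum]
  refine sum_le_sum fun R hR => ?_
  rw [uu, ← pow_mul, Nat.cast_one]
  exact pow_le_one₀ (xx_nonneg N R) (xx_le_one (hA R hR))

theorem usum_nonneg (N : ℕ) (A : Finset ℕ) (e : ℕ) : 0 ≤ ∑ R ∈ A, uu N R ^ e :=
  sum_nonneg fun R _ => by unfold uu; positivity

theorem vprod {J : Type} [Fintype J] [DecidableEq J] (v : J → ℕ) (hv : ∀ j, Odd (v j)) {M : ℕ}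
    (hM : #{j | v j = 1} ≤ M) (V : Finset J) (f : J → ℝ) {r : ℝ} (hr : 1 ≤ r)
    (h0 : ∀ j, 0 ≤ f j) (h1 : ∀ j, f j ≤ r) (h3 : ∀ j, 3 ≤ v j → f j ≤ 1) :
    ∏ j ∈ V, f j ≤ r ^ M := by
  calc ∏ j ∈ V, f j ≤ ∏ j ∈ V, (if v j = 1 then r else 1) := by
        refine prod_le_prod (fun j _ => h0 j) fun j _ => ?_
        split_ifs with h
        · exact h1 j
        · obtain ⟨k, hk⟩ := hv j
          exact h3 j (by omega)
    _ = r ^ #{j ∈ V | v j = 1} := by rw [prod_ite, prod_const, prod_const_one, mul_one]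
    _ ≤ r ^ M := pow_le_pow_right₀ hr
        ((card_le_card (filter_subset_filter _ (subset_univ V))).trans hM)

theorem const_le (M r : ℕ) (C : ℝ) (hC : 1 ≤ C) :
    (r.factorial : ℝ) * (r : ℝ) ^ M * 2 ^ r * C ^ (r ^ 2) ≤ (2 ^ (M + 2) * C) ^ (r ^ 2) := by
  have h0 : r ≤ 2 ^ r := Nat.lt_two_pow_self.le
  have hr : r ≤ r ^ 2 := Nat.le_self_pow (by norm_num) r
  have h1 : r.factorial ≤ 2 ^ (r ^ 2) :=
    (Nat.factorial_le_pow r).trans ((Nat.pow_le_pow_left h0 r).trans (by rw [← pow_mul, sq]))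
  have h2 : r ^ M ≤ 2 ^ (M * r ^ 2) := (Nat.pow_le_pow_left h0 M).trans (by
    rw [← pow_mul, mul_comm]
    exact Nat.pow_le_pow_right (by norm_num) (Nat.mul_le_mul_left _ hr))
  have h3 : 2 ^ r ≤ 2 ^ (r ^ 2) := Nat.pow_le_pow_right (by norm_num) hr
  have h4 : r.factorial * r ^ M * 2 ^ r ≤ (2 ^ (M + 2)) ^ (r ^ 2) := by
    refine (Nat.mul_le_mul (Nat.mul_le_mul h1 h2) h3).trans (le_of_eq ?_)
    rw [← pow_add, ← pow_add, ← pow_mul]
    congr 1
    ring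
  rw [mul_pow]
  have h5 : (r.factorial : ℝ) * (r : ℝ) ^ M * 2 ^ r ≤ ((2 : ℝ) ^ (M + 2)) ^ (r ^ 2) := by
    exact_mod_cast h4
  gcongr

/-- all rows are short -/
theorem rows_all {N : ℕ} (hN : 1 ≤ N) (A : Finset ℕ) (hA : ∀ R ∈ A, 1 ≤ R) (hs : ∑ R ∈ A, R ≤ N)
    (K : ℝ) (hK : 1 ≤ K) :
    (∏ R ∈ A, (2 * R : ℝ)) * ((∏ R ∈ A, (uu N R)⁻¹ ^ (2 * R)) * DF A) * K ^ (#A ^ 2) *
      (100 / 97 : ℝ) ^ (∑ R ∈ A, R) ≤
      2 ^ #A * (2 * N / Real.exp 1) ^ (∑ R ∈ A, R) * GG N A * ∏ R ∈ A, hh (K ^ 2) N R := by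
  have h1 : (∏ R ∈ A, (uu N R)⁻¹ ^ (2 * R)) * DF A ≤
      ∏ R ∈ A, (2 * (2 * N / Real.exp 1) ^ R * (xx N R ^ R * xx N R ^ R)) := by
    rw [DF, ← prod_mul_distrib]
    refine prod_le_prod (fun R hR => ?_) fun R hR => row hN (hA R hR)
    have := uu_pos hN (hA R hR)
    positivity
  have h2 := K_le K hK N A hA hs
  have h0 : 0 ≤ ∏ R ∈ A, (2 * (2 * N / Real.exp 1) ^ R * (xx N R ^ R * xx N R ^ R)) :=
    prod_nonneg fun R _ => by have := xx_nonneg N R; positivity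
  calc _ ≤ (∏ R ∈ A, (2 * R : ℝ)) *
        (∏ R ∈ A, (2 * (2 * N / Real.exp 1) ^ R * (xx N R ^ R * xx N R ^ R))) *
        (∏ R ∈ A, (K ^ 2) ^ (min R (Nat.sqrt (2 * N)))) * (100 / 97 : ℝ) ^ (∑ R ∈ A, R) := by
        gcongr
    _ = _ := by
        rw [← prod_pow_eq_pow_sum, ← prod_pow_eq_pow_sum, ← prod_const, GG]
        simp only [← prod_mul_distrib, hh]
        exact prod_congr rfl fun R _ => by ring

/-- all rows but the longest are short -/
theorem rows_erase {n N : ℕ} (hn : 1 ≤ n) (hN : n ≤ N) {A : Finset ℕ} (hA : A ∈ SP n)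
    (K : ℝ) (hK : 1 ≤ K) :
    (∏ R ∈ A.erase (A.sup id), (2 * R : ℝ)) * ((∏ R ∈ A, (uu N R)⁻¹ ^ (2 * R)) * DF A) *
      K ^ (#A ^ 2) * (100 / 97 : ℝ) ^ (n - A.sup id) ≤
      2 ^ #A * (2 * N / Real.exp 1) ^ n * K ^ 2 * GG N (A.erase (A.sup id)) *
        ∏ R ∈ A.erase (A.sup id), hh (K ^ 4) N R := by
  have hm := sup_mem hn hA
  have hs := sum_erase hn hA
  have hm1 := (mem_SP hA).1 _ hm
  set m := A.sup id
  set B := A.erase m with hB
  have hc : #A = #B + 1 := (card_erase_add_one hm).symm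
  have h1 := rows_all (hn.trans hN) B (fun R hR => (erase_half hn hA R hR).1) (by omega) (K ^ 2)
    (one_le_pow₀ hK)
  have h2 := row (hn.trans hN) hm1.1
  have hx0 := xx_nonneg N m
  have hx1 : xx N m ^ m ≤ 1 := pow_le_one₀ hx0 (xx_le_one (hm1.2.trans hN))
  have h3 : (uu N m)⁻¹ ^ (2 * m) * ((2 * m - 1).doubleFactorial : ℝ) ≤
      2 * (2 * N / Real.exp 1) ^ m := by
    refine h2.trans (mul_le_of_le_one_right (by positivity) ?_)
    exact mul_le_one₀ hx1 (by positivity) hx1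
  have h4 : K ^ (#A ^ 2) ≤ K ^ 2 * (K ^ 2) ^ (#B ^ 2) := by
    rw [← pow_mul, ← pow_add]
    refine pow_le_pow_right₀ hK ?_
    rw [hc]
    nlinarith [sq_nonneg ((#B : ℤ) - 1)]
  have e1 : (∏ R ∈ A, (uu N R)⁻¹ ^ (2 * R)) * DF A =
      ((uu N m)⁻¹ ^ (2 * m) * ((2 * m - 1).doubleFactorial : ℝ)) *
        ((∏ R ∈ B, (uu N R)⁻¹ ^ (2 * R)) * DF B) := by
    rw [DF, DF, ← mul_prod_erase A _ hm, ← mul_prod_erase A _ hm]
    ring
  have e2 : n - m = ∑ R ∈ B, R := by omega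
  have e3 : (2 * N / Real.exp 1 : ℝ) ^ n =
      (2 * N / Real.exp 1) ^ m * (2 * N / Real.exp 1) ^ (∑ R ∈ B, R) := by rw [← pow_add, hs]
  have p1 : 0 ≤ (∏ R ∈ B, (uu N R)⁻¹ ^ (2 * R)) * DF B := by
    refine mul_nonneg (prod_nonneg fun R _ => ?_) (DF_nonneg B)
    unfold uu
    positivity
  have p2 : 0 ≤ ∏ R ∈ B, (2 * R : ℝ) := by positivity
  rw [e1, e2, e3, show K ^ 4 = (K ^ 2) ^ 2 by ring]
  calc _ ≤ (∏ R ∈ B, (2 * R : ℝ)) * ((2 * (2 * N / Real.exp 1) ^ m) *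
        ((∏ R ∈ B, (uu N R)⁻¹ ^ (2 * R)) * DF B)) * (K ^ 2 * (K ^ 2) ^ (#B ^ 2)) *
        (100 / 97 : ℝ) ^ (∑ R ∈ B, R) := by gcongr
    _ = (2 * (2 * N / Real.exp 1) ^ m * K ^ 2) * ((∏ R ∈ B, (2 * R : ℝ)) *
        ((∏ R ∈ B, (uu N R)⁻¹ ^ (2 * R)) * DF B) * (K ^ 2) ^ (#B ^ 2) *
        (100 / 97 : ℝ) ^ (∑ R ∈ B, R)) := by ring
    _ ≤ (2 * (2 * N / Real.exp 1) ^ m * K ^ 2) * (2 ^ #B * (2 * N / Real.exp 1) ^ (∑ R ∈ B, R) *
        GG N B * ∏ R ∈ B, hh ((K ^ 2) ^ 2) N R) := by gcongr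
    _ = _ := by rw [hc]; ring

theorem term_le {J : Type} [Fintype J] [DecidableEq J] (v : J → ℕ) (hv : ∀ j, Odd (v j)) {M : ℕ}
    (hM : #{j | v j = 1} ≤ M) (V : Finset J) (C : ℝ) (hC : 1 ≤ C) {N : ℕ} (hN : 1 ≤ N)
    {A : Finset ℕ} (hA : A ∈ SP N) :
    kap V v A (uu N) * DF A * C ^ (#A ^ 2) * (100 / 97 : ℝ) ^ (N - A.sup id) ≤
      DF {N} * (2 ^ (M + 2) * C) ^ 2 * GG N (A.erase (A.sup id)) *
        ∏ R ∈ A.erase (A.sup id), hh ((2 ^ (M + 2) * C) ^ 4) N R := by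
  set K : ℝ := 2 ^ (M + 2) * C with hKd
  have hK : 1 ≤ K := one_le_mul_of_one_le_of_one_le (one_le_pow₀ (by norm_num)) hC
  have hAN : ∀ R ∈ A, R ≤ N := fun R hR => ((mem_SP hA).1 R hR).2
  have hr : 1 ≤ #A := card_pos.2 ⟨_, sup_mem hN hA⟩
  have hN' : (0 : ℝ) < N := by exact_mod_cast hN
  have h1 : ∏ j ∈ V, ∑ R ∈ A, uu N R ^ v j ≤ (#A : ℝ) ^ M :=
    vprod v hv hM V _ (by exact_mod_cast hr) (fun j => usum_nonneg N A _)
      (fun j => usum_card hAN _) fun j hj => (usum_three hAN hj).trans (by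
        rw [(mem_SP hA).2, div_self hN'.ne'])
  have h2 := const_le M (#A) C hC
  have h3 := rows_erase hN le_rfl hA K hK
  have h4 := df_low N hN
  rw [← DF_single] at h4
  have p1 : 0 ≤ (∏ R ∈ A, (uu N R)⁻¹ ^ (2 * R)) * DF A := by
    refine mul_nonneg (prod_nonneg fun R _ => ?_) (DF_nonneg A)
    unfold uu
    positivity
  have p2 : 0 ≤ ∏ R ∈ A.erase (A.sup id), (2 * R : ℝ) := by positivity
  have p3 := GG_nonneg N (A.erase (A.sup id))
  have p4 : 0 ≤ ∏ R ∈ A.erase (A.sup id), hh (K ^ 4) N R :=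
    prod_nonneg fun R _ => hh_nonneg (by positivity) N R
  refine le_of_mul_le_mul_left ?_ (by positivity : (0 : ℝ) < 2 ^ #A)
  calc _ = (∏ R ∈ A.erase (A.sup id), (2 * R : ℝ)) * ((∏ R ∈ A, (uu N R)⁻¹ ^ (2 * R)) * DF A) *
        (((#A).factorial : ℝ) * (∏ j ∈ V, ∑ R ∈ A, uu N R ^ v j) * 2 ^ #A * C ^ (#A ^ 2)) *
        (100 / 97 : ℝ) ^ (N - A.sup id) := by unfold kap; ring
    _ ≤ (∏ R ∈ A.erase (A.sup id), (2 * R : ℝ)) * ((∏ R ∈ A, (uu N R)⁻¹ ^ (2 * R)) * DF A) *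
        K ^ (#A ^ 2) * (100 / 97 : ℝ) ^ (N - A.sup id) := by
        gcongr
        exact le_trans (by gcongr) h2
    _ ≤ _ := h3
    _ ≤ 2 ^ #A * DF {N} * K ^ 2 * GG N (A.erase (A.sup id)) *
        ∏ R ∈ A.erase (A.sup id), hh (K ^ 4) N R := by gcongr
    _ = _ := by ring

/-! ### Splittings -/

theorem card_le_sum {J : Type} (v : J → ℕ) (hv : ∀ j, Odd (v j)) (V : Finset J) :
    #V ≤ ∑ j ∈ V, v j := by
  rw [card_eq_sum_ones]
  exact sum_le_sum fun j _ => (hv j).pos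

theorem card_Spl {J : Type} [Fintype J] [DecidableEq J] (v : J → ℕ) (hv : ∀ j, Odd (v j)) {M : ℕ}
    (hM : #{j | v j = 1} ≤ M) {D : ℕ} (hD : 1 ≤ D) (hs : ∑ j, v j = 2 * D) {d : ℕ} (hd : 1 ≤ d) :
    #(Spl v d) ≤ 2 ^ M * (d * (2 * D) ^ (d - 1)) := by
  have hJ : #(univ : Finset J) ≤ 2 * D := hs ▸ card_le_sum v hv univ
  have h1 : #(Spl v d) ≤ #(({j | v j = 1} : Finset J).powerset ×ˢ
      (range d).biUnion fun t => powersetCard t (univ : Finset J)) := by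
    refine card_le_card_of_injOn (fun V => (V.filter (v · = 1), V.filter (¬ v · = 1)))
      (fun V hV => ?_) fun V _ V' _ e => ?_
    · have hV' : ∑ j ∈ V, v j = 2 * d := (mem_filter.1 (mem_coe.1 hV)).2
      refine mem_coe.2 (mem_product.2 ⟨mem_powerset.2 (filter_subset_filter _ (subset_univ V)),
        mem_biUnion.2 ⟨#(V.filter (¬ v · = 1)), mem_range.2 ?_,
          mem_powersetCard.2 ⟨subset_univ _, rfl⟩⟩⟩)
      have e1 : #(V.filter (¬ v · = 1)) • 3 ≤ ∑ j ∈ V.filter (¬ v · = 1), v j :=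
        card_nsmul_le_sum _ _ _ fun j hj => by
          obtain ⟨k, hk⟩ := hv j
          have := (mem_filter.1 hj).2
          omega
      have e2 : ∑ j ∈ V.filter (¬ v · = 1), v j ≤ ∑ j ∈ V, v j :=
        sum_le_sum_of_subset (filter_subset _ _)
      rw [smul_eq_mul] at e1
      omega
    · have e1 : V.filter (v · = 1) = V'.filter (v · = 1) := congrArg Prod.fst e
      have e2 : V.filter (¬ v · = 1) = V'.filter (¬ v · = 1) := congrArg Prod.snd e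
      rw [← filter_union_filter_not_eq (v · = 1) V, ← filter_union_filter_not_eq (v · = 1) V',
        e1, e2]
  refine h1.trans ?_
  rw [card_product, card_powerset]
  refine Nat.mul_le_mul (Nat.pow_le_pow_right (by norm_num) hM) (card_biUnion_le.trans ?_)
  refine (sum_le_card_nsmul _ _ ((2 * D) ^ (d - 1)) fun t ht => ?_).trans (by simp)
  rw [card_powersetCard]
  have := mem_range.1 ht
  exact (Nat.choose_le_pow _ _).trans ((Nat.pow_le_pow_left hJ _).trans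
    (Nat.pow_le_pow_right (by omega) (by omega)))

noncomputable def qq (C : ℝ) (A : Finset ℕ) : ℝ :=
  (#A).factorial * (∏ R ∈ A.erase (A.sup id), (2 * R : ℝ)) * (#A : ℝ) ^ 48 * DF A *
    (C ^ 2) ^ (#A ^ 2)

theorem qq_nonneg (C : ℝ) (A : Finset ℕ) : 0 ≤ qq C A := by
  have := DF_nonneg A
  unfold qq
  positivity

theorem kap_nonneg {J : Type} (V : Finset J) (v : J → ℕ) (A : Finset ℕ) (N : ℕ) :
    0 ≤ kap V v A (uu N) := by
  unfold kap uu
  positivity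

theorem sq_split (K : ℝ) (hK : 1 ≤ K) (a b : ℕ) :
    K ^ ((a + b) ^ 2) ≤ (K ^ 2) ^ (a ^ 2) * (K ^ 2) ^ (b ^ 2) := by
  rw [← pow_mul, ← pow_mul, ← pow_add]
  refine pow_le_pow_right₀ hK ?_
  nlinarith [sq_nonneg ((a : ℤ) - b)]

theorem small (M : ℕ) (C : ℝ) (hC : 1 ≤ C) : ∃ (c : ℝ) (D₀ : ℕ), 0 ≤ c ∧ ∀ D ≥ D₀,
    ∀ (J : Type) [Fintype J] [DecidableEq J] (v : J → ℕ), (∀ j, Odd (v j)) →
    #{j | v j = 1} ≤ M → ∑ j, v j = 2 * D → ∀ d, 1 ≤ d → d < 24 →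
    ∑ V ∈ Spl v d, ∑ A' ∈ SP d, ∑ A'' ∈ SP (D - d),
      kap V v A' (fun _ => 1) * kap Vᶜ v A'' (uu (D - d)) * DF A' * DF A'' *
        C ^ ((#A' + #A'') ^ 2) * (100 / 97 : ℝ) ^ (D - A''.sup id) ≤ c * DF {D} / D := by
  set K : ℝ := 2 ^ (M + 2) * C ^ 2 with hKd
  have hC2 : 1 ≤ C ^ 2 := one_le_pow₀ hC
  have hK : 1 ≤ K := one_le_mul_of_one_le_of_one_le (one_le_pow₀ (by norm_num)) hC2
  obtain ⟨N₀, hN₀⟩ := hh_sum (K ^ 4) (one_le_pow₀ hK)
  set Q : ℝ := ∑ d ∈ range 24, ∑ A ∈ SP d, qq C A with hQ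
  have hQ0 : 0 ≤ Q := sum_nonneg fun _ _ => sum_nonneg fun A _ => qq_nonneg C A
  refine ⟨2 ^ M * (24 * 2 ^ 24) * (Q * ((100 / 97) ^ 24 * (K ^ 2 * Real.exp 24))), N₀ + 48,
    by positivity, fun D hD J _ _ v hv hM hs d hd1 hd2 => ?_⟩
  have hn : 1 ≤ D - d := by omega
  have hD' : (0 : ℝ) < D := by exact_mod_cast (by omega : 0 < D)
  have p0 := DF_nonneg {D - d}
  have inner : ∀ V : Finset J, ∑ A'' ∈ SP (D - d), kap V v A'' (uu (D - d)) * DF A'' *
      (C ^ 2) ^ (#A'' ^ 2) * (100 / 97 : ℝ) ^ (D - d - A''.sup id) ≤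
      DF {D - d} * (K ^ 2 * Real.exp 24) := by
    intro V
    calc _ ≤ ∑ A'' ∈ SP (D - d), DF {D - d} * K ^ 2 *
          ∏ R ∈ A''.erase (A''.sup id), hh (K ^ 4) (D - d) R := by
          refine sum_le_sum fun A hA => (term_le v hv hM V (C ^ 2) hC2 hn hA).trans ?_
          refine mul_le_mul_of_nonneg_right (mul_le_of_le_one_right (by positivity)
            (GG_le_one fun R hR => ?_)) (prod_nonneg fun R _ => hh_nonneg (by positivity) _ R)
          have := erase_half hn hA R hR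
          omega
      _ = DF {D - d} * K ^ 2 * ∑ A'' ∈ SP (D - d),
          ∏ R ∈ A''.erase (A''.sup id), hh (K ^ 4) (D - d) R := by rw [mul_sum]
      _ ≤ DF {D - d} * K ^ 2 * Real.exp 24 := by
          gcongr
          exact (sum_SP_erase hn le_rfl _ fun R => hh_nonneg (by positivity) _ R).trans
            (hN₀ _ (by omega))
      _ = _ := by ring
  have mid : ∀ V ∈ Spl v d, ∑ A' ∈ SP d, ∑ A'' ∈ SP (D - d),
      kap V v A' (fun _ => 1) * kap Vᶜ v A'' (uu (D - d)) * DF A' * DF A'' *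
        C ^ ((#A' + #A'') ^ 2) * (100 / 97 : ℝ) ^ (D - A''.sup id) ≤
      Q * ((100 / 97) ^ 24 * (DF {D - d} * (K ^ 2 * Real.exp 24))) := by
    intro V hV
    have hV' : ∑ j ∈ V, v j = 2 * d := (mem_filter.1 hV).2
    have hVc : #V ≤ 48 := (card_le_sum v hv V).trans (by omega)
    calc _ ≤ ∑ A' ∈ SP d, qq C A' * ((100 / 97) ^ 24 * (DF {D - d} * (K ^ 2 * Real.exp 24))) := by
          refine sum_le_sum fun A' hA' => ?_
          refine le_trans ?_ (mul_le_mul_of_nonneg_left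
            (mul_le_mul_of_nonneg_left (inner Vᶜ) (by positivity)) (qq_nonneg C A'))
          rw [mul_sum, mul_sum]
          refine sum_le_sum fun A'' hA'' => ?_
          have hr : 1 ≤ #A' := card_pos.2 ⟨_, sup_mem hd1 hA'⟩
          have h1 : kap V v A' (fun _ => 1) ≤
              (#A').factorial * (∏ R ∈ A'.erase (A'.sup id), (2 * R : ℝ)) * (#A' : ℝ) ^ 48 := by
            simp only [kap, inv_one, one_pow, prod_const_one, mul_one, sum_const, nsmul_eq_mul,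
              prod_const]
            gcongr
            exact_mod_cast hr
          have h2 := sq_split C hC (#A') (#A'')
          have h3 : (100 / 97 : ℝ) ^ (D - A''.sup id) ≤
              (100 / 97) ^ 24 * (100 / 97) ^ (D - d - A''.sup id) := by
            rw [← pow_add]
            exact pow_le_pow_right₀ (by norm_num) (by omega)
          have p1 := kap_nonneg Vᶜ v A'' (D - d)
          have p2 := DF_nonneg A'
          have p3 := DF_nonneg A''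
          calc _ ≤ (#A').factorial * (∏ R ∈ A'.erase (A'.sup id), (2 * R : ℝ)) * (#A' : ℝ) ^ 48 *
                kap Vᶜ v A'' (uu (D - d)) * DF A' * DF A'' *
                ((C ^ 2) ^ (#A' ^ 2) * (C ^ 2) ^ (#A'' ^ 2)) *
                ((100 / 97) ^ 24 * (100 / 97) ^ (D - d - A''.sup id)) := by gcongr
            _ = _ := by unfold qq; ring
      _ = (∑ A' ∈ SP d, qq C A') * ((100 / 97) ^ 24 * (DF {D - d} * (K ^ 2 * Real.exp 24))) := by
          rw [sum_mul]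
      _ ≤ _ := by
          gcongr
          exact single_le_sum (f := fun d => ∑ A ∈ SP d, qq C A)
            (fun _ _ => sum_nonneg fun A _ => qq_nonneg C A) (mem_range.2 hd2)
  refine (sum_le_card_nsmul _ _ _ mid).trans ?_
  rw [nsmul_eq_mul, le_div_iff₀ hD']
  have h1 : (#(Spl v d) : ℝ) ≤ 2 ^ M * (24 * 2 ^ 24 * (D : ℝ) ^ (d - 1)) := by
    have e1 := card_Spl v hv hM (by omega) hs hd1
    have e2 : d * (2 * D) ^ (d - 1) ≤ 24 * 2 ^ 24 * D ^ (d - 1) := by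
      rw [mul_pow, mul_assoc]
      exact Nat.mul_le_mul (by omega) (Nat.mul_le_mul_right _
        (Nat.pow_le_pow_right (by norm_num) (by omega)))
    exact_mod_cast e1.trans (Nat.mul_le_mul_left _ e2)
  have h2 := DF_shift D d (by omega)
  have e : (D : ℝ) ^ d = D ^ (d - 1) * D := by
    rw [← pow_succ]
    congr 1
    omega
  calc _ ≤ 2 ^ M * (24 * 2 ^ 24 * (D : ℝ) ^ (d - 1)) *
        (Q * ((100 / 97) ^ 24 * (DF {D - d} * (K ^ 2 * Real.exp 24)))) * D := by gcongr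
    _ = 2 ^ M * (24 * 2 ^ 24) * (Q * ((100 / 97) ^ 24 * (K ^ 2 * Real.exp 24))) *
        (DF {D - d} * (D : ℝ) ^ d) := by rw [e]; ring
    _ ≤ _ := by gcongr

theorem large (M : ℕ) (C : ℝ) (hC : 1 ≤ C) : ∃ (c : ℝ) (D₀ : ℕ), 0 ≤ c ∧ ∀ D ≥ D₀,
    ∀ (J : Type) [Fintype J] [DecidableEq J] (v : J → ℕ), (∀ j, Odd (v j)) →
    #{j | v j = 1} ≤ M → ∀ d, 24 ≤ d → 2 * d ≤ D →
    ∑ V ∈ Spl v d, ∑ A' ∈ SP d, ∑ A'' ∈ SP (D - d),
      kap V v A' (uu D) * kap Vᶜ v A'' (uu D) * DF A' * DF A'' *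
        C ^ ((#A' + #A'') ^ 2) * (100 / 97 : ℝ) ^ (D - A''.sup id) ≤ c * DF {D} / D ^ 2 := by
  set K : ℝ := 2 ^ (M + 2) * C with hKd
  have hK : 1 ≤ K := one_le_mul_of_one_le_of_one_le (one_le_pow₀ (by norm_num)) hC
  have hK2 : 1 ≤ K ^ 2 := one_le_pow₀ hK
  obtain ⟨N₁, hN₁⟩ := hh_sum ((K ^ 2) ^ 2) (one_le_pow₀ hK2)
  obtain ⟨N₂, hN₂⟩ := hh_sum ((K ^ 2) ^ 4) (one_le_pow₀ hK2)
  obtain ⟨N₃, hN₃⟩ := gain
  refine ⟨(K ^ 2) ^ 2 * (Real.exp 24 * Real.exp 24), N₁ + N₂ + N₃, by positivity,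
    fun D hD J _ _ v hv hM d hd1 hd2 => ?_⟩
  have hn : 1 ≤ D - d := by omega
  have hD1 : 1 ≤ D := by omega
  have hD' : (0 : ℝ) < D := by exact_mod_cast (by omega : 0 < D)
  have p0 := DF_nonneg {D}
  have q1 : ∀ R, 0 ≤ hh ((K ^ 2) ^ 2) D R := fun R => hh_nonneg (by positivity) _ R
  have q2 : ∀ R, 0 ≤ hh ((K ^ 2) ^ 4) D R := fun R => hh_nonneg (by positivity) _ R
  have key : ∀ A' ∈ SP d, ∀ A'' ∈ SP (D - d), ∑ V ∈ Spl v d,
      kap V v A' (uu D) * kap Vᶜ v A'' (uu D) * DF A' * DF A'' *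
        C ^ ((#A' + #A'') ^ 2) * (100 / 97 : ℝ) ^ (D - A''.sup id) ≤
      (K ^ 2) ^ 2 * DF {D} / D ^ 2 * ((∏ R ∈ A', hh ((K ^ 2) ^ 2) D R) *
        ∏ R ∈ A''.erase (A''.sup id), hh ((K ^ 2) ^ 4) D R) := by
    intro A' hA' A'' hA''
    have m1 := mem_SP hA'
    have m2 := mem_SP hA''
    have b1 : ∀ R ∈ A', R ≤ D := fun R hR => (m1.1 R hR).2.trans (by omega)
    have b2 : ∀ R ∈ A'', R ≤ D := fun R hR => (m2.1 R hR).2.trans (by omega)
    have hr : 1 ≤ #A'' := card_pos.2 ⟨_, sup_mem hn hA''⟩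
    set W' := (∏ R ∈ A', (uu D R)⁻¹ ^ (2 * R)) * DF A' with hW'
    set W'' := (∏ R ∈ A'', (uu D R)⁻¹ ^ (2 * R)) * DF A'' with hW''
    have p1 : 0 ≤ W' := by
      refine mul_nonneg (prod_nonneg fun R _ => ?_) (DF_nonneg A')
      unfold uu
      positivity
    have p2 : 0 ≤ W'' := by
      refine mul_nonneg (prod_nonneg fun R _ => ?_) (DF_nonneg A'')
      unfold uu
      positivity
    set F : ℝ := (#A').factorial * (#A'').factorial * C ^ ((#A' + #A'') ^ 2) *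
      ((∏ R ∈ A'.erase (A'.sup id), (2 * R : ℝ)) * W') *
      ((∏ R ∈ A''.erase (A''.sup id), (2 * R : ℝ)) * W'') *
      (100 / 97 : ℝ) ^ (D - A''.sup id) with hF
    have pF : 0 ≤ F := by positivity
    have h1 : ∑ V ∈ Spl v d, (∏ j ∈ V, ∑ R ∈ A', uu D R ^ v j) *
        (∏ j ∈ Vᶜ, ∑ R ∈ A'', uu D R ^ v j) ≤ ((#A' + #A'' : ℕ) : ℝ) ^ M := by
      refine (sum_le_sum_of_subset_of_nonneg (subset_univ _) fun V _ _ =>
        mul_nonneg (prod_nonneg fun j _ => usum_nonneg _ _ _)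
          (prod_nonneg fun j _ => usum_nonneg _ _ _)).trans ?_
      rw [← Fintype.prod_add]
      refine vprod v hv hM univ _ (by exact_mod_cast (by omega : 1 ≤ #A' + #A''))
        (fun j => add_nonneg (usum_nonneg _ _ _) (usum_nonneg _ _ _)) (fun j => ?_) fun j hj => ?_
      · rw [Nat.cast_add]
        exact add_le_add (usum_card b1 _) (usum_card b2 _)
      · refine (add_le_add (usum_three b1 hj) (usum_three b2 hj)).trans (le_of_eq ?_)
        rw [m1.2, m2.2, ← add_div, ← Nat.cast_add, show d + (D - d) = D by omega,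
          div_self hD'.ne']
    have h2 : ((#A').factorial : ℝ) * (#A'').factorial ≤ (#A' + #A'').factorial := by
      exact_mod_cast Nat.le_of_dvd (Nat.factorial_pos _)
        (Nat.factorial_mul_factorial_dvd_factorial_add _ _)
    have h3 := (const_le M (#A' + #A'') C hC).trans (sq_split K hK _ _)
    have h4 := rows_all hD1 A' (fun R hR => (m1.1 R hR).1) (by omega) (K ^ 2) hK2
    have h5 := rows_erase hn (Nat.sub_le D d) hA'' (K ^ 2) hK2
    rw [m1.2] at h4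
    have h6 : (∏ R ∈ A'.erase (A'.sup id), (2 * R : ℝ)) ≤ ∏ R ∈ A', (2 * R : ℝ) := by
      refine prod_le_prod_of_subset_of_one_le (erase_subset _ _) (fun R _ => by positivity)
        fun R hR _ => ?_
      have : (1 : ℝ) ≤ R := by exact_mod_cast (m1.1 R hR).1
      linarith
    have h7 : GG D A' ≤ ((D : ℝ) ^ 2)⁻¹ := by
      have e1 := hN₃ D (by omega) A' fun R hR => by have := (m1.1 R hR).2; omega
      rw [m1.2, min_eq_right hd1, show 24 = 2 * 12 by norm_num, pow_mul, inv_pow] at e1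
      exact (pow_le_pow_iff_left₀ (GG_nonneg _ _) (by positivity) (by norm_num)).1 e1
    have h8 : GG D (A''.erase (A''.sup id)) ≤ 1 :=
      GG_le_one fun R hR => b2 R (mem_of_mem_erase hR)
    have h9 := df_low D hD1
    rw [← DF_single] at h9
    have e1 : (100 / 97 : ℝ) ^ (D - A''.sup id) =
        (100 / 97) ^ d * (100 / 97) ^ (D - d - A''.sup id) := by
      have := sum_erase hn hA''
      rw [← pow_add]
      congr 1
      omega
    have e2 : (2 * D / Real.exp 1 : ℝ) ^ D =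
        (2 * D / Real.exp 1) ^ d * (2 * D / Real.exp 1) ^ (D - d) := by
      rw [← pow_add]
      congr 1
      omega
    have p3 := GG_nonneg D A'
    have p4 := GG_nonneg D (A''.erase (A''.sup id))
    have p5 : 0 ≤ ∏ R ∈ A', hh ((K ^ 2) ^ 2) D R := prod_nonneg fun R _ => q1 R
    have p6 : 0 ≤ ∏ R ∈ A''.erase (A''.sup id), hh ((K ^ 2) ^ 4) D R :=
      prod_nonneg fun R _ => q2 R
    refine le_of_mul_le_mul_left ?_ (by positivity : (0 : ℝ) < 2 ^ (#A' + #A''))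
    calc _ = 2 ^ (#A' + #A'') * F * ∑ V ∈ Spl v d, (∏ j ∈ V, ∑ R ∈ A', uu D R ^ v j) *
          (∏ j ∈ Vᶜ, ∑ R ∈ A'', uu D R ^ v j) := by
          rw [mul_assoc, mul_sum (s := Spl v d) (a := F)]
          congr 1
          refine sum_congr rfl fun V _ => ?_
          rw [hF, hW', hW'']
          unfold kap
          ring
      _ ≤ 2 ^ (#A' + #A'') * F * ((#A' + #A'' : ℕ) : ℝ) ^ M := by gcongr
      _ = (((#A').factorial * (#A'').factorial) * ((#A' + #A'' : ℕ) : ℝ) ^ M *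
          2 ^ (#A' + #A'') * C ^ ((#A' + #A'') ^ 2)) *
          ((∏ R ∈ A'.erase (A'.sup id), (2 * R : ℝ)) * W') *
          ((∏ R ∈ A''.erase (A''.sup id), (2 * R : ℝ)) * W'') *
          (100 / 97 : ℝ) ^ (D - A''.sup id) := by rw [hF]; ring
      _ ≤ ((K ^ 2) ^ (#A' ^ 2) * (K ^ 2) ^ (#A'' ^ 2)) *
          ((∏ R ∈ A', (2 * R : ℝ)) * W') *
          ((∏ R ∈ A''.erase (A''.sup id), (2 * R : ℝ)) * W'') *
          (100 / 97 : ℝ) ^ (D - A''.sup id) := by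
          gcongr ?_ * (?_ * _) * _ * _
          exact le_trans (by gcongr) h3
      _ = ((∏ R ∈ A', (2 * R : ℝ)) * W' * (K ^ 2) ^ (#A' ^ 2) * (100 / 97 : ℝ) ^ d) *
          ((∏ R ∈ A''.erase (A''.sup id), (2 * R : ℝ)) * W'' * (K ^ 2) ^ (#A'' ^ 2) *
            (100 / 97 : ℝ) ^ (D - d - A''.sup id)) := by rw [e1]; ring
      _ ≤ (2 ^ #A' * (2 * D / Real.exp 1) ^ d * GG D A' * ∏ R ∈ A', hh ((K ^ 2) ^ 2) D R) *
          (2 ^ #A'' * (2 * D / Real.exp 1) ^ (D - d) * (K ^ 2) ^ 2 *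
            GG D (A''.erase (A''.sup id)) *
            ∏ R ∈ A''.erase (A''.sup id), hh ((K ^ 2) ^ 4) D R) :=
          mul_le_mul h4 h5 (by positivity) (by positivity)
      _ = 2 ^ (#A' + #A'') * ((K ^ 2) ^ 2 * (2 * D / Real.exp 1) ^ D * GG D A' *
          GG D (A''.erase (A''.sup id)) * ((∏ R ∈ A', hh ((K ^ 2) ^ 2) D R) *
          ∏ R ∈ A''.erase (A''.sup id), hh ((K ^ 2) ^ 4) D R)) := by rw [e2]; ring
      _ ≤ 2 ^ (#A' + #A'') * ((K ^ 2) ^ 2 * DF {D} * ((D : ℝ) ^ 2)⁻¹ * 1 *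
          ((∏ R ∈ A', hh ((K ^ 2) ^ 2) D R) *
          ∏ R ∈ A''.erase (A''.sup id), hh ((K ^ 2) ^ 4) D R)) := by gcongr
      _ = _ := by ring
  rw [sum_comm]
  calc _ ≤ ∑ A' ∈ SP d, ∑ A'' ∈ SP (D - d), (K ^ 2) ^ 2 * DF {D} / D ^ 2 *
        ((∏ R ∈ A', hh ((K ^ 2) ^ 2) D R) *
          ∏ R ∈ A''.erase (A''.sup id), hh ((K ^ 2) ^ 4) D R) := by
        refine sum_le_sum fun A' hA' => ?_
        rw [sum_comm]
        exact sum_le_sum fun A'' hA'' => key A' hA' A'' hA''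
    _ = (K ^ 2) ^ 2 * DF {D} / D ^ 2 * ((∑ A' ∈ SP d, ∏ R ∈ A', hh ((K ^ 2) ^ 2) D R) *
        ∑ A'' ∈ SP (D - d), ∏ R ∈ A''.erase (A''.sup id), hh ((K ^ 2) ^ 4) D R) := by
        rw [sum_mul_sum, mul_sum]
        exact sum_congr rfl fun A' _ => by rw [mul_sum]
    _ ≤ (K ^ 2) ^ 2 * DF {D} / D ^ 2 * (Real.exp 24 * Real.exp 24) := by
        gcongr
        · exact sum_nonneg fun A _ => prod_nonneg fun R _ => q2 R
        · exact (sum_SP hd2 _ q1).trans (hN₁ D (by omega))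
        · exact (sum_SP_erase hn (Nat.sub_le D d) _ q2).trans (hN₂ D (by omega))
    _ = _ := by ring

end Est

open Est

theorem estLow (M : ℕ) (C : ℝ) (hC : 1 ≤ C) (ε : ℝ) (hε : 0 < ε) : ∃ D₀ : ℕ, ∀ D ≥ D₀,
    ∀ (J : Type) [Fintype J] [DecidableEq J] (v : J → ℕ), (∀ j, Odd (v j)) →
    #{j | v j = 1} ≤ M → ∑ j, v j = 2 * D → ∃ u : ℕ → ℝ, (∀ R, 1 ≤ R → 0 < u R) ∧
    ∑ A ∈ (SP D).erase {D}, kap univ v A u * DF A * C ^ (#A ^ 2) *
      (100 / 97 : ℝ) ^ (D - A.sup id) ≤ ε * DF {D} := by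
  set K : ℝ := 2 ^ (M + 2) * C with hKd
  have hK : 1 ≤ K := one_le_mul_of_one_le_of_one_le (one_le_pow₀ (by norm_num)) hC
  obtain ⟨N₁, hN₁⟩ := hh_sum (K ^ 4) (one_le_pow₀ hK)
  obtain ⟨N₂, hN₂⟩ := gain
  set η : ℝ := ε / (K ^ 2 * Real.exp 24) with hη
  have hη0 : 0 < η := by positivity
  obtain ⟨N₃, hN₃⟩ := exists_nat_ge ((η ^ 12)⁻¹)
  refine ⟨N₁ + N₂ + N₃ + 1, fun D hD J _ _ v hv hM _ => ?_⟩
  have hD1 : 1 ≤ D := by omega
  have hD' : (1 : ℝ) ≤ D := by exact_mod_cast hD1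
  refine ⟨uu D, fun R hR => uu_pos hD1 hR, ?_⟩
  have p0 := DF_nonneg {D}
  have q : ∀ R, 0 ≤ hh (K ^ 4) D R := fun R => hh_nonneg (by positivity) _ R
  calc _ ≤ ∑ A ∈ (SP D).erase {D}, DF {D} * K ^ 2 * η *
        ∏ R ∈ A.erase (A.sup id), hh (K ^ 4) D R := by
        refine sum_le_sum fun A hA => ?_
        obtain ⟨hne, hA⟩ := mem_erase.1 hA
        refine (term_le v hv hM univ C hC hD1 hA).trans ?_
        have h1 : 1 ≤ ∑ R ∈ A.erase (A.sup id), R := by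
          rcases (A.erase (A.sup id)).eq_empty_or_nonempty with h | ⟨R, hR⟩
          · exfalso
            apply hne
            have e := sum_erase hD1 hA
            rw [h, sum_empty, add_zero] at e
            rw [← insert_erase (sup_mem hD1 hA), h, e]
            rfl
          · exact (erase_half hD1 hA R hR).1.trans
              (single_le_sum (f := fun R => R) (fun _ _ => Nat.zero_le _) hR)
        have h2 := hN₂ D (by omega) _ fun R hR => (erase_half hD1 hA R hR).2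
        have h3 : ((D : ℝ)⁻¹) ^ (min (∑ R ∈ A.erase (A.sup id), R) 24) ≤ η ^ 12 := by
          refine (pow_le_of_le_one (by positivity) (inv_le_one_of_one_le₀ hD') (by omega)).trans ?_
          refine inv_le_of_inv_le₀ (by positivity) (hN₃.trans ?_)
          exact_mod_cast (by omega : N₃ ≤ D)
        have h4 : GG D (A.erase (A.sup id)) ≤ η :=
          (pow_le_pow_iff_left₀ (GG_nonneg _ _) hη0.le (by norm_num)).1 (h2.trans h3)
        have := prod_nonneg (s := A.erase (A.sup id)) fun R _ => q R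
        gcongr
    _ = DF {D} * K ^ 2 * η * ∑ A ∈ (SP D).erase {D},
        ∏ R ∈ A.erase (A.sup id), hh (K ^ 4) D R := by rw [mul_sum]
    _ ≤ DF {D} * K ^ 2 * η * Real.exp 24 := by
        gcongr
        exact (sum_le_sum_of_subset_of_nonneg (erase_subset _ _) fun A _ _ =>
          prod_nonneg fun R _ => q R).trans
          ((sum_SP_erase hD1 le_rfl _ q).trans (hN₁ D (by omega)))
    _ = ε * DF {D} := by
        rw [hη]
        field_simp

theorem estUp (M : ℕ) (C : ℝ) (hC : 1 ≤ C) : ∃ (C' : ℝ) (D₀ : ℕ), ∀ D ≥ D₀,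
    ∀ (J : Type) [Fintype J] [DecidableEq J] (v : J → ℕ), (∀ j, Odd (v j)) →
    #{j | v j = 1} ≤ M → ∑ j, v j = 2 * D → ∃ u' u'' : ℕ → ℕ → ℝ,
    (∀ d R, 1 ≤ R → 0 < u' d R ∧ 0 < u'' d R) ∧
    ∑ d ∈ Icc 1 (D / 2), ∑ V ∈ Spl v d, ∑ A' ∈ SP d, ∑ A'' ∈ SP (D - d),
      kap V v A' (u' d) * kap Vᶜ v A'' (u'' d) * DF A' * DF A'' * C ^ ((#A' + #A'') ^ 2) *
        (100 / 97 : ℝ) ^ (D - A''.sup id) ≤ C' * DF {D} / D := by
  obtain ⟨c₁, D₁, hc₁, h₁⟩ := small M C hC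
  obtain ⟨c₂, D₂, hc₂, h₂⟩ := large M C hC
  refine ⟨24 * c₁ + c₂, D₁ + D₂ + 48, fun D hD J _ _ v hv hM hs => ?_⟩
  have hD' : (0 : ℝ) < D := by exact_mod_cast (by omega : 0 < D)
  have p0 := DF_nonneg {D}
  refine ⟨fun d => if d < 24 then fun _ => 1 else uu D,
    fun d => if d < 24 then uu (D - d) else uu D, fun d R hR => ?_, ?_⟩
  · by_cases h : d < 24
    · simp only [if_pos h]
      exact ⟨one_pos, uu_pos (by omega) hR⟩
    · simp only [if_neg h]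
      exact ⟨uu_pos (by omega) hR, uu_pos (by omega) hR⟩
  · calc _ ≤ ∑ d ∈ Icc 1 (D / 2),
          ((if d < 24 then c₁ * DF {D} / D else 0) + c₂ * DF {D} / D ^ 2) := by
          refine sum_le_sum fun d hd => ?_
          rw [mem_Icc] at hd
          by_cases h : d < 24
          · simp only [if_pos h]
            exact (h₁ D (by omega) J v hv hM hs d hd.1 h).trans
              (le_add_of_nonneg_right (by positivity))
          · simp only [if_neg h, zero_add]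
            exact h₂ D (by omega) J v hv hM d (by omega) (by omega)
      _ ≤ 24 * (c₁ * DF {D} / D) + D * (c₂ * DF {D} / D ^ 2) := by
          rw [sum_add_distrib, ← sum_filter, sum_const, sum_const, nsmul_eq_mul, nsmul_eq_mul]
          have e1 : #{d ∈ Icc 1 (D / 2) | d < 24} ≤ 24 := by
            refine (card_le_card (t := range 24) fun d hd => ?_).trans (by simp)
            exact mem_range.2 (mem_filter.1 hd).2
          have e2 : #(Icc 1 (D / 2)) ≤ D := by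
            rw [Nat.card_Icc]
            omega
          gcongr
          exact_mod_cast e1
      _ = _ := by field_simp

end Pool.Agent.STS
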