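import Pool.Agent.P.MP_bb7f8f_gt.CMid

/-! Evaluation of the vertex operators on finitely many variables. -/

namespace Pool.Agent.STS.QF
open MvPolynomial Finset

variable {K ι : Type} [Field K] [Algebra ℚ K] [DecidableEq ι]

theorem evO_pp {R : Type*} [CommRing R] [Algebra ℚ R] (π : ℕ → R) (k : ℕ) :
    evO π (pp k) = if Odd k then π k else 0 := by
  unfold pp evO; split_ifs with h <;> simp [h]

theorem qs_mul {R : Type} [CommRing R] [Algebra ℚ R] (s : Finset ι) (x : ι → R) :
    (PowerSeries.mk fun m => evO (fun k => ∑ i ∈ s, x i ^ k) (q m)) *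
      ∏ j ∈ s, (1 - PowerSeries.C (x j) * PowerSeries.X) =
      ∏ j ∈ s, (1 + PowerSeries.C (x j) * PowerSeries.X) := by
  induction s using Finset.induction_on with
  | empty =>
    have h := rec_map (evO (R := R) fun k => ∑ i ∈ (∅ : Finset ι), x i ^ k)
    have e : (fun k => evO (R := R) (fun k => ∑ i ∈ (∅ : Finset ι), x i ^ k) (pp k)) = 0 := by
      funext k; simp [evO_pp]
    rw [e] at h
    rw [h.unique rec_zero]
    ext m; simp [PowerSeries.coeff_one]
  | insert i s hi ih =>
    have h := rec_map (evO (R := R) fun k => ∑ j ∈ insert i s, x j ^ k)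
    have h2 := (rec_single (x i)).conv (rec_map (evO (R := R) fun k => ∑ j ∈ s, x j ^ k))
    have e : (fun k => evO (R := R) (fun k => ∑ j ∈ insert i s, x j ^ k) (pp k)) =
        (fun k => if Odd k then x i ^ k else 0) +
          fun k => evO (R := R) (fun k => ∑ j ∈ s, x j ^ k) (pp k) := by
      funext k
      simp only [evO_pp, Pi.add_apply, Finset.sum_insert hi]
      split_ifs <;> simp
    rw [e] at h
    rw [h.unique h2, Finset.prod_insert hi, Finset.prod_insert hi, ← ih]
    have e2 : (PowerSeries.mk fun m => ∑ p ∈ antidiagonal m, algebraMap ℚ R (w p.1) * x i ^ p.1 *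
        evO (fun k => ∑ j ∈ s, x j ^ k) (q p.2)) =
        (PowerSeries.mk fun m => algebraMap ℚ R (w m) * x i ^ m) *
          PowerSeries.mk fun m => evO (fun k => ∑ j ∈ s, x j ^ k) (q m) := by
      ext m; simp [PowerSeries.coeff_mul]
    have e3 : (PowerSeries.mk fun m => algebraMap ℚ R (w m) * x i ^ m) *
        (1 - PowerSeries.C (x i) * PowerSeries.X) = 1 + PowerSeries.C (x i) * PowerSeries.X := by
      rw [mul_sub, mul_one, ← mul_assoc]
      ext m
      rcases m with _ | _ | m
      · simp [w]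
      · simp [w, PowerSeries.coeff_succ_mul_X, map_ofNat, PowerSeries.coeff_one]; ring
      · rw [map_sub, PowerSeries.coeff_succ_mul_X, PowerSeries.coeff_mul_C]
        simp [w, map_ofNat, PowerSeries.coeff_one, pow_succ, PowerSeries.coeff_X, mul_assoc]
    rw [e2, ← e3]; ring

/-- the factor `∏_{j ≠ i} (x i + x j) / (x i - x j)` -/
noncomputable def Bf (s : Finset ι) (x : ι → K) (i : ι) : K :=
  ∏ j ∈ s.erase i, (x i + x j) / (x i - x j)

theorem poly_id (s : Finset ι) (x : ι → K) (hx : Set.InjOn x s) (h0 : ∀ i ∈ s, x i ≠ 0) :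
    ∏ j ∈ s, (1 + Polynomial.C (x j) * Polynomial.X) -
      ∏ j ∈ s, (1 - Polynomial.C (x j) * Polynomial.X) -
      ∑ i ∈ s, Polynomial.C (2 * x i * Bf s x i) * Polynomial.X *
        ∏ j ∈ s.erase i, (1 - Polynomial.C (x j) * Polynomial.X) = 0 := by
  classical
  have d1 : ∀ a : K, (1 + Polynomial.C a * Polynomial.X).natDegree ≤ 1 := fun a => by
    compute_degree
  have d2 : ∀ a : K, (1 - Polynomial.C a * Polynomial.X).natDegree ≤ 1 := fun a => by
    compute_degree
  have p1 : ∀ (t : Finset ι) (F : ι → Polynomial K), (∀ j, (F j).natDegree ≤ 1) →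
      (∏ j ∈ t, F j).natDegree ≤ #t := fun t F hF =>
    (Polynomial.natDegree_prod_le t F).trans ((Finset.sum_le_sum fun j _ => hF j).trans (by simp))
  refine Polynomial.eq_zero_of_natDegree_lt_card_of_eval_eq_zero' _
    (insert 0 (s.image fun i => (x i)⁻¹)) (fun y hy => ?_) ?_
  · simp only [Polynomial.eval_sub, Polynomial.eval_prod, Polynomial.eval_finsetSum,
      Polynomial.eval_add, Polynomial.eval_mul, Polynomial.eval_C, Polynomial.eval_X,
      Polynomial.eval_one]
    rcases mem_insert.1 hy with rfl | hy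
    · simp
    · obtain ⟨i, hi, rfl⟩ := mem_image.1 hy
      have hxi := h0 i hi
      rw [Finset.prod_eq_zero hi (f := fun j => 1 - x j * (x i)⁻¹) (by field_simp; ring),
        Finset.sum_eq_single i, ← Finset.mul_prod_erase s _ hi, Bf, mul_assoc, mul_assoc,
        mul_left_comm _ (x i)⁻¹, ← Finset.prod_mul_distrib]
      · rw [Finset.prod_congr rfl (g := fun j => 1 + x j * (x i)⁻¹)
          (f := fun j => (x i + x j) / (x i - x j) * (1 - x j * (x i)⁻¹))]
        · field_simp; ring
        · intro j hj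
          have : x i - x j ≠ 0 := sub_ne_zero.2 fun h =>
            (ne_of_mem_erase hj) (hx (mem_of_mem_erase hj) hi h.symm)
          field_simp
      · intro j hj hji
        rw [Finset.prod_eq_zero (mem_erase.2 ⟨hji.symm, hi⟩) (by field_simp; ring), mul_zero]
      · intro h; exact absurd hi h
  · rw [Finset.card_insert_of_notMem (by
      simp only [mem_image, not_exists, not_and]
      exact fun i hi => inv_ne_zero (h0 i hi)), Finset.card_image_of_injOn
      fun i hi j hj h => hx hi hj (inv_injective h), Nat.lt_succ_iff]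
    refine (Polynomial.natDegree_sub_le _ _).trans (max_le ((Polynomial.natDegree_sub_le _ _).trans
      (max_le (p1 _ _ fun j => d1 _) (p1 _ _ fun j => d2 _))) ?_)
    refine Polynomial.natDegree_sum_le_of_forall_le _ _ fun i hi => ?_
    refine Polynomial.natDegree_mul_le.trans ?_
    have h1 : (Polynomial.C (2 * x i * Bf s x i) * Polynomial.X).natDegree ≤ 1 := by
      compute_degree
    have h2 := p1 (s.erase i) _ fun j => d2 (x j)
    have h3 := Finset.card_erase_add_one hi
    omega

theorem q_eval (s : Finset ι) (x : ι → K) (hx : Set.InjOn x s) (h0 : ∀ i ∈ s, x i ≠ 0) (m : ℕ) :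
    evO (fun k => ∑ i ∈ s, x i ^ k) (q (m + 1)) = 2 * ∑ i ∈ s, x i ^ (m + 1) * Bf s x i := by
  have h1 := qs_mul s x
  have h2 := congrArg (Polynomial.coeToPowerSeries.ringHom (R := K)) (poly_id s x hx h0)
  simp only [map_sub, map_prod, map_sum, map_add, map_mul, map_one, map_zero,
    Polynomial.coeToPowerSeries.ringHom_apply, Polynomial.coe_C, Polynomial.coe_X] at h2
  have g : ∀ a : K, (PowerSeries.mk fun m => a ^ m) * (1 - PowerSeries.C a * PowerSeries.X) = 1 :=
    fun a => by
      rw [mul_sub, mul_one, ← mul_assoc]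
      ext m
      rcases m with _ | m
      · simp
      · simp [PowerSeries.coeff_succ_mul_X, PowerSeries.coeff_one, pow_succ]
  have hne : ∏ j ∈ s, (1 - PowerSeries.C (x j) * PowerSeries.X) ≠ 0 :=
    Finset.prod_ne_zero_iff.2 fun j _ h => by simpa [h] using g (x j)
  have h3 : (PowerSeries.mk fun m => evO (fun k => ∑ i ∈ s, x i ^ k) (q m)) = 1 +
      ∑ i ∈ s, PowerSeries.C (2 * x i * Bf s x i) * ((PowerSeries.mk fun m => x i ^ m) *
        PowerSeries.X) := by
    apply mul_right_cancel₀ hne
    rw [h1, add_mul, one_mul, Finset.sum_mul]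
    have : ∑ i ∈ s, PowerSeries.C (2 * x i * Bf s x i) * ((PowerSeries.mk fun m => x i ^ m) *
        PowerSeries.X) * ∏ j ∈ s, (1 - PowerSeries.C (x j) * PowerSeries.X) =
        ∑ i ∈ s, PowerSeries.C 2 * PowerSeries.C (x i) * PowerSeries.C (Bf s x i) *
        PowerSeries.X * ∏ j ∈ s.erase i, (1 - PowerSeries.C (x j) * PowerSeries.X) := by
      refine Finset.sum_congr rfl fun i hi => ?_
      rw [← Finset.mul_prod_erase s _ hi, map_mul, map_mul]
      linear_combination (PowerSeries.C 2 * PowerSeries.C (x i) * PowerSeries.C (Bf s x i) *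
        PowerSeries.X * ∏ j ∈ s.erase i, (1 - PowerSeries.C (x j) * PowerSeries.X)) * g (x i)
    rw [this]
    linear_combination h2
  have h4 := congrArg (PowerSeries.coeff (m + 1)) h3
  simp only [PowerSeries.coeff_mk, map_add, map_sum, PowerSeries.coeff_C_mul,
    PowerSeries.coeff_succ_mul_X, PowerSeries.coeff_one] at h4
  rw [h4, Finset.mul_sum]
  simp only [Nat.succ_ne_zero, if_false, zero_add]
  exact Finset.sum_congr rfl fun i _ => by ring

theorem sum_S_eval {R : Type} [CommRing R] [Algebra ℚ R] (π π' : ℕ → R) (y : R)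
    (h : ∀ k, Odd k → π' k = π k + y ^ k) (f : Gm) (B : ℕ) (hB : ∀ j, B ≤ j → S j f = 0) :
    ∑ l ∈ range B, evO π (S l f) * y ^ l = evO π' f := by
  have e : (Polynomial.aevalTower (evO π) y).comp sh = evO π' := by
    refine MvPolynomial.algHom_ext fun k => ?_
    by_cases hk : Odd k <;> simp [sh, evO, hk, h]
  rw [← e, AlgHom.comp_apply]
  have : Polynomial.aevalTower (evO π) y (sh f) = (sh f).sum fun l a => evO π a * y ^ l := by
    rw [Polynomial.aevalTower, Polynomial.eval₂AlgHom_apply, Polynomial.eval₂_eq_sum]; rfl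
  rw [this, Polynomial.sum_def]
  symm
  refine Finset.sum_subset (fun l hl => ?_) (fun l _ hl => ?_)
  · by_contra h
    exact (Polynomial.mem_support_iff.1 hl) (hB l (by simpa using h))
  · rw [Polynomial.notMem_support_iff.1 hl]; simp

theorem phi_eval (s : Finset ι) (x : ι → K) (hx : Set.InjOn x s) (h0 : ∀ i ∈ s, x i ≠ 0) (e : ℕ)
    (he : 1 ≤ e) (f : Gm) : evO (fun k => ∑ i ∈ s, x i ^ k) (phi e f) =
      2 * ∑ i ∈ s, x i ^ e * Bf s x i * evO (fun k => ∑ j ∈ s.erase i, x j ^ k) f := by
  obtain ⟨B, hB⟩ := exists_S_bound f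
  rw [phi_eq e f B hB, map_sum]
  have : ∀ l ∈ range B, evO (fun k => ∑ i ∈ s, x i ^ k) ((-1) ^ l * qz (e + l) * S l f) =
      2 * ∑ i ∈ s, x i ^ e * Bf s x i *
        (evO (fun k => ∑ i ∈ s, x i ^ k) (S l f) * (-x i) ^ l) := by
    intro l _
    obtain ⟨m, hm⟩ : ∃ m, e + l = m + 1 := ⟨e + l - 1, by omega⟩
    have : qz (e + l) = q (m + 1) := by
      rw [qz, if_pos (by omega), ← hm]; congr 1
    rw [this, map_mul, map_mul, q_eval s x hx h0, ← hm]
    simp only [map_pow, map_neg, map_one, Finset.mul_sum, Finset.sum_mul]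
    refine Finset.sum_congr rfl fun i _ => ?_
    rw [neg_pow (x i)]; ring
  rw [Finset.sum_congr rfl this, ← Finset.mul_sum, Finset.sum_comm]
  congr 1
  refine Finset.sum_congr rfl fun i hi => ?_
  rw [← Finset.mul_sum, sum_S_eval _ (fun k => ∑ j ∈ s.erase i, x j ^ k) (-x i) _ f B hB]
  intro k hk
  rw [hk.neg_pow, ← Finset.add_sum_erase s _ hi]; ring

end Pool.Agent.STS.QF
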