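import Pool.Agent.P.MP_bb7f8f_gt.FaceA

/-! Bounds for the face factors and the multilinear coefficient. -/

namespace Pool.Agent.STS.QF
open MvPolynomial Finset Equiv

namespace Face

/-- a decreasing arithmetic progression -/
noncomputable def ap (τ δ : ℝ) : ℕ → List ℝ
  | 0 => []
  | n + 1 => (τ + (n + 1 : ℕ) * δ) :: ap τ δ n

theorem ap_length (τ δ : ℝ) (n : ℕ) : (ap τ δ n).length = n := by
  induction n with
  | zero => rfl
  | succ n ih => simp [ap, ih]

theorem ap_mem {τ δ : ℝ} (hδ : 0 < δ) (n : ℕ) : ∀ x ∈ ap τ δ n, τ < x ∧ x ≤ τ + n * δ := by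
  induction n with
  | zero => simp [ap]
  | succ n ih =>
    intro x hx
    rcases List.mem_cons.1 hx with rfl | hx
    · refine ⟨?_, le_rfl⟩
      have : 0 < ((n + 1 : ℕ) : ℝ) * δ := by positivity
      linarith
    · refine ⟨(ih x hx).1, (ih x hx).2.trans ?_⟩
      push_cast
      nlinarith

theorem ap_good {τ δ : ℝ} (hτ : 0 < τ) (hδ : 0 < δ) (n : ℕ) : Good (ap τ δ n) := by
  refine ⟨?_, fun x hx => hτ.trans (ap_mem hδ n x hx).1⟩
  induction n with
  | zero => simp [ap]
  | succ n ih =>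
    refine List.pairwise_cons.2 ⟨fun x hx => ?_, ih⟩
    have := (ap_mem hδ n x hx).2
    show x < _
    push_cast
    nlinarith

theorem PP_ap {τ δ : ℝ} (hτ : 0 < τ) (hδ : 0 < δ) (n : ℕ) : ∀ m : ℕ,
    τ + (n + m + 1 : ℕ) * δ ≤ 1 → 0 ≤ PP (τ + (n + m + 1 : ℕ) * δ) (ap τ δ n) ∧
      PP (τ + (n + m + 1 : ℕ) * δ) (ap τ δ n) ≤
        (2 / δ) ^ n * m.factorial / (n + m).factorial := by
  induction n with
  | zero =>
    intro m _
    have : (m.factorial : ℝ) ≠ 0 := by positivity
    simp [PP, ap, this]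
  | succ n ih =>
    intro m h
    have e : n + 1 + m + 1 = n + (m + 1) + 1 := by ring
    obtain ⟨h1, h2⟩ := ih (m + 1) (e ▸ h)
    rw [← e] at h1 h2
    have h3 : PP (τ + (n + 1 + m + 1 : ℕ) * δ) (ap τ δ (n + 1)) =
        ((τ + (n + 1 + m + 1 : ℕ) * δ + (τ + (n + 1 : ℕ) * δ)) / ((m + 1) * δ)) *
          PP (τ + (n + 1 + m + 1 : ℕ) * δ) (ap τ δ n) := by
      simp only [PP, ap, List.map_cons, List.prod_cons]
      congr 2
      push_cast
      ring
    have h4 : (τ + (n + 1 + m + 1 : ℕ) * δ + (τ + (n + 1 : ℕ) * δ)) / ((m + 1) * δ) ≤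
        2 / ((m + 1) * δ) := by
      refine div_le_div_of_nonneg_right ?_ (by positivity)
      have : ((n + 1 : ℕ) : ℝ) * δ ≤ (n + 1 + m + 1 : ℕ) * δ :=
        mul_le_mul_of_nonneg_right (by exact_mod_cast (by omega)) hδ.le
      linarith
    rw [h3]
    refine ⟨mul_nonneg (by positivity) h1, ?_⟩
    refine (mul_le_mul h4 h2 h1 (by positivity)).trans (le_of_eq ?_)
    rw [show n + (m + 1) = n + 1 + m by ring, Nat.factorial_succ m, pow_succ]
    push_cast
    field_simp

theorem Pi_ap {τ δ : ℝ} (hτ : 0 < τ) (hδ : 0 < δ) (n : ℕ) (h : τ + n * δ ≤ 1) :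
    Pi (ap τ δ n) ≤ Real.exp (2 / δ) ^ n := by
  induction n with
  | zero => simp [Pi, ap]
  | succ n ih =>
    have h1 : τ + n * δ ≤ 1 := by
      push_cast at h
      nlinarith
    obtain ⟨-, h2⟩ := PP_ap hτ hδ n 0 (by simpa using h)
    simp only [add_zero, Nat.factorial_zero, Nat.cast_one, mul_one] at h2
    rw [ap, Pi, pow_succ']
    exact mul_le_mul (h2.trans (Real.pow_div_factorial_le_exp _ (by positivity) n)) (ih h1)
      (Pi_nonneg _ (ap_good hτ hδ n)) (by positivity)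

theorem exists_list {τ₀ τ₁ : ℝ} (h0 : 0 < τ₀) (h01 : τ₀ < τ₁) (h1 : τ₁ < 1) (r : ℕ) :
    ∃ t : List ℝ, t.length = r ∧ Good t ∧ (∀ x ∈ t, τ₀ ≤ x ∧ x ≤ τ₁) ∧
      Pi t ≤ Real.exp (2 / (τ₁ - τ₀)) ^ (r ^ 2) := by
  rcases Nat.eq_zero_or_pos r with rfl | hr
  · exact ⟨[], rfl, ⟨List.Pairwise.nil, by simp⟩, by simp, by simp [Pi]⟩
  have hr' : (0 : ℝ) < r := by exact_mod_cast hr
  have hd : 0 < τ₁ - τ₀ := by linarith
  have hδ : 0 < (τ₁ - τ₀) / r := by positivity
  have he : τ₀ + r * ((τ₁ - τ₀) / r) = τ₁ := by field_simp; ring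
  refine ⟨ap τ₀ ((τ₁ - τ₀) / r) r, ap_length _ _ _, ap_good h0 hδ r, fun x hx => ?_, ?_⟩
  · have := ap_mem hδ r x hx
    rw [he] at this
    exact ⟨this.1.le, this.2⟩
  · refine (Pi_ap h0 hδ r (by rw [he]; exact h1.le)).trans (le_of_eq ?_)
    have h2 : 2 / ((τ₁ - τ₀) / r) = r * (2 / (τ₁ - τ₀)) := by field_simp
    rw [sq, pow_mul, h2, Real.exp_nat_mul]

theorem wt_le {τ : ℝ} (hτ : 0 < τ) : ∀ (t : List ℝ) (e : List ℕ), (∀ x ∈ t, τ ≤ x) →
    e.length = t.length → wt t (e.map fun R : ℕ => (R : ℤ)) ≤ τ⁻¹ ^ e.sum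
  | [], [], _, _ => by simp [wt]
  | [], _ :: _, _, h => by simp at h
  | _ :: _, [], _, h => by simp at h
  | a :: t, e :: es, h, hl => by
    have ha := h a List.mem_cons_self
    have ht : ∀ x ∈ t, τ ≤ x := fun x hx => h x (List.mem_cons_of_mem _ hx)
    rw [List.map_cons, wt, List.sum_cons, pow_add, zpow_neg, zpow_natCast, ← inv_pow]
    refine mul_le_mul (pow_le_pow_left₀ (inv_nonneg.2 (hτ.le.trans ha)) (inv_anti₀ hτ ha) _)
      (wt_le hτ t es ht (by simpa using hl)) (wt_pos _ _ fun x hx => hτ.trans_le (ht x hx)).le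
      (by positivity)

theorem ps_le {τ : ℝ} {t : List ℝ} (h : ∀ x ∈ t, 0 < x ∧ x ≤ τ) (k : ℕ) :
    ps t k ≤ t.length * τ ^ k := by
  have := List.sum_le_card_nsmul (t.map fun x => x ^ k) (τ ^ k) (fun y hy => by
    obtain ⟨x, hx, rfl⟩ := List.mem_map.1 hy
    exact pow_le_pow_left₀ (h x hx).1.le (h x hx).2 k)
  simpa [ps] using this

theorem PP_one_le {τ : ℝ} (h1 : τ < 1) : ∀ t : List ℝ, (∀ x ∈ t, 0 < x ∧ x ≤ τ) →
    0 ≤ PP 1 t ∧ PP 1 t ≤ (2 / (1 - τ)) ^ t.length
  | [], _ => by simp [PP]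
  | a :: t, h => by
    obtain ⟨ha, ha'⟩ := h a List.mem_cons_self
    obtain ⟨h2, h3⟩ := PP_one_le h1 t fun x hx => h x (List.mem_cons_of_mem _ hx)
    have h4 : PP 1 (a :: t) = (1 + a) / (1 - a) * PP 1 t := by simp [PP]
    have h5 : 0 < 1 - τ := by linarith
    have h6 : 0 < 1 - a := by linarith
    rw [h4, List.length_cons, pow_succ']
    refine ⟨mul_nonneg (by positivity) h2, mul_le_mul ?_ h3 h2 (by positivity)⟩
    exact div_le_div₀ (by norm_num) (by linarith) h5 (by linarith)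

theorem bound_of {I : Type} [Fintype I] (κ : I → ℕ) {t : List ℝ} (hg : Good t) (e : List ℤ)
    (he : e.length = t.length) (b : ℕ → ℝ) (hb : ∀ k, ps t k ≤ b k) {P W : ℝ} (hP : Pi t ≤ P)
    (hW : wt t e ≤ W) :
    |((constantCoeff (ddI κ (Q e)) : ℚ) : ℝ)| ≤ P * W * ∏ i, (2 / (κ i : ℝ) * b (κ i)) := by
  have h1 := (Rep.cc t hg ((Rep.basic e he).dd hg.2 ((univ : Finset I).toList.map κ))).1
  rw [List.map_map, Finset.prod_map_toList] at h1
  refine h1.trans ?_
  have h2 : 0 < wt t e := wt_pos _ _ hg.2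
  have h3 : ∀ i, 0 ≤ 2 / (κ i : ℝ) * ps t (κ i) := fun i =>
    mul_nonneg (by positivity) (ps_nonneg hg.2 _)
  have h4 : ∏ i, 2 / (κ i : ℝ) * ps t (κ i) ≤ ∏ i, (2 / (κ i : ℝ) * b (κ i)) :=
    prod_le_prod (fun i _ => h3 i) fun i _ => mul_le_mul_of_nonneg_left (hb _) (by positivity)
  have h5 : 0 ≤ ∏ i, 2 / (κ i : ℝ) * ps t (κ i) := prod_nonneg fun i _ => h3 i
  have h6 := Pi_nonneg t hg
  rw [mul_assoc, mul_comm W]
  exact mul_le_mul hP (mul_le_mul h4 hW h2.le (h5.trans h4)) (mul_nonneg h5 h2.le) (h6.trans hP)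

theorem dd_qz (l : List ℕ) (hl : ∀ k ∈ l, Odd k) (e : ℤ) :
    l.foldr (fun k g => pderiv k g) (qz e) =
      C ((l.map fun k : ℕ => 2 / (k : ℚ)).prod) * qz (e - l.sum) := by
  induction l with
  | nil => simp
  | cons k l ih =>
    rw [List.foldr_cons, ih fun j hj => hl j (List.mem_cons_of_mem _ hj), pderiv_C_mul, pderiv_qz,
      if_pos (hl k List.mem_cons_self), List.map_cons, List.prod_cons, List.sum_cons, C_mul,
      show e - (l.sum : ℕ) - k = e - (k + l.sum : ℕ) by push_cast; ring]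
    ring

section Multi
variable {I R : Type} [CommRing R] [Algebra ℚ R]

theorem chain (g : ℕ → MvPolynomial I R) (i : I) (f : Gm) : ∃ K₀, ∀ K ≥ K₀,
    pderiv i (evO g f) = ∑ k ∈ range K, pderiv i (evO g (X k)) * evO g (pderiv k f) := by
  induction f using MvPolynomial.induction_on with
  | C a =>
    refine ⟨0, fun K _ => ?_⟩
    have : evO g (C a) = C (algebraMap ℚ R a) := by
      rw [← MvPolynomial.algebraMap_eq, AlgHom.commutes]
      rfl
    rw [this, pderiv_C]
    simp only [pderiv_C, map_zero, mul_zero, sum_const_zero]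
  | add f f' hf hf' =>
    obtain ⟨K₁, h1⟩ := hf
    obtain ⟨K₂, h2⟩ := hf'
    refine ⟨max K₁ K₂, fun K hK => ?_⟩
    simp only [map_add, mul_add, sum_add_distrib]
    rw [h1 K (le_of_max_le_left hK), h2 K (le_of_max_le_right hK)]
  | mul_X f k hf =>
    obtain ⟨K₁, h1⟩ := hf
    refine ⟨max K₁ (k + 1), fun K hK => ?_⟩
    have hk : k ∈ range K := mem_range.2 (le_of_max_le_right hK)
    simp only [map_mul, pderiv_mul, map_add, mul_add, sum_add_distrib]
    rw [h1 K (le_of_max_le_left hK), sum_mul]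
    congr 1
    · exact sum_congr rfl fun j _ => by ring
    · rw [sum_eq_single_of_mem k hk]
      · simp [mul_comm]
      · intro j _ hj
        simp [pderiv_X_of_ne hj.symm]

theorem cc_evO (g : ℕ → MvPolynomial I R) (hg : ∀ k, constantCoeff (g k) = 0) (f : Gm) :
    constantCoeff (evO g f) = algebraMap ℚ R (constantCoeff f) := by
  induction f using MvPolynomial.induction_on with
  | C a =>
    have : evO g (C a) = C (algebraMap ℚ R a) := by
      rw [← MvPolynomial.algebraMap_eq, AlgHom.commutes]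
      rfl
    rw [this, constantCoeff_C, constantCoeff_C]
  | add f f' h1 h2 => simp only [map_add, h1, h2]
  | mul_X f k h1 =>
    have : constantCoeff (evO g (X k)) = 0 := by
      simp only [evO, aeval_X]
      split_ifs
      · exact hg k
      · simp
    simp only [map_mul, this, constantCoeff_X, mul_zero, map_zero]

variable [DecidableEq I]

omit [Algebra ℚ R] in
theorem coeff_foldr (P : MvPolynomial I R) (l : List I) (hl : l.Nodup) : ∀ m : I →₀ ℕ,
    (∀ i ∈ l, m i = 0) → coeff m (l.foldr (fun i g => pderiv i g) P) =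
      coeff (m + (l.map fun i => Finsupp.single i 1).sum) P := by
  induction l with
  | nil => simp
  | cons i l ih =>
    intro m hm
    obtain ⟨hi, hl⟩ := List.nodup_cons.1 hl
    rw [List.foldr_cons, coeff_pderiv, hm i List.mem_cons_self, ih hl, List.map_cons,
      List.sum_cons, add_assoc]
    · simp
    · intro j hj
      have : i ≠ j := fun h => hi (h ▸ hj)
      simp [hm j (List.mem_cons_of_mem _ hj), this]

variable [Fintype I]

/-- exponent vectors supported on `l` with values in `O` -/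
def TT (O : Finset ℕ) (l : List I) : Finset (I → ℕ) :=
  Fintype.piFinset fun i => if i ∈ l then O else {0}

omit [Algebra ℚ R] in
theorem sum_TT_cons (O : Finset ℕ) {i : I} {l : List I} (hi : i ∉ l) (F : (I → ℕ) → R) :
    ∑ κ ∈ TT O (i :: l), F κ = ∑ κ ∈ TT O l, ∑ k ∈ O, F (Function.update κ i k) := by
  rw [← sum_product']
  refine sum_nbij' (fun κ => (Function.update κ i 0, κ i)) (fun p => Function.update p.1 i p.2)
    ?_ ?_ ?_ ?_ ?_
  · intro κ hκ
    simp only [TT, Fintype.mem_piFinset, mem_product] at hκ ⊢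
    refine ⟨fun j => ?_, by simpa using hκ i⟩
    by_cases hj : j = i
    · subst hj
      simp [hi]
    · simpa [hj] using hκ j
  · intro p hp
    simp only [TT, Fintype.mem_piFinset, mem_product] at hp ⊢
    intro j
    by_cases hj : j = i
    · subst hj
      simpa using hp.2
    · simpa [hj] using hp.1 j
  · intro κ _
    simp
  · intro p hp
    simp only [TT, Fintype.mem_piFinset, mem_product] at hp
    have h1 : p.1 i = 0 := by simpa [hi] using hp.1 i
    simp [← h1]
  · intro κ _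
    simp

theorem foldr_evO (x : I → R) {t : List ℝ} (hg : Good t) (D : ℕ) {f : Gm} {B : ℝ}
    (hf : Rep t D f B) (l : List I) (hl : l.Nodup) :
    l.foldr (fun i g => pderiv i g)
      (evO (fun k => ∑ i, X i * C (x i ^ k) : ℕ → MvPolynomial I R) f) =
    ∑ κ ∈ TT ((range (D + 1)).filter Odd) l, C ((l.map fun i => x i ^ κ i).prod) *
      evO (fun k => ∑ i, X i * C (x i ^ k) : ℕ → MvPolynomial I R)
        ((l.map κ).foldr (fun k g => pderiv k g) f) := by
  induction l with
  | nil =>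
    have : TT ((range (D + 1)).filter Odd) ([] : List I) = {fun _ => 0} := by
      simp [TT]
    simp [this]
  | cons i l ih =>
    obtain ⟨hi, hl⟩ := List.nodup_cons.1 hl
    rw [List.foldr_cons, ih hl, map_sum, sum_TT_cons _ hi]
    refine sum_congr rfl fun κ _ => ?_
    have h0 : ∀ j ∈ l, j ≠ i := fun j hj h => hi (h ▸ hj)
    have h1 : ∀ k, l.map (Function.update κ i k) = l.map κ := fun k =>
      List.map_congr_left fun j hj => Function.update_of_ne (h0 j hj) _ _
    have h2 : ∀ k, (l.map fun j => x j ^ Function.update κ i k j) = l.map fun j => x j ^ κ j :=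
      fun k => List.map_congr_left fun j hj => by
        rw [Function.update_of_ne (h0 j hj)]
    simp only [List.map_cons, List.prod_cons, List.foldr_cons, Function.update_self, h1, h2]
    have h3 := hf.dd hg.2 (l.map κ)
    set h := (l.map κ).foldr (fun k g => pderiv k g) f
    obtain ⟨K₀, hK⟩ := chain (fun k => ∑ i, X i * C (x i ^ k) : ℕ → MvPolynomial I R) i h
    have h4 : ∀ k, pderiv i (evO (fun k => ∑ i, X i * C (x i ^ k) : ℕ → MvPolynomial I R) (X k)) =
        if Odd k then C (x i ^ k) else 0 := by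
      intro k
      simp only [evO, aeval_X]
      split_ifs
      · rw [map_sum, sum_eq_single i]
        · simp [pderiv_mul]
        · intro j _ hj
          simp [pderiv_mul, pderiv_X_of_ne hj]
        · simp
      · simp
    rw [pderiv_C_mul, hK (max K₀ (D + 1)) (le_max_left _ _), mul_sum, sum_filter]
    symm
    refine sum_subset_zero_on_sdiff (range_subset_range.2 (le_max_right _ _)) (fun k hk => ?_)
      fun k _ => ?_
    · have h5 : D + 1 ≤ k := by simpa using (mem_sdiff.1 hk).2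
      rw [(Rep.cc t hg (h3.pderiv hg.2 k)).2.2 (by omega)]
      simp
    · rw [h4]
      split_ifs
      · rw [C_mul]
        ring
      · simp

end Multi

end Face

open Face

variable {H J I : Type} [Fintype H] [DecidableEq H] [Fintype J] [DecidableEq J]
  [Fintype I] [DecidableEq I]

theorem face_bound (τ₀ τ₁ : ℝ) (h0 : 0 < τ₀) (h01 : τ₀ < τ₁) (h1 : τ₁ < 1) : ∃ C : ℝ, 1 ≤ C ∧
    ∀ (D : ℕ) (A : Finset ℕ), A ∈ SP D → ∀ (I : Type) [Fintype I] [DecidableEq I] (κ : I → ℕ),
      κ ∈ OT I D →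
      |((constantCoeff (ddI κ (Q (sl A))) : ℚ) : ℝ)| ≤ C ^ (#A ^ 2) * τ₀⁻¹ ^ (D - A.sup id) *
        ∏ i, (2 / (κ i : ℝ) * (1 + ((#A - 1 : ℕ) : ℝ) * τ₁ ^ κ i)) ∧
      |((constantCoeff (ddI κ (Q (sl A))) : ℚ) : ℝ)| ≤ C ^ (#A ^ 2) * τ₀⁻¹ ^ D *
        ∏ i, (2 / (κ i : ℝ) * (#A * τ₁ ^ κ i)) := by
  have hd : 0 < τ₁ - τ₀ := by linarith
  have hd' : 0 < 1 - τ₁ := by linarith
  have hE : 1 ≤ Real.exp (2 / (τ₁ - τ₀)) := Real.one_le_exp (by positivity)
  have hF : 1 ≤ 2 / (1 - τ₁) := by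
    rw [le_div_iff₀ hd']
    linarith
  set E := Real.exp (2 / (τ₁ - τ₀)) with hEdef
  set F := 2 / (1 - τ₁) with hFdef
  refine ⟨F * E, one_le_mul_of_one_le_of_one_le hF hE, fun D A hA I _ _ κ _ => ?_⟩
  have hsum : (A.sort (· ≥ ·)).sum = D := by
    rw [(Finset.sort_perm_toList A _).sum_eq, Finset.sum_toList]
    exact (mem_filter.1 hA).2
  have hlen : (A.sort (· ≥ ·)).length = #A := Finset.length_sort _
  constructor
  · unfold sl
    rcases hL : A.sort (· ≥ ·) with _ | ⟨a, L⟩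
    · rw [hL] at hsum hlen
      have hA0 : #A = 0 := hlen.symm
      have hD : D = 0 := hsum.symm
      refine bound_of κ (t := []) ⟨List.Pairwise.nil, by simp⟩ _ rfl
        (fun k => 1 + ((#A - 1 : ℕ) : ℝ) * τ₁ ^ k) (fun k => by simp [ps, hA0]) (by simp [Pi, hA0])
        (by simp [wt, hD])
    · obtain ⟨t, ht1, ht2, ht3, ht4⟩ := exists_list h0 h01 h1 L.length
      have ht5 : ∀ x ∈ t, 0 < x ∧ x ≤ τ₁ := fun x hx => ⟨ht2.2 x hx, (ht3 x hx).2⟩
      have hg : Good (1 :: t) := ⟨List.pairwise_cons.2 ⟨fun x hx => (ht3 x hx).2.trans_lt h1,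
        ht2.1⟩, fun x hx => by
          rcases List.mem_cons.1 hx with rfl | hx
          · exact one_pos
          · exact ht2.2 x hx⟩
      have hsup : A.sup id = a := by
        have h2 := Finset.pairwise_sort A (· ≥ ·)
        rw [hL] at h2
        refine le_antisymm (Finset.sup_le fun y hy => ?_) (Finset.le_sup (f := id) ?_)
        · rw [← Finset.mem_sort (· ≥ ·), hL] at hy
          rcases List.mem_cons.1 hy with rfl | hy
          · exact le_rfl
          · exact (List.pairwise_cons.1 h2).1 y hy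
        · rw [← Finset.mem_sort (· ≥ ·), hL]
          exact List.mem_cons_self
      rw [hL] at hsum hlen
      rw [List.sum_cons] at hsum
      rw [List.length_cons] at hlen
      refine bound_of κ hg _ (by simp [ht1]) (fun k => 1 + ((#A - 1 : ℕ) : ℝ) * τ₁ ^ k)
        (fun k => ?_) ?_ ?_
      · have := ps_le ht5 k
        rw [ht1] at this
        simpa [ps, ← hlen] using this
      · obtain ⟨h2, h3⟩ := PP_one_le h1 t ht5
        rw [Pi, mul_pow]
        refine mul_le_mul (h3.trans (pow_le_pow_right₀ hF ?_)) (ht4.trans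
          (pow_le_pow_right₀ hE ?_)) (Pi_nonneg _ ht2) (by positivity)
        · rw [ht1, ← hlen]
          nlinarith
        · rw [← hlen]
          nlinarith
      · rw [List.map_cons, wt, one_zpow, one_mul, hsup, show D - a = L.sum by omega]
        exact wt_le h0 t L (fun x hx => (ht3 x hx).1) ht1.symm
  · obtain ⟨t, ht1, ht2, ht3, ht4⟩ := exists_list h0 h01 h1 #A
    have ht5 : ∀ x ∈ t, 0 < x ∧ x ≤ τ₁ := fun x hx => ⟨ht2.2 x hx, (ht3 x hx).2⟩
    refine bound_of κ ht2 _ (by simp [sl, ht1]) (fun k => #A * τ₁ ^ k) (fun k => ?_) ?_ ?_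
    · have := ps_le ht5 k
      rwa [ht1] at this
    · exact ht4.trans (pow_le_pow_left₀ (by positivity) (le_mul_of_one_le_left (by positivity) hF) _)
    · rw [← hsum]
      exact wt_le h0 t _ (fun x hx => (ht3 x hx).1) (hlen.trans ht1.symm)

theorem face_main (D : ℕ) (κ : I → ℕ) (hκ : κ ∈ OT I D) :
    constantCoeff (ddI κ (Q (sl {D}))) = ∏ i, 2 / (κ i : ℚ) := by
  obtain ⟨h1, h2⟩ := (mem_filter.1 hκ).2
  have h3 : sl {D} = [(D : ℤ)] := by simp [sl]
  rw [h3, Q_single, ddI, dd_qz, List.map_map, Finset.prod_map_toList, Finset.sum_map_toList, h2]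
  · simp [cc_qz]
  · intro k hk
    obtain ⟨i, -, rfl⟩ := List.mem_map.1 hk
    exact h1 i

theorem multilin {R : Type} [CommRing R] [Algebra ℚ R] (x : I → R) (e : List ℤ) (D : ℕ)
    (he : e.sum = D) :
    coeff (ones I) (evO (fun k => ∑ i, X i * C (x i ^ k) : ℕ → MvPolynomial I R) (Q e)) =
      ∑ κ ∈ OT I D, constantCoeff (ddI κ (Q e)) • ∏ i, x i ^ κ i := by
  have hg : Good (ap 1 1 e.length) := ap_good one_pos one_pos _
  have hf := (Rep.basic e (ap_length 1 1 e.length).symm).cast he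
  have h1 : ones I = 0 + ((univ : Finset I).toList.map fun i => Finsupp.single i 1).sum := by
    rw [zero_add, Finset.sum_map_toList]
    ext j
    simp [ones, Finsupp.finset_sum_apply, Finsupp.single_apply]
  rw [h1, ← coeff_foldr _ _ (Finset.nodup_toList _) 0 (by simp),
    foldr_evO x hg D hf _ (Finset.nodup_toList _), ← constantCoeff_eq, map_sum]
  symm
  refine sum_subset_zero_on_sdiff (fun κ hκ => ?_) (fun κ hκ => ?_) fun κ _ => ?_
  · simp only [OT, TT, mem_filter, Fintype.mem_piFinset] at hκ ⊢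
    intro i
    simpa using ⟨by simpa using hκ.1 i, hκ.2.1 i⟩
  · obtain ⟨h2, h3⟩ := mem_sdiff.1 hκ
    simp only [OT, TT, mem_filter, Fintype.mem_piFinset] at h2 h3
    have h4 : ∀ i, κ i ∈ range (D + 1) ∧ Odd (κ i) := fun i => by simpa using h2 i
    have h5 : univ.sum κ ≠ D := fun h => h3 ⟨fun i => (h4 i).1, fun i => (h4 i).2, h⟩
    have h6 := (Rep.cc _ hg (hf.dd hg.2 ((univ : Finset I).toList.map κ))).2.1 (by
      rw [Finset.sum_map_toList]
      omega)
    rw [map_mul, cc_evO _ (by simp), h6]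
    simp
  · rw [map_mul, cc_evO _ (by simp), constantCoeff_C, Finset.prod_map_toList, Algebra.smul_def,
      mul_comm]
    rfl

end Pool.Agent.STS.QF
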