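import Pool.Agent.P.MP_bb7f8f_gt.QMid

/-! Majorants for combinations of Schur `Q`-functions. -/

namespace Pool.Agent.STS.QF.Face
open MvPolynomial Finset

/-- the weight of an index list -/
noncomputable def wt : List ℝ → List ℤ → ℝ
  | t :: ts, e :: es => t ^ (-e) * wt ts es
  | _, _ => 1

/-- `g` is a combination of functions `Q e` of degree `s` with weighted mass at most `B` -/
inductive Rep (t : List ℝ) : ℤ → Gm → ℝ → Prop
  | basic (e : List ℤ) (h : e.length = t.length) : Rep t e.sum (Q e) (wt t e)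
  | zero (s : ℤ) : Rep t s 0 0
  | add {s : ℤ} {f g : Gm} {A B : ℝ} : Rep t s f A → Rep t s g B → Rep t s (f + g) (A + B)
  | smul {s : ℤ} {f : Gm} {A : ℝ} (c : ℚ) : Rep t s f A → Rep t s (C c * f) (|(c : ℝ)| * A)
  | mono {s : ℤ} {f : Gm} {A B : ℝ} : Rep t s f A → A ≤ B → Rep t s f B

theorem Rep.cast {t : List ℝ} {s s' : ℤ} {f : Gm} {A : ℝ} (h : Rep t s f A) (hs : s = s') :
    Rep t s' f A := hs ▸ h

theorem Rep.sum {t : List ℝ} {s : ℤ} {ι : Type} (S : Finset ι) (f : ι → Gm) (A : ι → ℝ)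
    (h : ∀ i ∈ S, Rep t s (f i) (A i)) : Rep t s (∑ i ∈ S, f i) (∑ i ∈ S, A i) := by
  classical
  induction S using Finset.induction_on with
  | empty => simpa using Rep.zero s
  | insert a S ha ih =>
    rw [sum_insert ha, sum_insert ha]
    exact (h a (mem_insert_self _ _)).add (ih fun i hi => h i (mem_insert_of_mem hi))

theorem Rep.map {t t' : List ℝ} (L : Gm →ₗ[ℚ] Gm) (d : ℤ) (K : ℝ) (hK : 0 ≤ K)
    (hL : ∀ e : List ℤ, e.length = t.length → Rep t' (e.sum + d) (L (Q e)) (K * wt t e))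
    {s : ℤ} {g : Gm} {B : ℝ} (h : Rep t s g B) : Rep t' (s + d) (L g) (K * B) := by
  induction h with
  | basic e h => exact hL e h
  | zero s => simpa using Rep.zero _
  | add _ _ ih1 ih2 => rw [map_add, mul_add]; exact ih1.add ih2
  | smul c _ ih =>
    rw [C_mul', map_smul, ← C_mul', mul_left_comm]
    exact ih.smul c
  | mono _ hAB ih => exact ih.mono (mul_le_mul_of_nonneg_left hAB hK)

/-- strictly decreasing lists of positive reals -/
def Good (t : List ℝ) : Prop := t.Pairwise (· > ·) ∧ ∀ x ∈ t, 0 < x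

theorem Good.tail {a : ℝ} {t : List ℝ} (h : Good (a :: t)) : Good t :=
  ⟨(List.pairwise_cons.1 h.1).2, fun x hx => h.2 x (List.mem_cons_of_mem _ hx)⟩

theorem Good.lt {a : ℝ} {t : List ℝ} (h : Good (a :: t)) : ∀ x ∈ t, x < a :=
  (List.pairwise_cons.1 h.1).1

theorem Good.pos {a : ℝ} {t : List ℝ} (h : Good (a :: t)) : 0 < a := h.2 a List.mem_cons_self

theorem wt_pos : ∀ (t : List ℝ) (e : List ℤ), (∀ x ∈ t, 0 < x) → 0 < wt t e
  | [], _, _ => by simp [wt]
  | _ :: _, [], _ => by simp [wt]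
  | a :: t, e :: es, h => by
    rw [wt]
    exact mul_pos (zpow_pos (h a List.mem_cons_self) _)
      (wt_pos t es fun x hx => h x (List.mem_cons_of_mem _ hx))

theorem Rep.phi {t : List ℝ} {a : ℝ} (ha : 0 < a) (e : ℤ) {s : ℤ} {g : Gm} {B : ℝ}
    (h : Rep t s g B) : Rep (a :: t) (s + e) (phi e g) (a ^ (-e) * B) := by
  refine Rep.map (QF.phi e) e _ (zpow_pos ha _).le (fun es hes => ?_) h
  exact (Rep.basic (t := a :: t) (e :: es) (by simpa using hes)).cast (by simp [add_comm])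

/-- the factor created by moving an operator with parameter `τ` to the right -/
noncomputable def PP (τ : ℝ) (t : List ℝ) : ℝ := (t.map fun x => (τ + x) / (τ - x)).prod

theorem PP_nonneg {τ : ℝ} {t : List ℝ} (h : Good (τ :: t)) : 0 ≤ PP τ t := by
  refine List.prod_nonneg fun y hy => ?_
  obtain ⟨x, hx, rfl⟩ := List.mem_map.1 hy
  have h1 := h.lt x hx
  have h2 := h.tail.2 x hx
  exact div_nonneg (by linarith) (by linarith)

theorem sum_w_eq (a τ : ℝ) (j : ℕ) :
    (∑ p ∈ antidiagonal j, |(w p.1 : ℝ)| * a ^ p.1 * τ ^ p.2) * (τ - a) =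
      τ ^ j * (τ + a) - 2 * a ^ (j + 1) := by
  induction j with
  | zero => simp [w]; ring
  | succ j ih =>
    rw [Finset.Nat.sum_antidiagonal_succ']
    have h1 : ∑ p ∈ antidiagonal j, |(w p.1 : ℝ)| * a ^ p.1 * τ ^ (p.2 + 1) =
        τ * ∑ p ∈ antidiagonal j, |(w p.1 : ℝ)| * a ^ p.1 * τ ^ p.2 := by
      rw [mul_sum]
      exact sum_congr rfl fun p _ => by ring
    have h2 : |(w (j + 1) : ℝ)| = 2 := by simp [w]
    simp only [h1, h2]
    linear_combination τ * ih

theorem rep_S_Q {τ : ℝ} : ∀ (t : List ℝ) (e : List ℤ), Good (τ :: t) → e.length = t.length →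
    ∀ j : ℕ, Rep t (e.sum + -(j : ℤ)) (S j (Q e)) (τ ^ j * PP τ t * wt t e)
  | [], [], h, _, j => by
    rw [Q, S_one]
    split_ifs with hj
    · subst hj
      simpa [PP, Q] using Rep.basic (t := []) [] rfl
    · refine (Rep.zero _).mono ?_
      have := h.pos
      simp only [PP, wt, List.map_nil, List.prod_nil, mul_one]
      positivity
  | [], _ :: _, _, h, _ => by simp at h
  | _ :: _, [], _, h, _ => by simp at h
  | a :: t, e :: es, h, hl, j => by
    have ha : 0 < a := h.tail.pos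
    have haτ : a < τ := h.lt a List.mem_cons_self
    have hg : Good (τ :: t) := ⟨List.pairwise_cons.2 ⟨fun x hx =>
      h.lt x (List.mem_cons_of_mem _ hx), h.tail.tail.1⟩, fun x hx => by
        rcases List.mem_cons.1 hx with rfl | hx
        · exact h.pos
        · exact h.tail.tail.2 x hx⟩
    rw [Q, S_phi]
    refine (Rep.sum (antidiagonal j) _ (fun p => |(w p.1 : ℝ)| *
      (a ^ (-(e - p.1)) * (τ ^ p.2 * PP τ t * wt t es))) fun p hp => ?_).mono ?_
    · refine Rep.smul _ (((rep_S_Q t es hg (by simpa using hl) p.2).phi ha (e - p.1)).cast ?_)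
      have := mem_antidiagonal.1 hp
      simp only [List.sum_cons]
      omega
    · have h1 : ∀ p : ℕ × ℕ, |(w p.1 : ℝ)| * (a ^ (-(e - p.1)) * (τ ^ p.2 * PP τ t * wt t es)) =
          |(w p.1 : ℝ)| * a ^ p.1 * τ ^ p.2 * (PP τ t * (a ^ (-e) * wt t es)) := by
        intro p
        rw [neg_sub, sub_eq_add_neg, zpow_add₀ ha.ne', zpow_natCast]
        ring
      simp only [h1]
      rw [← sum_mul, wt]
      have h2 : ∑ p ∈ antidiagonal j, |(w p.1 : ℝ)| * a ^ p.1 * τ ^ p.2 ≤
          τ ^ j * ((τ + a) / (τ - a)) := by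
        rw [← mul_div_assoc, le_div_iff₀ (by linarith), sum_w_eq]
        have : 0 < a ^ (j + 1) := by positivity
        linarith
      have h3 : 0 ≤ PP τ t * (a ^ (-e) * wt t es) :=
        mul_nonneg (PP_nonneg hg) (mul_pos (zpow_pos ha _) (wt_pos _ _ hg.tail.2)).le
      refine (mul_le_mul_of_nonneg_right h2 h3).trans (le_of_eq ?_)
      simp only [PP, List.map_cons, List.prod_cons]
      ring

theorem Rep.S {τ : ℝ} {t : List ℝ} (hg : Good (τ :: t)) (j : ℕ) {s : ℤ} {g : Gm} {B : ℝ}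
    (h : Rep t s g B) : Rep t (s + -(j : ℤ)) (S j g) (τ ^ j * PP τ t * B) :=
  Rep.map (QF.S j) _ _ (mul_nonneg (pow_pos hg.pos _).le (PP_nonneg hg))
    (fun e he => rep_S_Q t e hg he j) h

/-- power sums -/
noncomputable def ps (t : List ℝ) (k : ℕ) : ℝ := (t.map fun x => x ^ k).sum

theorem ps_nonneg {t : List ℝ} (h : ∀ x ∈ t, 0 < x) (k : ℕ) : 0 ≤ ps t k := by
  refine List.sum_nonneg fun y hy => ?_
  obtain ⟨x, hx, rfl⟩ := List.mem_map.1 hy
  exact (pow_pos (h x hx) _).le

theorem rep_pderiv_Q (k : ℕ) : ∀ (t : List ℝ) (e : List ℤ), (∀ x ∈ t, 0 < x) →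
    e.length = t.length →
    Rep t (e.sum + -(k : ℤ)) (pderiv k (Q e)) (2 / (k : ℝ) * ps t k * wt t e)
  | [], [], _, _ => by simpa [Q, ps] using Rep.zero _
  | [], _ :: _, _, h => by simp at h
  | _ :: _, [], _, h => by simp at h
  | a :: t, e :: es, h, hl => by
    have ha : 0 < a := h a List.mem_cons_self
    have ht : ∀ x ∈ t, 0 < x := fun x hx => h x (List.mem_cons_of_mem _ hx)
    have hl' : es.length = t.length := by simpa using hl
    rw [Q, pderiv_phi]
    have h1 : Rep (a :: t) ((e :: es).sum + -(k : ℤ))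
        (if Odd k then C (2 / (k : ℚ)) * phi (e - k) (Q es) else 0)
        (2 / (k : ℝ) * (a ^ (-(e - k)) * wt t es)) := by
      split_ifs
      · have := (((Rep.basic es hl').phi ha (e - k)).smul (2 / (k : ℚ))).cast
          (s' := (e :: es).sum + -(k : ℤ)) (by simp only [List.sum_cons]; ring)
        rwa [abs_of_nonneg (by positivity), Rat.cast_div, Rat.cast_ofNat, Rat.cast_natCast] at this
      · refine (Rep.zero _).mono ?_
        have := wt_pos t es ht
        positivity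
    have h2 := ((rep_pderiv_Q k t es ht hl').phi ha e).cast
      (s' := (e :: es).sum + -(k : ℤ)) (by simp only [List.sum_cons]; ring)
    refine (h1.add h2).mono (le_of_eq ?_)
    rw [neg_sub, sub_eq_add_neg, zpow_add₀ ha.ne', zpow_natCast, wt]
    simp only [ps, List.map_cons, List.sum_cons]
    ring

theorem Rep.pderiv {t : List ℝ} (ht : ∀ x ∈ t, 0 < x) (k : ℕ) {s : ℤ} {g : Gm} {B : ℝ}
    (h : Rep t s g B) : Rep t (s + -(k : ℤ)) (pderiv k g) (2 / (k : ℝ) * ps t k * B) :=
  Rep.map (MvPolynomial.pderiv k : Derivation ℚ Gm Gm).toLinearMap _ _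
    (mul_nonneg (by positivity) (ps_nonneg ht k)) (fun e he => rep_pderiv_Q k t e ht he) h

theorem Rep.dd {t : List ℝ} (ht : ∀ x ∈ t, 0 < x) {s : ℤ} {g : Gm} {B : ℝ} (h : Rep t s g B)
    (l : List ℕ) : Rep t (s - l.sum) (l.foldr (fun k g => MvPolynomial.pderiv k g) g)
      ((l.map fun k : ℕ => 2 / (k : ℝ) * ps t k).prod * B) := by
  induction l with
  | nil => simpa using h
  | cons k l ih =>
    simp only [List.foldr_cons, List.map_cons, List.prod_cons, List.sum_cons]
    rw [mul_assoc]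
    exact (ih.pderiv ht k).cast (by push_cast; ring)

theorem cc_q (m : ℕ) : constantCoeff (q m) = if m = 0 then 1 else 0 := by
  cases m with
  | zero => simp [q_zero]
  | succ m =>
    rw [q, map_mul, map_sum, sum_eq_zero, mul_zero, if_neg (by omega)]
    intro j _
    rw [map_mul, pp]
    split_ifs <;> simp

theorem cc_qz (e : ℤ) : constantCoeff (qz e) = if e = 0 then 1 else 0 := by
  unfold qz
  by_cases he : 0 ≤ e
  · rw [if_pos he, cc_q]
    exact if_congr (by omega) rfl rfl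
  · rw [if_neg he, if_neg (by omega), map_zero]

theorem cc_phi_pos {e : ℤ} (he : 0 < e) (g : Gm) : constantCoeff (phi e g) = 0 := by
  obtain ⟨B, hB⟩ := exists_S_bound g
  rw [phi_eq e g B hB, map_sum]
  refine sum_eq_zero fun l _ => ?_
  rw [map_mul, map_mul, cc_qz, if_neg (by omega)]
  simp

theorem cc_phi_neg (j : ℕ) (g : Gm) :
    constantCoeff (phi (-(j : ℤ)) g) = (-1) ^ j * constantCoeff (S j g) := by
  obtain ⟨B, hB⟩ := exists_S_bound g
  rw [phi_eq _ g (B + j + 1) (fun l hl => hB l (by omega)), map_sum, sum_eq_single j]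
  · simp [cc_qz]
  · intro l _ hl
    rw [map_mul, map_mul, cc_qz, if_neg (by omega)]
    simp
  · intro h
    exact absurd (mem_range.2 (by omega)) h

/-- the product of all pair factors -/
noncomputable def Pi : List ℝ → ℝ
  | [] => 1
  | a :: t => PP a t * Pi t

theorem Pi_nonneg : ∀ t : List ℝ, Good t → 0 ≤ Pi t
  | [], _ => by simp [Pi]
  | _ :: t, h => mul_nonneg (PP_nonneg h) (Pi_nonneg t h.tail)

theorem cc_of_basic {t : List ℝ} {K : ℝ} (hK : 0 ≤ K)
    (hb : ∀ e : List ℤ, e.length = t.length →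
      |((constantCoeff (Q e) : ℚ) : ℝ)| ≤ K * wt t e ∧ (e.sum ≠ 0 → constantCoeff (Q e) = 0) ∧
        (e.sum < 0 → Q e = 0))
    {s : ℤ} {g : Gm} {B : ℝ} (h : Rep t s g B) :
    |((constantCoeff g : ℚ) : ℝ)| ≤ K * B ∧ (s ≠ 0 → constantCoeff g = 0) ∧ (s < 0 → g = 0) := by
  induction h with
  | basic e h => exact hb e h
  | zero s => simp
  | add _ _ ih1 ih2 =>
    refine ⟨?_, fun hs => by rw [map_add, ih1.2.1 hs, ih2.2.1 hs, add_zero],
      fun hs => by rw [ih1.2.2 hs, ih2.2.2 hs, add_zero]⟩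
    rw [map_add, Rat.cast_add, mul_add]
    exact (abs_add_le _ _).trans (add_le_add ih1.1 ih2.1)
  | smul c _ ih =>
    refine ⟨?_, fun hs => by rw [map_mul, ih.2.1 hs, mul_zero],
      fun hs => by rw [ih.2.2 hs, mul_zero]⟩
    rw [map_mul, constantCoeff_C, Rat.cast_mul, abs_mul, mul_left_comm]
    exact mul_le_mul_of_nonneg_left ih.1 (abs_nonneg _)
  | mono _ hAB ih => exact ⟨ih.1.trans (mul_le_mul_of_nonneg_left hAB hK), ih.2⟩

theorem Rep.cc : ∀ (t : List ℝ), Good t → ∀ {s : ℤ} {g : Gm} {B : ℝ}, Rep t s g B →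
    |((constantCoeff g : ℚ) : ℝ)| ≤ Pi t * B ∧ (s ≠ 0 → constantCoeff g = 0) ∧ (s < 0 → g = 0)
  | [], hg, _, _, _, h => by
    refine cc_of_basic (Pi_nonneg _ hg) (fun e he => ?_) h
    obtain rfl : e = [] := List.length_eq_zero_iff.1 he
    simp [Q, Pi, wt]
  | a :: t, hg, _, _, _, h => by
    refine cc_of_basic (Pi_nonneg _ hg) (fun e he => ?_) h
    obtain ⟨e, es, rfl⟩ := List.exists_cons_of_length_eq_add_one he
    have hl : es.length = t.length := by simpa using he
    have key := fun j : ℕ => Rep.cc t hg.tail ((Rep.basic es hl).S hg j)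
    rw [Q, List.sum_cons]
    refine ⟨?_, ?_, fun hs => ?_⟩
    · by_cases he : 0 < e
      · rw [cc_phi_pos he]
        simpa using mul_nonneg (Pi_nonneg _ hg) (wt_pos _ _ hg.2).le
      · obtain ⟨j, rfl⟩ : ∃ j : ℕ, e = -(j : ℤ) := ⟨(-e).toNat, by omega⟩
        rw [cc_phi_neg, Rat.cast_mul, abs_mul]
        have h1 : |(((-1 : ℚ) ^ j : ℚ) : ℝ)| = 1 := by simp
        rw [h1, one_mul]
        refine (key j).1.trans (le_of_eq ?_)
        rw [Pi, wt, neg_neg, zpow_natCast]
        ring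
    · intro hs
      by_cases he : 0 < e
      · exact cc_phi_pos he _
      · obtain ⟨j, rfl⟩ : ∃ j : ℕ, e = -(j : ℤ) := ⟨(-e).toNat, by omega⟩
        rw [cc_phi_neg, (key j).2.1 (by omega), mul_zero]
    · obtain ⟨B, hB⟩ := exists_S_bound (Q es)
      rw [phi_eq e _ B hB]
      refine sum_eq_zero fun l _ => ?_
      by_cases hl : e + l < 0
      · rw [qz, if_neg (by omega)]
        simp
      · rw [(key l).2.2 (by omega), mul_zero]

end Pool.Agent.STS.QF.Face
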