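import Pool.Agent.P.MP_bb7f8f_gt.Base

/-!
Lower lattice comparison: the smoothed count of two-face metric ribbon graphs is bounded by the
integral count, up to the graphs with one separating loop and lower order terms.
-/

namespace Pool.Agent.STS
open Equiv Finset Filter

variable {H J I : Type} [Fintype H] [DecidableEq H] [Fintype J] [DecidableEq J]
  [Fintype I] [DecidableEq I] {σ : Perm H} {π : H → J} {v : J → ℕ} {D : ℕ}

namespace LatLow

theorem ncard_fib {X Z : Type} [Fintype X] (S : Set Z) (hS : S.Finite) (f : Z → X) :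
    S.ncard = ∑ x, {z | z ∈ S ∧ f z = x}.ncard := by
  classical
  rw [Set.ncard_eq_toFinset_card S hS,
    card_eq_sum_card_fiberwise (f := f) (t := univ) (fun _ _ => by simp)]
  refine sum_congr rfl fun x _ => ?_
  rw [← Set.ncard_coe_finset]
  congr 1
  ext z
  simp

theorem sum_ncard_le {Y : Type} (A : ℕ → Set Y) (B : Set Y) (hB : B.Finite) (ω : Y → ℕ)
    (W : Finset ℕ) (h : ∀ w ∈ W, ∀ y ∈ A w, y ∈ B ∧ ω y = w) :
    ∑ w ∈ W, (A w).ncard ≤ B.ncard := by
  classical
  calc ∑ w ∈ W, (A w).ncard ≤ ∑ w ∈ W, #{y ∈ hB.toFinset | ω y = w} := by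
        refine sum_le_sum fun w hw => ?_
        rw [← Set.ncard_coe_finset]
        refine Set.ncard_le_ncard (fun y hy => ?_) (finite_toSet _)
        simpa using h w hw y hy
    _ = #{y ∈ hB.toFinset | ω y ∈ W} := sum_card_fiberwise_eq_card_filter _ _ _
    _ ≤ #hB.toFinset := card_filter_le _ _
    _ = B.ncard := (Set.ncard_eq_toFinset_card B hB).symm

theorem box_finite (B : ℕ) : Set.Finite {l : H → ℕ | ∀ x, l x ≤ B} :=
  (Set.finite_Iic (fun _ : H => B)).subset fun _ h => h

theorem le_per (c : H → I) (l : H → ℕ) (x : H) : l x ≤ per c l (c x) :=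
  single_le_sum (f := l) (fun _ _ => Nat.zero_le _) (by simp)

theorem per_add (c : H → I) (l l' : H → ℕ) (i : I) :
    per c (fun x => l x + l' x) i = per c l i + per c l' i := sum_add_distrib

theorem face_cases (s : Bool) (i : Fin 1 × Bool) : i = (0, s) ∨ i = (0, !s) := by
  rcases i with ⟨i, b⟩
  obtain rfl : i = 0 := Subsingleton.elim _ _
  cases s <;> cases b <;> simp

theorem face_ne (s : Bool) : ((0, s) : Fin 1 × Bool) ≠ (0, !s) := by
  cases s <;> simp

/-- solutions with a fixed smoothing vector -/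
def A (α : Perm H) (c : H → Fin 1 × Bool) (ε : H → Bool) (w : ℕ) : Set (H → ℕ) :=
  {l | (∀ x, l (α x) = l x) ∧ ∀ i, per c (fun x => l x + (ε x).toNat) i = w}

/-- integral metrics -/
def G (α : Perm H) (c : H → Fin 1 × Bool) (w : ℕ) : Set (H → ℕ) :=
  {l | (∀ x, l (α x) = l x) ∧ (∀ x, 1 ≤ l x) ∧ ∀ i, per c l i = w}

theorem A_le {α : Perm H} {c : H → Fin 1 × Bool} {ε : H → Bool} {w : ℕ} {l : H → ℕ}
    (h : l ∈ A α c ε w) (x : H) : l x ≤ w := by
  have h1 := le_per c (fun x => l x + (ε x).toNat) x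
  rw [h.2] at h1
  omega

theorem A_finite (α : Perm H) (c : H → Fin 1 × Bool) (ε : H → Bool) (w : ℕ) :
    (A α c ε w).Finite := (box_finite w).subset fun _ h => A_le h

theorem G_finite (α : Perm H) (c : H → Fin 1 × Bool) (w : ℕ) : (G α c w).Finite :=
  (box_finite w).subset fun l h x => by
    have h1 := le_per c l x
    rwa [h.2.2] at h1

/-- indicator of the edge through `a` -/
def ind (α : Perm H) (a : H) : H → ℕ := fun x => (if a = x then 1 else 0) + if α a = x then 1 else 0

theorem ind_inv {α : Perm H} (hα : IsMt α) (a x : H) : ind α a (α x) = ind α a x := by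
  have h1 : a = α x ↔ α a = x := ⟨fun h => by rw [h, (hα x).1], fun h => by rw [← h, (hα a).1]⟩
  simp only [ind, h1, EmbeddingLike.apply_eq_iff_eq]
  omega

theorem per_ind (α : Perm H) (c : H → I) (a : H) (i : I) :
    per c (ind α a) i = (if c a = i then 1 else 0) + if c (α a) = i then 1 else 0 := by
  simp [per, ind, sum_add_distrib]

theorem mem_vsp {α : Perm H} {c : H → Fin 1 × Bool} {l : H → ℕ} (h1 : ∀ x, l (α x) = l x)
    (h2 : per c l (0, true) = per c l (0, false)) : (fun x => (l x : ℚ)) ∈ Vsp α c := by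
  refine ⟨fun x => by simp [h1], fun i => ?_⟩
  obtain rfl : i = 0 := Subsingleton.elim _ _
  simp only [per] at h2 ⊢
  exact_mod_cast h2

theorem lab_sigma {α : Perm H} {c : H → I} (hl : IsLab σ α c) (hα : IsMt α) (x : H) :
    c (σ x) = c (α x) := by
  refine ((hl.1 (α x) (σ x)).2 ?_).symm
  have : σ x = (σ * α) (α x) := by simp [(hα x).1]
  rw [this]
  exact Perm.sameCycle_apply_right.2 (Perm.SameCycle.refl _ _)

/-- an odd cycle cannot be coloured alternately -/
theorem exists_fix (hc : Cyc σ π v) (c : H → Fin 1 × Bool) (x : H) :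
    ∃ z, π z = π x ∧ c (σ z) = c z := by
  by_contra hcon
  push Not at hcon
  have hπ : ∀ y, π (σ y) = π y := fun y =>
    (hc.same _ _).2 (Perm.sameCycle_apply_left.2 (Perm.SameCycle.refl _ _))
  have h1 := Equiv.sum_comp σ fun y => if π y = π x then (c y).2.toNat else 0
  have h2 : ∑ y, ((if π (σ y) = π x then (c (σ y)).2.toNat else 0) +
      if π y = π x then (c y).2.toNat else 0) = ∑ y, if π y = π x then 1 else 0 := by
    refine sum_congr rfl fun y _ => ?_
    rw [hπ]
    split_ifs with h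
    · have := hcon y h
      rcases face_cases true (c y) with a | a <;> rcases face_cases true (c (σ y)) with b | b <;>
        simp_all
    · rfl
  rw [sum_add_distrib, h1, ← card_filter, hc.card] at h2
  obtain ⟨m, hm⟩ := hc.odd (π x)
  omega

/-- both faces contain an edge bordering them twice -/
theorem case1 (hc : Cyc σ π v) (hD : Fintype.card H = 2 * D) (h3 : 3 ≤ D) {α : Perm H}
    {c : H → Fin 1 × Bool} (hl : IsLab σ α c) (hα : IsMt α) (ε : H → Bool) {a b : H}
    (ha : c a = (0, true)) (ha' : c (α a) = (0, true))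
    (hb : c b = (0, false)) (hb' : c (α b) = (0, false)) :
    ∃ C : ℕ, ∀ (N : ℕ) (W : Finset ℕ), (∀ w ∈ W, Even w ∧ w ≤ N) →
      ∑ w ∈ W, w * (A α c ε w).ncard ≤ ∑ w ∈ W, w * (G α c w).ncard + C * (N + 1) ^ (D - 1) := by
  by_cases h : ∃ w₀, Even w₀ ∧ ∃ q, q ∈ A α c ε w₀
  swap
  · refine ⟨0, fun N W hW => ?_⟩
    rw [sum_eq_zero fun w hw => ?_]
    · exact Nat.zero_le _
    · have : A α c ε w = ∅ := Set.eq_empty_of_forall_notMem fun q hq => h ⟨w, (hW w hw).1, q, hq⟩
      simp [this]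
  obtain ⟨w₀, ⟨m, hm⟩, q, hq⟩ := h
  set p : H → ℕ := fun x => m * (ind α a x + ind α b x) with hp
  have hp1 : ∀ x, p (α x) = p x := fun x => by simp only [hp, ind_inv hα]
  have hp2 : ∀ i, per c p i = w₀ := by
    intro i
    have : per c p i = m * (per c (ind α a) i + per c (ind α b) i) := by
      simp only [per, hp, ← mul_sum, sum_add_distrib]
    rw [this, per_ind, per_ind, ha, ha', hb, hb']
    rcases face_cases true i with rfl | rfl <;> simp <;> omega
  set K := ∑ x, q x + 1 with hK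
  have hqK : ∀ x, q x < K := fun x =>
    Nat.lt_succ_of_le (single_le_sum (f := q) (fun _ _ => Nat.zero_le _) (mem_univ x))
  set e : H → ℕ := fun x => (ε x).toNat with he
  set δ : Fin 1 → ℤ := fun i => (per c e (i, false) : ℤ) - per c e (i, true) with hδ
  refine ⟨Fintype.card H * K, fun N W hW => ?_⟩
  set T : H → Set (H → ℕ) := fun x₀ => {l : H → ℕ | (∀ x, l (α x) = l x) ∧ (∀ x, l x ≤ N) ∧
    l x₀ < K ∧ ∀ i, (per c l (i, true) : ℤ) - per c l (i, false) = δ i} with hT
  have hTf : ∀ x₀, (T x₀).Finite := fun x₀ => (box_finite N).subset fun l h => h.2.1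
  have hTc : ∀ x₀, (T x₀).ncard * (N + 1) ≤ K * (N + 1) ^ (D - 1) := by
    intro x₀
    have hx : ∃ l ∈ Vsp α c, l x₀ ≠ 0 := by
      have hi : ind α x₀ x₀ ≠ 0 := by simp [ind]
      rcases face_cases true (c x₀) with u | u <;> rcases face_cases true (c (α x₀)) with u' | u'
      · refine ⟨_, mem_vsp (l := fun x => ind α x₀ x + ind α b x)
          (fun x => by simp only [ind_inv hα]) ?_, ?_⟩
        · simp [per_add, per_ind, u, u', hb, hb']
        · exact_mod_cast (by omega : ind α x₀ x₀ + ind α b x₀ ≠ 0)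
      · refine ⟨_, mem_vsp (l := ind α x₀) (ind_inv hα _) ?_, by exact_mod_cast hi⟩
        simp [per_ind, u, u']
      · refine ⟨_, mem_vsp (l := ind α x₀) (ind_inv hα _) ?_, by exact_mod_cast hi⟩
        simp [per_ind, u, u']
      · refine ⟨_, mem_vsp (l := fun x => ind α x₀ x + ind α a x)
          (fun x => by simp only [ind_inv hα]) ?_, ?_⟩
        · simp [per_add, per_ind, u, u', ha, ha']
        · exact_mod_cast (by omega : ind α x₀ x₀ + ind α a x₀ ≠ 0)
    have h1 := thin hc hD hl hα x₀ hx K N δ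
    refine Nat.le_of_mul_le_mul_right ?_ (Nat.succ_pos N)
    have h2 : (N + 1) ^ D = (N + 1) ^ (D - 1) * (N + 1) := by
      rw [← pow_succ]
      congr 1
      omega
    rw [h2] at h1
    calc (T x₀).ncard * (N + 1) * N.succ = (T x₀).ncard * (N + 1) ^ (1 + 1) := by
          rw [Nat.succ_eq_add_one]; ring
      _ ≤ K * ((N + 1) ^ (D - 1) * (N + 1)) := h1
      _ = _ := by rw [Nat.succ_eq_add_one]; ring
  have hbig : ∀ w, {l | l ∈ A α c ε w ∧ ∀ x, K ≤ l x}.ncard ≤ (G α c w).ncard := by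
    intro w
    refine Set.ncard_le_ncard_of_injOn (fun l x => l x - q x + p x) (fun l hl => ⟨?_, ?_, ?_⟩)
      (fun l hl l' hl' h => ?_) (G_finite _ _ _)
    · intro x
      simp only [hl.1.1 x, hq.1 x, hp1 x]
    · intro x
      have := hl.2 x
      have := hqK x
      change 1 ≤ l x - q x + p x
      omega
    · intro i
      have e1 := hl.1.2 i
      have e2 := hq.2 i
      have e3 := hp2 i
      have e4 : per c (fun x => l x - q x + q x) i = per c l i := by
        congr 1
        funext x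
        have := hl.2 x
        have := hqK x
        omega
      rw [per_add] at e1 e2 e4 ⊢
      omega
    · funext x
      have e1 := congrFun h x
      have := hl.2 x
      have := hl'.2 x
      have := hqK x
      simp only at e1
      omega
  have hsplit : ∀ w, (A α c ε w).ncard ≤ (G α c w).ncard +
      ∑ x₀, {l | l ∈ A α c ε w ∧ l x₀ < K}.ncard := by
    intro w
    have hsub : A α c ε w ⊆ {l | l ∈ A α c ε w ∧ ∀ x, K ≤ l x} ∪
        ⋃ x₀ ∈ (univ : Finset H), {l | l ∈ A α c ε w ∧ l x₀ < K} := by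
      intro l hl
      by_cases h : ∀ x, K ≤ l x
      · exact Or.inl ⟨hl, h⟩
      · push Not at h
        obtain ⟨x, hx⟩ := h
        exact Or.inr (Set.mem_biUnion (mem_univ x) ⟨hl, hx⟩)
    refine (Set.ncard_le_ncard hsub ((A_finite α c ε w).subset ?_)).trans
      ((Set.ncard_union_le _ _).trans (add_le_add (hbig w) (Finset.set_ncard_biUnion_le _ _)))
    refine Set.union_subset (fun l h => h.1) (Set.iUnion₂_subset fun x _ l h => h.1)
  have hsmall : ∀ x₀, ∑ w ∈ W, {l | l ∈ A α c ε w ∧ l x₀ < K}.ncard ≤ (T x₀).ncard := by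
    intro x₀
    refine sum_ncard_le _ _ (hTf x₀) (fun l => per c (fun x => l x + e x) (0, true)) W
      fun w hw l hl => ⟨⟨hl.1.1, fun x => (A_le hl.1 x).trans (hW w hw).2, hl.2, fun i => ?_⟩,
        hl.1.2 _⟩
    have e1 := hl.1.2 (i, true)
    have e2 := hl.1.2 (i, false)
    rw [per_add] at e1 e2
    simp only [hδ, he]
    omega
  calc ∑ w ∈ W, w * (A α c ε w).ncard
      ≤ ∑ w ∈ W, (w * (G α c w).ncard +
          (N + 1) * ∑ x₀, {l | l ∈ A α c ε w ∧ l x₀ < K}.ncard) := by
        refine sum_le_sum fun w hw => (Nat.mul_le_mul_left w (hsplit w)).trans ?_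
        rw [mul_add]
        gcongr
        exact (hW w hw).2.trans (Nat.le_succ N)
    _ = ∑ w ∈ W, w * (G α c w).ncard +
          ∑ x₀, (∑ w ∈ W, {l | l ∈ A α c ε w ∧ l x₀ < K}.ncard) * (N + 1) := by
        rw [sum_add_distrib, ← mul_sum, sum_comm, ← sum_mul, mul_comm]
    _ ≤ ∑ w ∈ W, w * (G α c w).ncard + ∑ _x₀ : H, K * (N + 1) ^ (D - 1) := by
        exact Nat.add_le_add_left (sum_le_sum fun x₀ _ =>
          (Nat.mul_le_mul_right _ (hsmall x₀)).trans (hTc x₀)) _
    _ = _ := by simp [mul_assoc]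

/-- if face `s` borders no edge twice, the other face consists of `Z` and a copy of face `s` -/
theorem per_split {α : Perm H} {c : H → Fin 1 × Bool} (hα : IsMt α) {s : Bool}
    (hs : ∀ x, c x = (0, s) → c (α x) ≠ (0, s)) {l : H → ℕ} (h : ∀ x, l (α x) = l x) :
    per c l (0, !s) = ∑ x with c x = (0, !s) ∧ c (α x) = (0, !s), l x + per c l (0, s) := by
  rw [per, ← sum_filter_add_sum_filter_not _ (fun x => c (α x) = (0, !s)), filter_filter,
    filter_filter, per]
  congr 1
  refine sum_nbij' α α (fun x hx => ?_) (fun x hx => ?_) (fun x _ => (hα x).1)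
    (fun x _ => (hα x).1) fun x _ => (h x).symm
  · simp only [mem_filter, mem_univ, true_and] at hx ⊢
    exact (face_cases s _).resolve_right hx.2
  · simp only [mem_filter, mem_univ, true_and] at hx ⊢
    refine ⟨(face_cases s _).resolve_left (hs x hx), ?_⟩
    rw [(hα x).1, hx]
    exact face_ne s

theorem card_split (hD : Fintype.card H = 2 * D) {α : Perm H} {c : H → Fin 1 × Bool}
    (hα : IsMt α) {s : Bool} (hs : ∀ x, c x = (0, s) → c (α x) ≠ (0, s)) :
    2 * #{x | c x = (0, s)} + #{x | c x = (0, !s) ∧ c (α x) = (0, !s)} = 2 * D := by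
  have h1 := per_split hα hs (l := fun _ => 1) fun _ => rfl
  simp only [per, ← card_eq_sum_ones] at h1
  have h2 := card_filter_add_card_filter_not (s := (univ : Finset H)) fun x => c x = (0, s)
  have h3 : ({x | ¬ c x = (0, s)} : Finset H) = ({x | c x = (0, !s)} : Finset H) := by
    refine filter_congr fun x _ => ⟨fun h => (face_cases s _).resolve_left h, fun h => ?_⟩
    rw [h]
    exact (face_ne s).symm
  rw [h3, card_univ, hD] at h2
  omega

/-- at least two separating loops on one side: a lower order term -/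
theorem case2 (hD : Fintype.card H = 2 * D) {α : Perm H}
    {c : H → Fin 1 × Bool} (hα : IsMt α) (ε : H → Bool) {s : Bool}
    (hs : ∀ x, c x = (0, s) → c (α x) ≠ (0, s))
    (hZ : 3 ≤ #{x | c x = (0, !s) ∧ c (α x) = (0, !s)}) :
    ∃ C : ℕ, ∀ (N : ℕ) (W : Finset ℕ), (∀ w ∈ W, Even w ∧ w ≤ N) →
      ∑ w ∈ W, w * (A α c ε w).ncard ≤ C * (N + 1) ^ (D - 1) := by
  set e : H → ℕ := fun x => (ε x).toNat with he
  set E := per c e (0, s) with hE
  refine ⟨(E + 1) ^ Fintype.card H, fun N W hW => ?_⟩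
  have hcard := card_split hD hα hs
  set B : Set (H → ℕ) := {l | (∀ x, l (α x) = l x) ∧ (∀ x, l x ≤ N) ∧
    ∀ x, c x = (0, !s) → c (α x) = (0, !s) → l x ≤ E} with hB
  have hBf : B.Finite := (box_finite N).subset fun l h => h.2.1
  have h1 : ∑ w ∈ W, (A α c ε w).ncard ≤ B.ncard := by
    refine sum_ncard_le _ _ hBf (fun l => per c (fun x => l x + e x) (0, true)) W
      fun w hw l hl => ⟨⟨hl.1, fun x => (A_le hl x).trans (hW w hw).2, fun x a1 a2 => ?_⟩,
        hl.2 _⟩
    have e1 := hl.2 (0, s)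
    have e2 := hl.2 (0, !s)
    rw [per_add] at e1 e2
    rw [per_split hα hs hl.1] at e2
    have e3 : l x ≤ ∑ x with c x = (0, !s) ∧ c (α x) = (0, !s), l x :=
      single_le_sum (f := l) (fun _ _ => Nat.zero_le _) (by simp [a1, a2])
    simp only [hE, he]
    omega
  set P : Finset (H → ℕ) := Fintype.piFinset fun x =>
    if c x = (0, s) then range (N + 1) else range (E + 1) with hP
  have h2 : B.ncard ≤ #P := by
    rw [← Set.ncard_coe_finset]
    refine Set.ncard_le_ncard_of_injOn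
      (fun l x => if c x = (0, s) ∨ c (α x) = (0, !s) then l x else 0) (fun l hl => ?_)
      (fun l hl l' hl' h => ?_) (finite_toSet _)
    · simp only [hP, mem_coe, Fintype.mem_piFinset]
      intro x
      by_cases a1 : c x = (0, s)
      · simp only [a1, true_or, if_true, mem_range]
        exact Nat.lt_succ_of_le (hl.2.1 x)
      · simp only [a1, false_or, if_false, mem_range]
        split_ifs with a2
        · exact Nat.lt_succ_of_le (hl.2.2 x ((face_cases s _).resolve_left a1) a2)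
        · exact Nat.succ_pos _
    · funext x
      by_cases a1 : c x = (0, s) ∨ c (α x) = (0, !s)
      · simpa [a1] using congrFun h x
      · have a2 : c (α x) = (0, s) := (face_cases s _).resolve_right fun h => a1 (Or.inr h)
        have := congrFun h (α x)
        simp only [a2, true_or, if_true] at this
        rwa [hl.1, hl'.1] at this
  have h3 : #P ≤ (N + 1) ^ (D - 2) * (E + 1) ^ Fintype.card H := by
    rw [hP, Fintype.card_piFinset]
    simp only [apply_ite card, card_range, prod_ite, prod_const]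
    exact Nat.mul_le_mul (Nat.pow_le_pow_right (Nat.succ_pos _) (by omega))
      (Nat.pow_le_pow_right (Nat.succ_pos _) (card_le_univ _))
  calc ∑ w ∈ W, w * (A α c ε w).ncard ≤ ∑ w ∈ W, (N + 1) * (A α c ε w).ncard :=
        sum_le_sum fun w hw => Nat.mul_le_mul_right _ ((hW w hw).2.trans (Nat.le_succ N))
    _ = (N + 1) * ∑ w ∈ W, (A α c ε w).ncard := by rw [mul_sum]
    _ ≤ (N + 1) * ((N + 1) ^ (D - 2) * (E + 1) ^ Fintype.card H) :=
        Nat.mul_le_mul_left _ (h1.trans (h2.trans h3))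
    _ = _ := by
        rw [show D - 1 = D - 2 + 1 by omega]
        ring

/-- the graphs with exactly one separating loop -/
def Q (σ : Perm H) (s : Bool) (a b : H) (p : Perm H × (H → Fin 1 × Bool)) : Prop :=
  IsMt p.1 ∧ IsLab σ p.1 p.2 ∧ (∀ x, p.2 x = (0, s) → p.2 (p.1 x) ≠ (0, s)) ∧ a ≠ b ∧
    ∀ x, p.2 x = (0, !s) ∧ p.2 (p.1 x) = (0, !s) ↔ x = a ∨ x = b

theorem Q.card_face (hD : Fintype.card H = 2 * D) {s : Bool} {a b : H} {α : Perm H}
    {c : H → Fin 1 × Bool} (h : Q σ s a b (α, c)) : #{x | c x = (0, s)} = D - 1 := by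
  have h1 := card_split hD h.1 h.2.2.1
  have h2 : ({x | c x = (0, !s) ∧ c (α x) = (0, !s)} : Finset H) = {a, b} := by
    ext x
    simpa using h.2.2.2.2 x
  simp only at h1
  rw [h2, card_pair h.2.2.2.1] at h1
  omega

theorem case3 (hD : Fintype.card H = 2 * D) (h3 : 3 ≤ D) {s : Bool} {a b : H} {α : Perm H}
    {c : H → Fin 1 × Bool} (h : Q σ s a b (α, c)) (ε : H → Bool) (w : ℕ) :
    ((A α c ε w).ncard : ℝ) ≤ ((w : ℝ) + D) ^ (D - 2) / (D - 2).factorial := by
  have hF := h.card_face hD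
  obtain ⟨hα, -, hs, hab, hZ⟩ := h
  simp only at hα hs hZ
  set F : Finset H := {x | c x = (0, s)} with hFd
  set m := w - per c (fun x => (ε x).toNat) (0, s) with hm
  have hZ' : ({x | c x = (0, !s) ∧ c (α x) = (0, !s)} : Finset H) = {a, b} := by
    ext x
    simpa using hZ x
  have hb : α a = b := by
    have h1 := (hZ a).2 (Or.inl rfl)
    exact ((hZ (α a)).1 ⟨h1.2, by rw [(hα a).1]; exact h1.1⟩).resolve_left (hα a).2
  have h1 : (A α c ε w).ncard ≤ #(F.finsuppAntidiag m) := by
    rw [← Set.ncard_coe_finset]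
    refine Set.ncard_le_ncard_of_injOn
      (fun l => Finsupp.equivFunOnFinite.symm fun x => if c x = (0, s) then l x else 0)
      (fun l hl => ?_) (fun l hl l' hl' h => ?_) (finite_toSet _)
    · simp only [mem_coe, mem_finsuppAntidiag, Finsupp.coe_equivFunOnFinite_symm]
      constructor
      · have e1 := hl.2 (0, s)
        rw [per_add] at e1
        rw [sum_congr rfl (g := l) fun x hx => if_pos (by simpa [hFd] using hx)]
        change per c l (0, s) = m
        omega
      · intro x hx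
        simp only [Finsupp.mem_support_iff, Finsupp.coe_equivFunOnFinite_symm, ne_eq,
          ite_eq_right_iff, not_forall] at hx
        simpa [hFd] using hx.1
    · have h' := Finsupp.equivFunOnFinite.symm.injective h
      have k1 : ∀ x, c x = (0, s) → l x = l' x := fun x hx => by simpa [hx] using congrFun h' x
      have k2 : l a = l' a := by
        have e1 := hl.2 (0, !s)
        have e2 := hl'.2 (0, !s)
        have e3 := hl.2 (0, s)
        have e4 := hl'.2 (0, s)
        rw [per_add] at e1 e2 e3 e4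
        rw [per_split hα hs hl.1, hZ', sum_pair hab, ← hb, hl.1] at e1
        rw [per_split hα hs hl'.1, hZ', sum_pair hab, ← hb, hl'.1] at e2
        omega
      funext x
      rcases face_cases s (c x) with u | u
      · exact k1 x u
      rcases face_cases s (c (α x)) with u' | u'
      · rw [← hl.1, ← hl'.1]
        exact k1 _ u'
      rcases (hZ x).1 ⟨u, u'⟩ with rfl | rfl
      · exact k2
      · rw [← hb, hl.1, hl'.1]
        exact k2
  rw [card_finsuppAntidiag_nat_eq_choose, hF, show D - 1 + m - 1 = m + (D - 2) by omega,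
    Nat.choose_symm_add] at h1
  refine (Nat.cast_le.2 h1).trans ((Nat.choose_le_pow_div _ _).trans ?_)
  gcongr
  exact_mod_cast (by omega : m + (D - 2) ≤ w + D)

theorem Q.col (hc : Cyc σ π v) {s : Bool} {a b : H} {α α' : Perm H}
    {c c' : H → Fin 1 × Bool} (h : Q σ s a b (α, c)) (h' : Q σ s a b (α', c')) : c = c' := by
  obtain ⟨hα, hl, hs, -, hZ⟩ := h
  obtain ⟨hα', hl', hs', -, hZ'⟩ := h'
  simp only at hα hl hs hZ hα' hl' hs' hZ'
  have step : ∀ x, c x = c' x → c (σ x) = c' (σ x) := by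
    intro x hx
    rw [lab_sigma hl hα, lab_sigma hl' hα']
    rcases face_cases s (c x) with u | u
    · rw [(face_cases s _).resolve_left (hs x u),
        (face_cases s _).resolve_left (hs' x (hx ▸ u))]
    · by_cases hz : x = a ∨ x = b
      · rw [((hZ x).2 hz).2, ((hZ' x).2 hz).2]
      · rw [(face_cases s _).resolve_right fun k => hz ((hZ x).1 ⟨u, k⟩),
          (face_cases s _).resolve_right fun k => hz ((hZ' x).1 ⟨hx ▸ u, k⟩)]
  funext x
  obtain ⟨z, hz, hz'⟩ := exists_fix hc c x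
  rw [lab_sigma hl hα] at hz'
  have h0 : c z = c' z := by
    have u : c z = (0, !s) := (face_cases s _).resolve_left fun k => hs z k (hz'.trans k)
    rw [u, ((hZ' z).2 ((hZ z).1 ⟨u, hz'.trans u⟩)).1]
  obtain ⟨n, rfl⟩ := ((hc.same _ _).1 hz).exists_nat_pow_eq
  clear hz
  induction n with
  | zero => exact h0
  | succ n ih =>
    rw [pow_succ', Perm.mul_apply]
    exact step _ ih

theorem Q.count (hc : Cyc σ π v) (hD : Fintype.card H = 2 * D) (s : Bool) (a b : H) :
    {p | Q σ s a b p}.ncard ≤ (D - 1).factorial := by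
  rcases Set.eq_empty_or_nonempty {p | Q σ s a b p} with h | ⟨⟨α₀, c⟩, h₀⟩
  · simp [h]
  have hF := Q.card_face hD h₀
  have key : ∀ p, Q σ s a b p → ∀ x, c x = (0, s) → c (α₀ (p.1 x)) = (0, s) := by
    rintro ⟨α, c'⟩ hp x hx
    obtain rfl : c = c' := Q.col hc h₀ hp
    have u : c (α x) = (0, !s) := (face_cases s _).resolve_left (hp.2.2.1 x hx)
    refine (face_cases s _).resolve_right fun k => ?_
    have h1 := ((hp.2.2.2.2 (α x)).2 ((h₀.2.2.2.2 (α x)).1 ⟨u, k⟩)).2
    simp only at h1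
    rw [(hp.1 x).1, hx] at h1
    exact face_ne s h1
  let φ : {p | Q σ s a b p} → ({x // c x = (0, s)} ↪ {x // c x = (0, s)}) := fun p =>
    ⟨fun x => ⟨α₀ (p.1.1 x.1), key _ p.2 _ x.2⟩, fun x y h => by
      simpa [Subtype.ext_iff] using h⟩
  have hφ : Function.Injective φ := by
    rintro ⟨⟨α, c₁⟩, hp⟩ ⟨⟨α', c₂⟩, hp'⟩ h
    obtain rfl : c = c₁ := Q.col hc h₀ hp
    obtain rfl : c = c₂ := Q.col hc h₀ hp'
    have k1 : ∀ x, c x = (0, s) → α x = α' x := fun x hx => by
      have := congrArg (fun f : {x // c x = (0, s)} ↪ {x // c x = (0, s)} => (f ⟨x, hx⟩).1) h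
      simpa [φ] using this
    have : α = α' := by
      obtain ⟨hα, -, -, hab, hZ⟩ := hp
      obtain ⟨hα', -, -, -, hZ'⟩ := hp'
      simp only at hα hZ hα' hZ'
      ext x
      rcases face_cases s (c x) with u | u
      · exact k1 x u
      rcases face_cases s (c (α x)) with u' | u'
      · have := k1 _ u'
        rw [(hα x).1] at this
        rw [this, (hα' _).1, ← this]
      have z1 := (hZ x).1 ⟨u, u'⟩
      have z2 := (hZ (α x)).1 ⟨u', by rw [(hα x).1]; exact u⟩
      have z3 := (hZ' (α' x)).1 ⟨((hZ' x).2 z1).2, by rw [(hα' x).1]; exact u⟩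
      have n1 := (hα x).2
      have n2 := (hα' x).2
      rcases z1 with z1 | z1 <;> rcases z2 with z2 | z2 <;> rcases z3 with z3 | z3 <;> simp_all
    subst this
    rfl
  have h1 := Nat.card_le_card_of_injective φ hφ
  rw [Nat.card_coe_set_eq, Nat.card_eq_fintype_card, Fintype.card_embedding_eq,
    Nat.descFactorial_self, Fintype.card_subtype, hF] at h1
  exact h1

theorem bad_count (hc : Cyc σ π v) (hD : Fintype.card H = 2 * D) :
    {p | ∃ s a b, Q σ s a b p}.ncard ≤ 8 * D ^ 2 * (D - 1).factorial := by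
  have h1 : {p | ∃ s a b, Q σ s a b p} =
      ⋃ t ∈ (univ : Finset (Bool × H × H)), {p | Q σ t.1 t.2.1 t.2.2 p} := by
    ext p
    simp
  rw [h1]
  refine (Finset.set_ncard_biUnion_le _ _).trans
    ((sum_le_sum fun t _ => Q.count hc hD t.1 t.2.1 t.2.2).trans (le_of_eq ?_))
  simp only [sum_const, card_univ, Fintype.card_prod, Fintype.card_bool, hD, smul_eq_mul]
  ring

open Classical in
theorem one (hc : Cyc σ π v) (hD : Fintype.card H = 2 * D) (h3 : 3 ≤ D) (α : Perm H)
    (c : H → Fin 1 × Bool) (ε : H → Bool) :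
    ∃ C : ℝ, IsMt α → IsLab σ α c → ∀ (N : ℕ) (W : Finset ℕ), (∀ w ∈ W, Even w ∧ w ≤ N) →
      ∑ w ∈ W, (w : ℝ) * (A α c ε w).ncard ≤ ∑ w ∈ W, (w : ℝ) * (G α c w).ncard +
        (if ∃ s a b, Q σ s a b (α, c) then
          ∑ w ∈ W, (w : ℝ) * (((w : ℝ) + D) ^ (D - 2) / (D - 2).factorial) else 0) +
        C * (N + 1) ^ (D - 1) := by
  by_cases hh : IsMt α ∧ IsLab σ α c
  swap
  · exact ⟨0, fun a b => absurd ⟨a, b⟩ hh⟩
  obtain ⟨hα, hl⟩ := hh
  have hG : ∀ W : Finset ℕ, 0 ≤ ∑ w ∈ W, (w : ℝ) * (G α c w).ncard := fun W => by positivity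
  by_cases hQ : ∃ s a b, Q σ s a b (α, c)
  · refine ⟨0, fun _ _ N W _ => ?_⟩
    rw [if_pos hQ, zero_mul, add_zero]
    obtain ⟨s, a, b, h⟩ := hQ
    refine le_add_of_nonneg_of_le (hG W) (sum_le_sum fun w _ => ?_)
    exact mul_le_mul_of_nonneg_left (case3 hD h3 h ε w) (Nat.cast_nonneg _)
  simp only [if_neg hQ, add_zero]
  by_cases h1 : ∀ s, ∃ a, c a = (0, s) ∧ c (α a) = (0, s)
  · obtain ⟨a, ha, ha'⟩ := h1 true
    obtain ⟨b, hb, hb'⟩ := h1 false
    obtain ⟨C, hC⟩ := case1 hc hD h3 hl hα ε ha ha' hb hb'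
    exact ⟨C, fun _ _ N W hW => by exact_mod_cast hC N W hW⟩
  push Not at h1
  obtain ⟨s, hs⟩ := h1
  have hne : Nonempty H := Fintype.card_pos_iff.1 (by omega)
  obtain ⟨z, -, hz⟩ := exists_fix hc c hne.some
  rw [lab_sigma hl hα] at hz
  have u : c z = (0, !s) := (face_cases s _).resolve_left fun k => hs z k (hz.trans k)
  have hZ : 3 ≤ #{x | c x = (0, !s) ∧ c (α x) = (0, !s)} := by
    by_contra hlt
    refine hQ ⟨s, z, α z, hα, hl, hs, (hα z).2.symm, fun x => ?_⟩
    have hsub : ({z, α z} : Finset H) ⊆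
        ({x | c x = (0, !s) ∧ c (α x) = (0, !s)} : Finset H) := by
      intro x hx
      simp only [mem_insert, mem_singleton] at hx
      rcases hx with rfl | rfl <;> simp [u, hz, (hα _).1]
    have := eq_of_subset_of_card_le hsub (by rw [card_pair (hα z).2.symm]; omega)
    simpa using (Finset.ext_iff.1 this x).symm
  obtain ⟨C, hC⟩ := case2 hD hα ε hs hZ
  refine ⟨C, fun _ _ N W hW => le_add_of_nonneg_of_le (hG W) ?_⟩
  exact_mod_cast hC N W hW

open Classical in
theorem sm_eq (σ : Perm H) (w : ℕ) :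
    Sm σ (fun _ : Fin 1 × Bool => w) = ∑ p : Perm H × (H → Fin 1 × Bool), ∑ ε : H → Bool,
      if IsMt p.1 ∧ IsLab σ p.1 p.2 then (A p.1 p.2 ε w).ncard else 0 := by
  rw [Sm, ncard_fib _ (sm_finite σ _) fun p => ((p.1, p.2.1), p.2.2.2), Fintype.sum_prod_type]
  refine sum_congr rfl fun p _ => sum_congr rfl fun ε _ => ?_
  obtain ⟨α, c⟩ := p
  split_ifs with h
  · symm
    refine Set.ncard_congr (fun l _ => (α, c, l, ε)) (fun l hl => ⟨⟨h.1, h.2, hl.1, hl.2⟩, rfl⟩)
      (fun l l' _ _ k => by simpa using k) ?_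
    rintro ⟨α', c', l, ε'⟩ ⟨hp, k⟩
    simp only [Prod.mk.injEq] at k
    obtain ⟨⟨rfl, rfl⟩, rfl⟩ := k
    exact ⟨l, hp.2.2, rfl⟩
  · rw [Set.ncard_eq_zero ((sm_finite σ _).subset fun _ h => h.1), Set.eq_empty_iff_forall_notMem]
    rintro ⟨α', c', l, ε'⟩ ⟨hp, k⟩
    simp only [Prod.mk.injEq] at k
    obtain ⟨⟨rfl, rfl⟩, rfl⟩ := k
    exact h ⟨hp.1, hp.2.1⟩

open Classical in
theorem cnt_eq (σ : Perm H) (w : ℕ) :
    Cnt1 σ w = ∑ p : Perm H × (H → Fin 1 × Bool),
      if IsMt p.1 ∧ IsLab σ p.1 p.2 then (G p.1 p.2 w).ncard else 0 := by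
  rw [Cnt1, ncard_fib _ (cnt1_finite σ _) fun p => (p.1, p.2.1)]
  refine sum_congr rfl fun p _ => ?_
  obtain ⟨α, c⟩ := p
  split_ifs with h
  · symm
    refine Set.ncard_congr (fun l _ => (α, c, l)) (fun l hl => ⟨⟨h.1, h.2, hl⟩, rfl⟩)
      (fun l l' _ _ k => by simpa using k) ?_
    rintro ⟨α', c', l⟩ ⟨hp, k⟩
    simp only [Prod.mk.injEq] at k
    obtain ⟨rfl, rfl⟩ := k
    exact ⟨l, hp.2.2, rfl⟩
  · rw [Set.ncard_eq_zero ((cnt1_finite σ _).subset fun _ h => h.1),
      Set.eq_empty_iff_forall_notMem]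
    rintro ⟨α', c', l⟩ ⟨hp, k⟩
    simp only [Prod.mk.injEq] at k
    obtain ⟨rfl, rfl⟩ := k
    exact h ⟨hp.1, hp.2.1⟩

end LatLow

open LatLow in
theorem latLow (hc : Cyc σ π v) (hD : Fintype.card H = 2 * D) (h3 : 3 ≤ D) :
    ∃ C : ℝ, ∀ (N : ℕ) (W : Finset ℕ), (∀ w ∈ W, Even w ∧ w ≤ N) →
      ∑ w ∈ W, (w : ℝ) * Sm σ (fun _ : Fin 1 × Bool => w) ≤
        4 ^ D * ∑ w ∈ W, (w : ℝ) * (Cnt1 σ w +
          8 * D ^ 2 * (D - 1).factorial * ((w : ℝ) + D) ^ (D - 2) / (D - 2).factorial) +
        C * (N + 1) ^ (D - 1) := by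
  classical
  choose C hC using one hc hD h3
  refine ⟨∑ p : Perm H × (H → Fin 1 × Bool), ∑ ε : H → Bool, |C p.1 p.2 ε|, fun N W hW => ?_⟩
  set M : ℝ := ∑ w ∈ W, (w : ℝ) * (((w : ℝ) + D) ^ (D - 2) / (D - 2).factorial) with hM
  have hM0 : 0 ≤ M := by positivity
  have hcard : (Fintype.card (H → Bool) : ℝ) = 4 ^ D := by
    rw [Fintype.card_fun, hD, Fintype.card_bool, pow_mul]
    norm_num
  have hbad : ∑ p : Perm H × (H → Fin 1 × Bool), (if ∃ s a b, Q σ s a b p then M else 0) ≤
      8 * D ^ 2 * (D - 1).factorial * M := by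
    rw [← sum_filter, sum_const, nsmul_eq_mul]
    refine mul_le_mul_of_nonneg_right ?_ hM0
    have := bad_count hc hD
    rw [← Set.ncard_coe_finset, coe_filter_univ]
    exact_mod_cast this
  calc ∑ w ∈ W, (w : ℝ) * Sm σ (fun _ : Fin 1 × Bool => w)
      = ∑ p : Perm H × (H → Fin 1 × Bool), ∑ ε : H → Bool, ∑ w ∈ W,
          if IsMt p.1 ∧ IsLab σ p.1 p.2 then (w : ℝ) * (A p.1 p.2 ε w).ncard else 0 := by
        simp only [sm_eq, Nat.cast_sum, mul_sum, Nat.cast_ite, mul_ite, Nat.cast_zero, mul_zero]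
        rw [sum_comm]
        exact sum_congr rfl fun p _ => sum_comm
    _ ≤ ∑ p : Perm H × (H → Fin 1 × Bool), ∑ ε : H → Bool,
          ((∑ w ∈ W, if IsMt p.1 ∧ IsLab σ p.1 p.2 then (w : ℝ) * (G p.1 p.2 w).ncard else 0) +
          (if ∃ s a b, Q σ s a b p then M else 0) + |C p.1 p.2 ε| * (N + 1) ^ (D - 1)) := by
        refine sum_le_sum fun p _ => sum_le_sum fun ε _ => ?_
        by_cases h : IsMt p.1 ∧ IsLab σ p.1 p.2
        · simp only [if_pos h]
          refine (hC p.1 p.2 ε h.1 h.2 N W hW).trans ?_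
          gcongr
          exact le_abs_self _
        · simp only [if_neg h, sum_const_zero]
          positivity
    _ = 4 ^ D * (∑ w ∈ W, (w : ℝ) * Cnt1 σ w +
          ∑ p : Perm H × (H → Fin 1 × Bool), (if ∃ s a b, Q σ s a b p then M else 0)) +
        (∑ p : Perm H × (H → Fin 1 × Bool), ∑ ε : H → Bool, |C p.1 p.2 ε|) *
          (N + 1) ^ (D - 1) := by
        simp only [sum_add_distrib, sum_const, card_univ, nsmul_eq_mul, hcard, ← mul_sum,
          ← sum_mul, mul_add]
        congr 3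
        simp only [cnt_eq, Nat.cast_sum, mul_sum, Nat.cast_ite, mul_ite, Nat.cast_zero, mul_zero]
        exact sum_comm
    _ ≤ _ := by
        gcongr
        simp only [mul_add, sum_add_distrib]
        refine add_le_add le_rfl (hbad.trans (le_of_eq ?_))
        rw [hM, mul_sum]
        exact sum_congr rfl fun w _ => by ring

end Pool.Agent.STS
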