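import Pool.Agent.P.MP_bb7f8f_gt.Mid

/-!
One-cylinder surfaces of height one built from metric ribbon graphs with two faces.
-/

namespace Pool.Agent.STS
open Equiv Finset

set_option linter.unusedSectionVars false
set_option linter.style.haveILetI false

namespace StructLow

variable {H : Type} [Fintype H] [DecidableEq H] {σ : Perm H} {w : ℕ}

/-- an integral metric ribbon graph with two labelled faces of perimeter `w` -/
abbrev PP (σ : Perm H) (w : ℕ) : Type :=
  {p : Perm H × (H → Fin 1 × Bool) × (H → ℕ) // IsMt p.1 ∧ IsLab σ p.1 p.2.1 ∧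
    (∀ x, p.2.2 (p.1 x) = p.2.2 x) ∧ (∀ x, 1 ≤ p.2.2 x) ∧ ∀ i, per p.2.1 p.2.2 i = w}

variable (p : PP σ w)

abbrev al : Perm H := p.1.1
abbrev lb : H → Fin 1 × Bool := p.1.2.1
abbrev ln : H → ℕ := p.1.2.2

lemma al_al (x : H) : al p (al p x) = x := (p.2.1 x).1
lemma al_ne (x : H) : al p x ≠ x := (p.2.1 x).2
lemma ln_al (x : H) : ln p (al p x) = ln p x := p.2.2.2.1 x
lemma ln_pos (x : H) : 0 < ln p x := p.2.2.2.2.1 x
lemma lb_iff (x y : H) : lb p x = lb p y ↔ (σ * al p).SameCycle x y := p.2.2.1.1 x y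
lemma lb_step (x : H) : lb p (σ (al p x)) = lb p x :=
  (lb_iff p _ _).2 (Perm.sameCycle_apply_left.2 (Perm.SameCycle.refl (σ * al p) x))

/-- unit segments of the edges -/
abbrev Y : Type := Σ x : H, Fin (ln p x)

variable {p} in
lemma Yext {y y' : Y p} (h1 : y.1 = y'.1) (h2 : y.2.val = y'.2.val) : y = y' := by
  obtain ⟨x, i⟩ := y
  obtain ⟨x', i'⟩ := y'
  cases h1
  exact congrArg _ (Fin.ext h2)

def th (x : H) : Y p := ⟨x, ⟨0, ln_pos p x⟩⟩

def a0 (y : Y p) : Y p :=
  ⟨al p y.1, ⟨ln p y.1 - 1 - y.2.val, by rw [ln_al]; have := y.2.2; omega⟩⟩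

lemma a0_inv : Function.Involutive (a0 p) := fun y =>
  Yext (al_al p _) (by simp only [a0, ln_al]; have := y.2.2; omega)

def aY : Perm (Y p) := (a0_inv p).toPerm

lemma aY_fst (y : Y p) : (aY p y).1 = al p y.1 := rfl
lemma aY_snd (y : Y p) : (aY p y).2.val = ln p y.1 - 1 - y.2.val := rfl

def f0 (y : Y p) : Y p :=
  if h : y.2.val + 1 < ln p y.1 then ⟨y.1, ⟨_, h⟩⟩ else th p (σ (al p y.1))

lemma f0_inj : Function.Injective (f0 p) := by
  intro y y' h
  have hy := y.2.2
  have hy' := y'.2.2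
  unfold f0 at h
  split_ifs at h with h1 h2 h2
  · have e1 := congrArg Sigma.fst h
    have e2 := congrArg (fun z : Y p => z.2.val) h
    exact Yext e1 (by simpa using e2)
  · have e2 := congrArg (fun z : Y p => z.2.val) h
    simp [th] at e2
  · have e2 := congrArg (fun z : Y p => z.2.val) h
    simp [th] at e2
  · have e1 : σ (al p y.1) = σ (al p y'.1) := congrArg Sigma.fst h
    have e3 : y.1 = y'.1 := (al p).injective (σ.injective e1)
    have e4 : ln p y.1 = ln p y'.1 := by rw [e3]
    exact Yext e3 (by omega)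

noncomputable def fY : Perm (Y p) :=
  Equiv.ofBijective (f0 p) (Finite.injective_iff_bijective.1 (f0_inj p))

lemma fY_lt (y : Y p) (h : y.2.val + 1 < ln p y.1) : fY p y = ⟨y.1, ⟨_, h⟩⟩ := dif_pos h
lemma fY_ge (y : Y p) (h : ¬ y.2.val + 1 < ln p y.1) : fY p y = th p (σ (al p y.1)) := dif_neg h

lemma lb_fY (y : Y p) : lb p (fY p y).1 = lb p y.1 := by
  by_cases h : y.2.val + 1 < ln p y.1
  · rw [fY_lt p y h]
  · rw [fY_ge p y h]; exact lb_step p _

lemma lb_pow (n : ℕ) (y : Y p) : lb p ((fY p ^ n) y).1 = lb p y.1 := by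
  induction n with
  | zero => rfl
  | succ n ih => rw [pow_succ', Perm.mul_apply, lb_fY, ih]

lemma pow_th (x : H) (i : ℕ) (hi : i < ln p x) : (fY p ^ i) (th p x) = ⟨x, ⟨i, hi⟩⟩ := by
  induction i with
  | zero => rfl
  | succ i ih => rw [pow_succ', Perm.mul_apply, ih (by omega), fY_lt p _ hi]

lemma pow_ln (x : H) : (fY p ^ ln p x) (th p x) = th p (σ (al p x)) := by
  have h := ln_pos p x
  have h1 : ln p x = (ln p x - 1) + 1 := by omega
  have h2 := pow_th p x (ln p x - 1) (by omega)
  conv_lhs => rw [h1]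
  rw [pow_succ', Perm.mul_apply, h2, fY_ge p _ (by simp only; omega)]

lemma sc_th (n : ℕ) (x : H) : (fY p).SameCycle (th p x) (th p (((σ * al p) ^ n) x)) := by
  induction n with
  | zero => exact Perm.SameCycle.refl _ _
  | succ n ih =>
    refine ih.trans ?_
    rw [pow_succ', Perm.mul_apply, Perm.mul_apply, ← pow_ln]
    exact ⟨(ln p _ : ℕ), by rw [zpow_natCast]⟩

lemma sc_of_lb (y y' : Y p) (h : lb p y.1 = lb p y'.1) : (fY p).SameCycle y y' := by
  obtain ⟨n, hn⟩ := ((lb_iff p _ _).1 h).exists_nat_pow_eq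
  have h1 : ∀ z : Y p, (fY p).SameCycle (th p z.1) z := fun z =>
    ⟨(z.2.val : ℕ), by rw [zpow_natCast, pow_th p z.1 z.2.val z.2.2]⟩
  exact (h1 y).symm.trans ((hn ▸ sc_th p n y.1).trans (h1 y'))

/-- the segments on the face `b` -/
def face (b : Bool) : Finset (Y p) := univ.filter fun y => lb p y.1 = (0, b)

lemma mem_face {b : Bool} {y : Y p} : y ∈ face p b ↔ lb p y.1 = (0, b) := by simp [face]

lemma card_face (b : Bool) : (face p b).card = w := by
  have h : face p b = (univ.filter fun x => lb p x = (0, b)).sigma (fun _ => univ) := by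
    ext y; simp [face]
  rw [h, card_sigma]
  refine Eq.trans ?_ (p.2.2.2.2.2 (0, b))
  simp [per]

lemma cyc_face (b : Bool) : (fY p).IsCycleOn (face p b : Set (Y p)) := by
  refine ⟨⟨fun y hy => ?_, (fY p).injective.injOn, fun y hy => ⟨(fY p).symm y, ?_, by simp⟩⟩,
    fun y hy y' hy' => ?_⟩
  · rw [mem_coe, mem_face] at hy ⊢
    rw [lb_fY, hy]
  · rw [mem_coe, mem_face] at hy ⊢
    rw [← lb_fY, apply_symm_apply, hy]
  · rw [mem_coe, mem_face] at hy hy'
    exact sc_of_lb p _ _ (hy.trans hy'.symm)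

noncomputable def bs (b : Bool) : Y p := th p (p.2.2.1.2 (0, b)).choose

lemma bs_mem (b : Bool) : bs p b ∈ face p b := (mem_face p).2 (p.2.2.1.2 (0, b)).choose_spec

noncomputable def F (b : Bool) (j : Fin w) : Y p := (fY p ^ j.val) (bs p b)

lemma lb_F (b : Bool) (j : Fin w) : lb p (F p b j).1 = (0, b) := by
  rw [F, lb_pow, (mem_face p).1 (bs_mem p b)]

lemma F_inj (b : Bool) : Function.Injective (F p b) := by
  intro i j h
  have := ((cyc_face p b).pow_apply_eq_pow_apply (bs_mem p b)).1 h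
  rw [card_face] at this
  exact Fin.ext (Nat.ModEq.eq_of_lt_of_lt this i.2 j.2)

lemma F_surj (b : Bool) (y : Y p) (hy : lb p y.1 = (0, b)) : ∃ j, F p b j = y := by
  obtain ⟨n, hn, h⟩ := (cyc_face p b).exists_pow_eq (bs_mem p b) ((mem_face p).2 hy)
  rw [card_face] at hn
  exact ⟨⟨n, hn⟩, h⟩

variable [NeZero w]

lemma F_succ (b : Bool) (j : Fin w) : fY p (F p b j) = F p b (j + 1) := by
  rw [F, F, ← Perm.mul_apply, ← pow_succ', (cyc_face p b).pow_apply_eq_pow_apply (bs_mem p b),
    card_face, Fin.val_add, Fin.val_one']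
  exact ((Nat.mod_modEq _ _).trans ((Nat.mod_modEq 1 w).add_left _)).symm

noncomputable def d0 (t : Fin w) (q : XS w) : Y p := F p q.2 (if q.2 then q.1 else t - q.1)

lemma lb_d0 (t : Fin w) (q : XS w) : lb p (d0 p t q).1 = (0, q.2) := lb_F p _ _

lemma d0_bij (t : Fin w) : Function.Bijective (d0 p t) := by
  constructor
  · rintro ⟨i, b⟩ ⟨j, b'⟩ h
    have h1 : b = b' := by
      have h2 := lb_d0 p t (i, b)
      rw [h, lb_d0] at h2
      exact (congrArg Prod.snd h2).symm
    subst h1
    have h3 := F_inj p b h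
    cases b
    · simp only [Bool.false_eq_true, if_false, sub_right_inj] at h3
      rw [h3]
    · simp only [if_true] at h3
      rw [h3]
  · intro y
    have h : lb p y.1 = (0, (lb p y.1).2) := Prod.ext (Subsingleton.elim _ _) rfl
    obtain ⟨j, hj⟩ := F_surj p _ y h
    refine ⟨(if (lb p y.1).2 then j else t - j, (lb p y.1).2), ?_⟩
    rw [← hj, lb_F]
    cases (lb p y.1).2 <;> simp [d0]

/-- the standard motion along the row -/
def fs (q : XS w) : XS w := (if q.2 then q.1 + 1 else q.1 - 1, q.2)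

lemma f_d0 (t : Fin w) (q : XS w) : fY p (d0 p t q) = d0 p t (fs q) := by
  obtain ⟨i, b⟩ := q
  rw [d0, F_succ]
  cases b
  · simp only [d0, fs, Bool.false_eq_true, if_false]
    congr 1
    abel
  · simp [d0, fs]

omit [NeZero w] in
lemma io_apply (q : XS w) : io w q = (q.1, !q.2) := rfl

lemma io_fs (q : XS w) : io w (fs (io w (fs q))) = q := by
  obtain ⟨i, b⟩ := q
  cases b <;> simp [io_apply, fs]

/-- the relabellings -/
abbrev GG (w : ℕ) := Perm (Fin w) × (Fin w → Bool)

def gg (g : GG w) : Perm (XS w) :=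
  Equiv.prodShear g.1 (fun i => if g.2 i then Equiv.boolNot else Equiv.refl Bool)

omit [NeZero w] in
lemma gg_apply (g : GG w) (q : XS w) : gg g q = (g.1 q.1, xor (g.2 q.1) q.2) := by
  obtain ⟨i, b⟩ := q
  simp only [gg, Equiv.prodShear_apply]
  cases g.2 i <;> simp

omit [NeZero w] in
lemma gg_io (g : GG w) (q : XS w) : gg g (io w q) = io w (gg g q) := by
  simp [gg_apply, io_apply]

omit [NeZero w] in
lemma gg_inj : Function.Injective (gg : GG w → Perm (XS w)) := by
  intro g g' h
  have h1 : ∀ i, gg g (i, false) = gg g' (i, false) := fun i => by rw [h]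
  simp only [gg_apply, Bool.xor_false, Prod.mk.injEq] at h1
  exact Prod.ext (Equiv.ext fun i => (h1 i).1) (funext fun i => (h1 i).2)

noncomputable def DD (t : Fin w) (g : GG w) : XS w ≃ Y p :=
  (gg g).trans (Equiv.ofBijective (d0 p t) (d0_bij p t))

lemma DD_apply (t : Fin w) (g : GG w) (q : XS w) : DD p t g q = d0 p t (gg g q) := rfl

/-- the surface -/
noncomputable def TT (t : Fin w) (g : GG w) : Tri H w :=
  ((DD p t g).symm.permCongr (aY p), (DD p t g).symm.permCongr (fY p),
    fun x => (DD p t g).symm (th p x))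

variable (t : Fin w) (g : GG w)

lemma D_a (q : XS w) : DD p t g ((TT p t g).1 q) = aY p (DD p t g q) := by simp [TT]
lemma D_f (q : XS w) : DD p t g ((TT p t g).2.1 q) = fY p (DD p t g q) := by simp [TT]
lemma D_th (x : H) : DD p t g ((TT p t g).2.2 x) = th p x := by simp [TT]

lemma D_pow (n : ℕ) (q : XS w) :
    DD p t g (((TT p t g).2.1 ^ n) q) = (fY p ^ n) (DD p t g q) := by
  induction n with
  | zero => rfl
  | succ n ih => rw [pow_succ', pow_succ', Perm.mul_apply, Perm.mul_apply, D_f, ih]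

lemma g_f (q : XS w) : gg g ((TT p t g).2.1 q) = fs (gg g q) := by
  apply (d0_bij p t).1
  rw [← DD_apply, D_f, DD_apply, f_d0]

lemma mem_range_iff (q : XS w) : q ∈ Set.range (TT p t g).2.2 ↔ (DD p t g q).2.val = 0 := by
  constructor
  · rintro ⟨x, rfl⟩
    rw [D_th]; rfl
  · intro h
    refine ⟨(DD p t g q).1, (DD p t g).injective ?_⟩
    rw [D_th]
    exact Yext rfl h.symm

lemma fa_pos (y : Y p) (h : y.2.val ≠ 0) :
    (fY p (aY p y)).1 = al p y.1 ∧ (fY p (aY p y)).2.val = ln p y.1 - y.2.val := by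
  have hy := y.2.2
  have h1 : (aY p y).2.val + 1 < ln p (aY p y).1 := by
    rw [aY_snd, aY_fst, ln_al]; omega
  rw [fY_lt p _ h1]
  exact ⟨rfl, by simp only [aY_snd]; omega⟩

theorem isFr : IsFr σ (TT p t g) where
  aa q := (DD p t g).injective (by rw [D_a, D_a]; exact a0_inv p _)
  ane q h := by
    have := congrArg (fun z => (DD p t g z).1) h
    simp only [D_a, aY_fst] at this
    exact al_ne p _ this
  ff q := (gg g).injective (by rw [gg_io, g_f, gg_io, g_f, io_fs])
  fne q h := by
    have : (gg g ((TT p t g).2.1 q)).2 = (gg g (io w q)).2 := by rw [h]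
    rw [g_f, gg_io, io_apply] at this
    simp [fs] at this
  conn := by
    have h1 : ∀ (n : ℕ) (q : XS w), Relation.EqvGen
        (fun a b => b = io w a ∨ b = (TT p t g).1 a ∨ b = (TT p t g).2.1 a) q
        (((TT p t g).2.1 ^ n) q) := by
      intro n q
      induction n with
      | zero => exact Relation.EqvGen.refl _
      | succ n ih =>
        refine Relation.EqvGen.trans _ _ _ ih (Relation.EqvGen.rel _ _ (Or.inr (Or.inr ?_)))
        rw [pow_succ', Perm.mul_apply]
    have h2 : ∀ q q' : XS w, (gg g q).2 = (gg g q').2 → Relation.EqvGen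
        (fun a b => b = io w a ∨ b = (TT p t g).1 a ∨ b = (TT p t g).2.1 a) q q' := by
      intro q q' h
      obtain ⟨n, hn⟩ := (sc_of_lb p (DD p t g q) (DD p t g q')
        (by rw [DD_apply, DD_apply, lb_d0, lb_d0, h])).exists_nat_pow_eq
      rw [← D_pow] at hn
      rw [← (DD p t g).injective hn]
      exact h1 n q
    intro q q'
    by_cases h : (gg g q).2 = (gg g q').2
    · exact h2 q q' h
    · refine Relation.EqvGen.trans _ _ _ (Relation.EqvGen.rel _ _ (Or.inl rfl)) (h2 _ _ ?_)
      rw [gg_io, io_apply]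
      revert h
      cases (gg g q).2 <;> cases (gg g q').2 <;> simp
  inj x y h := by
    have := congrArg (fun z => (DD p t g z).1) h
    simp only [D_th] at this
    exact this
  eqv x := by
    apply (DD p t g).injective
    rw [D_f, D_a, D_th, D_th, fY_ge, aY_fst, al_al]
    · rfl
    · rw [aY_snd, aY_fst, ln_al]
      have := ln_pos p x
      simp only [th]
      omega
  reg q hq := by
    rw [mem_range_iff] at hq
    obtain ⟨h1, h2⟩ := fa_pos p _ hq
    have hy := (DD p t g q).2.2
    constructor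
    · apply (DD p t g).injective
      rw [D_f, D_a, D_f, D_a]
      obtain ⟨h3, h4⟩ := fa_pos p (fY p (aY p (DD p t g q))) (by rw [h2]; omega)
      refine Yext (by rw [h3, h1, al_al]) ?_
      have h5 : ln p (fY p (aY p (DD p t g q))).1 = ln p (DD p t g q).1 := by rw [h1, ln_al]
      rw [h4, h2, h5]
      omega
    · intro h
      have := congrArg (fun z => (DD p t g z).1) h
      simp only [D_f, D_a] at this
      rw [h1] at this
      exact al_ne p _ this

lemma r1 (x : H) : (TT p t g).2.2 (al p x) =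
    (TT p t g).1 (((TT p t g).2.1 ^ (ln p x - 1)) ((TT p t g).2.2 x)) := by
  apply (DD p t g).injective
  have := ln_pos p x
  rw [D_a, D_pow, D_th, D_th, pow_th p x _ (by omega)]
  exact Yext rfl (by simp [aY_snd, th])

lemma r2 (x : H) :
    ((TT p t g).2.1 ^ ln p x) ((TT p t g).2.2 x) ∈ Set.range (TT p t g).2.2 := by
  rw [mem_range_iff, D_pow, D_th, pow_ln]
  rfl

lemma r3 (x : H) (i : ℕ) (h0 : 0 < i) (hi : i < ln p x) :
    ((TT p t g).2.1 ^ i) ((TT p t g).2.2 x) ∉ Set.range (TT p t g).2.2 := by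
  rw [mem_range_iff, D_pow, D_th, pow_th p x i hi]
  exact h0.ne'

omit [NeZero w] in
lemma nonempty (p : PP σ w) : Nonempty H := ⟨(bs p true).1⟩

noncomputable def Phi (s : PP σ w × Fin w × GG w) : {T : Tri H w // IsFr σ T} × Bool :=
  (⟨TT s.1 s.2.1 s.2.2, isFr _ _ _⟩, (lb s.1 (Classical.choice (nonempty s.1))).2)

theorem Phi_inj : Function.Injective (Phi : PP σ w × Fin w × GG w → _) := by
  rintro ⟨p, t, g⟩ ⟨p', t', g'⟩ h
  have hT : TT p t g = TT p' t' g' := congrArg (fun z => z.1.1) h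
  have hb : (lb p (Classical.choice (nonempty p))).2 = (lb p' (Classical.choice (nonempty p))).2 :=
    congrArg (fun z : {T : Tri H w // IsFr σ T} × Bool => z.2) h
  have hl : ln p = ln p' := by
    funext x
    rcases lt_trichotomy (ln p x) (ln p' x) with h1 | h1 | h1
    · exact absurd (hT ▸ r2 p t g x) (r3 p' t' g' x _ (ln_pos p x) h1)
    · exact h1
    · exact absurd (hT ▸ r2 p' t' g' x) (r3 p t g x _ (ln_pos p' x) h1)
  have ha : al p = al p' := by
    ext x
    apply (isFr p t g).inj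
    rw [r1, hT, r1, hl]
  have hc : lb p = lb p' := by
    funext x
    refine Prod.ext (Subsingleton.elim _ _) ?_
    have h1 := lb_iff p x (Classical.choice (nonempty p))
    have h2 := lb_iff p' x (Classical.choice (nonempty p))
    rw [ha, ← h2, Prod.ext_iff, Prod.ext_iff, hb] at h1
    simp only [eq_iff_true_of_subsingleton, true_and] at h1
    revert h1
    cases (lb p x).2 <;> cases (lb p' x).2 <;>
      cases (lb p' (Classical.choice (nonempty p))).2 <;> simp
  have hp : p = p' := Subtype.ext (Prod.ext ha (Prod.ext hc hl))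
  subst hp
  have hD : ∀ q, DD p t g q = DD p t' g' q := by
    intro q
    obtain ⟨y, rfl⟩ := (DD p t g).symm.surjective q
    have h1 : (DD p t g).symm y = ((TT p t g).2.1 ^ y.2.val) ((TT p t g).2.2 y.1) := by
      rw [symm_apply_eq, D_pow, D_th, pow_th p y.1 _ y.2.2]
    rw [apply_symm_apply, h1, hT, D_pow, D_th, pow_th p y.1 _ y.2.2]
  have ht : t = t' := by
    obtain ⟨q, hq⟩ := (gg g).surjective (0, true)
    have h1 : gg g' q = (0, true) := by
      apply (d0_bij p t').1
      rw [← DD_apply, ← hD, DD_apply, hq]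
      simp [d0]
    have h2 := hD (io w q)
    rw [DD_apply, DD_apply, gg_io, gg_io, hq, h1] at h2
    have h3 : F p false (t - 0) = F p false (t' - 0) := h2
    simpa using F_inj p false h3
  subst ht
  have hg : g = g' := gg_inj (Equiv.ext fun q => (d0_bij p t).1 (hD q))
  rw [hg]

end StructLow

variable {H J : Type} [Fintype H] [DecidableEq H] [Fintype J] [DecidableEq J]
  {σ : Perm H} {π : H → J} {v : J → ℕ}

set_option linter.unusedVariables false in
theorem structLow (hc : Cyc σ π v) (w : ℕ) :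
    2 ^ w * w.factorial * w * Cnt1 σ w ≤ 2 * Nat.card {T : Tri H w // IsFr σ T} := by
  rcases Nat.eq_zero_or_pos w with rfl | hw
  · simp
  haveI : NeZero w := ⟨hw.ne'⟩
  have h := Nat.card_le_card_of_injective _ (StructLow.Phi_inj (σ := σ) (w := w))
  have h1 : Cnt1 σ w = Nat.card (StructLow.PP σ w) := (Nat.card_coe_set_eq _).symm
  rw [Nat.card_prod, Nat.card_prod, Nat.card_prod, Nat.card_prod, Nat.card_perm, Nat.card_fun,
    ← h1] at h
  simp only [Nat.card_eq_fintype_card, Fintype.card_fin, Fintype.card_bool] at h ⊢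
  calc _ = Cnt1 σ w * (w * (w.factorial * 2 ^ w)) := by ring
    _ ≤ _ := h
    _ = _ := mul_comm _ _

end Pool.Agent.STS
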