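import Pool.Agent.P.MP_bb7f8f_gt.Formula
import Pool.Agent.P.MP_bb7f8f_gt.StructLow
import Pool.Agent.P.MP_bb7f8f_gt.LatLow
import Pool.Agent.P.MP_bb7f8f_gt.Asym
import Pool.Agent.P.MP_bb7f8f_gt.Est

/-! The lower bound for the total count, from one-cylinder surfaces. -/

namespace Pool.Agent.STS
open Equiv Finset Filter

variable {H J : Type} [Fintype H] [DecidableEq H] [Fintype J] [DecidableEq J]
  {σ : Perm H} {π : H → J} {v : J → ℕ} {D : ℕ}

theorem sm_low {C : ℝ} (hC : 1 ≤ C) (hf : FormulaAt (97 / 100) (99 / 100) C) (hc : Cyc σ π v)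
    (hD : Fintype.card H = 2 * D) (h1 : 1 ≤ D) {u : ℕ → ℝ} (hu : ∀ R, 1 ≤ R → 0 < u R)
    (he : ∑ A ∈ (SP D).erase {D}, kap univ v A u * DF A * (C * 4) ^ (#A ^ 2) *
      (100 / 97 : ℝ) ^ (D - A.sup id) ≤ 1 / 8 * DF {D}) (w : ℕ) (hw : D ≤ w) :
    4 ^ D * (DF {D} / 2 * ∑ κ ∈ OT (Fin 1 × Bool) D, ∏ a, omM (κ a) w -
        DF {D} / 8 * ∑ κ ∈ OT (Fin 1 × Bool) D, ∏ a, omP (κ a) w) ≤
      Sm σ (fun _ : Fin 1 × Bool => w) := by
  obtain ⟨S, e, b, l⟩ := hf H J (Fin 1 × Bool) σ π v hc D hD h1 fun _ => w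
  rw [e, ← Finset.add_sum_erase _ _ (single_mem_SP h1)]
  refine mul_le_mul_of_nonneg_left ?_ (by positivity)
  have l := l fun _ => hw
  have hP : 0 ≤ ∑ κ ∈ OT (Fin 1 × Bool) D, ∏ a, omP (κ a) w :=
    Finset.sum_nonneg fun _ _ => Finset.prod_nonneg fun _ _ => omP_nonneg _ _
  have h2 : ∑ A ∈ (SP D).erase {D}, -S A ≤
      DF {D} / 8 * ∑ κ ∈ OT (Fin 1 × Bool) D, ∏ a, omP (κ a) w := by
    refine le_trans ?_ ((mul_le_mul_of_nonneg_right he hP).trans (le_of_eq (by ring)))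
    rw [Finset.sum_mul]
    refine Finset.sum_le_sum fun A hA => ?_
    have hA := mem_of_mem_erase hA
    refine (neg_le_abs _).trans ((b A hA u hu).1.trans ?_)
    have k1 := kap_nonneg (v := v) univ hA hu
    have d1 := (DF_pos A).le
    have h3 : ∑ κ ∈ OT (Fin 1 × Bool) D, ∏ i, (omP (κ i) w *
        (1 + ((#A - 1 : ℕ) : ℝ) * (99 / 100 : ℝ) ^ κ i)) ≤
        4 ^ (#A ^ 2) * ∑ κ ∈ OT (Fin 1 × Bool) D, ∏ a, omP (κ a) w := by
      rw [Finset.mul_sum]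
      refine Finset.sum_le_sum fun κ _ => ?_
      rw [Finset.prod_mul_distrib, mul_comm]
      refine mul_le_mul_of_nonneg_right ?_ (Finset.prod_nonneg fun _ _ => omP_nonneg _ _)
      have h4 : ∀ i ∈ (univ : Finset (Fin 1 × Bool)),
          1 + ((#A - 1 : ℕ) : ℝ) * (99 / 100 : ℝ) ^ κ i ≤ 2 ^ (#A ^ 2) := by
        intro i _
        have a1 : (99 / 100 : ℝ) ^ κ i ≤ 1 := pow_le_one₀ (by norm_num) (by norm_num)
        have a2 : 1 + (#A - 1) ≤ 2 ^ (#A ^ 2) := by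
          have := @Nat.lt_two_pow_self (#A ^ 2)
          have := Nat.le_self_pow two_ne_zero #A
          omega
        have a3 : (1 : ℝ) + ((#A - 1 : ℕ) : ℝ) ≤ 2 ^ (#A ^ 2) := by exact_mod_cast a2
        have a4 : (0 : ℝ) ≤ ((#A - 1 : ℕ) : ℝ) := by positivity
        nlinarith
      refine (Finset.prod_le_prod (fun _ _ => by positivity) h4).trans (le_of_eq ?_)
      rw [Finset.prod_const, ← pow_mul, mul_comm, pow_mul]
      norm_num
    refine (mul_le_mul_of_nonneg_left h3 (by positivity)).trans (le_of_eq ?_)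
    rw [mul_pow, inv_div]; ring
  rw [Finset.sum_neg_distrib] at h2
  linarith

theorem lower_data (M : ℕ) : ∃ D₀ : ℕ, ∀ D ≥ D₀, Even D →
    ∀ (H J : Type) [Fintype H] [DecidableEq H] [Fintype J] [DecidableEq J] (σ : Perm H)
      (π : H → J) (v : J → ℕ), Cyc σ π v → Fintype.card H = 2 * D → #{j | v j = 1} ≤ M →
      ∃ C : ℝ, ∀ᶠ N : ℕ in atTop, DF {D} * (N : ℝ) ^ D / (D * D.factorial) / 64 ≤
        2 * ∑ m ∈ range (N + 1), (Nat.card {T : Tri H m // IsFr σ T} : ℝ) / (2 ^ m * m.factorial) +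
          C * (N + 1) ^ (D - 1) := by
  obtain ⟨C₁, hC₁, hf⟩ := formula (97 / 100) (99 / 100) (by norm_num) (by norm_num) (by norm_num)
  obtain ⟨D₁, he⟩ := estLow M (C₁ * 4) (by linarith) (1 / 8) (by norm_num)
  obtain ⟨D₂, hs⟩ := lowSum
  refine ⟨max (max D₁ D₂) 3, fun D hD hev H J _ _ _ _ σ π v hc hcard hM => ?_⟩
  simp only [ge_iff_le, max_le_iff] at hD
  obtain ⟨u, hu, he⟩ := he D hD.1.1 J v hc.odd hM (by rw [← hc.card_eq, hcard])
  obtain ⟨C, hl⟩ := latLow hc hcard hD.2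
  refine ⟨C / 4 ^ D, (hs D hD.1.2 hev).mono fun N ⟨W, hW, h1⟩ => ?_⟩
  have h2 := hl N W fun w hw => ⟨(hW w hw).1, (hW w hw).2.2⟩
  have h3 : 4 ^ D * ∑ w ∈ W, (w : ℝ) * (DF {D} / 2 * ∑ κ ∈ OT (Fin 1 × Bool) D, ∏ a, omM (κ a) w -
        DF {D} / 8 * ∑ κ ∈ OT (Fin 1 × Bool) D, ∏ a, omP (κ a) w) ≤
      ∑ w ∈ W, (w : ℝ) * Sm σ (fun _ : Fin 1 × Bool => w) := by
    rw [Finset.mul_sum]
    refine Finset.sum_le_sum fun w hw => ?_
    rw [mul_left_comm]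
    exact mul_le_mul_of_nonneg_left (sm_low hC₁ hf hc hcard (by omega) hu he w (hW w hw).2.1)
      (by positivity)
  have h4 : ∑ w ∈ W, (w : ℝ) * Cnt1 σ w ≤
      2 * ∑ m ∈ range (N + 1), (Nat.card {T : Tri H m // IsFr σ T} : ℝ) / (2 ^ m * m.factorial) := by
    rw [Finset.mul_sum]
    refine le_trans (Finset.sum_le_sum fun w _ => ?_) (Finset.sum_le_sum_of_subset_of_nonneg
      (fun w hw => mem_range.2 (Nat.lt_succ_of_le (hW w hw).2.2)) fun _ _ _ => by positivity)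
    have := structLow hc w
    rw [← mul_div_assoc, le_div_iff₀ (by positivity)]
    have h : ((2 ^ w * w.factorial * w * Cnt1 σ w : ℕ) : ℝ) ≤
        ((2 * Nat.card {T : Tri H w // IsFr σ T} : ℕ) : ℝ) := by exact_mod_cast this
    push_cast at h
    linarith
  have h5 := h3.trans h2
  have p : (0 : ℝ) < 4 ^ D := by positivity
  have h6 : ∑ w ∈ W, (w : ℝ) * (DF {D} / 2 * ∑ κ ∈ OT (Fin 1 × Bool) D, ∏ a, omM (κ a) w -
        DF {D} / 8 * ∑ κ ∈ OT (Fin 1 × Bool) D, ∏ a, omP (κ a) w) ≤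
      ∑ w ∈ W, (w : ℝ) * (Cnt1 σ w +
          8 * D ^ 2 * (D - 1).factorial * ((w : ℝ) + D) ^ (D - 2) / (D - 2).factorial) +
        C / 4 ^ D * (N + 1) ^ (D - 1) := by
    refine le_of_mul_le_mul_left (h5.trans (le_of_eq ?_)) p
    rw [mul_add, ← mul_assoc, mul_div_cancel₀ _ p.ne']
  simp only [mul_add, mul_sub, Finset.sum_add_distrib, Finset.sum_sub_distrib] at h1 h6
  have e : DF {D} * (N : ℝ) ^ D / (D * D.factorial) / 64 =
      DF {D} * (N : ℝ) ^ D / (64 * D * D.factorial) := by ring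
  linarith

end Pool.Agent.STS
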