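import Pool.Agent.P.MP_bb7f8f_gt.UpA

/-! Every framed surface has cylinder data. -/

namespace Pool.Agent.STS
open Equiv Finset Filter

variable {H : Type} {σ : Perm H} {N k : ℕ} {T : Tri H N}

namespace StructUp

/-- first return time -/
noncomputable def ret {X : Type} (p : Perm X) (Y : X → Prop) (y : X) : ℕ :=
  sInf {i | 0 < i ∧ Y ((p ^ i) y)}

lemma ret_spec {X : Type} [Finite X] (p : Perm X) {Y : X → Prop} {y : X} (hy : Y y) :
    0 < ret p Y y ∧ Y ((p ^ ret p Y y) y) :=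
  Nat.sInf_mem (s := {i | 0 < i ∧ Y ((p ^ i) y)})
    ⟨orderOf p, orderOf_pos p, by rwa [pow_orderOf_eq_one]⟩

lemma ret_min {X : Type} (p : Perm X) {Y : X → Prop} {y : X} {i : ℕ} (h0 : 0 < i)
    (hi : i < ret p Y y) : ¬ Y ((p ^ i) y) :=
  fun h => Nat.notMem_of_lt_sInf hi ⟨h0, h⟩

lemma ret_eq {X : Type} [Finite X] (p : Perm X) {Y : X → Prop} {y : X} (hy : Y y) {n : ℕ}
    (h0 : 0 < n) (hn : Y ((p ^ n) y)) (hm : ∀ i, 0 < i → i < n → ¬ Y ((p ^ i) y)) :
    ret p Y y = n := by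
  rcases lt_trichotomy (ret p Y y) n with h | h | h
  · exact absurd (ret_spec p hy).2 (hm _ (ret_spec p hy).1 h)
  · exact h
  · exact absurd hn (ret_min p h0 h)

lemma exists_rows (hT : IsFr σ T) : ∃ (α : Perm H) (ℓ : H → ℕ), IsMt α ∧ (∀ x, ℓ (α x) = ℓ x) ∧
    (∀ x, 1 ≤ ℓ x) ∧ (∀ x, T.2.2 (α x) = T.1 ((T.2.1 ^ (ℓ x - 1)) (T.2.2 x))) ∧
    (∀ x, (T.2.1 ^ ℓ x) (T.2.2 x) = T.2.2 (σ (α x))) ∧
    ∀ x i, 0 < i → i < ℓ x → (T.2.1 ^ i) (T.2.2 x) ∉ Set.range T.2.2 := by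
  set ℓ : H → ℕ := fun x => ret T.2.1 (· ∈ Set.range T.2.2) (T.2.2 x) with hℓ
  have h0 : ∀ x, 0 < ℓ x ∧ (T.2.1 ^ ℓ x) (T.2.2 x) ∈ Set.range T.2.2 := fun x =>
    ret_spec (Y := (· ∈ Set.range T.2.2)) T.2.1 ⟨x, rfl⟩
  have h3 : ∀ x i, 0 < i → i < ℓ x → (T.2.1 ^ i) (T.2.2 x) ∉ Set.range T.2.2 := fun x i h1 h2 =>
    ret_min (Y := (· ∈ Set.range T.2.2)) T.2.1 h1 h2
  have hs : ∀ x, T.2.1 ((T.2.1 ^ (ℓ x - 1)) (T.2.2 x)) = (T.2.1 ^ ℓ x) (T.2.2 x) := fun x => by
    rw [← pow_succ_app, Nat.sub_add_cancel (h0 x).1]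
  have h1 : ∀ x, ∃ y, T.2.2 y = T.1 ((T.2.1 ^ (ℓ x - 1)) (T.2.2 x)) := fun x => by
    have := (h0 x).2
    rw [← hs, ← a_mem hT] at this
    exact this
  choose al hal using h1
  have h4 : ∀ x j, j ≤ ℓ x - 1 →
      (T.2.1 ^ j) (T.2.2 (al x)) = T.1 ((T.2.1 ^ (ℓ x - 1 - j)) (T.2.2 x)) := fun x j hj => by
    rw [hal, a_row hT _ _ (fun i h1 h2 => h3 x i h1 (by omega)) _ hj]
  have h5 : ∀ x, ℓ (al x) = ℓ x := fun x => by
    refine ret_eq (Y := (· ∈ Set.range T.2.2)) T.2.1 ⟨_, rfl⟩ (h0 x).1 ?_ fun i h1 h2 => ?_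
    · rw [← Nat.sub_add_cancel (h0 x).1, pow_succ_app, h4 x _ le_rfl, fa_mem hT]
      simp
    · rw [h4 x i (by omega), a_mem hT, ← pow_succ_app]
      exact h3 x _ (by omega) (by omega)
  have h6 : Function.Involutive al := fun x => by
    apply hT.inj
    rw [hal, h5, h4 x _ le_rfl, hT.aa]
    simp
  refine ⟨h6.toPerm al, ℓ, fun x => ⟨h6 x, fun h => ?_⟩, h5, fun x => (h0 x).1, hal, fun x => ?_, h3⟩
  · have h : al x = x := h
    have := (h0 x).1
    obtain ⟨j, hj | hj⟩ := Nat.even_or_odd' (ℓ x)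
    · have h7 := h4 x j (by omega)
      rw [h, show ℓ x - 1 - j = j - 1 by omega] at h7
      have h8 : T.2.1 ((T.2.1 ^ (j - 1)) (T.2.2 x)) = (T.2.1 ^ j) (T.2.2 x) := by
        rw [← pow_succ_app, Nat.sub_add_cancel (by omega)]
      refine (faf hT (y := (T.2.1 ^ (j - 1)) (T.2.2 x)) ?_).2 (h8.trans h7)
      rw [h8]
      exact h3 x j (by omega) (by omega)
    · have h7 := h4 x j (by omega)
      rw [h, show ℓ x - 1 - j = j by omega] at h7
      exact hT.ane _ h7.symm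
  · rw [hT.eqv, ← hs]
    congr 1
    exact ((congrArg T.1 (hal x)).trans (hT.aa _)).symm

lemma sum_cycle [Fintype H] {I : Type} [DecidableEq I] {φ : Perm H} {c : H → I}
    (hc : ∀ x y, c x = c y ↔ φ.SameCycle x y) (ℓ : H → ℕ) (x : H) :
    ∑ j ∈ range (Function.minimalPeriod φ x), ℓ ((φ ^ j) x) = per c ℓ (c x) := by
  have h0 : 0 < Function.minimalPeriod φ x :=
    Function.IsPeriodicPt.minimalPeriod_pos (orderOf_pos φ) (by
      rw [Function.IsPeriodicPt, ← Perm.coe_pow, pow_orderOf_eq_one]; rfl)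
  refine sum_nbij (fun j => (φ ^ j) x) (fun j _ => ?_) (fun i hi j hj h => ?_) (fun y hy => ?_)
    fun _ _ => rfl
  · simp only [mem_filter, mem_univ, true_and, hc, Perm.sameCycle_pow_left]
    rfl
  · simp only [Perm.coe_pow] at h
    exact Function.iterate_injOn_Iio_minimalPeriod (by simpa using hi) (by simpa using hj) h
  · simp only [coe_filter, mem_univ, true_and, Set.mem_ofPred_eq, hc] at hy
    obtain ⟨n, rfl⟩ := hy.symm.exists_nat_pow_eq
    refine ⟨n % Function.minimalPeriod φ x, by simpa using Nat.mod_lt _ h0, ?_⟩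
    simp only [Perm.coe_pow, Function.iterate_mod_minimalPeriod_eq]

lemma period [Fintype H] {I : Type} [DecidableEq I] (hi : Function.Injective T.2.2) {φ : Perm H}
    {c : H → I} (hc : ∀ x y, c x = c y ↔ φ.SameCycle x y) {ℓ : H → ℕ} (hp : ∀ x, 1 ≤ ℓ x)
    (r2 : ∀ x, (T.2.1 ^ ℓ x) (T.2.2 x) = T.2.2 (φ x))
    (r3 : ∀ x i, 0 < i → i < ℓ x → (T.2.1 ^ i) (T.2.2 x) ∉ Set.range T.2.2) (x : H) :
    Function.minimalPeriod T.2.1 (T.2.2 x) = per c ℓ (c x) := by
  have h0 : 0 < Function.minimalPeriod T.2.1 (T.2.2 x) :=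
    Function.IsPeriodicPt.minimalPeriod_pos (orderOf_pos T.2.1) (by
      rw [Function.IsPeriodicPt, ← Perm.coe_pow, pow_orderOf_eq_one]; rfl)
  apply le_antisymm
  · refine Function.IsPeriodicPt.minimalPeriod_le
      ((hp x).trans (single_le_sum (fun _ _ => Nat.zero_le _) (by simp))) ?_
    rw [← sum_cycle hc, Function.IsPeriodicPt, ← Perm.coe_pow, Function.IsFixedPt, walk' r2,
      Perm.coe_pow, Function.iterate_minimalPeriod]
  · obtain ⟨s, hs, hs'⟩ := walk hi hp r2 r3 (Function.minimalPeriod T.2.1 (T.2.2 x)) x x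
      (by rw [Perm.coe_pow, Function.iterate_minimalPeriod])
    rw [← sum_cycle hc, hs']
    refine sum_le_sum_of_subset (range_subset_range.2
      (Function.IsPeriodicPt.minimalPeriod_le (Nat.pos_of_ne_zero ?_) ?_))
    · rintro rfl
      simp at hs'
      omega
    · rw [Function.IsPeriodicPt, ← Perm.coe_pow]
      exact hs

lemma not_top_a (hT : IsFr σ T) {y : XS N} (hy : ¬ Top T y) : ¬ Top T (T.1 y) := by
  have h1 : ∀ m : ℕ, T.2.1 ((T.2.1 ^ m) y) ∉ Set.range T.2.2 := fun m h =>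
    hy ((top_pow m).1 (top_f.1 (top_of_mem h)))
  rintro ⟨h, hh⟩
  obtain ⟨n, hn⟩ := hh.symm.exists_nat_pow_eq
  have := a_row hT y n (fun i h0 _ => by
    rw [← Nat.sub_add_cancel h0, pow_succ_app]; exact h1 _) n le_rfl
  rw [Nat.sub_self, pow_zero, Perm.one_apply, ← hn] at this
  exact h1 n ((a_mem hT _).1 ⟨h, ((T.2.1 ^ n).injective this).symm⟩)

lemma top_a (hT : IsFr σ T) {y : XS N} : Top T (T.1 y) ↔ Top T y := by
  refine ⟨fun h => by_contra fun h' => not_top_a hT h' h, fun h => by_contra fun h' => ?_⟩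
  have := not_top_a hT h'
  rw [hT.aa] at this
  exact this h

lemma top_io (hT : IsFr σ T) {y : XS N} : Top T (io N y) ↔ Top T (dn T y) := (top_a hT).symm

/-- height of the cylinder below `y` -/
noncomputable def ht (T : Tri H N) (y : XS N) : ℕ := ret (dn T) (Top T) y

/-- the point across the cylinder -/
noncomputable def tau (T : Tri H N) (y : XS N) : XS N := io N ((dn T ^ (ht T y - 1)) y)

lemma ht_pos {y : XS N} (hy : Top T y) : 0 < ht T y := (ret_spec _ hy).1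

lemma ht_min {y : XS N} {i : ℕ} (h0 : 0 < i) (hi : i < ht T y) : ¬ Top T ((dn T ^ i) y) :=
  ret_min _ h0 hi

lemma top_tau (hT : IsFr σ T) {y : XS N} (hy : Top T y) : Top T (tau T y) := by
  rw [tau, top_io hT, ← pow_succ_app, Nat.sub_add_cancel (ht_pos hy)]
  exact (ret_spec _ hy).2

lemma f_dn_ht (hT : IsFr σ T) (y : XS N) {j : ℕ} (hj : j < ht T y) :
    T.2.1 ((dn T ^ j) y) = (dn T ^ j) (T.2.1 y) :=
  f_dn_pow hT j fun _ h1 h2 => ht_min h1 (by omega)

lemma ht_f (hT : IsFr σ T) {y : XS N} (hy : Top T y) : ht T (T.2.1 y) = ht T y := by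
  have h0 := ht_pos hy
  refine ret_eq _ (top_f.2 hy) h0 ?_ fun i h1 h2 => ?_
  · rw [← Nat.sub_add_cancel h0, pow_succ_app, ← top_io hT, ← f_dn_ht hT y (by omega), ← top_f,
      f_io_f hT]
    exact top_tau hT hy
  · rw [← f_dn_ht hT y h2, top_f]
    exact ht_min h1 h2

lemma tau_f (hT : IsFr σ T) {y : XS N} (hy : Top T y) : T.2.1 (tau T (T.2.1 y)) = tau T y := by
  have h0 := ht_pos hy
  rw [tau, ht_f hT hy, ← f_dn_ht hT y (by omega), f_io_f hT, tau]

lemma ht_pow (hT : IsFr σ T) {y : XS N} (hy : Top T y) (m : ℕ) :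
    ht T ((T.2.1 ^ m) y) = ht T y := by
  induction m with
  | zero => rfl
  | succ m ih => rw [pow_succ_app, ht_f hT ((top_pow m).2 hy), ih]

lemma ht_same (hT : IsFr σ T) {y z : XS N} (hy : Top T y) (h : T.2.1.SameCycle y z) :
    ht T z = ht T y := by
  obtain ⟨m, rfl⟩ := h.exists_nat_pow_eq
  exact ht_pow hT hy m

lemma tau_pow (hT : IsFr σ T) {y : XS N} (hy : Top T y) (m : ℕ) :
    (T.2.1 ^ m) (tau T ((T.2.1 ^ m) y)) = tau T y := by
  induction m with
  | zero => rfl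
  | succ m ih => rw [pow_succ_app', pow_succ_app, tau_f hT ((top_pow m).2 hy), ih]

lemma ht_tau (hT : IsFr σ T) {y : XS N} (hy : Top T y) : ht T (tau T y) = ht T y := by
  have h0 := ht_pos hy
  refine ret_eq _ (top_tau hT hy) h0 ?_ fun i h1 h2 => ?_
  · conv => enter [2, 1, 2]; rw [← Nat.sub_add_cancel h0]
    rw [pow_succ_app, tau, dn_pow_io hT, dn_apply, io_io, top_a hT]
    exact hy
  · rw [tau, dn_pow_io' hT (by omega), top_io hT, ← pow_succ_app]
    exact ht_min (by omega) (by omega)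

lemma tau_tau (hT : IsFr σ T) {y : XS N} (hy : Top T y) : tau T (tau T y) = y := by
  rw [tau, ht_tau hT hy, tau, dn_pow_io hT, io_io]

lemma dn_f_pow (hT : IsFr σ T) {y : XS N} (hy : Top T y) {j : ℕ} (hj : j < ht T y) (m : ℕ) :
    (dn T ^ j) ((T.2.1 ^ m) y) = (T.2.1 ^ m) ((dn T ^ j) y) := by
  induction m with
  | zero => rfl
  | succ m ih => rw [pow_succ_app, ← f_dn_ht hT _ (by rwa [ht_pow hT hy]), ih, pow_succ_app]

lemma tau_ne (hT : IsFr σ T) {y : XS N} (hy : Top T y) : ¬ T.2.1.SameCycle y (tau T y) := by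
  intro h
  obtain ⟨t, ht0⟩ := h.exists_nat_pow_eq
  obtain ⟨z, e, hz, he, h1⟩ : ∃ z e, Top T z ∧ e ≤ 1 ∧ tau T z = (T.2.1 ^ e) z := by
    refine ⟨(T.2.1 ^ (t / 2)) y, t % 2, (top_pow _).2 hy, by omega,
      (T.2.1 ^ (t / 2)).injective ?_⟩
    rw [tau_pow hT hy, ← ht0, ← pow_add_app, ← pow_add_app]
    congr 2; omega
  have h0 := ht_pos hz
  have h2 : ∀ j < ht T z, io N ((dn T ^ (ht T z - 1 - j)) z) = (T.2.1 ^ e) ((dn T ^ j) z) :=
    fun j hj => by rw [← dn_pow_io' hT (by omega), ← dn_f_pow hT hz hj, ← h1, tau]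
  obtain ⟨j, hj | hj⟩ := Nat.even_or_odd' (ht T z)
  · have h3 := h2 j (by omega)
    have h4 : (dn T ^ j) z = T.1 (io N ((dn T ^ (ht T z - 1 - j)) z)) := by
      rw [← dn_apply, ← pow_succ_app]
      congr 2; omega
    have h5 : T.1 ((dn T ^ j) z) = (T.2.1 ^ e) ((dn T ^ j) z) := by
      rw [← h3]
      conv_lhs => rw [h4, hT.aa]
    interval_cases e
    · exact hT.ane _ h5
    · refine (faf hT fun h6 => ?_).2 h5.symm
      exact ht_min (y := z) (i := j) (by omega) (by omega) (top_f.1 (top_of_mem h6))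
  · have h3 := h2 j (by omega)
    rw [show ht T z - 1 - j = j by omega] at h3
    interval_cases e
    · exact io_ne _ h3
    · exact hT.fne _ h3.symm

lemma tau_same (hT : IsFr σ T) {y z : XS N} (hy : Top T y) (h : T.2.1.SameCycle y z) :
    T.2.1.SameCycle (tau T z) (tau T y) := by
  obtain ⟨m, rfl⟩ := h.exists_nat_pow_eq
  exact ⟨m, by simpa using tau_pow hT hy m⟩

lemma tau_period (hT : IsFr σ T) {y : XS N} (hy : Top T y) :
    Function.minimalPeriod T.2.1 (tau T y) = Function.minimalPeriod T.2.1 y := by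
  have h1 : ∀ y, Top T y →
      Function.minimalPeriod T.2.1 (tau T y) ∣ Function.minimalPeriod T.2.1 y := by
    intro y hy
    refine Function.IsPeriodicPt.minimalPeriod_dvd ?_
    have := tau_pow hT hy (Function.minimalPeriod T.2.1 y)
    rw [Perm.coe_pow, Function.iterate_minimalPeriod] at this
    exact this
  refine Nat.dvd_antisymm (h1 y hy) ?_
  simpa [tau_tau hT hy] using h1 _ (top_tau hT hy)

lemma pairing {Q : Type} [Finite Q] (ι : Q → Q) (h1 : ∀ q, ι (ι q) = q) (h2 : ∀ q, ι q ≠ q) :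
    ∃ (k : ℕ) (e : Fin k × Bool ≃ Q), ∀ a, e (io k a) = ι (e a) := by
  obtain ⟨n, ⟨u⟩⟩ := Finite.exists_equiv_fin Q
  obtain ⟨k, ⟨e⟩⟩ := Finite.exists_equiv_fin {q // u q < u (ι q)}
  refine ⟨k, Equiv.ofBijective
    (fun a => if a.2 then ι (e.symm a.1).1 else (e.symm a.1).1) ⟨?_, fun q => ?_⟩, ?_⟩
  · rintro ⟨i, b⟩ ⟨j, b'⟩ h
    have hi := (e.symm i).2
    have hj := (e.symm j).2
    cases b <;> cases b' <;> simp only [if_true, Bool.false_eq_true, if_false] at h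
    · rw [e.symm.injective (Subtype.ext h)]
    · rw [h, h1] at hi
      exact absurd hi hj.asymm
    · rw [← h, h1] at hj
      exact absurd hi hj.asymm
    · have := congrArg ι h
      rw [h1, h1] at this
      rw [e.symm.injective (Subtype.ext this)]
  · rcases lt_trichotomy (u q) (u (ι q)) with h | h | h
    · exact ⟨(e ⟨q, h⟩, false), by simp⟩
    · exact absurd (u.injective h).symm (h2 q)
    · exact ⟨(e ⟨ι q, by rwa [h1]⟩, true), by simp [h1]⟩
  · rintro ⟨i, _ | _⟩ <;> simp [io_apply, h1]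

lemma exists_lab [Fintype H] (hT : IsFr σ T) {φ : Perm H}
    (hφ : ∀ x y, T.2.1.SameCycle (T.2.2 x) (T.2.2 y) ↔ φ.SameCycle x y) :
    ∃ (k : ℕ) (c : H → Fin k × Bool), (∀ x y, c x = c y ↔ φ.SameCycle x y) ∧
      Function.Surjective c ∧
      ∀ x y, c y = io k (c x) → T.2.1.SameCycle (T.2.2 y) (tau T (T.2.2 x)) := by
  have top : ∀ x, Top T (T.2.2 x) := fun x => top_of_mem ⟨x, rfl⟩
  choose op hop using fun x => top_tau hT (top x)
  let ι : Quotient (Perm.SameCycle.setoid φ) → Quotient (Perm.SameCycle.setoid φ) :=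
    Quotient.map op fun x y h => (hφ _ _).1
      (((hop x).symm.trans (tau_same hT (top y) ((hφ _ _).2 h).symm)).trans (hop y))
  have hι : ∀ x, ι ⟦x⟧ = ⟦op x⟧ := fun _ => rfl
  have hq : ∀ x y, (⟦x⟧ : Quotient (Perm.SameCycle.setoid φ)) = ⟦y⟧ ↔ φ.SameCycle x y :=
    fun x y => Quotient.eq
  have i1 : ∀ q, ι (ι q) = q := fun q => by
    obtain ⟨x, rfl⟩ := Quotient.mk_surjective q
    rw [hι, hι, hq, ← hφ]
    exact (hop _).symm.trans (tau_same hT (top_tau hT (top x)) (hop x) |>.trans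
      (by rw [tau_tau hT (top x)]))
  have i2 : ∀ q, ι q ≠ q := fun q => by
    obtain ⟨x, rfl⟩ := Quotient.mk_surjective q
    rw [hι, Ne, hq, ← hφ]
    exact fun h => tau_ne hT (top x) (h.symm.trans (hop x).symm)
  obtain ⟨k, e, he⟩ := pairing ι i1 i2
  refine ⟨k, fun x => e.symm ⟦x⟧, fun x y => by rw [e.symm.injective.eq_iff, hq],
    e.symm.surjective.comp Quotient.mk_surjective, fun x y h => ?_⟩
  rw [Equiv.symm_apply_eq, he, Equiv.apply_symm_apply, hι, hq, ← hφ] at h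
  exact h.trans (hop x).symm

lemma exists_dat [Fintype H] [Nonempty H] (hT : IsFr σ T) :
    ∃ (k : ℕ) (c : H → Fin k × Bool), Function.Surjective c ∧ ∀ g : Perm (XS k),
      g * io k = io k * g → ∃ δ : Datum H k, δ.c = g ∘ c ∧ IsDat σ N δ ∧ Realizes σ T δ := by
  have top : ∀ x, Top T (T.2.2 x) := fun x => top_of_mem ⟨x, rfl⟩
  obtain ⟨α, ℓ, mt, inv, pos, r1, r2, r3⟩ := exists_rows hT
  have hφ : ∀ x y, T.2.1.SameCycle (T.2.2 x) (T.2.2 y) ↔ (σ * α).SameCycle x y := by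
    intro x y
    constructor
    · intro h
      obtain ⟨m, hm⟩ := h.exists_nat_pow_eq
      obtain ⟨s, hs, -⟩ := walk (φ := σ * α) hT.inj pos r2 r3 m x y hm
      exact ⟨s, by simpa using hs⟩
    · intro h
      obtain ⟨s, rfl⟩ := h.exists_nat_pow_eq
      rw [← walk' (φ := σ * α) r2, Perm.sameCycle_pow_right]
  obtain ⟨k, c₀, h1, h2, h3⟩ := exists_lab hT hφ
  refine ⟨k, c₀, h2, fun g hg => ?_⟩
  set c : H → Fin k × Bool := g ∘ c₀ with hc
  have lab : IsLab σ α c := ⟨fun x y => by rw [← h1]; exact g.injective.eq_iff,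
    g.surjective.comp h2⟩
  have h4 : ∀ x y, c y = io k (c x) → T.2.1.SameCycle (T.2.2 y) (tau T (T.2.2 x)) := by
    intro x y h
    refine h3 x y (g.injective ?_)
    exact h.trans (congrArg (fun p : Perm (XS k) => p (c₀ x)) hg).symm
  set bs : Fin k × Bool → H := Function.invFun c with hbs
  have cb : ∀ a, c (bs a) = a := Function.rightInverse_invFun lab.2
  have hp := period (φ := σ * α) hT.inj lab.1 pos r2 r3
  have h5 : ∀ i s, T.2.1.SameCycle (T.2.2 (bs (i, !s))) (tau T (T.2.2 (bs (i, s)))) :=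
    fun i s => h4 _ _ (by rw [cb, cb, io_apply])
  have bal : ∀ i, per c ℓ (i, false) = per c ℓ (i, true) := by
    intro i
    obtain ⟨m, hm⟩ := (h5 i true).exists_nat_pow_eq
    have := tau_period hT (top (bs (i, true)))
    rw [← hm, Perm.coe_pow, Function.minimalPeriod_apply_iterate
      (Function.minimalPeriod_pos_iff_mem_periodicPts.1 ?_), hp, hp, cb, cb] at this
    · exact this
    · rw [hp]
      exact (pos (bs (i, !true))).trans
        (single_le_sum (f := ℓ) (fun _ _ => Nat.zero_le _) (by simp))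
  have h6 : ∀ i, ∃ t < per c ℓ (i, true),
      tau T (T.2.2 (bs (i, true))) = (T.2.1 ^ t) (T.2.2 (bs (i, false))) := by
    intro i
    obtain ⟨m, hm⟩ := (h5 i true).exists_nat_pow_eq
    have e := hp (bs (i, false))
    rw [cb, bal] at e
    refine ⟨m % per c ℓ (i, true), Nat.mod_lt _ ((pos (bs (i, true))).trans
      (single_le_sum (f := ℓ) (fun _ _ => Nat.zero_le _) (by simp [cb]))), ?_⟩
    rw [← hm, ← e, Perm.coe_pow, Perm.coe_pow, Function.iterate_mod_minimalPeriod_eq]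
    rfl
  choose t ht1 ht2 using h6
  have h7 : ∀ x, ht T (T.2.2 x) = ht T (T.2.2 (bs ((c x).1, true))) := by
    intro x
    rw [ht_same hT (top (bs (c x))) ((hφ _ x).2 ((lab.1 _ _).1 (cb _)))]
    obtain ⟨i, _ | _⟩ := c x
    · rw [← ht_tau hT (top (bs (i, true))), ht_same hT (top _) (h5 i true)]
      rfl
    · rfl
  let δ : Datum H k := ⟨α, c, ℓ, fun i => ht T (T.2.2 (bs (i, true))), t⟩
  have hr : Realizes σ T δ := by
    refine ⟨r1, r2, r3, fun x m j h0 hj => ht_min h0 ?_, fun i s m => ?_, fun x m => ?_⟩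
    · rw [ht_pow hT (top x), h7]
      exact hj
    · have e : δ.h i = ht T ((T.2.1 ^ m) (T.2.2 (bs (i, s)))) := by
        rw [ht_pow hT (top _), h7, cb]
      refine Eq.trans (by rw [e]; rfl) ((tau_pow hT (top (bs (i, s))) m).trans ?_)
      cases s
      · have := tau_pow hT (top (bs (i, false))) (t i)
        rw [← ht2, tau_tau hT (top _)] at this
        exact this.symm
      · exact ht2 i
    · have e : δ.w (δ.c x).1 = Function.minimalPeriod T.2.1 (T.2.2 x) := by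
        rw [hp]
        change per c ℓ ((c x).1, true) = _
        obtain ⟨i, _ | _⟩ := c x
        · exact (bal i).symm
        · rfl
      rw [e, ← Function.isPeriodicPt_iff_minimalPeriod_dvd, Perm.coe_pow]
      rfl
  have hpos : ∀ i, 1 ≤ δ.h i := fun i => ht_pos (top _)
  exact ⟨δ, rfl, ⟨mt, lab, inv, pos, bal, hpos, ht1, area ⟨lab, pos, hpos, ht1⟩ hT hr⟩, hr⟩

end StructUp

end Pool.Agent.STS
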