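import Pool.Agent.P.MP_bb7f8f_gt.Base
import Pool.Agent.P.MP_bb7f8f_gt.UpB

/-! Upper bound for the number of framed surfaces by cylinder data. -/

namespace Pool.Agent.STS
open Equiv Finset Filter

variable {H J I : Type} [Fintype H] [DecidableEq H] [Fintype J] [DecidableEq J]
  [Fintype I] [DecidableEq I] {σ : Perm H} {π : H → J} {v : J → ℕ} {D : ℕ}

open StructUp

theorem structUp [Nonempty H] (hc : Cyc σ π v) (hD : Fintype.card H = 2 * D) (N : ℕ)
    (F : Tri H N → Prop) (P : ∀ k, Datum H k → Prop) (hF : ∀ T, F T → IsFr σ T)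
    (hP : ∀ T k (δ : Datum H k), F T → IsDat σ N δ → Realizes σ T δ → P k δ) :
    (Nat.card {T : Tri H N // F T} : ℝ) ≤ 2 ^ N * N.factorial *
      ∑ k ∈ range (D + 1), (datc σ k N (P k) : ℝ) / (2 ^ k * k.factorial) := by
  classical
  have fin : ∀ k, Set.Finite {δ : Datum H k | IsDat σ N δ ∧ P k δ} := fun k =>
    (dat_finite σ k N).subset fun _ h => h.1
  have h1 : ∀ T ∈ univ.filter F, (1 : ℝ) ≤ ∑ k ∈ range (D + 1),
      (#{δ ∈ (fin k).toFinset | Realizes σ T δ} : ℝ) / (2 ^ k * k.factorial) := by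
    intro T hT
    have hT := (mem_filter.1 hT).2
    obtain ⟨k, c, hc, h⟩ := exists_dat (hF T hT)
    have hk : k ∈ range (D + 1) := by
      have := Fintype.card_le_of_surjective c hc
      simp only [Fintype.card_prod, Fintype.card_fin, Fintype.card_bool] at this
      rw [mem_range]; omega
    refine le_trans ?_ (single_le_sum (f := fun k =>
      (#{δ ∈ (fin k).toFinset | Realizes σ T δ} : ℝ) / (2 ^ k * k.factorial))
      (fun _ _ => by positivity) hk)
    rw [one_le_div (by positivity)]
    choose d hd using h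
    have := Nat.card_le_card_of_injective
      (fun g : {g : Perm (XS k) // g * io k = io k * g} =>
        (⟨d g.1 g.2, by
          simp only [mem_filter, Set.Finite.mem_toFinset, Set.mem_ofPred_eq]
          exact ⟨⟨(hd _ _).2.1, hP T k _ hT (hd _ _).2.1 (hd _ _).2.2⟩, (hd _ _).2.2⟩⟩ :
          {δ // δ ∈ {δ ∈ (fin k).toFinset | Realizes σ T δ}})) (fun g g' h => by
        have e : g.1 ∘ c = g'.1 ∘ c := by
          rw [← (hd _ g.2).1, ← (hd _ g'.2).1]
          exact congrArg (fun δ => δ.1.c) h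
        exact Subtype.ext (Equiv.coe_fn_injective (hc.right_cancellable.1 e)))
    rw [cent, Nat.card_eq_fintype_card, Fintype.card_coe] at this
    exact_mod_cast this
  have h2 : ∀ k, ∀ δ ∈ (fin k).toFinset,
      (#{T ∈ univ.filter F | Realizes σ T δ} : ℝ) ≤ 2 ^ N * N.factorial := by
    intro k δ hδ
    have hd := ((fin k).mem_toFinset.1 hδ).1
    have := (Nat.card_le_card_of_injective
      (fun T : {T // T ∈ {T ∈ univ.filter F | Realizes σ T δ}} =>
        (⟨T.1, hF _ (mem_filter.1 (mem_filter.1 T.2).1).2, (mem_filter.1 T.2).2⟩ :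
          {T : Tri H N // IsFr σ T ∧ Realizes σ T δ}))
      (fun T T' h => Subtype.ext (congrArg (fun T => T.1) h))).trans
        (fibre ⟨hd.lab, hd.pos, hd.hpos, hd.tlt⟩)
    rw [cent, Nat.card_eq_fintype_card, Fintype.card_coe] at this
    exact_mod_cast this
  rw [Nat.card_eq_fintype_card, Fintype.card_subtype, card_eq_sum_ones, Nat.cast_sum, Nat.cast_one]
  refine (sum_le_sum h1).trans ?_
  rw [sum_comm, mul_sum]
  refine sum_le_sum fun k _ => ?_
  rw [← sum_div, ← mul_div_assoc]
  refine div_le_div_of_nonneg_right ?_ (by positivity)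
  have h3 := sum_card_bipartiteAbove_eq_sum_card_bipartiteBelow (s := univ.filter F)
    (t := (fin k).toFinset) fun T δ => Realizes σ T δ
  simp only [bipartiteAbove, bipartiteBelow] at h3
  rw [← Nat.cast_sum, h3, Nat.cast_sum]
  refine (sum_le_sum (h2 k)).trans ?_
  rw [sum_const, nsmul_eq_mul, mul_comm, datc, Set.ncard_eq_toFinset_card _ (fin k)]

end Pool.Agent.STS
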