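import Pool.Agent.P.MP_bb7f8f_gt.Mid

/-!
Surfaces with a disconnected critical graph or with many automorphisms: the shape of their data.
-/

namespace Pool.Agent.STS
open Equiv Finset Filter

variable {H J I : Type} [Fintype H] [DecidableEq H] [Fintype J] [DecidableEq J]
  [Fintype I] [DecidableEq I] {σ : Perm H} {π : H → J} {v : J → ℕ} {D : ℕ}

namespace SymA

lemma exists_pow_lt [Nonempty H] {p : Perm H} {x y : H} (h : p.SameCycle x y) :
    ∃ s < Fintype.card H, (p ^ s) x = y := by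
  by_cases hx : x ∈ p.support
  · obtain ⟨i, hi, h2⟩ := h.exists_pow_eq_of_mem_support hx
    exact ⟨i, hi.trans_le (card_le_univ _), h2⟩
  · have h1 : p x = x := by simpa using hx
    exact ⟨0, Fintype.card_pos, h.eq_of_left h1⟩

lemma modEq_of_pow {X : Type} {f : Perm X} {z : X} {w : ℕ}
    (h : ∀ m : ℕ, (f ^ m) z = z ↔ w ∣ m) {a b : ℕ} (hab : (f ^ a) z = (f ^ b) z) :
    a ≡ b [MOD w] := by
  wlog hle : a ≤ b generalizing a b
  · exact (this hab.symm (by omega)).symm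
  obtain ⟨d, rfl⟩ := Nat.exists_eq_add_of_le hle
  rw [pow_add, Perm.mul_apply] at hab
  have h1 := (h d).1 ((f ^ a).injective hab).symm
  rw [Nat.modEq_iff_dvd' hle]
  simpa using h1

lemma comm_pow {X : Type} {g f : Perm X} (h : g * f = f * g) (m : ℕ) (y : X) :
    g ((f ^ m) y) = (f ^ m) (g y) := by
  have h1 : g * f ^ m = f ^ m * g := (Commute.pow_right h m).eq
  exact congrArg (fun p : Perm X => p y) h1

lemma comm_apply {X : Type} {g f : Perm X} (h : g * f = f * g) (y : X) : g (f y) = f (g y) :=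
  congrArg (fun p : Perm X => p y) h

variable {N k : ℕ} {T : Tri H N} {δ : Datum H k}

/-- the automorphism group of a framed surface -/
def aut (T : Tri H N) : Subgroup (Perm (XS N)) where
  carrier := {g | g * io N = io N * g ∧ g * T.1 = T.1 * g ∧ g * T.2.1 = T.2.1 * g}
  mul_mem' := fun {a b} ha hb => ⟨(Commute.mul_left ha.1 hb.1).eq,
    (Commute.mul_left ha.2.1 hb.2.1).eq, (Commute.mul_left ha.2.2 hb.2.2).eq⟩
  one_mem' := ⟨by simp, by simp, by simp⟩
  inv_mem' := fun {a} ha => ⟨(Commute.inv_left ha.1).eq, (Commute.inv_left ha.2.1).eq,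
    (Commute.inv_left ha.2.2).eq⟩

omit [Fintype H] [DecidableEq H] in
lemma ext_of_conn (hT : IsFr σ T) {g g' : Perm (XS N)} (hg : g ∈ aut T) (hg' : g' ∈ aut T)
    {y : XS N} (hy : g y = g' y) : g = g' := by
  have key : ∀ p q, Relation.EqvGen (fun p q => q = io N p ∨ q = T.1 p ∨ q = T.2.1 p) p q →
      (g p = g' p ↔ g q = g' q) := by
    intro p q h
    induction h with
    | rel p q h =>
      rcases h with rfl | rfl | rfl
      · rw [comm_apply hg.1, comm_apply hg'.1, (io N).injective.eq_iff]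
      · rw [comm_apply hg.2.1, comm_apply hg'.2.1, T.1.injective.eq_iff]
      · rw [comm_apply hg.2.2, comm_apply hg'.2.2, T.2.1.injective.eq_iff]
    | refl p => rfl
    | symm p q _ ih => exact ih.symm
    | trans p q r _ _ ih1 ih2 => exact ih1.trans ih2
  ext1 z
  exact (key y z (hT.conn y z)).1 hy

lemma not_two (hc : Cyc σ π v) {x : H} (h2 : σ (σ x) = x) : σ x = x := by
  by_contra hne
  have h1 : ∀ n : ℕ, (σ ^ n) x = x ∨ (σ ^ n) x = σ x := by
    intro n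
    induction n with
    | zero => left; rfl
    | succ n ih =>
      rw [pow_succ', Perm.mul_apply]
      rcases ih with h | h
      · right; rw [h]
      · left; rw [h, h2]
  have h3 : (univ.filter fun y => π y = π x) = {x, σ x} := by
    ext y
    simp only [mem_filter, mem_univ, true_and, mem_insert, mem_singleton]
    rw [hc.same]
    constructor
    · intro h
      obtain ⟨n, rfl⟩ := h.symm.exists_nat_pow_eq
      exact h1 n
    · rintro (rfl | rfl)
      · exact Perm.SameCycle.refl _ _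
      · exact Perm.sameCycle_apply_left.2 (Perm.SameCycle.refl _ _)
  have h4 := hc.card (π x)
  rw [h3, card_pair (Ne.symm hne)] at h4
  have h5 := hc.odd (π x)
  rw [← h4] at h5
  exact absurd h5 (by decide)

lemma map_range (hc : Cyc σ π v) (hT : IsFr σ T) {g : Perm (XS N)} (hg : g ∈ aut T) (x : H) :
    g (T.2.2 x) ∈ Set.range T.2.2 := by
  by_contra hn
  obtain ⟨h1, h2⟩ := hT.reg _ hn
  have h3 : ∀ y, T.2.1 (T.1 (g y)) = g (T.2.1 (T.1 y)) := fun y => by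
    rw [comm_apply hg.2.2, comm_apply hg.2.1]
  rw [h3, ← hT.eqv] at h1 h2
  rw [h3, ← hT.eqv] at h1
  exact h2 (by rw [not_two hc (hT.inj (g.injective h1))])

lemma range_of_map (hc : Cyc σ π v) (hT : IsFr σ T) {g : Perm (XS N)} (hg : g ∈ aut T)
    {y : XS N} (hy : g y ∈ Set.range T.2.2) : y ∈ Set.range T.2.2 := by
  obtain ⟨x, hx⟩ := hy
  have := map_range hc hT ((aut T).inv_mem hg) x
  rw [hx] at this
  simpa using this

lemma exists_psi (hc : Cyc σ π v) (hT : IsFr σ T) {g : Perm (XS N)} (hg : g ∈ aut T) :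
    ∃ ψ : Perm H, ∀ x, T.2.2 (ψ x) = g (T.2.2 x) := by
  choose F hF using map_range hc hT hg
  have hinj : Function.Injective F := fun x y h => by
    apply hT.inj
    apply g.injective
    rw [← hF, ← hF, h]
  exact ⟨Equiv.ofBijective F (Finite.injective_iff_bijective.1 hinj), hF⟩

lemma top_map (hc : Cyc σ π v) (hT : IsFr σ T) {g : Perm (XS N)} (hg : g ∈ aut T) {y : XS N}
    (hy : Top T y) : Top T (g y) := by
  obtain ⟨x, hx⟩ := hy
  obtain ⟨x', hx'⟩ := map_range hc hT hg x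
  obtain ⟨n, hn⟩ := hx.exists_nat_pow_eq
  refine ⟨x', ?_⟩
  rw [hx', ← hn, comm_pow hg.2.2]
  exact Perm.sameCycle_pow_right.2 (Perm.SameCycle.refl _ _)

lemma top_of_map (hc : Cyc σ π v) (hT : IsFr σ T) {g : Perm (XS N)} (hg : g ∈ aut T) {y : XS N}
    (hy : Top T (g y)) : Top T y := by
  have := top_map hc hT ((aut T).inv_mem hg) hy
  simpa using this

omit [Fintype H] [DecidableEq H] in
lemma top_a (hT : IsFr σ T) {y : XS N} (hy : Top T y) : Top T (T.1 y) := by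
  obtain ⟨x, hx⟩ := hy
  obtain ⟨n, rfl⟩ := hx.symm.exists_nat_pow_eq
  clear hx
  have h0 : ∀ x, Top T (T.1 (T.2.2 x)) := fun x =>
    ⟨σ x, by rw [hT.eqv]; exact Perm.sameCycle_apply_right.2 (Perm.SameCycle.refl _ _)⟩
  induction n with
  | zero => exact h0 x
  | succ n ih =>
    rw [pow_succ', Perm.mul_apply]
    by_cases hm : T.2.1 ((T.2.1 ^ n) (T.2.2 x)) ∈ Set.range T.2.2
    · obtain ⟨x', hx'⟩ := hm
      rw [← hx']
      exact h0 x'
    · have h1 := T.2.1.injective (hT.reg _ hm).1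
      have h2 := congrArg T.1 h1
      rw [hT.aa] at h2
      obtain ⟨x', hx'⟩ := ih
      rw [← h2] at hx'
      exact ⟨x', Perm.sameCycle_apply_left.1 hx'⟩

omit [Fintype H] [DecidableEq H] in
lemma dn_comm {g : Perm (XS N)} (hg : g ∈ aut T) : g * dn T = dn T * g :=
  (Commute.mul_right hg.2.1 hg.1).eq

variable [Nonempty H]

omit [DecidableEq H] in
lemma ell_le (hr : Realizes σ T δ) {x : H} {m : ℕ} (hm : 0 < m)
    (h : (T.2.1 ^ m) (T.2.2 x) ∈ Set.range T.2.2) : δ.ℓ x ≤ m := by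
  by_contra hlt
  exact hr.r3 x m hm (by omega) h

omit [DecidableEq H] in
lemma theta_pos (hr : Realizes σ T δ) (x : H) (s : ℕ) :
    T.2.2 (((σ * δ.α) ^ s) x) = (T.2.1 ^ δ.pos σ x s) (T.2.2 x) := by
  induction s with
  | zero => simp [Datum.pos]
  | succ s ih =>
    rw [pow_succ', Perm.mul_apply, Perm.mul_apply, ← hr.r2, ih, ← Perm.mul_apply, ← pow_add,
      Datum.pos, Datum.pos, sum_range_succ, add_comm]

omit [DecidableEq H] in
lemma same_face (hT : IsFr σ T) (hd : IsDat σ N δ) (hr : Realizes σ T δ) (m : ℕ) :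
    ∀ x x' : H, (T.2.1 ^ m) (T.2.2 x) = T.2.2 x' → (σ * δ.α).SameCycle x x' := by
  induction m using Nat.strong_induction_on with
  | _ m ih =>
    intro x x' h
    rcases Nat.eq_zero_or_pos m with rfl | hm
    · rw [hT.inj (show T.2.2 x = T.2.2 x' from h)]
    · have h1 := ell_le hr hm ⟨x', h.symm⟩
      have h2 := hd.pos x
      obtain ⟨d, rfl⟩ := Nat.exists_eq_add_of_le h1
      rw [add_comm, pow_add, Perm.mul_apply, hr.r2] at h
      exact Perm.sameCycle_apply_left.1 (ih d (by omega) _ _ h)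

omit [DecidableEq H] in
lemma c_bs (hd : IsDat σ N δ) (a : Fin k × Bool) : δ.c (δ.bs a) = a :=
  Function.invFun_eq (hd.lab.2 a)

omit [DecidableEq H] in
lemma top_h (hT : IsFr σ T) (hd : IsDat σ N δ) (hr : Realizes σ T δ) (i : Fin k) (s : Bool)
    (m : ℕ) : Top T ((dn T ^ δ.h i) ((T.2.1 ^ m) (T.2.2 (δ.bs (i, s))))) := by
  have h1 := hd.hpos i
  obtain ⟨d, hd'⟩ : ∃ d, δ.h i = d + 1 := ⟨δ.h i - 1, by omega⟩
  have h2 := hr.r5 i s m
  rw [hd', Nat.add_sub_cancel] at h2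
  rw [hd', pow_succ', Perm.mul_apply]
  refine top_a hT ⟨δ.bs (i, !s), ?_⟩
  refine (Perm.sameCycle_pow_left (n := m)).1 ?_
  have h3 : (T.2.1 ^ m) (io N ((dn T ^ d) ((T.2.1 ^ m) (T.2.2 (δ.bs (i, s)))))) = _ := h2
  rw [h3]
  exact Perm.sameCycle_pow_left.2 (Perm.SameCycle.refl _ _)

section
variable {g : Perm (XS N)} {ψ : Perm H}

omit [Fintype H] [DecidableEq H] [Nonempty H] in
lemma psi_sigma (hT : IsFr σ T) (hg : g ∈ aut T) (hψ : ∀ x, T.2.2 (ψ x) = g (T.2.2 x)) :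
    ψ * σ = σ * ψ := by
  ext1 x
  apply hT.inj
  rw [Perm.mul_apply, Perm.mul_apply, hψ, hT.eqv, hT.eqv, hψ, comm_apply hg.2.2,
    comm_apply hg.2.1]

lemma psi_ell (hc : Cyc σ π v) (hT : IsFr σ T) (hd : IsDat σ N δ) (hr : Realizes σ T δ)
    (hg : g ∈ aut T) (hψ : ∀ x, T.2.2 (ψ x) = g (T.2.2 x)) (x : H) : δ.ℓ (ψ x) = δ.ℓ x := by
  refine le_antisymm (ell_le hr (hd.pos x) ?_) (ell_le hr (hd.pos _) ?_)
  · rw [hψ, ← comm_pow hg.2.2, hr.r2]
    exact map_range hc hT hg _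
  · refine range_of_map hc hT hg ?_
    rw [comm_pow hg.2.2, ← hψ, hr.r2]
    exact ⟨_, rfl⟩

lemma psi_alpha (hc : Cyc σ π v) (hT : IsFr σ T) (hd : IsDat σ N δ) (hr : Realizes σ T δ)
    (hg : g ∈ aut T) (hψ : ∀ x, T.2.2 (ψ x) = g (T.2.2 x)) : ψ * δ.α = δ.α * ψ := by
  ext1 x
  apply hT.inj
  rw [Perm.mul_apply, Perm.mul_apply, hψ, hr.r1, hr.r1, psi_ell hc hT hd hr hg hψ, hψ,
    comm_apply hg.2.1, comm_pow hg.2.2]

lemma moved (hc : Cyc σ π v) (hT : IsFr σ T) (hd : IsDat σ N δ) (hr : Realizes σ T δ)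
    (hg : g ∈ aut T) (hψ : ∀ x, T.2.2 (ψ x) = g (T.2.2 x)) (x : H)
    (hx : (δ.c (ψ x)).1 ≠ (δ.c x).1) :
    ∃ i j : Fin k, ∃ s : Bool, ∃ s₁ < Fintype.card H, ∃ s₂ < Fintype.card H, i ≠ j ∧
      δ.t j = (δ.t i + δ.pos σ (δ.bs (j, s)) s₁ + δ.pos σ (δ.bs (j, !s)) s₂) % δ.w j := by
  have hcomm : ψ * (σ * δ.α) = (σ * δ.α) * ψ :=
    (Commute.mul_right (psi_sigma hT hg hψ) (psi_alpha hc hT hd hr hg hψ)).eq
  obtain ⟨⟨i, s₀⟩, hi⟩ : ∃ a, δ.c x = a := ⟨_, rfl⟩
  obtain ⟨⟨j, s⟩, hj⟩ : ∃ a, δ.c (ψ x) = a := ⟨_, rfl⟩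
  rw [hi, hj] at hx
  have hb : δ.c (ψ (δ.bs (i, s₀))) = (j, s) := by
    have h1 : (σ * δ.α).SameCycle x (δ.bs (i, s₀)) := (hd.lab.1 _ _).1 (by rw [hi, c_bs hd])
    obtain ⟨n, hn⟩ := h1.exists_nat_pow_eq
    rw [← hj, ← hn, comm_pow hcomm]
    exact (hd.lab.1 _ _).2 (Perm.sameCycle_pow_left.2 (Perm.SameCycle.refl _ _))
  obtain ⟨s₁, hs₁, h1⟩ := exists_pow_lt ((hd.lab.1 (δ.bs (j, s)) _).1 (by rw [hb, c_bs hd]))
  have h2 := theta_pos hr (δ.bs (j, s)) s₁
  rw [h1] at h2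
  have hh : δ.h j = δ.h i := by
    apply le_antisymm
    · by_contra hlt
      have h3 := top_map hc hT hg (top_h hT hd hr i s₀ 0)
      rw [comm_pow (dn_comm hg), comm_pow hg.2.2, ← hψ] at h3
      exact hr.r4 _ 0 _ (hd.hpos i) (by rw [hb]; simpa using hlt) h3
    · by_contra hlt
      have h3 := top_h hT hd hr j s (δ.pos σ (δ.bs (j, s)) s₁)
      rw [← h2, hψ, ← comm_pow (dn_comm hg)] at h3
      exact hr.r4 _ 0 _ (hd.hpos j) (by rw [c_bs hd]; simpa using hlt) (top_of_map hc hT hg h3)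
  have h4 := congrArg g (hr.r5 i s₀ 0)
  rw [pow_zero, Perm.one_apply, Perm.one_apply, comm_apply hg.1, comm_pow (dn_comm hg), ← hψ,
    comm_pow hg.2.2, ← hψ] at h4
  have h5 := hr.r5 j s (δ.pos σ (δ.bs (j, s)) s₁)
  rw [← h2, hh, h4] at h5
  have h6 : T.2.1.SameCycle (T.2.2 (δ.bs (j, !s))) (T.2.2 (ψ (δ.bs (i, !s₀)))) := by
    refine (Perm.sameCycle_pow_left (n := δ.t j)).1 ?_
    rw [← h5]
    exact Perm.sameCycle_pow_left.2 (Perm.sameCycle_pow_left.2 (Perm.SameCycle.refl _ _))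
  obtain ⟨n, hn⟩ := h6.exists_nat_pow_eq
  obtain ⟨s₂, hs₂, h7⟩ := exists_pow_lt (same_face hT hd hr n _ _ hn)
  have h8 := theta_pos hr (δ.bs (j, !s)) s₂
  rw [h7] at h8
  rw [h8, ← Perm.mul_apply, ← Perm.mul_apply, ← pow_add, ← pow_add] at h5
  have h9 := modEq_of_pow (hr.r6 (δ.bs (j, !s))) h5
  rw [c_bs hd] at h9
  refine ⟨i, j, s, s₁, hs₁, s₂, hs₂, Ne.symm hx, ?_⟩
  have h10 : δ.t j % δ.w j = δ.t j := Nat.mod_eq_of_lt (hd.tlt j)
  rw [← h10, add_comm (δ.t i)]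
  exact h9.symm

end

end SymA

open SymA

theorem badDisc [Nonempty H] (hc : Cyc σ π v) {N k : ℕ} {T : Tri H N} {δ : Datum H k}
    (hT : IsFr σ T) (hb : XBad T) (hd : IsDat σ N δ) (hr : Realizes σ T δ) :
    Disc π δ.α := by
  classical
  obtain ⟨h₀, hb⟩ := not_forall.1 hb
  obtain ⟨h₁, hb⟩ := not_forall.1 hb
  set R := Relation.EqvGen (fun p q => q = T.1 p ∨ q = T.2.1 p) with hR
  have ha : ∀ y, R y (T.1 y) := fun y => Relation.EqvGen.rel _ _ (Or.inl rfl)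
  have hf : ∀ y, R y (T.2.1 y) := fun y => Relation.EqvGen.rel _ _ (Or.inr rfl)
  have hfp : ∀ (m : ℕ) y, R y ((T.2.1 ^ m) y) := by
    intro m y
    induction m with
    | zero => exact Relation.EqvGen.refl _
    | succ m ih =>
      rw [pow_succ', Perm.mul_apply]
      exact Relation.EqvGen.trans _ _ _ ih (hf _)
  have hs : ∀ (m : ℕ) x, R (T.2.2 x) (T.2.2 ((σ ^ m) x)) := by
    intro m x
    induction m with
    | zero => exact Relation.EqvGen.refl _
    | succ m ih =>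
      rw [pow_succ', Perm.mul_apply, hT.eqv]
      exact Relation.EqvGen.trans _ _ _ ih (Relation.EqvGen.trans _ _ _ (ha _) (hf _))
  have hα : ∀ x, R (T.2.2 x) (T.2.2 (δ.α x)) := fun x => by
    rw [hr.r1]
    exact Relation.EqvGen.trans _ _ _ (hfp _ _) (ha _)
  have hV : ∀ x, π x ∈ (univ.filter fun j => ∃ y, π y = j ∧ R (T.2.2 h₀) (T.2.2 y)) ↔
      R (T.2.2 h₀) (T.2.2 x) := by
    intro x
    simp only [mem_filter, mem_univ, true_and]
    constructor
    · rintro ⟨y, hy, h⟩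
      obtain ⟨n, rfl⟩ := ((hc.same _ _).1 hy).exists_nat_pow_eq
      exact Relation.EqvGen.trans _ _ _ h (hs n y)
    · exact fun h => ⟨x, rfl, h⟩
  refine ⟨_, ⟨π h₀, (hV _).2 (Relation.EqvGen.refl _)⟩, ⟨π h₁, fun h => hb ((hV _).1 h)⟩,
    fun x => ?_⟩
  rw [hV, hV]
  exact ⟨fun h => Relation.EqvGen.trans _ _ _ h (Relation.EqvGen.symm _ _ (hα x)),
    fun h => Relation.EqvGen.trans _ _ _ h (hα x)⟩

theorem symA [Nonempty H] (hc : Cyc σ π v) {N k : ℕ} {T : Tri H N} {δ : Datum H k}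
    (hT : IsFr σ T) (hb : 4 < xautc T) (hd : IsDat σ N δ) (hr : Realizes σ T δ) :
    SymDat σ δ := by
  let A : Subgroup (Perm H) :=
    { carrier := {ψ | ∃ g ∈ aut T, ∀ x, T.2.2 (ψ x) = g (T.2.2 x)}
      mul_mem' := by
        rintro a b ⟨g, hg, ha⟩ ⟨g', hg', hb⟩
        exact ⟨g * g', (aut T).mul_mem hg hg', fun x => by
          rw [Perm.mul_apply, Perm.mul_apply, ha, hb]⟩
      one_mem' := ⟨1, (aut T).one_mem, fun x => rfl⟩
      inv_mem' := by
        rintro a ⟨g, hg, ha⟩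
        exact ⟨g⁻¹, (aut T).inv_mem hg, fun x => by
          rw [Perm.eq_inv_iff_eq, ← ha]
          simp⟩ }
  by_cases hA : ∀ ψ ∈ A, ∀ x, (δ.c (ψ x)).1 = (δ.c x).1
  · refine Or.inr ⟨A, ?_, ?_⟩
    · refine hb.trans_le ?_
      choose F hF using fun g : aut T => exists_psi hc hT g.2
      refine Nat.card_le_card_of_injective (α := aut T)
        (fun g => (⟨F g, g.1, g.2, hF g⟩ : A)) fun g g' h => ?_
      have h1 : F g = F g' := congrArg Subtype.val h
      obtain ⟨x⟩ := ‹Nonempty H›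
      exact Subtype.ext (ext_of_conn hT g.2 g'.2 (y := T.2.2 x) (by rw [← hF, ← hF, h1]))
    · intro ψ hψ
      have h1 := hA ψ hψ
      obtain ⟨g, hg, hψ⟩ := hψ
      refine ⟨psi_sigma hT hg hψ, psi_alpha hc hT hd hr hg hψ, psi_ell hc hT hd hr hg hψ, h1, ?_⟩
      rintro ⟨x, hx⟩
      have h2 : g = 1 := ext_of_conn hT hg (aut T).one_mem (y := T.2.2 x) (by
        rw [← hψ, hx]; rfl)
      ext1 y
      apply hT.inj
      rw [hψ, h2]
      rfl
  · push Not at hA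
    obtain ⟨ψ, ⟨g, hg, hψ⟩, x, hx⟩ := hA
    exact Or.inl (moved hc hT hd hr hg hψ x hx)

end Pool.Agent.STS
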