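import Pool.Agent.P.MP_bb7f8f_gt.Base

/-!
Cylinder data of surfaces with many automorphisms are negligible.
-/

set_option linter.unusedSectionVars false

namespace Pool.Agent.STS
open Equiv Finset Filter

variable {H J I : Type} [Fintype H] [DecidableEq H] [Fintype J] [DecidableEq J]
  [Fintype I] [DecidableEq I] {σ : Perm H} {π : H → J} {v : J → ℕ} {D : ℕ}

namespace SymB

variable {k : ℕ}

/-- the data with property `P` are negligible -/
def Negl (σ : Perm H) (D k : ℕ) (P : Datum H k → Prop) : Prop :=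
  ∀ ε : ℝ, 0 < ε → ∀ᶠ N : ℕ in atTop, (∑ m ∈ range (N + 1), (datc σ k m P : ℝ)) ≤ ε * N ^ D

theorem fin (σ : Perm H) (m : ℕ) (P : Datum H k → Prop) :
    Set.Finite {δ : Datum H k | IsDat σ m δ ∧ P δ} :=
  (dat_finite σ k m).subset fun _ h => h.1

theorem datc_mono {m : ℕ} {P Q : Datum H k → Prop} (h : ∀ δ, IsDat σ m δ → P δ → Q δ) :
    datc σ k m P ≤ datc σ k m Q :=
  Set.ncard_le_ncard (fun δ hδ => ⟨hδ.1, h δ hδ.1 hδ.2⟩) (fin σ m Q)

theorem datc_or (m : ℕ) (P Q : Datum H k → Prop) :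
    datc σ k m (fun δ => P δ ∨ Q δ) ≤ datc σ k m P + datc σ k m Q := by
  refine le_trans (le_of_eq ?_) (Set.ncard_union_le _ _)
  unfold datc
  congr 1
  ext δ
  simp only [Set.mem_union, Set.mem_ofPred_eq]
  tauto

theorem Negl.mono {P Q : Datum H k → Prop} (hQ : Negl σ D k Q)
    (h : ∀ m δ, IsDat σ m δ → P δ → Q δ) : Negl σ D k P := by
  intro ε hε
  filter_upwards [hQ ε hε] with N hN
  refine le_trans (sum_le_sum fun m _ => ?_) hN
  exact_mod_cast datc_mono (h m)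

theorem Negl.or {P Q : Datum H k → Prop} (hP : Negl σ D k P) (hQ : Negl σ D k Q) :
    Negl σ D k (fun δ => P δ ∨ Q δ) := by
  intro ε hε
  filter_upwards [hP (ε / 2) (half_pos hε), hQ (ε / 2) (half_pos hε)] with N h1 h2
  have h3 : (∑ m ∈ range (N + 1), (datc σ k m (fun δ => P δ ∨ Q δ) : ℝ)) ≤
      ∑ m ∈ range (N + 1), ((datc σ k m P : ℝ) + datc σ k m Q) :=
    sum_le_sum fun m _ => by exact_mod_cast datc_or m P Q
  rw [sum_add_distrib] at h3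
  linarith

theorem negl_false : Negl σ D k (fun _ => False) := by
  intro ε hε
  refine Eventually.of_forall fun N => ?_
  simp only [datc, and_false, Set.ofPred_false, Set.ncard_empty, Nat.cast_zero, sum_const_zero]
  positivity

theorem negl_exists {A : Type} [Finite A] {P : A → Datum H k → Prop}
    (h : ∀ a, Negl σ D k (P a)) : Negl σ D k (fun δ => ∃ a, P a δ) := by
  classical
  have := Fintype.ofFinite A
  have key : ∀ s : Finset A, Negl σ D k (fun δ => ∃ a ∈ s, P a δ) := by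
    intro s
    induction s using Finset.induction_on with
    | empty => exact negl_false.mono fun _ _ _ h => by simp at h
    | insert a s _ ih =>
      refine ((h a).or ih).mono fun _ δ _ h => ?_
      obtain ⟨b, hb, hb'⟩ := h
      rcases mem_insert.1 hb with rfl | hb
      · exact Or.inl hb'
      · exact Or.inr ⟨b, hb, hb'⟩
  exact (key univ).mono fun _ _ _ h => h.imp fun a ha => ⟨mem_univ a, ha⟩

theorem negl_of_imp {p : Prop} {P : Datum H k → Prop} (h : p → Negl σ D k P)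
    (h' : ∀ m δ, IsDat σ m δ → P δ → p) : Negl σ D k P := by
  by_cases hp : p
  · exact h hp
  · exact negl_false.mono fun m δ h1 h2 => hp (h' m δ h1 h2)

theorem len_le_w {m : ℕ} {δ : Datum H k} (h : IsDat σ m δ) (x : H) :
    δ.ℓ x ≤ δ.w (δ.c x).1 := by
  have h1 : δ.ℓ x ≤ per δ.c δ.ℓ (δ.c x) :=
    single_le_sum (f := δ.ℓ) (fun _ _ => Nat.zero_le _) (by simp)
  rcases hx : δ.c x with ⟨i, _ | _⟩
  · rwa [hx, h.bal] at h1
  · rwa [hx] at h1

theorem len_le {m : ℕ} {δ : Datum H k} (h : IsDat σ m δ) (x : H) : δ.ℓ x ≤ m := by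
  have h1 : δ.h (δ.c x).1 * δ.w (δ.c x).1 ≤ ∑ i, δ.h i * δ.w i :=
    single_le_sum (f := fun i => δ.h i * δ.w i) (fun _ _ => Nat.zero_le _) (mem_univ _)
  rw [h.area] at h1
  exact (len_le_w h x).trans ((Nat.le_mul_of_pos_left _ (h.hpos _)).trans h1)

theorem len_mem {m : ℕ} {δ : Datum H k} (h : IsDat σ m δ) :
    (fun x => (δ.ℓ x : ℚ)) ∈ Vsp δ.α δ.c := by
  refine ⟨fun x => by simp [h.inv x], fun i => ?_⟩
  have h1 := h.bal i
  simp only [Datum.w, per] at h1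
  simp only [← Nat.cast_sum, h1]

/-- the basic count -/
theorem count (α : Perm H) (c : H → Fin k × Bool) (U : Submodule ℚ (H → ℚ)) (L : Set (H → ℕ))
    (hU : ∀ l ∈ L, ∀ l' ∈ L, (fun x => (l x : ℚ) - l' x) ∈ U) (N : ℕ) :
    ∑ m ∈ range (N + 1), datc σ k m (fun δ => δ.α = α ∧ δ.c = c ∧ δ.ℓ ∈ L) ≤
      (N + 1) ^ (Module.finrank ℚ U + k) := by
  have hf : Set.Finite {l : H → ℕ | l ∈ L ∧ ∀ x, l x ≤ N} := by
    refine (Set.Finite.pi' (fun _ : H => Set.finite_Iic N)).subset fun l hl => hl.2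
  have h1 := dat_crude σ k N α c _ hf
  have h2 := proj U {l : H → ℕ | l ∈ L ∧ ∀ x, l x ≤ N} N (fun l hl => hl.2)
    (fun l hl l' hl' => hU l hl.1 l' hl'.1)
  refine le_trans (sum_le_sum fun m hm => datc_mono fun δ hδ h => ?_) (h1.trans ?_)
  · exact ⟨h.1, h.2.1, h.2.2, fun x => (len_le hδ x).trans (Nat.lt_succ_iff.1 (mem_range.1 hm))⟩
  · rw [pow_add]
    exact Nat.mul_le_mul h2 (Nat.pow_le_pow_left (Nat.le_succ N) k)

theorem succ_pow_le {N : ℕ} (hN : 1 ≤ N) (D : ℕ) : ((N : ℝ) + 1) ^ D ≤ 2 ^ D * N ^ D := by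
  rw [← mul_pow]
  have : (1 : ℝ) ≤ N := by exact_mod_cast hN
  exact pow_le_pow_left₀ (by positivity) (by linarith) D

/-- lengths in a translate of a proper subspace -/
theorem negl_sub (hc : Cyc σ π v) (hD : Fintype.card H = 2 * D) {α : Perm H}
    {c : H → Fin k × Bool} (hl : IsLab σ α c) (hα : IsMt α) (U : Submodule ℚ (H → ℚ))
    (hlt : U < Vsp α c) (L : Set (H → ℕ))
    (hU : ∀ l ∈ L, ∀ l' ∈ L, (fun x => (l x : ℚ) - l' x) ∈ U) :
    Negl σ D k (fun δ => δ.α = α ∧ δ.c = c ∧ δ.ℓ ∈ L) := by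
  intro ε hε
  have h1 := Submodule.finrank_lt_finrank_of_lt hlt
  have h2 := vsp_dim hc hD hl hα
  obtain ⟨n, hn⟩ := exists_nat_ge (2 ^ D / ε)
  filter_upwards [eventually_ge_atTop 1, eventually_ge_atTop n] with N hN1 hNn
  have h3 := Nat.mul_le_mul_right (N + 1) (count (σ := σ) α c U L hU N)
  rw [← pow_succ] at h3
  have h4 := h3.trans (Nat.pow_le_pow_right (Nat.succ_pos N)
    (show Module.finrank ℚ U + k + 1 ≤ D by omega))
  have h5 : (∑ m ∈ range (N + 1),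
      (datc σ k m (fun δ => δ.α = α ∧ δ.c = c ∧ δ.ℓ ∈ L) : ℝ)) * (N + 1) ≤ ((N : ℝ) + 1) ^ D := by
    exact_mod_cast h4
  have h6 : (n : ℝ) ≤ N := by exact_mod_cast hNn
  have h7 : (2 : ℝ) ^ D ≤ ε * (N + 1) := by
    rw [div_le_iff₀ hε] at hn
    nlinarith
  refine le_of_mul_le_mul_right (h5.trans ((succ_pow_le hN1 D).trans ?_)) (by positivity)
  have := mul_le_mul_of_nonneg_right h7 (show (0 : ℝ) ≤ N ^ D by positivity)
  linarith

/-- a short edge -/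
theorem negl_short (hc : Cyc σ π v) (hD : Fintype.card H = 2 * D) (α : Perm H)
    (c : H → Fin k × Bool) (x₀ : H) (K : ℕ) :
    Negl σ D k (fun δ => δ.α = α ∧ δ.c = c ∧ δ.ℓ x₀ < K) := by
  refine negl_of_imp (p := IsLab σ α c ∧ IsMt α ∧ ∃ l ∈ Vsp α c, l x₀ ≠ 0) ?_ ?_
  · rintro ⟨hl, hα, l, hl1, hl2⟩
    have h1 : ∀ j : Fin K, Negl σ D k (fun δ => δ.α = α ∧ δ.c = c ∧
        δ.ℓ ∈ {l : H → ℕ | (fun x => (l x : ℚ)) ∈ Vsp α c ∧ l x₀ = j}) := by
      intro j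
      refine negl_sub hc hD hl hα (Vsp α c ⊓ LinearMap.ker (LinearMap.proj x₀)) ?_ _ ?_
      · refine lt_of_le_of_ne inf_le_left fun h => hl2 ?_
        rw [← h] at hl1
        exact hl1.2
      · intro l hl l' hl'
        refine ⟨(Vsp α c).sub_mem hl.1 hl'.1, ?_⟩
        simp [hl.2, hl'.2]
    refine (negl_exists h1).mono fun m δ hδ h => ⟨⟨_, h.2.2⟩, h.1, h.2.1, ?_, rfl⟩
    rw [← h.1, ← h.2.1]
    exact len_mem hδ
  · rintro m δ hδ ⟨rfl, rfl, -⟩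
    refine ⟨hδ.lab, hδ.mt, _, len_mem hδ, ?_⟩
    have := hδ.pos x₀
    simp only [ne_eq, Nat.cast_eq_zero]
    omega

/-- a twist which is determined by the other parameters -/
theorem twist_count {m K : ℕ} (α : Perm H) (c : H → Fin k × Bool) {i j : Fin k} (hij : i ≠ j)
    (F : (H → ℕ) → ℕ → ℕ) :
    K * datc σ k m (fun δ => δ.α = α ∧ δ.c = c ∧ K ≤ δ.w j ∧ δ.t j = F δ.ℓ (δ.t i)) ≤
      datc σ k m (fun δ => δ.α = α ∧ δ.c = c ∧
        δ.ℓ ∈ {l : H → ℕ | (fun x => (l x : ℚ)) ∈ Vsp α c}) := by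
  unfold datc
  have h1 : K = (Set.Iio K).ncard := by simp
  conv_lhs => rw [h1, ← Set.ncard_prod]
  refine Set.ncard_le_ncard_of_injOn
    (fun p => ⟨p.2.α, p.2.c, p.2.ℓ, p.2.h, Function.update p.2.t j p.1⟩) ?_ ?_ (fin σ m _)
  · rintro ⟨r, δ⟩ ⟨hr, hδ, h2, h3, h4, -⟩
    refine ⟨⟨hδ.mt, hδ.lab, hδ.inv, hδ.pos, hδ.bal, hδ.hpos, fun a => ?_, hδ.area⟩, h2, h3, ?_⟩
    · by_cases ha : a = j
      · subst ha
        simp only [Function.update_self]
        exact lt_of_lt_of_le hr (h1 ▸ h4)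
      · simp only [Function.update_of_ne ha]
        exact hδ.tlt a
    · have := len_mem hδ
      simp only at h2 h3
      rwa [h2, h3] at this
  · rintro ⟨r, ⟨α₁, c₁, l₁, h₁, t₁⟩⟩ ⟨-, -, -, -, -, e₁⟩ ⟨r', ⟨α₂, c₂, l₂, h₂, t₂⟩⟩
      ⟨-, -, -, -, -, e₂⟩ h
    simp only [Datum.mk.injEq] at h e₁ e₂
    obtain ⟨rfl, rfl, rfl, rfl, h⟩ := h
    have a1 : r = r' := by simpa using congrFun h j
    have a2 : ∀ a, a ≠ j → t₁ a = t₂ a := fun a ha => by
      simpa [Function.update_of_ne ha] using congrFun h a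
    have a3 : t₁ = t₂ := by
      funext a
      by_cases ha : a = j
      · rw [ha, e₁, e₂, a2 i hij]
      · exact a2 a ha
    rw [a1, a3]

theorem negl_twist (hc : Cyc σ π v) (hD : Fintype.card H = 2 * D) (α : Perm H)
    (c : H → Fin k × Bool) {i j : Fin k} (hij : i ≠ j) (F : (H → ℕ) → ℕ → ℕ) :
    Negl σ D k (fun δ => δ.α = α ∧ δ.c = c ∧ δ.t j = F δ.ℓ (δ.t i)) := by
  refine negl_of_imp (p := IsLab σ α c ∧ IsMt α) ?_ ?_
  swap
  · rintro m δ hδ ⟨rfl, rfl, -⟩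
    exact ⟨hδ.lab, hδ.mt⟩
  rintro ⟨hl, hα⟩ ε hε
  obtain ⟨x₀, hx₀⟩ := hl.2 (j, true)
  obtain ⟨K, hK⟩ := exists_nat_gt (2 ^ D / (ε / 2))
  have hK0 : (0 : ℝ) < K := lt_trans (by positivity) hK
  filter_upwards [eventually_ge_atTop 1, negl_short hc hD α c x₀ K (ε / 2) (half_pos hε)]
    with N hN h1
  have h2 := count (σ := σ) α c (Vsp α c) {l : H → ℕ | (fun x => (l x : ℚ)) ∈ Vsp α c}
    (fun l hl l' hl' => (Vsp α c).sub_mem hl hl') N
  rw [vsp_dim hc hD hl hα] at h2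
  have h3 := (sum_le_sum fun m (_ : m ∈ range (N + 1)) =>
    twist_count (σ := σ) (m := m) (K := K) α c hij F).trans h2
  rw [← mul_sum] at h3
  have h4 : (K : ℝ) * ∑ m ∈ range (N + 1), (datc σ k m
      (fun δ => δ.α = α ∧ δ.c = c ∧ K ≤ δ.w j ∧ δ.t j = F δ.ℓ (δ.t i)) : ℝ) ≤
      ((N : ℝ) + 1) ^ D := by
    exact_mod_cast h3
  have h5 : (∑ m ∈ range (N + 1), (datc σ k m
      (fun δ => δ.α = α ∧ δ.c = c ∧ K ≤ δ.w j ∧ δ.t j = F δ.ℓ (δ.t i)) : ℝ)) ≤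
      ε / 2 * N ^ D := by
    refine le_of_mul_le_mul_left (h4.trans ((succ_pow_le hN D).trans ?_)) hK0
    rw [div_lt_iff₀ (half_pos hε)] at hK
    have := mul_le_mul_of_nonneg_right hK.le (show (0 : ℝ) ≤ N ^ D by positivity)
    linarith
  have h6 : (∑ m ∈ range (N + 1), (datc σ k m
      (fun δ => δ.α = α ∧ δ.c = c ∧ δ.t j = F δ.ℓ (δ.t i)) : ℝ)) ≤
      ∑ m ∈ range (N + 1), ((datc σ k m (fun δ => δ.α = α ∧ δ.c = c ∧ δ.ℓ x₀ < K) : ℝ) +
        datc σ k m (fun δ => δ.α = α ∧ δ.c = c ∧ K ≤ δ.w j ∧ δ.t j = F δ.ℓ (δ.t i))) := by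
    refine sum_le_sum fun m _ => ?_
    have h7 := (datc_mono (σ := σ) (m := m)
      (P := fun δ => δ.α = α ∧ δ.c = c ∧ δ.t j = F δ.ℓ (δ.t i)) fun δ hδ h => ?_).trans
      (datc_or m (fun δ => δ.α = α ∧ δ.c = c ∧ δ.ℓ x₀ < K)
        (fun δ => δ.α = α ∧ δ.c = c ∧ K ≤ δ.w j ∧ δ.t j = F δ.ℓ (δ.t i)))
    · exact_mod_cast h7
    · by_cases h8 : δ.ℓ x₀ < K
      · exact Or.inl ⟨h.1, h.2.1, h8⟩
      · refine Or.inr ⟨h.1, h.2.1, ?_, h.2.2⟩
        have := len_le_w hδ x₀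
        rw [h.2.1, hx₀] at this
        exact (not_lt.1 h8).trans this
  rw [sum_add_distrib] at h6
  linarith

/-- a free group of symmetries which fixes all balanced lengths has order at most four -/
theorem card_le_four [Nonempty H] (hc : Cyc σ π v) (hD : Fintype.card H = 2 * D) {α : Perm H}
    {c : H → Fin k × Bool} (hl : IsLab σ α c) (hα : IsMt α) (A : Subgroup (Perm H))
    (hfree : ∀ ψ ∈ A, (∃ x, ψ x = x) → ψ = 1)
    (hfix : ∀ ψ ∈ A, ∀ l ∈ Vsp α c, ∀ x, l (ψ x) = l x) : Nat.card A ≤ 4 := by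
  classical
  have e := MulAction.selfEquivOrbitsQuotientProd (G := A) (X := H) (fun x => by
    rw [eq_bot_iff]
    intro ψ hψ
    exact Subtype.ext (hfree ψ ψ.2 ⟨x, hψ⟩))
  have h1 := Nat.card_congr e
  rw [Nat.card_prod, Nat.card_eq_fintype_card, hD] at h1
  have := Fintype.ofFinite (Quotient (MulAction.orbitRel A H))
  have h2 : Vsp α c ≤ LinearMap.range
      (LinearMap.funLeft ℚ ℚ (Quotient.mk (MulAction.orbitRel A H))) := by
    intro l hl'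
    refine ⟨Quotient.lift l ?_, rfl⟩
    rintro a b ⟨ψ, rfl⟩
    exact hfix ψ ψ.2 l hl' b
  have h3 := (Submodule.finrank_mono h2).trans (LinearMap.finrank_range_le _)
  rw [Module.finrank_fintype_fun_eq_card, ← Nat.card_eq_fintype_card] at h3
  have h4 := vsp_dim hc hD hl hα
  have h5 := two_k_le hc hD hl hα
  have h6 := Fintype.card_pos (α := H)
  simp only [Fintype.card_prod, Fintype.card_fin, Fintype.card_bool] at h5
  by_contra hlt
  have h7 := Nat.mul_le_mul h3 (show 5 ≤ Nat.card A by omega)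
  omega

theorem negl_fix (hc : Cyc σ π v) (hD : Fintype.card H = 2 * D) (α : Perm H)
    (c : H → Fin k × Bool) (ψ : Perm H) :
    Negl σ D k (fun δ => δ.α = α ∧ δ.c = c ∧ (∀ x, δ.ℓ (ψ x) = δ.ℓ x) ∧
      ¬ ∀ l ∈ Vsp α c, ∀ x, l (ψ x) = l x) := by
  refine negl_of_imp (p := IsLab σ α c ∧ IsMt α ∧ ¬ ∀ l ∈ Vsp α c, ∀ x, l (ψ x) = l x) ?_ ?_
  · rintro ⟨hl, hα, hn⟩
    refine (negl_sub hc hD hl hα
      (Vsp α c ⊓ LinearMap.eqLocus (LinearMap.funLeft ℚ ℚ ψ) LinearMap.id) ?_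
      {l : H → ℕ | (fun x => (l x : ℚ)) ∈ Vsp α c ∧ ∀ x, l (ψ x) = l x} ?_).mono ?_
    · refine lt_of_le_of_ne inf_le_left fun h => hn fun l hl x => ?_
      rw [← h] at hl
      exact congrFun hl.2 x
    · intro l hl l' hl'
      refine ⟨(Vsp α c).sub_mem hl.1 hl'.1, ?_⟩
      funext x
      simp [hl.2 x, hl'.2 x]
    · rintro m δ hδ ⟨rfl, rfl, h, -⟩
      exact ⟨rfl, rfl, len_mem hδ, h⟩
  · rintro m δ hδ ⟨rfl, rfl, -, h⟩
    exact ⟨hδ.lab, hδ.mt, h⟩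

end SymB

open SymB in
theorem symB [Nonempty H] (hc : Cyc σ π v) (hD : Fintype.card H = 2 * D) (k : ℕ) (ε : ℝ)
    (hε : 0 < ε) :
    ∀ᶠ N : ℕ in atTop, (∑ m ∈ range (N + 1), (datc σ k m (SymDat σ) : ℝ)) ≤ ε * N ^ D := by
  have h1 : Negl σ D k (fun δ => ∃ α : Perm H, ∃ c : H → Fin k × Bool, ∃ j : Fin k,
      ∃ i : {i : Fin k // i ≠ j}, ∃ s : Bool, ∃ s₁ s₂ : Fin (Fintype.card H),
      δ.α = α ∧ δ.c = c ∧ δ.t j = (δ.t i +
        (∑ a ∈ range s₁, δ.ℓ (((σ * α) ^ a) (Function.invFun c (j, s)))) +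
        ∑ a ∈ range s₂, δ.ℓ (((σ * α) ^ a) (Function.invFun c (j, !s)))) %
          per c δ.ℓ (j, true)) :=
    negl_exists fun α => negl_exists fun c => negl_exists fun j => negl_exists fun i =>
      negl_exists fun s => negl_exists fun s₁ => negl_exists fun s₂ =>
        negl_twist hc hD α c i.2 fun l t => (t +
          (∑ a ∈ range s₁, l (((σ * α) ^ a) (Function.invFun c (j, s)))) +
          ∑ a ∈ range s₂, l (((σ * α) ^ a) (Function.invFun c (j, !s)))) % per c l (j, true)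
  have h2 : Negl σ D k (fun δ => ∃ α : Perm H, ∃ c : H → Fin k × Bool, ∃ ψ : Perm H,
      δ.α = α ∧ δ.c = c ∧ (∀ x, δ.ℓ (ψ x) = δ.ℓ x) ∧ ¬ ∀ l ∈ Vsp α c, ∀ x, l (ψ x) = l x) :=
    negl_exists fun α => negl_exists fun c => negl_exists fun ψ => negl_fix hc hD α c ψ
  refine (h1.or h2).mono (fun m δ hδ h => ?_) ε hε
  rcases h with ⟨i, j, s, s₁, hs₁, s₂, hs₂, hij, h⟩ | ⟨A, hA, h⟩
  · exact Or.inl ⟨δ.α, δ.c, j, ⟨i, hij⟩, s, ⟨s₁, hs₁⟩, ⟨s₂, hs₂⟩, rfl, rfl, h⟩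
  · right
    by_contra hn
    refine absurd (card_le_four hc hD hδ.lab hδ.mt A (fun ψ hψ => (h ψ hψ).2.2.2.2)
      fun ψ hψ => ?_) (not_le.2 hA)
    by_contra hn'
    exact hn ⟨δ.α, δ.c, ψ, rfl, rfl, (h ψ hψ).2.2.1, hn'⟩

end Pool.Agent.STS
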