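import Pool.Agent.P.MP_bb7f8f_gt.Upper
import Pool.Agent.P.MP_bb7f8f_gt.Lower
import Pool.Agent.P.MP_bb7f8f_gt.Dart
import Pool.Agent.P.MP_bb7f8f_gt.Class
import Pool.Agent.P.MP_bb7f8f_gt.StructUp
import Pool.Agent.P.MP_bb7f8f_gt.SymA
import Pool.Agent.P.MP_bb7f8f_gt.SymB

/-! Final assembly. -/

namespace Pool.Agent.STS
open Equiv Finset Filter

theorem finRotate_same (m : ℕ) (a b : Fin m) : (finRotate m).SameCycle a b := by
  rcases m with _ | _ | m
  · exact a.elim0
  · rw [Subsingleton.elim (α := Fin 1) a b]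
  · exact isCycle_finRotate.sameCycle (Perm.mem_support.1 (by simp))
      (Perm.mem_support.1 (by simp))

theorem cyc_model {n : ℕ} (v : Fin n → ℕ) (hv : ∀ j, Odd (v j)) :
    Cyc (H := Σ j, Fin (v j)) (Perm.sigmaCongrRight fun j => finRotate (v j)) Sigma.fst v where
  same x y := by
    have e : ∀ i : ℤ, (Perm.sigmaCongrRight fun j => finRotate (v j)) ^ i =
        Perm.sigmaCongrRight fun j => finRotate (v j) ^ i := fun i =>
      (map_zpow (Perm.sigmaCongrRightHom fun j => Fin (v j)) (fun j => finRotate (v j)) i).symm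
    constructor
    · obtain ⟨j, a⟩ := x
      obtain ⟨j', b⟩ := y
      rintro rfl
      obtain ⟨i, hi⟩ := finRotate_same _ a b
      exact ⟨i, by rw [e, ← hi]; rfl⟩
    · rintro ⟨i, rfl⟩
      rw [e]; rfl
  card j := by
    have : ({x | x.1 = j} : Finset (Σ j, Fin (v j))) =
        univ.map (Function.Embedding.sigmaMk (β := fun j => Fin (v j)) j) := by
      ext ⟨j', a⟩
      simp only [mem_filter, mem_univ, true_and, Finset.mem_map, Function.Embedding.sigmaMk_apply]
      constructor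
      · rintro rfl; exact ⟨a, rfl⟩
      · rintro ⟨b, h⟩; exact (congrArg Sigma.fst h).symm
    rw [this]; simp
  odd := hv

theorem ev_small (D : ℕ) (hD : 1 ≤ D) (C η : ℝ) (hη : 0 < η) :
    ∀ᶠ N : ℕ in atTop, C * ((N : ℝ) + 1) ^ (D - 1) ≤ η * N ^ D := by
  filter_upwards [eventually_ge_atTop 1,
    tendsto_natCast_atTop_atTop.eventually_ge_atTop (|C| * 2 ^ (D - 1) / η)] with N h1 h2
  have h1' : (1 : ℝ) ≤ N := by exact_mod_cast h1
  rw [div_le_iff₀ hη] at h2
  calc _ ≤ |C| * (2 * N) ^ (D - 1) :=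
        mul_le_mul (le_abs_self _) (pow_le_pow_left₀ (by positivity) (by linarith) _)
          (by positivity) (abs_nonneg _)
    _ = |C| * 2 ^ (D - 1) * N ^ (D - 1) := by rw [mul_pow, mul_assoc]
    _ ≤ N * η * N ^ (D - 1) := mul_le_mul_of_nonneg_right h2 (by positivity)
    _ = _ := by
        obtain ⟨d, rfl⟩ : ∃ d, D = d + 1 := ⟨D - 1, by omega⟩
        simp only [Nat.add_sub_cancel]; ring

section
variable {H : Type} [Fintype H] [DecidableEq H] {σ : Perm H} {n : ℕ} {ρ : H → Fin n}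
  {u : Fin n → ℕ} {D : ℕ}

theorem mass_up [Nonempty H] (hc : Cyc σ ρ u) (hD : Fintype.card H = 2 * D)
    (B : ∀ m, Perm (Side m) → Prop) (F : ∀ m, Tri H m → Prop) (P : ∀ k, Datum H k → Prop)
    (hB : ∀ m, Nat.card {γ // B m γ} * zc σ ≤ Nat.card {T // F m T})
    (hF : ∀ m T, F m T → IsFr σ T)
    (hP : ∀ m T k (δ : Datum H k), F m T → IsDat σ m δ → Realizes σ T δ → P k δ) (N : ℕ) :
    mass B N * zc σ ≤ ∑ k ∈ range (D + 1),
      (∑ m ∈ range (N + 1), (datc σ k m (P k) : ℝ)) / (2 ^ k * k.factorial) := by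
  simp only [Finset.sum_div]
  rw [Finset.sum_comm, mass, Finset.sum_mul]
  refine Finset.sum_le_sum fun m _ => ?_
  have h1 := structUp hc hD m (F m) P (hF m) (hP m)
  have h2 : (Nat.card {γ // B m γ} : ℝ) * zc σ ≤ Nat.card {T // F m T} := by exact_mod_cast hB m
  rw [div_mul_eq_mul_div, div_le_iff₀ (by positivity), mul_comm _ (_ * _)]
  exact h2.trans h1

theorem zc_pos (σ : Perm H) : (0 : ℝ) < zc σ := by
  haveI : Nonempty {g : Perm H // g * σ = σ * g} := ⟨⟨1, by simp⟩⟩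
  exact_mod_cast (Nat.card_pos : 0 < Nat.card {g : Perm H // g * σ = σ * g})

end

theorem main (M : ℕ) (ε : ℝ) (hε : 0 < ε) : ∃ g₀ : ℕ, ∀ g ≥ g₀, ∀ (n : ℕ) (κ : Fin n → ℤ),
    (∀ j, Odd (κ j)) → (∀ j, -1 ≤ κ j) → #{j | κ j = -1} ≤ M → ∑ j, κ j = 4 * g - 4 →
    ∀ᶠ N : ℕ in atTop, 0 < mass (fun _ γ => InStratum κ γ) N ∧
      (numClasses (fun _ γ => InStratum κ γ ∧ ¬ OneLeaf 1 γ) N : ℝ) +
        numClasses (fun _ γ => InStratum κ γ ∧ ¬ OneLeaf 0 γ) N ≤
        ε * mass (fun _ γ => InStratum κ γ) N := by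
  obtain ⟨C', D₁, hup⟩ := upper_data M
  obtain ⟨D₂, hlow⟩ := lower_data M
  obtain ⟨D₃, hD₃⟩ := exists_nat_ge ((4096 * |C'| / ε) ^ 2)
  refine ⟨D₁ + D₂ + D₃ + 2, fun g hg n κ hodd hm hM hs => ?_⟩
  set v : Fin n → ℕ := fun j => (κ j + 2).toNat with hv
  have hκ : ∀ j, (v j : ℤ) = κ j + 2 := fun j => Int.toNat_of_nonneg (by linarith [hm j])
  have hvo : ∀ j, Odd (v j) := fun j => by
    rw [← Int.odd_coe_nat, hκ]; exact (hodd j).add_even even_two
  have hc := cyc_model v hvo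
  set σ := Perm.sigmaCongrRight fun j => finRotate (v j)
  obtain ⟨D, hD⟩ : ∃ D : ℕ, D + 2 = 2 * g + n := ⟨2 * g + n - 2, by omega⟩
  have hcard : Fintype.card (Σ j, Fin (v j)) = 2 * D := by
    rw [hc.card_eq]
    have : ((∑ j, v j : ℕ) : ℤ) = 4 * g - 4 + 2 * n := by
      push_cast
      simp only [hκ, Finset.sum_add_distrib, hs]
      simp [mul_comm]
    omega
  have hev : Even D := by
    have h1 : Even (∑ j, v j) := by rw [← hc.card_eq, hcard]; exact even_two_mul D
    rw [Finset.even_sum_iff_even_card_odd, Finset.filter_true_of_mem fun j _ => hvo j,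
      Finset.card_univ, Fintype.card_fin] at h1
    obtain ⟨r, hr⟩ := h1
    exact ⟨g + r - 1, by omega⟩
  have hM' : #{j | v j = 1} ≤ M := by
    refine le_trans (le_of_eq (congrArg _ (Finset.filter_congr fun j _ => ?_))) hM
    have := hκ j; omega
  haveI : Nonempty (Σ j, Fin (v j)) := Fintype.card_pos_iff.1 (by omega)
  obtain ⟨C₁, hup⟩ := hup D (by omega) _ _ σ _ v hc hcard hM'
  obtain ⟨C₂, hlow⟩ := hlow D (by omega) hev _ _ σ _ v hc hcard hM'
  have hD1 : 1 ≤ D := by omega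
  have hDR : (1 : ℝ) ≤ D := by exact_mod_cast hD1
  set c : ℝ := DF {D} / (D * D.factorial) with hcdef
  have hc0 : 0 < c := by have := DF_pos {D}; positivity
  have hsq : 8 * (C' / √D) ≤ ε / 512 := by
    have h1 : 4096 * |C'| / ε ≤ √D := by
      refine Real.le_sqrt_of_sq_le (hD₃.trans ?_)
      exact_mod_cast (by omega : D₃ ≤ D)
    have h2 : 0 < √(D : ℝ) := Real.sqrt_pos.2 (by linarith)
    rw [div_le_iff₀ hε] at h1
    rw [← mul_div_assoc, div_le_div_iff₀ h2 (by norm_num)]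
    linarith [le_abs_self C']
  have hsym : ∀ᶠ N : ℕ in atTop, ∀ k ∈ range (D + 1),
      (∑ m ∈ range (N + 1), (datc σ k m (SymDat σ) : ℝ)) ≤
        ε * c / (512 * (4 * D * (D + 1))) * N ^ D :=
    (Filter.eventually_all_finset _).2 fun k _ => symB hc hcard k _ (by positivity)
  filter_upwards [hlow, hsym, ev_small D hD1 C₁ (ε * c / 4096) (by positivity),
    ev_small D hD1 C₂ (c / 256) (by positivity), eventually_ge_atTop 1] with N a1 a2 a3 a4 a5
  have z := zc_pos σ
  have hN : (0 : ℝ) < (N : ℝ) ^ D := by positivity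
  have eX : DF {D} * (N : ℝ) ^ D / (D * D.factorial) = c * N ^ D := by rw [hcdef]; ring
  have tot : c * N ^ D / 256 * 3 / 2 ≤ mass (fun _ γ => InStratum κ γ) N * zc σ := by
    have : ∑ m ∈ range (N + 1), (Nat.card {T : Tri (Σ j, Fin (v j)) m // IsFr σ T} : ℝ) /
        (2 ^ m * m.factorial) ≤ mass (fun _ γ => InStratum κ γ) N * zc σ := by
      rw [mass, Finset.sum_mul]
      refine Finset.sum_le_sum fun m _ => ?_
      rw [div_mul_eq_mul_div, mul_comm _ (zc σ : ℝ)]
      refine div_le_div_of_nonneg_right ?_ (by positivity)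
      exact_mod_cast dart2 hc hκ m
    rw [eX] at a1
    linarith
  have bad : ∀ i, mass (fun _ γ => InStratum κ γ ∧ ¬ OneLeaf i γ) N * zc σ ≤
      C' / √D * (c * N ^ D) + ε * c / 4096 * N ^ D := fun i => by
    have := (mass_up hc hcard (fun _ γ => InStratum κ γ ∧ ¬ OneLeaf i γ)
      (fun _ T => IsFr σ T ∧ XBad T) (fun _ δ => Disc Sigma.fst δ.α) (fun m => dart1 hc hκ m i)
      (fun _ _ h => h.1) (fun _ _ _ _ h hd hr => badDisc hc h.1 h.2 hd hr) N).trans (hup N)
    rw [eX] at this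
    linarith
  have sym : 4 * D * (mass (fun _ γ => InStratum κ γ ∧ 4 < autc γ) N * zc σ) ≤
      ε * c / 512 * N ^ D := by
    have h1 := mass_up hc hcard (fun _ γ => InStratum κ γ ∧ 4 < autc γ)
      (fun _ T => IsFr σ T ∧ 4 < xautc T) (fun _ δ => SymDat σ δ) (fun m => dart3 hc hκ m)
      (fun _ _ h => h.1) (fun _ _ _ _ h hd hr => symA hc h.1 h.2 hd hr) N
    have h2 : ∑ k ∈ range (D + 1), (∑ m ∈ range (N + 1), (datc σ k m (SymDat σ) : ℝ)) /
        (2 ^ k * k.factorial) ≤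
        ∑ _k ∈ range (D + 1), ε * c / (512 * (4 * D * (D + 1))) * N ^ D := by
      refine Finset.sum_le_sum fun k hk => le_trans (div_le_self (by positivity) ?_) (a2 k hk)
      have : 1 ≤ 2 ^ k * k.factorial := Nat.succ_le_of_lt (by positivity)
      exact_mod_cast this
    refine (mul_le_mul_of_nonneg_left (h1.trans h2) (by positivity)).trans (le_of_eq ?_)
    rw [Finset.sum_const, card_range, nsmul_eq_mul]
    push_cast
    field_simp
  refine ⟨pos_of_mul_pos_left (lt_of_lt_of_le (by positivity) tot) z.le, ?_⟩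
  have u1 := mul_le_mul_of_nonneg_right (class_up hc hκ N 1) z.le
  have u0 := mul_le_mul_of_nonneg_right (class_up hc hκ N 0) z.le
  rw [hcard] at u1 u0
  push_cast at u1 u0
  have b1 := bad 1
  have b0 := bad 0
  have h5 := mul_le_mul_of_nonneg_right hsq (mul_pos hc0 hN).le
  have h6 := mul_le_mul_of_nonneg_left tot hε.le
  refine le_of_mul_le_mul_right ?_ z
  linarith

end Pool.Agent.STS
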