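import Pool.Agent.P.MP_bb7f8f_gt.QMid
import Pool.Agent.P.MP_bb7f8f_gt.Base

/-! Generating function of the smoothed ribbon graph count. -/

namespace Pool.Agent.STS.QF
open MvPolynomial Finset Equiv
set_option linter.unusedSectionVars false

variable {H J I : Type} [Fintype H] [DecidableEq H] [Fintype J] [DecidableEq J]
  [Fintype I] [DecidableEq I]

namespace GenFun

/-- `F` is the generating function of the weight `wt` -/
def IsGF {A : Type} (wt : A → I →₀ ℕ) (F : MvPowerSeries I ℚ) : Prop :=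
  ∀ m, ∃ s : Finset A, (∀ a, a ∈ s ↔ wt a = m) ∧ MvPowerSeries.coeff m F = #s

theorem IsGF.mul {A B : Type} {wa : A → I →₀ ℕ} {wb : B → I →₀ ℕ} {F G : MvPowerSeries I ℚ}
    (hF : IsGF wa F) (hG : IsGF wb G) : IsGF (fun p : A × B => wa p.1 + wb p.2) (F * G) := by
  classical
  intro m
  choose s hs hs' using hF
  choose t ht ht' using hG
  refine ⟨(antidiagonal m).biUnion fun p => s p.1 ×ˢ t p.2, fun a => ?_, ?_⟩
  · simp only [mem_biUnion, HasAntidiagonal.mem_antidiagonal, mem_product, hs, ht]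
    constructor
    · rintro ⟨p, hp, h1, h2⟩
      rw [h1, h2, hp]
    · intro h
      exact ⟨(wa a.1, wb a.2), h, rfl, rfl⟩
  · rw [card_biUnion, MvPowerSeries.coeff_mul]
    · simp [hs', ht']
    · intro p _ p' _ hne
      refine Finset.disjoint_left.2 fun a h1 h2 => hne ?_
      simp only [mem_product, hs, ht] at h1 h2
      exact Prod.ext (h1.1.symm.trans h2.1) (h1.2.symm.trans h2.2)

theorem IsGF.prod {E A : Type} [Fintype E] {wt : E → A → I →₀ ℕ} {F : E → MvPowerSeries I ℚ}
    (hF : ∀ e, IsGF (wt e) (F e)) : IsGF (fun a : E → A => ∑ e, wt e (a e)) (∏ e, F e) := by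
  classical
  intro m
  choose s hs hs' using hF
  refine ⟨(finsuppAntidiag univ m).biUnion fun l => Fintype.piFinset fun e => s e (l e),
    fun a => ?_, ?_⟩
  · simp only [mem_biUnion, mem_finsuppAntidiag, Fintype.mem_piFinset, hs]
    constructor
    · rintro ⟨l, hl, h⟩
      rw [← hl.1]
      exact Finset.sum_congr rfl fun e _ => h e
    · intro h
      exact ⟨Finsupp.equivFunOnFinite.symm fun e => wt e (a e), ⟨h, subset_univ _⟩, fun e => rfl⟩
  · rw [card_biUnion, MvPowerSeries.coeff_prod]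
    · simp [hs']
    · intro l _ l' _ hne
      refine Finset.disjoint_left.2 fun a h1 h2 => hne ?_
      simp only [Fintype.mem_piFinset, hs] at h1 h2
      ext1 e
      exact (h1 e).symm.trans (h2 e)

theorem gf_bool (i : I) : IsGF (fun ε : Bool => Finsupp.single i ε.toNat)
    (1 + MvPowerSeries.X i) := by
  intro m
  refine ⟨univ.filter fun ε : Bool => Finsupp.single i ε.toNat = m, fun a => by simp, ?_⟩
  rw [map_add, MvPowerSeries.coeff_one, MvPowerSeries.coeff_X, card_filter, Fintype.sum_bool]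
  simp only [Bool.toNat_true, Bool.toNat_false, Finsupp.single_zero, eq_comm (a := m)]
  push_cast
  exact add_comm _ _

theorem gf_geom (u : I →₀ ℕ) (hu : u ≠ 0) : IsGF (fun n : ℕ => n • u)
    (1 - MvPowerSeries.monomial u 1)⁻¹ := by
  classical
  let g : MvPowerSeries I ℚ := fun m => if ∃ n : ℕ, n • u = m then 1 else 0
  have hg : ∀ m, MvPowerSeries.coeff m g = if ∃ n : ℕ, n • u = m then 1 else 0 := fun _ => rfl
  have hc : MvPowerSeries.constantCoeff (1 - MvPowerSeries.monomial u 1 : MvPowerSeries I ℚ) ≠ 0 := by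
    rw [map_sub, map_one, ← MvPowerSeries.coeff_zero_eq_constantCoeff_apply,
      MvPowerSeries.coeff_monomial, if_neg hu.symm]
    simp
  have h1 : g = (1 - MvPowerSeries.monomial u 1)⁻¹ := by
    rw [MvPowerSeries.eq_inv_iff_mul_eq_one hc]
    ext m
    rw [mul_sub, mul_one, map_sub, MvPowerSeries.coeff_mul_monomial, MvPowerSeries.coeff_one, hg, hg]
    by_cases hm : m = 0
    · subst hm
      rw [if_pos ⟨0, zero_smul _ _⟩, if_neg (fun h => hu (le_antisymm h zero_le))]
      simp
    · rw [if_neg hm]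
      by_cases h : ∃ n : ℕ, n • u = m
      · obtain ⟨n, rfl⟩ := h
        cases n with
        | zero => exact absurd (zero_smul _ _) hm
        | succ n =>
          have e : (n + 1) • u = n • u + u := succ_nsmul _ _
          rw [if_pos ⟨_, rfl⟩, if_pos (by rw [e]; exact le_add_self),
            if_pos ⟨n, by rw [e, add_tsub_cancel_right]⟩]
          simp
      · rw [if_neg h]
        split_ifs with h2 h3
        · obtain ⟨n, hn⟩ := h3
          exact absurd ⟨n + 1, by rw [succ_nsmul, hn, tsub_add_cancel_of_le h2]⟩ h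
        · simp
        · simp
  intro m
  rw [← h1, hg]
  split_ifs with h
  · obtain ⟨n, rfl⟩ := h
    refine ⟨{n}, fun a => ⟨fun h => by rw [mem_singleton.1 h], fun h => mem_singleton.2 ?_⟩, by simp⟩
    obtain ⟨i, hi⟩ := Finsupp.ne_iff.1 hu
    have := DFunLike.congr_fun h i
    simp only [Finsupp.smul_apply, smul_eq_mul] at this
    exact Nat.eq_of_mul_eq_mul_right (Nat.pos_of_ne_zero hi) this
  · exact ⟨∅, fun a => ⟨fun h => by simp at h, fun h' => absurd ⟨a, h'⟩ h⟩, by simp⟩

/-- the one-variable series -/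
noncomputable def y : PowerSeries ℚ := (1 + PowerSeries.X) * PowerSeries.mk 1

def emb (i : I) : Unit ↪ I := ⟨fun _ => i, fun _ _ _ => rfl⟩

theorem cc_sub (i : I) :
    MvPowerSeries.constantCoeff (1 - MvPowerSeries.X i : MvPowerSeries I ℚ) ≠ 0 := by simp

theorem xs_eq (i : I) : xs i = MvPowerSeries.rename (emb i) y := by
  have h : MvPowerSeries.rename (emb i) (PowerSeries.mk 1 : PowerSeries ℚ) =
      (1 - MvPowerSeries.X i)⁻¹ := by
    rw [MvPowerSeries.eq_inv_iff_mul_eq_one (cc_sub i)]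
    have := congrArg (MvPowerSeries.rename (emb i)) (PowerSeries.mk_one_mul_one_sub_eq_one ℚ)
    rw [map_mul, map_sub, map_one, PowerSeries.X, MvPowerSeries.rename_X] at this
    exact this
  rw [y, map_mul, h, map_add, map_one, PowerSeries.X, MvPowerSeries.rename_X]
  rfl

theorem coeff_prod_xs (κ b : I → ℕ) :
    MvPowerSeries.coeff (Finsupp.equivFunOnFinite.symm b) (∏ i, xs i ^ κ i) =
      ∏ i, PowerSeries.coeff (b i) (y ^ κ i) := by
  rw [MvPowerSeries.coeff_prod, Finset.sum_eq_single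
    (Finsupp.equivFunOnFinite.symm fun i => Finsupp.single i (b i))]
  · refine Finset.prod_congr rfl fun i _ => ?_
    rw [xs_eq, ← map_pow]
    have : (Finsupp.equivFunOnFinite.symm fun i => Finsupp.single i (b i)) i =
        Finsupp.embDomain (emb i) (Finsupp.single () (b i)) := by
      rw [Finsupp.embDomain_single]; rfl
    rw [this, MvPowerSeries.coeff_embDomain_rename]
    rfl
  · intro l hl hne
    by_contra h
    apply hne
    have h1 : ∀ i, ∃ n, l i = Finsupp.single i n := by
      intro i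
      have h2 := Finset.prod_ne_zero_iff.1 h i (mem_univ i)
      rw [xs_eq, ← map_pow] at h2
      have h3 : l i ∈ Set.range (Finsupp.mapDomain (emb i)) := by
        by_contra h4
        exact h2 (MvPowerSeries.coeff_rename_eq_zero _ _ h4)
      obtain ⟨z, hz⟩ := h3
      refine ⟨z (), ?_⟩
      rw [← hz, Finsupp.unique_single z, Finsupp.mapDomain_single]
      simp [emb]
    choose n hn using h1
    have h5 := (mem_finsuppAntidiag.1 hl).1
    ext1 i
    have h6 := DFunLike.congr_fun h5 i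
    simp only [hn, Finsupp.finsetSum_apply, Finsupp.single_apply, Finset.sum_ite_eq',
      mem_univ, if_true, Finsupp.equivFunOnFinite_symm_apply_apply] at h6
    rw [hn, h6]
    rfl
  · intro h
    refine absurd (mem_finsuppAntidiag.2 ⟨?_, subset_univ _⟩) h
    ext i
    simp [Finsupp.finsetSum_apply, Finsupp.single_apply]

theorem coeff_y (d n : ℕ) : PowerSeries.coeff n (y ^ (d + 1)) =
    ∑ j ∈ range (n + 1), ((d + 1).choose j : ℚ) * (d + (n - j)).choose d := by
  rw [y, mul_pow, PowerSeries.mk_one_pow_eq_mk_choose_add, PowerSeries.coeff_mul,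
    Finset.Nat.sum_antidiagonal_eq_sum_range_succ_mk]
  refine Finset.sum_congr rfl fun j _ => ?_
  rw [PowerSeries.coeff_mk]
  congr 1
  have : (1 + PowerSeries.X : PowerSeries ℚ) ^ (d + 1) =
      ((1 + Polynomial.X : Polynomial ℚ) ^ (d + 1) : Polynomial ℚ) := by simp
  rw [this, Polynomial.coeff_coe, Polynomial.coeff_one_add_X_pow]

theorem sum_choose_le (k n : ℕ) : ∑ j ∈ range (n + 1), (k.choose j : ℝ) ≤ 2 ^ k := by
  have h1 : ∑ j ∈ range (n + k + 1), (k.choose j : ℝ) = ∑ j ∈ range (k + 1), (k.choose j : ℝ) := by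
    symm
    refine Finset.sum_subset (range_subset_range.2 (by omega)) fun j _ hj => ?_
    rw [Nat.choose_eq_zero_of_lt (by simpa using hj), Nat.cast_zero]
  have h2 : ∑ j ∈ range (k + 1), (k.choose j : ℝ) = 2 ^ k := by
    exact_mod_cast Nat.sum_range_choose k
  rw [← h2, ← h1]
  exact Finset.sum_le_sum_of_subset_of_nonneg (range_subset_range.2 (by omega))
    fun _ _ _ => by positivity

theorem y_bound (k n : ℕ) (hk : 1 ≤ k) :
    0 ≤ PowerSeries.coeff n (y ^ k) ∧
    (PowerSeries.coeff n (y ^ k) : ℚ) * (2 / (k : ℝ)) ≤ 4 ^ k * omP k n ∧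
    (k ≤ n → 4 ^ k * omM k n ≤ (PowerSeries.coeff n (y ^ k) : ℚ) * (2 / (k : ℝ))) := by
  obtain ⟨d, rfl⟩ : ∃ d, k = d + 1 := ⟨k - 1, by omega⟩
  rw [coeff_y]
  have h4 : (4 : ℝ) ^ (d + 1) = 2 ^ (d + 1) * 2 ^ (d + 1) := by rw [← mul_pow]; norm_num
  refine ⟨by positivity, ?_, fun hn => ?_⟩
  · have h1 : ∑ j ∈ range (n + 1), ((d + 1).choose j : ℝ) * (d + (n - j)).choose d ≤
        2 ^ (d + 1) * (((n : ℝ) + (d + 1 : ℕ)) ^ d / d.factorial) := by
      refine le_trans ?_ (mul_le_mul_of_nonneg_right (sum_choose_le (d + 1) n) (by positivity))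
      rw [Finset.sum_mul]
      refine Finset.sum_le_sum fun j _ => mul_le_mul_of_nonneg_left ?_ (by positivity)
      refine (Nat.choose_le_pow_div _ _).trans ?_
      gcongr
      exact_mod_cast (by omega : d + (n - j) ≤ n + (d + 1))
    have h2 : 4 ^ (d + 1) * omP (d + 1) n =
        2 ^ (d + 1) * (((n : ℝ) + (d + 1 : ℕ)) ^ d / d.factorial) * (2 / ((d + 1 : ℕ) : ℝ)) := by
      rw [omP, h4, Nat.factorial_succ, Nat.add_sub_cancel]
      push_cast
      field_simp
    rw [h2]
    push_cast at h1 ⊢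
    exact mul_le_mul_of_nonneg_right h1 (by positivity)
  · have hn' : (0 : ℝ) ≤ (n : ℝ) - (d + 1 : ℕ) := sub_nonneg.2 (by exact_mod_cast hn)
    have h1 : 2 ^ (d + 1) * (((n : ℝ) - (d + 1 : ℕ)) ^ d / d.factorial) ≤
        ∑ j ∈ range (n + 1), ((d + 1).choose j : ℝ) * (d + (n - j)).choose d := by
      have h3 : ∑ j ∈ range (d + 1 + 1), ((d + 1).choose j : ℝ) = 2 ^ (d + 1) := by
        exact_mod_cast Nat.sum_range_choose (d + 1)
      rw [← h3, Finset.sum_mul]
      refine le_trans (Finset.sum_le_sum fun j hj => ?_) (Finset.sum_le_sum_of_subset_of_nonneg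
        (range_subset_range.2 (by omega : d + 1 + 1 ≤ n + 1)) fun _ _ _ => by positivity)
      refine mul_le_mul_of_nonneg_left (le_trans ?_ (Nat.pow_le_choose _ _)) (by positivity)
      gcongr
      have := mem_range.1 hj
      rw [sub_le_iff_le_add]
      exact_mod_cast (by omega : n ≤ d + (n - j) + 1 - d + (d + 1))
    have h2 : 4 ^ (d + 1) * omM (d + 1) n =
        2 ^ (d + 1) * (((n : ℝ) - (d + 1 : ℕ)) ^ d / d.factorial) * (2 / ((d + 1 : ℕ) : ℝ)) := by
      rw [omM, h4, Nat.factorial_succ, Nat.add_sub_cancel]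
      push_cast
      field_simp
    rw [h2]
    push_cast at h1 ⊢
    exact mul_le_mul_of_nonneg_right h1 (by positivity)

/-! ### Edges of a matching -/

def Ed (α : Perm H) (x : H) : Prop := Fintype.equivFin H x < Fintype.equivFin H (α x)

noncomputable instance (α : Perm H) : DecidablePred (Ed α) := fun x =>
  inferInstanceAs (Decidable (Fintype.equivFin H x < Fintype.equivFin H (α x)))

theorem EP_eq {R : Type} [CommMonoid R] (α : Perm H) (F : H → R) :
    EP α F = ∏ x with Ed α x, F x := rfl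

theorem ed_not {α : Perm H} (hα : IsMt α) (x : H) : ¬ Ed α x ↔ Ed α (α x) := by
  have h1 : Fintype.equivFin H (α x) ≠ Fintype.equivFin H x := fun h =>
    (hα x).2 ((Fintype.equivFin H).injective h)
  simp only [Ed, (hα x).1, not_lt]
  exact ⟨fun h => lt_of_le_of_ne h h1, le_of_lt⟩

theorem prod_edges {M : Type} [CommMonoid M] {α : Perm H} (hα : IsMt α) (f : H → M) :
    ∏ x, f x = ∏ x with Ed α x, (f x * f (α x)) := by
  rw [Finset.prod_mul_distrib, ← Finset.prod_filter_mul_prod_filter_not univ (Ed α)]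
  congr 1
  refine Finset.prod_bij (fun x _ => α x) ?_ ?_ ?_ ?_
  · intro x hx
    simpa using (ed_not hα x).1 (by simpa using hx)
  · intro x _ z _ h
    exact α.injective h
  · intro z hz
    refine ⟨α z, ?_, (hα z).1⟩
    have hz' : Ed α z := by simpa using hz
    have : ¬ Ed α (α z) := fun h => (ed_not hα z).2 h hz'
    simpa using this
  · intro x _
    rw [(hα x).1]

theorem sum_edges {α : Perm H} (hα : IsMt α) (f : H → ℕ) :
    ∑ x, f x = ∑ x with Ed α x, (f x + f (α x)) :=
  prod_edges (M := Multiplicative ℕ) hα f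

theorem card_edges {α : Perm H} (hα : IsMt α) {D : ℕ} (hD : Fintype.card H = 2 * D) :
    #{x | Ed α x} = D := by
  have h := sum_edges hα fun _ => 1
  simp only [sum_const, card_univ, smul_eq_mul, hD] at h
  omega

/-- the edge representative -/
noncomputable def rp {α : Perm H} (hα : IsMt α) (x : H) : {x // Ed α x} :=
  if h : Ed α x then ⟨x, h⟩ else ⟨α x, (ed_not hα x).1 h⟩

theorem rp_val {α : Perm H} (hα : IsMt α) (x : {x // Ed α x}) : rp hα x.1 = x := dif_pos x.2

theorem rp_step {α : Perm H} (hα : IsMt α) (x : H) : rp hα (α x) = rp hα x := by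
  unfold rp
  by_cases hx : Ed α x
  · have hx' : ¬ Ed α (α x) := fun h => (ed_not hα x).2 h hx
    simp only [dif_pos hx, dif_neg hx', (hα x).1]
  · simp only [dif_neg hx, dif_pos ((ed_not hα x).1 hx)]

theorem inv_rp {α : Perm H} (hα : IsMt α) {l : H → ℕ} (hl : ∀ x, l (α x) = l x) (x : H) :
    l (rp hα x).1 = l x := by
  unfold rp
  split_ifs
  · rfl
  · exact hl x

noncomputable def lam (i : I) : MvPowerSeries I ℚ :=
  (1 - MvPowerSeries.X i) * (1 + MvPowerSeries.X i)⁻¹

noncomputable def Cm (i j : I) : MvPowerSeries I ℚ :=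
  MvPowerSeries.C (1 / 2) * ((1 + MvPowerSeries.X i) * (1 + MvPowerSeries.X j) *
    (1 - MvPowerSeries.X i * MvPowerSeries.X j)⁻¹)

theorem two_half : (2 : MvPowerSeries I ℚ) * MvPowerSeries.C (1 / 2) = 1 := by
  have : (2 : MvPowerSeries I ℚ) = MvPowerSeries.C 2 := (map_ofNat _ 2).symm
  rw [this, ← map_mul]
  norm_num

theorem two_Cm (i j : I) : 2 * Cm i j = (1 + MvPowerSeries.X i) * (1 + MvPowerSeries.X j) *
    (1 - MvPowerSeries.X i * MvPowerSeries.X j)⁻¹ := by
  rw [Cm, ← mul_assoc, two_half, one_mul]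

theorem inv_add (i : I) : (1 + MvPowerSeries.X i : MvPowerSeries I ℚ) *
    (1 + MvPowerSeries.X i)⁻¹ = 1 := MvPowerSeries.mul_inv_cancel _ (by simp)

theorem inv_sub' (i j : I) : (1 - MvPowerSeries.X i * MvPowerSeries.X j : MvPowerSeries I ℚ) *
    (1 - MvPowerSeries.X i * MvPowerSeries.X j)⁻¹ = 1 := MvPowerSeries.mul_inv_cancel _ (by simp)

theorem cc_lam (i : I) : MvPowerSeries.constantCoeff (lam i) = 1 := by
  simp [lam, MvPowerSeries.constantCoeff_inv]

theorem lam_Cm (i j : I) : (lam i + lam j) * Cm i j = 1 := by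
  have h1 := inv_add i
  have h2 := inv_add j
  have h3 := inv_sub' i j
  have h4 := two_half (I := I)
  unfold lam Cm
  generalize (MvPowerSeries.C (1 / 2) : MvPowerSeries I ℚ) = h at *
  generalize (1 + MvPowerSeries.X i : MvPowerSeries I ℚ)⁻¹ = A at *
  generalize (1 + MvPowerSeries.X j : MvPowerSeries I ℚ)⁻¹ = B at *
  generalize (1 - MvPowerSeries.X i * MvPowerSeries.X j : MvPowerSeries I ℚ)⁻¹ = W at *
  generalize (MvPowerSeries.X i : MvPowerSeries I ℚ) = a at *
  generalize (MvPowerSeries.X j : MvPowerSeries I ℚ) = b at *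
  linear_combination h * W * (1 - a) * (1 + b) * h1 + h * W * (1 - b) * (1 + a) * h2 +
    2 * h * h3 + h4

theorem two_Cm_self (i : I) : 2 * Cm i i = xs i := by
  have h1 := MvPowerSeries.mul_inv_cancel _ (cc_sub i)
  have h3 := inv_sub' i i
  rw [two_Cm, xs]
  generalize (1 - MvPowerSeries.X i : MvPowerSeries I ℚ)⁻¹ = V at *
  generalize (1 - MvPowerSeries.X i * MvPowerSeries.X i : MvPowerSeries I ℚ)⁻¹ = W at *
  generalize (MvPowerSeries.X i : MvPowerSeries I ℚ) = a at *
  linear_combination (1 + a) * V * h3 - (1 + a) ^ 2 * W * h1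

/-- lengths and parities on a fixed labelled ribbon graph -/
def T (α : Perm H) (c : H → I) (b : I → ℕ) : Set ((H → ℕ) × (H → Bool)) :=
  {z | (∀ x, z.1 (α x) = z.1 x) ∧ ∀ i, per c (fun x => z.1 x + (z.2 x).toNat) i = b i}

theorem wt_eq {α : Perm H} (hα : IsMt α) (c : H → I) (ε : H → Bool) (g : {x // Ed α x} → ℕ)
    (i : I) : (∑ x, Finsupp.single (c x) (ε x).toNat +
      ∑ e : {x // Ed α x}, g e • (Finsupp.single (c e.1) 1 + Finsupp.single (c (α e.1)) 1) :
        I →₀ ℕ) i = per c (fun x => g (rp hα x) + (ε x).toNat) i := by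
  rw [per, Finset.sum_add_distrib, add_comm, Finsupp.add_apply, Finsupp.finsetSum_apply,
    Finsupp.finsetSum_apply, Finset.sum_filter, Finset.sum_filter,
    sum_edges hα fun x => if c x = i then g (rp hα x) else 0,
    Finset.sum_subtype (p := Ed α) (univ.filter (Ed α)) (by simp)]
  congr 1
  · refine Finset.sum_congr rfl fun e _ => ?_
    rw [rp_step, rp_val]
    simp [Finsupp.single_apply, mul_add]
  · simp [Finsupp.single_apply]

theorem ncard_T {α : Perm H} (hα : IsMt α) {D : ℕ} (hD : Fintype.card H = 2 * D) (c : H → I)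
    (b : I → ℕ) : ((T α c b).ncard : ℚ) = 2 ^ D * MvPowerSeries.coeff
      (Finsupp.equivFunOnFinite.symm b) (EP α fun x => Cm (c x) (c (α x))) := by
  have h1 : 2 ^ D * (EP α fun x => Cm (c x) (c (α x))) =
      (∏ x, (1 + MvPowerSeries.X (c x))) * ∏ e : {x // Ed α x}, (1 - MvPowerSeries.monomial
        (Finsupp.single (c e.1) 1 + Finsupp.single (c (α e.1)) 1) 1)⁻¹ := by
    rw [EP_eq, ← card_edges hα hD, ← Finset.prod_const, ← Finset.prod_mul_distrib, prod_edges hα,
      ← Finset.prod_subtype (p := Ed α) (univ.filter (Ed α)) (by simp) fun x =>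
        (1 - MvPowerSeries.monomial (Finsupp.single (c x) 1 + Finsupp.single (c (α x)) 1) 1 :
          MvPowerSeries I ℚ)⁻¹, ← Finset.prod_mul_distrib]
    refine Finset.prod_congr rfl fun x _ => ?_
    rw [two_Cm, MvPowerSeries.X, MvPowerSeries.X, MvPowerSeries.monomial_mul_monomial, one_mul]
  have h2 := (IsGF.prod fun x => gf_bool (c x)).mul (IsGF.prod fun e : {x // Ed α x} =>
    gf_geom (Finsupp.single (c e.1) 1 + Finsupp.single (c (α e.1)) 1) (by simp))
  obtain ⟨s, hs, hs'⟩ := h2 (Finsupp.equivFunOnFinite.symm b)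
  have h3 : (2 : MvPowerSeries I ℚ) ^ D = MvPowerSeries.C (2 ^ D) := by
    rw [map_pow, map_ofNat]
  rw [← h1, h3, MvPowerSeries.coeff_C_mul] at hs'
  rw [hs', ← Set.ncard_coe_finset]
  congr 1
  symm
  refine Set.ncard_congr (fun a _ => (fun x => a.2 (rp hα x), a.1)) ?_ ?_ ?_
  · intro a ha
    refine ⟨fun x => by simp only [rp_step], fun i => ?_⟩
    have := DFunLike.congr_fun ((hs a).1 ha) i
    rw [wt_eq hα] at this
    exact this
  · intro a a' _ _ h
    obtain ⟨h1, h2⟩ := Prod.mk.inj h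
    refine Prod.ext h2 (funext fun e => ?_)
    have := congrFun h1 e.1
    simpa only [rp_val] using this
  · rintro ⟨l, ε⟩ hz
    have hl := inv_rp (l := l) hα hz.1
    refine ⟨(ε, fun e => l e.1), (hs _).2 ?_, ?_⟩
    · ext i
      rw [wt_eq hα]
      simp only [hl]
      exact hz.2 i
    · simp only [hl]

open Classical in
theorem Sm_eq (σ : Perm H) (b : I → ℕ) :
    Sm σ b = ∑ α with IsMt α, ∑ c with IsLab σ α c, (T α c b).ncard := by
  rw [Sm, Set.ncard_eq_toFinset_card _ (sm_finite σ b),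
    Finset.card_eq_sum_card_fiberwise (f := fun p => (p.1, p.2.1))
      (t := univ.filter fun p : Perm H × (H → I) => IsMt p.1 ∧ IsLab σ p.1 p.2),
    Finset.sum_finset_product _ (univ.filter IsMt) (fun α => univ.filter (IsLab σ α)) (by simp)]
  · refine Finset.sum_congr rfl fun α hα => Finset.sum_congr rfl fun c hc => ?_
    rw [← Set.ncard_coe_finset]
    symm
    refine Set.ncard_congr (fun z _ => (α, c, z)) ?_ ?_ ?_
    · intro z hz
      simp only [coe_filter, Set.Finite.mem_toFinset, Set.mem_setOf_eq, and_true]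
      exact ⟨by simpa using hα, by simpa using hc, hz⟩
    · intro z z' _ _ h
      simpa using h
    · rintro ⟨α', c', z⟩ h
      simp only [coe_filter, Set.Finite.mem_toFinset, Set.mem_setOf_eq, Prod.mk.injEq] at h
      obtain ⟨h1, rfl, rfl⟩ := h
      exact ⟨z, h1.2.2, rfl⟩
  · intro p hp
    simp only [Set.Finite.coe_toFinset, Set.mem_setOf_eq] at hp
    simpa using ⟨hp.1, hp.2.1⟩

/-! ### Colourings of the faces -/

abbrev Cy (τ : Perm H) := Quotient (Perm.SameCycle.setoid τ)

theorem inv_same {S : Type} {τ : Perm H} {c : H → S} (h : ∀ x, c (τ x) = c x) {x z : H}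
    (hxz : τ.SameCycle x z) : c x = c z := by
  obtain ⟨n, -, rfl⟩ := hxz.exists_pow_eq'
  clear hxz
  induction n with
  | zero => rfl
  | succ n ih => rw [pow_succ', Perm.mul_apply, h, ← ih]

theorem inv_out {S : Type} {τ : Perm H} {c : H → S} (h : ∀ x, c (τ x) = c x) (x : H) :
    c (Quotient.mk (Perm.SameCycle.setoid τ) x).out = c x :=
  inv_same h (Quotient.mk_out (s := Perm.SameCycle.setoid τ) x)

open Classical in
theorem card_fib {S : Type} [Fintype S] (τ : Perm H) (f : S → I) {c : H → I}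
    (hc : ∀ x, c (τ x) = c x) :
    #{c' ∈ ({c' : H → S | ∀ x, c' (τ x) = c' x} : Finset (H → S)) | (fun x => f (c' x)) = c} =
      ∏ O : Cy τ, #{s | f s = c O.out} := by
  rw [← Fintype.card_piFinset]
  refine Finset.card_nbij' (fun c' O => c' O.out) (fun g x => g (Quotient.mk _ x)) ?_ ?_ ?_ ?_
  · intro c' h
    simp only [coe_filter, mem_filter, mem_univ, true_and, Set.mem_setOf_eq] at h
    simp only [mem_coe, Fintype.mem_piFinset, mem_filter, mem_univ, true_and]
    exact fun O => congrFun h.2 _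
  · intro g h
    simp only [mem_coe, Fintype.mem_piFinset, mem_filter, mem_univ, true_and] at h
    simp only [coe_filter, mem_filter, mem_univ, true_and, Set.mem_setOf_eq]
    refine ⟨fun x => congrArg g (Quotient.sound ?_), funext fun x => ?_⟩
    · exact Perm.sameCycle_apply_left.2 (Perm.SameCycle.refl _ _)
    · rw [h, inv_out hc]
  · intro c' h
    simp only [coe_filter, mem_filter, mem_univ, true_and, Set.mem_setOf_eq] at h
    exact funext fun x => inv_out h.1 x
  · intro g _
    exact funext fun O => by simp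

theorem coeff_ones {K R : Type} [Fintype K] [CommRing R] (g : K → I)
    [Decidable (Function.Bijective g)] :
    coeff (ones I) (∏ O, X (g O) : MvPolynomial I R) = if Function.Bijective g then 1 else 0 := by
  classical
  have h1 : (∏ O, X (g O) : MvPolynomial I R) = monomial (∑ O, Finsupp.single (g O) 1) 1 := by
    rw [monomial_sum_one]
    rfl
  rw [h1, coeff_monomial]
  refine if_congr ?_ rfl rfl
  rw [Function.bijective_iff_existsUnique, Finsupp.ext_iff]
  refine forall_congr' fun i => ?_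
  have h2 : (∑ O, Finsupp.single (g O) 1 : I →₀ ℕ) i = #{O | g O = i} := by
    simp only [Finsupp.finsetSum_apply, Finsupp.single_apply, card_filter]
  rw [h2]
  change _ = 1 ↔ _
  rw [Finset.card_eq_one_iff_existsUnique]
  simp

theorem bij_iff {σ α : Perm H} {c : H → I} (hc : ∀ x, c (σ (α x)) = c x) :
    Function.Bijective (fun O : Cy (σ * α) => c O.out) ↔ IsLab σ α c := by
  have ho := inv_out (τ := σ * α) hc
  constructor
  · intro h
    refine ⟨fun x z => ⟨fun hxz => ?_, inv_same (τ := σ * α) hc⟩, fun i => ?_⟩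
    · refine Quotient.exact (s := Perm.SameCycle.setoid (σ * α)) (h.1 ?_)
      simp only [ho, hxz]
    · obtain ⟨O, hO⟩ := h.2 i
      exact ⟨_, hO⟩
  · intro h
    refine ⟨fun O O' hO => ?_, fun i => ?_⟩
    · rw [← Quotient.out_eq O, ← Quotient.out_eq O']
      exact Quotient.sound ((h.1 _ _).1 hO)
    · obtain ⟨x, hx⟩ := h.2 i
      exact ⟨Quotient.mk _ x, (ho x).trans hx⟩

theorem map_evO {R R' : Type} [CommRing R] [Algebra ℚ R] [CommRing R'] [Algebra ℚ R']
    (ψ : R →+* R') (π : ℕ → R) (G : Gm) : ψ (evO π G) = evO (fun k => ψ (π k)) G := by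
  have : ψ.toRatAlgHom.comp (evO π) = evO fun k => ψ (π k) :=
    MvPolynomial.algHom_ext fun k => by
      simp only [evO, AlgHom.comp_apply, aeval_X]
      split_ifs
      · rfl
      · exact map_zero _
  exact DFunLike.congr_fun this G

open Classical in
/-- the face-colouring polynomial -/
noncomputable def Qp (σ : Perm H) (I : Type) [Fintype I] [DecidableEq I] :
    MvPolynomial I (MvPowerSeries I ℚ) :=
  ∑ α with IsMt α, ∑ c : H → I with (∀ x, c (σ (α x)) = c x),
    C (EP α fun x => Cm (c x) (c (α x))) * ∏ O : Cy (σ * α), X (c O.out)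

theorem card_fst (N : I → ℕ) (i : I) : #{s : Σ i, Fin (N i) | s.1 = i} = N i := by
  rw [card_filter, Fintype.sum_sigma, Finset.sum_eq_single i]
  · simp
  · intro j _ hj
    simp [hj]
  · simp

theorem eval_Qp (σ : Perm H) (N : I → ℕ) :
    eval (fun i => (N i : MvPowerSeries I ℚ)) (Qp σ I) =
      Wsum σ fun s t : Σ i, Fin (N i) => Cm s.1 t.1 := by
  classical
  have h0 : Wsum σ (fun s t : Σ i, Fin (N i) => Cm s.1 t.1) = ∑ α with IsMt α,
      ∑ c : H → Σ i, Fin (N i) with (∀ x, c (σ (α x)) = c x),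
        EP α fun x => Cm (c x).1 (c (α x)).1 := by
    unfold Wsum
    refine Finset.sum_congr (by ext; simp) fun α _ => Finset.sum_congr (by ext; simp) fun _ _ => rfl
  rw [h0, Qp, map_sum]
  refine Finset.sum_congr (by ext; simp) fun α _ => ?_
  rw [map_sum, ← Finset.sum_fiberwise_of_maps_to (g := fun (c : H → Σ i, Fin (N i)) x => (c x).1)
    (t := univ.filter fun c : H → I => ∀ x, c (σ (α x)) = c x)]
  · refine Finset.sum_congr (by ext; simp) fun c hc => ?_
    have hc' : ∀ x, c ((σ * α) x) = c x := by simpa using hc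
    have h1 := card_fib (σ * α) (fun s : Σ i, Fin (N i) => s.1) hc'
    simp only [card_fst, Perm.mul_apply] at h1
    rw [Finset.sum_congr rfl (g := fun _ => EP α fun x => Cm (c x) (c (α x))), Finset.sum_const,
      map_mul, eval_C, map_prod, nsmul_eq_mul, mul_comm]
    · simp only [eval_X]
      rw [← Nat.cast_prod, ← h1]
    · intro c' h
      rw [← (mem_filter.1 h).2]
  · intro c hc
    simp only [mem_filter, mem_univ, true_and] at hc ⊢
    exact fun x => by rw [hc]

open Classical in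
theorem coeff_Qp (σ : Perm H) : coeff (ones I) (Qp σ I) =
    ∑ α with IsMt α, ∑ c with IsLab σ α c, EP α fun x => Cm (c x) (c (α x)) := by
  rw [Qp, coeff_sum]
  refine Finset.sum_congr rfl fun α _ => ?_
  rw [coeff_sum]
  simp only [coeff_C_mul, coeff_ones, mul_ite, mul_one, mul_zero]
  rw [← Finset.sum_filter, Finset.filter_filter]
  refine Finset.sum_congr (Finset.filter_congr fun c _ => ?_) fun _ _ => rfl
  exact ⟨fun h => (bij_iff h.1).1 h.2, fun h => ⟨Base.lab_step h, (bij_iff (Base.lab_step h)).2 h⟩⟩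

end GenFun

theorem gf (σ : Perm H) (D : ℕ) (hD : Fintype.card H = 2 * D) (G : Gm)
    (hG : ∀ (S : Type) [Fintype S] [DecidableEq S] (lam : S → MvPowerSeries I ℚ)
      (Cm : S → S → MvPowerSeries I ℚ), (∀ s, MvPowerSeries.constantCoeff (lam s) = 1) →
      (∀ s t, (lam s + lam t) * Cm s t = 1) →
      Wsum σ Cm = evO (fun k => ∑ s, (2 * Cm s s) ^ k) G) (b : I → ℕ) :
    (Sm σ b : ℚ) = 2 ^ D * MvPowerSeries.coeff (Finsupp.equivFunOnFinite.symm b)
      (coeff (ones I) (evO (fun k => ∑ i, X i * C (xs i ^ k) :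
        ℕ → MvPolynomial I (MvPowerSeries I ℚ)) G)) := by
  classical
  have hP : evO (fun k => ∑ i, X i * C (xs i ^ k) : ℕ → MvPolynomial I (MvPowerSeries I ℚ)) G =
      GenFun.Qp σ I := by
    have : CharZero (MvPowerSeries I ℚ) := algebraRat.charZero _
    have : IsDomain (MvPowerSeries I ℚ) := NoZeroDivisors.to_isDomain _
    refine MvPolynomial.funext_set (fun _ => Set.range (Nat.cast : ℕ → MvPowerSeries I ℚ))
      (fun _ => Set.infinite_range_of_injective Nat.cast_injective) fun x hx => ?_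
    choose N hN using fun i => hx i (Set.mem_univ i)
    obtain rfl : x = fun i => (N i : MvPowerSeries I ℚ) := funext fun i => (hN i).symm
    rw [GenFun.eval_Qp, hG (Σ i, Fin (N i)) (fun s => GenFun.lam s.1) (fun s t => GenFun.Cm s.1 t.1)
      (fun s => GenFun.cc_lam _) (fun s t => GenFun.lam_Cm _ _), GenFun.map_evO]
    congr 2
    funext k
    simp [GenFun.two_Cm_self, Fintype.sum_sigma]
  rw [hP, GenFun.coeff_Qp, GenFun.Sm_eq, map_sum, Finset.mul_sum]
  push_cast
  refine Finset.sum_congr rfl fun α hα => ?_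
  rw [map_sum, Finset.mul_sum]
  exact Finset.sum_congr rfl fun c _ => GenFun.ncard_T (by simpa using hα) hD c b

theorem xs_bound (κ b : I → ℕ) (hκ : ∀ i, 1 ≤ κ i) :
    0 ≤ MvPowerSeries.coeff (Finsupp.equivFunOnFinite.symm b) (∏ i, xs i ^ κ i) ∧
    (MvPowerSeries.coeff (Finsupp.equivFunOnFinite.symm b) (∏ i, xs i ^ κ i) : ℚ) *
      ∏ i, 2 / (κ i : ℝ) ≤ 4 ^ (∑ i, κ i) * ∏ i, omP (κ i) (b i) ∧
    ((∀ i, κ i ≤ b i) → 4 ^ (∑ i, κ i) * ∏ i, omM (κ i) (b i) ≤
      (MvPowerSeries.coeff (Finsupp.equivFunOnFinite.symm b) (∏ i, xs i ^ κ i) : ℚ) *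
        ∏ i, 2 / (κ i : ℝ)) := by
  have h := fun i => GenFun.y_bound (κ i) (b i) (hκ i)
  rw [GenFun.coeff_prod_xs, Rat.cast_prod, ← Finset.prod_mul_distrib,
    ← Finset.prod_pow_eq_pow_sum, ← Finset.prod_mul_distrib, ← Finset.prod_mul_distrib]
  refine ⟨Finset.prod_nonneg fun i _ => (h i).1, Finset.prod_le_prod (fun i _ => ?_)
    fun i _ => (h i).2.1, fun hb => Finset.prod_le_prod (fun i _ => ?_)
    fun i _ => (h i).2.2 (hb i)⟩
  · exact mul_nonneg (by exact_mod_cast (h i).1) (by positivity)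
  · have : (0 : ℝ) ≤ (b i : ℝ) - κ i := sub_nonneg.2 (by exact_mod_cast hb i)
    unfold omM
    positivity

end Pool.Agent.STS.QF
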