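import Pool.Agent.P.MP_bb7f8f_gt.Core
import Pool.Agent.P.MP_bb7f8f_gt.Face
import Pool.Agent.P.MP_bb7f8f_gt.GenFunB

/-! The smoothed count of metric ribbon graphs as a sum over strict partitions. -/

namespace Pool.Agent.STS
open Equiv Finset Filter

variable {H J I : Type} [Fintype H] [DecidableEq H] [Fintype J] [DecidableEq J]
  [Fintype I] [DecidableEq I] {σ : Perm H} {π : H → J} {v : J → ℕ} {D : ℕ}

set_option linter.unusedSectionVars false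

theorem Cyc.card_eq (hc : Cyc σ π v) : Fintype.card H = ∑ j, v j := by
  rw [← Finset.card_univ, Finset.card_eq_sum_card_fiberwise (f := π) (t := univ) (by simp)]
  exact Finset.sum_congr rfl fun j _ => hc.card j

theorem omP_nonneg (k b : ℕ) : 0 ≤ omP k b := by unfold omP; positivity

theorem cyl_nonneg (a b : ℕ) : 0 ≤ cyl a b := by unfold cyl; positivity

theorem DF_pos (A : Finset ℕ) : 0 < DF A :=
  Finset.prod_pos fun R _ => by exact_mod_cast Nat.doubleFactorial_pos _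

theorem mem_SP {A : Finset ℕ} (hA : A ∈ SP D) : (∀ R ∈ A, 1 ≤ R) ∧ ∑ R ∈ A, R = D := by
  simp only [SP, mem_filter, mem_powerset] at hA
  exact ⟨fun R hR => (mem_Icc.1 (hA.1 hR)).1, hA.2⟩

theorem kap_nonneg (V : Finset J) {A : Finset ℕ} (hA : A ∈ SP D) {u : ℕ → ℝ}
    (hu : ∀ R, 1 ≤ R → 0 < u R) : 0 ≤ kap V v A u := by
  have h := fun R hR => (hu R ((mem_SP hA).1 R hR)).le
  unfold kap
  refine mul_nonneg (mul_nonneg (mul_nonneg (by positivity) ?_) ?_) ?_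
  · exact Finset.prod_nonneg fun R _ => by positivity
  · exact Finset.prod_nonneg fun R hR => pow_nonneg (inv_nonneg.2 (h R hR)) _
  · exact Finset.prod_nonneg fun j _ => Finset.sum_nonneg fun R hR => pow_nonneg (h R hR) _

theorem SP_sup_le {A : Finset ℕ} (hA : A ∈ SP D) : A.sup id ≤ D :=
  Finset.sup_le fun R hR => (mem_SP hA).2 ▸ Finset.single_le_sum (f := fun R => R)
    (fun _ _ => Nat.zero_le _) hR

theorem SP_card_pos {A : Finset ℕ} (hA : A ∈ SP D) (hD : 1 ≤ D) : 1 ≤ #A := by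
  rcases A.eq_empty_or_nonempty with rfl | h
  · have := (mem_SP hA).2; simp at this; omega
  · exact h.card_pos

theorem single_mem_SP (hD : 1 ≤ D) : {D} ∈ SP D := by simp [SP, hD]

theorem mem_OT {κ : I → ℕ} (h : κ ∈ OT I D) : (∀ i, κ i ≤ D) ∧ (∀ i, 1 ≤ κ i) ∧ ∑ i, κ i = D := by
  simp only [OT, mem_filter, Fintype.mem_piFinset, mem_range] at h
  exact ⟨fun i => Nat.lt_succ_iff.1 (h.1 i), fun i => (h.2.1 i).pos, h.2.2⟩

/-- the statement provided by `formula` -/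
def FormulaAt (τ₀ τ₁ C : ℝ) : Prop :=
    ∀ (H J I : Type) [Fintype H] [DecidableEq H] [Fintype J] [DecidableEq J]
      [Fintype I] [DecidableEq I] (σ : Perm H) (π : H → J) (v : J → ℕ) (_ : Cyc σ π v) (D : ℕ)
      (_ : Fintype.card H = 2 * D) (_ : 1 ≤ D) (b : I → ℕ), ∃ S : Finset ℕ → ℝ,
      (Sm σ b : ℝ) = 4 ^ D * ∑ A ∈ SP D, S A ∧
      (∀ A ∈ SP D, ∀ u : ℕ → ℝ, (∀ R, 1 ≤ R → 0 < u R) →
        |S A| ≤ kap univ v A u * DF A * C ^ (#A ^ 2) * τ₀⁻¹ ^ (D - A.sup id) *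
          ∑ κ ∈ OT I D, ∏ i, (omP (κ i) (b i) * (1 + ((#A - 1 : ℕ) : ℝ) * τ₁ ^ κ i)) ∧
        |S A| ≤ kap univ v A u * DF A * C ^ (#A ^ 2) * τ₀⁻¹ ^ D *
          ∑ κ ∈ OT I D, ∏ i, (omP (κ i) (b i) * (#A * τ₁ ^ κ i))) ∧
      ((∀ i, D ≤ b i) → DF {D} / 2 * ∑ κ ∈ OT I D, ∏ i, omM (κ i) (b i) ≤ S {D})

theorem sl_sum {A : Finset ℕ} (hA : A ∈ SP D) : (QF.sl A).sum = D := by
  rw [QF.sl, ((Finset.sort_perm_toList A _).map _).sum_eq, Finset.sum_map_toList, ← (mem_SP hA).2]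
  push_cast; rfl

theorem formula_aux (b : I → ℕ) (g K E : ℝ) (a : (I → ℕ) → ℝ) (T : ℕ → ℝ) (hT : ∀ k, 0 ≤ T k)
    (hE : 0 ≤ E) (hg : |g| ≤ K / 2 ^ D)
    (ha : ∀ κ ∈ OT I D, |a κ| ≤ E * ∏ i, (2 / (κ i : ℝ) * T (κ i))) :
    |2 ^ D / 4 ^ D * (g * ∑ κ ∈ OT I D, a κ * (MvPowerSeries.coeff
      (Finsupp.equivFunOnFinite.symm b) (∏ i, QF.xs i ^ κ i) : ℚ))| ≤
      K * E * ∑ κ ∈ OT I D, ∏ i, (omP (κ i) (b i) * T (κ i)) := by
  have h1 : |∑ κ ∈ OT I D, a κ * (MvPowerSeries.coeff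
      (Finsupp.equivFunOnFinite.symm b) (∏ i, QF.xs i ^ κ i) : ℚ)| ≤
      E * 4 ^ D * ∑ κ ∈ OT I D, ∏ i, (omP (κ i) (b i) * T (κ i)) := by
    rw [Finset.mul_sum]
    refine (Finset.abs_sum_le_sum_abs _ _).trans (Finset.sum_le_sum fun κ hκ => ?_)
    obtain ⟨x0, x1, -⟩ := QF.xs_bound κ b (mem_OT hκ).2.1
    rw [(mem_OT hκ).2.2] at x1
    have x0' : (0 : ℝ) ≤ (MvPowerSeries.coeff
      (Finsupp.equivFunOnFinite.symm b) (∏ i, QF.xs i ^ κ i) : ℚ) := by exact_mod_cast x0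
    rw [abs_mul, abs_of_nonneg x0']
    refine (mul_le_mul_of_nonneg_right (ha κ hκ) x0').trans ?_
    have := mul_le_mul_of_nonneg_left x1
      (mul_nonneg hE (Finset.prod_nonneg fun i (_ : i ∈ univ) => hT (κ i)))
    simp only [Finset.prod_mul_distrib]
    linarith
  rw [abs_mul, abs_mul, abs_of_nonneg (by positivity)]
  refine (mul_le_mul_of_nonneg_left (mul_le_mul hg h1 (abs_nonneg _) ((abs_nonneg _).trans hg))
    (by positivity)).trans (le_of_eq ?_)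
  field_simp

theorem formula (τ₀ τ₁ : ℝ) (h0 : 0 < τ₀) (h01 : τ₀ < τ₁) (h1 : τ₁ < 1) :
    ∃ C : ℝ, 1 ≤ C ∧ FormulaAt τ₀ τ₁ C := by
  obtain ⟨C, hC, hf⟩ := QF.face_bound τ₀ τ₁ h0 h01 h1
  refine ⟨C, hC, fun H J I _ _ _ _ _ _ σ π v hc D hD hD1 b => ?_⟩
  obtain ⟨γ, hγ, hb, hm⟩ := QF.decomp v hc.odd D (by rw [← hc.card_eq, hD]) hD1
  have hτ : 0 ≤ τ₁ := (h0.trans h01).le
  have hτ0 : 0 ≤ τ₀⁻¹ := inv_nonneg.2 h0.le
  refine ⟨fun A => 2 ^ D / 4 ^ D * ((γ A : ℝ) * ∑ κ ∈ OT I D,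
    ((MvPolynomial.constantCoeff (QF.ddI κ (QF.Q (QF.sl A))) : ℚ) : ℝ) * (MvPowerSeries.coeff
      (Finsupp.equivFunOnFinite.symm b) (∏ i, QF.xs i ^ κ i) : ℚ)), ?_, fun A hA u hu => ⟨?_, ?_⟩,
      fun hb => ?_⟩
  · have h := QF.gf σ D hD _ (fun S _ _ lam Cm a1 a2 => QF.core hc _ γ hγ S lam Cm a1 a2) b
    rw [map_sum, MvPolynomial.coeff_sum, map_sum] at h
    rw [Finset.sum_congr rfl fun A hA => by
      rw [map_smul, MvPolynomial.coeff_smul, QF.multilin _ _ D (sl_sum hA), map_smul, map_sum]] at h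
    simp only [map_smul, smul_eq_mul] at h
    have h2 := congrArg (Rat.cast : ℚ → ℝ) h
    push_cast at h2
    rw [h2, ← Finset.mul_sum]
    field_simp
  · refine (formula_aux b _ _ _ _ (fun k => 1 + ((#A - 1 : ℕ) : ℝ) * τ₁ ^ k) (fun _ => by positivity)
      (by positivity) (hb A hA u hu) fun κ hκ => (hf D A hA I κ hκ).1).trans (le_of_eq ?_)
    ring
  · refine (formula_aux b _ _ _ _ (fun k => (#A : ℝ) * τ₁ ^ k) (fun _ => by positivity)
      (by positivity) (hb A hA u hu) fun κ hκ => (hf D A hA I κ hκ).2).trans (le_of_eq ?_)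
    ring
  · have h1 : 4 ^ D * ∑ κ ∈ OT I D, ∏ i, omM (κ i) (b i) ≤ ∑ κ ∈ OT I D,
        ((MvPolynomial.constantCoeff (QF.ddI κ (QF.Q (QF.sl {D}))) : ℚ) : ℝ) * (MvPowerSeries.coeff
        (Finsupp.equivFunOnFinite.symm b) (∏ i, QF.xs i ^ κ i) : ℚ) := by
      rw [Finset.mul_sum]
      refine Finset.sum_le_sum fun κ hκ => ?_
      have := (QF.xs_bound κ b (mem_OT hκ).2.1).2.2 fun i => ((mem_OT hκ).1 i).trans (hb i)
      rw [(mem_OT hκ).2.2] at this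
      rw [QF.face_main D κ hκ]
      push_cast
      linarith
    have h2 := DF_pos {D}
    beta_reduce
    rw [hm]
    refine le_trans (le_of_eq ?_) (mul_le_mul_of_nonneg_left
      (mul_le_mul_of_nonneg_left h1 (by positivity)) (by positivity))
    field_simp
    ring

end Pool.Agent.STS
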