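import Pool.Agent.P.MP_bb7f8f_gt.CMid

/-! Harish-Chandra radial part, first half: Vandermonde identities and Ward identities. -/

namespace Pool.Agent.STS.QF.HC
open MvPolynomial Finset Equiv

variable {n : ℕ}

/-- differentiation of power series -/
noncomputable abbrev D (i : Fin n) : Derivation ℚ (Sr n) (Sr n) := MvPowerSeries.pderiv ℚ i

noncomputable abbrev x (i : Fin n) : Sr n := MvPowerSeries.X i

lemma D_x (i j : Fin n) : D i (x j) = if j = i then 1 else 0 := by
  by_cases h : j = i
  · subst h; simp [D, x, MvPowerSeries.pderiv_X_self]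
  · simp [D, x, MvPowerSeries.pderiv_X_of_ne h, h]

lemma D_comm (i j : Fin n) (Y : Sr n) : D i (D j Y) = D j (D i Y) := by
  by_cases h : i = j
  · rw [h]
  ext κ
  simp only [D, MvPowerSeries.coeff_pderiv, Finsupp.add_apply, Finsupp.single_eq_of_ne h,
    Finsupp.single_eq_of_ne (Ne.symm h), add_zero]
  rw [add_right_comm]; ring

/-! ### logarithmic derivatives in the fraction field -/

section logd
variable {R K : Type} [CommRing R] [Algebra ℚ R] [Field K] (ι : R →+* K)
  (δ : Derivation ℚ R R) {P : Type} (f : P → R)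

lemma logd (s : Finset P) (hf : ∀ p ∈ s, ι (f p) ≠ 0) (h2 : ∀ p, δ (δ (f p)) = 0) :
    ι (δ (∏ p ∈ s, f p)) = ι (∏ p ∈ s, f p) * ∑ p ∈ s, ι (δ (f p)) / ι (f p) ∧
    ι (δ (δ (∏ p ∈ s, f p))) = ι (∏ p ∈ s, f p) *
      ((∑ p ∈ s, ι (δ (f p)) / ι (f p)) ^ 2 - ∑ p ∈ s, (ι (δ (f p)) / ι (f p)) ^ 2) := by
  classical
  induction s using Finset.induction_on with
  | empty => simp
  | insert p s hp ih =>
    obtain ⟨h1, h3⟩ := ih fun q hq => hf q (mem_insert_of_mem hq)
    have h0 := hf p (mem_insert_self _ _)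
    simp only [Finset.prod_insert hp, Finset.sum_insert hp, Derivation.leibniz, smul_eq_mul,
      map_add, map_mul, h2, h1, h3, map_zero]
    constructor <;> field_simp <;> ring

end logd

lemma sum_pairs {K : Type} [AddCommMonoid K] (i : Fin n) (g : Fin n → K) (h0 : g i = 0) :
    ∑ p ∈ (univ : Finset (Fin n)).sigma fun a => Ioi a,
      ((if p.2 = i then g p.1 else 0) + if p.1 = i then g p.2 else 0) = ∑ k, g k := by
  rw [Finset.sum_sigma]
  simp only [Finset.sum_add_distrib, Finset.sum_ite_eq', mem_Ioi]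
  have h1 : ∀ a : Fin n, (∑ b ∈ Ioi a, if a = i then g b else 0) =
      if a = i then ∑ b ∈ Ioi a, g b else 0 := fun a => by split_ifs <;> simp
  simp only [h1, Finset.sum_ite_eq', mem_univ, if_true]
  have h2 : ∑ b ∈ Ioi i, g b = ∑ b, if i < b then g b else 0 := by
    rw [← Finset.sum_filter]; congr 1; ext b; simp
  rw [h2, ← Finset.sum_add_distrib]
  refine Finset.sum_congr rfl fun k _ => ?_
  rcases lt_trichotomy k i with h | h | h
  · simp [h, h.not_gt]
  · simp [h, h0]
  · simp [h, h.not_gt]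

abbrev KK (n : ℕ) := FractionRing (Sr n)

noncomputable abbrev io' : Sr n →+* KK n := algebraMap _ _

lemma io_inj : Function.Injective (io' (n := n)) := IsFractionRing.injective _ _

lemma charS : CharZero (Sr n) := algebraRat.charZero _

lemma charZ : CharZero (KK n) :=
  have := charS (n := n)
  charZero_of_injective_ringHom io_inj

lemma x_ne {i k : Fin n} (h : i ≠ k) : io' (x i) - io' (x k) ≠ 0 := by
  rw [← map_sub]
  intro h0
  have h1 : x i - x k = 0 := io_inj (by rw [h0, map_zero])
  have h2 := congrArg (D i) h1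
  simp [h.symm] at h2

noncomputable def r (i k : Fin n) : KK n := (io' (x i) - io' (x k))⁻¹

lemma r_self (i : Fin n) : r i i = 0 := by simp [r]

lemma r_anti (i k : Fin n) : r k i = - r i k := by
  unfold r; rw [← neg_sub, inv_neg]

noncomputable abbrev V (n : ℕ) : Sr n := Vd MvPowerSeries.X

lemma D_V (i : Fin n) : io' (D i (V n)) = io' (V n) * ∑ k, r i k ∧
    io' (D i (D i (V n))) = io' (V n) * ((∑ k, r i k) ^ 2 - ∑ k, r i k ^ 2) := by
  have hV : V n = ∏ p ∈ (univ : Finset (Fin n)).sigma fun a => Ioi a, (x p.2 - x p.1) := by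
    rw [Finset.prod_sigma]; rfl
  have h := logd (io' (n := n)) (D i) (fun p : (Σ _ : Fin n, Fin n) => x p.2 - x p.1)
    ((univ : Finset (Fin n)).sigma fun a => Ioi a)
    (fun p hp => by
      rw [map_sub]; exact x_ne (mem_Ioi.1 (mem_sigma.1 hp).2).ne')
    (fun p => by
      simp only [map_sub, D_x]
      split_ifs <;> simp)
  have key : ∀ (F : KK n → KK n), F 0 = 0 →
      ∑ p ∈ (univ : Finset (Fin n)).sigma fun a => Ioi a,
        F (io' (D i (x p.2 - x p.1)) / io' (x p.2 - x p.1)) = ∑ k, F (r i k) := by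
    intro F hF
    rw [← sum_pairs i (fun k => F (r i k)) (by rw [r_self, hF])]
    refine Finset.sum_congr rfl fun p hp => ?_
    have hlt := mem_Ioi.1 (mem_sigma.1 hp).2
    simp only [map_sub, D_x]
    by_cases h1 : p.2 = i
    · have h2 : p.1 ≠ i := by rw [← h1]; exact hlt.ne
      simp [h1, h2, r]
    · by_cases h2 : p.1 = i
      · simp only [h1, h2, if_true, if_false, map_zero, map_one, zero_sub, zero_add]
        rw [r_anti, r, neg_div, one_div]
      · simp [h1, h2, hF]
  rw [← hV, key (fun y => y) rfl, key (fun y => y ^ 2) (by simp)] at h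
  exact h

lemma sum_r : ∑ i : Fin n, ∑ k, r i k = 0 := by
  have h : ∑ i : Fin n, ∑ k, r i k = - ∑ i : Fin n, ∑ k, r i k := by
    conv_lhs => rw [Finset.sum_comm]
    simp only [← Finset.sum_neg_distrib]
    exact Finset.sum_congr rfl fun i _ => Finset.sum_congr rfl fun k _ => r_anti _ _
  have : CharZero (KK n) := charZ
  linear_combination (1 / 2 : KK n) * h

lemma sum_D_V : ∑ i, D i (V n) = 0 := by
  apply io_inj
  simp only [map_sum, (D_V _).1, ← Finset.mul_sum, sum_r, mul_zero, map_zero]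

lemma sum_DD_V : ∑ i, x i * D i (D i (V n)) = 0 := by
  apply io_inj
  have : CharZero (KK n) := charZ
  let T : Fin n → Fin n → Fin n → KK n := fun i k l =>
    if k = l then 0 else io' (x i) * r i k * r i l
  have h1 : ∀ i : Fin n, io' (x i) * ((∑ k, r i k) ^ 2 - ∑ k, r i k ^ 2) =
      ∑ k, ∑ l, T i k l := fun i => by
    rw [sq, Finset.sum_mul_sum, ← Finset.sum_sub_distrib, Finset.mul_sum]
    refine Finset.sum_congr rfl fun k _ => ?_
    rw [← Finset.add_sum_erase _ _ (mem_univ k), ← Finset.add_sum_erase _ (T i k) (mem_univ k),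
      sq, add_sub_cancel_left, Finset.mul_sum]
    simp only [T, if_true, zero_add]
    refine Finset.sum_congr rfl fun l hl => ?_
    rw [if_neg (ne_of_mem_erase hl).symm, mul_assoc]
  have h2 : ∀ i k l, T i k l + T k l i + T l i k = 0 := fun i k l => by
    by_cases a : k = l
    · subst a; simp [T, r_self]
    by_cases b : l = i
    · subst b; simp [T, r_self]
    by_cases c : i = k
    · subst c; simp [T, r_self]
    simp only [T, a, b, c, if_false, r]
    have := x_ne a
    have := x_ne b
    have := x_ne c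
    have := x_ne (Ne.symm a)
    have := x_ne (Ne.symm b)
    have := x_ne (Ne.symm c)
    field_simp
    ring
  have h3 : ∑ i, ∑ k, ∑ l, T k l i = ∑ i, ∑ k, ∑ l, T i k l := by
    rw [Finset.sum_comm]
    exact Finset.sum_congr rfl fun k _ => Finset.sum_comm
  have h4 : ∑ i, ∑ k, ∑ l, T l i k = ∑ i, ∑ k, ∑ l, T i k l := by
    symm
    rw [Finset.sum_comm]
    exact Finset.sum_congr rfl fun k _ => Finset.sum_comm
  have h5 : ∑ i, ∑ k, ∑ l, (T i k l + T k l i + T l i k) = 0 := by simp [h2]
  simp only [Finset.sum_add_distrib, h3, h4] at h5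
  have h6 : ∑ i, ∑ k, ∑ l, T i k l = 0 := by linear_combination (1 / 3 : KK n) * h5
  simp only [map_sum, map_mul, (D_V _).2, mul_left_comm _ (io' (V n)), h1, ← Finset.mul_sum, h6,
    mul_zero, map_zero]

/-- the radial operator -/
noncomputable def e (Y : Sr n) : Sr n :=
  ∑ i, x i * D i (D i Y) - ((n : Sr n) - 1) * ∑ i, D i Y

lemma radial (Ψ : Sr n) (W : Fin n → Fin n → Sr n) (hd : ∀ i, W i i = D i (D i Ψ))
    (hW : ∀ i k, (x i - x k) * W i k = D i Ψ - D k Ψ) :
    V n * ∑ i, x i * ∑ k, W i k = e (V n * Ψ) := by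
  have h1 : e (V n * Ψ) = V n * ∑ i, x i * D i (D i Ψ) + 2 * ∑ i, x i * D i (V n) * D i Ψ -
      ((n : Sr n) - 1) * V n * ∑ i, D i Ψ +
      Ψ * (∑ i, x i * D i (D i (V n)) - ((n : Sr n) - 1) * ∑ i, D i (V n)) := by
    simp only [e, Derivation.leibniz, smul_eq_mul, map_add, mul_add, Finset.sum_add_distrib,
      Finset.mul_sum, mul_sub]
    have a1 : ∑ i, 2 * (x i * D i (V n) * D i Ψ) =
        ∑ i, x i * (D i Ψ * D i (V n)) + ∑ i, x i * (D i (V n) * D i Ψ) := by
      rw [← Finset.sum_add_distrib]; exact Finset.sum_congr rfl fun i _ => by ring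
    have a2 : ∑ i, V n * (x i * D i (D i Ψ)) = ∑ i, x i * (V n * D i (D i Ψ)) :=
      Finset.sum_congr rfl fun i _ => by ring
    have a3 : ∑ i, Ψ * (x i * D i (D i (V n))) = ∑ i, x i * (Ψ * D i (D i (V n))) :=
      Finset.sum_congr rfl fun i _ => by ring
    have a4 : ∑ i, ((n : Sr n) - 1) * V n * D i Ψ = ∑ i, ((n : Sr n) - 1) * (V n * D i Ψ) :=
      Finset.sum_congr rfl fun i _ => by ring
    have a5 : ∑ i, Ψ * (((n : Sr n) - 1) * D i (V n)) =
        ∑ i, ((n : Sr n) - 1) * (Ψ * D i (V n)) := Finset.sum_congr rfl fun i _ => by ring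
    rw [a1, a2, a3, a4, a5]; ring
  rw [h1, sum_D_V, sum_DD_V]
  apply io_inj
  let y : Fin n → KK n := fun i => io' (D i Ψ)
  have h2 : ∀ i k, io' (W i k) = (if k = i then io' (D i (D i Ψ)) else 0) +
      r i k * (y i - y k) := fun i k => by
    by_cases h : k = i
    · simp [h, hd, r_self]
    · have h3 := congrArg io' (hW i k)
      rw [map_mul, map_sub, map_sub] at h3
      have := x_ne (Ne.symm h)
      simp only [h, if_false, zero_add, r, y, ← h3]
      field_simp
  have h3 : ∑ i, ∑ k, io' (x i) * r i k * y k = - ∑ i, ∑ k, io' (x k) * r i k * y i := by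
    conv_lhs => rw [Finset.sum_comm]
    simp only [← Finset.sum_neg_distrib]
    exact Finset.sum_congr rfl fun i _ => Finset.sum_congr rfl fun k _ => by
      rw [r_anti]; ring
  have h4 : ∀ i : Fin n, ∑ k, (io' (x i) - io' (x k)) * r i k = (n : KK n) - 1 := fun i => by
    rw [← Finset.add_sum_erase _ _ (mem_univ i), r_self, mul_zero, zero_add,
      Finset.sum_congr (f := fun k => (io' (x i) - io' (x k)) * r i k) rfl
        (g := fun _ => (1 : KK n)) fun k hk => mul_inv_cancel₀ (x_ne (ne_of_mem_erase hk).symm)]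
    have : 1 ≤ n := i.pos
    simp [Finset.card_erase_of_mem, Nat.cast_sub this]
  have h5 : ∑ i, ∑ k, io' (x i) * r i k * y i - ∑ i, ∑ k, io' (x k) * r i k * y i =
      ((n : KK n) - 1) * ∑ i, y i := by
    rw [← Finset.sum_sub_distrib, Finset.mul_sum]
    refine Finset.sum_congr rfl fun i _ => ?_
    rw [← h4 i, Finset.sum_mul, ← Finset.sum_sub_distrib]
    exact Finset.sum_congr rfl fun k _ => by ring
  have h6 : ∑ i, io' (x i) * ∑ k, io' (W i k) = ∑ i, io' (x i) * io' (D i (D i Ψ)) +
      (∑ i, ∑ k, io' (x i) * r i k * y i - ∑ i, ∑ k, io' (x i) * r i k * y k) := by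
    rw [← Finset.sum_sub_distrib, ← Finset.sum_add_distrib]
    refine Finset.sum_congr rfl fun i _ => ?_
    simp only [h2, Finset.sum_add_distrib, Finset.sum_ite_eq', mem_univ, if_true, mul_add]
    rw [← Finset.sum_sub_distrib, Finset.mul_sum]
    congr 1
    exact Finset.sum_congr rfl fun k _ => by ring
  have h7 : ∑ i, io' (x i) * io' (D i (V n)) * io' (D i Ψ) =
      io' (V n) * ∑ i, ∑ k, io' (x i) * r i k * y i := by
    rw [Finset.mul_sum]
    refine Finset.sum_congr rfl fun i _ => ?_
    rw [(D_V i).1, ← Finset.sum_mul, ← Finset.mul_sum]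
    simp only [y]; ring
  simp only [map_mul, map_sum, map_add, map_sub, map_natCast, map_one, map_ofNat, map_zero]
  rw [h6, h7, h3]
  have h8 : ∑ i, io' (D i Ψ) = ∑ i, y i := rfl
  rw [h8]
  linear_combination (-io' (V n)) * h5

/-- power sums of the derivatives -/
noncomputable def pD (j : ℕ) (Y : Sr n) : Sr n := ∑ i, (D i)^[j] Y

lemma it_add (i : Fin n) (j : ℕ) (Y Z : Sr n) :
    (D i)^[j] (Y + Z) = (D i)^[j] Y + (D i)^[j] Z := by
  induction j with
  | zero => rfl
  | succ j ih => simp only [Function.iterate_succ_apply', ih, map_add]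

lemma it_sub (i : Fin n) (j : ℕ) (Y Z : Sr n) :
    (D i)^[j] (Y - Z) = (D i)^[j] Y - (D i)^[j] Z := by
  induction j with
  | zero => rfl
  | succ j ih => simp only [Function.iterate_succ_apply', ih, map_sub]

lemma it_sum (i : Fin n) (j : ℕ) (Y : Fin n → Sr n) :
    (D i)^[j] (∑ l, Y l) = ∑ l, (D i)^[j] (Y l) := by
  induction j with
  | zero => rfl
  | succ j ih => simp only [Function.iterate_succ_apply', ih, map_sum]

lemma it_D (i l : Fin n) (j : ℕ) (Y : Sr n) : (D i)^[j] (D l Y) = D l ((D i)^[j] Y) := by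
  induction j with
  | zero => rfl
  | succ j ih => simp only [Function.iterate_succ_apply', ih, D_comm i l]

lemma it_const (i : Fin n) (j : ℕ) (Y : Sr n) :
    (D i)^[j] (((n : Sr n) - 1) * Y) = ((n : Sr n) - 1) * (D i)^[j] Y := by
  induction j with
  | zero => rfl
  | succ j ih => simp [Function.iterate_succ_apply', ih]

lemma it_x (i l : Fin n) (j : ℕ) (Y : Sr n) : (D i)^[j + 1] (x l * Y) =
    x l * (D i)^[j + 1] Y + if l = i then ((j : Sr n) + 1) * (D i)^[j] Y else 0 := by
  induction j with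
  | zero =>
    simp only [zero_add, Function.iterate_one, Derivation.leibniz, smul_eq_mul, D_x]
    split_ifs <;> simp
  | succ j ih =>
    rw [Function.iterate_succ_apply', ih, Function.iterate_succ_apply' _ (j + 1),
      Function.iterate_succ_apply' _ j]
    simp only [map_add, Derivation.leibniz, smul_eq_mul, D_x]
    split_ifs
    · simp; ring
    · simp

lemma pD_e (j : ℕ) (Y : Sr n) :
    pD (j + 1) (e Y) = e (pD (j + 1) Y) + ((j : Sr n) + 1) * pD (j + 2) Y := by
  simp only [pD, e, it_sub, it_const, it_sum, it_x, it_D, map_sum, Finset.sum_sub_distrib,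
    Finset.sum_add_distrib, Finset.sum_ite_eq', mem_univ, if_true, Finset.mul_sum]
  rw [Finset.sum_comm (f := fun i l => x l * D l (D l ((D i)^[j + 1] Y))),
    Finset.sum_comm (f := fun i l => ((n : Sr n) - 1) * D l ((D i)^[j + 1] Y))]
  simp only [Function.iterate_succ_apply']
  ring

end Pool.Agent.STS.QF.HC
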