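import Pool.Agent.P.MP_bb7f8f_gt.Mid

/-!
Row LU, first file: the lattice of face sums, good parity vectors, invariant vertex sets.
-/

namespace Pool.Agent.STS
open Equiv Finset Filter

variable {H J I : Type} [Fintype H] [DecidableEq H] [Fintype J] [DecidableEq J]
  [Fintype I] [DecidableEq I] {σ : Perm H} {π : H → J} {v : J → ℕ} {D : ℕ}

namespace LatUp

/-- `V` is a union of connected components -/
def Inv (π : H → J) (α : Perm H) (V : Finset J) : Prop := ∀ x, π (α x) ∈ V ↔ π x ∈ V

/-- `ε` has even sum on every union of components -/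
def Good (π : H → J) (α : Perm H) (ε : H → Bool) : Prop :=
  ∀ V, Inv π α V → Even (∑ x with π x ∈ V, (ε x).toNat)

omit [DecidableEq H] [Fintype J] in
theorem pi_sigma (hc : Cyc σ π v) (x : H) : π (σ x) = π x :=
  (hc.same (σ x) x).2 (Equiv.Perm.sameCycle_apply_left.2 (Equiv.Perm.SameCycle.refl _ _))

omit [Fintype H] [DecidableEq H] [Fintype I] [DecidableEq I] in
theorem c_sigma {α : Perm H} {c : H → I} (hl : IsLab σ α c) (hα : IsMt α) (x : H) :
    c (σ x) = c (α x) := by
  rw [hl.1]
  have : σ x = (σ * α) (α x) := by simp [(hα x).1]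
  rw [this]
  exact Equiv.Perm.sameCycle_apply_left.2 (Equiv.Perm.SameCycle.refl _ _)

omit [DecidableEq H] [Fintype J] in
theorem pow_v (hc : Cyc σ π v) (x : H) : (σ ^ v (π x)) x = x := by
  have h : σ.IsCycleOn (↑({y | π y = π x} : Finset H) : Set H) := by
    refine ⟨⟨fun y hy => ?_, σ.injective.injOn, fun y hy => ⟨σ⁻¹ y, ?_, by simp⟩⟩,
      fun y hy z hz => ?_⟩
    · simp only [coe_filter, mem_univ, true_and, Set.mem_ofPred_eq] at hy ⊢
      rw [pi_sigma hc, hy]
    · simp only [coe_filter, mem_univ, true_and, Set.mem_ofPred_eq] at hy ⊢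
      rw [← pi_sigma hc, ← hy]
      simp
    · simp only [coe_filter, mem_univ, true_and, Set.mem_ofPred_eq] at hy hz
      exact (hc.same y z).1 (hy.trans hz.symm)
  have := h.pow_card_apply (a := x) (by simp)
  rwa [hc.card] at this

/-- the lattice of face sums of invariant integer functions -/
def Lam (α : Perm H) (c : H → I) : AddSubgroup (I → ℤ) where
  carrier := {y | ∃ u : H → ℤ, (∀ x, u (α x) = u x) ∧ ∀ i, ∑ x with c x = i, u x = y i}
  add_mem' := by
    rintro a b ⟨u, hu, hu'⟩ ⟨u', hv, hv'⟩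
    exact ⟨fun x => u x + u' x, fun x => by simp [hu x, hv x], fun i => by
      simp [Finset.sum_add_distrib, hu' i, hv' i]⟩
  zero_mem' := ⟨fun _ => 0, fun _ => rfl, fun i => by simp⟩
  neg_mem' := by
    rintro a ⟨u, hu, hu'⟩
    exact ⟨fun x => - u x, fun x => by simp [hu x], fun i => by
      simp [Finset.sum_neg_distrib, hu' i]⟩

omit [Fintype I] in
theorem shift (hc : Cyc σ π v) {α : Perm H} {c : H → I} (hl : IsLab σ α c) (hα : IsMt α)
    {ε : H → Bool} (hε : Good π α ε) : ∃ u : H → ℤ, (∀ x, u (α x) = u x) ∧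
      ∀ i, ∑ x with c x = i, u x = ∑ x with c x = i, ((ε x).toNat : ℤ) := by
  classical
  let r : H → (I → ℤ) ⧸ Lam α c := fun x => QuotientAddGroup.mk (Pi.single (c x) 1)
  have h1 : ∀ x, r (α x) = - r x := by
    intro x
    rw [eq_neg_iff_add_eq_zero]
    change QuotientAddGroup.mk (Pi.single (c (α x)) 1 + Pi.single (c x) 1) =
      (0 : (I → ℤ) ⧸ Lam α c)
    rw [QuotientAddGroup.eq_zero_iff]
    refine ⟨fun y => (if y = α x then 1 else 0) + (if y = x then 1 else 0), fun y => ?_,
      fun i => ?_⟩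
    · have e1 : α y = α x ↔ y = x := α.injective.eq_iff
      have e2 : α y = x ↔ y = α x := ⟨fun h => by rw [← h, (hα y).1], fun h => by
        rw [h, (hα x).1]⟩
      simp only [e1, e2]
      ring
    · simp [Finset.sum_add_distrib, Pi.single_apply, eq_comm]
  have h2 : ∀ x, r (σ x) = - r x := by
    intro x
    rw [← h1]
    simp only [r, c_sigma hl hα]
  have h3 : ∀ (n : ℕ) x, r ((σ ^ n) x) = (-1 : ℤ) ^ n • r x := by
    intro n
    induction n with
    | zero => simp
    | succ n ih =>
      intro x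
      rw [pow_succ', Perm.mul_apply, h2, ih, pow_succ']
      simp
  have h4 : ∀ x, - r x = r x := by
    intro x
    have := h3 (v (π x)) x
    rw [pow_v hc, (hc.odd _).neg_one_pow] at this
    simpa using this.symm
  have h5 : ∀ x y, π x = π y → r x = r y := by
    intro x y hxy
    obtain ⟨n, -, hn⟩ := ((hc.same x y).1 hxy).exists_pow_eq'
    rw [← hn, h3]
    rcases neg_one_pow_eq_or ℤ n with h | h <;> simp [h, h4]
  have h6 : ∀ q, Even (∑ x with r x = q, (ε x).toNat) := by
    intro q
    have hm : ∀ x, π x ∈ ({j | ∃ y, π y = j ∧ r y = q} : Finset J) ↔ r x = q := by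
      intro x
      simp only [mem_filter, mem_univ, true_and]
      exact ⟨fun ⟨y, hy, hy'⟩ => (h5 x y hy.symm).trans hy', fun h => ⟨x, rfl, h⟩⟩
    have := hε {j | ∃ y, π y = j ∧ r y = q} fun x => by rw [hm, hm, h1, h4]
    simpa only [hm] using this
  have h7 : (fun i => ∑ x with c x = i, ((ε x).toNat : ℤ)) ∈ Lam α c := by
    rw [← QuotientAddGroup.eq_zero_iff]
    have e1 : (fun i => ∑ x with c x = i, ((ε x).toNat : ℤ)) =
        ∑ x, (ε x).toNat • (Pi.single (c x) 1 : I → ℤ) := by
      funext i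
      simp [Finset.sum_apply, Pi.single_apply, Finset.sum_filter, eq_comm]
    rw [e1]
    change QuotientAddGroup.mk' (Lam α c) _ = 0
    rw [map_sum]
    simp only [map_nsmul, QuotientAddGroup.mk'_apply]
    change ∑ x, (ε x).toNat • r x = 0
    rw [← Finset.sum_fiberwise_of_maps_to (s := univ) (t := univ.image r) (g := r)
      fun x _ => mem_image_of_mem _ (mem_univ x)]
    refine Finset.sum_eq_zero fun q hq => ?_
    obtain ⟨x₀, -, rfl⟩ := mem_image.1 hq
    rw [Finset.sum_congr rfl (g := fun x => (ε x).toNat • r x₀) fun x hx => by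
      rw [(mem_filter.1 hx).2], ← Finset.sum_smul]
    obtain ⟨n, hn⟩ := h6 (r x₀)
    rw [hn, add_smul, ← smul_add]
    nth_rewrite 1 [← h4 x₀]
    simp
  exact h7

/-- invariant functions mod 2 -/
def UU (π : H → J) (α : Perm H) : Submodule (ZMod 2) (J → ZMod 2) where
  carrier := {y | ∀ x, y (π (α x)) = y (π x)}
  add_mem' := fun {a b} ha hb x => by simp [ha x, hb x]
  zero_mem' := fun _ => rfl
  smul_mem' := fun r a ha x => by simp [ha x]

/-- the pairing -/
def Phi (π : H → J) (α : Perm H) : (H → ZMod 2) →ₗ[ZMod 2] Module.Dual (ZMod 2) (UU π α) :=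
  LinearMap.mk₂ (ZMod 2) (fun e y => ∑ x, y.1 (π x) * e x)
    (fun e e' y => by simp [mul_add, Finset.sum_add_distrib])
    (fun a e y => by simp [Finset.mul_sum, mul_left_comm])
    (fun e y y' => by simp [add_mul, Finset.sum_add_distrib])
    (fun a e y => by simp [Finset.mul_sum, mul_assoc])

open Classical in
theorem good_count (π : H → J) (α : Perm H) :
    2 ^ Fintype.card H ≤ #{ε : H → Bool | Good π α ε} * #{V : Finset J | Inv π α V} := by
  have z1 : ∀ a : ZMod 2, ((decide (a = 1)).toNat : ZMod 2) = a := by decide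
  have z2 : ∀ a b : ZMod 2, (a = 1 ↔ b = 1) → a = b := by decide
  have h1 : Nat.card (LinearMap.ker (Phi π α)) ≤ #{ε : H → Bool | Good π α ε} := by
    rw [← Fintype.card_coe, ← Nat.card_eq_fintype_card]
    refine Nat.card_le_card_of_injective
      (fun e => ⟨fun x => decide (e.1 x = 1), ?_⟩) fun e e' h => ?_
    · simp only [mem_filter, mem_univ, true_and]
      intro V hV
      rw [← ZMod.natCast_eq_zero_iff_even]
      have := LinearMap.congr_fun (LinearMap.mem_ker.1 e.2)
        ⟨fun j => if j ∈ V then 1 else 0, fun x => by simp only [hV x]⟩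
      simp only [Phi, LinearMap.mk₂_apply, LinearMap.zero_apply, ite_mul, one_mul,
        zero_mul] at this
      rw [Nat.cast_sum, Finset.sum_filter]
      simpa only [z1] using this
    · ext x
      have := congrFun (congrArg Subtype.val h) x
      exact z2 _ _ (by simpa using this)
  have h2 : Nat.card (UU π α) ≤ #{V : Finset J | Inv π α V} := by
    rw [← Fintype.card_coe, ← Nat.card_eq_fintype_card]
    refine Nat.card_le_card_of_injective
      (fun y => ⟨univ.filter fun j => y.1 j = 1, ?_⟩) fun y y' h => ?_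
    · simp only [mem_filter, mem_univ, true_and]
      intro x
      simp only [mem_filter, mem_univ, true_and, y.2 x]
    · ext j
      have := Finset.ext_iff.1 (congrArg Subtype.val h) j
      exact z2 _ _ (by simpa using this)
  refine le_trans ?_ (Nat.mul_le_mul h1 h2)
  rw [Module.natCard_eq_pow_finrank (K := ZMod 2), Module.natCard_eq_pow_finrank (K := ZMod 2)
    (V := UU π α), Nat.card_zmod, ← pow_add]
  refine Nat.pow_le_pow_right two_pos ?_
  have h3 := LinearMap.finrank_range_add_finrank_ker (Phi π α)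
  have h4 := Submodule.finrank_le (LinearMap.range (Phi π α))
  rw [Subspace.dual_finrank_eq] at h4
  rw [Module.finrank_fintype_fun_eq_card] at h3
  omega

omit [DecidableEq H] [Fintype J] in
theorem deg_eq (hc : Cyc σ π v) (V : Finset J) : ∑ j ∈ V, v j = #{x | π x ∈ V} := by
  rw [Finset.card_eq_sum_card_fiberwise (f := π) (t := V) fun x hx => by simpa using hx]
  refine Finset.sum_congr rfl fun j hj => ?_
  rw [← hc.card j, Finset.filter_filter]
  congr 1
  ext x
  simp only [mem_filter, mem_univ, true_and]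
  exact ⟨fun h => ⟨h ▸ hj, h⟩, fun h => h.2⟩

omit [DecidableEq H] [Fintype J] in
theorem deg_even (hc : Cyc σ π v) {α : Perm H} (hα : IsMt α) {V : Finset J} (hV : Inv π α V) :
    Even (∑ j ∈ V, v j) := by
  rw [deg_eq hc, ← ZMod.natCast_eq_zero_iff_even, Finset.card_eq_sum_ones, Nat.cast_sum]
  refine Finset.sum_involution (fun x _ => α x) (fun _ _ => by decide) (fun x _ _ => (hα x).2)
    (fun x hx => ?_) fun x _ => (hα x).1
  simp only [mem_filter, mem_univ, true_and] at hx ⊢
  exact (hV x).2 hx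

omit [Fintype H] [DecidableEq H] in
theorem Inv.compl {α : Perm H} {V : Finset J} (hV : Inv π α V) : Inv π α Vᶜ := fun x => by
  simp only [mem_compl, hV x]

/-- invariant sets of small positive degree -/
def Small (π : H → J) (v : J → ℕ) (D : ℕ) (α : Perm H) (V : Finset J) : Prop :=
  Inv π α V ∧ (∑ j ∈ V, v j) / 2 ∈ Icc 1 (D / 2) ∧ V ∈ Spl v ((∑ j ∈ V, v j) / 2)

omit [DecidableEq H] in
open Classical in
theorem inv_count (hc : Cyc σ π v) (hD : Fintype.card H = 2 * D) {α : Perm H} (hα : IsMt α)
    (hd : Disc π α) : #{V : Finset J | Inv π α V} ≤ 4 * #{V : Finset J | Small π v D α V} := by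
  set A : Finset (Finset J) := {V : Finset J | Inv π α V} with hA
  set S : Finset (Finset J) := {V : Finset J | Small π v D α V} with hS
  have htot : ∑ j, v j = 2 * D := by
    rw [deg_eq hc, ← hD]
    simp
  have key : ∀ V, Inv π α V → V.Nonempty → ∑ j ∈ V, v j ≤ D → V ∈ S := by
    intro V hV ⟨j, hj⟩ hle
    obtain ⟨n, hn⟩ := deg_even hc hα hV
    have h1 : v j ≤ ∑ j ∈ V, v j := Finset.single_le_sum (fun _ _ => Nat.zero_le _) hj
    have h2 := (hc.odd j).pos
    simp only [hS, mem_filter, mem_univ, true_and, Small, Spl, mem_Icc, mem_powerset, subset_univ]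
    exact ⟨hV, ⟨by omega, by omega⟩, by omega⟩
  have h1 : A ⊆ insert ∅ (insert univ (S ∪ S.image fun V => Vᶜ)) := by
    intro V hV
    have hV : Inv π α V := by simpa [hA] using hV
    rcases V.eq_empty_or_nonempty with h | h
    · simp [h]
    rcases Vᶜ.eq_empty_or_nonempty with h' | h'
    · simp [(compl_eq_empty_iff V).1 h']
    have := Finset.sum_add_sum_compl V v
    refine mem_insert_of_mem (mem_insert_of_mem (mem_union.2 ?_))
    by_cases hle : ∑ j ∈ V, v j ≤ D
    · exact Or.inl (key V hV h hle)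
    · exact Or.inr (mem_image.2 ⟨Vᶜ, key _ hV.compl h' (by omega), compl_compl V⟩)
  have h2 : 1 ≤ #S := by
    obtain ⟨V, h, ⟨j, hj⟩, hV⟩ := hd
    have := Finset.sum_add_sum_compl V v
    rw [Nat.succ_le_iff, card_pos]
    by_cases hle : ∑ j ∈ V, v j ≤ D
    · exact ⟨V, key V hV h hle⟩
    · exact ⟨Vᶜ, key _ (Inv.compl hV) ⟨j, mem_compl.2 hj⟩ (by omega)⟩
  have h3 := Finset.card_le_card h1
  have h4 := Finset.card_insert_le ∅ (insert univ (S ∪ S.image fun V => Vᶜ))
  have h5 := Finset.card_insert_le univ (S ∪ S.image fun V => Vᶜ)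
  have h6 := Finset.card_union_le S (S.image fun V => Vᶜ)
  have h7 := Finset.card_image_le (s := S) (f := fun V => Vᶜ)
  omega

end LatUp
end Pool.Agent.STS
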