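import Pool.Agent.P.MP_bb7f8f_gt.Base
import Pool.Agent.P.MP_bb7f8f_gt.LatUpA

/-!
Row LU: data with disconnected ribbon graph are bounded by products of smoothed counts.
-/

namespace Pool.Agent.STS
open Equiv Finset Filter

variable {H J I : Type} [Fintype H] [DecidableEq H] [Fintype J] [DecidableEq J]
  [Fintype I] [DecidableEq I] {σ : Perm H} {π : H → J} {v : J → ℕ} {D : ℕ}

namespace LatUp

abbrev Tup (H I : Type) := Perm H × (H → I) × (H → ℕ) × (H → Bool)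

/-- the set counted by `Sm` -/
def SmS (σ : Perm H) (b : I → ℕ) : Set (Tup H I) :=
  {p | IsMt p.1 ∧ IsLab σ p.1 p.2.1 ∧ (∀ x, p.2.2.1 (p.1 x) = p.2.2.1 x) ∧
    ∀ i, per p.2.1 (fun x => p.2.2.1 x + (p.2.2.2 x).toNat) i = b i}

/-- the tuples that split along `V` and `L` -/
def SmVL (σ : Perm H) (π : H → J) (b : I → ℕ) (V : Finset J) (L : Finset I) : Set (Tup H I) :=
  {p | p ∈ SmS σ b ∧ Inv π p.1 V ∧ ∀ x, p.2.1 x ∈ L ↔ π x ∈ V}

/-- restriction of a tuple -/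
def rst (V : Finset J) (L : Finset I) (p : Tup H I) (h1 : Inv π p.1 V)
    (h2 : ∀ x, p.2.1 x ∈ L ↔ π x ∈ V) : Tup {x // π x ∈ V} {a // a ∈ L} :=
  (p.1.subtypePerm h1, fun x => ⟨p.2.1 x, (h2 x).2 x.2⟩, fun x => p.2.2.1 x, fun x => p.2.2.2 x)

omit [DecidableEq H] [Fintype J] [Fintype I] in
theorem rst_mem (hc : Cyc σ π v) {b : I → ℕ} {V : Finset J} {L : Finset I} {p : Tup H I}
    (hp : p ∈ SmS σ b) (h1 : Inv π p.1 V) (h2 : ∀ x, p.2.1 x ∈ L ↔ π x ∈ V) :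
    rst V L p h1 h2 ∈ SmS (res hc V) (fun a : {a // a ∈ L} => b a.1) := by
  obtain ⟨hm, hl, hi, hb⟩ := hp
  refine ⟨fun x => ⟨Subtype.ext (hm x).1, fun h => (hm x).2 (congrArg Subtype.val h)⟩,
    ⟨fun x y => ?_, fun a => ?_⟩, fun x => hi x, fun a => ?_⟩
  · have e : res hc V * p.1.subtypePerm (p := fun x => π x ∈ V) h1 = (σ * p.1).subtypePerm (p := fun x => π x ∈ V)
        (fun x => by rw [Perm.mul_apply, pi_sigma hc]; exact h1 x) := by
      ext x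
      rfl
    change (⟨p.2.1 x, _⟩ : {a // a ∈ L}) = ⟨p.2.1 y, _⟩ ↔
      (res hc V * p.1.subtypePerm (p := fun x => π x ∈ V) h1).SameCycle x y
    rw [e, Equiv.Perm.sameCycle_subtypePerm, Subtype.mk.injEq]
    exact hl.1 x y
  · obtain ⟨x, hx⟩ := hl.2 a.1
    exact ⟨⟨x, (h2 x).1 (hx ▸ a.2)⟩, Subtype.ext hx⟩
  · change _ = b a.1
    rw [← hb a.1]
    unfold per
    refine Finset.sum_bij (fun x _ => x.1) (fun x hx => ?_) (fun x _ y _ h => Subtype.ext h)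
      (fun x hx => ?_) fun x _ => rfl
    · simp only [mem_filter, mem_univ, true_and] at hx ⊢
      exact congrArg Subtype.val hx
    · simp only [mem_filter, mem_univ, true_and] at hx ⊢
      exact ⟨⟨x, (h2 x).1 (hx ▸ a.2)⟩, Subtype.ext hx, rfl⟩

theorem split (hc : Cyc σ π v) (b : I → ℕ) (V : Finset J) (L : Finset I) :
    (SmVL σ π b V L).ncard ≤ Sm (res hc V) (fun a : {a // a ∈ L} => b a.1) *
      Sm (res hc Vᶜ) (fun a : {a // a ∈ Lᶜ} => b a.1) := by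
  change _ ≤ (SmS (res hc V) (fun a : {a // a ∈ L} => b a.1)).ncard *
    (SmS (res hc Vᶜ) (fun a : {a // a ∈ Lᶜ} => b a.1)).ncard
  have f1 : Finite (SmS (res hc V) (fun a : {a // a ∈ L} => b a.1)) := (sm_finite _ _).to_subtype
  have f2 : Finite (SmS (res hc Vᶜ) (fun a : {a // a ∈ Lᶜ} => b a.1)) :=
    (sm_finite _ _).to_subtype
  simp only [← Nat.card_coe_set_eq, ← Nat.card_prod]
  have hc2 : ∀ p : SmVL σ π b V L, ∀ x, p.1.2.1 x ∈ Lᶜ ↔ π x ∈ Vᶜ := fun p x => by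
    simp only [mem_compl, p.2.2.2 x]
  refine Nat.card_le_card_of_injective
    (fun p => (⟨rst V L p.1 p.2.2.1 p.2.2.2, rst_mem hc p.2.1 _ _⟩,
      ⟨rst Vᶜ Lᶜ p.1 p.2.2.1.compl (hc2 p), rst_mem hc p.2.1 _ _⟩)) fun p p' h => ?_
  have e1 := congrArg (fun z => z.1.1) h
  have e2 := congrArg (fun z => z.2.1) h
  simp only [rst, Prod.mk.injEq] at e1 e2
  have key : ∀ x, p.1.1 x = p'.1.1 x ∧ p.1.2.1 x = p'.1.2.1 x ∧ p.1.2.2.1 x = p'.1.2.2.1 x ∧
      p.1.2.2.2 x = p'.1.2.2.2 x := by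
    intro x
    by_cases hx : π x ∈ V
    · exact ⟨congrArg Subtype.val (Equiv.congr_fun e1.1 ⟨x, hx⟩),
        congrArg Subtype.val (congrFun e1.2.1 ⟨x, hx⟩), congrFun e1.2.2.1 ⟨x, hx⟩,
        congrFun e1.2.2.2 ⟨x, hx⟩⟩
    · have hx' := mem_compl.2 hx
      exact ⟨congrArg Subtype.val (Equiv.congr_fun e2.1 ⟨x, hx'⟩),
        congrArg Subtype.val (congrFun e2.2.1 ⟨x, hx'⟩), congrFun e2.2.2.1 ⟨x, hx'⟩,
        congrFun e2.2.2.2 ⟨x, hx'⟩⟩
  exact Subtype.ext (Prod.ext (Equiv.ext fun x => (key x).1) (Prod.ext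
    (funext fun x => (key x).2.1) (Prod.ext (funext fun x => (key x).2.2.1)
      (funext fun x => (key x).2.2.2))))

/-- thick disconnected metric ribbon graphs with face perimeters `b` -/
def MS (σ : Perm H) (π : H → J) (K : ℕ) (b : I → ℕ) : Set (Perm H × (H → I) × (H → ℕ)) :=
  {q | IsMt q.1 ∧ IsLab σ q.1 q.2.1 ∧ Disc π q.1 ∧ (∀ x, q.2.2 (q.1 x) = q.2.2 x) ∧
    (∀ x, K ≤ q.2.2 x) ∧ ∀ i, per q.2.1 q.2.2 i = b i}

omit [Fintype J] in
theorem ms_finite (σ : Perm H) (π : H → J) (K : ℕ) (b : I → ℕ) : (MS σ π K b).Finite := by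
  refine ((sm_finite σ b).image fun p => (p.1, p.2.1, p.2.2.1)).subset ?_
  rintro ⟨α, c, l⟩ ⟨h1, h2, -, h4, -, h6⟩
  exact ⟨(α, c, l, fun _ => false), ⟨h1, h2, h4, fun i => by simpa using h6 i⟩, rfl⟩

theorem thick (hc : Cyc σ π v) (hD : Fintype.card H = 2 * D) : ∃ K₀ : ℕ, ∀ K ≥ K₀, ∀ b : I → ℕ,
    4 ^ D * (MS σ π K b).ncard ≤ 4 * ∑ d ∈ Icc 1 (D / 2), ∑ V ∈ Spl v d, ∑ L : Finset I,
      Sm (res hc V) (fun a : {a // a ∈ L} => b a.1) *
        Sm (res hc Vᶜ) (fun a : {a // a ∈ Lᶜ} => b a.1) := by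
  classical
  have hex : ∀ t : Perm H × (H → I) × (H → Bool), ∃ u : H → ℤ,
      IsMt t.1 → IsLab σ t.1 t.2.1 → Good π t.1 t.2.2 → (∀ x, u (t.1 x) = u x) ∧
      ∀ i, ∑ x with t.2.1 x = i, u x = ∑ x with t.2.1 x = i, ((t.2.2 x).toNat : ℤ) := by
    intro t
    by_cases h : IsMt t.1 ∧ IsLab σ t.1 t.2.1 ∧ Good π t.1 t.2.2
    · obtain ⟨u, hu⟩ := shift hc h.2.1 h.1 h.2.2
      exact ⟨u, fun _ _ _ => hu⟩
    · exact ⟨0, fun a b c => absurd ⟨a, b, c⟩ h⟩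
  choose u hu using hex
  refine ⟨univ.sup fun z : (Perm H × (H → I) × (H → Bool)) × H => (u z.1 z.2).natAbs,
    fun K hK b => ?_⟩
  have hKu : ∀ t x, u t x ≤ K := by
    intro t x
    have h1 : (u t x).natAbs ≤ K := le_trans (Finset.le_sup
      (f := fun z : (Perm H × (H → I) × (H → Bool)) × H => (u z.1 z.2).natAbs)
      (mem_univ (t, x))) hK
    omega
  have hfin : ∀ V L, (SmVL σ π b V L).Finite := fun V L =>
    (sm_finite σ b).subset fun p hp => hp.1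
  set Mf := (ms_finite σ π K b).toFinset with hMf
  let Z : Finset (Σ _ : Perm H × (H → I) × (H → ℕ), (H → Bool) × Finset J) :=
    Mf.sigma fun q => ({ε | Good π q.1 ε} : Finset (H → Bool)) ×ˢ
      ({V | Small π v D q.1 V} : Finset (Finset J))
  let T : Finset (Σ _ : ℕ, Σ _ : Finset J, Σ _ : Finset I, Tup H I) :=
    (Icc 1 (D / 2)).sigma fun d => (Spl v d).sigma fun V => univ.sigma fun L =>
      (hfin V L).toFinset
  have h1 : 4 ^ D * #Mf ≤ 4 * #Z := by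
    rw [Finset.card_sigma, Finset.mul_sum, mul_comm, ← smul_eq_mul, ← Finset.sum_const]
    refine Finset.sum_le_sum fun q hq => ?_
    obtain ⟨hm, -, hd, -⟩ : q ∈ MS σ π K b := by simpa [hMf] using hq
    have a1 := good_count π q.1
    have a2 := inv_count hc hD hm hd
    rw [hD, pow_mul] at a1
    rw [Finset.card_product]
    calc 4 ^ D ≤ _ := a1
      _ ≤ _ := Nat.mul_le_mul_left _ a2
      _ = _ := by ring
  have h2 : #Z ≤ #T := by
    refine Finset.card_le_card_of_injOn (fun z => ⟨(∑ j ∈ z.2.2, v j) / 2, z.2.2,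
      ({x | π x ∈ z.2.2} : Finset H).image z.1.2.1, z.1.1, z.1.2.1,
      fun x => (z.1.2.2 x - u (z.1.1, z.1.2.1, z.2.1) x).toNat, z.2.1⟩) ?_ ?_
    · rintro ⟨⟨α, c, l⟩, ε, V⟩ hz
      simp only [Z, coe_sigma, Set.mem_sigma_iff, mem_coe, hMf, Set.Finite.mem_toFinset,
        mem_product, mem_filter, mem_univ, true_and] at hz
      obtain ⟨⟨hm, hl, -, hi, hK', hb⟩, hg, hV, hV1, hV2⟩ := hz
      dsimp only at hm hl hi hK' hb hg hV hV1 hV2
      obtain ⟨hu1, hu2⟩ := hu (α, c, ε) hm hl hg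
      dsimp only at hu1 hu2
      simp only [T, coe_sigma, Set.mem_sigma_iff, mem_coe, Set.Finite.mem_toFinset,
        mem_univ, true_and]
      refine ⟨hV1, hV2, ⟨hm, hl, fun x => ?_, fun i => ?_⟩, hV, fun x => ?_⟩
      · simp only [hi x, hu1 x]
      · have e : ∀ x, (((l x - u (α, c, ε) x).toNat + (ε x).toNat : ℕ) : ℤ) =
            l x - u (α, c, ε) x + (ε x).toNat := by
          intro x
          have := hKu (α, c, ε) x
          have := hK' x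
          omega
        have hb' := hb i
        unfold per at hb' ⊢
        dsimp only
        zify at hb'
        refine Nat.cast_injective (R := ℤ) ?_
        rw [Nat.cast_sum]
        simp only [e, Finset.sum_add_distrib, Finset.sum_sub_distrib, hu2 i, hb']
        ring
      · simp only [mem_image, mem_filter, mem_univ, true_and]
        refine ⟨fun ⟨y, hy, hyx⟩ => ?_, fun h => ⟨x, h, rfl⟩⟩
        obtain ⟨n, -, hn⟩ := ((hl.1 y x).1 hyx).exists_pow_eq'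
        rw [← hn]
        clear hn
        induction n with
        | zero => simpa using hy
        | succ n ih =>
          rw [pow_succ', Perm.mul_apply, Perm.mul_apply, pi_sigma hc]
          exact (hV _).2 ih
    · rintro ⟨⟨α, c, l⟩, ε, V⟩ hz ⟨⟨α', c', l'⟩, ε', V'⟩ hz' h
      simp only [Z, coe_sigma, Set.mem_sigma_iff, mem_coe, hMf, Set.Finite.mem_toFinset,
        mem_product, mem_filter, mem_univ, true_and] at hz hz'
      simp only [Sigma.mk.injEq, heq_eq_eq, Prod.mk.injEq] at h ⊢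
      obtain ⟨-, rfl, -, rfl, rfl, hl, rfl⟩ := h
      refine ⟨⟨rfl, rfl, funext fun x => ?_⟩, rfl, rfl⟩
      have a1 := congrFun hl x
      have a2 := hKu (α, c, ε) x
      have a3 : K ≤ l x := hz.1.2.2.2.2.1 x
      have a4 : K ≤ l' x := hz'.1.2.2.2.2.1 x
      omega
  have h3 : #T ≤ ∑ d ∈ Icc 1 (D / 2), ∑ V ∈ Spl v d, ∑ L : Finset I,
      Sm (res hc V) (fun a : {a // a ∈ L} => b a.1) *
        Sm (res hc Vᶜ) (fun a : {a // a ∈ Lᶜ} => b a.1) := by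
    simp only [T, Finset.card_sigma]
    refine Finset.sum_le_sum fun d _ => Finset.sum_le_sum fun V _ =>
      Finset.sum_le_sum fun L _ => ?_
    rw [← Set.ncard_eq_toFinset_card _ (hfin V L)]
    exact split hc b V L
  rw [Set.ncard_eq_toFinset_card _ (ms_finite σ π K b)]
  exact h1.trans (Nat.mul_le_mul_left _ (h2.trans h3))

theorem datc_cover {ι : Type} (σ : Perm H) (k m : ℕ) (s : Finset ι) {P : Datum H k → Prop}
    (Q : ι → Datum H k → Prop) (h : ∀ δ, IsDat σ m δ → P δ → ∃ i ∈ s, Q i δ) :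
    datc σ k m P ≤ ∑ i ∈ s, datc σ k m (Q i) := by
  unfold datc
  refine le_trans (Set.ncard_le_ncard (t := ⋃ i ∈ s, {δ | IsDat σ m δ ∧ Q i δ}) ?_ ?_)
    (Finset.set_ncard_biUnion_le s _)
  · rintro δ ⟨h1, h2⟩
    obtain ⟨i, hi, hq⟩ := h δ h1 h2
    exact Set.mem_biUnion hi ⟨h1, hq⟩
  · refine (dat_finite σ k m).subset fun δ hδ => ?_
    simp only [Set.mem_iUnion] at hδ
    obtain ⟨i, -, hi, -⟩ := hδ
    exact hi

theorem datc_or (σ : Perm H) (k m : ℕ) {P P₁ P₂ : Datum H k → Prop}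
    (h : ∀ δ, P δ → P₁ δ ∨ P₂ δ) : datc σ k m P ≤ datc σ k m P₁ + datc σ k m P₂ := by
  have := datc_cover σ k m (univ : Finset Bool) (P := P) (fun b => cond b P₁ P₂)
    fun δ _ hδ => (h δ hδ).elim (fun h => ⟨true, mem_univ _, h⟩) fun h => ⟨false, mem_univ _, h⟩
  simpa using this

omit [DecidableEq H] in
theorem le_per {k : ℕ} (δ : Datum H k) (x : H) : δ.ℓ x ≤ per δ.c δ.ℓ (δ.c x) :=
  Finset.single_le_sum (f := δ.ℓ) (fun _ _ => Nat.zero_le _) (by simp)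

omit [DecidableEq H] in
theorem per_eq {k m : ℕ} {δ : Datum H k} (h : IsDat σ m δ) (a : Fin k × Bool) :
    per δ.c δ.ℓ a = δ.w a.1 := by
  obtain ⟨i, s⟩ := a
  cases s
  · exact h.bal i
  · rfl

omit [DecidableEq H] in
theorem hw_le {k m : ℕ} {δ : Datum H k} (h : IsDat σ m δ) (i : Fin k) :
    δ.h i ≤ m ∧ δ.w i ≤ m := by
  have h1 : δ.h i * δ.w i ≤ m := h.area ▸ Finset.single_le_sum
    (f := fun i => δ.h i * δ.w i) (fun _ _ => Nat.zero_le _) (mem_univ i)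
  have h2 := h.hpos i
  have h3 := h.tlt i
  constructor <;> nlinarith

omit [Fintype J] in
theorem thick_fibre (σ : Perm H) (π : H → J) (k m K : ℕ) (p : (Fin k → ℕ) × (Fin k → ℕ)) :
    datc σ k m (fun δ => (Disc π δ.α ∧ ∀ x, K ≤ δ.ℓ x) ∧ δ.h = p.1 ∧ δ.w = p.2) ≤
      (∏ i, p.2 i) * (MS σ π K fun a : Fin k × Bool => p.2 a.1).ncard := by
  have e : (∏ i, p.2 i) = (↑(Fintype.piFinset fun i => range (p.2 i)) : Set (Fin k → ℕ)).ncard := by
    rw [Set.ncard_coe_finset, Fintype.card_piFinset]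
    simp
  rw [e, ← Set.ncard_prod]
  refine Set.ncard_le_ncard_of_injOn (fun δ => (δ.t, δ.α, δ.c, δ.ℓ)) ?_ ?_
    ((Finset.finite_toSet _).prod (ms_finite σ π K _))
  · rintro δ ⟨h1, ⟨h2, h3⟩, -, h5⟩
    refine ⟨?_, h1.mt, h1.lab, h2, h1.inv, h3, fun a => ?_⟩
    · simp only [mem_coe, Fintype.mem_piFinset, mem_range, ← h5]
      exact h1.tlt
    · rw [← h5]
      exact per_eq h1 a
  · rintro ⟨α, c, l, h, t⟩ ⟨-, -, h4, -⟩ ⟨α', c', l', h', t'⟩ ⟨-, -, h4', -⟩ hh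
    simp only [Prod.mk.injEq] at hh h4 h4'
    obtain ⟨rfl, rfl, rfl, rfl⟩ := hh
    rw [h4, h4']

omit [Fintype J] in
theorem thick_sum (σ : Perm H) (π : H → J) (k K N : ℕ) :
    ∑ m ∈ range (N + 1), datc σ k m (fun δ => Disc π δ.α ∧ ∀ x, K ≤ δ.ℓ x) ≤
      ∑ p ∈ HW k K N, (∏ i, p.2 i) * (MS σ π K fun a : Fin k × Bool => p.2 a.1).ncard := by
  rw [← Finset.sum_fiberwise_of_maps_to (s := HW k K N) (t := range (N + 1))
    (g := fun p => ∑ i, p.1 i * p.2 i) fun p hp => by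
      rw [mem_range, Nat.lt_succ_iff]
      exact (mem_filter.1 hp).2.2.2]
  refine Finset.sum_le_sum fun m hm => ?_
  rw [mem_range, Nat.lt_succ_iff] at hm
  refine le_trans (datc_cover σ k m _ (fun p δ => (Disc π δ.α ∧ ∀ x, K ≤ δ.ℓ x) ∧ δ.h = p.1 ∧
    δ.w = p.2) fun δ h1 h2 => ⟨(δ.h, δ.w), ?_, h2, rfl, rfl⟩)
    (Finset.sum_le_sum fun p _ => thick_fibre σ π k m K p)
  simp only [HW, mem_filter, mem_product, Fintype.mem_piFinset, mem_range, Nat.lt_succ_iff]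
  refine ⟨⟨⟨fun i => (hw_le h1 i).1.trans hm, fun i => (hw_le h1 i).2.trans hm⟩, h1.hpos,
    fun i => ?_, h1.area.le.trans hm⟩, h1.area⟩
  obtain ⟨x, hx⟩ := h1.lab.2 (i, true)
  have := le_per δ x
  rw [hx] at this
  exact (h2.2 x).trans this

theorem thin_sum (hc : Cyc σ π v) (hD : Fintype.card H = 2 * D) (k K : ℕ) : ∃ C : ℕ, ∀ N : ℕ,
    ∑ m ∈ range (N + 1), datc σ k m (fun δ => ∃ x, δ.ℓ x < K) ≤ C * (N + 1) ^ (D - 1) := by
  classical
  refine ⟨Fintype.card (Perm H × (H → Fin k × Bool) × H) * K, fun N => ?_⟩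
  let L : Perm H × (H → Fin k × Bool) × H → Set (H → ℕ) := fun z =>
    {l : H → ℕ | (∀ x, l (z.1 x) = l x) ∧ (∀ x, l x ≤ N) ∧ l z.2.2 < K ∧
      ∀ i, (per z.2.1 l (i, true) : ℤ) - per z.2.1 l (i, false) = (fun _ => 0 : Fin k → ℤ) i}
  let S : Finset (Perm H × (H → Fin k × Bool) × H) :=
    {z | IsMt z.1 ∧ IsLab σ z.1 z.2.1 ∧ ∃ l ∈ Vsp z.1 z.2.1, l z.2.2 ≠ 0}
  have hL : ∀ z, (L z).Finite := fun z =>
    (Finset.finite_toSet (Fintype.piFinset fun _ : H => range (N + 1))).subset fun l hl => by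
      simp only [mem_coe, Fintype.mem_piFinset, mem_range, Nat.lt_succ_iff]
      exact hl.2.1
  have h1 : ∀ m ∈ range (N + 1), datc σ k m (fun δ => ∃ x, δ.ℓ x < K) ≤
      ∑ z ∈ S, datc σ k m (fun δ => δ.α = z.1 ∧ δ.c = z.2.1 ∧ δ.ℓ ∈ L z) := by
    intro m hm
    rw [mem_range, Nat.lt_succ_iff] at hm
    refine datc_cover σ k m S _ fun δ h ⟨x, hx⟩ => ⟨(δ.α, δ.c, x), ?_, rfl, rfl, h.inv,
      fun y => ?_, hx, fun i => ?_⟩
    · simp only [S, mem_filter, mem_univ, true_and]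
      refine ⟨h.mt, h.lab, fun y => (δ.ℓ y : ℚ), ⟨fun y => by simp only [h.inv y], fun i => ?_⟩,
        ?_⟩
      · have := h.bal i
        unfold Datum.w per at this
        rw [← Nat.cast_sum, ← Nat.cast_sum, this]
      · have := h.pos x
        simp only [ne_eq, Nat.cast_eq_zero]
        omega
    · have := le_per δ y
      rw [per_eq h] at this
      exact this.trans ((hw_le h _).2.trans hm)
    · simp only [per_eq h, sub_self]
  have h2 : ∀ z ∈ S, (L z).ncard * N ^ k ≤ K * (N + 1) ^ (D - 1) := by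
    intro z hz
    simp only [S, mem_filter, mem_univ, true_and] at hz
    have h3 := thin hc hD hz.2.1 hz.1 z.2.2 hz.2.2 K N (fun _ => 0)
    have h4 : (N + 1) ^ D ≤ (N + 1) ^ (D - 1) * (N + 1) := by
      rw [← pow_succ]
      exact Nat.pow_le_pow_right (Nat.succ_pos _) (by omega)
    have h5 : N ^ k ≤ (N + 1) ^ k := Nat.pow_le_pow_left (Nat.le_succ _) _
    refine Nat.le_of_mul_le_mul_right ?_ (Nat.succ_pos N)
    calc (L z).ncard * N ^ k * (N + 1) ≤ (L z).ncard * (N + 1) ^ k * (N + 1) := by gcongr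
      _ = (L z).ncard * (N + 1) ^ (k + 1) := by ring
      _ ≤ K * (N + 1) ^ D := h3
      _ ≤ K * ((N + 1) ^ (D - 1) * (N + 1)) := Nat.mul_le_mul_left _ h4
      _ = _ := (mul_assoc _ _ _).symm
  calc _ ≤ _ := Finset.sum_le_sum h1
    _ = ∑ z ∈ S, ∑ m ∈ range (N + 1),
        datc σ k m (fun δ => δ.α = z.1 ∧ δ.c = z.2.1 ∧ δ.ℓ ∈ L z) := Finset.sum_comm
    _ ≤ ∑ z ∈ S, K * (N + 1) ^ (D - 1) := Finset.sum_le_sum fun z hz =>
        (dat_crude σ k N z.1 z.2.1 (L z) (hL z)).trans (h2 z hz)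
    _ ≤ _ := by
        rw [Finset.sum_const, smul_eq_mul, mul_assoc]
        exact Nat.mul_le_mul_right _ (Finset.card_le_univ S)

end LatUp

theorem latUp (hc : Cyc σ π v) (hD : Fintype.card H = 2 * D) (k : ℕ) :
    ∃ K₀ : ℕ, ∀ K ≥ K₀, ∃ C : ℝ, ∀ N : ℕ,
      (∑ m ∈ range (N + 1), (datc σ k m (fun δ => Disc π δ.α) : ℝ)) ≤
        4 / 4 ^ D * ∑ p ∈ HW k K N, (∏ i, (p.2 i : ℝ)) *
          ∑ d ∈ Icc 1 (D / 2), ∑ V ∈ Spl v d, ∑ L : Finset (Fin k × Bool),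
            (Sm (res hc V) (fun a : {a // a ∈ L} => p.2 a.1.1) : ℝ) *
              Sm (res hc Vᶜ) (fun a : {a // a ∈ Lᶜ} => p.2 a.1.1) +
        C * (N + 1) ^ (D - 1) := by
  obtain ⟨K₀, hK₀⟩ := LatUp.thick (I := Fin k × Bool) hc hD
  refine ⟨K₀, fun K hK => ?_⟩
  obtain ⟨C, hC⟩ := LatUp.thin_sum hc hD k K
  refine ⟨C, fun N => ?_⟩
  have h1 : ∑ m ∈ range (N + 1), datc σ k m (fun δ => Disc π δ.α) ≤
      ∑ p ∈ HW k K N, (∏ i, p.2 i) * (LatUp.MS σ π K fun a : Fin k × Bool => p.2 a.1).ncard +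
        C * (N + 1) ^ (D - 1) := by
    refine le_trans ?_ (Nat.add_le_add (LatUp.thick_sum σ π k K N) (hC N))
    rw [← Finset.sum_add_distrib]
    refine Finset.sum_le_sum fun m _ => LatUp.datc_or σ k m fun δ h => ?_
    by_cases h' : ∀ x, K ≤ δ.ℓ x
    · exact Or.inl ⟨h, h'⟩
    · push Not at h'
      exact Or.inr h'
  have h2 : (∑ m ∈ range (N + 1), (datc σ k m (fun δ => Disc π δ.α) : ℝ)) ≤
      ∑ p ∈ HW k K N, (∏ i, (p.2 i : ℝ)) *
        (LatUp.MS σ π K fun a : Fin k × Bool => p.2 a.1).ncard + C * (N + 1) ^ (D - 1) := by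
    exact_mod_cast h1
  refine h2.trans (add_le_add ?_ le_rfl)
  rw [Finset.mul_sum]
  refine Finset.sum_le_sum fun p _ => ?_
  rw [mul_left_comm]
  refine mul_le_mul_of_nonneg_left ?_ (by positivity)
  rw [div_mul_eq_mul_div, le_div_iff₀ (by positivity), mul_comm]
  exact_mod_cast hK₀ K hK fun a => p.2 a.1

end Pool.Agent.STS
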