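import Pool.Agent.P.MP_bb7f8f_gt.Defs

/-!
Intermediate objects of the proof: oriented-square model, ribbon graphs, cylinder data, bounds.
-/

namespace Pool.Agent.STS
open Equiv Finset

/-- number of automorphisms of a gluing -/
noncomputable def autc {N : ℕ} (γ : Perm (Side N)) : ℕ :=
  Nat.card {g : Perm (Side N) // IsRelabel g ∧ g * γ = γ * g}

/-! ### Oriented squares -/

abbrev XS (N : ℕ) := Fin N × Bool

/-- the half-turn of an oriented square -/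
def io (N : ℕ) : Perm (XS N) := Equiv.prodCongr (Equiv.refl _) Equiv.boolNot

/-- `(a, f, θ)`: `a` glues top sides, `f` moves along a row, `θ` names the singular prongs -/
abbrev Tri (H : Type) (N : ℕ) := Perm (XS N) × Perm (XS N) × (H → XS N)

section
variable {H : Type} {N : ℕ}

/-- a connected framed surface of vertex type `σ` -/
structure IsFr (σ : Perm H) (T : Tri H N) : Prop where
  aa : ∀ x, T.1 (T.1 x) = x
  ane : ∀ x, T.1 x ≠ x
  ff : ∀ x, io N (T.2.1 (io N (T.2.1 x))) = x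
  fne : ∀ x, T.2.1 x ≠ io N x
  conn : ∀ x y, Relation.EqvGen (fun p q => q = io N p ∨ q = T.1 p ∨ q = T.2.1 p) x y
  inj : Function.Injective T.2.2
  eqv : ∀ h, T.2.2 (σ h) = T.2.1 (T.1 (T.2.2 h))
  reg : ∀ x, x ∉ Set.range T.2.2 →
    T.2.1 (T.1 (T.2.1 (T.1 x))) = x ∧ T.2.1 (T.1 x) ≠ x

/-- the prongs are not all on one horizontal leaf -/
def XBad (T : Tri H N) : Prop :=
  ¬ ∀ h h', Relation.EqvGen (fun p q => q = T.1 p ∨ q = T.2.1 p) (T.2.2 h) (T.2.2 h')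

noncomputable def xautc (T : Tri H N) : ℕ :=
  Nat.card {g : Perm (XS N) // g * io N = io N * g ∧ g * T.1 = T.1 * g ∧ g * T.2.1 = T.2.1 * g}

/-- order of the centraliser of `σ` -/
noncomputable def zc (σ : Perm H) : ℕ := Nat.card {g : Perm H // g * σ = σ * g}

/-- one row down -/
def dn (T : Tri H N) : Perm (XS N) := T.1 * io N

/-- `y` lies on a row whose top boundary contains a prong -/
def Top (T : Tri H N) (y : XS N) : Prop := ∃ h, T.2.1.SameCycle y (T.2.2 h)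

end

/-! ### Ribbon graphs -/

section
variable {H J I : Type} [Fintype H]

/-- `π` labels the cycles of `σ`; cycle `j` has odd length `v j` -/
structure Cyc [DecidableEq J] (σ : Perm H) (π : H → J) (v : J → ℕ) : Prop where
  same : ∀ x y, π x = π y ↔ σ.SameCycle x y
  card : ∀ j, #{x | π x = j} = v j
  odd : ∀ j, Odd (v j)

def IsMt (α : Perm H) : Prop := ∀ x, α (α x) = x ∧ α x ≠ x

/-- `c` labels the faces (cycles of `σ * α`) bijectively by `I` -/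
def IsLab (σ α : Perm H) (c : H → I) : Prop :=
  (∀ x y, c x = c y ↔ (σ * α).SameCycle x y) ∧ Function.Surjective c

def per [DecidableEq I] (c : H → I) (ℓ : H → ℕ) (i : I) : ℕ := ∑ x with c x = i, ℓ x

/-- restriction of `σ` to the cycles with label in `V` -/
def res [DecidableEq J] {σ : Perm H} {π : H → J} {v : J → ℕ} (hc : Cyc σ π v) (V : Finset J) :
    Perm {x // π x ∈ V} :=
  σ.subtypePerm fun x => by
    rw [(hc.same (σ x) x).2 (Equiv.Perm.sameCycle_apply_left.2 (Equiv.Perm.SameCycle.refl _ _))]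

/-- the ribbon graph `(σ, α)` is disconnected -/
def Disc [DecidableEq J] (π : H → J) (α : Perm H) : Prop :=
  ∃ V : Finset J, (∃ j, j ∈ V) ∧ (∃ j, j ∉ V) ∧ ∀ x, π (α x) ∈ V ↔ π x ∈ V

/-- smoothed count of metric ribbon graphs with labelled faces of perimeters `b` -/
noncomputable def Sm [DecidableEq I] (σ : Perm H) (b : I → ℕ) : ℕ :=
  Set.ncard {p : Perm H × (H → I) × (H → ℕ) × (H → Bool) | IsMt p.1 ∧ IsLab σ p.1 p.2.1 ∧
    (∀ x, p.2.2.1 (p.1 x) = p.2.2.1 x) ∧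
    ∀ i, per p.2.1 (fun x => p.2.2.1 x + (p.2.2.2 x).toNat) i = b i}

/-- integral metric ribbon graphs with two labelled faces of perimeter `w` -/
noncomputable def Cnt1 (σ : Perm H) (w : ℕ) : ℕ :=
  Set.ncard {p : Perm H × (H → Fin 1 × Bool) × (H → ℕ) | IsMt p.1 ∧ IsLab σ p.1 p.2.1 ∧
    (∀ x, p.2.2 (p.1 x) = p.2.2 x) ∧ (∀ x, 1 ≤ p.2.2 x) ∧ ∀ i, per p.2.1 p.2.2 i = w}

end

/-- horizontal cylinder data: matching, face labels, lengths, heights, twists -/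
structure Datum (H : Type) (k : ℕ) where
  α : Perm H
  c : H → Fin k × Bool
  ℓ : H → ℕ
  h : Fin k → ℕ
  t : Fin k → ℕ

section
variable {H : Type} [Fintype H] {k N : ℕ}

def Datum.w (δ : Datum H k) (i : Fin k) : ℕ := per δ.c δ.ℓ (i, true)

structure IsDat (σ : Perm H) (N : ℕ) (δ : Datum H k) : Prop where
  mt : IsMt δ.α
  lab : IsLab σ δ.α δ.c
  inv : ∀ x, δ.ℓ (δ.α x) = δ.ℓ x
  pos : ∀ x, 1 ≤ δ.ℓ x
  bal : ∀ i, per δ.c δ.ℓ (i, false) = δ.w i
  hpos : ∀ i, 1 ≤ δ.h i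
  tlt : ∀ i, δ.t i < δ.w i
  area : ∑ i, δ.h i * δ.w i = N

noncomputable def datc (σ : Perm H) (k N : ℕ) (P : Datum H k → Prop) : ℕ :=
  Set.ncard {δ : Datum H k | IsDat σ N δ ∧ P δ}

/-- base prong of a face -/
noncomputable def Datum.bs [Nonempty H] (δ : Datum H k) (a : Fin k × Bool) : H :=
  Function.invFun δ.c a

/-- the framed surface `T` has cylinder data `δ` -/
structure Realizes [Nonempty H] (σ : Perm H) (T : Tri H N) (δ : Datum H k) : Prop where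
  r1 : ∀ x, T.2.2 (δ.α x) = T.1 ((T.2.1 ^ (δ.ℓ x - 1)) (T.2.2 x))
  r2 : ∀ x, (T.2.1 ^ δ.ℓ x) (T.2.2 x) = T.2.2 (σ (δ.α x))
  r3 : ∀ x i, 0 < i → i < δ.ℓ x → (T.2.1 ^ i) (T.2.2 x) ∉ Set.range T.2.2
  r4 : ∀ x (m j : ℕ), 0 < j → j < δ.h (δ.c x).1 → ¬ Top T ((dn T ^ j) ((T.2.1 ^ m) (T.2.2 x)))
  r5 : ∀ i s (m : ℕ), (T.2.1 ^ m) (io N ((dn T ^ (δ.h i - 1)) ((T.2.1 ^ m) (T.2.2 (δ.bs (i, s)))))) =
    (T.2.1 ^ δ.t i) (T.2.2 (δ.bs (i, !s)))
  r6 : ∀ x (m : ℕ), (T.2.1 ^ m) (T.2.2 x) = T.2.2 x ↔ δ.w (δ.c x).1 ∣ m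

/-- distance along a face after `s` edges -/
def Datum.pos (σ : Perm H) (δ : Datum H k) (x : H) (s : ℕ) : ℕ :=
  ∑ j ∈ range s, δ.ℓ (((σ * δ.α) ^ j) x)

/-- data of surfaces with more than four automorphisms -/
def SymDat [Nonempty H] (σ : Perm H) (δ : Datum H k) : Prop :=
  (∃ i j : Fin k, ∃ s : Bool, ∃ s₁ < Fintype.card H, ∃ s₂ < Fintype.card H, i ≠ j ∧
    δ.t j = (δ.t i + δ.pos σ (δ.bs (j, s)) s₁ + δ.pos σ (δ.bs (j, !s)) s₂) % δ.w j) ∨
  ∃ A : Subgroup (Perm H), 4 < Nat.card A ∧ ∀ ψ ∈ A, ψ * σ = σ * ψ ∧ ψ * δ.α = δ.α * ψ ∧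
    (∀ x, δ.ℓ (ψ x) = δ.ℓ x) ∧ (∀ x, (δ.c (ψ x)).1 = (δ.c x).1) ∧ ((∃ x, ψ x = x) → ψ = 1)

end

/-! ### Explicit quantities -/

/-- strict partitions of `D`, as sets of parts -/
def SP (D : ℕ) : Finset (Finset ℕ) := (Icc 1 D).powerset.filter fun A => ∑ R ∈ A, R = D

/-- tuples of odd numbers with sum `D` -/
def OT (I : Type) [Fintype I] [DecidableEq I] (D : ℕ) : Finset (I → ℕ) :=
  (Fintype.piFinset fun _ => range (D + 1)).filter fun κ => (∀ i, Odd (κ i)) ∧ ∑ i, κ i = D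

/-- sets of vertices of total degree `2 d` -/
def Spl {J : Type} [Fintype J] (v : J → ℕ) (d : ℕ) : Finset (Finset J) :=
  (univ : Finset J).powerset.filter fun V => ∑ j ∈ V, v j = 2 * d

/-- the space of balanced length functions -/
def Vsp {H : Type} [Fintype H] {k : ℕ} (α : Perm H) (c : H → Fin k × Bool) :
    Submodule ℚ (H → ℚ) where
  carrier := {l | (∀ x, l (α x) = l x) ∧
    ∀ i, ∑ x with c x = (i, true), l x = ∑ x with c x = (i, false), l x}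
  add_mem' := fun {a b} ha hb => ⟨fun x => by simp [ha.1 x, hb.1 x], fun i => by
    simp [Finset.sum_add_distrib, ha.2 i, hb.2 i]⟩
  zero_mem' := ⟨fun x => rfl, fun i => by simp⟩
  smul_mem' := fun r a ha => ⟨fun x => by simp [ha.1 x], fun i => by
    simp [← Finset.mul_sum, ha.2 i]⟩

/-- heights and widths of total area at most `N`, widths at least `K` -/
def HW (k K N : ℕ) : Finset ((Fin k → ℕ) × (Fin k → ℕ)) :=
  ((Fintype.piFinset fun _ => range (N + 1)) ×ˢ (Fintype.piFinset fun _ => range (N + 1))).filter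
    fun p => (∀ i, 1 ≤ p.1 i) ∧ (∀ i, K ≤ p.2 i) ∧ ∑ i, p.1 i * p.2 i ≤ N

noncomputable def omP (k b : ℕ) : ℝ := 2 * ((b : ℝ) + k) ^ (k - 1) / (2 ^ k * k.factorial)

noncomputable def omM (k b : ℕ) : ℝ := 2 * ((b : ℝ) - k) ^ (k - 1) / (2 ^ k * k.factorial)

noncomputable def DF (A : Finset ℕ) : ℝ := ∏ R ∈ A, ((2 * R - 1).doubleFactorial : ℝ)

noncomputable def kap {J : Type} (V : Finset J) (v : J → ℕ) (A : Finset ℕ) (u : ℕ → ℝ) : ℝ :=
  (#A).factorial * (∏ R ∈ A.erase (A.sup id), (2 * R : ℝ)) * (∏ R ∈ A, (u R)⁻¹ ^ (2 * R)) *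
    ∏ j ∈ V, ∑ R ∈ A, u R ^ v j

noncomputable def cyl (a b : ℕ) : ℝ :=
  4 * (a + b - 1).factorial / (2 ^ (a + b) * a.factorial * b.factorial) * (1 + 4 / 2 ^ (a + b))

end Pool.Agent.STS
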