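import Pool.Agent.P.MP_bb7f8f_gt.Mid

/-! Schur `Q`-functions through vertex operators on `ℚ[p₁, p₃, …]`. -/

namespace Pool.Agent.STS.QF
open MvPolynomial Finset
set_option linter.unusedSectionVars false

abbrev Gm := MvPolynomial ℕ ℚ

noncomputable def pp (k : ℕ) : Gm := if Odd k then X k else 0

noncomputable def q : ℕ → Gm
  | 0 => 1
  | m + 1 => C (2 / (m + 1 : ℚ)) * ∑ j : Fin (m + 1), pp (j + 1) * q (m - j)
decreasing_by omega

noncomputable def qz (e : ℤ) : Gm := if 0 ≤ e then q e.toNat else 0

def w (a : ℕ) : ℚ := if a = 0 then 1 else 2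

noncomputable def sh : Gm →ₐ[ℚ] Polynomial Gm :=
  aeval fun k => Polynomial.C (X k) + if Odd k then Polynomial.X ^ k else 0

noncomputable def S (j : ℕ) : Gm →ₗ[ℚ] Gm := (Polynomial.lcoeff Gm j).restrictScalars ℚ ∘ₗ sh.toLinearMap

noncomputable def phi (e : ℤ) : Gm →ₗ[ℚ] Gm :=
  (Polynomial.lsum fun l : ℕ => LinearMap.mulLeft ℚ ((-1) ^ l * qz (e + l))) ∘ₗ sh.toLinearMap

noncomputable def Q : List ℤ → Gm
  | [] => 1
  | e :: ν => phi e (Q ν)

noncomputable def evO {R : Type*} [CommRing R] [Algebra ℚ R] (π : ℕ → R) : Gm →ₐ[ℚ] R :=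
  aeval fun k => if Odd k then π k else 0

section Rec
variable {R : Type*} [CommRing R] [Algebra ℚ R]
open PowerSeries

theorem ode_zero {P Y : R⟦X⟧} (h : d⁄dX R Y = P * Y) (h0 : coeff 0 Y = 0) : Y = 0 := by
  have key : ∀ n, coeff n Y = 0 := by
    intro n
    induction n using Nat.strong_induction_on with
    | _ n ih =>
      cases n with
      | zero => exact h0
      | succ n =>
        have h1 := congrArg (coeff n) h
        rw [coeff_derivative, PowerSeries.coeff_mul, Finset.sum_eq_zero] at h1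
        · have h2 : IsUnit ((n : R) + 1) := by
            have : ((n : R) + 1) = algebraMap ℚ R ((n : ℚ) + 1) := by simp
            rw [this]
            exact (IsUnit.mk0 _ (by positivity)).map _
          exact (h2.mul_left_eq_zero).1 h1
        · intro p hp
          rw [ih p.2 (by have := mem_antidiagonal.1 hp; omega), mul_zero]
  ext n; simp [key]

/-- the logarithmic derivative -/
noncomputable def Ps (π : ℕ → R) : R⟦X⟧ := PowerSeries.mk fun j => 2 * π (j + 1)

def Rec (π a : ℕ → R) : Prop :=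
  a 0 = 1 ∧ d⁄dX R (PowerSeries.mk a) = Ps π * PowerSeries.mk a

theorem rec_iff (π a : ℕ → R) : Rec π a ↔ a 0 = 1 ∧
    ∀ m, a (m + 1) * (m + 1) = 2 * ∑ j ∈ range (m + 1), π (j + 1) * a (m - j) := by
  unfold Rec
  refine and_congr_right fun _ => ?_
  rw [PowerSeries.ext_iff]
  refine forall_congr' fun m => ?_
  rw [coeff_derivative, PowerSeries.coeff_mul, coeff_mk, Finset.Nat.sum_antidiagonal_eq_sum_range_succ_mk,
    Finset.mul_sum]
  simp [Ps, mul_assoc]

theorem Rec.unique {π a b : ℕ → R} (ha : Rec π a) (hb : Rec π b) : a = b := by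
  have : PowerSeries.mk a - PowerSeries.mk b = 0 :=
    ode_zero (P := Ps π) (by rw [map_sub, ha.2, hb.2, mul_sub]) (by simp [ha.1, hb.1])
  funext n
  have h := congrArg (coeff n) this
  simpa [sub_eq_zero] using h

theorem Rec.conv {π ρ a b : ℕ → R} (ha : Rec π a) (hb : Rec ρ b) :
    Rec (π + ρ) fun m => ∑ p ∈ antidiagonal m, a p.1 * b p.2 := by
  have e : (PowerSeries.mk fun m => ∑ p ∈ antidiagonal m, a p.1 * b p.2) =
      PowerSeries.mk a * PowerSeries.mk b := by
    ext m; simp [PowerSeries.coeff_mul]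
  refine ⟨by simp [ha.1, hb.1], ?_⟩
  have e2 : Ps (π + ρ) = Ps π + Ps ρ := by ext m; simp [Ps, mul_add]
  rw [e, Derivation.leibniz, ha.2, hb.2, e2]
  simp only [smul_eq_mul]; ring

theorem sum_w (m : ℕ) : ∑ j ∈ range (m + 1), (if Odd (j + 1) then w (m - j) else 0) = m + 1 := by
  induction m using Nat.twoStepInduction with
  | zero => rw [Finset.sum_range_one]; simp [w]
  | one => simp [Finset.sum_range_succ, w]; norm_num
  | more m ih _ =>
    rw [Finset.sum_range_succ', Finset.sum_range_succ']
    have : ∀ j ∈ range (m + 1), (if Odd (j + 1 + 1 + 1) then w (m + 2 - (j + 1 + 1)) else 0) =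
        (if Odd (j + 1) then w (m - j) else 0) := by
      intro j _
      have h1 : Odd (j + 1 + 1 + 1) ↔ Odd (j + 1) := by
        simp only [Nat.odd_add_one]; tauto
      have h2 : m + 2 - (j + 1 + 1) = m - j := by omega
      simp only [h1, h2]
    rw [Finset.sum_congr rfl this, ih]
    have h2 : ¬ Odd 2 := by decide
    simp [w, h2]; ring

theorem rec_single (x : R) :
    Rec (fun k => if Odd k then x ^ k else 0) fun m => algebraMap ℚ R (w m) * x ^ m := by
  rw [rec_iff]
  refine ⟨by simp [w], fun m => ?_⟩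
  have : ∀ j ∈ range (m + 1), (if Odd (j + 1) then x ^ (j + 1) else 0) *
      (algebraMap ℚ R (w (m - j)) * x ^ (m - j)) =
      algebraMap ℚ R (if Odd (j + 1) then w (m - j) else 0) * x ^ (m + 1) := by
    intro j hj
    have : m + 1 = (j + 1) + (m - j) := by have := mem_range.1 hj; omega
    split_ifs
    · rw [this, pow_add x (j + 1)]; ring
    · simp
  rw [Finset.sum_congr rfl this, ← Finset.sum_mul, ← map_sum, sum_w]
  simp [w, map_ofNat]; ring

theorem rec_neg {π a : ℕ → R} (ha : Rec π a) (hπ : ∀ k, ¬ Odd k → π k = 0) :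
    Rec (-π) fun m => (-1) ^ m * a m := by
  rw [rec_iff] at ha ⊢
  refine ⟨by simp [ha.1], fun m => ?_⟩
  rw [mul_assoc, ha.2 m, Finset.mul_sum, Finset.mul_sum, Finset.mul_sum]
  refine Finset.sum_congr rfl fun j hj => ?_
  by_cases h : Odd (j + 1)
  · have : m + 1 = (j + 1) + (m - j) := by have := mem_range.1 hj; omega
    rw [this, pow_add, h.neg_one_pow]; simp; ring
  · simp [hπ _ h]

theorem rec_zero : Rec (0 : ℕ → R) fun m => if m = 0 then 1 else 0 := by
  rw [rec_iff]; simp

end Rec

theorem rec_q : Rec pp q := by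
  rw [rec_iff]
  refine ⟨by simp [q], fun m => ?_⟩
  rw [q, Finset.sum_range fun j => pp (j + 1) * q (m - j)]
  have : (C (2 / (m + 1 : ℚ)) : Gm) * ((m : Gm) + 1) = 2 := by
    have h : ((m : Gm) + 1) = C ((m : ℚ) + 1) := by simp
    rw [h, ← C_mul, div_mul_cancel₀ _ (by positivity)]; rfl
  rw [← this]; ring

theorem rec_map {R : Type*} [CommRing R] [Algebra ℚ R] (ψ : Gm →ₐ[ℚ] R) :
    Rec (fun k => ψ (pp k)) fun m => ψ (q m) := by
  have h := (rec_iff _ _).1 rec_q
  rw [rec_iff]
  refine ⟨by simp [h.1], fun m => ?_⟩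
  have := congrArg ψ (h.2 m)
  simpa [map_sum, map_ofNat] using this

theorem q_zero : q 0 = 1 := by simp [q]

theorem q_one : q 1 = 2 * X 1 := by
  have h := ((rec_iff _ _).1 rec_q).2 0
  simpa [q_zero, pp] using h

theorem q_two : q 2 = 2 * X 1 ^ 2 := by
  have h := ((rec_iff _ _).1 rec_q).2 1
  have h3 : ¬ Odd 2 := by decide
  simp [Finset.sum_range_succ, q_zero, q_one, pp, h3] at h
  have h2 : (2 : Gm) ≠ 0 := two_ne_zero
  apply mul_left_cancel₀ h2
  linear_combination h

/-- `q(t) q(-t) = 1` -/
theorem q_inv (m : ℕ) (hm : m ≠ 0) : ∑ p ∈ antidiagonal m, (-1) ^ p.1 * q p.1 * q p.2 = 0 := by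
  have h := (rec_neg rec_q (fun k hk => by simp [pp, hk])).conv rec_q
  rw [neg_add_cancel] at h
  have := congrFun (h.unique rec_zero) m
  simpa [hm] using this

theorem S_apply (j : ℕ) (f : Gm) : S j f = (sh f).coeff j := rfl

theorem S_mul (j : ℕ) (f g : Gm) : S j (f * g) = ∑ p ∈ antidiagonal j, S p.1 f * S p.2 g := by
  simp [S_apply, Polynomial.coeff_mul]

theorem S_C (j : ℕ) (a : ℚ) : S j (C a) = if j = 0 then C a else 0 := by
  have : sh (C a) = Polynomial.C (C a) := by
    simp [sh]
  rw [S_apply, this, Polynomial.coeff_C]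

theorem S_one (j : ℕ) : S j 1 = if j = 0 then 1 else 0 := S_C j 1

theorem S_mul_X (j k : ℕ) (f : Gm) :
    S j (f * X k) = S j f * X k + if Odd k ∧ k ≤ j then S (j - k) f else 0 := by
  simp only [S_apply, map_mul]
  have : sh (X k) = Polynomial.C (X k) + if Odd k then Polynomial.X ^ k else 0 := by simp [sh]
  rw [this, mul_add, Polynomial.coeff_add, Polynomial.coeff_mul_C]
  congr 1
  by_cases h : Odd k
  · simp [h, Polynomial.coeff_mul_X_pow']
  · simp [h]

theorem sh_q (m : ℕ) : sh (q m) = ∑ p ∈ antidiagonal m,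
    algebraMap ℚ _ (w p.1) * Polynomial.X ^ p.1 * Polynomial.C (q p.2) := by
  have h1 := rec_map sh
  have h2 := (rec_single (Polynomial.X : Polynomial Gm)).conv
    (rec_map (Polynomial.CAlgHom (R := ℚ) (A := Gm)))
  have e : (fun k => sh (pp k)) = (fun k => if Odd k then (Polynomial.X : Polynomial Gm) ^ k else 0)
      + fun k => (Polynomial.CAlgHom (R := ℚ) (A := Gm)) (pp k) := by
    funext k
    by_cases h : Odd k <;> simp [pp, sh, h, add_comm]
  rw [e] at h1
  exact congrFun (h1.unique h2) m

theorem S_qz (j : ℕ) (e : ℤ) : S j (qz e) = C (w j) * qz (e - j) := by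
  unfold qz
  by_cases he : 0 ≤ e
  · obtain ⟨m, rfl⟩ := Int.eq_ofNat_of_zero_le he
    simp only [he, if_true, Int.toNat_natCast, S_apply, sh_q, Polynomial.finsetSum_coeff]
    have : ∀ p : ℕ × ℕ, (algebraMap ℚ (Polynomial Gm) (w p.1) * Polynomial.X ^ p.1 *
        Polynomial.C (q p.2)).coeff j = if j = p.1 then C (w p.1) * q p.2 else 0 := by
      intro p
      rw [Polynomial.coeff_mul_C, Polynomial.algebraMap_apply, Polynomial.coeff_C_mul,
        Polynomial.coeff_X_pow]
      split_ifs <;> simp
    simp only [this]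
    split_ifs with h
    · rw [Finset.sum_eq_single (j, m - j)]
      · have : ((m : ℤ) - j).toNat = m - j := by omega
        simp [this]
      · intro p hp hne
        rw [if_neg]
        rintro rfl
        apply hne
        have := mem_antidiagonal.1 hp
        ext <;> simp; omega
      · intro h'
        exact absurd (HasAntidiagonal.mem_antidiagonal.2 (by simp; omega)) h'
    · rw [mul_zero]
      refine Finset.sum_eq_zero fun p hp => if_neg ?_
      have := mem_antidiagonal.1 hp
      omega
  · rw [if_neg he, if_neg (by omega)]; simp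

theorem S_comm (f : Gm) : ∀ j l, S j (S l f) = S l (S j f) := by
  induction f using MvPolynomial.induction_on with
  | C a =>
    intro j l
    by_cases hj : j = 0 <;> by_cases hl : l = 0 <;> simp [S_C, hj, hl]
  | add f g hf hg => intro j l; simp [hf j l, hg j l]
  | mul_X f k hf =>
    intro j l
    simp only [S_mul_X, map_add, apply_ite (S j), apply_ite (S l), map_zero]
    rw [hf j l, hf (j - k) l, hf j (l - k)]
    ring

theorem pderiv_S (k : ℕ) (f : Gm) : ∀ j, pderiv k (S j f) = S j (pderiv k f) := by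
  induction f using MvPolynomial.induction_on with
  | C a => intro j; by_cases hj : j = 0 <;> simp [S_C, hj]
  | add f g hf hg => intro j; simp [hf j, hg j]
  | mul_X f l hf =>
    intro j
    have e : pderiv k (f * X l) = pderiv k f * X l + f * pderiv k (X l) := by
      rw [Derivation.leibniz]; simp only [smul_eq_mul]; ring
    have e2 : pderiv k (S j f * X l) = pderiv k (S j f) * X l + S j f * pderiv k (X l) := by
      rw [Derivation.leibniz]; simp only [smul_eq_mul]; ring
    rw [e, map_add, S_mul_X, S_mul_X, map_add, e2, hf j, apply_ite (pderiv k), map_zero,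
      hf (j - l)]
    by_cases h : l = k
    · subst h; simp; ring
    · simp [pderiv_X_of_ne h]

theorem exists_S_bound (f : Gm) : ∃ B, ∀ j, B ≤ j → S j f = 0 :=
  ⟨(sh f).natDegree + 1, fun j hj => by
    rw [S_apply]; exact Polynomial.coeff_eq_zero_of_natDegree_lt (by omega)⟩

theorem phi_eq (e : ℤ) (f : Gm) (B : ℕ) (hB : ∀ j, B ≤ j → S j f = 0) :
    phi e f = ∑ l ∈ range B, (-1) ^ l * qz (e + l) * S l f := by
  have : phi e f = (sh f).sum fun l a => (-1) ^ l * qz (e + l) * a := rfl
  rw [this, Polynomial.sum_def]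
  refine Finset.sum_subset (fun l hl => ?_) (fun l _ hl => ?_)
  · by_contra h
    exact (Polynomial.mem_support_iff.1 hl) (hB l (by simpa using h))
  · rw [Polynomial.notMem_support_iff.1 hl, mul_zero]

theorem phi_one (e : ℤ) : phi e 1 = qz e := by
  rw [phi_eq e 1 1 (fun j hj => by rw [S_one, if_neg (by omega)])]
  simp [S_one]

theorem Q_single (e : ℤ) : Q [e] = qz e := phi_one e

theorem S_S_bound {f : Gm} {B : ℕ} (hB : ∀ j, B ≤ j → S j f = 0) (b : ℕ) :
    ∀ j, B ≤ j → S j (S b f) = 0 := fun j hj => by rw [S_comm, hB j hj, map_zero]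

theorem S_neg_one_pow_mul (j l : ℕ) (f : Gm) : S j ((-1) ^ l * f) = (-1) ^ l * S j f := by
  rcases neg_one_pow_eq_or Gm l with h | h <;> simp [h]

theorem S_phi (j : ℕ) (e : ℤ) (f : Gm) :
    S j (phi e f) = ∑ p ∈ antidiagonal j, C (w p.1) * phi (e - p.1) (S p.2 f) := by
  obtain ⟨B, hB⟩ := exists_S_bound f
  rw [phi_eq e f B hB, map_sum]
  simp only [phi_eq _ _ B (S_S_bound hB _), Finset.mul_sum]
  rw [Finset.sum_comm]
  refine Finset.sum_congr rfl fun l _ => ?_
  rw [mul_assoc, S_neg_one_pow_mul, S_mul, Finset.mul_sum]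
  refine Finset.sum_congr rfl fun p _ => ?_
  rw [S_qz, S_comm f p.2 l, show e + l - p.1 = e - p.1 + l by ring]
  ring

theorem pderiv_q (k : ℕ) (m : ℕ) :
    pderiv k (q m) = if Odd k then C (2 / (k : ℚ)) * qz (m - k) else 0 := by
  have hq := (rec_iff _ _).1 rec_q
  have hu : ∀ n : ℕ, ((n : Gm) + 1) ≠ 0 := fun n => by
    have h : ((n : Gm) + 1) = C ((n : ℚ) + 1) := by simp
    rw [h]; exact C_ne_zero.2 (by positivity)
  induction m using Nat.strong_induction_on with
  | _ m ih =>
    cases m with
    | zero =>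
      rw [q_zero]
      split_ifs with h
      · have := h.pos
        rw [qz, if_neg (by omega)]; simp
      · simp
    | succ m =>
      apply mul_right_cancel₀ (hu m)
      have h1 := congrArg (pderiv k) (hq.2 m)
      have h2 : pderiv k (q (m + 1) * ((m : Gm) + 1)) = pderiv k (q (m + 1)) * ((m : Gm) + 1) := by
        rw [Derivation.leibniz]; simp [mul_comm]
      have h3 : pderiv k (2 * ∑ j ∈ range (m + 1), pp (j + 1) * q (m - j)) =
          2 * ∑ j ∈ range (m + 1), (pp (j + 1) * pderiv k (q (m - j)) +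
            q (m - j) * pderiv k (pp (j + 1))) := by
        rw [Derivation.leibniz, map_sum]
        simp only [Derivation.leibniz, smul_eq_mul]
        have : pderiv k (2 : Gm) = 0 := by
          simpa using (pderiv k).map_natCast 2
        rw [this, mul_zero, add_zero]
      rw [h2, h3] at h1
      rw [h1, Finset.sum_add_distrib]
      have h4 : ∑ j ∈ range (m + 1), q (m - j) * pderiv k (pp (j + 1)) =
          if Odd k then qz ((m + 1 : ℕ) - k) else 0 := by
        by_cases hk : Odd k
        · rw [if_pos hk]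
          obtain ⟨k', rfl⟩ : ∃ k', k = k' + 1 := ⟨k - 1, by have := hk.pos; omega⟩
          by_cases hle : k' ≤ m
          · rw [Finset.sum_eq_single k']
            · have : (((m + 1 : ℕ) : ℤ) - (k' + 1 : ℕ)).toNat = m - k' := by omega
              simp only [pp, hk, if_true, pderiv_X_self, mul_one, qz, this]
              rw [if_pos (by omega)]
            · intro j _ hj
              unfold pp; split_ifs
              · rw [pderiv_X_of_ne (by omega), mul_zero]
              · simp
            · intro h; exact absurd (mem_range.2 (by omega)) h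
          · rw [qz, if_neg (by omega)]
            refine Finset.sum_eq_zero fun j hj => ?_
            have := mem_range.1 hj
            unfold pp; split_ifs
            · rw [pderiv_X_of_ne (by omega), mul_zero]
            · simp
        · rw [if_neg hk]
          refine Finset.sum_eq_zero fun j _ => ?_
          unfold pp; split_ifs with h
          · rw [pderiv_X_of_ne (by rintro rfl; exact hk h), mul_zero]
          · simp
      rw [h4, Finset.sum_congr rfl fun j hj => by
        rw [ih (m - j) (by omega)]]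
      by_cases hk : Odd k
      · simp only [hk, if_true]
        have hk0 : (k : ℚ) ≠ 0 := by have := hk.pos; positivity
        by_cases hle : k ≤ m + 1
        · obtain ⟨n, hn⟩ : ∃ n, m + 1 = n + k := ⟨m + 1 - k, by omega⟩
          have e1 : qz (((m + 1 : ℕ) : ℤ) - k) = q n := by
            rw [qz, if_pos (by omega)]; congr 1; omega
          have e2 : 2 * ∑ j ∈ range (m + 1), pp (j + 1) * qz (((m - j : ℕ) : ℤ) - k) =
              q n * n := by
            cases n with
            | zero =>
              rw [Finset.sum_eq_zero]; · simp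
              intro j hj
              have := mem_range.1 hj
              have := hk.pos
              rw [qz, if_neg (by omega), mul_zero]
            | succ n =>
              push_cast
              rw [hq.2 n]
              congr 1
              symm
              have hk1 := hk.pos
              refine (Finset.sum_subset (s₁ := range (n + 1)) (by simp; omega) ?_).symm.trans ?_ |>.symm
              · intro j hj hj'
                simp only [mem_range] at hj hj'
                rw [qz, if_neg (by omega), mul_zero]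
              · refine Finset.sum_congr rfl fun j hj => ?_
                simp only [mem_range] at hj
                rw [qz, if_pos (by omega)]
                congr 2; omega
          have e3 : (C (2 / (k : ℚ)) : Gm) * k = 2 := by
            rw [show (k : Gm) = C (k : ℚ) by simp, ← C_mul, div_mul_cancel₀ _ hk0]; rfl
          have e4 : ((m : Gm) + 1) = n + k := by exact_mod_cast congrArg (Nat.cast : ℕ → Gm) hn
          rw [e1, e4]
          have e5 : ∑ j ∈ range (m + 1), pp (j + 1) * (C (2 / (k : ℚ)) *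
              qz (((m - j : ℕ) : ℤ) - k)) = C (2 / (k : ℚ)) *
              ∑ j ∈ range (m + 1), pp (j + 1) * qz (((m - j : ℕ) : ℤ) - k) := by
            rw [Finset.mul_sum]; exact Finset.sum_congr rfl fun _ _ => by ring
          rw [e5]
          linear_combination C (2 / (k : ℚ)) * e2 - q n * e3
        · rw [Finset.sum_eq_zero, qz, if_neg (by omega)]; · simp
          intro j hj
          rw [qz, if_neg (by omega)]; simp
      · simp [hk]

theorem pderiv_qz (k : ℕ) (e : ℤ) :
    pderiv k (qz e) = if Odd k then C (2 / (k : ℚ)) * qz (e - k) else 0 := by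
  by_cases he : 0 ≤ e
  · obtain ⟨m, rfl⟩ := Int.eq_ofNat_of_zero_le he
    rw [← pderiv_q]; simp [qz]
  · rw [qz, qz, if_neg he, if_neg (show ¬ (0 ≤ e - k) by omega)]; simp

theorem pderiv_phi (k : ℕ) (e : ℤ) (f : Gm) : pderiv k (phi e f) =
    (if Odd k then C (2 / (k : ℚ)) * phi (e - k) f else 0) + phi e (pderiv k f) := by
  obtain ⟨B, hB⟩ := exists_S_bound f
  have hB' : ∀ j, B ≤ j → S j (pderiv k f) = 0 := fun j hj => by rw [← pderiv_S, hB j hj, map_zero]
  rw [phi_eq e f B hB, phi_eq _ f B hB, phi_eq _ _ B hB', map_sum]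
  have : ∀ l : ℕ, pderiv k ((-1) ^ l * qz (e + l) * S l f) =
      (if Odd k then C (2 / (k : ℚ)) * ((-1) ^ l * qz (e - k + l) * S l f) else 0) +
      (-1) ^ l * qz (e + l) * S l (pderiv k f) := by
    intro l
    have h0 : pderiv k ((-1 : Gm) ^ l) = 0 := by
      rcases neg_one_pow_eq_or Gm l with h | h <;> simp [h]
    simp only [Derivation.leibniz, smul_eq_mul, h0, pderiv_qz, pderiv_S,
      show e + l - k = e - k + l by ring]
    split_ifs <;> ring
  simp only [this, Finset.sum_add_distrib]
  congr 1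
  split_ifs
  · rw [Finset.mul_sum]
  · simp

theorem phi_mul_X (k : ℕ) (hk : Odd k) (e : ℤ) (f : Gm) :
    X k * phi e f = phi (e + k) f + phi e (X k * f) := by
  obtain ⟨B, hB⟩ := exists_S_bound f
  have h1 : ∀ j, k + B ≤ j → S j f = 0 := fun j hj => hB j (by omega)
  have h2 : ∀ j, k + B ≤ j → S j (X k * f) = 0 := fun j hj => by
    rw [mul_comm, S_mul_X, h1 j hj, hB (j - k) (by omega)]; simp
  rw [phi_eq e f _ h1, phi_eq _ f B hB, phi_eq _ _ _ h2]
  simp only [mul_comm (X k) f, S_mul_X, mul_add, Finset.sum_add_distrib]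
  have : ∑ l ∈ range (k + B), (-1) ^ l * qz (e + l) *
      (if Odd k ∧ k ≤ l then S (l - k) f else 0) =
      - ∑ l ∈ range B, (-1) ^ l * qz (e + k + l) * S l f := by
    rw [Finset.sum_range_add, Finset.sum_eq_zero, zero_add, ← Finset.sum_neg_distrib]
    · refine Finset.sum_congr rfl fun l _ => ?_
      rw [if_pos ⟨hk, by omega⟩, pow_add, hk.neg_one_pow, Nat.add_sub_cancel_left]
      push_cast; rw [add_assoc]; ring
    · intro l hl
      rw [if_neg (by have := mem_range.1 hl; omega), mul_zero]
  rw [this, Finset.mul_sum]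
  have : ∑ l ∈ range (k + B), X k * ((-1) ^ l * qz (e + l) * S l f) =
      ∑ l ∈ range (k + B), (-1) ^ l * qz (e + l) * (S l f * X k) :=
    Finset.sum_congr rfl fun _ _ => by ring
  rw [this]; ring

theorem sum_sym (T : ℤ → Gm) (B : ℕ) :
    ∑ a ∈ range (B + 1), C (w a) * (-1) ^ a * (T a + T (-a)) =
      2 * ∑ j ∈ range (2 * B + 1), (-1) ^ (j + B) * T (j - B) := by
  induction B with
  | zero => simp [w]; ring
  | succ B ih =>
    rw [Finset.sum_range_succ, ih, show 2 * (B + 1) + 1 = (2 * B + 1) + 1 + 1 by ring,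
      Finset.sum_range_succ _ (2 * B + 1 + 1), Finset.sum_range_succ' _ (2 * B + 1)]
    have e1 : ∑ j ∈ range (2 * B + 1), (-1) ^ (j + 1 + (B + 1)) * T ((j + 1 : ℕ) - (B + 1 : ℕ)) =
        ∑ j ∈ range (2 * B + 1), (-1) ^ (j + B) * T (j - B) := by
      refine Finset.sum_congr rfl fun j _ => ?_
      rw [show j + 1 + (B + 1) = j + B + 2 by ring, pow_add _ _ 2]
      push_cast
      rw [show (j : ℤ) + 1 - (B + 1) = j - B by ring]; ring
    rw [e1]
    have e2 : (((2 * B + 1 + 1 : ℕ) : ℤ) - (B + 1 : ℕ)) = (B + 1 : ℕ) := by push_cast; ring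
    have e3 : (((0 : ℕ) : ℤ) - (B + 1 : ℕ)) = -(B + 1 : ℕ) := by push_cast; ring
    have e4 : (C (w (B + 1)) : Gm) = 2 := by simp [w]; rfl
    rw [e2, e3, e4, show 2 * B + 1 + 1 + (B + 1) = (B + 1) + 2 * (B + 1) by ring,
      pow_add _ (B + 1) (2 * (B + 1)), pow_mul, zero_add]
    ring

theorem sum_qq (E F : ℤ) (h : 0 < E + F) (B : ℕ) (hE : E ≤ B) (hF : F ≤ B) :
    ∑ a ∈ range (B + 1), C (w a) * (-1) ^ a *
      (qz (E + a) * qz (F - a) + qz (F + a) * qz (E - a)) = 0 := by
  have := sum_sym (fun a => qz (E + a) * qz (F - a)) B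
  simp only [sub_neg_eq_add, ← sub_eq_add_neg] at this
  simp only [mul_comm (qz (F + _))]
  rw [this]
  obtain ⟨n, hn⟩ := Int.eq_ofNat_of_zero_le h.le
  obtain ⟨c, hc⟩ := Int.eq_ofNat_of_zero_le (show 0 ≤ B - E by omega)
  obtain ⟨r, hr⟩ := Int.eq_ofNat_of_zero_le (show 0 ≤ B - F by omega)
  rw [show 2 * B + 1 = c + (n + 1) + r by omega, Finset.sum_range_add, Finset.sum_range_add,
    Finset.sum_eq_zero, Finset.sum_eq_zero (s := range r), zero_add, add_zero]
  · have h2 := q_inv n (by omega)
    rw [Finset.Nat.sum_antidiagonal_eq_sum_range_succ_mk] at h2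
    have : ∑ x ∈ range (n + 1), (-1) ^ (c + x + B) *
        (qz (E + (((c + x : ℕ) : ℤ) - B)) * qz (F - (((c + x : ℕ) : ℤ) - B))) =
        (-1) ^ (c + B) * ∑ x ∈ range (n + 1), (-1) ^ x * q x * q (n - x) := by
      rw [Finset.mul_sum]
      refine Finset.sum_congr rfl fun x hx => ?_
      have hx' := mem_range.1 hx
      rw [qz, qz, if_pos (by omega), if_pos (by omega),
        show (E + (((c + x : ℕ) : ℤ) - B)).toNat = x by omega,
        show (F - (((c + x : ℕ) : ℤ) - B)).toNat = n - x by omega]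
      ring
    rw [this, h2]; simp
  · intro x _
    rw [qz, qz, if_neg (c := 0 ≤ F - _) (by omega)]; simp
  · intro x hx
    have := mem_range.1 hx
    rw [qz, if_neg (by omega)]; simp

theorem sum_box (F : ℕ → ℕ → Gm) (A B : ℕ) (hA : ∀ a b, A ≤ a → F a b = 0)
    (hB : ∀ a b, B ≤ b → F a b = 0) :
    ∑ l ∈ range (A + B), ∑ p ∈ antidiagonal l, F p.1 p.2 =
      ∑ a ∈ range A, ∑ b ∈ range B, F a b := by
  rw [Finset.sum_sigma', ← Finset.sum_product']
  refine Finset.sum_bij_ne_zero (fun x _ _ => x.2) (fun x _ hx => ?_) (fun x hx _ y hy _ hxy => ?_)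
    (fun p hp hp' => ?_) (fun _ _ _ => rfl)
  · rw [mem_product, mem_range, mem_range]
    constructor
    · by_contra h; exact hx (hA _ _ (by omega))
    · by_contra h; exact hx (hB _ _ (by omega))
  · obtain ⟨l, p⟩ := x
    obtain ⟨l', p'⟩ := y
    simp only [mem_sigma, HasAntidiagonal.mem_antidiagonal] at hx hy hxy
    subst hxy
    obtain rfl : l = l' := by omega
    rfl
  · rw [mem_product, mem_range, mem_range] at hp
    exact ⟨⟨p.1 + p.2, p⟩, by simp; omega, hp', rfl⟩

theorem phi_phi (e f : ℤ) (g : Gm) (A B : ℕ) (hB : ∀ j, B ≤ j → S j g = 0) (hA : f + B ≤ A) :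
    phi e (phi f g) = ∑ b ∈ range B, ∑ m ∈ range B, (-1) ^ (b + m) * S m (S b g) *
      ∑ a ∈ range A, C (w a) * (-1) ^ a * (qz (e + b + a) * qz (f + m - a)) := by
  have h1 : ∀ (a b : ℕ), A ≤ a → phi (f - a) (S b g) = 0 := fun a b ha => by
    rw [phi_eq _ _ B (S_S_bound hB b)]
    refine Finset.sum_eq_zero fun m hm => ?_
    have := mem_range.1 hm
    rw [qz, if_neg (by omega)]; simp
  have h2 : ∀ (a b : ℕ), B ≤ b → phi (f - a) (S b g) = 0 := fun a b hb => by rw [hB b hb, map_zero]
  rw [phi_eq e _ (A + B) (fun j hj => by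
    rw [S_phi]
    refine Finset.sum_eq_zero fun p hp => ?_
    have := HasAntidiagonal.mem_antidiagonal.1 hp
    by_cases h : A ≤ p.1
    · rw [h1 _ _ h, mul_zero]
    · rw [h2 _ _ (by omega), mul_zero])]
  have e1 : ∀ l ∈ range (A + B), (-1) ^ l * qz (e + l) * S l (phi f g) =
      ∑ p ∈ antidiagonal l, (-1) ^ (p.1 + p.2) * qz (e + (p.1 + p.2 : ℕ)) *
        (C (w p.1) * phi (f - p.1) (S p.2 g)) := by
    intro l _
    rw [S_phi, Finset.mul_sum]
    refine Finset.sum_congr rfl fun p hp => ?_
    rw [HasAntidiagonal.mem_antidiagonal.1 hp]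
  rw [Finset.sum_congr rfl e1, sum_box (fun a b => (-1) ^ (a + b) * qz (e + (a + b : ℕ)) *
        (C (w a) * phi (f - a) (S b g))) A B (fun a b h => by simp [h1 a b h])
        (fun a b h => by simp [h2 a b h]), Finset.sum_comm]
  refine Finset.sum_congr rfl fun b _ => ?_
  simp only [phi_eq _ _ B (S_S_bound hB _), Finset.mul_sum]
  rw [Finset.sum_comm]
  refine Finset.sum_congr rfl fun m _ => Finset.sum_congr rfl fun a _ => ?_
  push_cast
  rw [show e + (a + b) = e + b + a by ring, show f - a + m = f + m - a by ring]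
  ring

theorem phi_anti (e f : ℤ) (h : 0 < e + f) (g : Gm) : phi e (phi f g) = - phi f (phi e g) := by
  obtain ⟨B, hB⟩ := exists_S_bound g
  obtain ⟨A, hA1, hA2⟩ : ∃ A : ℕ, f + B ≤ A ∧ e + B ≤ A :=
    ⟨f.toNat + e.toNat + B, by omega, by omega⟩
  rw [phi_phi e f g (A + 1) B hB (by omega), phi_phi f e g (A + 1) B hB (by omega),
    Finset.sum_comm (f := fun b m => (-1) ^ (b + m) * S m (S b g) *
      ∑ a ∈ range (A + 1), C (w a) * (-1) ^ a * (qz (f + b + a) * qz (e + m - a))),
    eq_neg_iff_add_eq_zero, ← Finset.sum_add_distrib]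
  refine Finset.sum_eq_zero fun b hb => ?_
  rw [← Finset.sum_add_distrib]
  refine Finset.sum_eq_zero fun m hm => ?_
  have := mem_range.1 hb
  have := mem_range.1 hm
  rw [S_comm g b m, add_comm m b, ← mul_add, ← Finset.sum_add_distrib]
  have := sum_qq (e + b) (f + m) (by omega) A (by omega) (by omega)
  simp only [mul_add] at this
  rw [this, mul_zero]

end Pool.Agent.STS.QF
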