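import Pool.Agent.P.MP_bb7f8f_gt.QBasic

namespace Pool.Agent.STS.QF
open MvPolynomial Finset Equiv

/-- moments of a centred Gaussian of variance `1 / 2` -/
def mu (e : ℕ) : ℚ := if Even e then ((e - 1).doubleFactorial : ℚ) / 2 ^ (e / 2) else 0

/-- the parts of `A` in decreasing order -/
noncomputable def sl (A : Finset ℕ) : List ℤ := (A.sort (· ≥ ·)).map fun R : ℕ => (R : ℤ)

noncomputable def ddI {I : Type} [Fintype I] (κ : I → ℕ) (f : Gm) : Gm :=
  ((univ : Finset I).toList.map κ).foldr (fun k g => pderiv k g) f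

/-- the exponent `(1, …, 1)` -/
noncomputable def ones (I : Type) [Fintype I] : I →₀ ℕ := Finsupp.equivFunOnFinite.symm fun _ => 1

/-- product over the edges of a matching -/
noncomputable def EP {H R : Type} [Fintype H] [CommMonoid R] (α : Perm H) (F : H → R) : R :=
  ∏ x with Fintype.equivFin H x < Fintype.equivFin H (α x), F x

open Classical in
/-- sum over ribbon graphs with coloured faces -/
noncomputable def Wsum {H S R : Type} [Fintype H] [Fintype S] [CommRing R] (σ : Perm H)
    (Cm : S → S → R) : R :=
  ∑ α : Perm H with IsMt α, ∑ c : H → S with (∀ x, c (σ (α x)) = c x),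
    EP α fun x => Cm (c x) (c (α x))

noncomputable def xs {I : Type} (i : I) : MvPowerSeries I ℚ :=
  (1 + MvPowerSeries.X i) * (1 - MvPowerSeries.X i)⁻¹

end Pool.Agent.STS.QF
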