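import Pool.Agent.P.MP_bb7f8f_gt.Mid

/-! Coordinates on a framed surface with given cylinder data. -/

namespace Pool.Agent.STS
open Equiv Finset Filter

variable {H : Type} {σ : Perm H} {N k : ℕ} {T : Tri H N}

namespace StructUp

lemma io_apply (i : Fin N) (b : Bool) : io N (i, b) = (i, !b) := rfl

lemma io_io (x : XS N) : io N (io N x) = x := by
  obtain ⟨i, b⟩ := x; simp [io_apply]

lemma io_ne (x : XS N) : io N x ≠ x := by
  obtain ⟨i, b⟩ := x; simp [io_apply]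

lemma pow_succ_app {X : Type} (p : Perm X) (n : ℕ) (x : X) : (p ^ (n + 1)) x = p ((p ^ n) x) := by
  rw [pow_succ', Perm.mul_apply]

lemma pow_succ_app' {X : Type} (p : Perm X) (n : ℕ) (x : X) : (p ^ (n + 1)) x = (p ^ n) (p x) := by
  rw [pow_succ, Perm.mul_apply]

lemma pow_add_app {X : Type} (p : Perm X) (m n : ℕ) (x : X) :
    (p ^ (m + n)) x = (p ^ m) ((p ^ n) x) := by
  rw [pow_add, Perm.mul_apply]

lemma dn_apply (x : XS N) : dn T x = T.1 (io N x) := rfl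

lemma fa_mem (hT : IsFr σ T) (x : XS N) :
    T.2.1 (T.1 x) ∈ Set.range T.2.2 ↔ x ∈ Set.range T.2.2 := by
  constructor
  · rintro ⟨h, hh⟩
    refine ⟨σ.symm h, ?_⟩
    have := hT.eqv (σ.symm h)
    rw [Equiv.apply_symm_apply, hh] at this
    exact (T.1.injective (T.2.1.injective this)).symm
  · rintro ⟨h, rfl⟩
    exact ⟨σ h, hT.eqv h⟩

lemma a_mem (hT : IsFr σ T) (x : XS N) :
    T.1 x ∈ Set.range T.2.2 ↔ T.2.1 x ∈ Set.range T.2.2 := by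
  rw [← fa_mem hT, hT.aa]

lemma faf (hT : IsFr σ T) {y : XS N} (hy : T.2.1 y ∉ Set.range T.2.2) :
    T.2.1 (T.1 (T.2.1 y)) = T.1 y ∧ T.2.1 y ≠ T.1 y := by
  have := hT.reg (T.1 y) (by rwa [a_mem hT])
  rwa [hT.aa] at this

lemma a_row (hT : IsFr σ T) (y : XS N) (n : ℕ)
    (hn : ∀ i, 0 < i → i ≤ n → (T.2.1 ^ i) y ∉ Set.range T.2.2) (j : ℕ) (hj : j ≤ n) :
    (T.2.1 ^ j) (T.1 ((T.2.1 ^ n) y)) = T.1 ((T.2.1 ^ (n - j)) y) := by
  induction j with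
  | zero => simp
  | succ j ih =>
    rw [pow_succ_app, ih (by omega), show n - j = n - (j + 1) + 1 by omega, pow_succ_app]
    refine (faf hT ?_).1
    rw [← pow_succ_app]
    exact hn _ (by omega) (by omega)

lemma f_io_f (hT : IsFr σ T) (x : XS N) : T.2.1 (io N (T.2.1 x)) = io N x := by
  have := congrArg (io N) (hT.ff x)
  rwa [io_io] at this

lemma dn_io_dn (hT : IsFr σ T) (x : XS N) : dn T (io N (dn T x)) = io N x := by
  rw [dn_apply, io_io, dn_apply, hT.aa]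

lemma dn_pow_io (hT : IsFr σ T) (j : ℕ) (x : XS N) :
    (dn T ^ j) (io N ((dn T ^ j) x)) = io N x := by
  induction j with
  | zero => simp
  | succ j ih => rw [pow_succ_app', pow_succ_app, dn_io_dn hT, ih]

lemma dn_pow_io' (hT : IsFr σ T) {j n : ℕ} (hj : j ≤ n) (x : XS N) :
    (dn T ^ j) (io N ((dn T ^ n) x)) = io N ((dn T ^ (n - j)) x) := by
  conv_lhs => rw [show n = j + (n - j) by omega, pow_add_app, dn_pow_io hT]

lemma top_f {y : XS N} : Top T (T.2.1 y) ↔ Top T y := by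
  simp only [Top, Perm.sameCycle_apply_left]

lemma top_pow {y : XS N} (m : ℕ) : Top T ((T.2.1 ^ m) y) ↔ Top T y := by
  simp only [Top, Perm.sameCycle_pow_left]

lemma top_of_mem {y : XS N} (hy : y ∈ Set.range T.2.2) : Top T y := by
  obtain ⟨h, rfl⟩ := hy
  exact ⟨h, Perm.SameCycle.refl _ _⟩

lemma f_dn (hT : IsFr σ T) {y : XS N} (hy : ¬ Top T (dn T y)) :
    T.2.1 (dn T y) = dn T (T.2.1 y) := by
  have h1 : T.2.1 (io N (T.2.1 y)) ∉ Set.range T.2.2 := by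
    rw [f_io_f hT, ← fa_mem hT]
    exact fun h => hy (top_f.1 (top_of_mem h))
  have := (faf hT h1).1
  rwa [f_io_f hT] at this

lemma f_dn_pow (hT : IsFr σ T) {y : XS N} (j : ℕ)
    (hy : ∀ i, 0 < i → i ≤ j → ¬ Top T ((dn T ^ i) y)) :
    T.2.1 ((dn T ^ j) y) = (dn T ^ j) (T.2.1 y) := by
  induction j with
  | zero => simp
  | succ j ih =>
    rw [pow_succ_app, f_dn hT, ih fun i h1 h2 => hy i h1 (by omega), ← pow_succ_app]
    rw [← pow_succ_app]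
    exact hy _ (by omega) le_rfl

lemma walk (hi : Function.Injective T.2.2) {φ : Perm H} {ℓ : H → ℕ} (hp : ∀ x, 1 ≤ ℓ x)
    (r2 : ∀ x, (T.2.1 ^ ℓ x) (T.2.2 x) = T.2.2 (φ x))
    (r3 : ∀ x i, 0 < i → i < ℓ x → (T.2.1 ^ i) (T.2.2 x) ∉ Set.range T.2.2) (m : ℕ) (x x' : H)
    (h : (T.2.1 ^ m) (T.2.2 x) = T.2.2 x') :
    ∃ s : ℕ, (φ ^ s) x = x' ∧ m = ∑ j ∈ range s, ℓ ((φ ^ j) x) := by
  induction m using Nat.strong_induction_on generalizing x with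
  | _ m ih =>
  rcases Nat.eq_zero_or_pos m with rfl | hm
  · exact ⟨0, hi (by simpa using h), rfl⟩
  have h1 : ℓ x ≤ m := by
    by_contra h2
    exact r3 x m hm (by omega) ⟨x', h.symm⟩
  have := hp x
  obtain ⟨s, hs, hs'⟩ := ih (m - ℓ x) (by omega) (φ x)
    (by rw [← r2, ← pow_add_app, show m - ℓ x + ℓ x = m by omega, h])
  refine ⟨s + 1, by rw [pow_succ_app', hs], ?_⟩
  rw [sum_range_succ']
  simp only [pow_succ_app', ← hs', pow_zero, Perm.one_apply]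
  omega

lemma walk' {φ : Perm H} {ℓ : H → ℕ} (r2 : ∀ x, (T.2.1 ^ ℓ x) (T.2.2 x) = T.2.2 (φ x))
    (s : ℕ) (x : H) :
    (T.2.1 ^ ∑ j ∈ range s, ℓ ((φ ^ j) x)) (T.2.2 x) = T.2.2 ((φ ^ s) x) := by
  induction s with
  | zero => simp
  | succ s ih => rw [sum_range_succ, add_comm, pow_add_app, ih, r2, pow_succ_app]

variable [Fintype H]

/-- cylinder data without the area condition -/
structure Pre (σ : Perm H) (δ : Datum H k) : Prop where
  lab : IsLab σ δ.α δ.c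
  pos : ∀ x, 1 ≤ δ.ℓ x
  hpos : ∀ i, 1 ≤ δ.h i
  tlt : ∀ i, δ.t i < δ.w i

variable [Nonempty H] {δ : Datum H k}

lemma c_bs (hd : Pre σ δ) (a : Fin k × Bool) : δ.c (δ.bs a) = a :=
  Function.rightInverse_invFun hd.lab.2 a

/-- coordinates -/
noncomputable def co (T : Tri H N) (δ : Datum H k) (a : Fin k × Bool) (m j : ℕ) : XS N :=
  (dn T ^ j) ((T.2.1 ^ m) (T.2.2 (δ.bs a)))

lemma co_mod (hd : Pre σ δ) (hr : Realizes σ T δ) (a : Fin k × Bool) (m j : ℕ) :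
    co T δ a (m % δ.w a.1) j = co T δ a m j := by
  unfold co
  conv_rhs => rw [← Nat.mod_add_div m (δ.w a.1), pow_add_app,
    (hr.r6 _ _).2 (by rw [c_bs hd]; exact dvd_mul_right _ _)]

lemma co_f (hd : Pre σ δ) (hT : IsFr σ T) (hr : Realizes σ T δ) (a : Fin k × Bool) (m j : ℕ)
    (hj : j < δ.h a.1) : T.2.1 (co T δ a m j) = co T δ a (m + 1) j := by
  unfold co
  rw [f_dn_pow hT, pow_succ_app]
  intro i h1 h2
  exact hr.r4 _ _ _ h1 (by rw [c_bs hd]; omega)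

lemma co_io (hd : Pre σ δ) (hT : IsFr σ T) (hr : Realizes σ T δ) (a : Fin k × Bool) (m j : ℕ)
    (hj : j < δ.h a.1) : io N (co T δ a m j) =
      co T δ (a.1, !a.2) (δ.t a.1 + m * (δ.w a.1 - 1)) (δ.h a.1 - 1 - j) := by
  unfold co
  have h1 : io N ((dn T ^ (δ.h a.1 - 1)) ((T.2.1 ^ m) (T.2.2 (δ.bs a)))) =
      (T.2.1 ^ (δ.t a.1 + m * (δ.w a.1 - 1))) (T.2.2 (δ.bs (a.1, !a.2))) := by
    apply (T.2.1 ^ m).injective
    have := hd.tlt a.1
    rw [hr.r5 a.1 a.2 m, ← pow_add_app, show m + (δ.t a.1 + m * (δ.w a.1 - 1)) =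
      δ.t a.1 + δ.w a.1 * m by
        obtain ⟨u, hu⟩ : ∃ u, δ.w a.1 = u + 1 := ⟨δ.w a.1 - 1, by omega⟩
        rw [hu, Nat.add_sub_cancel]; ring, pow_add_app,
      (hr.r6 _ (δ.w a.1 * m)).2 (by rw [c_bs hd]; exact dvd_mul_right _ _)]
  rw [← h1, dn_pow_io' hT (by omega), show δ.h a.1 - 1 - (δ.h a.1 - 1 - j) = j by omega]

lemma co_th (hd : Pre σ δ) (x : H) : ∃ m, ∀ (T : Tri H N), Realizes σ T δ →
    T.2.2 x = (T.2.1 ^ m) (T.2.2 (δ.bs (δ.c x))) := by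
  obtain ⟨s, hs⟩ := ((hd.lab.1 _ _).1 (c_bs hd (δ.c x))).exists_nat_pow_eq
  exact ⟨_, fun T hr => by rw [walk' (φ := σ * δ.α) hr.r2 s, hs]⟩

lemma co_red (hd : Pre σ δ) (m : ℕ) (x : H) : ∃ x' i, i < δ.ℓ x' ∧ ∀ (T : Tri H N),
    Realizes σ T δ → (T.2.1 ^ m) (T.2.2 x) = (T.2.1 ^ i) (T.2.2 x') := by
  induction m using Nat.strong_induction_on generalizing x with
  | _ m ih =>
  by_cases h : m < δ.ℓ x
  · exact ⟨x, m, h, fun _ _ => rfl⟩
  have := hd.pos x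
  obtain ⟨x', i, h1, h2⟩ := ih (m - δ.ℓ x) (by omega) (σ (δ.α x))
  refine ⟨x', i, h1, fun T hr => ?_⟩
  rw [← h2 T hr, ← hr.r2, ← pow_add_app, show m - δ.ℓ x + δ.ℓ x = m by omega]

lemma co_a (hd : Pre σ δ) (a : Fin k × Bool) (m j : ℕ) (hj : j < δ.h a.1) :
    ∃ a' m' j', j' < δ.h a'.1 ∧ ∀ (T : Tri H N), IsFr σ T → Realizes σ T δ →
      T.1 (co T δ a m j) = co T δ a' m' j' := by
  rcases j with _ | j
  · obtain ⟨x, i, hi, h1⟩ := co_red (N := N) hd m (δ.bs a)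
    obtain ⟨m', h2⟩ := co_th (N := N) hd (δ.α x)
    refine ⟨δ.c (δ.α x), δ.ℓ x - 1 - i + m', 0, hd.hpos _, fun T hT hr => ?_⟩
    simp only [co, pow_zero, Perm.one_apply]
    rw [h1 T hr, pow_add_app, ← h2 T hr, hr.r1, a_row hT _ _
      (fun i h1 h2 => hr.r3 x i h1 (by omega)) _ (by omega)]
    congr 3; omega
  · refine ⟨(a.1, !a.2), δ.t a.1 + m * (δ.w a.1 - 1), δ.h a.1 - 1 - j, by simp only; omega,
      fun T hT hr => ?_⟩
    rw [← co_io hd hT hr _ _ _ (by omega)]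
    unfold co
    rw [pow_succ_app, dn_apply, hT.aa]

/-- index set of the coordinates -/
abbrev Idx (δ : Datum H k) := Σ a : Fin k × Bool, Fin (δ.w a.1) × Fin (δ.h a.1)

noncomputable def cx (T : Tri H N) (δ : Datum H k) (p : Idx δ) : XS N := co T δ p.1 p.2.1 p.2.2

lemma to_idx (hd : Pre σ δ) (a : Fin k × Bool) (m j : ℕ) (hj : j < δ.h a.1) :
    ∃ p : Idx δ, ∀ T : Tri H N, Realizes σ T δ → co T δ a m j = cx T δ p :=
  ⟨⟨a, ⟨m % δ.w a.1, Nat.mod_lt _ (Nat.zero_lt_of_lt (hd.tlt _))⟩, ⟨j, hj⟩⟩,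
    fun _ hr => (co_mod hd hr _ _ _).symm⟩

lemma cx_ops (hd : Pre σ δ) (p : Idx δ) : ∃ p₁ p₂ p₃ : Idx δ, ∀ T : Tri H N, IsFr σ T →
    Realizes σ T δ → io N (cx T δ p) = cx T δ p₁ ∧ T.1 (cx T δ p) = cx T δ p₂ ∧
      T.2.1 (cx T δ p) = cx T δ p₃ := by
  obtain ⟨a, ⟨m, hm⟩, ⟨j, hj⟩⟩ := p
  obtain ⟨p₁, h1⟩ := to_idx (N := N) hd (a.1, !a.2) (δ.t a.1 + m * (δ.w a.1 - 1))
    (δ.h a.1 - 1 - j) (by simp only; omega)
  obtain ⟨a', m', j', hj', h⟩ := co_a (N := N) hd a m j hj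
  obtain ⟨p₂, h2⟩ := to_idx (N := N) hd a' m' j' hj'
  obtain ⟨p₃, h3⟩ := to_idx (N := N) hd a (m + 1) j hj
  exact ⟨p₁, p₂, p₃, fun T hT hr => ⟨(co_io hd hT hr _ _ _ hj).trans (h1 T hr),
    (h T hT hr).trans (h2 T hr), (co_f hd hT hr _ _ _ hj).trans (h3 T hr)⟩⟩

lemma cx_th (hd : Pre σ δ) (x : H) : ∃ p : Idx δ, ∀ T : Tri H N, Realizes σ T δ →
    T.2.2 x = cx T δ p := by
  obtain ⟨m, hm⟩ := co_th (N := N) hd x
  obtain ⟨p, hp⟩ := to_idx (N := N) hd (δ.c x) m 0 (hd.hpos _)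
  exact ⟨p, fun T hr => (hm T hr).trans (hp T hr)⟩

lemma cx_surj (hd : Pre σ δ) (hT : IsFr σ T) (hr : Realizes σ T δ) :
    Function.Surjective (cx T δ) := by
  have h1 : ∀ x ∈ Set.range (cx T δ), io N x ∈ Set.range (cx T δ) ∧ T.1 x ∈ Set.range (cx T δ) ∧
      T.2.1 x ∈ Set.range (cx T δ) := by
    rintro _ ⟨p, rfl⟩
    obtain ⟨p₁, p₂, p₃, h⟩ := cx_ops (N := N) hd p
    obtain ⟨e1, e2, e3⟩ := h T hT hr
    exact ⟨⟨_, e1.symm⟩, ⟨_, e2.symm⟩, ⟨_, e3.symm⟩⟩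
  have h2 : Set.MapsTo T.2.1.symm (Set.range (cx T δ)) (Set.range (cx T δ)) :=
    Perm.perm_symm_mapsTo_of_mapsTo _ fun x hx => (h1 x hx).2.2
  have h3 : ∀ x y, Relation.EqvGen (fun p q => q = io N p ∨ q = T.1 p ∨ q = T.2.1 p) x y →
      (x ∈ Set.range (cx T δ) ↔ y ∈ Set.range (cx T δ)) := by
    intro x y h
    induction h with
    | rel p q h =>
      rcases h with rfl | rfl | rfl
      · exact ⟨fun h => (h1 _ h).1, fun h => by simpa [io_io] using (h1 _ h).1⟩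
      · exact ⟨fun h => (h1 _ h).2.1, fun h => by simpa [hT.aa] using (h1 _ h).2.1⟩
      · exact ⟨fun h => (h1 _ h).2.2, fun h => by simpa using h2 h⟩
    | refl => rfl
    | symm _ _ _ ih => exact ih.symm
    | trans _ _ _ _ _ ih ih' => exact ih.trans ih'
  intro y
  obtain ⟨p, hp⟩ := cx_th (N := N) hd (Classical.arbitrary H)
  exact (h3 _ y (hT.conn _ _)).1 ⟨p, (hp T hr).symm⟩

lemma cx_inj (hd : Pre σ δ) (hT : IsFr σ T) (hr : Realizes σ T δ) :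
    Function.Injective (cx T δ) := by
  have h1 : ∀ a m j a' m' j', j' < δ.h a'.1 → co T δ a m j = co T δ a' m' j' → j' ≤ j := by
    intro a m j a' m' j' hj h
    by_contra h2
    unfold co at h
    rw [show j' = j + (j' - j) by omega, pow_add_app] at h
    refine hr.r4 (δ.bs a') m' (j' - j) (by omega) (by rw [c_bs hd]; omega) ?_
    rw [← (dn T ^ j).injective h, top_pow]
    exact top_of_mem ⟨_, rfl⟩
  have h2 : ∀ a m a' m', m ≤ m' → m' < δ.w a'.1 →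
      (T.2.1 ^ m) (T.2.2 (δ.bs a)) = (T.2.1 ^ m') (T.2.2 (δ.bs a')) → a = a' ∧ m = m' := by
    intro a m a' m' hm hw h
    rw [show m' = m + (m' - m) by omega, pow_add_app] at h
    have h3 := ((T.2.1 ^ m).injective h).symm
    obtain ⟨s, hs, -⟩ := walk (φ := σ * δ.α) hT.inj hd.pos hr.r2 hr.r3 _ _ _ h3
    have h4 : δ.c (δ.bs a') = δ.c (δ.bs a) := (hd.lab.1 _ _).2 ⟨s, by simpa using hs⟩
    rw [c_bs hd, c_bs hd] at h4
    subst h4
    have := (hr.r6 _ _).1 h3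
    rw [c_bs hd] at this
    exact ⟨rfl, by have := Nat.eq_zero_of_dvd_of_lt this (by omega); omega⟩
  rintro ⟨a, ⟨m, hm⟩, ⟨j, hj⟩⟩ ⟨a', ⟨m', hm'⟩, ⟨j', hj'⟩⟩ h
  obtain rfl : j = j' := le_antisymm (h1 _ _ _ _ _ _ hj h.symm) (h1 _ _ _ _ _ _ hj' h)
  have h3 := (dn T ^ j).injective h
  rcases le_total m m' with hh | hh
  · obtain ⟨rfl, rfl⟩ := h2 _ _ _ _ hh hm' h3
    rfl
  · obtain ⟨rfl, rfl⟩ := h2 _ _ _ _ hh hm h3.symm
    rfl

lemma area (hd : Pre σ δ) (hT : IsFr σ T) (hr : Realizes σ T δ) : ∑ i, δ.h i * δ.w i = N := by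
  have := Fintype.card_of_bijective ⟨cx_inj hd hT hr, cx_surj hd hT hr⟩
  simp only [Fintype.card_sigma, Fintype.card_prod, Fintype.card_fin, Fintype.card_bool,
    Fintype.sum_prod_type, sum_const, card_univ, smul_eq_mul, ← mul_sum] at this
  simp only [mul_comm (δ.h _)]
  omega

lemma fibre (hd : Pre σ δ) :
    Nat.card {T : Tri H N // IsFr σ T ∧ Realizes σ T δ} ≤
      Nat.card {g : Perm (XS N) // g * io N = io N * g} := by
  rcases isEmpty_or_nonempty {T : Tri H N // IsFr σ T ∧ Realizes σ T δ} with h | ⟨⟨T₀⟩⟩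
  · simp
  let e : {T : Tri H N // IsFr σ T ∧ Realizes σ T δ} → Idx δ ≃ XS N := fun T =>
    Equiv.ofBijective _ ⟨cx_inj hd T.2.1 T.2.2, cx_surj hd T.2.1 T.2.2⟩
  have he : ∀ T p, e T p = cx T.1 δ p := fun _ _ => rfl
  refine Nat.card_le_card_of_injective (fun T => ⟨(e T₀).symm.trans (e T), ?_⟩) ?_
  · ext1 x
    obtain ⟨p, rfl⟩ := (e T₀).surjective x
    obtain ⟨p₁, p₂, p₃, h⟩ := cx_ops (N := N) hd p
    have h0 : io N (e T₀ p) = e T₀ p₁ := (h _ T₀.2.1 T₀.2.2).1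
    have h1 : io N (e T p) = e T p₁ := (h _ T.2.1 T.2.2).1
    simp only [Perm.mul_apply, h0, Equiv.trans_apply, Equiv.symm_apply_apply, h1]
  · intro T T' h
    have h1 : ∀ p, cx T.1 δ p = cx T'.1 δ p := fun p => by
      have := congrArg (fun g : {g : Perm (XS N) // g * io N = io N * g} => g.1 (e T₀ p)) h
      simpa only [Equiv.trans_apply, Equiv.symm_apply_apply, he T, he T'] using this
    have h2 : ∀ x, T.1.1 x = T'.1.1 x ∧ T.1.2.1 x = T'.1.2.1 x := by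
      intro x
      obtain ⟨p, rfl⟩ := cx_surj hd T.2.1 T.2.2 x
      obtain ⟨p₁, p₂, p₃, h⟩ := cx_ops (N := N) hd p
      obtain ⟨-, e2, e3⟩ := h _ T.2.1 T.2.2
      obtain ⟨-, e2', e3'⟩ := h _ T'.2.1 T'.2.2
      rw [e2, e3, h1 p, e2', e3', h1, h1]
      exact ⟨rfl, rfl⟩
    refine Subtype.ext (Prod.ext (Equiv.ext fun x => (h2 x).1)
      (Prod.ext (Equiv.ext fun x => (h2 x).2) (funext fun x => ?_)))
    obtain ⟨p, hp⟩ := cx_th (N := N) hd x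
    rw [hp _ T.2.2, hp _ T'.2.2, h1]

end StructUp

end Pool.Agent.STS
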