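import Pool.Agent.P.MP_bb7f8f_gt.Mid

/-!
The cylinder sums: a bound for the weighted sum over tuples of odd numbers, and the merging of
two such sums.
-/

namespace Pool.Agent.STS
open Equiv Finset Filter

namespace Xi
open Polynomial

lemma coeff_pow_nonneg (p : ℝ[X]) (h0 : ∀ n, 0 ≤ p.coeff n) (k : ℕ) :
    ∀ n, 0 ≤ (p ^ k).coeff n := by
  induction k with
  | zero =>
    intro n
    rw [pow_zero, coeff_one]
    split_ifs <;> norm_num
  | succ k ih =>
    intro n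
    rw [pow_succ, coeff_mul]
    exact sum_nonneg fun x _ => mul_nonneg (ih _) (h0 _)

lemma sum_coeff_le_eval (p : ℝ[X]) (h0 : ∀ n, 0 ≤ p.coeff n) (d : ℕ) :
    ∑ i ∈ range d, p.coeff i ≤ p.eval 1 := by
  rw [eval_eq_sum_range' (n := d + (p.natDegree + 1)) (by omega)]
  simp only [one_pow, mul_one]
  exact sum_le_sum_of_subset_of_nonneg (range_subset_range.2 (by omega)) fun i _ _ => h0 i

lemma poly_bound (p : ℝ[X]) (h0 : ∀ n, 0 ≤ p.coeff n) (s : ℝ)
    (hs : ∀ n : ℕ, n * p.coeff n ≤ s) (k d : ℕ) :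
    (p ^ (k + 1)).coeff (d + 1) * (d + 1) ≤ (k + 1) * (s * p.eval 1 ^ k) := by
  have hs0 : 0 ≤ s := by simpa using hs 0
  rw [← coeff_derivative, derivative_pow_succ, mul_assoc, coeff_C_mul]
  refine mul_le_mul_of_nonneg_left ?_ (by positivity)
  rw [coeff_mul, ← eval_pow]
  calc ∑ x ∈ antidiagonal d, (p ^ k).coeff x.1 * (derivative p).coeff x.2
      ≤ ∑ x ∈ antidiagonal d, s * (p ^ k).coeff x.1 := by
        refine sum_le_sum fun x _ => ?_
        rw [mul_comm s, coeff_derivative]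
        refine mul_le_mul_of_nonneg_left ?_ (coeff_pow_nonneg p h0 k _)
        have := hs (x.2 + 1)
        push_cast at this
        linarith
    _ = s * ∑ i ∈ range (d + 1), (p ^ k).coeff i := by
        rw [← mul_sum, Nat.sum_antidiagonal_eq_sum_range_succ_mk]
    _ ≤ s * (p ^ k).eval 1 :=
        mul_le_mul_of_nonneg_left (sum_coeff_le_eval _ (coeff_pow_nonneg p h0 k) _) hs0

lemma cyl_nonneg (a b : ℕ) : 0 ≤ cyl a b := by
  unfold cyl
  positivity

lemma cyl_eq (a b : ℕ) (h : 1 ≤ a + b) :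
    cyl a b = 4 / ((a + b : ℕ) : ℝ) * (1 + 4 / 2 ^ (a + b)) / 2 ^ (a + b) * (a + b).choose a := by
  unfold cyl
  rw [Nat.cast_add_choose, ← Nat.mul_factorial_pred (show a + b ≠ 0 by omega), Nat.cast_mul]
  have h1 : ((a + b : ℕ) : ℝ) ≠ 0 := by exact_mod_cast (show a + b ≠ 0 by omega)
  have h2 : (a.factorial : ℝ) ≠ 0 := by exact_mod_cast a.factorial_ne_zero
  have h3 : (b.factorial : ℝ) ≠ 0 := by exact_mod_cast b.factorial_ne_zero
  field_simp

/-- the weight of a cylinder with `a` and `b` sides -/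
noncomputable def wt (T : ℕ → ℝ) (p : ℕ × ℕ) : ℝ := cyl p.1 p.2 * (T p.1 * T p.2)

/-- the total weight of the cylinders with `n` sides -/
noncomputable def tot (T : ℕ → ℝ) (n : ℕ) : ℝ :=
  ∑ p ∈ antidiagonal n with Odd p.1 ∧ Odd p.2, wt T p

lemma wt_nonneg {T : ℕ → ℝ} (hT : ∀ j, 0 ≤ T j) (p : ℕ × ℕ) : 0 ≤ wt T p :=
  mul_nonneg (cyl_nonneg _ _) (mul_nonneg (hT _) (hT _))

lemma tot_eq_zero (T : ℕ → ℝ) {n : ℕ} (hn : ¬ (Even n ∧ 2 ≤ n)) : tot T n = 0 := by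
  unfold tot
  refine sum_eq_zero fun p hp => ?_
  exfalso
  obtain ⟨h1, ⟨a, ha⟩, ⟨b, hb⟩⟩ := mem_filter.1 hp
  rw [HasAntidiagonal.mem_antidiagonal] at h1
  exact hn ⟨⟨a + b + 1, by omega⟩, by omega⟩

lemma binom (x y : ℝ) (n : ℕ) :
    ∑ p ∈ antidiagonal n, (n.choose p.1 : ℝ) * (x ^ p.1 * y ^ p.2) = (x + y) ^ n := by
  rw [(Commute.all x y).add_pow']
  simp only [nsmul_eq_mul]

lemma tot_le {τ : ℝ} (h0 : 0 ≤ τ) (h1 : τ < 1) (m : ℕ) {T : ℕ → ℝ} (hT : ∀ j, 0 ≤ T j)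
    (hT' : ∀ j, T j ≤ 1 + m * τ ^ j) {n : ℕ} (hn : 1 ≤ n) :
    tot T n ≤ 4 / (n : ℝ) * (1 + 4 / 2 ^ n) * (1 / 2 + (m + 1) ^ 2 * ((1 + τ) / 2) ^ n) := by
  have key : ∑ p ∈ antidiagonal n with Odd p.1 ∧ Odd p.2, (n.choose p.1 : ℝ) * (T p.1 * T p.2) ≤
      2 ^ n / 2 + (m + 1) ^ 2 * (1 + τ) ^ n := by
    have e1 := binom 1 1 n
    have e2 := binom (-1) 1 n
    have e3 := binom τ 1 n
    have e4 := binom 1 τ n
    have e5 := binom τ τ n
    simp only [one_pow, mul_one, one_mul] at e1 e2 e3 e4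
    rw [neg_add_cancel, zero_pow (by omega)] at e2
    calc ∑ p ∈ antidiagonal n with Odd p.1 ∧ Odd p.2, (n.choose p.1 : ℝ) * (T p.1 * T p.2)
        ≤ ∑ p ∈ antidiagonal n, ((n.choose p.1 : ℝ) / 2 - (n.choose p.1 : ℝ) * (-1) ^ p.1 / 2 +
            m * ((n.choose p.1 : ℝ) * τ ^ p.1) + m * ((n.choose p.1 : ℝ) * τ ^ p.2) +
            m ^ 2 * ((n.choose p.1 : ℝ) * (τ ^ p.1 * τ ^ p.2))) := by
          rw [sum_filter]
          refine sum_le_sum fun p _ => ?_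
          have hc : (0 : ℝ) ≤ n.choose p.1 := Nat.cast_nonneg _
          split_ifs with h
          · have h2 : T p.1 * T p.2 ≤ (1 + m * τ ^ p.1) * (1 + m * τ ^ p.2) :=
              mul_le_mul (hT' _) (hT' _) (hT _) (by positivity)
            have h3 := mul_le_mul_of_nonneg_left h2 hc
            rw [h.1.neg_one_pow]
            linarith
          · have h2 : (n.choose p.1 : ℝ) * (-1) ^ p.1 ≤ n.choose p.1 * 1 := by
              refine mul_le_mul_of_nonneg_left ?_ hc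
              rcases neg_one_pow_eq_or ℝ p.1 with h | h <;> rw [h]
              norm_num
            have h3 : 0 ≤ m * ((n.choose p.1 : ℝ) * τ ^ p.1) + m * ((n.choose p.1 : ℝ) * τ ^ p.2) +
              m ^ 2 * ((n.choose p.1 : ℝ) * (τ ^ p.1 * τ ^ p.2)) := by positivity
            linarith
      _ = (1 + 1) ^ n / 2 - 0 / 2 + m * (τ + 1) ^ n + m * (1 + τ) ^ n + m ^ 2 * (τ + τ) ^ n := by
          simp only [sum_add_distrib, sum_sub_distrib, ← mul_sum, ← sum_div, e1, e2, e3, e4, e5]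
      _ ≤ 2 ^ n / 2 + (m + 1) ^ 2 * (1 + τ) ^ n := by
          have h2 : (τ + τ) ^ n ≤ (1 + τ) ^ n := pow_le_pow_left₀ (by linarith) (by linarith) n
          have h3 := mul_le_mul_of_nonneg_left h2 (sq_nonneg (m : ℝ))
          have h4 : 0 ≤ (1 + τ) ^ n := by positivity
          rw [one_add_one_eq_two, add_comm τ 1]
          linarith
  have h2 : tot T n = 4 / (n : ℝ) * (1 + 4 / 2 ^ n) / 2 ^ n *
      ∑ p ∈ antidiagonal n with Odd p.1 ∧ Odd p.2, (n.choose p.1 : ℝ) * (T p.1 * T p.2) := by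
    unfold tot
    rw [mul_sum]
    refine sum_congr rfl fun p hp => ?_
    have h3 := mem_antidiagonal.1 (mem_filter.1 hp).1
    unfold wt
    rw [cyl_eq _ _ (by omega), h3, mul_assoc]
  rw [h2]
  refine (mul_le_mul_of_nonneg_left key (by positivity)).trans_eq ?_
  rw [div_pow]
  field_simp

lemma harm (D : ℕ) : ∑ n ∈ range (D + 1), (if Even n then 2 / (n : ℝ) else 0) +
    (if Even D then 0 else 1 / (D : ℝ)) ≤ (harmonic D : ℝ) := by
  induction D with
  | zero => simp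
  | succ D ih =>
    rw [sum_range_succ, harmonic_succ]
    push_cast
    by_cases h : Even D
    · have h2 : ¬ Even (D + 1) := by rw [Nat.even_add_one]; exact not_not.2 h
      rw [if_pos h] at ih
      rw [if_neg h2, if_neg h2, one_div]
      linarith
    · have h2 : Even (D + 1) := by rw [Nat.even_add_one]; exact h
      rw [if_neg h] at ih
      rw [if_pos h2, if_pos h2]
      have h3 : (0 : ℝ) < D := by
        have : D ≠ 0 := by
          rintro rfl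
          exact h Even.zero
        positivity
      have h4 : 1 / ((D : ℝ) + 1) ≤ 1 / (D : ℝ) := one_div_le_one_div_of_le h3 (by linarith)
      have h5 : 2 / ((D : ℝ) + 1) = 1 / ((D : ℝ) + 1) + ((D : ℝ) + 1)⁻¹ := by
        rw [← one_div]
        ring
      linarith

lemma tot_bounds {τ : ℝ} (h0 : 0 ≤ τ) (h1 : τ < 1) (m : ℕ) {T : ℕ → ℝ} (hT : ∀ j, 0 ≤ T j)
    (hT' : ∀ j, T j ≤ 1 + m * τ ^ j) (n : ℕ) :
    n * tot T n ≤ 12 * (m + 1) ^ 2 ∧ tot T n ≤ (if Even n then 2 / (n : ℝ) else 0) +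
      8 * (m + 1) ^ 2 * ((1 + τ) / 2) ^ n := by
  by_cases hn : Even n ∧ 2 ≤ n
  · have h2 := tot_le h0 h1 m hT hT' (show 1 ≤ n by omega)
    have h3 : (2 : ℝ) ≤ n := by exact_mod_cast hn.2
    have h4 : (4 : ℝ) / 2 ^ n ≤ 1 := by
      rw [div_le_one (by positivity)]
      calc (4 : ℝ) = 2 ^ 2 := by norm_num
        _ ≤ 2 ^ n := pow_le_pow_right₀ (by norm_num) hn.2
    have h5 : ((1 + τ) / 2) ^ n ≤ 1 := pow_le_one₀ (by positivity) (by linarith)
    have h6 : (1 : ℝ) ≤ (m + 1) ^ 2 := one_le_pow₀ (by linarith [Nat.cast_nonneg (α := ℝ) m])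
    have h7 : (4 : ℝ) / 2 ^ n ≤ 4 * ((1 + τ) / 2) ^ n := by
      rw [div_eq_mul_inv, ← inv_pow]
      refine mul_le_mul_of_nonneg_left (pow_le_pow_left₀ (by norm_num) (by linarith) n) (by norm_num)
    have h8 : 4 / (n : ℝ) ≤ 2 := by
      rw [div_le_iff₀ (by linarith)]
      linarith
    have h9 : 0 ≤ 4 / (n : ℝ) := by positivity
    have h10 : (0 : ℝ) ≤ 4 / 2 ^ n := by positivity
    have h11 : 0 ≤ ((1 + τ) / 2) ^ n := by positivity
    generalize ((1 + τ) / 2) ^ n = x at *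
    generalize ((m : ℝ) + 1) ^ 2 = M at *
    generalize (4 : ℝ) / 2 ^ n = u at *
    have h12 : 0 ≤ M * x := by positivity
    have h13 : M * x ≤ M := by nlinarith
    have h14 : x ≤ M * x := by nlinarith
    constructor
    · have h15 := mul_le_mul_of_nonneg_left h2 (show (0 : ℝ) ≤ n by linarith)
      have h16 : (n : ℝ) * (4 / n * (1 + u) * (1 / 2 + M * x)) = 4 * (1 + u) * (1 / 2 + M * x) := by
        field_simp
      rw [h16] at h15
      nlinarith
    · rw [if_pos hn.1]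
      have h15 : 2 / (n : ℝ) = 4 / (n : ℝ) / 2 := by ring
      rw [h15]
      generalize 4 / (n : ℝ) = r at *
      have h16 : r * u ≤ 2 * u := by nlinarith
      have h17 : r * (1 + u) ≤ 4 := by nlinarith
      have h18 : r * (1 + u) * (M * x) ≤ 4 * (M * x) := mul_le_mul_of_nonneg_right h17 h12
      nlinarith
  · rw [tot_eq_zero T hn]
    refine ⟨by rw [mul_zero]; positivity, ?_⟩
    split_ifs <;> positivity

lemma sum_tot_le {τ : ℝ} (h0 : 0 ≤ τ) (h1 : τ < 1) (m : ℕ) {T : ℕ → ℝ} (hT : ∀ j, 0 ≤ T j)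
    (hT' : ∀ j, T j ≤ 1 + m * τ ^ j) (D : ℕ) :
    ∑ n ∈ range (D + 1), tot T n ≤ 1 + Real.log D + 8 * (m + 1) ^ 2 * (1 - (1 + τ) / 2)⁻¹ := by
  have h2 := sum_le_sum fun n (_ : n ∈ range (D + 1)) => (tot_bounds h0 h1 m hT hT' n).2
  rw [sum_add_distrib, ← mul_sum] at h2
  have h3 := harm D
  have h4 := harmonic_le_one_add_log D
  have h5 : (0 : ℝ) ≤ if Even D then 0 else 1 / (D : ℝ) := by split_ifs <;> positivity
  have h6 : ∑ n ∈ range (D + 1), ((1 + τ) / 2) ^ n ≤ (1 - (1 + τ) / 2)⁻¹ := by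
    have h7 : (0 : ℝ) ≤ (1 + τ) / 2 := by positivity
    have h8 : (1 + τ) / 2 < 1 := by linarith
    rw [← tsum_geometric_of_lt_one h7 h8]
    exact (summable_geometric_of_lt_one h7 h8).sum_le_tsum _ fun i _ => by positivity
  have h7 := mul_le_mul_of_nonneg_left h6 (show (0 : ℝ) ≤ 8 * (m + 1) ^ 2 by positivity)
  linarith

/-- pairs of odd numbers of sum at most `D` -/
def prs (D : ℕ) : Finset (ℕ × ℕ) :=
  (range (D + 1) ×ˢ range (D + 1)).filter fun p => Odd p.1 ∧ Odd p.2 ∧ p.1 + p.2 ≤ D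

/-- the generating polynomial of the weights -/
noncomputable def gen (T : ℕ → ℝ) (D : ℕ) : ℝ[X] :=
  ∑ p ∈ prs D, C (wt T p) * X ^ (p.1 + p.2)

lemma gen_coeff (T : ℕ → ℝ) (D n : ℕ) :
    (gen T D).coeff n = ∑ p ∈ prs D with p.1 + p.2 = n, wt T p := by
  unfold gen
  rw [finsetSum_coeff, sum_filter]
  refine sum_congr rfl fun p _ => ?_
  rw [coeff_C_mul_X_pow]
  simp only [eq_comm]

lemma gen_coeff_le {T : ℕ → ℝ} (hT : ∀ j, 0 ≤ T j) (D n : ℕ) : (gen T D).coeff n ≤ tot T n := by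
  rw [gen_coeff]
  refine sum_le_sum_of_subset_of_nonneg (fun p hp => ?_) fun p _ _ => wt_nonneg hT p
  simp only [prs, mem_filter, HasAntidiagonal.mem_antidiagonal] at hp ⊢
  exact ⟨hp.2, hp.1.2.1, hp.1.2.2.1⟩

lemma gen_eval_le {T : ℕ → ℝ} (hT : ∀ j, 0 ≤ T j) (D : ℕ) :
    (gen T D).eval 1 ≤ ∑ n ∈ range (D + 1), tot T n := by
  have h1 : (gen T D).eval 1 = ∑ p ∈ prs D, wt T p := by
    unfold gen
    rw [eval_finsetSum]
    simp
  rw [h1, ← sum_fiberwise_of_maps_to (t := range (D + 1)) (g := fun p => p.1 + p.2)]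
  · exact sum_le_sum fun n _ => (gen_coeff T D n).symm.le.trans (gen_coeff_le hT D n)
  · intro p hp
    have := (mem_filter.1 hp).2.2.2
    exact mem_range.2 (by omega)

lemma sum_OT_le {T : ℕ → ℝ} (hT : ∀ j, 0 ≤ T j) (D k : ℕ) :
    ∑ κ ∈ OT (Fin k × Bool) D, (∏ i, cyl (κ (i, true)) (κ (i, false))) * ∏ a, T (κ a) ≤
      (gen T D ^ k).coeff D := by
  have h1 : gen T D ^ k = ∑ f ∈ Fintype.piFinset (fun _ : Fin k => prs D),
      C (∏ i, wt T (f i)) * X ^ (∑ i, ((f i).1 + (f i).2)) := by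
    rw [← Fin.prod_const, gen, prod_univ_sum]
    refine sum_congr rfl fun f _ => ?_
    rw [prod_mul_distrib, prod_pow_eq_pow_sum, map_prod]
  rw [h1, finsetSum_coeff]
  simp only [coeff_C_mul_X_pow]
  rw [← sum_filter]
  have h2 : ∀ κ : Fin k × Bool → ℕ, (∏ i, cyl (κ (i, true)) (κ (i, false))) * ∏ a, T (κ a) =
      ∏ i, wt T (κ (i, true), κ (i, false)) := by
    intro κ
    rw [Fintype.prod_prod_type, ← prod_mul_distrib]
    refine prod_congr rfl fun i _ => ?_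
    rw [Fintype.prod_bool]
    rfl
  simp only [h2]
  rw [← sum_image (s := OT (Fin k × Bool) D)
    (g := fun (κ : Fin k × Bool → ℕ) (i : Fin k) => (κ (i, true), κ (i, false)))
    (f := fun f : Fin k → ℕ × ℕ => ∏ i, wt T (f i))]
  · refine sum_le_sum_of_subset_of_nonneg (fun f hf => ?_)
      fun f _ _ => prod_nonneg fun i _ => wt_nonneg hT _
    obtain ⟨κ, hκ, rfl⟩ := mem_image.1 hf
    simp only [OT, mem_filter, Fintype.mem_piFinset] at hκ
    obtain ⟨h3, h4, h5⟩ := hκ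
    rw [Fintype.sum_prod_type] at h5
    simp only [Fintype.sum_bool] at h5
    simp only [prs, mem_filter, Fintype.mem_piFinset, mem_product]
    refine ⟨fun i => ⟨⟨h3 _, h3 _⟩, h4 _, h4 _, ?_⟩, h5.symm⟩
    rw [← h5]
    exact single_le_sum (f := fun i => κ (i, true) + κ (i, false)) (fun _ _ => Nat.zero_le _)
      (mem_univ i)
  · intro κ _ κ' _ h
    funext a
    obtain ⟨i, b⟩ := a
    have h3 := congrFun h i
    simp only [Prod.mk.injEq] at h3
    cases b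
    · exact h3.2
    · exact h3.1

end Xi

variable {I : Type} [Fintype I] [DecidableEq I]

theorem xi (τ : ℝ) (h0 : 0 ≤ τ) (h1 : τ < 1) : ∃ C : ℝ, 1 ≤ C ∧ ∀ D ≥ 1, ∀ (m : ℕ) (T : ℕ → ℝ),
    (∀ j, 0 ≤ T j) → (∀ j, T j ≤ 1 + m * τ ^ j) →
    ∑ k ∈ range (D + 1), (∑ κ ∈ OT (Fin k × Bool) D,
      (∏ i, cyl (κ (i, true)) (κ (i, false))) * ∏ a, T (κ a)) / (2 ^ k * k.factorial) ≤
      C ^ ((m + 1) ^ 2) / √D := by
  have hq : 0 ≤ (1 - (1 + τ) / 2)⁻¹ := inv_nonneg.2 (by linarith)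
  generalize hq' : (1 - (1 + τ) / 2)⁻¹ = q at hq
  refine ⟨Real.exp (7 + 4 * q), Real.one_le_exp (by positivity), ?_⟩
  intro D hD m T hT hT'
  obtain ⟨d, rfl⟩ : ∃ d, D = d + 1 := ⟨D - 1, by omega⟩
  have hc0 : ∀ n, 0 ≤ (Xi.gen T (d + 1)).coeff n := fun n => by
    rw [Xi.gen_coeff]
    exact sum_nonneg fun p _ => Xi.wt_nonneg hT p
  have hs : ∀ n : ℕ, n * (Xi.gen T (d + 1)).coeff n ≤ 12 * ((m : ℝ) + 1) ^ 2 := fun n =>
    (mul_le_mul_of_nonneg_left (Xi.gen_coeff_le hT _ n) (Nat.cast_nonneg n)).trans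
      (Xi.tot_bounds h0 h1 m hT hT' n).1
  have hS := (Xi.gen_eval_le hT (d + 1)).trans (Xi.sum_tot_le h0 h1 m hT hT' (d + 1))
  rw [hq'] at hS
  have hS0 : 0 ≤ (Xi.gen T (d + 1)).eval 1 := by
    simpa using Xi.sum_coeff_le_eval _ hc0 0
  have hM : (1 : ℝ) ≤ (m + 1) ^ 2 := one_le_pow₀ (by linarith [Nat.cast_nonneg (α := ℝ) m])
  have hcast : (((m + 1) ^ 2 : ℕ) : ℝ) = (m + 1) ^ 2 := by push_cast; ring
  have hD0 : (0 : ℝ) < ((d + 1 : ℕ) : ℝ) := by positivity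
  generalize hp : Xi.gen T (d + 1) = p at hc0 hs hS hS0
  calc ∑ k ∈ range (d + 1 + 1), (∑ κ ∈ OT (Fin k × Bool) (d + 1),
        (∏ i, cyl (κ (i, true)) (κ (i, false))) * ∏ a, T (κ a)) / (2 ^ k * k.factorial)
      ≤ ∑ k ∈ range (d + 1 + 1), (p ^ k).coeff (d + 1) / (2 ^ k * k.factorial) := by
        refine sum_le_sum fun k _ => div_le_div_of_nonneg_right ?_ (by positivity)
        rw [← hp]
        exact Xi.sum_OT_le hT _ k
    _ = ∑ k ∈ range (d + 1), (p ^ (k + 1)).coeff (d + 1) / (2 ^ (k + 1) * (k + 1).factorial) := by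
        rw [sum_range_succ']
        simp [Polynomial.coeff_one]
    _ ≤ ∑ k ∈ range (d + 1), 6 * ((m : ℝ) + 1) ^ 2 / ((d + 1 : ℕ) : ℝ) *
          ((p.eval 1 / 2) ^ k / k.factorial) := by
        refine sum_le_sum fun k _ => ?_
        have h2 := Xi.poly_bound p hc0 _ hs k d
        rw [← le_div_iff₀ (by positivity)] at h2
        refine (div_le_div_of_nonneg_right h2 (by positivity)).trans_eq ?_
        have h3 : (k.factorial : ℝ) ≠ 0 := by exact_mod_cast k.factorial_ne_zero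
        rw [Nat.factorial_succ, div_pow, pow_succ (2 : ℝ) k]
        push_cast
        field_simp
        ring
    _ ≤ 6 * ((m : ℝ) + 1) ^ 2 / ((d + 1 : ℕ) : ℝ) * Real.exp (p.eval 1 / 2) := by
        rw [← mul_sum]
        exact mul_le_mul_of_nonneg_left (Real.sum_le_exp_of_nonneg (by positivity) _)
          (by positivity)
    _ ≤ Real.exp (6 * ((m : ℝ) + 1) ^ 2) / ((d + 1 : ℕ) : ℝ) *
          Real.exp (Real.log ((d + 1 : ℕ) : ℝ) / 2 + (1 + 4 * q) * ((m : ℝ) + 1) ^ 2) := by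
        refine mul_le_mul (div_le_div_of_nonneg_right ?_ hD0.le) (Real.exp_le_exp.2 ?_)
          (Real.exp_pos _).le (by positivity)
        · linarith [Real.add_one_le_exp (6 * ((m : ℝ) + 1) ^ 2)]
        · linarith
    _ = Real.exp (7 + 4 * q) ^ ((m + 1) ^ 2) / √((d + 1 : ℕ) : ℝ) := by
        have h2 : Real.exp (Real.log ((d + 1 : ℕ) : ℝ) / 2) = √((d + 1 : ℕ) : ℝ) := by
          rw [Real.exp_half, Real.exp_log hD0]
        have h3 : Real.exp (7 + 4 * q) ^ ((m + 1) ^ 2) = Real.exp (6 * ((m : ℝ) + 1) ^ 2) *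
            Real.exp ((1 + 4 * q) * ((m : ℝ) + 1) ^ 2) := by
          rw [← Real.exp_nat_mul, ← Real.exp_add, hcast]
          congr 1
          ring
        have h4 : 0 < √((d + 1 : ℕ) : ℝ) := Real.sqrt_pos.2 hD0
        have h5 := Real.mul_self_sqrt hD0.le
        rw [Real.exp_add, h2, h3]
        generalize √((d + 1 : ℕ) : ℝ) = r at h4 h5
        rw [← h5]
        field_simp

theorem merge (F : (I → ℕ) → ℝ) (hF : ∀ κ, 0 ≤ F κ) (T' T'' : ℕ → ℝ) (h' : ∀ j, 0 ≤ T' j)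
    (h'' : ∀ j, 0 ≤ T'' j) (d' d'' : ℕ) :
    ∑ L : Finset I, ∑ κ' ∈ OT {a // a ∈ L} d', ∑ κ'' ∈ OT {a // a ∈ Lᶜ} d'',
      F (fun a => if h : a ∈ L then κ' ⟨a, h⟩ else κ'' ⟨a, Finset.mem_compl.2 h⟩) *
        ((∏ a, T' (κ' a)) * ∏ a, T'' (κ'' a)) ≤
      ∑ κ ∈ OT I (d' + d''), F κ * ∏ a, (T' (κ a) + T'' (κ a)) := by
  simp only [Fintype.prod_add, mul_sum]
  rw [sum_comm (s := OT I (d' + d''))]
  refine sum_le_sum fun L _ => ?_
  rw [← sum_product']
  set glue : ({a // a ∈ L} → ℕ) × ({a // a ∈ Lᶜ} → ℕ) → I → ℕ :=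
    fun x a => if h : a ∈ L then x.1 ⟨a, h⟩ else x.2 ⟨a, Finset.mem_compl.2 h⟩ with hglue
  have g1 : ∀ x (a : {a // a ∈ L}), glue x a = x.1 a := fun x a => dif_pos a.2
  have g2 : ∀ x (a : {a // a ∈ Lᶜ}), glue x a = x.2 a := fun x a =>
    dif_neg (Finset.mem_compl.1 a.2)
  calc ∑ x ∈ OT {a // a ∈ L} d' ×ˢ OT {a // a ∈ Lᶜ} d'',
        F (glue x) * ((∏ a, T' (x.1 a)) * ∏ a, T'' (x.2 a))
      = ∑ x ∈ OT {a // a ∈ L} d' ×ˢ OT {a // a ∈ Lᶜ} d'',
        F (glue x) * ((∏ a ∈ L, T' (glue x a)) * ∏ a ∈ Lᶜ, T'' (glue x a)) := by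
        refine sum_congr rfl fun x _ => ?_
        rw [← prod_coe_sort L, ← prod_coe_sort Lᶜ]
        simp only [g1, g2]
    _ = ∑ κ ∈ (OT {a // a ∈ L} d' ×ˢ OT {a // a ∈ Lᶜ} d'').image glue,
        F κ * ((∏ a ∈ L, T' (κ a)) * ∏ a ∈ Lᶜ, T'' (κ a)) := by
        rw [sum_image]
        intro x _ y _ h
        refine Prod.ext (funext fun a => ?_) (funext fun a => ?_)
        · rw [← g1, ← g1, h]
        · rw [← g2, ← g2, h]
    _ ≤ ∑ κ ∈ OT I (d' + d''), F κ * ((∏ a ∈ L, T' (κ a)) * ∏ a ∈ Lᶜ, T'' (κ a)) := by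
        refine sum_le_sum_of_subset_of_nonneg (fun κ hκ => ?_) fun κ _ _ =>
          mul_nonneg (hF κ) (mul_nonneg (prod_nonneg fun a _ => h' _)
            (prod_nonneg fun a _ => h'' _))
        obtain ⟨x, hx, rfl⟩ := mem_image.1 hκ
        simp only [OT, mem_product, mem_filter, Fintype.mem_piFinset, mem_range] at hx ⊢
        obtain ⟨⟨a1, a2, a3⟩, b1, b2, b3⟩ := hx
        refine ⟨fun a => ?_, fun a => ?_, ?_⟩
        · by_cases h : a ∈ L
          · have := a1 ⟨a, h⟩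
            rw [← g1] at this
            exact this.trans_le (by omega)
          · have := b1 ⟨a, Finset.mem_compl.2 h⟩
            rw [← g2] at this
            exact this.trans_le (by omega)
        · by_cases h : a ∈ L
          · have := a2 ⟨a, h⟩
            rwa [← g1] at this
          · have := b2 ⟨a, Finset.mem_compl.2 h⟩
            rwa [← g2] at this
        · rw [← sum_add_sum_compl L, ← sum_coe_sort L, ← sum_coe_sort Lᶜ]
          simp only [g1, g2]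
          rw [a3, b3]

end Pool.Agent.STS
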