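import Pool.Agent.P.MP_bb7f8f_gt.Formula
import Pool.Agent.P.MP_bb7f8f_gt.LatUp
import Pool.Agent.P.MP_bb7f8f_gt.Asym
import Pool.Agent.P.MP_bb7f8f_gt.Xi
import Pool.Agent.P.MP_bb7f8f_gt.Est

/-! Assembly of the upper bound for surfaces with disconnected critical graph. -/

namespace Pool.Agent.STS
open Equiv Finset Filter

variable {H J I : Type} [Fintype H] [DecidableEq H] [Fintype J] [DecidableEq J]
  [Fintype I] [DecidableEq I] {σ : Perm H} {π : H → J} {v : J → ℕ} {D : ℕ}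

theorem cyc_res (hc : Cyc σ π v) (V : Finset J) :
    Cyc (res hc V) (fun x => (⟨π x.1, x.2⟩ : {j // j ∈ V})) fun j => v j.1 where
  same x y := by
    rw [res, Equiv.Perm.sameCycle_subtypePerm, ← hc.same]
    simp
  card j := by
    rw [← hc.card j.1]
    refine Finset.card_bij (fun x _ => x.1) (fun x hx => ?_) (fun x _ y _ h => Subtype.ext h)
      (fun x hx => ?_)
    · simpa [Subtype.ext_iff] using hx
    · have h : π x = j.1 := by simpa using hx
      exact ⟨⟨x, h ▸ j.2⟩, by simp [Subtype.ext_iff, h], rfl⟩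
  odd j := hc.odd j.1

theorem kap_coe (V : Finset J) (A : Finset ℕ) (u : ℕ → ℝ) :
    kap univ (fun j : {j // j ∈ V} => v j.1) A u = kap V v A u := by
  unfold kap
  rw [Finset.prod_coe_sort V fun j => ∑ R ∈ A, u R ^ v j]

theorem smsm {τ₀ τ₁ C : ℝ} (h0 : 0 < τ₀) (h1 : 0 ≤ τ₁) (hC : 1 ≤ C) (hf : FormulaAt τ₀ τ₁ C)
    (hc : Cyc σ π v) (hD : Fintype.card H = 2 * D) {d : ℕ} (hd : d ∈ Icc 1 (D / 2))
    {V : Finset J} (hV : V ∈ Spl v d) (b : I → ℕ) (u' u'' : ℕ → ℝ)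
    (hu' : ∀ R, 1 ≤ R → 0 < u' R) (hu'' : ∀ R, 1 ≤ R → 0 < u'' R) :
    ∑ L : Finset I, (Sm (res hc V) (fun a : {a // a ∈ L} => b a.1) : ℝ) *
        Sm (res hc Vᶜ) (fun a : {a // a ∈ Lᶜ} => b a.1) ≤
      4 ^ D * ∑ A' ∈ SP d, ∑ A'' ∈ SP (D - d),
        kap V v A' u' * kap Vᶜ v A'' u'' * DF A' * DF A'' * C ^ ((#A' + #A'') ^ 2) *
          τ₀⁻¹ ^ (D - A''.sup id) *
        ∑ κ ∈ OT I D, (∏ a, omP (κ a) (b a)) *
          ∏ a, (1 + ((#A' + #A'' - 1 : ℕ) : ℝ) * τ₁ ^ κ a) := by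
  rw [mem_Icc] at hd
  have hV1 : ∑ j ∈ V, v j = 2 * d := (mem_filter.1 hV).2
  have hV2 : ∑ j ∈ Vᶜ, v j = 2 * (D - d) := by
    have := Finset.sum_add_sum_compl V v
    rw [← hc.card_eq] at this; omega
  have c1 : Fintype.card {x // π x ∈ V} = 2 * d := by
    rw [(cyc_res hc V).card_eq, Finset.sum_coe_sort V v, hV1]
  have c2 : Fintype.card {x // π x ∈ Vᶜ} = 2 * (D - d) := by
    rw [(cyc_res hc Vᶜ).card_eq, Finset.sum_coe_sort Vᶜ v, hV2]
  have hτ : 0 ≤ τ₀⁻¹ := inv_nonneg.2 h0.le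
  calc _ ≤ ∑ L : Finset I, 4 ^ D * ∑ A' ∈ SP d, ∑ A'' ∈ SP (D - d),
        kap V v A' u' * kap Vᶜ v A'' u'' * DF A' * DF A'' * C ^ ((#A' + #A'') ^ 2) *
          τ₀⁻¹ ^ (D - A''.sup id) *
        ∑ κ' ∈ OT {a // a ∈ L} d, ∑ κ'' ∈ OT {a // a ∈ Lᶜ} (D - d),
          (∏ a, omP (if h : a ∈ L then κ' ⟨a, h⟩ else κ'' ⟨a, Finset.mem_compl.2 h⟩) (b a)) *
          ((∏ a, (#A' * τ₁ ^ κ' a)) * ∏ a, (1 + ((#A'' - 1 : ℕ) : ℝ) * τ₁ ^ κ'' a)) := by
        refine Finset.sum_le_sum fun L _ => ?_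
        obtain ⟨S', e', b', -⟩ := hf _ _ _ _ _ _ (cyc_res hc V) d c1 hd.1
          (fun a : {a // a ∈ L} => b a.1)
        obtain ⟨S'', e'', b'', -⟩ := hf _ _ _ _ _ _ (cyc_res hc Vᶜ) (D - d) c2 (by omega)
          (fun a : {a // a ∈ Lᶜ} => b a.1)
        rw [e', e'', mul_mul_mul_comm, ← pow_add, show d + (D - d) = D by omega,
          Finset.sum_mul_sum]
        refine mul_le_mul_of_nonneg_left (Finset.sum_le_sum fun A' hA' =>
          Finset.sum_le_sum fun A'' hA'' => ?_) (by positivity)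
        have i1 := (b' A' hA' u' hu').2
        have i2 := (b'' A'' hA'' u'' hu'').1
        rw [kap_coe] at i1 i2
        refine (le_abs_self _).trans ?_
        rw [abs_mul]
        refine (mul_le_mul i1 i2 (abs_nonneg _) ((abs_nonneg _).trans i1)).trans ?_
        have k1 := kap_nonneg (v := v) V hA' hu'
        have k2 := kap_nonneg (v := v) Vᶜ hA'' hu''
        have d1 := (DF_pos A').le
        have d2 := (DF_pos A'').le
        have e1 : (∑ κ ∈ OT {a // a ∈ L} d, ∏ i, (omP (κ i) (b i.1) * (#A' * τ₁ ^ κ i))) *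
            (∑ κ ∈ OT {a // a ∈ Lᶜ} (D - d), ∏ i, (omP (κ i) (b i.1) *
              (1 + ((#A'' - 1 : ℕ) : ℝ) * τ₁ ^ κ i))) =
            ∑ κ' ∈ OT {a // a ∈ L} d, ∑ κ'' ∈ OT {a // a ∈ Lᶜ} (D - d),
          (∏ a, omP (if h : a ∈ L then κ' ⟨a, h⟩ else κ'' ⟨a, Finset.mem_compl.2 h⟩) (b a)) *
          ((∏ a, (#A' * τ₁ ^ κ' a)) * ∏ a, (1 + ((#A'' - 1 : ℕ) : ℝ) * τ₁ ^ κ'' a)) := by
          rw [Finset.sum_mul_sum]
          refine Finset.sum_congr rfl fun κ' _ => Finset.sum_congr rfl fun κ'' _ => ?_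
          rw [← Finset.prod_mul_prod_compl L, ← Finset.prod_coe_sort L, ← Finset.prod_coe_sort Lᶜ,
            Finset.prod_mul_distrib, Finset.prod_mul_distrib (f := fun i => omP (κ'' i) (b i.1))]
          have p1 : ∏ i : {a // a ∈ L}, omP (if h : i.1 ∈ L then κ' ⟨i.1, h⟩ else
              κ'' ⟨i.1, Finset.mem_compl.2 h⟩) (b i.1) = ∏ i, omP (κ' i) (b i.1) :=
            Finset.prod_congr rfl fun i _ => by rw [dif_pos i.2]
          have p2 : ∏ i : {a // a ∈ Lᶜ}, omP (if h : i.1 ∈ L then κ' ⟨i.1, h⟩ else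
              κ'' ⟨i.1, Finset.mem_compl.2 h⟩) (b i.1) = ∏ i, omP (κ'' i) (b i.1) :=
            Finset.prod_congr rfl fun i _ => by rw [dif_neg (Finset.mem_compl.1 i.2)]
          rw [p1, p2]; ring
        rw [← e1]
        have s1 : 0 ≤ ∑ κ ∈ OT {a // a ∈ L} d, ∏ i, (omP (κ i) (b i.1) * (#A' * τ₁ ^ κ i)) :=
          Finset.sum_nonneg fun _ _ => Finset.prod_nonneg fun _ _ =>
            mul_nonneg (omP_nonneg _ _) (by positivity)
        have s2 : 0 ≤ ∑ κ ∈ OT {a // a ∈ Lᶜ} (D - d), ∏ i, (omP (κ i) (b i.1) *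
              (1 + ((#A'' - 1 : ℕ) : ℝ) * τ₁ ^ κ i)) :=
          Finset.sum_nonneg fun _ _ => Finset.prod_nonneg fun _ _ =>
            mul_nonneg (omP_nonneg _ _) (by positivity)
        have e2 : τ₀⁻¹ ^ (D - A''.sup id) = τ₀⁻¹ ^ d * τ₀⁻¹ ^ (D - d - A''.sup id) := by
          have := SP_sup_le hA''
          rw [← pow_add]; congr 1; omega
        have e3 : C ^ (#A' ^ 2) * C ^ (#A'' ^ 2) ≤ C ^ ((#A' + #A'') ^ 2) := by
          rw [← pow_add]; exact pow_le_pow_right₀ hC (by rw [add_sq]; omega)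
        rw [e2]
        set X := ∑ κ ∈ OT {a // a ∈ L} d, ∏ i, (omP (κ i) (b i.1) * (#A' * τ₁ ^ κ i))
        set Y := ∑ κ ∈ OT {a // a ∈ Lᶜ} (D - d), ∏ i, (omP (κ i) (b i.1) *
              (1 + ((#A'' - 1 : ℕ) : ℝ) * τ₁ ^ κ i))
        calc _ = (kap V v A' u' * kap Vᶜ v A'' u'' * DF A' * DF A'' *
              (τ₀⁻¹ ^ d * τ₀⁻¹ ^ (D - d - A''.sup id)) * (X * Y)) *
              (C ^ (#A' ^ 2) * C ^ (#A'' ^ 2)) := by ring
          _ ≤ (kap V v A' u' * kap Vᶜ v A'' u'' * DF A' * DF A'' *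
              (τ₀⁻¹ ^ d * τ₀⁻¹ ^ (D - d - A''.sup id)) * (X * Y)) * C ^ ((#A' + #A'') ^ 2) :=
              mul_le_mul_of_nonneg_left e3 (by positivity)
          _ = _ := by ring
    _ ≤ _ := by
        rw [← Finset.mul_sum, Finset.sum_comm]
        refine mul_le_mul_of_nonneg_left (Finset.sum_le_sum fun A' hA' => ?_) (by positivity)
        rw [Finset.sum_comm]
        refine Finset.sum_le_sum fun A'' hA'' => ?_
        rw [← Finset.mul_sum]
        have k1 := kap_nonneg (v := v) V hA' hu'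
        have k2 := kap_nonneg (v := v) Vᶜ hA'' hu''
        have d1 := (DF_pos A').le
        have d2 := (DF_pos A'').le
        refine mul_le_mul_of_nonneg_left ?_ (by positivity)
        have := merge (fun κ : I → ℕ => ∏ a, omP (κ a) (b a))
          (fun κ => Finset.prod_nonneg fun _ _ => omP_nonneg _ _) (fun j => #A' * τ₁ ^ j)
          (fun j => 1 + ((#A'' - 1 : ℕ) : ℝ) * τ₁ ^ j) (fun _ => by positivity)
          (fun _ => by positivity) d (D - d)
        rw [show d + (D - d) = D by omega] at this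
        refine this.trans (le_of_eq (Finset.sum_congr rfl fun κ _ => ?_))
        congr 1
        refine Finset.prod_congr rfl fun a _ => ?_
        have := SP_card_pos hA'' (by omega)
        rw [show #A' + #A'' - 1 = #A' + (#A'' - 1) by omega]
        push_cast; ring

noncomputable def BB (v : J → ℕ) (u' u'' : ℕ → ℝ) (C : ℝ) (D : ℕ) (V : Finset J)
    (A' A'' : Finset ℕ) : ℝ :=
  kap V v A' u' * kap Vᶜ v A'' u'' * DF A' * DF A'' * C ^ ((#A' + #A'') ^ 2) *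
    (97 / 100 : ℝ)⁻¹ ^ (D - A''.sup id)

noncomputable def GG (D k m : ℕ) : ℝ := ∑ κ ∈ OT (Fin k × Bool) D,
  (∏ i, cyl (κ (i, true)) (κ (i, false))) * ∏ a, (1 + (m : ℝ) * (99 / 100 : ℝ) ^ κ a)

theorem BB_nonneg {u' u'' : ℕ → ℝ} {C : ℝ} (hC : 1 ≤ C) (hu' : ∀ R, 1 ≤ R → 0 < u' R)
    (hu'' : ∀ R, 1 ≤ R → 0 < u'' R) (V : Finset J) {d d' : ℕ} {A' A'' : Finset ℕ}
    (hA' : A' ∈ SP d) (hA'' : A'' ∈ SP d') : 0 ≤ BB v u' u'' C D V A' A'' := by
  have k1 := kap_nonneg (v := v) V hA' hu'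
  have k2 := kap_nonneg (v := v) Vᶜ hA'' hu''
  have d1 := (DF_pos A').le
  have d2 := (DF_pos A'').le
  unfold BB; positivity

theorem upper_step {C : ℝ} (hC : 1 ≤ C) (hf : FormulaAt (97 / 100) (99 / 100) C)
    (hc : Cyc σ π v) (hD : Fintype.card H = 2 * D) (u' u'' : ℕ → ℕ → ℝ)
    (hu : ∀ d R, 1 ≤ R → 0 < u' d R ∧ 0 < u'' d R) (k K N : ℕ)
    (ha : ∀ κ : Fin k × Bool → ℕ, (∀ a, 1 ≤ κ a) → ∑ a, κ a = D →
      ∑ p ∈ HW k K N, ∏ i, ((p.2 i : ℝ) * omP (κ (i, true)) (p.2 i) * omP (κ (i, false)) (p.2 i)) ≤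
        2 * (N : ℝ) ^ D / D.factorial * ∏ i, cyl (κ (i, true)) (κ (i, false))) :
    4 / 4 ^ D * ∑ p ∈ HW k K N, (∏ i, (p.2 i : ℝ)) *
          ∑ d ∈ Icc 1 (D / 2), ∑ V ∈ Spl v d, ∑ L : Finset (Fin k × Bool),
            (Sm (res hc V) (fun a : {a // a ∈ L} => p.2 a.1.1) : ℝ) *
              Sm (res hc Vᶜ) (fun a : {a // a ∈ Lᶜ} => p.2 a.1.1) ≤
      8 * (N : ℝ) ^ D / D.factorial * (∑ d ∈ Icc 1 (D / 2), ∑ V ∈ Spl v d, ∑ A' ∈ SP d,
        ∑ A'' ∈ SP (D - d), BB v (u' d) (u'' d) C D V A' A'' * GG D k (#A' + #A'' - 1)) := by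
  have s1 : ∀ p : (Fin k → ℕ) × (Fin k → ℕ), ∀ d ∈ Icc 1 (D / 2), ∀ V ∈ Spl v d,
      ∑ L : Finset (Fin k × Bool),
            (Sm (res hc V) (fun a : {a // a ∈ L} => p.2 a.1.1) : ℝ) *
              Sm (res hc Vᶜ) (fun a : {a // a ∈ Lᶜ} => p.2 a.1.1) ≤
      4 ^ D * ∑ A' ∈ SP d, ∑ A'' ∈ SP (D - d), BB v (u' d) (u'' d) C D V A' A'' *
        ∑ κ ∈ OT (Fin k × Bool) D, (∏ a, omP (κ a) (p.2 a.1)) *
              ∏ a, (1 + ((#A' + #A'' - 1 : ℕ) : ℝ) * (99 / 100 : ℝ) ^ κ a) := by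
    intro p d hd V hV
    have := smsm (I := Fin k × Bool) (by norm_num) (by norm_num) hC hf hc hD hd hV
      (fun a => p.2 a.1) (u' d) (u'' d) (fun R hR => (hu d R hR).1) (fun R hR => (hu d R hR).2)
    unfold BB
    exact this
  calc _ ≤ 4 / 4 ^ D * ∑ p ∈ HW k K N, (∏ i, (p.2 i : ℝ)) *
          ∑ d ∈ Icc 1 (D / 2), ∑ V ∈ Spl v d, 4 ^ D * ∑ A' ∈ SP d, ∑ A'' ∈ SP (D - d),
            BB v (u' d) (u'' d) C D V A' A'' *
              ∑ κ ∈ OT (Fin k × Bool) D, (∏ a, omP (κ a) (p.2 a.1)) *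
              ∏ a, (1 + ((#A' + #A'' - 1 : ℕ) : ℝ) * (99 / 100 : ℝ) ^ κ a) :=
        mul_le_mul_of_nonneg_left (Finset.sum_le_sum fun p _ =>
            mul_le_mul_of_nonneg_left (Finset.sum_le_sum fun d hd =>
              Finset.sum_le_sum fun V hV => s1 p d hd V hV) (by positivity)) (by positivity)
    _ = 4 * ∑ d ∈ Icc 1 (D / 2), ∑ V ∈ Spl v d, ∑ A' ∈ SP d, ∑ A'' ∈ SP (D - d),
            BB v (u' d) (u'' d) C D V A' A'' * ∑ κ ∈ OT (Fin k × Bool) D,
              (∑ p ∈ HW k K N, ∏ i, ((p.2 i : ℝ) * omP (κ (i, true)) (p.2 i) *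
                omP (κ (i, false)) (p.2 i))) *
              ∏ a, (1 + ((#A' + #A'' - 1 : ℕ) : ℝ) * (99 / 100 : ℝ) ^ κ a) := by
          simp only [Finset.mul_sum, Finset.sum_mul]
          rw [Finset.sum_comm]
          refine Finset.sum_congr rfl fun d _ => ?_
          rw [Finset.sum_comm]
          refine Finset.sum_congr rfl fun V _ => ?_
          rw [Finset.sum_comm]
          refine Finset.sum_congr rfl fun A' _ => ?_
          rw [Finset.sum_comm]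
          refine Finset.sum_congr rfl fun A'' _ => ?_
          rw [Finset.sum_comm]
          refine Finset.sum_congr rfl fun κ _ => Finset.sum_congr rfl fun p _ => ?_
          rw [Fintype.prod_prod_type (f := fun a : Fin k × Bool => omP (κ a) (p.2 a.1))]
          simp only [Fintype.prod_bool, Finset.prod_mul_distrib]
          field_simp
    _ ≤ 4 * ∑ d ∈ Icc 1 (D / 2), ∑ V ∈ Spl v d, ∑ A' ∈ SP d, ∑ A'' ∈ SP (D - d),
            BB v (u' d) (u'' d) C D V A' A'' * ∑ κ ∈ OT (Fin k × Bool) D,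
              (2 * (N : ℝ) ^ D / D.factorial * ∏ i, cyl (κ (i, true)) (κ (i, false))) *
              ∏ a, (1 + ((#A' + #A'' - 1 : ℕ) : ℝ) * (99 / 100 : ℝ) ^ κ a) := by
          refine mul_le_mul_of_nonneg_left (Finset.sum_le_sum fun d _ =>
            Finset.sum_le_sum fun V _ => Finset.sum_le_sum fun A' hA' =>
            Finset.sum_le_sum fun A'' hA'' => mul_le_mul_of_nonneg_left
              (Finset.sum_le_sum fun κ hκ => mul_le_mul_of_nonneg_right ?_ ?_)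
              (BB_nonneg hC (fun R hR => (hu d R hR).1) (fun R hR => (hu d R hR).2) V hA' hA''))
              (by norm_num)
          · exact ha κ (mem_OT hκ).2.1 (mem_OT hκ).2.2
          · exact Finset.prod_nonneg fun _ _ => by positivity
    _ = _ := by
          simp only [GG, Finset.mul_sum]
          refine Finset.sum_congr rfl fun d _ => Finset.sum_congr rfl fun V _ =>
            Finset.sum_congr rfl fun A' _ => Finset.sum_congr rfl fun A'' _ =>
            Finset.sum_congr rfl fun κ _ => by ring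

/-- disconnected data, summed over the number of cylinders -/
theorem upper_data (M : ℕ) : ∃ (C' : ℝ) (D₀ : ℕ), ∀ D ≥ D₀,
    ∀ (H J : Type) [Fintype H] [DecidableEq H] [Fintype J] [DecidableEq J] (σ : Perm H)
      (π : H → J) (v : J → ℕ), Cyc σ π v → Fintype.card H = 2 * D → #{j | v j = 1} ≤ M →
      ∃ C'' : ℝ, ∀ N : ℕ, ∑ k ∈ range (D + 1),
        (∑ m ∈ range (N + 1), (datc σ k m (fun δ => Disc π δ.α) : ℝ)) / (2 ^ k * k.factorial) ≤
        C' / √D * (DF {D} * (N : ℝ) ^ D / (D * D.factorial)) + C'' * (N + 1) ^ (D - 1) := by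
  obtain ⟨C₁, hC₁, hf⟩ := formula (97 / 100) (99 / 100) (by norm_num) (by norm_num) (by norm_num)
  obtain ⟨C₂, hC₂, hx⟩ := xi (99 / 100) (by norm_num) (by norm_num)
  obtain ⟨C', D₀, he⟩ := estUp M (C₁ * C₂) (by nlinarith)
  refine ⟨8 * C', max D₀ 1, fun D hD H J _ _ _ _ σ π v hc hcard hM => ?_⟩
  have hD1 : 1 ≤ D := le_of_max_le_right hD
  obtain ⟨u', u'', hu, he⟩ := he D (le_of_max_le_left hD) J v hc.odd hM (by rw [← hc.card_eq, hcard])
  obtain ⟨K₁, ha⟩ := asym D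
  choose K₀ hl using fun k => latUp hc hcard k
  choose Cc hl using fun k => hl k (max (K₀ k) K₁) (le_max_left _ _)
  refine ⟨∑ k ∈ range (D + 1), Cc k / (2 ^ k * k.factorial), fun N => ?_⟩
  have step : ∀ k, (∑ m ∈ range (N + 1), (datc σ k m (fun δ => Disc π δ.α) : ℝ)) ≤
      8 * (N : ℝ) ^ D / D.factorial * (∑ d ∈ Icc 1 (D / 2), ∑ V ∈ Spl v d, ∑ A' ∈ SP d,
        ∑ A'' ∈ SP (D - d), BB v (u' d) (u'' d) C₁ D V A' A'' * GG D k (#A' + #A'' - 1)) +
        Cc k * (N + 1) ^ (D - 1) := fun k =>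
    (hl k N).trans (add_le_add_left (upper_step hC₁ hf hc hcard u' u'' hu k _ N
      (ha _ (le_max_right _ _) k N)) _)
  calc _ ≤ ∑ k ∈ range (D + 1), (8 * (N : ℝ) ^ D / D.factorial * (∑ d ∈ Icc 1 (D / 2),
        ∑ V ∈ Spl v d, ∑ A' ∈ SP d, ∑ A'' ∈ SP (D - d),
          BB v (u' d) (u'' d) C₁ D V A' A'' * GG D k (#A' + #A'' - 1)) +
        Cc k * (N + 1) ^ (D - 1)) / (2 ^ k * k.factorial) :=
        Finset.sum_le_sum fun k _ => div_le_div_of_nonneg_right (step k) (by positivity)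
    _ = 8 * (N : ℝ) ^ D / D.factorial * (∑ d ∈ Icc 1 (D / 2),
        ∑ V ∈ Spl v d, ∑ A' ∈ SP d, ∑ A'' ∈ SP (D - d), BB v (u' d) (u'' d) C₁ D V A' A'' *
          ∑ k ∈ range (D + 1), GG D k (#A' + #A'' - 1) / (2 ^ k * k.factorial)) +
        (∑ k ∈ range (D + 1), Cc k / (2 ^ k * k.factorial)) * (N + 1) ^ (D - 1) := by
        simp only [add_div, Finset.sum_add_distrib]
        congr 1
        · simp only [Finset.mul_sum, Finset.sum_div]
          rw [Finset.sum_comm]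
          refine Finset.sum_congr rfl fun d _ => ?_
          rw [Finset.sum_comm]
          refine Finset.sum_congr rfl fun V _ => ?_
          rw [Finset.sum_comm]
          refine Finset.sum_congr rfl fun A' _ => ?_
          rw [Finset.sum_comm]
          exact Finset.sum_congr rfl fun A'' _ => Finset.sum_congr rfl fun k _ => by ring
        · rw [Finset.sum_mul]; exact Finset.sum_congr rfl fun k _ => by ring
    _ ≤ _ := by
        refine add_le_add_left ?_ _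
        have h1 : ∑ d ∈ Icc 1 (D / 2), ∑ V ∈ Spl v d, ∑ A' ∈ SP d, ∑ A'' ∈ SP (D - d),
            BB v (u' d) (u'' d) C₁ D V A' A'' *
              ∑ k ∈ range (D + 1), GG D k (#A' + #A'' - 1) / (2 ^ k * k.factorial) ≤
            (C' * DF {D} / D) / √D := by
          refine le_trans ?_ (div_le_div_of_nonneg_right he (Real.sqrt_nonneg _))
          simp only [Finset.sum_div]
          refine Finset.sum_le_sum fun d hd => Finset.sum_le_sum fun V _ =>
            Finset.sum_le_sum fun A' hA' => Finset.sum_le_sum fun A'' hA'' => ?_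
          have h2 := hx D hD1 (#A' + #A'' - 1) (fun j => 1 + ((#A' + #A'' - 1 : ℕ) : ℝ) *
            (99 / 100 : ℝ) ^ j) (fun _ => by positivity) (fun _ => le_rfl)
          have h3 := SP_card_pos hA' (mem_Icc.1 hd).1
          rw [show #A' + #A'' - 1 + 1 = #A' + #A'' by omega] at h2
          refine (mul_le_mul_of_nonneg_left h2 (BB_nonneg hC₁ (fun R hR => (hu d R hR).1)
            (fun R hR => (hu d R hR).2) V hA' hA'')).trans (le_of_eq ?_)
          simp only [BB, mul_pow, inv_div]; ring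
        refine (mul_le_mul_of_nonneg_left h1 (by positivity)).trans (le_of_eq ?_)
        ring

end Pool.Agent.STS
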